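import Mathlib

/-!
Polynomials over a finite field and base `q` digits.
-/

set_option autoImplicit false

namespace Pool.Agent.X173.HFA

open Finset Polynomial

variable {F : Type} [Field F] [Fintype F]

/-- inverse of the digit map, extended by `0` -/
noncomputable def dig (E : F ≃ Fin (Fintype.card F)) (d : ℕ) : F :=
  if h : d < Fintype.card F then E.symm ⟨d, h⟩ else 0

/-- the polynomial `n(t)` -/
noncomputable def polyOf (E : F ≃ Fin (Fintype.card F)) (n : ℕ) : F[X] :=
  ∑ i ∈ range n, monomial i (dig E (n / Fintype.card F ^ i % Fintype.card F))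

/-- `Σ_j E(c_j) q^j` -/
noncomputable def evP (E : F ≃ Fin (Fintype.card F)) (b : F[X]) : ℕ :=
  b.sum fun j c => (E c : ℕ) * Fintype.card F ^ j

lemma q2 : 2 ≤ Fintype.card F := Fintype.one_lt_card

variable {E : F ≃ Fin (Fintype.card F)}

lemma E_dig {d : ℕ} (hd : d < Fintype.card F) : (E (dig E d) : ℕ) = d := by
  unfold dig
  rw [dif_pos hd, Equiv.apply_symm_apply]

lemma dig_E (x : F) : dig E (E x) = x := by
  unfold dig
  rw [dif_pos (E x).2]
  simp

lemma dig_zero (hE : (E 0 : ℕ) = 0) : dig E 0 = 0 := by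
  have := dig_E (E := E) 0
  rwa [hE] at this

lemma coeff_polyOf (hE : (E 0 : ℕ) = 0) (n i : ℕ) :
    (polyOf E n).coeff i = dig E (n / Fintype.card F ^ i % Fintype.card F) := by
  unfold polyOf
  rw [finsetSum_coeff]
  simp_rw [coeff_monomial]
  rw [Finset.sum_ite_eq' (range n) i]
  split_ifs with h
  · rfl
  · rw [mem_range, not_lt] at h
    have h1 : n < Fintype.card F ^ i := lt_of_le_of_lt h (Nat.lt_pow_self q2)
    rw [Nat.div_eq_of_lt h1, Nat.zero_mod, dig_zero hE]

lemma polyOf_zero : polyOf E 0 = 0 := by simp [polyOf]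

lemma polyOf_rec (hE : (E 0 : ℕ) = 0) (n : ℕ) :
    polyOf E n = C (dig E (n % Fintype.card F)) + X * polyOf E (n / Fintype.card F) := by
  ext i
  rw [coeff_polyOf hE, coeff_add]
  cases i with
  | zero => simp
  | succ i =>
    rw [coeff_C_succ, zero_add, coeff_X_mul, coeff_polyOf hE, pow_succ', Nat.div_div_eq_div_mul]

lemma evP_eq (hE : (E 0 : ℕ) = 0) (f : F[X]) (n : ℕ) (hn : f.natDegree < n) :
    evP E f = ∑ j ∈ range n, (E (f.coeff j) : ℕ) * Fintype.card F ^ j := by
  unfold evP
  exact Polynomial.sum_over_range' f (fun n => by simp [hE]) n hn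

lemma evP_zero : evP E 0 = 0 := by simp [evP]

omit [Fintype F] in
lemma natDegree_divX_lt (f : F[X]) (n : ℕ) (hn : f.natDegree < n + 1) : (divX f).natDegree < n ∨ divX f = 0 := by
  rw [natDegree_divX_eq_natDegree_tsub_one]
  by_cases h : f.natDegree = 0
  · right
    rw [Polynomial.divX_eq_zero_iff]
    exact eq_C_of_natDegree_eq_zero h
  · left; omega

lemma evP_rec (hE : (E 0 : ℕ) = 0) (f : F[X]) :
    evP E f = (E (f.coeff 0) : ℕ) + Fintype.card F * evP E (divX f) := by
  have h1 : f.natDegree < f.natDegree + 1 := Nat.lt_succ_self _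
  rw [evP_eq hE f (f.natDegree + 1 + 1) (by omega), Finset.sum_range_succ']
  rw [evP_eq hE (divX f) (f.natDegree + 1)
    (by rw [natDegree_divX_eq_natDegree_tsub_one]; omega)]
  rw [mul_sum, add_comm]
  congr 1
  · simp
  · refine sum_congr rfl fun j _ => ?_
    rw [coeff_divX]
    ring

lemma evP_polyOf (hE : (E 0 : ℕ) = 0) (n : ℕ) : evP E (polyOf E n) = n := by
  induction n using Nat.strong_induction_on with
  | _ n ih =>
    rcases Nat.eq_zero_or_pos n with rfl | hn
    · rw [polyOf_zero, evP_zero]
    · have h2 := q2 (F := F)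
      rw [evP_rec hE]
      have e1 : divX (polyOf E n) = polyOf E (n / Fintype.card F) := by
        ext i
        rw [coeff_divX, coeff_polyOf hE, coeff_polyOf hE, pow_succ', Nat.div_div_eq_div_mul]
      rw [e1, ih _ (Nat.div_lt_self hn (by omega)), coeff_polyOf hE]
      rw [pow_zero, Nat.div_one, E_dig (Nat.mod_lt _ (by omega))]
      exact Nat.mod_add_div _ _

lemma polyOf_evP (hE : (E 0 : ℕ) = 0) (f : F[X]) : polyOf E (evP E f) = f := by
  have key : ∀ (n : ℕ) (f : F[X]), f.natDegree < n → polyOf E (evP E f) = f := by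
    intro n
    induction n with
    | zero => intro f hf; omega
    | succ n ih =>
      intro f hf
      have hq : 0 < Fintype.card F := by have := q2 (F := F); omega
      have hlt := (E (f.coeff 0)).2
      rw [polyOf_rec hE]
      have e1 : evP E f % Fintype.card F = (E (f.coeff 0) : ℕ) := by
        rw [evP_rec hE, Nat.add_mul_mod_self_left, Nat.mod_eq_of_lt hlt]
      have e2 : evP E f / Fintype.card F = evP E (divX f) := by
        rw [evP_rec hE, Nat.add_mul_div_left _ _ hq, Nat.div_eq_of_lt hlt, zero_add]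
      rw [e1, e2, dig_E]
      have e3 : polyOf E (evP E (divX f)) = divX f := by
        rcases natDegree_divX_lt f n hf with h | h
        · exact ih _ h
        · rw [h, evP_zero, polyOf_zero]
      rw [e3, add_comm, mul_comm]
      exact divX_mul_X_add f
  exact key _ f (Nat.lt_succ_self _)

lemma polyOf_inj (hE : (E 0 : ℕ) = 0) : Function.Injective (polyOf E) := by
  intro a b h
  rw [← evP_polyOf hE a, h, evP_polyOf hE]

lemma degree_polyOf_lt (hE : (E 0 : ℕ) = 0) (n M : ℕ) (h : n < Fintype.card F ^ M) :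
    (polyOf E n).degree < M := by
  rw [degree_lt_iff_coeff_zero]
  intro m hm
  rw [coeff_polyOf hE]
  have h1 : n < Fintype.card F ^ m := lt_of_lt_of_le h (Nat.pow_le_pow_right (by have := q2 (F := F); omega) hm)
  rw [Nat.div_eq_of_lt h1, Nat.zero_mod, dig_zero hE]

lemma evP_lt (hE : (E 0 : ℕ) = 0) (M : ℕ) : ∀ f : F[X], f.degree < M → evP E f < Fintype.card F ^ M := by
  induction M with
  | zero =>
    intro f hf
    have : f = 0 := by
      rw [← Polynomial.degree_eq_bot]
      rw [Nat.cast_zero] at hf
      exact Nat.WithBot.lt_zero_iff.1 hf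
    rw [this, evP_zero]
    simp
  | succ M ih =>
    intro f hf
    rw [evP_rec hE]
    have h1 : (divX f).degree < M := by
      rw [degree_lt_iff_coeff_zero] at hf ⊢
      intro m hm
      rw [coeff_divX]
      exact hf _ (by omega)
    have h2 := ih _ h1
    have h3 := (E (f.coeff 0)).2
    have h4 : Fintype.card F * (evP E (divX f) + 1) ≤ Fintype.card F * Fintype.card F ^ M :=
      Nat.mul_le_mul_left _ h2
    rw [pow_succ']
    rw [mul_add] at h4
    omega

/-- the polynomials of degree `< M` -/
noncomputable def PF (E : F ≃ Fin (Fintype.card F)) (M : ℕ) : Finset F[X] :=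
  by classical exact (range (Fintype.card F ^ M)).image (polyOf E)

lemma mem_PF (hE : (E 0 : ℕ) = 0) (M : ℕ) (f : F[X]) : f ∈ PF E M ↔ f.degree < M := by
  classical
  unfold PF
  rw [mem_image]
  constructor
  · rintro ⟨n, hn, rfl⟩
    exact degree_polyOf_lt hE n M (mem_range.1 hn)
  · intro h
    exact ⟨evP E f, mem_range.2 (evP_lt hE M f h), polyOf_evP hE f⟩

lemma sum_PF (hE : (E 0 : ℕ) = 0) (M : ℕ) (g : F[X] → ℝ) :
    ∑ f ∈ PF E M, g f = ∑ n ∈ range (Fintype.card F ^ M), g (polyOf E n) := by
  classical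
  unfold PF
  rw [sum_image (fun a _ b _ h => polyOf_inj hE h)]

lemma card_PF (hE : (E 0 : ℕ) = 0) (M : ℕ) : (PF E M).card = Fintype.card F ^ M := by
  classical
  unfold PF
  rw [card_image_of_injective _ (polyOf_inj hE), card_range]

/-- top digits split off -/
lemma polyOf_add (hE : (E 0 : ℕ) = 0) (M v n : ℕ) (hn : n < Fintype.card F ^ M) :
    polyOf E (Fintype.card F ^ M * v + n) = X ^ M * polyOf E v + polyOf E n := by
  have hq := q2 (F := F)
  have hq0 : 0 < Fintype.card F := by omega
  ext i
  rw [coeff_polyOf hE, coeff_add, coeff_X_pow_mul', coeff_polyOf hE]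
  split_ifs with h
  · rw [coeff_polyOf hE]
    have h1 : n < Fintype.card F ^ i := lt_of_lt_of_le hn (Nat.pow_le_pow_right hq0 h)
    rw [Nat.div_eq_of_lt h1, Nat.zero_mod, dig_zero hE, add_zero]
    congr 2
    obtain ⟨j, rfl⟩ := Nat.exists_eq_add_of_le h
    rw [pow_add, ← Nat.div_div_eq_div_mul, Nat.mul_add_div (pow_pos hq0 M), Nat.div_eq_of_lt hn,
      add_zero, Nat.add_sub_cancel_left]
  · push Not at h
    rw [zero_add]
    obtain ⟨j, rfl⟩ := Nat.exists_eq_add_of_lt h
    have e : Fintype.card F ^ (i + j + 1) * v + n =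
        n + Fintype.card F ^ i * (Fintype.card F * (Fintype.card F ^ j * v)) := by ring
    rw [e, Nat.add_mul_div_left _ _ (pow_pos hq0 i), Nat.add_mul_mod_self_left, coeff_polyOf hE]

/-- splitting a coset of the polynomials of degree `< M` modulo `P` -/
lemma sum_coset (hE : (E 0 : ℕ) = 0) (P : F[X]) (hP : P ≠ 0) (M : ℕ) (hM : P.natDegree ≤ M)
    (u : F[X]) (h : F[X] → ℝ) :
    ∑ f ∈ PF E M, h (u + f) = ∑ d ∈ range (Fintype.card F ^ P.natDegree),
      ∑ f ∈ PF E (M - P.natDegree), h (polyOf E d + P * (u / P + f)) := by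
  have hPd : P.degree = P.natDegree := degree_eq_natDegree hP
  rw [Finset.sum_sigma']
  have hmod : ∀ a b : F[X], (a + b) % P = a % P + b % P := fun a b => Polynomial.add_mod a b P
  have hdm : ∀ a : F[X], P * (a / P) + a % P = a := fun a => EuclideanDomain.div_add_mod a P
  have hdiv : ∀ a b : F[X], (a + b) / P = a / P + b / P := fun a b => by
    apply mul_left_cancel₀ hP
    have h1 := hdm a
    have h2 := hdm b
    have h3 := hdm (a + b)
    rw [hmod] at h3
    linear_combination h3 - h1 - h2
  have hml : ∀ a : F[X], (a % P).degree < P.natDegree := by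
    intro a
    rw [← hPd]
    exact Polynomial.degree_mod_lt a hP
  refine Finset.sum_nbij' (fun f => (⟨evP E ((u + f) % P), f / P⟩ : Σ _ : ℕ, F[X]))
    (fun x => polyOf E x.1 + P * (u / P + x.2) - u) ?_ ?_ ?_ ?_ ?_
  · intro f hf
    rw [mem_PF hE] at hf
    rw [mem_sigma, mem_range, mem_PF hE]
    refine ⟨evP_lt hE _ _ (hml _), ?_⟩
    show (f / P).degree < ((M - P.natDegree : ℕ) : WithBot ℕ)
    by_cases h0 : f / P = 0
    · rw [h0, degree_zero]; exact WithBot.bot_lt_coe _
    have h1 : P.degree ≤ f.degree := by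
      by_contra hlt
      push Not at hlt
      exact h0 (Polynomial.div_eq_zero_iff hP |>.2 hlt)
    have h2 := Polynomial.degree_add_div hP h1
    have hf0 : f ≠ 0 := by rintro rfl; simp at h0
    rw [degree_eq_natDegree hf0, hPd, degree_eq_natDegree h0] at h2
    rw [degree_eq_natDegree hf0] at hf
    rw [degree_eq_natDegree h0]
    have h3 : P.natDegree + (f / P).natDegree = f.natDegree := by exact_mod_cast h2
    have h4 : f.natDegree < M := by exact_mod_cast hf
    have : (f / P).natDegree < M - P.natDegree := by omega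
    exact_mod_cast this
  · intro x hx
    rw [mem_sigma, mem_range, mem_PF hE] at hx
    obtain ⟨h1, h2⟩ := hx
    rw [mem_PF hE]
    show (polyOf E x.1 + P * (u / P + x.2) - u).degree < M
    have e : polyOf E x.1 + P * (u / P + x.2) - u = (polyOf E x.1 - u % P) + P * x.2 := by
      have := hdm u
      linear_combination this
    rw [e]
    refine lt_of_le_of_lt (degree_add_le _ _) (max_lt ?_ ?_)
    · refine lt_of_le_of_lt (degree_sub_le _ _) (max_lt ?_ ?_)
      · refine (degree_polyOf_lt hE _ _ h1).trans_le ?_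
        exact_mod_cast hM
      · refine (hml u).trans_le ?_
        exact_mod_cast hM
    · by_cases h0 : x.2 = 0
      · rw [h0, mul_zero, degree_zero]; exact WithBot.bot_lt_coe _
      · rw [degree_mul, hPd, degree_eq_natDegree h0]
        rw [degree_eq_natDegree h0] at h2
        have h3 : (x.2).natDegree < M - P.natDegree := by exact_mod_cast h2
        have : P.natDegree + (x.2).natDegree < M := by omega
        exact_mod_cast this
  · intro f hf
    show polyOf E (evP E ((u + f) % P)) + P * (u / P + f / P) - u = f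
    rw [polyOf_evP hE, ← hdiv]
    have := hdm (u + f)
    linear_combination this
  · intro x hx
    rw [mem_sigma, mem_range, mem_PF hE] at hx
    obtain ⟨h1, h2⟩ := hx
    have hd : (polyOf E x.1).degree < P.degree := by
      rw [hPd]; exact degree_polyOf_lt hE _ _ h1
    have e1 : u + (polyOf E x.1 + P * (u / P + x.2) - u) = polyOf E x.1 + P * (u / P + x.2) := by
      ring
    have e2 : (polyOf E x.1 + P * (u / P + x.2)) % P = polyOf E x.1 := by
      rw [hmod, (EuclideanDomain.mod_eq_zero).2 (dvd_mul_right P _), add_zero]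
      exact (Polynomial.mod_eq_self_iff hP).2 hd
    have e3 : (polyOf E x.1 + P * (u / P + x.2) - u) / P = x.2 := by
      have e4 : polyOf E x.1 + P * (u / P + x.2) - u = (polyOf E x.1 - u % P) + P * x.2 := by
        have := hdm u
        linear_combination this
      rw [e4, hdiv]
      have h5 : (polyOf E x.1 - u % P) / P = 0 := by
        rw [Polynomial.div_eq_zero_iff hP]
        refine lt_of_le_of_lt (degree_sub_le _ _) (max_lt hd ?_)
        exact Polynomial.degree_mod_lt u hP
      rw [h5, zero_add]
      exact mul_div_cancel_left₀ _ hP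
    ext1
    · show evP E ((u + (polyOf E x.1 + P * (u / P + x.2) - u)) % P) = x.1
      rw [e1, e2, evP_polyOf hE]
    · exact heq_of_eq e3
  · intro f hf
    show h (u + f) = h (polyOf E (evP E ((u + f) % P)) + P * (u / P + f / P))
    rw [polyOf_evP hE, ← hdiv]
    congr 1
    have := hdm (u + f)
    linear_combination -this

end Pool.Agent.X173.HFA
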