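import Mathlib
import Pool.Agent.X173.HFA

/-!
Real numbers with base `q` digits in a finite field; the digital van der Corput map; counting
lemmas.
-/

set_option autoImplicit false
set_option linter.unusedSectionVars false

namespace Pool.Agent.X173.HFB

open Finset Polynomial Pool.Agent.X173.HFA

variable {F : Type} [Field F] [Fintype F]

/-- the real number with the digits `E (a 0), E (a 1), ...` after the point -/
noncomputable def evd (E : F ≃ Fin (Fintype.card F)) (a : ℕ → F) : ℝ :=
  ∑' i : ℕ, ((E (a i) : ℕ) : ℝ) / (Fintype.card F : ℝ) ^ (i + 1)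

variable {E : F ≃ Fin (Fintype.card F)}

lemma qr2 : (2:ℝ) ≤ (Fintype.card F : ℝ) := by exact_mod_cast q2 (F := F)

lemma E_le (x : F) : ((E x : ℕ) : ℝ) + 1 ≤ (Fintype.card F : ℝ) := by
  exact_mod_cast (E x).2

lemma geo_has : HasSum (fun i : ℕ => ((Fintype.card F : ℝ) - 1) / (Fintype.card F : ℝ) ^ (i + 1)) 1 := by
  have hq := qr2 (F := F)
  have h1 := hasSum_geometric_of_lt_one (r := 1 / (Fintype.card F : ℝ)) (by positivity)
    (by rw [div_lt_one (by linarith)]; linarith)
  have h2 := h1.mul_left (((Fintype.card F : ℝ) - 1) / (Fintype.card F : ℝ))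
  have e1 : ((Fintype.card F : ℝ) - 1) / (Fintype.card F : ℝ) * (1 - 1 / (Fintype.card F : ℝ))⁻¹ = 1 := by
    have h3 : (Fintype.card F : ℝ) - 1 ≠ 0 := by linarith
    have h4 : (Fintype.card F : ℝ) ≠ 0 := by linarith
    have h5 : 1 - 1 / (Fintype.card F : ℝ) = ((Fintype.card F : ℝ) - 1) / (Fintype.card F : ℝ) := by
      field_simp
    rw [h5, mul_inv_cancel₀ (div_ne_zero h3 h4)]
  rw [e1] at h2
  have e2 : (fun i : ℕ => ((Fintype.card F : ℝ) - 1) / (Fintype.card F : ℝ) * (1 / (Fintype.card F : ℝ)) ^ i) =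
      fun i : ℕ => ((Fintype.card F : ℝ) - 1) / (Fintype.card F : ℝ) ^ (i + 1) := by
    funext i
    rw [one_div, inv_pow, pow_succ, div_mul_eq_mul_div, ← div_eq_mul_inv, div_div, mul_comm (_ ^ i)]
  rwa [e2] at h2

lemma evd_summable (a : ℕ → F) :
    Summable fun i : ℕ => ((E (a i) : ℕ) : ℝ) / (Fintype.card F : ℝ) ^ (i + 1) := by
  have hq := qr2 (F := F)
  refine Summable.of_nonneg_of_le (fun i => by positivity) (fun i => ?_) (geo_has (F := F)).summable
  have := E_le (E := E) (a i)
  gcongr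
  linarith

lemma evd_nonneg (a : ℕ → F) : 0 ≤ evd E a := tsum_nonneg fun i => by positivity

lemma evd_le_one (a : ℕ → F) : evd E a ≤ 1 := by
  have hq := qr2 (F := F)
  have h := geo_has (F := F)
  rw [← h.tsum_eq]
  refine (evd_summable a).tsum_le_tsum (fun i => ?_) h.summable
  have := E_le (E := E) (a i)
  gcongr
  linarith

lemma evd_rec (a : ℕ → F) :
    evd E a = (((E (a 0) : ℕ) : ℝ) + evd E (fun i => a (i + 1))) / (Fintype.card F : ℝ) := by
  have hq := qr2 (F := F)
  have hq0 : (Fintype.card F : ℝ) ≠ 0 := by linarith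
  unfold evd
  rw [(evd_summable a).tsum_eq_zero_add]
  have e1 : ∀ i : ℕ, ((E (a (i + 1)) : ℕ) : ℝ) / (Fintype.card F : ℝ) ^ (i + 1 + 1) =
      ((E (a (i + 1)) : ℕ) : ℝ) / (Fintype.card F : ℝ) ^ (i + 1) / (Fintype.card F : ℝ) := by
    intro i
    rw [pow_succ (Fintype.card F : ℝ) (i + 1), div_div]
  simp_rw [e1]
  rw [tsum_div_const]
  field_simp
  ring

/-- the integer with the first `l` digits -/
noncomputable def numS (E : F ≃ Fin (Fintype.card F)) (a : ℕ → F) : ℕ → ℕ
  | 0 => 0
  | l + 1 => Fintype.card F * numS E a l + (E (a l) : ℕ)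

lemma evd_split (a : ℕ → F) (l : ℕ) :
    evd E a = ((numS E a l : ℝ) + evd E (fun i => a (i + l))) / (Fintype.card F : ℝ) ^ l := by
  have hq := qr2 (F := F)
  have hq0 : (Fintype.card F : ℝ) ≠ 0 := by linarith
  induction l with
  | zero => simp [numS]
  | succ l ih =>
    rw [ih]
    have := evd_rec (E := E) (fun i => a (i + l))
    simp only [zero_add] at this
    rw [this]
    have e : (fun i => a (i + 1 + l)) = fun i => a (i + (l + 1)) := by
      funext i; congr 1; ring
    rw [e]
    simp only [numS]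
    push_cast
    field_simp
    ring

lemma evd_ge (a : ℕ → F) (l : ℕ) :
    (numS E a l : ℝ) / (Fintype.card F : ℝ) ^ l ≤ evd E a := by
  have hq := qr2 (F := F)
  rw [evd_split a l]
  gcongr
  linarith [evd_nonneg (E := E) (fun i => a (i + l))]

lemma evd_le (a : ℕ → F) (l : ℕ) :
    evd E a ≤ ((numS E a l : ℝ) + 1) / (Fintype.card F : ℝ) ^ l := by
  have hq := qr2 (F := F)
  rw [evd_split a l]
  gcongr
  exact evd_le_one _

/-- the integer with the digits `w` -/
noncomputable def numW (E : F ≃ Fin (Fintype.card F)) (l : ℕ) (w : Fin l → F) : ℕ :=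
  ∑ i : Fin l, (E (w (Fin.rev i)) : ℕ) * Fintype.card F ^ (i : ℕ)

lemma numS_eq (a : ℕ → F) (l : ℕ) : numS E a l = numW E l (fun i => a i) := by
  induction l with
  | zero => simp [numS, numW]
  | succ l ih =>
    simp only [numS]
    rw [ih]
    unfold numW
    rw [Fin.sum_univ_succ, mul_sum, add_comm]
    congr 1
    · simp [Fin.rev]
    · refine sum_congr rfl fun i _ => ?_
      have e : ((Fin.rev i.succ : Fin (l + 1)) : ℕ) = ((Fin.rev i : Fin l) : ℕ) := by
        simp only [Fin.val_rev, Fin.val_succ]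
        omega
      beta_reduce
      rw [e, Fin.val_succ]
      ring

lemma sum_numW (l : ℕ) (g : ℕ → ℝ) :
    ∑ w : Fin l → F, g (numW E l w) = ∑ n ∈ range (Fintype.card F ^ l), g n := by
  have e1 : ∀ w : Fin l → F, numW E l w =
      ((finFunctionFinEquiv (fun i : Fin l => E (w (Fin.rev i))) : Fin (Fintype.card F ^ l)) : ℕ) := by
    intro w
    rw [finFunctionFinEquiv_apply]
    rfl
  let e : (Fin l → F) ≃ (Fin l → Fin (Fintype.card F)) :=
    (Equiv.arrowCongr Fin.revPerm E)
  have e2 : ∀ w : Fin l → F, (fun i : Fin l => E (w (Fin.rev i))) = e w := by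
    intro w
    funext i
    simp [e, Equiv.arrowCongr]
  simp_rw [e1, e2]
  rw [Equiv.sum_comp e (fun x => g ((finFunctionFinEquiv x : Fin (Fintype.card F ^ l)) : ℕ))]
  rw [Equiv.sum_comp finFunctionFinEquiv (fun x : Fin (Fintype.card F ^ l) => g (x : ℕ))]
  exact Fin.sum_univ_eq_sum_range g _

/-- fibres of a surjective linear map -/
lemma sum_surj (M l : ℕ) (A : (Fin M → F) →ₗ[F] (Fin l → F)) (hA : Function.Surjective A)
    (g : (Fin l → F) → ℝ) :
    ∑ x : Fin M → F, g (A x) = (Fintype.card F : ℝ) ^ M / (Fintype.card F : ℝ) ^ l *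
      ∑ w : Fin l → F, g w := by
  classical
  have hq := qr2 (F := F)
  have hcard : ∀ w : Fin l → F, (univ.filter fun x : Fin M → F => A x = w).card =
      (univ.filter fun x : Fin M → F => A x = 0).card := by
    intro w
    obtain ⟨x0, hx0⟩ := hA w
    refine Finset.card_bij' (fun x _ => x - x0) (fun x _ => x + x0) ?_ ?_ ?_ ?_
    · intro x hx
      simp only [mem_filter, mem_univ, true_and] at hx ⊢
      rw [map_sub, hx, hx0, sub_self]
    · intro x hx
      simp only [mem_filter, mem_univ, true_and] at hx ⊢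
      rw [map_add, hx, hx0, zero_add]
    · intro x _; simp
    · intro x _; simp
  set K := (univ.filter fun x : Fin M → F => A x = 0).card with hK
  have hsum : ∀ h : (Fin l → F) → ℝ, ∑ x : Fin M → F, h (A x) = K * ∑ w : Fin l → F, h w := by
    intro h
    rw [← Finset.sum_fiberwise (s := univ) (g := A) (f := fun x => h (A x)), mul_sum]
    refine sum_congr rfl fun w _ => ?_
    rw [← hcard w]
    rw [sum_congr rfl (g := fun _ => h w) (fun x hx => by rw [(mem_filter.1 hx).2])]
    rw [sum_const, nsmul_eq_mul]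
  have h1 := hsum (fun _ => 1)
  simp only [sum_const, card_univ, nsmul_eq_mul, mul_one] at h1
  rw [Fintype.card_fun, Fintype.card_fun, Fintype.card_fin, Fintype.card_fin] at h1
  push_cast at h1
  rw [hsum g]
  congr 1
  rw [eq_div_iff (by positivity)]
  exact h1.symm

lemma count_lt (L : ℕ) (y : ℝ) (hy : 0 ≤ y) :
    ∑ n ∈ range L, (if (n:ℝ) < y then (1:ℝ) else 0) ≤ y + 1 := by
  rw [← Finset.sum_filter, sum_const, nsmul_eq_mul, mul_one]
  have h1 : (range L).filter (fun n : ℕ => (n:ℝ) < y) ⊆ range (⌊y⌋₊ + 1) := by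
    intro n hn
    rw [mem_filter] at hn
    rw [mem_range, Nat.lt_succ_iff]
    exact Nat.le_floor hn.2.le
  have h2 := card_le_card h1
  rw [card_range] at h2
  calc (((range L).filter (fun n : ℕ => (n:ℝ) < y)).card : ℝ) ≤ ((⌊y⌋₊ + 1 : ℕ) : ℝ) := by
        exact_mod_cast h2
    _ ≤ y + 1 := by
      push_cast
      linarith [Nat.floor_le hy]

lemma count_gt (L : ℕ) (y : ℝ) (hy : y ≤ L) :
    y - 2 ≤ ∑ n ∈ range L, (if (n:ℝ) + 1 < y then (1:ℝ) else 0) := by
  rw [← Finset.sum_filter, sum_const, nsmul_eq_mul, mul_one]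
  rcases lt_or_ge y 2 with h | h
  · have : (0:ℝ) ≤ (((range L).filter (fun n : ℕ => (n:ℝ) + 1 < y)).card : ℝ) := by positivity
    linarith
  have hy0 : 0 ≤ y := by linarith
  have h1 : range (⌊y⌋₊ - 1) ⊆ (range L).filter (fun n : ℕ => (n:ℝ) + 1 < y) := by
    intro n hn
    rw [mem_range] at hn
    have h2 : n + 2 ≤ ⌊y⌋₊ := by omega
    have h3 : ((n + 2 : ℕ) : ℝ) ≤ y := (by exact_mod_cast h2 : ((n + 2 : ℕ) : ℝ) ≤ (⌊y⌋₊ : ℝ)).trans
      (Nat.floor_le hy0)
    push_cast at h3
    rw [mem_filter, mem_range]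
    constructor
    · have : (n:ℝ) < L := by linarith
      exact_mod_cast this
    · linarith
  have h2 := card_le_card h1
  rw [card_range] at h2
  have h3 : (⌊y⌋₊ : ℝ) - 1 ≤ (((⌊y⌋₊ - 1 : ℕ)) : ℝ) := by
    have : ⌊y⌋₊ ≤ (⌊y⌋₊ - 1) + 1 := by omega
    have : (⌊y⌋₊ : ℝ) ≤ ((⌊y⌋₊ - 1 : ℕ) : ℝ) + 1 := by exact_mod_cast this
    linarith
  have h4 : (((⌊y⌋₊ - 1 : ℕ)) : ℝ) ≤ (((range L).filter (fun n : ℕ => (n:ℝ) + 1 < y)).card : ℝ) := by
    exact_mod_cast h2
  have h5 := Nat.lt_floor_add_one y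
  linarith

/-- `B`-adic digits -/
noncomputable def digP (B f : F[X]) (i : ℕ) : F[X] := ((fun g => g / B)^[i] f) % B

/-- the digital van der Corput map on polynomials -/
noncomputable def V (E : F ≃ Fin (Fintype.card F)) (B f : F[X]) : ℝ :=
  ∑' i : ℕ, ((evP E (digP B f i) : ℕ) : ℝ) / ((Fintype.card F : ℝ) ^ B.natDegree) ^ (i + 1)

lemma iter_zero (B : F[X]) (hB : 0 < B.natDegree) (n : ℕ) :
    ∀ f : F[X], f.natDegree < n → (fun g => g / B)^[n] f = 0 := by
  have hB0 : B ≠ 0 := by rintro rfl; simp at hB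
  have hBd : 0 < B.degree := natDegree_pos_iff_degree_pos.1 hB
  induction n with
  | zero => intro f hf; omega
  | succ n ih =>
    intro f hf
    rw [Function.iterate_succ_apply]
    by_cases h : (f / B).natDegree < n
    · exact ih _ h
    · push Not at h
      by_cases hf0 : f / B = 0
      · rw [hf0]
        clear ih hf h hf0
        induction n with
        | zero => rfl
        | succ n ih => rw [Function.iterate_succ_apply, EuclideanDomain.zero_div]; exact ih
      · exfalso
        have hfne : f ≠ 0 := by rintro rfl; simp at hf0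
        have h1 := Polynomial.degree_div_lt hfne hBd
        rw [degree_eq_natDegree hf0, degree_eq_natDegree hfne] at h1
        have : (f / B).natDegree < f.natDegree := by exact_mod_cast h1
        omega

lemma V_summable (B f : F[X]) (hB : 0 < B.natDegree) :
    Summable fun i : ℕ => ((evP E (digP B f i) : ℕ) : ℝ) /
      ((Fintype.card F : ℝ) ^ B.natDegree) ^ (i + 1) := by
  refine summable_of_ne_finset_zero (s := range (f.natDegree + 1)) fun i hi => ?_
  rw [mem_range, not_lt] at hi
  unfold digP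
  rw [iter_zero B hB i f (by omega), EuclideanDomain.zero_mod, evP_zero]
  simp

lemma V_rec (B f : F[X]) (hB : 0 < B.natDegree) :
    V E B f = (((evP E (f % B) : ℕ) : ℝ) + V E B (f / B)) / (Fintype.card F : ℝ) ^ B.natDegree := by
  have hq := qr2 (F := F)
  have hq0 : (Fintype.card F : ℝ) ^ B.natDegree ≠ 0 := by positivity
  unfold V
  rw [(V_summable B f hB).tsum_eq_zero_add]
  have e1 : ∀ i : ℕ, ((evP E (digP B f (i + 1)) : ℕ) : ℝ) /
      ((Fintype.card F : ℝ) ^ B.natDegree) ^ (i + 1 + 1) =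
      ((evP E (digP B (f / B) i) : ℕ) : ℝ) / ((Fintype.card F : ℝ) ^ B.natDegree) ^ (i + 1) /
        (Fintype.card F : ℝ) ^ B.natDegree := by
    intro i
    rw [pow_succ _ (i + 1), div_div]
    rfl
  simp_rw [e1]
  rw [tsum_div_const]
  have e2 : digP B f 0 = f % B := rfl
  rw [e2]
  field_simp
  ring

lemma V_zero (B : F[X]) (hB : 0 < B.natDegree) : V E B 0 = 0 := by
  unfold V
  have : ∀ i : ℕ, digP B (0 : F[X]) i = 0 := by
    intro i
    unfold digP
    have : (fun g : F[X] => g / B)^[i] 0 = 0 := by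
      induction i with
      | zero => rfl
      | succ n ih => rw [Function.iterate_succ_apply, EuclideanDomain.zero_div]; exact ih
    rw [this, EuclideanDomain.zero_mod]
  simp_rw [this, evP_zero]
  simp

lemma V_mem (hE : (E 0 : ℕ) = 0) (B : F[X]) (hB : 0 < B.natDegree) (n : ℕ) :
    ∀ f : F[X], f.natDegree < n → 0 ≤ V E B f ∧ V E B f < 1 := by
  have hq := qr2 (F := F)
  have hB0 : B ≠ 0 := by rintro rfl; simp at hB
  have hBd : 0 < B.degree := natDegree_pos_iff_degree_pos.1 hB
  induction n with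
  | zero => intro f hf; omega
  | succ n ih =>
    intro f hf
    rw [V_rec B f hB]
    have h1 : 0 ≤ V E B (f / B) ∧ V E B (f / B) < 1 := by
      by_cases hf0 : f / B = 0
      · rw [hf0, V_zero B hB]; norm_num
      · apply ih
        have hfne : f ≠ 0 := by rintro rfl; simp at hf0
        have h1 := Polynomial.degree_div_lt hfne hBd
        rw [degree_eq_natDegree hf0, degree_eq_natDegree hfne] at h1
        have : (f / B).natDegree < f.natDegree := by exact_mod_cast h1
        omega
    have h2 : evP E (f % B) < Fintype.card F ^ B.natDegree := by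
      apply evP_lt hE
      rw [← degree_eq_natDegree hB0]
      exact Polynomial.degree_mod_lt f hB0
    have h3 : ((evP E (f % B) : ℕ) : ℝ) + 1 ≤ (Fintype.card F : ℝ) ^ B.natDegree := by
      exact_mod_cast h2
    constructor
    · have := h1.1
      positivity
    · rw [div_lt_one (by positivity)]
      linarith [h1.2]

end Pool.Agent.X173.HFB
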