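import Mathlib
import Pool.Agent.X173.HFB

/-!
Laurent series in `1 / t` and polynomials in `t`; digits of `f Θ + Ψ` for the polynomials `f` of
degree `< M`.
-/

set_option autoImplicit false
set_option linter.unusedSectionVars false

namespace Pool.Agent.X173.HFC

open Finset Polynomial Pool.Agent.X173.HFA Pool.Agent.X173.HFB

variable {F : Type} [Field F] [Fintype F]

/-- a polynomial in `t` as a Laurent series in `1 / t` -/
noncomputable def toS : F[X] →+* LaurentSeries F :=
  Polynomial.eval₂RingHom HahnSeries.C (HahnSeries.single (-1 : ℤ) (1 : F))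

lemma coeff_X_pow_mul (j : ℕ) (Θ : LaurentSeries F) (i : ℤ) :
    (((HahnSeries.single (-1 : ℤ) (1 : F)) ^ j * Θ : LaurentSeries F)).coeff i = Θ.coeff (i + j) := by
  rw [HahnSeries.single_pow]
  have h := HahnSeries.coeff_single_mul_add (r := (1:F) ^ j) (x := Θ) (a := i + j)
    (b := j • (-1 : ℤ))
  have e : i + (j:ℤ) + j • (-1 : ℤ) = i := by simp
  rw [e] at h
  rw [h]
  simp

lemma coeff_toS_mul (f : F[X]) (M : ℕ) (hf : f.degree < M) (Θ : LaurentSeries F) (i : ℤ) :
    (toS f * Θ).coeff i = ∑ j : Fin M, f.coeff j * Θ.coeff (i + (j : ℕ)) := by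
  have h1 : toS f = ∑ j : Fin M, HahnSeries.C (f.coeff j) *
      (HahnSeries.single (-1 : ℤ) (1 : F)) ^ (j : ℕ) := by
    unfold toS
    rw [Polynomial.coe_eval₂RingHom, Polynomial.eval₂_eq_sum]
    exact (Polynomial.sum_fin (fun e a => HahnSeries.C a *
      (HahnSeries.single (-1 : ℤ) (1 : F)) ^ e) (by simp) hf).symm
  rw [h1, sum_mul, HahnSeries.coeff_sum]
  refine sum_congr rfl fun j _ => ?_
  rw [mul_assoc, HahnSeries.C_mul_eq_smul, HahnSeries.coeff_smul, coeff_X_pow_mul, smul_eq_mul]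

/-- the real number given by the digits after the point -/
noncomputable def evL (E : F ≃ Fin (Fintype.card F)) (Θ : LaurentSeries F) : ℝ :=
  evd E (fun i => Θ.coeff ((i : ℤ) + 1))

/-- badly approximable with constant `c` -/
def BadL (c : ℕ) (Θ : LaurentSeries F) : Prop :=
  ∀ (l M : ℕ) (y : F[X]), y ≠ 0 → y.degree < l → l + c ≤ M →
    ∃ j < M, (toS y * Θ).coeff ((j : ℤ) + 1) ≠ 0

/-- first `l` digits of `f Θ` in terms of the coefficients of `f` -/
noncomputable def lin (Θ : LaurentSeries F) (M l : ℕ) : (Fin M → F) →ₗ[F] (Fin l → F) where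
  toFun x i := ∑ j : Fin M, x j * Θ.coeff (((i : ℕ) : ℤ) + 1 + (j : ℕ))
  map_add' x y := by
    funext i
    simp only [Pi.add_apply, add_mul, sum_add_distrib]
  map_smul' r x := by
    funext i
    simp only [Pi.smul_apply, smul_eq_mul, RingHom.id_apply, mul_sum, mul_assoc]

lemma lin_surj {c : ℕ} {Θ : LaurentSeries F} (h : BadL c Θ) (M l : ℕ) (hM : l + c ≤ M) :
    Function.Surjective (lin Θ M l) := by
  by_contra hns
  have hlt : LinearMap.range (lin Θ M l) < ⊤ := by
    rw [lt_top_iff_ne_top]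
    intro heq
    exact hns (LinearMap.range_eq_top.1 heq)
  obtain ⟨φ, hφ0, hφ⟩ := Submodule.exists_le_ker_of_lt_top _ hlt
  -- the polynomial given by φ
  set y : Fin l → F := fun i => φ (Pi.single i 1) with hy
  have hφy : ∀ v : Fin l → F, φ v = ∑ i, v i * y i := by
    intro v
    rw [LinearMap.pi_apply_eq_sum_univ φ v]
    refine sum_congr rfl fun i _ => ?_
    rw [smul_eq_mul]
    congr 2
    funext j
    by_cases hij : i = j
    · subst hij; simp
    · rw [if_neg hij, Pi.single_eq_of_ne (Ne.symm hij)]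
  set Y : F[X] := ∑ i : Fin l, monomial (i : ℕ) (y i) with hY
  have hYc : ∀ k : Fin l, Y.coeff k = y k := by
    intro k
    rw [hY, finsetSum_coeff]
    simp_rw [coeff_monomial]
    rw [Finset.sum_eq_single k]
    · simp
    · intro b _ hb
      rw [if_neg]
      intro hbk
      exact hb (Fin.ext hbk)
    · simp
  have hYd : Y.degree < l := by
    rw [degree_lt_iff_coeff_zero]
    intro m hm
    rw [hY, finsetSum_coeff]
    refine sum_eq_zero fun i _ => ?_
    rw [coeff_monomial, if_neg]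
    have := i.2
    omega
  have hY0 : Y ≠ 0 := by
    intro h0
    apply hφ0
    ext i
    have h1 : y i = 0 := by rw [← hYc i, h0, coeff_zero]
    simpa [hy] using h1
  obtain ⟨j, hj, hne⟩ := h l M Y hY0 hYd hM
  apply hne
  rw [coeff_toS_mul Y l hYd]
  -- apply φ to the image of the j-th basis vector
  have h1 : lin Θ M l (Pi.single ⟨j, hj⟩ 1) ∈ LinearMap.ker φ := hφ ⟨_, rfl⟩
  rw [LinearMap.mem_ker, hφy] at h1
  rw [← h1]
  refine sum_congr rfl fun i _ => ?_
  rw [hYc]
  have h2 : lin Θ M l (Pi.single ⟨j, hj⟩ 1) i = Θ.coeff (((i : ℕ) : ℤ) + 1 + j) := by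
    show ∑ k : Fin M, (Pi.single (⟨j, hj⟩ : Fin M) (1:F) : Fin M → F) k *
      Θ.coeff (((i : ℕ) : ℤ) + 1 + (k : ℕ)) = _
    rw [Finset.sum_eq_single (⟨j, hj⟩ : Fin M)]
    · simp
    · intro b _ hb
      rw [Pi.single_eq_of_ne hb, zero_mul]
    · simp
  rw [h2, mul_comm]
  congr 2
  ring

variable {E : F ≃ Fin (Fintype.card F)}

/-- polynomials of degree `< M` as coefficient vectors -/
lemma sum_PF_vec (hE : (E 0 : ℕ) = 0) (M : ℕ) (g : (Fin M → F) → ℝ) :
    ∑ f ∈ PF E M, g (fun j => f.coeff j) = ∑ x : Fin M → F, g x := by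
  refine Finset.sum_nbij' (fun f => (fun j : Fin M => f.coeff j))
    (fun x => ∑ j : Fin M, monomial (j : ℕ) (x j)) ?_ ?_ ?_ ?_ ?_
  · intro f _; exact mem_univ _
  · intro x _
    rw [mem_PF hE, degree_lt_iff_coeff_zero]
    intro m hm
    rw [finsetSum_coeff]
    refine sum_eq_zero fun i _ => ?_
    rw [coeff_monomial, if_neg]
    have := i.2
    omega
  · intro f hf
    rw [mem_PF hE] at hf
    ext m
    rw [finsetSum_coeff]
    by_cases hm : m < M
    · rw [Finset.sum_eq_single (⟨m, hm⟩ : Fin M)]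
      · simp
      · intro b _ hb
        rw [coeff_monomial, if_neg]
        intro hbk
        exact hb (Fin.ext hbk)
      · simp
    · rw [degree_lt_iff_coeff_zero] at hf
      rw [hf m (by omega)]
      refine sum_eq_zero fun i _ => ?_
      rw [coeff_monomial, if_neg]
      have := i.2
      omega
  · intro x _
    funext k
    rw [finsetSum_coeff, Finset.sum_eq_single k]
    · simp
    · intro b _ hb
      rw [coeff_monomial, if_neg]
      intro hbk
      exact hb (Fin.ext hbk)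
    · simp
  · intro f _; rfl

/-- one-dimensional count over a coset -/
noncomputable def c1 (E : F ≃ Fin (Fintype.card F)) (Θ Ψ : LaurentSeries F) (u : F[X]) (M : ℕ)
    (γ : ℝ) : ℝ :=
  ∑ f ∈ PF E M, (if evL E (toS (u + f) * Θ + Ψ) < γ then (1:ℝ) else 0)

lemma c1_nonneg (Θ Ψ : LaurentSeries F) (u : F[X]) (M : ℕ) (γ : ℝ) : 0 ≤ c1 E Θ Ψ u M γ := by
  unfold c1
  exact sum_nonneg fun f _ => by split_ifs <;> norm_num

lemma c1_le (hE : (E 0 : ℕ) = 0) (Θ Ψ : LaurentSeries F) (u : F[X]) (M : ℕ) (γ : ℝ) :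
    c1 E Θ Ψ u M γ ≤ (Fintype.card F : ℝ) ^ M := by
  unfold c1
  calc ∑ f ∈ PF E M, (if evL E (toS (u + f) * Θ + Ψ) < γ then (1:ℝ) else 0)
      ≤ ∑ f ∈ PF E M, (1:ℝ) := sum_le_sum fun f _ => by split_ifs <;> norm_num
    _ = (Fintype.card F : ℝ) ^ M := by
      rw [sum_const, card_PF hE, nsmul_eq_mul, mul_one]
      push_cast
      rfl

/-- counting with the number formed by the first `l` digits -/
lemma sum_num (hE : (E 0 : ℕ) = 0) {c : ℕ} {Θ : LaurentSeries F} (h : BadL c Θ) (Ψ : LaurentSeries F)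
    (u : F[X]) (l : ℕ) (g : ℕ → ℝ) :
    ∑ f ∈ PF E (l + c), g (numS E (fun i => (toS (u + f) * Θ + Ψ).coeff ((i:ℤ) + 1)) l) =
      (Fintype.card F : ℝ) ^ c * ∑ n ∈ range (Fintype.card F ^ l), g n := by
  have hq := qr2 (F := F)
  set ψ : Fin l → F := fun i => (toS u * Θ + Ψ).coeff (((i:ℕ):ℤ) + 1) with hψ
  have e1 : ∀ f ∈ PF E (l + c), numS E (fun i => (toS (u + f) * Θ + Ψ).coeff ((i:ℤ) + 1)) l =
      numW E l (lin Θ (l + c) l (fun j => f.coeff j) + ψ) := by
    intro f hf
    rw [mem_PF hE] at hf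
    rw [numS_eq]
    congr 1
    funext i
    show (toS (u + f) * Θ + Ψ).coeff (((i:ℕ):ℤ) + 1) =
      ∑ j : Fin (l + c), f.coeff j * Θ.coeff (((i : ℕ) : ℤ) + 1 + (j : ℕ)) + ψ i
    have e : toS (u + f) * Θ + Ψ = toS f * Θ + (toS u * Θ + Ψ) := by
      rw [map_add]; ring
    rw [e, HahnSeries.coeff_add, coeff_toS_mul f (l + c) hf]
  rw [sum_congr rfl (fun f hf => by rw [e1 f hf])]
  rw [sum_PF_vec hE (l + c) (fun x => g (numW E l (lin Θ (l + c) l x + ψ)))]
  rw [sum_surj (l + c) l (lin Θ (l + c) l) (lin_surj h _ _ le_rfl) (fun w => g (numW E l (w + ψ)))]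
  have e2 : ∑ w : Fin l → F, g (numW E l (w + ψ)) = ∑ w : Fin l → F, g (numW E l w) :=
    Equiv.sum_comp (Equiv.addRight ψ) (fun w => g (numW E l w))
  rw [e2, sum_numW]
  congr 1
  rw [pow_add]
  field_simp

/-- the one-dimensional bound -/
theorem c1_bound (hE : (E 0 : ℕ) = 0) {c : ℕ} {Θ : LaurentSeries F} (h : BadL c Θ)
    (Ψ : LaurentSeries F) (u : F[X]) (M : ℕ) (γ : ℝ) (h0 : 0 ≤ γ) (h1 : γ ≤ 1) :
    |c1 E Θ Ψ u M γ - γ * (Fintype.card F : ℝ) ^ M| ≤ 2 * (Fintype.card F : ℝ) ^ c := by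
  have hq := qr2 (F := F)
  rcases lt_or_ge M c with hMc | hMc
  · have h2 := c1_nonneg (E := E) Θ Ψ u M γ
    have h3 := c1_le hE Θ Ψ u M γ
    have h4 : (Fintype.card F : ℝ) ^ M ≤ (Fintype.card F : ℝ) ^ c :=
      pow_le_pow_right₀ (by linarith) hMc.le
    have h5 : 0 ≤ (Fintype.card F : ℝ) ^ M := by positivity
    have h6 : γ * (Fintype.card F : ℝ) ^ M ≤ (Fintype.card F : ℝ) ^ M := by nlinarith
    have h7 : 0 ≤ γ * (Fintype.card F : ℝ) ^ M := by positivity
    rw [abs_le]
    constructor <;> linarith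
  · obtain ⟨l, rfl⟩ := Nat.exists_eq_add_of_le' hMc
    have hql : (0:ℝ) < (Fintype.card F : ℝ) ^ l := by positivity
    have hqc : (0:ℝ) < (Fintype.card F : ℝ) ^ c := by positivity
    set y : ℝ := γ * (Fintype.card F : ℝ) ^ l with hy
    have hy0 : 0 ≤ y := by positivity
    have hy1 : y ≤ ((Fintype.card F ^ l : ℕ) : ℝ) := by
      push_cast
      rw [hy]
      nlinarith
    have up : c1 E Θ Ψ u (l + c) γ ≤ (Fintype.card F : ℝ) ^ c * (y + 1) := by
      have e := sum_num hE h Ψ u l (fun n => if (n:ℝ) < y then (1:ℝ) else 0)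
      have h2 : c1 E Θ Ψ u (l + c) γ ≤ ∑ f ∈ PF E (l + c),
          (fun n : ℕ => if (n:ℝ) < y then (1:ℝ) else 0)
            (numS E (fun i => (toS (u + f) * Θ + Ψ).coeff ((i:ℤ) + 1)) l) := by
        unfold c1
        refine sum_le_sum fun f _ => ?_
        have h3 := evd_ge (E := E) (fun i => (toS (u + f) * Θ + Ψ).coeff ((i:ℤ) + 1)) l
        beta_reduce
        by_cases h4 : evL E (toS (u + f) * Θ + Ψ) < γ
        · have h5 : (numS E (fun i => (toS (u + f) * Θ + Ψ).coeff ((i:ℤ) + 1)) l : ℝ) /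
              (Fintype.card F : ℝ) ^ l < γ := lt_of_le_of_lt h3 h4
          rw [div_lt_iff₀ hql] at h5
          rw [if_pos h4, if_pos h5]
        · rw [if_neg h4]
          split_ifs <;> norm_num
      rw [e] at h2
      refine h2.trans ?_
      have := count_lt (Fintype.card F ^ l) y hy0
      gcongr
    have dn : (Fintype.card F : ℝ) ^ c * (y - 2) ≤ c1 E Θ Ψ u (l + c) γ := by
      have e := sum_num hE h Ψ u l (fun n => if (n:ℝ) + 1 < y then (1:ℝ) else 0)
      have h2 : ∑ f ∈ PF E (l + c),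
          (fun n : ℕ => if (n:ℝ) + 1 < y then (1:ℝ) else 0)
            (numS E (fun i => (toS (u + f) * Θ + Ψ).coeff ((i:ℤ) + 1)) l) ≤
          c1 E Θ Ψ u (l + c) γ := by
        unfold c1
        refine sum_le_sum fun f _ => ?_
        have h3 := evd_le (E := E) (fun i => (toS (u + f) * Θ + Ψ).coeff ((i:ℤ) + 1)) l
        beta_reduce
        by_cases h4 : ((numS E (fun i => (toS (u + f) * Θ + Ψ).coeff ((i:ℤ) + 1)) l : ℝ)) + 1 < y
        · have h5 : evL E (toS (u + f) * Θ + Ψ) < γ := by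
            refine lt_of_le_of_lt h3 ?_
            rw [div_lt_iff₀ hql]
            exact h4
          rw [if_pos h4, if_pos h5]
        · rw [if_neg h4]
          split_ifs <;> norm_num
      rw [e] at h2
      refine le_trans ?_ h2
      have := count_gt (Fintype.card F ^ l) y hy1
      gcongr
    have e : γ * (Fintype.card F : ℝ) ^ (l + c) = (Fintype.card F : ℝ) ^ c * y := by
      rw [hy, pow_add]; ring
    rw [e, abs_le]
    constructor
    · linarith
    · linarith

end Pool.Agent.X173.HFC
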