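import Mathlib
import Pool.Agent.X173.HFC

/-!
The digital Kronecker – van der Corput hybrid: counting on cosets and on initial segments.
-/

set_option autoImplicit false
set_option linter.unusedSectionVars false

namespace Pool.Agent.X173.HFD

open Finset Polynomial Pool.Agent.X173.HFA Pool.Agent.X173.HFB Pool.Agent.X173.HFC

variable {F : Type} [Field F] [Fintype F]

/-- two-dimensional count over a coset -/
noncomputable def S (E : F ≃ Fin (Fintype.card F)) (P : F[X]) (Θ Ψ : LaurentSeries F) (u : F[X])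
    (M : ℕ) (γ lam : ℝ) : ℝ :=
  ∑ f ∈ PF E M, (if evL E (toS (u + f) * Θ + Ψ) < γ ∧ V E P (u + f) < lam then (1:ℝ) else 0)

variable {E : F ≃ Fin (Fintype.card F)}

lemma S_nonneg (P : F[X]) (Θ Ψ : LaurentSeries F) (u : F[X]) (M : ℕ) (γ lam : ℝ) :
    0 ≤ S E P Θ Ψ u M γ lam := by
  unfold S
  exact sum_nonneg fun f _ => by split_ifs <;> norm_num

lemma S_le (hE : (E 0 : ℕ) = 0) (P : F[X]) (Θ Ψ : LaurentSeries F) (u : F[X]) (M : ℕ) (γ lam : ℝ) :
    S E P Θ Ψ u M γ lam ≤ (Fintype.card F : ℝ) ^ M := by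
  unfold S
  calc ∑ f ∈ PF E M, (if evL E (toS (u + f) * Θ + Ψ) < γ ∧ V E P (u + f) < lam then (1:ℝ) else 0)
      ≤ ∑ f ∈ PF E M, (1:ℝ) := sum_le_sum fun f _ => by split_ifs <;> norm_num
    _ = (Fintype.card F : ℝ) ^ M := by
      rw [sum_const, card_PF hE, nsmul_eq_mul, mul_one]
      push_cast
      rfl

lemma S_lam_one (hE : (E 0 : ℕ) = 0) (P : F[X]) (hP : 0 < P.natDegree) (Θ Ψ : LaurentSeries F)
    (u : F[X]) (M : ℕ) (γ lam : ℝ) (hl : 1 ≤ lam) :
    S E P Θ Ψ u M γ lam = c1 E Θ Ψ u M γ := by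
  unfold S c1
  refine sum_congr rfl fun f _ => ?_
  have h := (V_mem hE P hP _ (u + f) (Nat.lt_succ_self _)).2
  have h1 : V E P (u + f) < lam := by linarith
  by_cases h2 : evL E (toS (u + f) * Θ + Ψ) < γ
  · rw [if_pos ⟨h2, h1⟩, if_pos h2]
  · rw [if_neg (fun h => h2 h.1), if_neg h2]

lemma S_rec (hE : (E 0 : ℕ) = 0) (P : F[X]) (hP : 0 < P.natDegree) (Θ Ψ : LaurentSeries F)
    (u : F[X]) (M : ℕ) (hM : P.natDegree ≤ M) (γ lam : ℝ) (h0 : 0 ≤ lam) (h1 : lam < 1) :
    ∃ D : ℕ, D < Fintype.card F ^ P.natDegree ∧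
      (D:ℝ) + Int.fract ((Fintype.card F : ℝ) ^ P.natDegree * lam) =
        (Fintype.card F : ℝ) ^ P.natDegree * lam ∧
      S E P Θ Ψ u M γ lam =
        ∑ d ∈ range D, c1 E (toS P * Θ) (toS (polyOf E d) * Θ + Ψ) (u / P) (M - P.natDegree) γ +
        S E P (toS P * Θ) (toS (polyOf E D) * Θ + Ψ) (u / P) (M - P.natDegree) γ
          (Int.fract ((Fintype.card F : ℝ) ^ P.natDegree * lam)) := by
  have hq := qr2 (F := F)
  have hP0 : P ≠ 0 := by rintro rfl; simp at hP
  set Q : ℕ := Fintype.card F ^ P.natDegree with hQ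
  have hQr : ((Q : ℕ) : ℝ) = (Fintype.card F : ℝ) ^ P.natDegree := by rw [hQ]; push_cast; rfl
  rw [← hQr]
  have hQ' : (0:ℝ) < Q := by rw [hQr]; positivity
  have hpb : 0 ≤ (Q:ℝ) * lam := by positivity
  obtain ⟨D, hD⟩ := Int.eq_ofNat_of_zero_le (Int.floor_nonneg.2 hpb)
  have hfl : (D:ℝ) + Int.fract (Q * lam) = Q * lam := by
    have := Int.floor_add_fract ((Q:ℝ) * lam)
    rw [hD] at this
    exact_mod_cast this
  have hf0 := Int.fract_nonneg ((Q:ℝ) * lam)
  have hf1 := Int.fract_lt_one ((Q:ℝ) * lam)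
  have hDp : D < Q := by
    have : (D:ℝ) < Q := by nlinarith
    exact_mod_cast this
  refine ⟨D, hDp, hfl, ?_⟩
  have hS : S E P Θ Ψ u M γ lam = ∑ d ∈ range Q, ∑ f ∈ PF E (M - P.natDegree),
      (if evL E (toS (polyOf E d + P * (u / P + f)) * Θ + Ψ) < γ ∧
        V E P (polyOf E d + P * (u / P + f)) < lam then (1:ℝ) else 0) :=
    sum_coset hE P hP0 M hM u (fun g => if evL E (toS g * Θ + Ψ) < γ ∧ V E P g < lam
      then (1:ℝ) else 0)
  rw [hS]
  have hcl : ∀ d ∈ range Q, ∀ f : F[X],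
      (evL E (toS (polyOf E d + P * (u / P + f)) * Θ + Ψ) < γ ∧
        V E P (polyOf E d + P * (u / P + f)) < lam) ↔
      (evL E (toS (u / P + f) * (toS P * Θ) + (toS (polyOf E d) * Θ + Ψ)) < γ ∧
        (d < D ∨ (d = D ∧ V E P (u / P + f) < Int.fract (Q * lam)))) := by
    intro d hd f
    rw [mem_range] at hd
    have e1 : toS (polyOf E d + P * (u / P + f)) * Θ + Ψ =
        toS (u / P + f) * (toS P * Θ) + (toS (polyOf E d) * Θ + Ψ) := by
      rw [map_add, map_mul]; ring
    have hdeg : (polyOf E d).degree < P.degree := by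
      rw [degree_eq_natDegree hP0]; exact degree_polyOf_lt hE _ _ hd
    have e2 : (polyOf E d + P * (u / P + f)) % P = polyOf E d := by
      rw [Polynomial.add_mod, (EuclideanDomain.mod_eq_zero).2 (dvd_mul_right P _), add_zero]
      exact (Polynomial.mod_eq_self_iff hP0).2 hdeg
    have e3 : (polyOf E d + P * (u / P + f)) / P = u / P + f := by
      apply mul_left_cancel₀ hP0
      have h2 := EuclideanDomain.div_add_mod (polyOf E d + P * (u / P + f)) P
      rw [e2] at h2
      linear_combination h2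
    rw [e1, V_rec P _ hP, e2, e3, evP_polyOf hE, ← hQr, div_lt_iff₀ hQ']
    have hv := V_mem hE P hP _ (u / P + f) (Nat.lt_succ_self _)
    refine and_congr_right fun _ => ?_
    have e4 : lam * Q = D + Int.fract (Q * lam) := by rw [hfl]; ring
    rw [e4]
    constructor
    · intro h
      rcases lt_trichotomy d D with h3 | h3 | h3
      · exact Or.inl h3
      · refine Or.inr ⟨h3, ?_⟩
        rw [h3] at h
        linarith
      · exfalso
        have : (D:ℝ) + 1 ≤ d := by exact_mod_cast h3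
        linarith [hv.1]
    · rintro (h | ⟨h, h'⟩)
      · have : (d:ℝ) + 1 ≤ D := by exact_mod_cast h
        linarith [hv.2]
      · rw [h]; linarith
  have h2 : ∀ d ∈ range Q, (∑ f ∈ PF E (M - P.natDegree),
      (if evL E (toS (polyOf E d + P * (u / P + f)) * Θ + Ψ) < γ ∧
        V E P (polyOf E d + P * (u / P + f)) < lam then (1:ℝ) else 0)) =
      (if d < D then c1 E (toS P * Θ) (toS (polyOf E d) * Θ + Ψ) (u / P) (M - P.natDegree) γ
        else 0) +
      (if d = D then S E P (toS P * Θ) (toS (polyOf E D) * Θ + Ψ) (u / P) (M - P.natDegree) γ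
          (Int.fract (Q * lam)) else 0) := by
    intro d hd
    rcases lt_trichotomy d D with h3 | h3 | h3
    · rw [if_pos h3, if_neg h3.ne, add_zero]
      unfold c1
      refine sum_congr rfl fun f _ => ?_
      rw [if_congr (hcl d hd f) rfl rfl]
      by_cases h4 : evL E (toS (u / P + f) * (toS P * Θ) + (toS (polyOf E d) * Θ + Ψ)) < γ
      · rw [if_pos ⟨h4, Or.inl h3⟩, if_pos h4]
      · rw [if_neg (fun h => h4 h.1), if_neg h4]
    · rw [if_neg (by omega), if_pos h3, zero_add]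
      unfold S
      rw [h3]
      refine sum_congr rfl fun f _ => ?_
      rw [if_congr (hcl D (mem_range.2 hDp) f) rfl rfl]
      have h6 : (evL E (toS (u / P + f) * (toS P * Θ) + (toS (polyOf E D) * Θ + Ψ)) < γ ∧
          (D < D ∨ (D = D ∧ V E P (u / P + f) < Int.fract (Q * lam)))) ↔
          (evL E (toS (u / P + f) * (toS P * Θ) + (toS (polyOf E D) * Θ + Ψ)) < γ ∧
          V E P (u / P + f) < Int.fract (Q * lam)) := by
        simp
      rw [if_congr h6 rfl rfl]
    · rw [if_neg (by omega), if_neg (by omega), add_zero]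
      refine sum_eq_zero fun f _ => ?_
      rw [if_neg]
      rw [hcl d hd f]
      rintro ⟨_, h | ⟨h, _⟩⟩ <;> omega
  rw [sum_congr rfl h2, sum_add_distrib]
  congr 1
  · rw [← sum_filter]
    congr 1
    ext d
    simp only [mem_filter, mem_range]
    omega
  · rw [sum_ite_eq' (range Q) D, if_pos (mem_range.2 hDp)]

/-- all `P ^ k Θ` are badly approximable with the same constant -/
def UBL (P : F[X]) (c : ℕ) (Θ : LaurentSeries F) : Prop :=
  ∀ k : ℕ, BadL c (toS (P ^ k) * Θ)

lemma UBL.mul {P : F[X]} {c : ℕ} {Θ : LaurentSeries F} (h : UBL P c Θ) :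
    UBL P c (toS P * Θ) := by
  intro k
  have := h (k + 1)
  rwa [pow_succ, map_mul, mul_assoc] at this

lemma UBL.bad {P : F[X]} {c : ℕ} {Θ : LaurentSeries F} (h : UBL P c Θ) : BadL c Θ := by
  have := h 0
  rwa [pow_zero, map_one, one_mul] at this

theorem S_bound (hE : (E 0 : ℕ) = 0) (P : F[X]) (hP : 0 < P.natDegree) (c : ℕ) (γ : ℝ)
    (hg0 : 0 ≤ γ) (hg1 : γ ≤ 1) (M : ℕ) :
    ∀ (Θ Ψ : LaurentSeries F) (u : F[X]) (lam : ℝ), UBL P c Θ → 0 ≤ lam → lam < 1 →
      |S E P Θ Ψ u M γ lam - γ * lam * (Fintype.card F : ℝ) ^ M| ≤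
        (Fintype.card F : ℝ) ^ P.natDegree +
          M * ((Fintype.card F : ℝ) ^ P.natDegree * (2 * (Fintype.card F : ℝ) ^ c)) := by
  have hq := qr2 (F := F)
  induction M using Nat.strong_induction_on with
  | _ M ih =>
    intro Θ Ψ u lam hΘ h0 h1
    rcases lt_or_ge M P.natDegree with hM | hM
    · have h2 := S_nonneg (E := E) P Θ Ψ u M γ lam
      have h3 := S_le hE P Θ Ψ u M γ lam
      have h4 : (Fintype.card F : ℝ) ^ M ≤ (Fintype.card F : ℝ) ^ P.natDegree :=
        pow_le_pow_right₀ (by linarith) hM.le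
      have h5 : 0 ≤ (Fintype.card F : ℝ) ^ M := by positivity
      have h6 : γ * lam ≤ 1 := mul_le_one₀ hg1 h0 h1.le
      have h6' : 0 ≤ γ * lam := by positivity
      have h7 : γ * lam * (Fintype.card F : ℝ) ^ M ≤ (Fintype.card F : ℝ) ^ M := by nlinarith
      have h8 : 0 ≤ γ * lam * (Fintype.card F : ℝ) ^ M := by positivity
      have h9 : 0 ≤ M * ((Fintype.card F : ℝ) ^ P.natDegree * (2 * (Fintype.card F : ℝ) ^ c)) := by
        positivity
      rw [abs_le]
      constructor <;> linarith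
    · obtain ⟨D, hD, hfl, hS⟩ := S_rec hE P hP Θ Ψ u M hM γ lam h0 h1
      set Q : ℝ := (Fintype.card F : ℝ) ^ P.natDegree with hQ
      have hQ0 : 0 < Q := by positivity
      have hf0 := Int.fract_nonneg (Q * lam)
      have hf1 := Int.fract_lt_one (Q * lam)
      obtain ⟨m, rfl⟩ := Nat.exists_eq_add_of_le hM
      rw [Nat.add_sub_cancel_left] at hS
      have hih := ih m (by omega) (toS P * Θ) (toS (polyOf E D) * Θ + Ψ) (u / P)
        (Int.fract (Q * lam)) hΘ.mul hf0 hf1
      have hDQ : (D:ℝ) ≤ Q := by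
        rw [hQ]; exact_mod_cast hD.le
      have hs : |∑ d ∈ range D, (c1 E (toS P * Θ) (toS (polyOf E d) * Θ + Ψ) (u / P) m γ -
          γ * (Fintype.card F : ℝ) ^ m)| ≤ Q * (2 * (Fintype.card F : ℝ) ^ c) := by
        refine (abs_sum_le_sum_abs _ _).trans ?_
        refine (sum_le_sum fun d _ => c1_bound hE hΘ.mul.bad (toS (polyOf E d) * Θ + Ψ) (u / P) m γ
          hg0 hg1).trans ?_
        rw [sum_const, card_range, nsmul_eq_mul]
        gcongr
      rw [hS]
      have e : ∑ d ∈ range D, c1 E (toS P * Θ) (toS (polyOf E d) * Θ + Ψ) (u / P) m γ +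
          S E P (toS P * Θ) (toS (polyOf E D) * Θ + Ψ) (u / P) m γ (Int.fract (Q * lam)) -
          γ * lam * (Fintype.card F : ℝ) ^ (P.natDegree + m) =
          ∑ d ∈ range D, (c1 E (toS P * Θ) (toS (polyOf E d) * Θ + Ψ) (u / P) m γ -
            γ * (Fintype.card F : ℝ) ^ m) +
          (S E P (toS P * Θ) (toS (polyOf E D) * Θ + Ψ) (u / P) m γ (Int.fract (Q * lam)) -
            γ * Int.fract (Q * lam) * (Fintype.card F : ℝ) ^ m) := by
        rw [sum_sub_distrib, sum_const, card_range, nsmul_eq_mul, pow_add, ← hQ]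
        linear_combination (γ * (Fintype.card F : ℝ) ^ m) * hfl
      rw [e]
      refine (abs_add_le _ _).trans ?_
      have h2 : Q + ((P.natDegree + m : ℕ) : ℝ) * (Q * (2 * (Fintype.card F : ℝ) ^ c)) =
          (Q + (m:ℝ) * (Q * (2 * (Fintype.card F : ℝ) ^ c))) +
            (P.natDegree : ℝ) * (Q * (2 * (Fintype.card F : ℝ) ^ c)) := by
        push_cast; ring
      have h3 : (1:ℝ) ≤ P.natDegree := by exact_mod_cast hP
      have h4 : 0 ≤ Q * (2 * (Fintype.card F : ℝ) ^ c) := by positivity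
      rw [h2]
      nlinarith

/-- the indicator of the box at the index `n` -/
noncomputable def G (E : F ≃ Fin (Fintype.card F)) (P : F[X]) (Θ : LaurentSeries F) (γ lam : ℝ)
    (n : ℕ) : ℝ :=
  if evL E (toS (polyOf E n) * Θ) < γ ∧ V E P (polyOf E n) < lam then (1:ℝ) else 0

lemma block_eq (hE : (E 0 : ℕ) = 0) (P : F[X]) (Θ : LaurentSeries F) (γ lam : ℝ) (M v : ℕ) :
    ∑ n ∈ range (Fintype.card F ^ M), G E P Θ γ lam (Fintype.card F ^ M * v + n) =
      S E P Θ 0 (X ^ M * polyOf E v) M γ lam := by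
  unfold S
  rw [sum_PF hE M (fun f => if evL E (toS (X ^ M * polyOf E v + f) * Θ + 0) < γ ∧
    V E P (X ^ M * polyOf E v + f) < lam then (1:ℝ) else 0)]
  refine sum_congr rfl fun n hn => ?_
  unfold G
  rw [polyOf_add hE M v n (mem_range.1 hn), add_zero]

theorem seg_bound (hE : (E 0 : ℕ) = 0) (P : F[X]) (hP : 0 < P.natDegree) (c : ℕ) (γ : ℝ)
    (hg0 : 0 ≤ γ) (hg1 : γ ≤ 1) (Θ : LaurentSeries F) (hΘ : UBL P c Θ) (lam : ℝ) (h0 : 0 ≤ lam)
    (h1 : lam ≤ 1) (J M : ℕ) (hMJ : M ≤ J) :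
    ∀ v L : ℕ, L ≤ Fintype.card F ^ M →
      |∑ n ∈ range L, G E P Θ γ lam (Fintype.card F ^ M * v + n) - γ * lam * L| ≤
        1 + M * (Fintype.card F * (2 * (Fintype.card F : ℝ) ^ c + ((Fintype.card F : ℝ) ^ P.natDegree +
          J * ((Fintype.card F : ℝ) ^ P.natDegree * (2 * (Fintype.card F : ℝ) ^ c))))) := by
  have hq := qr2 (F := F)
  have hqn := q2 (F := F)
  set Q : ℝ := (Fintype.card F : ℝ) ^ P.natDegree with hQ
  have hQ1 : 1 ≤ Q := one_le_pow₀ (by linarith)
  set R : ℝ := Q * (2 * (Fintype.card F : ℝ) ^ c) with hR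
  have hR0 : 0 ≤ R := by positivity
  have hR1 : 2 * (Fintype.card F : ℝ) ^ c ≤ R := by
    rw [hR]
    have : 0 ≤ 2 * (Fintype.card F : ℝ) ^ c := by positivity
    nlinarith
  have hG0 : ∀ n, 0 ≤ G E P Θ γ lam n := fun n => by unfold G; split_ifs <;> norm_num
  have hG1 : ∀ n, G E P Θ γ lam n ≤ 1 := fun n => by unfold G; split_ifs <;> norm_num
  have hgl : γ * lam ≤ 1 := mul_le_one₀ hg1 h0 h1
  have hgl0 : 0 ≤ γ * lam := by positivity
  -- full blocks
  have hblock : ∀ m, m ≤ J → ∀ v : ℕ,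
      |∑ n ∈ range (Fintype.card F ^ m), G E P Θ γ lam (Fintype.card F ^ m * v + n) -
        γ * lam * (Fintype.card F : ℝ) ^ m| ≤ 2 * (Fintype.card F : ℝ) ^ c + (Q + J * R) := by
    intro m hm v
    rw [block_eq hE]
    rcases lt_or_eq_of_le h1 with h2 | h2
    · refine (S_bound hE P hP c γ hg0 hg1 m Θ 0 (X ^ m * polyOf E v) lam hΘ h0 h2).trans ?_
      have : (m:ℝ) ≤ J := by exact_mod_cast hm
      have h3 : (m:ℝ) * R ≤ J * R := by gcongr
      have h4 : 0 ≤ 2 * (Fintype.card F : ℝ) ^ c := by positivity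
      linarith
    · rw [S_lam_one hE P hP Θ 0 _ m γ lam h2.ge, h2, mul_one]
      refine (c1_bound hE hΘ.bad 0 _ m γ hg0 hg1).trans ?_
      have : 0 ≤ (J:ℝ) * R := by positivity
      linarith
  set B : ℝ := 2 * (Fintype.card F : ℝ) ^ c + (Q + J * R) with hB
  have hB0 : 0 ≤ B := by positivity
  have hblocks : ∀ m, m ≤ J → ∀ v a : ℕ,
      |∑ n ∈ range (Fintype.card F ^ m * a), G E P Θ γ lam (Fintype.card F ^ m * v + n) -
        γ * lam * ((Fintype.card F : ℝ) ^ m * a)| ≤ a * B := by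
    intro m hm v a
    induction a with
    | zero => simp
    | succ a ih =>
      rw [Nat.mul_succ, sum_range_add]
      have h2 := hblock m hm (v + a)
      have e1 : ∑ n ∈ range (Fintype.card F ^ m), G E P Θ γ lam
          (Fintype.card F ^ m * v + (Fintype.card F ^ m * a + n)) =
          ∑ n ∈ range (Fintype.card F ^ m), G E P Θ γ lam (Fintype.card F ^ m * (v + a) + n) := by
        refine sum_congr rfl fun n _ => ?_
        congr 1
        ring
      rw [e1]
      have e2 : ∑ n ∈ range (Fintype.card F ^ m * a), G E P Θ γ lam (Fintype.card F ^ m * v + n) +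
          ∑ n ∈ range (Fintype.card F ^ m), G E P Θ γ lam (Fintype.card F ^ m * (v + a) + n) -
          γ * lam * ((Fintype.card F : ℝ) ^ m * ((a + 1 : ℕ) : ℝ)) =
          (∑ n ∈ range (Fintype.card F ^ m * a), G E P Θ γ lam (Fintype.card F ^ m * v + n) -
            γ * lam * ((Fintype.card F : ℝ) ^ m * a)) +
          (∑ n ∈ range (Fintype.card F ^ m), G E P Θ γ lam (Fintype.card F ^ m * (v + a) + n) -
            γ * lam * (Fintype.card F : ℝ) ^ m) := by
        push_cast; ring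
      rw [e2]
      refine (abs_add_le _ _).trans ?_
      have : (((a + 1 : ℕ) : ℝ)) * B = a * B + B := by push_cast; ring
      rw [this]
      linarith
  induction M with
  | zero =>
    intro v L hL
    have hL1 : L ≤ 1 := by simpa using hL
    have hL' : (L:ℝ) ≤ 1 := by exact_mod_cast hL1
    have h2 : 0 ≤ ∑ n ∈ range L, G E P Θ γ lam (Fintype.card F ^ 0 * v + n) :=
      sum_nonneg fun n _ => hG0 _
    have h3 : ∑ n ∈ range L, G E P Θ γ lam (Fintype.card F ^ 0 * v + n) ≤ L := by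
      calc ∑ n ∈ range L, G E P Θ γ lam (Fintype.card F ^ 0 * v + n) ≤ ∑ n ∈ range L, (1:ℝ) :=
            sum_le_sum fun n _ => hG1 _
        _ = L := by simp
    have h4 : γ * lam * L ≤ 1 := mul_le_one₀ hgl (by positivity) hL'
    have h5 : 0 ≤ γ * lam * L := by positivity
    have h6 : (1:ℝ) + ((0:ℕ):ℝ) * (Fintype.card F * B) = 1 := by simp
    rw [h6, abs_le]
    constructor <;> linarith
  | succ M ih =>
    intro v L hL
    have hqM : 0 < Fintype.card F ^ M := pow_pos (by omega) M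
    set a := L / Fintype.card F ^ M with ha
    set r := L % Fintype.card F ^ M with hr
    have hLe : L = Fintype.card F ^ M * a + r := (Nat.div_add_mod L _).symm
    have hrlt : r < Fintype.card F ^ M := Nat.mod_lt _ hqM
    have haq : a ≤ Fintype.card F := by
      rw [ha]
      apply Nat.div_le_of_le_mul
      rw [← pow_succ]
      exact hL
    have h2 := hblocks M (by omega) (Fintype.card F * v) a
    have h3 := ih (by omega) (Fintype.card F * v + a) r hrlt.le
    have e0 : ∀ n : ℕ, Fintype.card F ^ (M + 1) * v + n = Fintype.card F ^ M * (Fintype.card F * v) + n := by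
      intro n; ring
    simp_rw [e0]
    rw [hLe, sum_range_add]
    have e1 : ∑ n ∈ range r, G E P Θ γ lam
        (Fintype.card F ^ M * (Fintype.card F * v) + (Fintype.card F ^ M * a + n)) =
        ∑ n ∈ range r, G E P Θ γ lam (Fintype.card F ^ M * (Fintype.card F * v + a) + n) := by
      refine sum_congr rfl fun n _ => ?_
      congr 1
      ring
    rw [e1]
    have e2 : ∑ n ∈ range (Fintype.card F ^ M * a), G E P Θ γ lam
        (Fintype.card F ^ M * (Fintype.card F * v) + n) +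
        ∑ n ∈ range r, G E P Θ γ lam (Fintype.card F ^ M * (Fintype.card F * v + a) + n) -
        γ * lam * ((Fintype.card F ^ M * a + r : ℕ) : ℝ) =
        (∑ n ∈ range (Fintype.card F ^ M * a), G E P Θ γ lam
          (Fintype.card F ^ M * (Fintype.card F * v) + n) -
          γ * lam * ((Fintype.card F : ℝ) ^ M * a)) +
        (∑ n ∈ range r, G E P Θ γ lam (Fintype.card F ^ M * (Fintype.card F * v + a) + n) -
          γ * lam * r) := by
      push_cast; ring
    rw [e2]
    refine (abs_add_le _ _).trans ?_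
    have h4 : (a:ℝ) * B ≤ Fintype.card F * B := by
      have : (a:ℝ) ≤ Fintype.card F := by exact_mod_cast haq
      gcongr
    have h5 : (1:ℝ) + ((M + 1 : ℕ) : ℝ) * (Fintype.card F * B) =
        (1 + (M:ℝ) * (Fintype.card F * B)) + Fintype.card F * B := by push_cast; ring
    rw [h5]
    linarith

end Pool.Agent.X173.HFD
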