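import Mathlib
set_option autoImplicit false

/-!
Endomorphism rings of abelian groups: ring theoretic part and extension lemmas.
-/

namespace Pool.Agent.X173.ED

universe u

/-- Stephenson's criterion. -/
def St (R : Type u) [Ring R] : Prop :=
  ∀ a b : R, ∃ x y : R, x + y = 1 ∧ (∃ g, a * x = b * g) ∧ ∃ g, b * y = a * g

theorem steph {R : Type u} [Ring R]
    (h : ∀ I J K : Submodule Rᵐᵒᵖ R, I ⊓ (J ⊔ K) = (I ⊓ J) ⊔ (I ⊓ K)) : St R := by
  intro a b
  have hmem : a ∈ (Submodule.span Rᵐᵒᵖ {a}) ⊓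
      (Submodule.span Rᵐᵒᵖ {b} ⊔ Submodule.span Rᵐᵒᵖ {a - b}) := by
    refine ⟨Submodule.mem_span_singleton_self a, ?_⟩
    have : a = b + (a - b) := by abel
    rw [this]
    apply Submodule.add_mem_sup
    · exact Submodule.mem_span_singleton_self b
    · rw [← this]
      exact Submodule.mem_span_singleton_self _
  rw [h] at hmem
  obtain ⟨u, hu, w, hw, huw⟩ := Submodule.mem_sup.mp hmem
  obtain ⟨u1, hu1⟩ := Submodule.mem_span_singleton.mp hu.1
  obtain ⟨g, hg⟩ := Submodule.mem_span_singleton.mp hu.2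
  obtain ⟨y1, hy1⟩ := Submodule.mem_span_singleton.mp hw.1
  obtain ⟨s, hs⟩ := Submodule.mem_span_singleton.mp hw.2
  have hg' : b * g.unop = u := hg
  have hy' : a * y1.unop = w := hy1
  have hs' : (a - b) * s.unop = w := hs
  refine ⟨1 - s.unop, s.unop, by abel, ⟨g.unop - s.unop, ?_⟩, ⟨s.unop - y1.unop, ?_⟩⟩
  · rw [mul_sub, mul_sub, mul_one, hg']
    have h1 : a * s.unop = w + b * s.unop := by rw [← hs', sub_mul]; abel
    rw [h1]
    have h2 : a = u + w := huw.symm
    have h3 : a - (w + b * s.unop) = (u + w) - (w + b * s.unop) := by rw [← h2]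
    rw [h3]; abel
  · rw [mul_sub, hy', ← hs', sub_mul]; abel

theorem idem_aux {R : Type u} [Ring R] (h : St R) {e : R} (he : e * e = e) (r : R) :
    e * r * (1 - e) = 0 := by
  set f := 1 - e with hf
  have hff : f * f = f := by rw [hf, sub_mul, mul_sub, mul_sub, he]; simp
  have hef : e * f = 0 := by rw [hf, mul_sub, he]; simp
  set n := e * r * f with hn
  have hnf : n * f = n := by rw [hn, mul_assoc, hff]
  have hen : e * n = n := by rw [hn, ← mul_assoc, ← mul_assoc, he]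
  obtain ⟨x, y, hxy, ⟨g, hg⟩, ⟨g', hg'⟩⟩ := h f (f + n)
  have h1 : n * g = 0 := by
    have h2 : e * (f * x) = e * ((f + n) * g) := by rw [hg]
    rw [← mul_assoc, hef, zero_mul, ← mul_assoc, mul_add, hef, hen, zero_add] at h2
    exact h2.symm
  have h3 : n * y = 0 := by
    have h2 : e * ((f + n) * y) = e * (f * g') := by rw [hg']
    rw [← mul_assoc, mul_add, hef, hen, zero_add, ← mul_assoc, hef, zero_mul] at h2
    exact h2
  have h4 : f * x = f * g := by rw [hg, add_mul, h1, add_zero]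
  calc n = n * (x + y) := by rw [hxy, mul_one]
    _ = n * x := by rw [mul_add, h3, add_zero]
    _ = n * (f * x) := by rw [← mul_assoc, hnf]
    _ = n * (f * g) := by rw [h4]
    _ = n * g := by rw [← mul_assoc, hnf]
    _ = 0 := h1

theorem idem_central {R : Type u} [Ring R] (h : St R) {e : R} (he : e * e = e) (r : R) :
    e * r = r * e := by
  have h1 := idem_aux h he r
  have h2 : (1 - e) * (1 - e) = 1 - e := by rw [sub_mul, mul_sub, mul_sub, he]; simp
  have h3 := idem_aux h h2 r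
  rw [mul_sub, mul_one, sub_eq_zero] at h1
  rw [sub_sub_cancel, sub_mul, sub_mul, one_mul, sub_eq_zero] at h3
  rw [h1, h3]

variable {A : Type u} [AddCommGroup A]

theorem ext_of_div (C : AddSubgroup A) (hC : ∀ n : ℤ, n ≠ 0 → ∀ x ∈ C, ∃ y ∈ C, n • y = x)
    (H : AddSubgroup A) (φ : H →+ C) : ∃ F : AddMonoid.End A, (∀ a, F a ∈ C) ∧
      ∀ h : H, F h = φ h := by
  let _ : DivisibleBy C ℤ := divisibleByOfSMulRightSurj C ℤ (by
    intro n hn x
    obtain ⟨y, hy, hyx⟩ := hC n hn x x.2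
    exact ⟨⟨y, hy⟩, Subtype.ext hyx⟩)
  obtain ⟨F, hF⟩ := (Module.Baer.of_divisible C).extension_property_addMonoidHom H.subtype
    Subtype.val_injective φ
  refine ⟨C.subtype.comp F, fun a => (F a).2, ?_⟩
  intro h
  have := DFunLike.congr_fun hF h
  exact congrArg Subtype.val this

theorem proj_of_div (C : AddSubgroup A) (hC : ∀ n : ℤ, n ≠ 0 → ∀ x ∈ C, ∃ y ∈ C, n • y = x) :
    ∃ e : AddMonoid.End A, e * e = e ∧ (∀ a, e a ∈ C) ∧ ∀ x ∈ C, e x = x := by
  obtain ⟨F, hF1, hF2⟩ := ext_of_div C hC C (AddMonoidHom.id _)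
  have h : ∀ x ∈ C, F x = x := fun x hx => hF2 ⟨x, hx⟩
  refine ⟨F, ?_, hF1, h⟩
  ext a
  exact h _ (hF1 a)

/-- multiples modulo `q` -/
theorem zsm {q : ℕ} {t : A} (ht : q • t = 0) {a b : ℕ} (h : (a : ZMod q) = b) :
    a • t = b • t := by
  have h1 : a % q = b % q := (ZMod.natCast_eq_natCast_iff a b q).mp h
  have h2 : ∀ c : ℕ, c • t = (c % q) • t := by
    intro c
    conv_lhs => rw [← Nat.div_add_mod c q]
    rw [add_smul, mul_comm, mul_smul, ht, smul_zero, zero_add]
  rw [h2 a, h2 b, h1]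

/-- `c ↦ c t` -/
noncomputable def psi {q : ℕ} [NeZero q] (t : A) (ht : q • t = 0) : ZMod q →+ A where
  toFun c := c.val • t
  map_zero' := by simp
  map_add' c d := by
    rw [← add_smul]
    apply zsm ht
    simp

theorem inv_mul_t {q : ℕ} (hq : q.Prime) {t : A} (ht : q • t = 0) {c : ZMod q} (hc : c ≠ 0) :
    ∃ m : ℕ, m • (c.val • t) = t := by
  have := Fact.mk hq
  refine ⟨(c⁻¹).val, ?_⟩
  rw [← mul_smul]
  have : ((c⁻¹).val * c.val) • t = 1 • t := by
    apply zsm ht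
    push_cast
    rw [ZMod.natCast_zmod_val, ZMod.natCast_zmod_val, inv_mul_cancel₀ hc]
  rw [this, one_smul]

theorem func_mod (K : Type) [Field K] {V : Type u} [AddCommGroup V] [Module K V] {v : V}
    (hv : v ≠ 0) : ∃ ψ : V →ₗ[K] K, ψ v ≠ 0 :=
  Module.Projective.exists_dual_ne_zero K hv

theorem func_exists {B : Type u} [AddCommGroup B] {q : ℕ} (hq : q.Prime) {a : B}
    (ha : ∀ b : B, q • b ≠ a) : ∃ φ : B →+ ZMod q, φ a ≠ 0 := by
  have := Fact.mk hq
  let qB : AddSubgroup B := (nsmulAddMonoidHom q : B →+ B).range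
  let _ : Module (ZMod q) (B ⧸ qB) := AddCommGroup.zmodModule (n := q) (by
    intro x
    obtain ⟨b, rfl⟩ := QuotientAddGroup.mk_surjective x
    rw [← QuotientAddGroup.mk_nsmul]
    exact (QuotientAddGroup.eq_zero_iff _).mpr ⟨b, rfl⟩)
  have hne : (a : B ⧸ qB) ≠ 0 := by
    intro h
    obtain ⟨b, hb⟩ := (QuotientAddGroup.eq_zero_iff _).mp h
    exact ha b hb
  obtain ⟨ψ, hψ⟩ := func_mod (ZMod q) (V := B ⧸ qB) hne
  exact ⟨ψ.toAddMonoidHom.comp (QuotientAddGroup.mk' qB), hψ⟩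

end Pool.Agent.X173.ED
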