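import Mathlib
import Pool.Agent.X173.EDA
set_option autoImplicit false

/-!
The primary parts of a group with right distributive endomorphism ring.
-/

namespace Pool.Agent.X173.ED

universe u
variable {A : Type u} [AddCommGroup A]

/-- Two proportional families of maps force proportional targets. -/
theorem uniq_core (hst : St (AddMonoid.End A)) {q : ℕ} (hq : q.Prime) (H : AddSubgroup A)
    (hH : ∀ f : AddMonoid.End A, ∀ h ∈ H, f h ∈ H) (φ : H →+ ZMod q) {h0 : H} (hφ : φ h0 ≠ 0)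
    {t1 t2 : A} (ht1 : q • t1 = 0) (ht2 : q • t2 = 0) (ht10 : t1 ≠ 0)
    {F1 F2 : AddMonoid.End A} (hF1 : ∀ h : H, F1 h = (φ h).val • t1)
    (hF2 : ∀ h : H, F2 h = (φ h).val • t2) : ∃ n : ℤ, t2 = n • t1 := by
  by_contra hcon
  obtain ⟨x, y, hxy, ⟨g, hg⟩, ⟨g', hg'⟩⟩ := hst F1 F2
  have key : ∀ c d : ZMod q, c.val • t1 = d.val • t2 → d = 0 := by
    intro c d h
    by_contra hd
    obtain ⟨m, hm⟩ := inv_mul_t hq ht2 hd
    apply hcon
    refine ⟨(m * c.val : ℕ), ?_⟩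
    rw [natCast_zsmul, mul_smul, h, hm]
  have hx : ∀ h : H, φ ⟨x h, hH x h h.2⟩ = 0 := by
    intro h
    have h1 : (F1 * x) h = (F2 * g) h := by rw [hg]
    have h2 : F1 (x h) = F2 (g h) := h1
    have h3 := hF1 ⟨x h, hH x h h.2⟩
    have h4 := hF2 ⟨g h, hH g h h.2⟩
    have h5 := key (φ ⟨x h, hH x h h.2⟩) (φ ⟨g h, hH g h h.2⟩) (by rw [← h3, ← h4]; exact h2)
    by_contra hne
    obtain ⟨m, hm⟩ := inv_mul_t hq ht1 hne
    apply ht10
    rw [← hm, ← h3]
    show m • F1 (x h) = 0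
    rw [h2]
    have : F2 (g h) = 0 := by
      rw [show F2 (g h) = F2 ((⟨g h, hH g h h.2⟩ : H) : A) from rfl, h4, h5]; simp
    rw [this, smul_zero]
  have hy : ∀ h : H, φ ⟨y h, hH y h h.2⟩ = 0 := by
    intro h
    have h1 : (F2 * y) h = (F1 * g') h := by rw [hg']
    have h2 : F2 (y h) = F1 (g' h) := h1
    have h3 := hF2 ⟨y h, hH y h h.2⟩
    have h4 := hF1 ⟨g' h, hH g' h h.2⟩
    exact key (φ ⟨g' h, hH g' h h.2⟩) _ (by rw [← h3, ← h4]; exact h2.symm)
  apply hφ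
  have h1 : h0 = ⟨x h0, hH x h0 h0.2⟩ + ⟨y h0, hH y h0 h0.2⟩ := by
    apply Subtype.ext
    show (h0 : A) = x h0 + y h0
    have : (x + y) (h0 : A) = (1 : AddMonoid.End A) h0 := by rw [hxy]
    exact this.symm
  rw [h1, map_add, hx, hy, add_zero]

/-- The `q`-primary part. -/
def Tq (A : Type u) [AddCommGroup A] (q : ℕ) : AddSubgroup A where
  carrier := {x | ∃ k : ℕ, q ^ k • x = 0}
  zero_mem' := ⟨0, by simp⟩
  add_mem' := by
    rintro a b ⟨k, hk⟩ ⟨l, hl⟩
    refine ⟨k + l, ?_⟩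
    have h1 : q ^ (k + l) • a = 0 := by rw [pow_add, mul_comm, mul_smul, hk, smul_zero]
    have h2 : q ^ (k + l) • b = 0 := by rw [pow_add, mul_smul, hl, smul_zero]
    rw [smul_add, h1, h2, add_zero]
  neg_mem' := by
    rintro a ⟨k, hk⟩
    exact ⟨k, by rw [smul_neg, hk, neg_zero]⟩

theorem mem_Tq {q : ℕ} {x : A} : x ∈ Tq A q ↔ ∃ k : ℕ, q ^ k • x = 0 := Iff.rfl

theorem Tq_inv {q : ℕ} (f : AddMonoid.End A) {x : A} (hx : x ∈ Tq A q) : f x ∈ Tq A q := by
  obtain ⟨k, hk⟩ := hx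
  exact ⟨k, by rw [← map_nsmul, hk, map_zero]⟩

theorem div_pow {q : ℕ} {T : AddSubgroup A} (hT : ∀ x ∈ T, ∃ y ∈ T, q • y = x) (k : ℕ) :
    ∀ x ∈ T, ∃ y ∈ T, q ^ k • y = x := by
  induction k with
  | zero => intro x hx; exact ⟨x, hx, by simp⟩
  | succ k ih =>
    intro x hx
    obtain ⟨y, hy, rfl⟩ := ih x hx
    obtain ⟨z, hz, rfl⟩ := hT y hy
    exact ⟨z, hz, by rw [pow_succ, mul_smul]⟩

/-- A `q`-divisible `q`-primary part is divisible. -/
theorem Tq_div {q : ℕ} (hq : q.Prime) (hT : ∀ x ∈ Tq A q, ∃ y, q • y = x) :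
    ∀ n : ℤ, n ≠ 0 → ∀ x ∈ Tq A q, ∃ y ∈ Tq A q, n • y = x := by
  have hT' : ∀ x ∈ Tq A q, ∃ y ∈ Tq A q, q • y = x := by
    intro x hx
    obtain ⟨y, hy⟩ := hT x hx
    obtain ⟨k, hk⟩ := hx
    exact ⟨y, ⟨k + 1, by rw [pow_succ, mul_smul, hy, hk]⟩, hy⟩
  have hnat : ∀ n : ℕ, n ≠ 0 → ∀ x ∈ Tq A q, ∃ y ∈ Tq A q, n • y = x := by
    intro n hn x hx
    obtain ⟨a, m, hm, rfl⟩ := Nat.exists_eq_pow_mul_and_not_dvd hn q hq.ne_one
    obtain ⟨y, hy, rfl⟩ := div_pow hT' a x hx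
    obtain ⟨k, hk⟩ := hy
    have hcop : Nat.Coprime m (q ^ k) :=
      ((Nat.Prime.coprime_iff_not_dvd hq).mpr hm).symm.pow_right k
    have hbez : (1 : ℤ) = m * Nat.gcdA m (q ^ k) + (q ^ k : ℕ) * Nat.gcdB m (q ^ k) := by
      have := Nat.gcd_eq_gcd_ab m (q ^ k)
      rw [hcop] at this
      exact_mod_cast this
    refine ⟨Nat.gcdA m (q ^ k) • y, (Tq A q).zsmul_mem ⟨k, hk⟩ _, ?_⟩
    have h1 : m • (Nat.gcdA m (q ^ k) • y) = y := by
      have h2 : ((1 : ℤ)) • y = (m * Nat.gcdA m (q ^ k) + (q ^ k : ℕ) * Nat.gcdB m (q ^ k)) • y := by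
        rw [← hbez]
      rw [one_smul, add_smul, mul_smul, mul_comm ((q ^ k : ℕ) : ℤ), mul_smul, natCast_zsmul,
        natCast_zsmul, hk, smul_zero, add_zero] at h2
      exact h2.symm
    rw [mul_smul, h1]
  intro n hn x hx
  obtain ⟨y, hy, hyx⟩ := hnat n.natAbs (by simpa using hn) x hx
  rcases Int.natAbs_eq n with h | h
  · exact ⟨y, hy, by rw [h, natCast_zsmul]; exact hyx⟩
  · refine ⟨-y, (Tq A q).neg_mem hy, ?_⟩
    rw [h, smul_neg, neg_smul, neg_neg, natCast_zsmul]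
    exact hyx

theorem uniq (hst : St (AddMonoid.End A)) {q : ℕ} (hq : q.Prime) {t1 t2 : A}
    (ht1 : q • t1 = 0) (ht2 : q • t2 = 0) (ht10 : t1 ≠ 0) : ∃ n : ℤ, t2 = n • t1 := by
  have hne : NeZero q := ⟨hq.ne_zero⟩
  by_cases hA : ∃ a : A, ∀ b : A, q • b ≠ a
  · obtain ⟨a, ha⟩ := hA
    obtain ⟨φ, hφ⟩ := func_exists hq ha
    exact uniq_core hst hq ⊤ (fun _ _ _ => trivial) (φ.comp (⊤ : AddSubgroup A).subtype)
      (h0 := ⟨a, trivial⟩) hφ ht1 ht2 ht10 (F1 := (psi t1 ht1).comp φ) (F2 := (psi t2 ht2).comp φ)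
      (fun h => rfl) (fun h => rfl)
  · push Not at hA
    have hdiv := Tq_div (A := A) hq (fun x _ => hA x)
    -- the subgroup of elements killed by q
    let V : AddSubgroup A := (nsmulAddMonoidHom q : A →+ A).ker
    have hV : ∀ x : A, x ∈ V ↔ q • x = 0 := fun x => Iff.rfl
    have hφ : ∃ φ : V →+ ZMod q, φ ⟨t1, ht1⟩ ≠ 0 := by
      apply func_exists hq
      intro b hb
      apply ht10
      have h1 : q • (b : A) = t1 := congrArg Subtype.val hb
      rw [← h1]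
      exact b.2
    obtain ⟨φ, hφ⟩ := hφ
    have hmem : ∀ t : A, q • t = 0 → t ∈ Tq A q := fun t ht => ⟨1, by simpa using ht⟩
    let T1 : Tq A q := ⟨t1, hmem t1 ht1⟩
    let T2 : Tq A q := ⟨t2, hmem t2 ht2⟩
    have hT1 : q • T1 = 0 := Subtype.ext ht1
    have hT2 : q • T2 = 0 := Subtype.ext ht2
    obtain ⟨F1, _, hF1⟩ := ext_of_div (Tq A q) hdiv V ((psi T1 hT1).comp φ)
    obtain ⟨F2, _, hF2⟩ := ext_of_div (Tq A q) hdiv V ((psi T2 hT2).comp φ)
    refine uniq_core hst hq V ?_ φ hφ ht1 ht2 ht10 (F1 := F1) (F2 := F2) ?_ ?_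
    · intro f h hh
      rw [hV] at hh ⊢
      rw [← map_nsmul, hh, map_zero]
    · intro h
      rw [hF1 h]
      rfl
    · intro h
      rw [hF2 h]
      rfl

theorem uniq_pow (hst : St (AddMonoid.End A)) {q : ℕ} (hq : q.Prime) (j : ℕ) :
    ∀ x x' : A, q ^ (j + 1) • x = 0 → q ^ j • x ≠ 0 → q ^ (j + 1) • x' = 0 →
      ∃ n : ℤ, x' = n • x := by
  induction j with
  | zero =>
    intro x x' h1 h2 h3
    simp only [zero_add, pow_one, pow_zero, one_smul] at h1 h2 h3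
    exact uniq hst hq h1 h3 h2
  | succ j ih =>
    intro x x' h1 h2 h3
    have e1 : q • (q ^ (j + 1) • x) = 0 := by rw [← mul_smul, ← pow_succ']; exact h1
    have e3 : q • (q ^ (j + 1) • x') = 0 := by rw [← mul_smul, ← pow_succ']; exact h3
    obtain ⟨n, hn⟩ := uniq hst hq e1 e3 h2
    have h4 : q ^ (j + 1) • (x' - n • x) = 0 := by
      rw [smul_sub, hn, smul_comm, sub_self]
    obtain ⟨m, hm⟩ := ih (q • x) (x' - n • x) (by rw [← mul_smul, ← pow_succ]; exact h1)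
      (by rw [← mul_smul, ← pow_succ]; exact h2) h4
    refine ⟨n + m * q, ?_⟩
    rw [add_smul, mul_smul, natCast_zsmul, ← hm]
    abel

theorem exact_order {q : ℕ} {x : A} (hx : x ∈ Tq A q) (hx0 : x ≠ 0) :
    ∃ j : ℕ, q ^ (j + 1) • x = 0 ∧ q ^ j • x ≠ 0 := by
  classical
  have hex : ∃ k : ℕ, q ^ k • x = 0 := hx
  have h1 := Nat.find_spec hex
  have h2 : Nat.find hex ≠ 0 := by
    intro h0
    rw [h0] at h1
    exact hx0 (by simpa using h1)
  obtain ⟨j, hj⟩ := Nat.exists_eq_succ_of_ne_zero h2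
  refine ⟨j, by rw [← Nat.succ_eq_add_one, ← hj]; exact h1, ?_⟩
  exact Nat.find_min hex (by omega)

theorem eig (hst : St (AddMonoid.End A)) {q : ℕ} (hq : q.Prime) (f : AddMonoid.End A) {x : A}
    (hx : x ∈ Tq A q) : ∃ n : ℤ, f x = n • x := by
  by_cases hx0 : x = 0
  · exact ⟨0, by rw [hx0]; simp⟩
  · obtain ⟨j, h1, h2⟩ := exact_order hx hx0
    exact uniq_pow hst hq j x (f x) h1 h2 (by rw [← map_nsmul, h1, map_zero])

/-- The projection onto the `q`-primary part. -/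
theorem proj_Tq (hst : St (AddMonoid.End A)) {q : ℕ} (hq : q.Prime) :
    ∃ e : AddMonoid.End A, e * e = e ∧ (∀ a, e a ∈ Tq A q) ∧ ∀ x ∈ Tq A q, e x = x := by
  have hne : NeZero q := ⟨hq.ne_zero⟩
  have := Fact.mk hq
  by_cases hT : ∀ x ∈ Tq A q, ∃ y, q • y = x
  · exact proj_of_div _ (Tq_div hq hT)
  · push Not at hT
    obtain ⟨x, hxT, hx⟩ := hT
    have hx0 : x ≠ 0 := by
      rintro rfl
      exact hx 0 (by simp)
    obtain ⟨k, hk1, hk2⟩ := exact_order hxT hx0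
    -- the primary part is generated by x
    have hgen : ∀ x' ∈ Tq A q, ∃ n : ℤ, x' = n • x := by
      intro x' hx'
      by_cases h1 : q ^ (k + 1) • x' = 0
      · exact uniq_pow hst hq k x x' hk1 hk2 h1
      · exfalso
        have hx'0 : x' ≠ 0 := by rintro rfl; simp at h1
        obtain ⟨j, hj1, hj2⟩ := exact_order hx' hx'0
        have hkj : k + 1 ≤ j := by
          by_contra hlt
          apply h1
          have : k + 1 = (k - j) + (j + 1) := by omega
          rw [this, pow_add, mul_smul, hj1, smul_zero]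
        obtain ⟨n, hn⟩ := uniq_pow hst hq j x' x hj1 hj2 (by
          have : j + 1 = (j - k) + (k + 1) := by omega
          rw [this, pow_add, mul_smul, hk1, smul_zero])
        -- q divides n
        have hqn : (q : ℤ) ∣ n := by
          by_contra hnd
          have hcop : IsCoprime (n : ℤ) ((q : ℤ) ^ (j + 1)) := by
            apply IsCoprime.pow_right
            rw [isCoprime_comm]
            exact (Prime.coprime_iff_not_dvd (Nat.prime_iff_prime_int.mp hq)).mpr hnd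
          obtain ⟨a, b, hab⟩ := hcop
          have h5 : n • (q ^ (k + 1) • x') = 0 := by rw [smul_comm, ← hn, hk1]
          apply h1
          have h6 : (a * n + b * (q : ℤ) ^ (j + 1)) • (q ^ (k + 1) • x') = q ^ (k + 1) • x' := by
            rw [hab, one_smul]
          rw [← h6, add_smul, mul_smul, h5, smul_zero, zero_add, mul_smul]
          have h7 : ((q : ℤ) ^ (j + 1)) • (q ^ (k + 1) • x') = 0 := by
            have h8 : ((q : ℤ) ^ (j + 1)) = ((q ^ (j + 1) : ℕ) : ℤ) := by push_cast; rfl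
            rw [h8, natCast_zsmul, smul_comm, hj1, smul_zero]
          rw [h7, smul_zero]
        obtain ⟨m, rfl⟩ := hqn
        apply hx (m • x')
        rw [hn, mul_smul, natCast_zsmul]
    -- the functional
    obtain ⟨φ, hφ⟩ := func_exists hq hx
    set t := q ^ k • x with ht
    have hqt : q • t = 0 := by rw [ht, ← mul_smul, ← pow_succ']; exact hk1
    let f : AddMonoid.End A := (psi t hqt).comp φ
    have hf : ∀ a, f a = (φ a).val • t := fun a => rfl
    let Q : AddMonoid.End A := nsmulAddMonoidHom (q ^ k)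
    have hQ : ∀ a, Q a = q ^ k • a := fun a => rfl
    obtain ⟨X, Y, hXY, ⟨G, hG⟩, ⟨H, hH⟩⟩ := hst Q f
    have hXT : ∀ a, X a ∈ Tq A q := by
      intro a
      refine ⟨k + 1, ?_⟩
      have h1 : (Q * X) a = (f * G) a := by rw [hG]
      have h2 : q ^ k • X a = (φ (G a)).val • t := h1
      rw [pow_succ', mul_smul, h2, smul_comm, hqt, smul_zero]
    have hHT : ∀ a, H a ∈ Tq A q := by
      intro a
      refine ⟨k + 1, ?_⟩
      have h1 : (f * Y) a = (Q * H) a := by rw [hH]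
      have h2 : (φ (Y a)).val • t = q ^ k • H a := h1
      rw [pow_succ', mul_smul, ← h2, smul_comm, hqt, smul_zero]
    -- a map into the primary part acting on x by a unit gives the projection
    have hfin : ∀ (E : AddMonoid.End A) (ξ : ℤ), (∀ a, E a ∈ Tq A q) → E x = ξ • x →
        ¬ (q : ℤ) ∣ ξ → ∃ e : AddMonoid.End A, e * e = e ∧ (∀ a, e a ∈ Tq A q) ∧
          ∀ x ∈ Tq A q, e x = x := by
      intro E ξ hE hEx hξ
      have hcop : IsCoprime (ξ : ℤ) ((q : ℤ) ^ (k + 1)) := by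
        apply IsCoprime.pow_right
        rw [isCoprime_comm]
        exact (Prime.coprime_iff_not_dvd (Nat.prime_iff_prime_int.mp hq)).mpr hξ
      obtain ⟨a, b, hab⟩ := hcop
      have h6 : a • (E x) = x := by
        have h7 : (a * ξ + b * (q : ℤ) ^ (k + 1)) • x = x := by rw [hab, one_smul]
        have h8 : ((q : ℤ) ^ (k + 1)) • x = 0 := by
          have h9 : ((q : ℤ) ^ (k + 1)) = ((q ^ (k + 1) : ℕ) : ℤ) := by push_cast; rfl
          rw [h9, natCast_zsmul, hk1]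
        rw [add_smul, mul_smul, mul_smul, h8, smul_zero, add_zero] at h7
        rw [hEx]; exact h7
      have h7 : ∀ y ∈ Tq A q, (a • E) y = y := by
        intro y hy
        obtain ⟨n, rfl⟩ := hgen y hy
        show a • E (n • x) = n • x
        rw [map_zsmul, smul_comm, h6]
      refine ⟨a • E, ?_, fun c => (Tq A q).zsmul_mem (hE c) a, h7⟩
      ext c
      exact h7 _ ((Tq A q).zsmul_mem (hE c) a)
    obtain ⟨ξ, hξ⟩ := eig hst hq X hxT
    obtain ⟨η, hη⟩ := eig hst hq H hxT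
    by_cases hqξ : (q : ℤ) ∣ ξ
    · -- use H
      apply hfin H η hHT hη
      intro hqη
      obtain ⟨m, rfl⟩ := hqη
      have h1 : (f * Y) x = (Q * H) x := by rw [hH]
      have h2 : (φ (Y x)).val • t = q ^ k • H x := h1
      have h3 : q ^ k • H x = 0 := by
        rw [hη, mul_smul, natCast_zsmul, ← mul_smul, ← pow_succ, smul_comm, hk1, smul_zero]
      have h4 : Y x = x - X x := by
        have : (X + Y) x = (1 : AddMonoid.End A) x := by rw [hXY]
        have h5 : X x + Y x = x := this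
        rw [eq_sub_iff_add_eq, add_comm]; exact h5
      have h5 : φ (Y x) = φ x := by
        obtain ⟨m', rfl⟩ := hqξ
        rw [h4, hξ, map_sub, map_zsmul, mul_smul, natCast_zsmul]
        simp
      rw [h3, h5] at h2
      obtain ⟨m', hm'⟩ := inv_mul_t hq hqt hφ
      rw [h2, smul_zero] at hm'
      exact hk2 hm'.symm
    · exact hfin X ξ hXT hξ hqξ

end Pool.Agent.X173.ED
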