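import Mathlib
import Pool.Agent.X173.EDB
set_option autoImplicit false

/-!
Commutativity.
-/

namespace Pool.Agent.X173.ED

universe u
variable {A : Type u} [AddCommGroup A]

/-- central idempotents with commutative corner -/
def Good (e : AddMonoid.End A) : Prop :=
  e * e = e ∧ ∀ f g : AddMonoid.End A, e * (f * g) = e * (g * f)

theorem good_Tq (hst : St (AddMonoid.End A)) {q : ℕ} (hq : q.Prime) :
    ∃ e : AddMonoid.End A, Good e ∧ (∀ a, e a ∈ Tq A q) ∧ ∀ x ∈ Tq A q, e x = x := by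
  obtain ⟨e, he, he1, he2⟩ := proj_Tq hst hq
  refine ⟨e, ⟨he, ?_⟩, he1, he2⟩
  intro f g
  rw [idem_central hst he, idem_central hst he]
  ext a
  show f (g (e a)) = g (f (e a))
  obtain ⟨n, hn⟩ := eig hst hq f (he1 a)
  obtain ⟨m, hm⟩ := eig hst hq g (he1 a)
  rw [hn, hm, map_zsmul, map_zsmul, hn, hm, smul_comm]

/-- the square-zero class -/
def VV (v : AddMonoid.End A) : Prop :=
  v * v = 0 ∧ ∀ e : AddMonoid.End A, Good e → e * v = 0

theorem VV_div_prime (hst : St (AddMonoid.End A)) {q : ℕ} (hq : q.Prime) {v : AddMonoid.End A}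
    (hv : VV v) : ∃ r : AddMonoid.End A, VV r ∧ q • r = v := by
  obtain ⟨e, heG, he1, he2⟩ := good_Tq (A := A) hst hq
  obtain ⟨X, Y, hXY, ⟨G, hG⟩, ⟨H, hH⟩⟩ := hst v (nsmulAddMonoidHom q : AddMonoid.End A)
  have hev := hv.2 e heG
  have hevA : ∀ a, e (v a) = 0 := fun a => DFunLike.congr_fun hev a
  have hvv : ∀ a, v (v a) = 0 := fun a => DFunLike.congr_fun hv.1 a
  have hG' : ∀ a, v (X a) = q • G a := fun a => DFunLike.congr_fun hG a
  have hH' : ∀ a, q • Y a = v (H a) := fun a => DFunLike.congr_fun hH a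
  have hvY : ∀ a, v (Y a) = 0 := by
    intro a
    have h1 : q • v (Y a) = 0 := by rw [← map_nsmul, hH', hvv]
    have h2 : v (Y a) ∈ Tq A q := ⟨1, by simpa using h1⟩
    rw [← he2 _ h2, hevA]
  have hvG : ∀ a, v a = q • G a := by
    intro a
    have h1 : X a + Y a = a := DFunLike.congr_fun hXY a
    calc v a = v (X a + Y a) := by rw [h1]
      _ = q • G a := by rw [map_add, hvY, add_zero, hG']
  let r : AddMonoid.End A := (1 - e) * G
  have hr : ∀ a, r a = G a - e (G a) := fun a => rfl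
  have her : ∀ a, e (r a) = 0 := by
    intro a
    have h1 : e (e (G a)) = e (G a) := DFunLike.congr_fun heG.1 (G a)
    rw [hr, map_sub, h1, sub_self]
  have hqr : ∀ a, q • r a = v a := by
    intro a
    rw [hr, smul_sub, ← hvG, ← map_nsmul, ← hvG, hevA, sub_zero]
  have hzero : ∀ x : A, q • x = 0 → e x = 0 → x = 0 := by
    intro x hx hex
    have h2 : x ∈ Tq A q := ⟨1, by simpa using hx⟩
    rw [← he2 _ h2, hex]
  refine ⟨r, ⟨?_, ?_⟩, ?_⟩
  · ext a
    show r (r a) = 0
    apply hzero _ _ (her _)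
    rw [hqr]
    apply hzero _ _ (hevA _)
    rw [← map_nsmul, hqr, hvv]
  · intro e' he'
    ext a
    show e' (r a) = 0
    apply hzero
    · rw [← map_nsmul, hqr]
      exact DFunLike.congr_fun (hv.2 e' he') a
    · have h1 : e (e' (r a)) = e' (e (r a)) :=
        DFunLike.congr_fun (idem_central hst heG.1 e') (r a)
      rw [h1, her, map_zero]
  · ext a
    exact hqr a

theorem VV_div_nat (hst : St (AddMonoid.End A)) (n : ℕ) (hn : n ≠ 0) :
    ∀ v : AddMonoid.End A, VV v → ∃ r : AddMonoid.End A, VV r ∧ n • r = v := by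
  induction n using Nat.recOnMul with
  | zero => exact absurd rfl hn
  | one => intro v hv; exact ⟨v, hv, one_smul _ _⟩
  | prime p hp => intro v hv; exact VV_div_prime hst hp hv
  | mul a b ha hb =>
    intro v hv
    obtain ⟨r, hr, rfl⟩ := ha (by rintro rfl; simp at hn) v hv
    obtain ⟨s, hs, rfl⟩ := hb (by rintro rfl; simp at hn) r hr
    exact ⟨s, hs, by rw [mul_smul]⟩

/-- The subgroup generated by the images of the square-zero class. -/
def DD (A : Type u) [AddCommGroup A] : AddSubgroup A :=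
  AddSubgroup.closure {x | ∃ w : AddMonoid.End A, VV w ∧ ∃ a, w a = x}

theorem DD_div (hst : St (AddMonoid.End A)) :
    ∀ n : ℤ, n ≠ 0 → ∀ x ∈ DD A, ∃ y ∈ DD A, n • y = x := by
  have hnat : ∀ n : ℕ, n ≠ 0 → ∀ x ∈ DD A, ∃ y ∈ DD A, n • y = x := by
    intro n hn x hx
    induction hx using AddSubgroup.closure_induction with
    | mem x hx =>
      obtain ⟨w, hw, a, rfl⟩ := hx
      obtain ⟨r, hr, rfl⟩ := VV_div_nat hst n hn w hw
      exact ⟨r a, AddSubgroup.subset_closure ⟨r, hr, a, rfl⟩, rfl⟩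
    | zero => exact ⟨0, (DD A).zero_mem, smul_zero _⟩
    | add x y _ _ hx hy =>
      obtain ⟨x', hx', rfl⟩ := hx
      obtain ⟨y', hy', rfl⟩ := hy
      exact ⟨x' + y', (DD A).add_mem hx' hy', smul_add _ _ _⟩
    | neg x _ hx =>
      obtain ⟨x', hx', rfl⟩ := hx
      exact ⟨-x', (DD A).neg_mem hx', smul_neg _ _⟩
  intro n hn x hx
  obtain ⟨y, hy, hyx⟩ := hnat n.natAbs (by simpa using hn) x hx
  rcases Int.natAbs_eq n with h | h
  · exact ⟨y, hy, by rw [h, natCast_zsmul]; exact hyx⟩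
  · refine ⟨-y, (DD A).neg_mem hy, ?_⟩
    rw [h, smul_neg, neg_smul, neg_neg, natCast_zsmul]
    exact hyx

theorem DD_kill {e : AddMonoid.End A} (he : Good e) {x : A} (hx : x ∈ DD A) : e x = 0 := by
  induction hx using AddSubgroup.closure_induction with
  | mem x hx =>
    obtain ⟨w, hw, a, rfl⟩ := hx
    exact DFunLike.congr_fun (hw.2 e he) a
  | zero => exact map_zero e
  | add x y _ _ hx hy => rw [map_add, hx, hy, add_zero]
  | neg x _ hx => rw [map_neg, hx, neg_zero]

theorem DD_tf_prime (hst : St (AddMonoid.End A)) {q : ℕ} (hq : q.Prime) {x : A} (hx : x ∈ DD A)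
    (hqx : q • x = 0) : x = 0 := by
  obtain ⟨e, heG, _, he2⟩ := good_Tq (A := A) hst hq
  rw [← he2 x ⟨1, by simpa using hqx⟩, DD_kill heG hx]

theorem DD_tf_nat (hst : St (AddMonoid.End A)) (n : ℕ) (hn : n ≠ 0) :
    ∀ x ∈ DD A, n • x = 0 → x = 0 := by
  induction n using Nat.recOnMul with
  | zero => exact absurd rfl hn
  | one => intro x _ h; simpa using h
  | prime p hp => intro x hx h; exact DD_tf_prime hst hp hx h
  | mul a b ha hb =>
    intro x hx h
    apply hb (by rintro rfl; simp at hn) x hx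
    apply ha (by rintro rfl; simp at hn) _ ((DD A).nsmul_mem hx b)
    rw [← mul_smul]; exact h

theorem DD_tf (hst : St (AddMonoid.End A)) {n : ℤ} (hn : n ≠ 0) {x : A} (hx : x ∈ DD A)
    (h : n • x = 0) : x = 0 := by
  apply DD_tf_nat hst n.natAbs (by simpa using hn) x hx
  rcases Int.natAbs_eq n with h1 | h1
  · rw [h1, natCast_zsmul] at h; exact h
  · rw [h1, neg_smul, natCast_zsmul, neg_eq_zero] at h; exact h

theorem DD_eig (hst : St (AddMonoid.End A)) (f : AddMonoid.End A) {x : A} (hx : x ∈ DD A) :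
    ∃ n m : ℤ, n ≠ 0 ∧ n • f x = m • x := by
  let L : AddSubgroup A :=
    { carrier := {y | y ∈ DD A ∧ ∃ n m : ℤ, n ≠ 0 ∧ n • y = m • x}
      zero_mem' := ⟨(DD A).zero_mem, 1, 0, one_ne_zero, by simp⟩
      add_mem' := by
        rintro a b ⟨ha, n, m, hn, h⟩ ⟨hb, n', m', hn', h'⟩
        refine ⟨(DD A).add_mem ha hb, n * n', n' * m + n * m', mul_ne_zero hn hn', ?_⟩
        rw [smul_add, mul_comm n n', mul_smul n' n a, h, mul_comm n' n, mul_smul n n' b, h',
          add_smul, mul_smul, mul_smul]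
      neg_mem' := by
        rintro a ⟨ha, n, m, hn, h⟩
        exact ⟨(DD A).neg_mem ha, n, -m, hn, by rw [smul_neg, h, neg_smul]⟩ }
  have hL : ∀ n : ℤ, n ≠ 0 → ∀ z ∈ L, ∃ y ∈ L, n • y = z := by
    rintro k hk z ⟨hz, n, m, hn, h⟩
    obtain ⟨y, hy, rfl⟩ := DD_div hst k hk z hz
    exact ⟨y, ⟨hy, n * k, m, mul_ne_zero hn hk, by rw [mul_smul, h]⟩, rfl⟩
  obtain ⟨e, he, he1, he2⟩ := proj_of_div L hL
  have hxL : x ∈ L := ⟨hx, 1, 1, one_ne_zero, rfl⟩
  have h1 : f x = e (f x) := by
    have h2 : e (f x) = f (e x) := DFunLike.congr_fun (idem_central hst he f) x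
    rw [h2, he2 x hxL]
  have h3 := he1 (f x)
  rw [← h1] at h3
  obtain ⟨_, n, m, hn, h⟩ := h3
  exact ⟨n, m, hn, h⟩

theorem VV_zero (hst : St (AddMonoid.End A)) {v : AddMonoid.End A} (hv : VV v) : v = 0 := by
  obtain ⟨e, he, he1, he2⟩ := proj_of_div (DD A) (DD_div hst)
  have hgood : Good e := by
    refine ⟨he, ?_⟩
    intro f g
    rw [idem_central hst he, idem_central hst he]
    ext a
    show f (g (e a)) = g (f (e a))
    set x := e a with hx
    have hxD : x ∈ DD A := he1 a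
    obtain ⟨n, m, hn, hf⟩ := DD_eig hst f hxD
    obtain ⟨n', m', hn', hg⟩ := DD_eig hst g hxD
    -- endomorphisms preserve D
    have hD : ∀ (p : AddMonoid.End A) (y : A), y ∈ DD A → p y ∈ DD A := by
      intro p y hy
      have h2 : e (p y) = p (e y) := DFunLike.congr_fun (idem_central hst he p) y
      rw [he2 y hy] at h2
      rw [← h2]
      exact he1 _
    rw [← sub_eq_zero]
    apply DD_tf hst (mul_ne_zero hn hn') ((DD A).sub_mem (hD f _ (hD g _ hxD)) (hD g _ (hD f _ hxD)))
    rw [smul_sub]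
    have h3 : (n * n') • f (g x) = (m * m') • x := by
      rw [mul_smul, ← map_zsmul f n' (g x), hg, map_zsmul, smul_comm, hf, ← mul_smul, mul_comm]
    have h4 : (n * n') • g (f x) = (m * m') • x := by
      rw [mul_comm n n', mul_smul, ← map_zsmul g n (f x), hf, map_zsmul, smul_comm, hg, ← mul_smul]
    rw [h3, h4, sub_self]
  ext a
  have h1 : v a ∈ DD A := AddSubgroup.subset_closure ⟨v, hv, a, rfl⟩
  rw [← he2 _ h1, DD_kill hgood h1]
  rfl

/-- Main commutativity statement. -/
theorem commutative (hst : St (AddMonoid.End A))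
    (hce : ∀ a : AddMonoid.End A, a ≠ 0 → ∃ x y : AddMonoid.End A, (∀ r, r * x = x * r) ∧
      (∀ r, r * y = y * r) ∧ x ≠ 0 ∧ y ≠ 0 ∧ a * x = y) (a b : AddMonoid.End A) :
    a * b = b * a := by
  by_contra hne
  set n := a * b - b * a with hn
  have hn0 : n ≠ 0 := sub_ne_zero.mpr hne
  obtain ⟨z, u, hz, hu, hz0, hu0, hzu⟩ := hce n hn0
  -- a central element v = n z' with v^2 = 0, v ≠ 0 gives a contradiction
  have hfin : ∀ v z' : AddMonoid.End A, v = n * z' → v * v = 0 → v = 0 := by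
    intro v z' hv hvv
    apply VV_zero hst
    refine ⟨hvv, ?_⟩
    intro e he
    rw [hv, ← mul_assoc, hn, mul_sub, he.2 a b, sub_self, zero_mul]
  have hnu : n * u = a * u * b - b * (a * u) := by
    rw [hn, sub_mul, mul_assoc, mul_assoc, mul_assoc, hu b]
  by_cases hau : a * u = 0
  · apply hu0
    apply hfin u z hzu.symm
    have h1 : n * u = 0 := by rw [hnu, hau]; simp
    calc u * u = (n * z) * u := by rw [hzu]
      _ = n * (u * z) := by rw [mul_assoc, ← hz u]
      _ = 0 := by rw [← mul_assoc, h1, zero_mul]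
  · obtain ⟨w, y, hw, hy, hw0, hy0, hwy⟩ := hce (a * u) hau
    have h1 : n * (u * w) = 0 := by
      have h2 : n * (u * w) = (a * u * w) * b - b * (a * u * w) := by
        rw [← mul_assoc, hnu, sub_mul]
        rw [mul_assoc (a * u) b w, hw b, ← mul_assoc, mul_assoc b]
      rw [h2, hwy, hy b, sub_self]
    have h3 : u * w ≠ 0 := by
      intro h0
      apply hy0
      rw [← hwy, mul_assoc, h0, mul_zero]
    apply h3
    apply hfin (u * w) (z * w)
    · rw [← hzu, mul_assoc]
    · calc (u * w) * (u * w) = (n * z * w) * (u * w) := by rw [hzu]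
        _ = n * ((z * w) * (u * w)) := by rw [mul_assoc n z w, mul_assoc]
        _ = n * ((u * w) * (z * w)) := by
          have h4 : (z * w) * (u * w) = (u * w) * (z * w) := by
            have h5 : ∀ r, r * (z * w) = (z * w) * r := by
              intro r
              rw [← mul_assoc, hz r, mul_assoc, hw r, mul_assoc]
            exact (h5 (u * w)).symm
          rw [h4]
        _ = 0 := by rw [← mul_assoc, h1, zero_mul]

end Pool.Agent.X173.ED
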