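import Mathlib
set_option autoImplicit false

/-!
Flow cocycle of a free group acting on a set.
-/

namespace Pool.Agent.X173.AL

open FreeGroup

universe u v
variable {Y : Type u} {V : Type v} [MulAction (FreeGroup Y) V]

/-- The action of a generator on pairs (position, accumulated flow). -/
noncomputable def gen (V : Type v) [MulAction (FreeGroup Y) V] (y : Y) :
    Equiv.Perm (V × (V × Y →₀ ℤ)) where
  toFun p := (of y • p.1, p.2 + Finsupp.single (p.1, y) 1)
  invFun p := ((of y)⁻¹ • p.1, p.2 - Finsupp.single ((of y)⁻¹ • p.1, y) 1)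
  left_inv p := by
    ext1
    · simp
    · simp
  right_inv p := by
    ext1
    · simp
    · simp

/-- The accumulator action. -/
noncomputable def L (V : Type v) [MulAction (FreeGroup Y) V] :
    FreeGroup Y →* Equiv.Perm (V × (V × Y →₀ ℤ)) :=
  FreeGroup.lift (gen V)

/-- The flow of the path reading `w` from `k`. -/
noncomputable def c (w : FreeGroup Y) (k : V) : V × Y →₀ ℤ := (L V w (k, 0)).2

theorem L_apply (w : FreeGroup Y) : ∀ (k : V) (f : V × Y →₀ ℤ),
    L V w (k, f) = (w • k, f + c w k) := by
  induction w using FreeGroup.induction_on with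
  | C1 => intro k f; simp [c]
  | of y =>
    intro k f
    simp [c, L, gen]
  | inv_of y ih =>
    intro k f
    simp [c, L, gen, Equiv.Perm.inv_def, sub_eq_add_neg]
  | mul u w hu hw =>
    intro k f
    have h1 : L V (u * w) (k, f) = L V u (L V w (k, f)) := by rw [_root_.map_mul]; rfl
    have h2 : c (u * w) k = c w k + c u (w • k) := by
      unfold c
      have h3 : L V (u * w) (k, 0) = L V u (L V w (k, 0)) := by rw [_root_.map_mul]; rfl
      rw [h3, hw k 0, hu]
      simp [c]
    rw [h1, hw k f, hu, h2, mul_smul]
    simp [add_assoc]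

theorem c_mul (u w : FreeGroup Y) (k : V) : c (u * w) k = c w k + c u (w • k) := by
  have h1 : L V (u * w) (k, 0) = L V u (L V w (k, 0)) := by rw [_root_.map_mul]; rfl
  have h2 : c (u * w) k = (L V (u * w) (k, 0)).2 := rfl
  rw [h2, h1, L_apply, L_apply]
  simp

@[simp] theorem c_one (k : V) : c (1 : FreeGroup Y) k = 0 := by simp [c]

theorem c_of (y : Y) (k : V) : c (of y) k = Finsupp.single (k, y) 1 := by
  simp [c, L, gen]

theorem c_inv (w : FreeGroup Y) (k : V) : c w⁻¹ k = - c w (w⁻¹ • k) := by
  have h := c_mul w w⁻¹ k
  rw [mul_inv_cancel, c_one] at h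
  exact eq_neg_of_add_eq_zero_left h.symm

theorem c_inv' (w : FreeGroup Y) (k : V) : c w⁻¹ (w • k) = - c w k := by
  rw [c_inv]; simp

/-- Only finitely many starting points give a flow through a given edge. -/
theorem finite_start (w : FreeGroup Y) (e : V × Y) : {k : V | c w k e ≠ 0}.Finite := by
  classical
  induction w using FreeGroup.induction_on with
  | C1 => simp
  | of y =>
    apply (Set.finite_singleton e.1).subset
    intro k hk
    simp only [Set.mem_setOf_eq, c_of, ne_eq] at hk
    by_contra hne
    apply hk
    rw [Finsupp.single_apply, if_neg]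
    rintro rfl
    exact hne rfl
  | inv_of y ih =>
    apply (ih.preimage (f := fun k : V => (of y)⁻¹ • k)
      ((MulAction.injective _).injOn)).subset
    intro k hk
    simp only [Set.mem_setOf_eq, c_inv, Finsupp.neg_apply, ne_eq, neg_eq_zero] at hk
    exact hk
  | mul u w hu hw =>
    apply (hw.union (hu.preimage (f := fun k : V => w • k)
      ((MulAction.injective _).injOn))).subset
    intro k hk
    simp only [Set.mem_setOf_eq, c_mul, Finsupp.add_apply, ne_eq] at hk
    by_contra hne
    apply hk
    simp only [Set.mem_union, Set.mem_setOf_eq, Set.mem_preimage, not_or, ne_eq, not_not] at hne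
    rw [hne.1, hne.2, add_zero]

end Pool.Agent.X173.AL
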