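import Mathlib
import Pool.Agent.X173.ALA
set_option autoImplicit false

/-!
The two cases (infinite, finite) of the orbit argument.
-/

namespace Pool.Agent.X173.AL

open FreeGroup

universe u v
variable {Y : Type u} {V : Type v} [MulAction (FreeGroup Y) V]

/-- a letter -/
def s (x : Y × Bool) : FreeGroup Y := mk [x]

/-- the word read along a path -/
def g (M : List (Y × Bool)) : FreeGroup Y := mk M.reverse

theorem g_nil : g ([] : List (Y × Bool)) = 1 := rfl

theorem g_cons (x : Y × Bool) (M : List (Y × Bool)) : g (x :: M) = g M * s x := by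
  simp [g, s, mul_mk]

/-- the edge traversed by a letter from `k` -/
def ed (x : Y × Bool) (k : V) : V × Y := if x.2 then (k, x.1) else ((of x.1)⁻¹ • k, x.1)

/-- the sign of a letter -/
def sg (b : Bool) : ℤ := if b then 1 else -1

theorem c_s (x : Y × Bool) (k : V) : c (s x) k = sg x.2 • Finsupp.single (ed x k) (1 : ℤ) := by
  obtain ⟨y, b⟩ := x
  cases b
  · have h : s (y, false) = (of y)⁻¹ := by simp [s, of, inv_mk, invRev]
    rw [h, c_inv, c_of]
    simp [sg, ed]
  · have h : s (y, true) = of y := rfl
    rw [h, c_of]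
    simp [sg, ed]

theorem ed_rev {y : Y} {b : Bool} {v k : V} (h : ed (y, !b) v = ed (y, b) k) :
    v = s (y, b) • k := by
  cases b
  · have hs : s (y, false) = (of y)⁻¹ := by simp [s, of, inv_mk, invRev]
    simp [ed] at h
    rw [hs, h]
  · have hs : s (y, true) = of y := rfl
    simp [ed] at h
    rw [hs, ← h]
    simp

theorem sg_mul_self (b : Bool) : sg b * sg b = 1 := by cases b <;> simp [sg]

theorem nonneg_aux [DecidableEq V] [DecidableEq Y] (y : Y) (b : Bool) (k : V) (N : List (Y × Bool)) :
    ∀ v : V, (∀ N1 N2, N = N1 ++ (y, !b) :: N2 → g N1 • v ≠ s (y, b) • k) →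
      0 ≤ sg b * (c (g N) v) (ed (y, b) k) := by
  induction N with
  | nil => intro v _; simp [g_nil]
  | cons z N ih =>
    intro v hv
    rw [g_cons, c_mul, Finsupp.add_apply, mul_add]
    apply add_nonneg
    · rw [c_s]
      by_cases he : ed z v = ed (y, b) k
      · -- same edge, hence same label
        have hzy : z.1 = y := by
          have := congrArg Prod.snd he
          obtain ⟨z1, z2⟩ := z
          cases z2 <;> cases b <;> simpa [ed] using this
        obtain ⟨z1, z2⟩ := z
        simp only at hzy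
        subst hzy
        by_cases hb : z2 = b
        · subst hb
          rw [he]
          simp only [Finsupp.smul_apply, Finsupp.single_eq_same, smul_eq_mul, mul_one]
          rw [sg_mul_self]
          norm_num
        · exfalso
          have hb' : z2 = !b := by cases z2 <;> cases b <;> simp_all
          subst hb'
          exact hv [] N rfl (by rw [g_nil, one_smul]; exact ed_rev he)
      · simp only [Finsupp.smul_apply]
        rw [Finsupp.single_apply, if_neg he]
        simp
    · apply ih
      intro N1 N2 hN heq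
      refine hv (z :: N1) N2 (by rw [hN]; rfl) ?_
      rw [g_cons, mul_smul]
      exact heq

section infinite

theorem fix_all (R : Subgroup (FreeGroup Y))
    (H1 : ∀ a ∈ R, ∀ b ∈ R, ∀ k : V, (a * b) • k = (b * a) • k)
    (H3 : ∀ k l : V, ∃ a ∈ R, a • k = l) {t : FreeGroup Y} (ht : t ∈ R) {k : V}
    (hk : t • k = k) (l : V) : t • l = l := by
  obtain ⟨b, hb, rfl⟩ := H3 k l
  rw [← mul_smul, H1 t ht b hb, mul_smul, hk]

theorem flow_zero [Infinite V] (R : Subgroup (FreeGroup Y))
    (H1 : ∀ a ∈ R, ∀ b ∈ R, ∀ k : V, (a * b) • k = (b * a) • k)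
    (H2 : ∀ a ∈ R, ∀ b ∈ R, ∀ k : V, c (a * b) k = c (b * a) k)
    (H3 : ∀ k l : V, ∃ a ∈ R, a • k = l) {t : FreeGroup Y} (ht : t ∈ R) {k : V}
    (hk : t • k = k) : c t k = 0 := by
  have hconst : ∀ l : V, c t l = c t k := by
    intro l
    obtain ⟨b, hb, rfl⟩ := H3 k l
    have h := H2 t ht b hb k
    rw [c_mul, c_mul, hk] at h
    rw [add_comm] at h
    exact add_right_cancel h
  ext e
  obtain ⟨l, hl⟩ := (finite_start (V := V) t e).exists_notMem
  simp only [Set.mem_setOf_eq, ne_eq, not_not] at hl
  rw [← hconst l, hl]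
  simp

theorem flow_eq [Infinite V] (R : Subgroup (FreeGroup Y))
    (H1 : ∀ a ∈ R, ∀ b ∈ R, ∀ k : V, (a * b) • k = (b * a) • k)
    (H2 : ∀ a ∈ R, ∀ b ∈ R, ∀ k : V, c (a * b) k = c (b * a) k)
    (H3 : ∀ k l : V, ∃ a ∈ R, a • k = l) {a a' : FreeGroup Y} (ha : a ∈ R) (ha' : a' ∈ R) {k : V}
    (hk : a • k = a' • k) : c a k = c a' k := by
  have ht : a'⁻¹ * a ∈ R := R.mul_mem (R.inv_mem ha') ha
  have hfix : (a'⁻¹ * a) • k = k := by rw [mul_smul, hk]; simp
  have h0 := flow_zero R H1 H2 H3 ht hfix
  rw [c_mul, hk, c_inv'] at h0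
  exact add_neg_eq_zero.mp h0

theorem conj_flow (w r : FreeGroup Y) (k : V) :
    c (w * r * w⁻¹) (w • k) = - c w k + c r k + c w (r • k) := by
  rw [c_mul, c_inv', c_mul]
  simp [add_assoc]

theorem closed_const_infinite [Infinite V] (R : Subgroup (FreeGroup Y)) [hR : R.Normal]
    (H1 : ∀ a ∈ R, ∀ b ∈ R, ∀ k : V, (a * b) • k = (b * a) • k)
    (H2 : ∀ a ∈ R, ∀ b ∈ R, ∀ k : V, c (a * b) k = c (b * a) k)
    (H3 : ∀ k l : V, ∃ a ∈ R, a • k = l) (w : FreeGroup Y) {k k1 : V}
    (hk : w • k = k) (hk1 : w • k1 = k1) : c w k = c w k1 := by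
  obtain ⟨r, hr, rfl⟩ := H3 k k1
  have hconj : w * r * w⁻¹ ∈ R := hR.conj_mem r hr w
  have h1 : (w * r * w⁻¹) • k = r • k := by
    have : w⁻¹ • k = k := by rw [inv_smul_eq_iff, hk]
    rw [mul_smul, mul_smul, this, hk1]
  have h2 := flow_eq R H1 H2 H3 hconj hr h1
  have h3 := conj_flow w r k
  rw [hk, h2] at h3
  have h4 : (0 : V × Y →₀ ℤ) = - c w k + c w (r • k) := by
    have h5 : c r k = c r k + (- c w k + c w (r • k)) := by
      rw [← add_assoc, add_comm (c r k)]
      exact h3
    exact (add_eq_left.mp h5.symm).symm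
  rw [eq_comm, neg_add_eq_zero] at h4
  exact h4

theorem infinite_case [Infinite V] (R : Subgroup (FreeGroup Y)) [hR : R.Normal]
    (H1 : ∀ a ∈ R, ∀ b ∈ R, ∀ k : V, (a * b) • k = (b * a) • k)
    (H2 : ∀ a ∈ R, ∀ b ∈ R, ∀ k : V, c (a * b) k = c (b * a) k)
    (H3 : ∀ k l : V, ∃ a ∈ R, a • k = l) {t : FreeGroup Y} (ht1 : t ≠ 1)
    (ht : ∀ k : V, t • k = k) : False := by
  classical
  have key : ∀ n : ℕ, ∀ M : List (Y × Bool), M.length = n → M ≠ [] → FreeGroup.IsReduced M →
      {l : V | g M • l = l}.Finite := by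
    intro n
    induction n using Nat.strong_induction_on with
    | _ n ih =>
      intro M hMn hM0 hred
      by_contra hinf
      have hinf' : {l : V | g M • l = l}.Infinite := hinf
      -- the flow vanishes
      have hzero : ∀ l : V, g M • l = l → c (g M) l = 0 := by
        intro l hl
        ext e
        have hdiff := hinf'.diff (finite_start (V := V) (g M) e)
        obtain ⟨l', hl', hl''⟩ := hdiff.nonempty
        simp only [Set.mem_setOf_eq, ne_eq, not_not] at hl''
        rw [closed_const_infinite R H1 H2 H3 (g M) hl hl', hl'']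
        simp
      obtain ⟨⟨y, b⟩, M', rfl⟩ := List.exists_cons_of_ne_nil hM0
      have hdec : ∀ l : V, g ((y, b) :: M') • l = l →
          ∃ N1 N2, M' = N1 ++ (y, !b) :: N2 ∧ g N1 • (s (y, b) • l) = s (y, b) • l := by
        intro l hl
        by_contra hcon
        push Not at hcon
        have h1 := nonneg_aux y b l M' (s (y, b) • l) (fun N1 N2 h => hcon N1 N2 h)
        have h2 := hzero l hl
        have h3 : (c (g ((y, b) :: M')) l) (ed (y, b) l) = 0 := by rw [h2]; rfl
        rw [g_cons, c_mul, Finsupp.add_apply, c_s] at h3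
        simp only [Finsupp.smul_apply, Finsupp.single_eq_same, smul_eq_mul, mul_one] at h3
        have h4 := sg_mul_self b
        have h5 : sg b * (sg b + (c (g M') (s (y, b) • l)) (ed (y, b) l)) = 0 := by
          rw [h3, mul_zero]
        rw [mul_add, h4] at h5
        linarith
      have hsub : {l : V | g ((y, b) :: M') • l = l} ⊆
          ⋃ i ∈ Finset.range M'.length, {l : V | 1 ≤ i ∧
            g (M'.take i) • (s (y, b) • l) = s (y, b) • l} := by
        intro l hl
        obtain ⟨N1, N2, hM', hfix⟩ := hdec l hl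
        simp only [Set.mem_iUnion, Finset.mem_range, Set.mem_setOf_eq]
        refine ⟨N1.length, ?_, ?_, ?_⟩
        · rw [hM']; simp
        · by_contra hlen
          have hN1 : N1 = [] := List.eq_nil_of_length_eq_zero (by omega)
          subst hN1
          rw [List.nil_append] at hM'
          rw [hM'] at hred
          have := (List.isChain_cons_cons.mp hred).1 rfl
          cases b <;> simp at this
        · have : M'.take N1.length = N1 := by rw [hM']; simp
          rw [this]
          exact hfix
      apply hinf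
      apply Set.Finite.subset _ hsub
      apply Set.Finite.biUnion (Finset.finite_toSet _)
      intro i hi
      have hi' : i < M'.length := by simpa using hi
      by_cases h1 : 1 ≤ i
      · have hlen : (M'.take i).length = i := by rw [List.length_take]; omega
        have hfin := ih i (by simp at hMn; omega) (M'.take i) hlen
          (by intro h0; rw [h0] at hlen; simp at hlen; omega)
          ((List.IsChain.tail hred).take i)
        apply (hfin.preimage (f := fun l : V => s (y, b) • l)
          ((MulAction.injective _).injOn)).subset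
        intro l hl
        exact hl.2
      · have : {l : V | 1 ≤ i ∧ g (M'.take i) • (s (y, b) • l) = s (y, b) • l} = ∅ := by
          ext l
          simp [h1]
        rw [this]
        exact Set.finite_empty
  have hg : g t.toWord.reverse = t := by simp [g, mk_toWord]
  have hfin := key _ t.toWord.reverse rfl (by simpa using ht1) (by
    have h := isReduced_toWord (x := t)
    unfold FreeGroup.IsReduced at h ⊢
    rw [List.isChain_reverse]
    apply h.imp
    intro a b hab heq
    exact (hab heq.symm).symm)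
  rw [hg] at hfin
  have : {l : V | t • l = l} = Set.univ := by
    ext l
    simp [ht l]
  rw [this] at hfin
  exact Set.infinite_univ hfin

end infinite

section finite

theorem closed_const_finite [Finite V] (R : Subgroup (FreeGroup Y)) [hR : R.Normal]
    (H1 : ∀ a ∈ R, ∀ b ∈ R, ∀ k : V, (a * b) • k = (b * a) • k)
    (H2 : ∀ a ∈ R, ∀ b ∈ R, ∀ k : V, c (a * b) k = c (b * a) k)
    (H3 : ∀ k l : V, ∃ a ∈ R, a • k = l) (w : FreeGroup Y) {k k1 : V}
    (hk : w • k = k) (hk1 : w • k1 = k1) : c w k = c w k1 := by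
  classical
  haveI := Fintype.ofFinite V
  choose β hβR hβ using H3 k
  -- Φ, E
  let Φ : V → (V × Y →₀ ℤ) := fun l => ∑ v, c (β v) l
  let E : FreeGroup Y → (V × Y →₀ ℤ) := fun u => ∑ v : V, c u v
  have hE : ∀ u w : FreeGroup Y, E (u * w) = E w + E u := by
    intro u w
    simp only [E]
    rw [Finset.sum_congr rfl (fun v _ => c_mul u w v), Finset.sum_add_distrib]
    congr 1
    exact Fintype.sum_equiv (MulAction.toPerm w) _ _ (fun v => rfl)
  have hE1 : E 1 = 0 := by simp [E]
  have hEinv : ∀ u : FreeGroup Y, E u⁻¹ = - E u := by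
    intro u
    have h := hE u u⁻¹
    rw [mul_inv_cancel, hE1] at h
    exact eq_neg_of_add_eq_zero_left h.symm
  -- bijection v ↦ β v • l
  have hbij : ∀ l : V, Function.Bijective (fun v : V => β v • l) := by
    intro l
    obtain ⟨a, ha, rfl⟩ := H3 k l
    have : (fun v : V => β v • (a • k)) = fun v => a • v := by
      funext v
      rw [← mul_smul, H1 _ (hβR v) a ha, mul_smul, hβ]
    rw [this]
    exact MulAction.bijective a
  have hF1 : ∀ a ∈ R, ∀ l : V, Φ l + E a = (Fintype.card V) • c a l + Φ (a • l) := by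
    intro a ha l
    have h1 : ∀ v : V, c (β v) l + c a (β v • l) = c a l + c (β v) (a • l) := by
      intro v
      have h := H2 a ha (β v) (hβR v) l
      rw [c_mul, c_mul] at h
      exact h
    have h2 := Finset.sum_congr (s₁ := Finset.univ) rfl (fun v (_ : v ∈ Finset.univ) => h1 v)
    rw [Finset.sum_add_distrib, Finset.sum_add_distrib] at h2
    have h3 : ∑ v : V, c a (β v • l) = E a :=
      Fintype.sum_equiv (Equiv.ofBijective _ (hbij l)) _ _ (fun v => rfl)
    rw [h3] at h2
    simp only [Finset.sum_const, Finset.card_univ] at h2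
    exact h2
  obtain ⟨r, hr, rfl⟩ := H3 k k1
  have hconj : w * r * w⁻¹ ∈ R := hR.conj_mem r hr w
  have h1 := hF1 r hr k
  have h2 := hF1 _ hconj k
  have hEc : E (w * r * w⁻¹) = E r := by
    rw [hE, hE, hEinv]; abel
  have hpt : (w * r * w⁻¹) • k = r • k := by
    have : w⁻¹ • k = k := by rw [inv_smul_eq_iff, hk]
    rw [mul_smul, mul_smul, this, hk1]
  have hcf : c (w * r * w⁻¹) k = - c w k + c r k + c w (r • k) := by
    have h3 := conj_flow w r k
    rw [hk] at h3
    exact h3
  rw [hEc, hpt, hcf, h1] at h2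
  have h4 : Fintype.card V • c r k = Fintype.card V • (- c w k + c r k + c w (r • k)) :=
    add_right_cancel h2
  have hn : Fintype.card V ≠ 0 := by
    haveI : Nonempty V := ⟨k⟩
    exact Fintype.card_ne_zero
  ext e
  have h5 := DFunLike.congr_fun h4 e
  simp only [Finsupp.smul_apply, Finsupp.add_apply, Finsupp.neg_apply, nsmul_eq_mul] at h5
  have hn' : ((Fintype.card V : ℕ) : ℤ) ≠ 0 := by exact_mod_cast hn
  have h6 := mul_left_cancel₀ hn' h5
  linarith

theorem c_pow (y : Y) (m : ℕ) (l : V) :
    c ((of y) ^ m) l = ∑ j ∈ Finset.range m, Finsupp.single ((of y) ^ j • l, y) (1 : ℤ) := by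
  induction m with
  | zero => simp
  | succ m ih =>
    rw [pow_succ', c_mul, ih, Finset.sum_range_succ, c_of]

theorem finite_case [Finite V] [Nontrivial V] (R : Subgroup (FreeGroup Y)) [hR : R.Normal]
    (H1 : ∀ a ∈ R, ∀ b ∈ R, ∀ k : V, (a * b) • k = (b * a) • k)
    (H2 : ∀ a ∈ R, ∀ b ∈ R, ∀ k : V, c (a * b) k = c (b * a) k)
    (H3 : ∀ k l : V, ∃ a ∈ R, a • k = l) {x y : Y} (hxy : x ≠ y) : False := by
  classical
  -- each generator acts transitively
  have htrans : ∀ (y : Y) (k l : V), ∃ j : ℕ, (of y) ^ j • l = k := by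
    intro y k l
    obtain ⟨N, hN, hNe⟩ : ∃ N : ℕ, 0 < N ∧ (MulAction.toPermHom (FreeGroup Y) V (of y)) ^ N = 1 :=
      (isOfFinOrder_of_finite _).exists_pow_eq_one
    have hfix : ∀ v : V, (of y) ^ N • v = v := by
      intro v
      have h := congrArg (fun f : Equiv.Perm V => f v) hNe
      rw [← _root_.map_pow] at h
      simpa using h
    have h1 : c ((of y) ^ N) k = c ((of y) ^ N) l :=
      closed_const_finite R H1 H2 H3 _ (hfix k) (hfix l)
    have h2 : 1 ≤ (c ((of y) ^ N) k) (k, y) := by
      rw [c_pow, Finsupp.finset_sum_apply]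
      have h0 : (1 : ℤ) = (Finsupp.single ((of y) ^ 0 • k, y) (1 : ℤ)) (k, y) := by simp
      calc (1 : ℤ) = (Finsupp.single ((of y) ^ 0 • k, y) (1 : ℤ)) (k, y) := h0
        _ ≤ _ := Finset.single_le_sum
            (f := fun j => (Finsupp.single ((of y) ^ j • k, y) (1 : ℤ)) (k, y))
            (fun j _ => by
              rw [Finsupp.single_apply]
              split_ifs <;> norm_num) (Finset.mem_range.mpr hN)
    rw [h1, c_pow, Finsupp.finset_sum_apply] at h2
    by_contra hcon
    push Not at hcon
    have h3 : ∑ j ∈ Finset.range N, (Finsupp.single ((of y) ^ j • l, y) (1 : ℤ)) (k, y) = 0 := by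
      apply Finset.sum_eq_zero
      intro j _
      rw [Finsupp.single_apply, if_neg]
      intro heq
      exact hcon j (congrArg Prod.fst heq)
    rw [h3] at h2
    norm_num at h2
  obtain ⟨o⟩ : Nonempty V := inferInstance
  have hj : ∀ k : V, ∃ j : ℕ, (of y) ^ j • k = of x • k := fun k => htrans y _ k
  choose j hj using hj
  -- equality at one point gives equality everywhere
  have heq : ∀ (i i' : ℕ), (of y) ^ i • o = (of y) ^ i' • o → ∀ v : V,
      (of y) ^ i • v = (of y) ^ i' • v := by
    intro i i' h v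
    obtain ⟨m, rfl⟩ := htrans y v o
    rw [← mul_smul, ← mul_smul, ← pow_add, ← pow_add, add_comm i, add_comm i', pow_add, pow_add,
      mul_smul, mul_smul, h]
  have hinj : Function.Injective (fun k : V => (of y) ^ (j k) • o) := by
    intro k k' hkk
    have h1 := heq _ _ hkk
    have hw : (((of y) ^ (j k))⁻¹ * of x) • k = k := by
      rw [mul_smul, ← hj k]; simp
    have hw' : (((of y) ^ (j k))⁻¹ * of x) • k' = k' := by
      rw [mul_smul, ← hj k', ← h1 k']; simp
    have h2 := closed_const_finite R H1 H2 H3 _ hw hw'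
    have hval : ∀ v : V, (c (((of y) ^ (j k))⁻¹ * of x) v) (k, x) =
        (Finsupp.single (v, x) (1 : ℤ)) (k, x) := by
      intro v
      rw [c_mul, c_of, Finsupp.add_apply, c_inv, c_pow, Finsupp.neg_apply,
        Finsupp.finset_sum_apply]
      rw [Finset.sum_eq_zero]
      · simp
      · intro i _
        rw [Finsupp.single_apply, if_neg]
        intro h
        exact hxy (congrArg Prod.snd h).symm
    have h3 := DFunLike.congr_fun h2 (k, x)
    rw [hval, hval, Finsupp.single_eq_same] at h3
    by_contra hne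
    rw [Finsupp.single_apply, if_neg] at h3
    · norm_num at h3
    · intro h
      exact hne (congrArg Prod.fst h).symm
  obtain ⟨k, hk⟩ := (Finite.injective_iff_surjective.mp hinj) o
  have hk1 : of x • k = k := by
    rw [← hj k]
    have := heq (j k) 0 (by simpa using hk) k
    simpa using this
  obtain ⟨l, hl⟩ := exists_ne k
  obtain ⟨m, hm⟩ := htrans x l k
  have hm' : (of x) ^ m • k = k := by
    clear hm
    induction m with
    | zero => simp
    | succ m ih => rw [pow_succ, mul_smul, hk1, ih]
  exact hl (hm.symm.trans hm')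

end finite

end Pool.Agent.X173.AL
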