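import Mathlib
import Pool.Agent.X173.ALB
set_option autoImplicit false

/-!
Assembly.
-/

namespace Pool.Agent.X173.AL

open FreeGroup
open scoped commutatorElement

universe u v

theorem comm_of_subsingleton {Y : Type u} (h : ∀ x y : Y, x = y) (a b : FreeGroup Y) :
    a * b = b * a := by
  have h1 : ∀ (a : FreeGroup Y) (y : Y), a * of y = of y * a := by
    intro a y
    induction a using FreeGroup.induction_on with
    | C1 => simp
    | of z => rw [h z y]
    | inv_of z _ => rw [h z y]; simp
    | mul u w hu hw => rw [mul_assoc, hw, ← mul_assoc, hu, mul_assoc]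
  induction b using FreeGroup.induction_on with
  | C1 => simp
  | of z => exact h1 a z
  | inv_of z _ =>
    have := h1 a z
    rw [mul_inv_eq_iff_eq_mul, mul_assoc, this]; simp
  | mul u w hu hw => rw [← mul_assoc, hu, mul_assoc, hw, mul_assoc]

theorem cyclic_of_subsingleton {Y : Type u} (h : ∀ x y : Y, x = y) : IsCyclic (FreeGroup Y) := by
  by_cases hY : Nonempty Y
  · obtain ⟨y⟩ := hY
    refine ⟨⟨of y, ?_⟩⟩
    intro a
    show a ∈ Subgroup.zpowers (of y)
    induction a using FreeGroup.induction_on with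
    | C1 => exact Subgroup.one_mem _
    | of z => rw [h z y]; exact Subgroup.mem_zpowers _
    | inv_of z _ => rw [h z y]; exact Subgroup.inv_mem _ (Subgroup.mem_zpowers _)
    | mul u w hu hw => exact Subgroup.mul_mem _ hu hw
  · refine ⟨⟨1, ?_⟩⟩
    intro a
    show a ∈ Subgroup.zpowers (1 : FreeGroup Y)
    induction a using FreeGroup.induction_on with
    | C1 => exact Subgroup.one_mem _
    | of z => exact absurd ⟨z⟩ hY
    | inv_of z _ => exact absurd ⟨z⟩ hY
    | mul u w hu hw => exact Subgroup.mul_mem _ hu hw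

/-- The core statement, when `F = R S` and `R` is not abelian. -/
theorem core {Y : Type u} (R S : Subgroup (FreeGroup Y)) [hR : R.Normal]
    (hRS : ∀ g : FreeGroup Y, ∃ r ∈ R, ∃ s ∈ S, g = r * s)
    (hcomm : ⁅R, R⁆ ≤ ⁅S, S⁆) (hna : ∃ a ∈ R, ∃ b ∈ R, a * b ≠ b * a) : R ≤ S := by
  by_contra hRS'
  let V := FreeGroup Y ⧸ S
  let o : V := ((1 : FreeGroup Y) : FreeGroup Y ⧸ S)
  have ho : ∀ g : FreeGroup Y, g • o = ((g : FreeGroup Y) : FreeGroup Y ⧸ S) := by
    intro g
    show (((g • (1 : FreeGroup Y)) : FreeGroup Y) : FreeGroup Y ⧸ S) = _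
    simp
  have hoS : ∀ g : FreeGroup Y, g ∈ S → g • o = o := by
    intro g hg
    rw [ho]
    exact QuotientGroup.eq.mpr (by simpa using hg)
  let N : Subgroup (FreeGroup Y) :=
    { carrier := {h | h • o = o ∧ c h o = 0}
      mul_mem' := by
        rintro a b ⟨ha, ha'⟩ ⟨hb, hb'⟩
        refine ⟨by rw [mul_smul, hb, ha], by rw [c_mul, hb', hb, ha', add_zero]⟩
      one_mem' := ⟨one_smul _ _, c_one _⟩
      inv_mem' := by
        rintro a ⟨ha, ha'⟩
        have h1 : a⁻¹ • o = o := by rw [inv_smul_eq_iff, ha]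
        refine ⟨h1, by rw [c_inv, h1, ha', neg_zero]⟩ }
  have hN : ⁅S, S⁆ ≤ N := by
    rw [Subgroup.commutator_le]
    intro a ha b hb
    have ha0 := hoS a ha
    have hb0 := hoS b hb
    have ha1 : a⁻¹ • o = o := hoS _ (S.inv_mem ha)
    have hb1 : b⁻¹ • o = o := hoS _ (S.inv_mem hb)
    refine ⟨?_, ?_⟩
    · rw [commutatorElement_def, mul_smul, mul_smul, mul_smul, hb1, ha1, hb0, ha0]
    · rw [commutatorElement_def, c_mul, c_mul, c_mul, hb1, ha1, hb0, c_inv, c_inv, hb1, ha1]
      abel
  have hk : ∀ k : V, ∃ g : FreeGroup Y, g • o = k := by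
    intro k
    obtain ⟨g, hg⟩ := QuotientGroup.mk_surjective k
    exact ⟨g, by rw [ho]; exact hg⟩
  -- commutators of R are closed with zero flow at every vertex
  have hcl : ∀ a ∈ R, ∀ b ∈ R, ∀ k : V, ⁅a, b⁆ • k = k ∧ c ⁅a, b⁆ k = 0 := by
    intro a ha b hb k
    obtain ⟨g, rfl⟩ := hk k
    have h1 : g⁻¹ * ⁅a, b⁆ * g ∈ ⁅R, R⁆ := by
      have h2 : g⁻¹ * ⁅a, b⁆ * g = ⁅g⁻¹ * a * g, g⁻¹ * b * g⁆ := by
        simp only [commutatorElement_def]; group
      rw [h2]
      apply Subgroup.commutator_mem_commutator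
      · simpa using hR.conj_mem a ha g⁻¹
      · simpa using hR.conj_mem b hb g⁻¹
    obtain ⟨h3, h4⟩ := hN (hcomm h1)
    have h5 : ⁅a, b⁆ • g • o = g • o := by
      rw [mul_smul, mul_smul] at h3
      exact inv_smul_eq_iff.mp h3
    refine ⟨h5, ?_⟩
    rw [c_mul, c_mul, c_inv, h5] at h4
    simp only [inv_smul_smul] at h4
    have h6 : c g o + (c ⁅a, b⁆ (g • o) + -c g o) = c ⁅a, b⁆ (g • o) := by abel
    rw [h6] at h4
    exact h4
  have hab : ∀ a b : FreeGroup Y, a * b = ⁅a, b⁆ * (b * a) := by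
    intro a b; simp only [commutatorElement_def]; group
  have H1 : ∀ a ∈ R, ∀ b ∈ R, ∀ k : V, (a * b) • k = (b * a) • k := by
    intro a ha b hb k
    rw [hab a b, mul_smul]
    exact (hcl a ha b hb _).1
  have H2 : ∀ a ∈ R, ∀ b ∈ R, ∀ k : V, c (a * b) k = c (b * a) k := by
    intro a ha b hb k
    rw [hab a b, c_mul, (hcl a ha b hb _).2, add_zero]
  have hor : ∀ k : V, ∃ r ∈ R, r • o = k := by
    intro k
    obtain ⟨g, rfl⟩ := hk k
    obtain ⟨r, hr, s, hs, rfl⟩ := hRS g
    exact ⟨r, hr, by rw [mul_smul, hoS s hs]⟩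
  have H3 : ∀ k l : V, ∃ a ∈ R, a • k = l := by
    intro k l
    obtain ⟨r, hr, rfl⟩ := hor k
    obtain ⟨r', hr', rfl⟩ := hor l
    exact ⟨r' * r⁻¹, R.mul_mem hr' (R.inv_mem hr), by rw [mul_smul, inv_smul_smul]⟩
  obtain ⟨a, ha, b, hb, hne⟩ := hna
  rcases finite_or_infinite V with hfin | hinf
  · have hnt : Nontrivial V := by
      obtain ⟨r, hr, hrS⟩ := Set.not_subset.mp hRS'
      refine ⟨⟨r • o, o, ?_⟩⟩
      intro h
      apply hrS
      rw [ho] at h
      have := QuotientGroup.eq.mp h.symm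
      simpa using this
    have hxy : ∃ x y : Y, x ≠ y := by
      by_contra hcon
      push Not at hcon
      exact hne (comm_of_subsingleton hcon a b)
    obtain ⟨x, y, hxy⟩ := hxy
    exact finite_case R H1 H2 H3 hxy
  · apply infinite_case R H1 H2 H3 (t := ⁅a, b⁆)
    · intro h
      exact hne (commutatorElement_eq_one_iff_mul_comm.mp h)
    · intro k
      exact (hcl a ha b hb k).1

theorem bool_aux {a b : Bool} (h : ¬ a = !b) : b = a := by
  cases a <;> cases b <;> simp_all

/-- A nontrivial normal subgroup of a free group with two generators is not abelian. -/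
theorem nonabelian {Y : Type u} {x y : Y} (hxy : x ≠ y) (R : Subgroup (FreeGroup Y))
    [hR : R.Normal] {r : FreeGroup Y} (hr : r ∈ R) (hr1 : r ≠ 1) :
    ∃ a ∈ R, ∃ b ∈ R, a * b ≠ b * a := by
  classical
  set w := r.toWord with hw
  have hw0 : w ≠ [] := by rw [hw]; simpa using hr1
  have hred : FreeGroup.IsReduced w := isReduced_toWord
  obtain ⟨p, w', hpw⟩ := List.exists_cons_of_ne_nil hw0
  obtain ⟨w'', q, hqw⟩ : ∃ w'' q, w = w'' ++ [q] :=
    ⟨w.dropLast, w.getLast hw0, (List.dropLast_append_getLast hw0).symm⟩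
  -- choose z with z ≠ p⁻¹ and z ≠ q
  obtain ⟨z, hz1, hz2⟩ : ∃ z : Y × Bool, z ≠ (p.1, !p.2) ∧ z ≠ q := by
    by_contra hcon
    push Not at hcon
    have h1 := hcon (x, true)
    have h2 := hcon (x, false)
    have h3 := hcon (y, true)
    have h4 := hcon (y, false)
    obtain ⟨p1, p2⟩ := p
    obtain ⟨q1, q2⟩ := q
    simp only [Prod.mk.injEq, ne_eq, not_and] at h1 h2 h3 h4
    cases p2 <;> cases q2 <;> simp at h1 h2 h3 h4 <;> grind
  let zi : Y × Bool := (z.1, !z.2)
  let w1 : List (Y × Bool) := z :: (w ++ [zi])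
  -- a letter with a different generator
  obtain ⟨u1, hu⟩ : ∃ u1 : Y, u1 ≠ z.1 := by
    by_cases h : x = z.1
    · exact ⟨y, by rw [← h]; exact hxy.symm⟩
    · exact ⟨x, h⟩
  let a := (mk [z] : FreeGroup Y) * r * (mk [z])⁻¹
  have ha : a ∈ R := hR.conj_mem r hr _
  have haw : a = mk w1 := by
    have : r = mk w := by rw [hw, mk_toWord]
    simp only [a, w1, zi]
    rw [this, inv_mk, mul_mk, mul_mk]
    simp [invRev]
  let b := (mk [(u1, true)] : FreeGroup Y) * a * (mk [(u1, true)])⁻¹
  have hb : b ∈ R := hR.conj_mem a ha _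
  have hbw : b = mk ((u1, true) :: (w1 ++ [(u1, false)])) := by
    simp only [b]
    rw [haw, inv_mk, mul_mk, mul_mk]
    simp [invRev]
  refine ⟨a, ha, b, hb, ?_⟩
  intro hcom
  have hab : a * b = mk (w1 ++ (u1, true) :: (w1 ++ [(u1, false)])) := by
    rw [haw, hbw, mul_mk]
  have hba : b * a = mk ((u1, true) :: (w1 ++ [(u1, false)]) ++ w1) := by
    rw [haw, hbw, mul_mk]
  -- reducedness
  have hw1 : FreeGroup.IsReduced w1 := by
    unfold FreeGroup.IsReduced at hred ⊢
    simp only [w1]
    rw [List.isChain_cons, List.isChain_append]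
    refine ⟨?_, hred, List.isChain_singleton _, ?_⟩
    · intro t ht heq
      rw [hpw] at ht
      simp only [List.cons_append, List.head?_cons, Option.mem_def, Option.some.injEq] at ht
      subst ht
      by_contra hne
      apply hz1
      ext
      · exact heq
      · obtain ⟨z1, z2⟩ := z
        obtain ⟨p1, p2⟩ := p
        cases z2 <;> cases p2 <;> simp_all
    · intro t ht t' ht' heq
      rw [hqw] at ht
      simp only [List.getLast?_append, List.getLast?_singleton, Option.some_or, Option.mem_def,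
        Option.getD_some, Option.some.injEq, List.head?_cons] at ht ht'
      subst ht
      subst ht'
      by_contra hne
      apply hz2
      ext
      · exact heq.symm
      · exact bool_aux hne
  have hhead : ∀ L : List (Y × Bool), ∀ t ∈ (w1 ++ L).head?, t.1 = z.1 := by
    intro L t ht
    simp only [w1, List.cons_append, List.head?_cons, Option.mem_def, Option.some.injEq] at ht
    rw [← ht]
  have hlast : ∀ t ∈ w1.getLast?, t.1 = z.1 := by
    intro t ht
    have h1 : w1 = (z :: w) ++ [zi] := rfl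
    rw [h1, List.getLast?_append] at ht
    simp only [List.getLast?_singleton, Option.some_or, Option.mem_def, Option.some.injEq] at ht
    rw [← ht]
  have hw1c : FreeGroup.IsReduced (w1 ++ [(u1, false)]) := by
    unfold FreeGroup.IsReduced
    rw [List.isChain_append]
    refine ⟨hw1, List.isChain_singleton _, ?_⟩
    intro t ht t' ht' heq
    simp only [List.head?_cons, Option.mem_def, Option.some.injEq] at ht'
    subst ht'
    exact absurd (heq.symm.trans (hlast t ht)) hu
  have hw1d : FreeGroup.IsReduced ((u1, true) :: (w1 ++ [(u1, false)])) := by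
    unfold FreeGroup.IsReduced
    rw [List.isChain_cons]
    refine ⟨?_, hw1c⟩
    intro t ht heq
    exact absurd (heq.trans (hhead _ t ht)) hu
  have hl : FreeGroup.IsReduced (w1 ++ (u1, true) :: (w1 ++ [(u1, false)])) := by
    unfold FreeGroup.IsReduced
    rw [List.isChain_append]
    refine ⟨hw1, hw1d, ?_⟩
    intro t ht t' ht' heq
    simp only [List.head?_cons, Option.mem_def, Option.some.injEq] at ht'
    subst ht'
    exact absurd (heq.symm.trans (hlast t ht)) hu
  have hr' : FreeGroup.IsReduced ((u1, true) :: (w1 ++ [(u1, false)]) ++ w1) := by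
    unfold FreeGroup.IsReduced
    rw [List.isChain_append]
    refine ⟨hw1d, hw1, ?_⟩
    intro t ht t' ht' heq
    have h1 : (u1, true) :: (w1 ++ [(u1, false)]) = ((u1, true) :: w1) ++ [(u1, false)] := rfl
    rw [h1, List.getLast?_append] at ht
    simp only [List.getLast?_singleton, Option.some_or, Option.mem_def, Option.some.injEq] at ht
    subst ht
    have h2 := hhead [] t' (by rw [List.append_nil]; exact ht')
    exact absurd (heq.trans h2) hu
  rw [hab, hba] at hcom
  have h1 := reduce.sound hcom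
  rw [hl.reduce_eq, hr'.reduce_eq] at h1
  simp only [w1, List.cons_append, List.cons.injEq] at h1
  apply hu
  rw [h1.1]

end Pool.Agent.X173.AL
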