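import Mathlib

/-!
One-dimensional input: Kronecker sequences of badly approximable numbers, with an arbitrary shift.
-/

set_option autoImplicit false

namespace Pool.Agent.X173.HYA

open Finset

lemma ind_eq (x γ : ℝ) (h0 : 0 ≤ γ) (h1 : γ ≤ 1) :
    (if Int.fract x < γ then (1:ℤ) else 0) = ⌊x⌋ - ⌊x - γ⌋ := by
  have hf0 := Int.fract_nonneg x
  have hf1 := Int.fract_lt_one x
  have hx := Int.floor_add_fract x
  split_ifs with h
  · have : ⌊x - γ⌋ = ⌊x⌋ - 1 := by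
      rw [Int.floor_eq_iff]
      push_cast
      constructor <;> linarith
    omega
  · push Not at h
    have : ⌊x - γ⌋ = ⌊x⌋ := by
      rw [Int.floor_eq_iff]
      constructor <;> linarith
    omega

/-- Hermite's identity -/
lemma hermite (q : ℕ) (hq : 0 < q) (y : ℝ) :
    ∑ j ∈ range q, ⌊y + j / q⌋ = ⌊q * y⌋ := by
  have hq' : (0:ℝ) < q := by exact_mod_cast hq
  -- periodicity
  have step : ∀ z : ℝ, ∑ j ∈ range q, ⌊z + 1 / q + j / q⌋ = ∑ j ∈ range q, ⌊z + j / q⌋ + 1 := by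
    intro z
    have e1 : ∑ j ∈ range q, ⌊z + 1 / q + j / q⌋ = ∑ j ∈ range q, ⌊z + ((j + 1 : ℕ) : ℝ) / q⌋ := by
      refine sum_congr rfl fun j _ => ?_
      congr 1
      push_cast
      ring
    have e2 := Finset.sum_range_succ' (fun j : ℕ => ⌊z + (j : ℝ) / q⌋) q
    have e3 := Finset.sum_range_succ (fun j : ℕ => ⌊z + (j : ℝ) / q⌋) q
    have e4 : ⌊z + (q : ℝ) / q⌋ = ⌊z + ((0:ℕ):ℝ) / q⌋ + 1 := by
      rw [div_self hq'.ne']
      simp
    rw [e1]
    rw [e3, e4] at e2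
    linarith
  have stepN : ∀ (n : ℕ) (z : ℝ), ∑ j ∈ range q, ⌊z + n / q + j / q⌋ =
      ∑ j ∈ range q, ⌊z + j / q⌋ + n := by
    intro n
    induction n with
    | zero => intro z; simp
    | succ n ih =>
      intro z
      have := step (z + n / q)
      rw [ih] at this
      have e : ∑ j ∈ range q, ⌊z + ((n + 1 : ℕ) : ℝ) / q + j / q⌋ =
          ∑ j ∈ range q, ⌊z + n / q + 1 / q + j / q⌋ := by
        refine sum_congr rfl fun j _ => ?_
        congr 1
        push_cast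
        ring
      rw [e, this]
      push_cast
      ring
  -- base
  have base : ∀ z : ℝ, 0 ≤ z → z < 1 / q → ∑ j ∈ range q, ⌊z + j / q⌋ = 0 := by
    intro z hz0 hz1
    refine sum_eq_zero fun j hj => ?_
    rw [mem_range] at hj
    rw [Int.floor_eq_zero_iff]
    refine ⟨by positivity, ?_⟩
    have h1 : ((j : ℝ) + 1) / q ≤ 1 := by
      rw [div_le_one hq']
      exact_mod_cast hj
    have h2 : ((j : ℝ) + 1) / q = j / q + 1 / q := by ring
    linarith
  set n : ℤ := ⌊q * y⌋ with hn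
  have hn1 : (n : ℝ) ≤ q * y := Int.floor_le _
  have hn2 : q * y < n + 1 := Int.lt_floor_add_one _
  have hz0 : 0 ≤ y - n / q := by
    rw [sub_nonneg, div_le_iff₀ hq']
    linarith [mul_comm y (q:ℝ)]
  have hz1 : y - n / q < 1 / q := by
    have : y < (n + 1) / q := by
      rw [lt_div_iff₀ hq']
      linarith [mul_comm y (q:ℝ)]
    have e : ((n:ℝ) + 1) / q = n / q + 1 / q := by ring
    linarith
  have hb := base _ hz0 hz1
  rcases Int.eq_nat_or_neg n with ⟨k, hk | hk⟩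
  · have h3 := stepN k (y - n / q)
    rw [hb] at h3
    have e : ∑ j ∈ range q, ⌊y - n / q + k / q + j / q⌋ = ∑ j ∈ range q, ⌊y + j / q⌋ := by
      refine sum_congr rfl fun j _ => ?_
      congr 1
      rw [hk]
      push_cast
      ring
    rw [← e, h3]
    omega
  · have h3 := stepN k y
    have e : ∑ j ∈ range q, ⌊y + k / q + j / q⌋ = ∑ j ∈ range q, ⌊y - n / q + j / q⌋ := by
      refine sum_congr rfl fun j _ => ?_
      congr 1
      rw [hk]
      push_cast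
      ring
    rw [e, hb] at h3
    omega

/-- multiplication by a unit permutes the residues -/
lemma sum_perm (q : ℕ) (hq : 0 < q) (a : ℤ) (ha : IsCoprime a (q:ℤ)) (g : ℤ → ℤ) :
    ∑ m ∈ range q, g ((m * a) % q) = ∑ j ∈ range q, g j := by
  have hq' : (0:ℤ) < q := by exact_mod_cast hq
  have hmem : ∀ m ∈ range q, (((m:ℤ) * a) % q).toNat ∈ range q := by
    intro m _
    rw [mem_range]
    have h1 := Int.emod_nonneg ((m:ℤ) * a) hq'.ne'
    have h2 := Int.emod_lt_of_pos ((m:ℤ) * a) hq'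
    omega
  have hinj : Set.InjOn (fun m : ℕ => (((m:ℤ) * a) % q).toNat) (range q : Set ℕ) := by
    intro m hm n hn h
    simp only [coe_range, Set.mem_Iio] at hm hn
    have h1 := Int.emod_nonneg ((m:ℤ) * a) hq'.ne'
    have h2 := Int.emod_nonneg ((n:ℤ) * a) hq'.ne'
    have h3 : ((m:ℤ) * a) % q = ((n:ℤ) * a) % q := by
      simp only at h
      omega
    have h4 : (q:ℤ) ∣ (m:ℤ) * a - n * a :=
      Int.ModEq.dvd (show (n:ℤ) * a ≡ m * a [ZMOD q] from h3.symm)
    have h5 : (q:ℤ) ∣ ((m:ℤ) - n) * a := by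
      have : ((m:ℤ) - n) * a = m * a - n * a := by ring
      rw [this]; exact h4
    have h6 : (q:ℤ) ∣ (m:ℤ) - n := ha.symm.dvd_of_dvd_mul_right h5
    obtain ⟨t, ht⟩ := h6
    have h7 : t = 0 := by
      by_contra hne
      rcases lt_or_gt_of_ne hne with h | h
      · have : t ≤ -1 := by omega
        nlinarith
      · have : 1 ≤ t := by omega
        nlinarith
    rw [h7] at ht
    omega
  have hsurj : image (fun m : ℕ => (((m:ℤ) * a) % q).toNat) (range q) = range q := by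
    apply Finset.eq_of_subset_of_card_le
    · intro x hx
      rw [mem_image] at hx
      obtain ⟨m, hm, rfl⟩ := hx
      exact hmem m hm
    · rw [Finset.card_image_of_injOn hinj]
  conv_rhs => rw [← hsurj]
  rw [Finset.sum_image hinj]
  refine sum_congr rfl fun m _ => ?_
  congr 1
  have h1 := Int.emod_nonneg ((m:ℤ) * a) hq'.ne'
  rw [Int.toNat_of_nonneg h1]

/-- one block -/
lemma floor_block (q : ℕ) (hq : 0 < q) (a : ℤ) (ha : IsCoprime a (q:ℤ)) (β : ℝ)
    (hβ : |β - a / q| ≤ 1 / (q * q)) :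
    ∃ T : ℤ, ∀ s : ℝ, (T + (q * s) - 2 : ℝ) < ∑ m ∈ range q, (⌊s + m * β⌋ : ℝ) ∧
      (∑ m ∈ range q, (⌊s + m * β⌋ : ℝ)) ≤ T + q * s + 1 := by
  have hq' : (0:ℝ) < q := by exact_mod_cast hq
  have hqz : (q:ℤ) ≠ 0 := by exact_mod_cast hq.ne'
  refine ⟨∑ m ∈ range q, ((m:ℤ) * a) / q, fun s => ?_⟩
  have key : ∀ δ : ℝ, ∑ m ∈ range q, ⌊s + m * (a / q) + δ⌋ =
      ∑ m ∈ range q, ((m:ℤ) * a) / q + ⌊q * (s + δ)⌋ := by
    intro δ
    have e1 : ∀ m ∈ range q, ⌊s + m * ((a:ℝ) / q) + δ⌋ =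
        ((m:ℤ) * a) / q + ⌊(s + δ) + (((m:ℤ) * a) % q : ℤ) / q⌋ := by
      intro m _
      have h1 : ((m:ℤ) * a : ℤ) = q * (((m:ℤ) * a) / q) + ((m:ℤ) * a) % q :=
        (Int.mul_ediv_add_emod _ _).symm
      have h2 : (m:ℝ) * a = q * ((((m:ℤ) * a) / q : ℤ) : ℝ) + ((((m:ℤ) * a) % q : ℤ) : ℝ) := by
        exact_mod_cast h1
      have h3 : s + m * ((a:ℝ) / q) + δ =
          ((s + δ) + ((((m:ℤ) * a) % q : ℤ) : ℝ) / q) + ((((m:ℤ) * a) / q : ℤ) : ℝ) := by
        have : (m:ℝ) * ((a:ℝ) / q) = (m * a) / q := by ring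
        rw [this, h2]
        field_simp
        ring
      rw [h3, Int.floor_add_intCast]
      ring
    rw [sum_congr rfl e1, sum_add_distrib]
    congr 1
    rw [sum_perm q hq a ha (fun z => ⌊(s + δ) + (z : ℝ) / q⌋)]
    rw [← hermite q hq (s + δ)]
    refine sum_congr rfl fun j _ => ?_
    simp
  have hm : ∀ m ∈ range q, |(m:ℝ) * (β - a / q)| ≤ 1 / q := by
    intro m hm
    rw [mem_range] at hm
    rw [abs_mul, abs_of_nonneg (by positivity : (0:ℝ) ≤ m)]
    have hmq : (m:ℝ) ≤ q := by exact_mod_cast hm.le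
    calc (m:ℝ) * |β - a / q| ≤ q * (1 / (q * q)) := by gcongr
      _ = 1 / q := by field_simp
  have up : ∑ m ∈ range q, ⌊s + m * β⌋ ≤ ∑ m ∈ range q, ⌊s + m * ((a:ℝ) / q) + 1 / q⌋ := by
    refine sum_le_sum fun m hmr => ?_
    apply Int.floor_le_floor
    have := (abs_le.1 (hm m hmr)).2
    have e : (m:ℝ) * (β - a / q) = m * β - m * (a / q) := by ring
    linarith
  have dn : ∑ m ∈ range q, ⌊s + m * ((a:ℝ) / q) + (-(1 / q))⌋ ≤ ∑ m ∈ range q, ⌊s + m * β⌋ := by
    refine sum_le_sum fun m hmr => ?_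
    apply Int.floor_le_floor
    have := (abs_le.1 (hm m hmr)).1
    have e : (m:ℝ) * (β - a / q) = m * β - m * (a / q) := by ring
    linarith
  rw [key] at up dn
  have e1 : (q:ℝ) * (s + 1 / q) = q * s + 1 := by field_simp
  have e2 : (q:ℝ) * (s + -(1 / q)) = q * s - 1 := by field_simp; ring
  rw [e1] at up
  rw [e2] at dn
  have h1 : ((⌊(q:ℝ) * s + 1⌋ : ℤ) : ℝ) ≤ q * s + 1 := Int.floor_le _
  have h2 : (q:ℝ) * s - 1 - 1 < ((⌊(q:ℝ) * s - 1⌋ : ℤ) : ℝ) := Int.sub_one_lt_floor _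
  have up' : (((∑ m ∈ range q, ⌊s + m * β⌋ : ℤ)) : ℝ) ≤
      ((∑ m ∈ range q, ((m:ℤ) * a) / q + ⌊(q:ℝ) * s + 1⌋ : ℤ) : ℝ) := by exact_mod_cast up
  have dn' : ((∑ m ∈ range q, ((m:ℤ) * a) / q + ⌊(q:ℝ) * s - 1⌋ : ℤ) : ℝ) ≤
      (((∑ m ∈ range q, ⌊s + m * β⌋ : ℤ)) : ℝ) := by exact_mod_cast dn
  rw [Int.cast_add] at up' dn'
  rw [Int.cast_sum (f := fun m : ℕ => ⌊s + m * β⌋)] at up' dn'
  constructor <;> linarith

/-- number of `m < M` with `{s + m β} < γ` -/
noncomputable def cnt (β s γ : ℝ) (M : ℕ) : ℝ :=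
  ∑ m ∈ range M, ((if Int.fract (s + m * β) < γ then (1:ℤ) else 0 : ℤ) : ℝ)

lemma cnt_block (q : ℕ) (hq : 0 < q) (a : ℤ) (ha : IsCoprime a (q:ℤ)) (β : ℝ)
    (hβ : |β - a / q| ≤ 1 / (q * q)) (s γ : ℝ) (h0 : 0 ≤ γ) (h1 : γ ≤ 1) :
    |cnt β s γ q - q * γ| ≤ 3 := by
  obtain ⟨T, hT⟩ := floor_block q hq a ha β hβ
  have e : cnt β s γ q = (∑ m ∈ range q, (⌊s + m * β⌋ : ℝ)) -
      ∑ m ∈ range q, (⌊(s - γ) + m * β⌋ : ℝ) := by
    unfold cnt
    rw [← sum_sub_distrib]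
    refine sum_congr rfl fun m _ => ?_
    rw [ind_eq _ γ h0 h1]
    push_cast
    congr 3
    ring
  rw [e]
  obtain ⟨h2, h3⟩ := hT s
  obtain ⟨h4, h5⟩ := hT (s - γ)
  have e2 : (q:ℝ) * (s - γ) = q * s - q * γ := by ring
  rw [e2] at h4 h5
  rw [abs_le]
  constructor <;> linarith

lemma cnt_add (β s γ : ℝ) (M L : ℕ) :
    cnt β s γ (M + L) = cnt β s γ M + cnt β (s + M * β) γ L := by
  unfold cnt
  rw [sum_range_add]
  congr 1
  refine sum_congr rfl fun m _ => ?_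
  have : s + ((M + m : ℕ) : ℝ) * β = s + M * β + m * β := by push_cast; ring
  rw [this]

/-- `‖x‖` -/
noncomputable def nrm (x : ℝ) : ℝ := |x - round x|

lemma nrm_le (x : ℝ) (n : ℤ) : nrm x ≤ |x - n| := round_le x n

lemma exists_block (β c : ℝ) (hc : 0 < c) (hbad : ∀ q : ℕ, 0 < q → c ≤ q * nrm (q * β))
    (M : ℕ) (hM : 0 < M) :
    ∃ (q : ℕ) (a : ℤ), 0 < q ∧ q ≤ M ∧ IsCoprime a (q:ℤ) ∧ |β - a / q| ≤ 1 / (q * q) ∧
      c * M ≤ q := by
  obtain ⟨r, hr1, hr2⟩ := Real.exists_rat_abs_sub_le_and_den_le β hM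
  have hd : 0 < r.den := r.den_pos
  have hd' : (0:ℝ) < r.den := by exact_mod_cast hd
  have hM' : (0:ℝ) < M := by exact_mod_cast hM
  have hcast : (r : ℝ) = (r.num : ℝ) / (r.den : ℝ) := by
    exact_mod_cast (Rat.num_div_den r).symm
  refine ⟨r.den, r.num, hd, hr2, ?_, ?_, ?_⟩
  · rw [Int.isCoprime_iff_gcd_eq_one]
    exact r.reduced
  · rw [← hcast]
    refine hr1.trans ?_
    apply one_div_le_one_div_of_le (by positivity)
    have : (r.den : ℝ) ≤ M := by exact_mod_cast hr2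
    nlinarith
  · have h1 := hbad r.den hd
    have h2 : nrm (r.den * β) ≤ 1 / (M + 1) := by
      refine (nrm_le _ r.num).trans ?_
      have e : (r.den : ℝ) * β - r.num = r.den * (β - r) := by
        rw [hcast]; field_simp
      rw [e, abs_mul, abs_of_pos hd']
      calc (r.den : ℝ) * |β - r| ≤ r.den * (1 / ((M + 1) * r.den)) := by gcongr
        _ = 1 / (M + 1) := by field_simp
    have h3 : c ≤ r.den * (1 / (M + 1)) := h1.trans (by gcongr)
    have h4 : r.den * (1 / ((M:ℝ) + 1)) = r.den / (M + 1) := by ring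
    rw [h4, le_div_iff₀ (by positivity)] at h3
    nlinarith

/-- the one-dimensional discrepancy bound, uniform in the shift -/
theorem cnt_bound (β c : ℝ) (hc : 0 < c) (hc1 : c < 1)
    (hbad : ∀ q : ℕ, 0 < q → c ≤ q * nrm (q * β)) (γ : ℝ) (h0 : 0 ≤ γ) (h1 : γ ≤ 1) :
    ∀ (M : ℕ), 0 < M → ∀ s : ℝ,
      |cnt β s γ M - M * γ| ≤ 3 + 3 / (-Real.log (1 - c)) * Real.log M := by
  have hl : Real.log (1 - c) < 0 := Real.log_neg (by linarith) (by linarith)
  have hA : 0 < 3 / (-Real.log (1 - c)) := by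
    apply div_pos (by norm_num) (by linarith)
  set A := 3 / (-Real.log (1 - c)) with hAdef
  have hAl : A * Real.log (1 - c) = -3 := by
    rw [hAdef, div_mul_eq_mul_div, div_eq_iff (neg_ne_zero.2 hl.ne)]
    ring
  intro M
  induction M using Nat.strong_induction_on with
  | _ M ih =>
    intro hM s
    obtain ⟨q, a, hq, hqM, hco, hap, hcq⟩ := exists_block β c hc hbad M hM
    have hb := cnt_block q hq a hco β hap s γ h0 h1
    obtain ⟨L, rfl⟩ := Nat.exists_eq_add_of_le hqM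
    rw [cnt_add]
    have hlogM : 0 ≤ Real.log ((q + L : ℕ) : ℝ) := Real.log_natCast_nonneg _
    rcases Nat.eq_zero_or_pos L with rfl | hL
    · have : cnt β (s + q * β) γ 0 = 0 := by simp [cnt]
      rw [this]
      have h2 : 0 ≤ A * Real.log ((q + 0 : ℕ) : ℝ) := by positivity
      have e : cnt β s γ q + 0 - ((q + 0 : ℕ) : ℝ) * γ = cnt β s γ q - q * γ := by
        push_cast; ring
      rw [e]
      linarith
    · have h2 := ih L (by omega) hL (s + q * β)
      have hL' : (0:ℝ) < L := by exact_mod_cast hL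
      have h3 : (L:ℝ) ≤ (1 - c) * ((q + L : ℕ) : ℝ) := by
        push_cast at hcq ⊢
        linarith
      have h4 : Real.log L ≤ Real.log (1 - c) + Real.log ((q + L : ℕ) : ℝ) := by
        rw [← Real.log_mul (by linarith) (by positivity)]
        exact Real.log_le_log hL' h3
      have h5 : A * Real.log L ≤ -3 + A * Real.log ((q + L : ℕ) : ℝ) := by
        rw [← hAl, ← mul_add]
        exact mul_le_mul_of_nonneg_left h4 hA.le
      have e : cnt β s γ q + cnt β (s + q * β) γ L - ((q + L : ℕ) : ℝ) * γ =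
          (cnt β s γ q - q * γ) + (cnt β (s + q * β) γ L - L * γ) := by
        push_cast; ring
      rw [e]
      refine (abs_add_le _ _).trans ?_
      linarith

end Pool.Agent.X173.HYA
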