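import Mathlib
import Pool.Agent.X173.HYA

/-!
The hybrid of a Kronecker sequence with the van der Corput sequence in base `p`, when all
`p ^ k * β` are uniformly badly approximable.
-/

set_option autoImplicit false

namespace Pool.Agent.X173.HYB

open Finset Pool.Agent.X173.HYA

/-- radical inverse in base `p` -/
noncomputable def vdc (p n : ℕ) : ℝ := ∑' i : ℕ, ((n / p ^ i % p : ℕ) : ℝ) / (p : ℝ) ^ (i + 1)

lemma vdc_summable (p n : ℕ) (hp : 2 ≤ p) :
    Summable fun i : ℕ => ((n / p ^ i % p : ℕ) : ℝ) / (p : ℝ) ^ (i + 1) := by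
  refine summable_of_ne_finset_zero (s := range n) fun i hi => ?_
  rw [mem_range, not_lt] at hi
  have h1 : n < p ^ i := lt_of_le_of_lt hi (Nat.lt_pow_self (by omega))
  rw [Nat.div_eq_of_lt h1]
  simp

lemma vdc_rec (p : ℕ) (hp : 2 ≤ p) (d m : ℕ) (hd : d < p) :
    vdc p (d + p * m) = (d + vdc p m) / p := by
  have hp0 : 0 < p := by omega
  have hp' : (0:ℝ) < p := by exact_mod_cast hp0
  unfold vdc
  rw [(vdc_summable p (d + p * m) hp).tsum_eq_zero_add]
  have e0 : (d + p * m) / p ^ 0 % p = d := by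
    rw [pow_zero, Nat.div_one, Nat.add_mul_mod_self_left, Nat.mod_eq_of_lt hd]
  rw [e0]
  have e1 : ∀ i : ℕ, (((d + p * m) / p ^ (i + 1) % p : ℕ) : ℝ) / (p : ℝ) ^ (i + 1 + 1) =
      ((m / p ^ i % p : ℕ) : ℝ) / (p : ℝ) ^ (i + 1) / p := by
    intro i
    have : (d + p * m) / p ^ (i + 1) = m / p ^ i := by
      rw [pow_succ', ← Nat.div_div_eq_div_mul, Nat.add_mul_div_left _ _ hp0,
        Nat.div_eq_of_lt hd, zero_add]
    rw [this, pow_succ (p:ℝ) (i + 1), div_div]
  simp_rw [e1]
  rw [tsum_div_const]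
  field_simp
  ring

lemma vdc_zero (p : ℕ) : vdc p 0 = 0 := by
  unfold vdc
  simp

lemma vdc_mem (p : ℕ) (hp : 2 ≤ p) (n : ℕ) : 0 ≤ vdc p n ∧ vdc p n < 1 := by
  induction n using Nat.strong_induction_on with
  | _ n ih =>
    rcases Nat.eq_zero_or_pos n with rfl | hn
    · rw [vdc_zero]; norm_num
    · have hp0 : 0 < p := by omega
      have hp' : (0:ℝ) < p := by exact_mod_cast hp0
      have e : n = n % p + p * (n / p) := (Nat.mod_add_div n p).symm
      have hlt : n % p < p := Nat.mod_lt _ hp0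
      have h1 := ih (n / p) (Nat.div_lt_self hn (by omega))
      rw [e, vdc_rec p hp _ _ hlt]
      refine ⟨div_nonneg (add_nonneg (by positivity) h1.1) hp'.le, ?_⟩
      rw [div_lt_one hp']
      have : ((n % p : ℕ) : ℝ) + 1 ≤ p := by exact_mod_cast hlt
      linarith [h1.2]

/-- splitting into residue classes -/
lemma sum_split (p : ℕ) (hp : 0 < p) (L : ℕ) (f : ℕ → ℝ) :
    ∑ m ∈ range L, f m = ∑ d ∈ range p, ∑ m ∈ range ((L + p - 1 - d) / p), f (d + p * m) := by
  rw [Finset.sum_sigma']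
  refine Finset.sum_nbij' (fun m => (⟨m % p, m / p⟩ : Σ _ : ℕ, ℕ)) (fun x => x.1 + p * x.2)
    ?_ ?_ ?_ ?_ ?_
  · intro m hm
    rw [mem_range] at hm
    rw [mem_sigma, mem_range, mem_range]
    have h1 := Nat.mod_lt m hp
    refine ⟨h1, ?_⟩
    show m / p < (L + p - 1 - m % p) / p
    rw [Nat.lt_iff_add_one_le, Nat.le_div_iff_mul_le hp]
    have h2 := Nat.mod_add_div m p
    have h3 : (m / p + 1) * p = p * (m / p) + p := by ring
    omega
  · intro x hx
    rw [mem_sigma, mem_range, mem_range] at hx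
    rw [mem_range]
    obtain ⟨h1, h2⟩ := hx
    rw [Nat.lt_iff_add_one_le, Nat.le_div_iff_mul_le hp] at h2
    have h3 : (x.2 + 1) * p = p * x.2 + p := by ring
    omega
  · intro m _
    exact Nat.mod_add_div m p
  · intro x hx
    rw [mem_sigma, mem_range, mem_range] at hx
    obtain ⟨h1, h2⟩ := hx
    have e1 : (x.1 + p * x.2) % p = x.1 := by
      rw [Nat.add_mul_mod_self_left, Nat.mod_eq_of_lt h1]
    have e2 : (x.1 + p * x.2) / p = x.2 := by
      rw [Nat.add_mul_div_left _ _ hp, Nat.div_eq_of_lt h1, zero_add]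
    simp only [e1, e2]
  · intro m _
    rw [Nat.mod_add_div]

/-- number of `m < L` with `{s + m β} < a` and `φ(m) < b` -/
noncomputable def Z (p : ℕ) (β s a : ℝ) (L : ℕ) (b : ℝ) : ℝ :=
  ∑ m ∈ range L, (if Int.fract (s + m * β) < a ∧ vdc p m < b then (1:ℝ) else 0)

lemma Z_nonneg (p : ℕ) (β s a : ℝ) (L : ℕ) (b : ℝ) : 0 ≤ Z p β s a L b := by
  unfold Z
  refine sum_nonneg fun m _ => ?_
  split_ifs <;> norm_num

lemma Z_le (p : ℕ) (β s a : ℝ) (L : ℕ) (b : ℝ) : Z p β s a L b ≤ L := by
  unfold Z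
  calc ∑ m ∈ range L, (if Int.fract (s + m * β) < a ∧ vdc p m < b then (1:ℝ) else 0)
      ≤ ∑ m ∈ range L, (1:ℝ) := by
        refine sum_le_sum fun m _ => ?_
        split_ifs <;> norm_num
    _ = L := by simp

lemma Z_one (p : ℕ) (β s a : ℝ) (L : ℕ) (hL : L ≤ 1) (b : ℝ) (ha : 0 ≤ a) (ha1 : a ≤ 1)
    (hb : 0 ≤ b) (hb1 : b ≤ 1) : |Z p β s a L b - a * b * L| ≤ 1 := by
  have h1 := Z_nonneg p β s a L b
  have h2 := Z_le p β s a L b
  have h3 : (L:ℝ) ≤ 1 := by exact_mod_cast hL
  have h4 : a * b ≤ 1 := mul_le_one₀ ha1 hb hb1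
  have h5 : 0 ≤ a * b := mul_nonneg ha hb
  have h6 : a * b * L ≤ 1 := mul_le_one₀ h4 (by positivity) h3
  have h7 : 0 ≤ a * b * L := by positivity
  rw [abs_le]
  constructor <;> linarith

/-- uniformly badly approximable: all `p ^ k * β` -/
def UB (p : ℕ) (c β : ℝ) : Prop := ∀ k q : ℕ, 0 < q → c ≤ q * nrm (q * (p ^ k * β))

lemma UB.mul {p : ℕ} {c β : ℝ} (h : UB p c β) : UB p c (p * β) := by
  intro k q hq
  have := h (k + 1) q hq
  have e : (p:ℝ) ^ (k + 1) * β = p ^ k * (p * β) := by ring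
  rwa [e] at this

lemma UB.bad {p : ℕ} {c β : ℝ} (h : UB p c β) : ∀ q : ℕ, 0 < q → c ≤ q * nrm (q * β) := by
  intro q hq
  have := h 0 q hq
  simpa using this

/-- recursion in the number of digits -/
lemma Z_rec (p : ℕ) (hp : 2 ≤ p) (β s a : ℝ) (L : ℕ) (b : ℝ) (hb : 0 ≤ b) (hb1 : b < 1) :
    ∃ D : ℕ, D < p ∧ ((D:ℝ) + Int.fract (p * b) = p * b) ∧
      Z p β s a L b = ∑ d ∈ range D, cnt (p * β) (s + d * β) a ((L + p - 1 - d) / p) +
        Z p (p * β) (s + D * β) a ((L + p - 1 - D) / p) (Int.fract (p * b)) := by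
  have hp0 : 0 < p := by omega
  have hp' : (0:ℝ) < p := by exact_mod_cast hp0
  have hpb : 0 ≤ (p:ℝ) * b := by positivity
  obtain ⟨D, hD⟩ := Int.eq_ofNat_of_zero_le (Int.floor_nonneg.2 hpb)
  have hfl : (D:ℝ) + Int.fract (p * b) = p * b := by
    have := Int.floor_add_fract ((p:ℝ) * b)
    rw [hD] at this
    exact_mod_cast this
  have hf0 := Int.fract_nonneg ((p:ℝ) * b)
  have hf1 := Int.fract_lt_one ((p:ℝ) * b)
  have hDp : D < p := by
    have : (D:ℝ) < p := by nlinarith
    exact_mod_cast this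
  refine ⟨D, hDp, hfl, ?_⟩
  have h1 : Z p β s a L b = ∑ d ∈ range p, ∑ m ∈ range ((L + p - 1 - d) / p),
      (if Int.fract (s + ((d + p * m : ℕ) : ℝ) * β) < a ∧ vdc p (d + p * m) < b
        then (1:ℝ) else 0) := sum_split p hp0 L _
  rw [h1]
  -- each residue class
  have hcl : ∀ d ∈ range p, ∀ m : ℕ,
      (Int.fract (s + ((d + p * m : ℕ) : ℝ) * β) < a ∧ vdc p (d + p * m) < b) ↔
      (Int.fract (s + d * β + m * (p * β)) < a ∧ (d < D ∨ (d = D ∧ vdc p m < Int.fract (p * b)))) := by
    intro d hd m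
    rw [mem_range] at hd
    have e1 : s + ((d + p * m : ℕ) : ℝ) * β = s + d * β + m * (p * β) := by push_cast; ring
    rw [e1, vdc_rec p hp d m hd, div_lt_iff₀ hp']
    have hv := vdc_mem p hp m
    refine and_congr_right fun _ => ?_
    have e2 : b * p = D + Int.fract (p * b) := by rw [hfl]; ring
    rw [e2]
    constructor
    · intro h
      rcases lt_trichotomy d D with h3 | h3 | h3
      · exact Or.inl h3
      · refine Or.inr ⟨h3, ?_⟩
        rw [h3] at h
        linarith
      · exfalso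
        have : (D:ℝ) + 1 ≤ d := by exact_mod_cast h3
        linarith
    · rintro (h | ⟨h, h'⟩)
      · have : (d:ℝ) + 1 ≤ D := by exact_mod_cast h
        linarith
      · rw [h]; linarith
  have h2 : ∀ d ∈ range p, (∑ m ∈ range ((L + p - 1 - d) / p),
      (if Int.fract (s + ((d + p * m : ℕ) : ℝ) * β) < a ∧ vdc p (d + p * m) < b
        then (1:ℝ) else 0)) =
      (if d < D then cnt (p * β) (s + d * β) a ((L + p - 1 - d) / p) else 0) +
      (if d = D then Z p (p * β) (s + D * β) a ((L + p - 1 - D) / p) (Int.fract (p * b)) else 0) := by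
    intro d hd
    rcases lt_trichotomy d D with h3 | h3 | h3
    · rw [if_pos h3, if_neg h3.ne, add_zero]
      unfold cnt
      refine sum_congr rfl fun m _ => ?_
      rw [if_congr (hcl d hd m) rfl rfl]
      by_cases h4 : Int.fract (s + d * β + m * (p * β)) < a
      · rw [if_pos ⟨h4, Or.inl h3⟩, if_pos h4]; simp
      · rw [if_neg (fun h => h4 h.1), if_neg h4]; simp
    · rw [if_neg (by omega), if_pos h3, zero_add]
      unfold Z
      rw [h3]
      refine sum_congr rfl fun m _ => ?_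
      have h5 := hcl D (by rw [mem_range]; exact hDp) m
      rw [if_congr h5 rfl rfl]
      have h6 : (Int.fract (s + D * β + m * (p * β)) < a ∧
          (D < D ∨ (D = D ∧ vdc p m < Int.fract (p * b)))) ↔
          (Int.fract (s + D * β + m * (p * β)) < a ∧ vdc p m < Int.fract (p * b)) := by
        simp
      rw [if_congr h6 rfl rfl]
    · rw [if_neg (by omega), if_neg (by omega), add_zero]
      refine sum_eq_zero fun m _ => ?_
      rw [if_neg]
      rw [hcl d hd m]
      rintro ⟨_, h | ⟨h, _⟩⟩ <;> omega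
  rw [sum_congr rfl h2, sum_add_distrib]
  congr 1
  · rw [← sum_filter]
    congr 1
    ext d
    simp only [mem_filter, mem_range]
    omega
  · rw [sum_ite_eq' (range p) D, if_pos (mem_range.2 hDp)]

lemma len_bound (p : ℕ) (hp : 2 ≤ p) (L d : ℕ) (hd : d < p) :
    |(((L + p - 1 - d) / p : ℕ) : ℝ) - L / p| ≤ 1 := by
  have hp0 : 0 < p := by omega
  have hp' : (0:ℝ) < p := by exact_mod_cast hp0
  set K := (L + p - 1 - d) / p with hK
  have h1 : K * p ≤ L + p - 1 - d := Nat.div_mul_le_self _ _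
  have h2 : L + p - 1 - d < (K + 1) * p := by
    have := Nat.lt_div_mul_add (a := L + p - 1 - d) hp0
    rw [← hK] at this
    have e : (K + 1) * p = K * p + p := by ring
    omega
  have h1' : K * p ≤ L + p := by omega
  have h2' : L ≤ (K + 1) * p := by omega
  have h3 : (K:ℝ) * p ≤ L + p := by exact_mod_cast h1'
  have h4 : (L:ℝ) ≤ (K + 1) * p := by exact_mod_cast h2'
  rw [abs_le]
  constructor
  · have : (L:ℝ) / p ≤ K + 1 := by rw [div_le_iff₀ hp']; exact h4
    linarith
  · have : (K:ℝ) ≤ (L + p) / p := by rw [le_div_iff₀ hp']; exact h3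
    have e : ((L:ℝ) + p) / p = L / p + 1 := by field_simp
    linarith

theorem Z_bound (p : ℕ) (hp : 2 ≤ p) (c : ℝ) (hc : 0 < c) (hc1 : c < 1) (a : ℝ) (ha : 0 ≤ a)
    (ha1 : a ≤ 1) (N : ℕ) (hN : 0 < N) (j : ℕ) :
    ∀ (L : ℕ), L ≤ N → L ≤ 2 ^ j → ∀ β s b : ℝ, UB p c β → 0 ≤ b → b < 1 →
      |Z p β s a L b - a * b * L| ≤
        1 + j * (p * (4 + 3 / (-Real.log (1 - c)) * Real.log N) + 1) := by
  have hl : Real.log (1 - c) < 0 := Real.log_neg (by linarith) (by linarith)
  have hA : 0 < 3 / (-Real.log (1 - c)) := by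
    apply div_pos (by norm_num) (by linarith)
  set A := 3 / (-Real.log (1 - c)) with hAdef
  have hlogN : 0 ≤ Real.log N := Real.log_natCast_nonneg _
  have hp0 : 0 < p := by omega
  have hp' : (0:ℝ) < p := by exact_mod_cast hp0
  have hE : 0 ≤ (p * (4 + A * Real.log N) + 1 : ℝ) := by positivity
  induction j with
  | zero =>
    intro L _ hL β s b _ hb hb1
    have := Z_one p β s a L (by simpa using hL) b ha ha1 hb hb1.le
    simpa using this
  | succ j ih =>
    intro L hLN hL β s b hβ hb hb1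
    by_cases hL1 : L ≤ 1
    · refine (Z_one p β s a L hL1 b ha ha1 hb hb1.le).trans ?_
      have : 0 ≤ (((j + 1 : ℕ) : ℝ)) * (p * (4 + A * Real.log N) + 1 : ℝ) := by positivity
      linarith
    push Not at hL1
    obtain ⟨D, hD, hfl, hZ⟩ := Z_rec p hp β s a L b hb hb1
    have hf0 := Int.fract_nonneg ((p:ℝ) * b)
    have hf1 := Int.fract_lt_one ((p:ℝ) * b)
    -- lengths
    have hlen : ∀ d < p, (L + p - 1 - d) / p ≤ N ∧ (L + p - 1 - d) / p ≤ 2 ^ j := by
      intro d hd
      have h1 : (L + p - 1 - d) / p ≤ (L + p - 1) / p := Nat.div_le_div_right (by omega)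
      have h2 : (L + p - 1) / p ≤ (L + 1) / 2 := by
        rw [Nat.le_div_iff_mul_le (by norm_num)]
        have h3 := Nat.div_mul_le_self (L + p - 1) p
        set K := (L + p - 1) / p with hK
        by_contra hcon
        push Not at hcon
        have h4 : L + 2 ≤ K * 2 := by omega
        have h5 : K * p ≤ L + p - 1 := h3
        obtain ⟨r, rfl⟩ := Nat.exists_eq_add_of_le hp
        have h6 : K * (2 + r) = K * 2 + K * r := by ring
        have h7 : 2 ≤ K := by omega
        have h8 : 2 * r ≤ K * r := Nat.mul_le_mul_right r h7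
        omega
      have h3 : (L + 1) / 2 ≤ 2 ^ j := by
        have : 2 ^ (j + 1) = 2 * 2 ^ j := by ring
        omega
      have h4 : (L + 1) / 2 ≤ L := by omega
      omega
    have hcb : ∀ d ∈ range D, |cnt (p * β) (s + d * β) a ((L + p - 1 - d) / p) - a * (L / p)| ≤
        4 + A * Real.log N := by
      intro d hd
      rw [mem_range] at hd
      have hdp : d < p := by omega
      obtain ⟨h1, _⟩ := hlen d hdp
      have hlb := len_bound p hp L d hdp
      set K := (L + p - 1 - d) / p with hK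
      have h2 : |cnt (p * β) (s + d * β) a K - K * a| ≤ 3 + A * Real.log N := by
        rcases Nat.eq_zero_or_pos K with h0 | h0
        · rw [h0]
          simp only [cnt, range_zero, sum_empty, Nat.cast_zero, zero_mul, sub_zero, abs_zero]
          positivity
        · have hcb := cnt_bound (p * β) c hc hc1 (hβ.mul.bad) a ha ha1 K h0 (s + d * β)
          rw [← hAdef] at hcb
          refine hcb.trans ?_
          have h3 : Real.log K ≤ Real.log N :=
            Real.log_le_log (by exact_mod_cast h0) (by exact_mod_cast h1)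
          have := mul_le_mul_of_nonneg_left h3 hA.le
          linarith
      have h3 : |(K:ℝ) * a - a * (L / p)| ≤ 1 := by
        have e : (K:ℝ) * a - a * (L / p) = a * (K - L / p) := by ring
        rw [e, abs_mul, abs_of_nonneg ha]
        calc a * |(K:ℝ) - L / p| ≤ 1 * 1 := by gcongr
          _ = 1 := by norm_num
      have e : cnt (p * β) (s + d * β) a K - a * (L / p) =
          (cnt (p * β) (s + d * β) a K - K * a) + (K * a - a * (L / p)) := by ring
      rw [e]
      refine (abs_add_le _ _).trans ?_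
      linarith
    obtain ⟨h1, h2⟩ := hlen D hD
    have hlb := len_bound p hp L D hD
    have hih := ih _ h1 h2 (p * β) (s + D * β) (Int.fract (p * b)) hβ.mul hf0 hf1
    set K := (L + p - 1 - D) / p with hK
    rw [hZ]
    have e : ∑ d ∈ range D, cnt (p * β) (s + d * β) a ((L + p - 1 - d) / p) +
        Z p (p * β) (s + D * β) a K (Int.fract (p * b)) - a * b * L =
        ∑ d ∈ range D, (cnt (p * β) (s + d * β) a ((L + p - 1 - d) / p) - a * (L / p)) +
        (Z p (p * β) (s + D * β) a K (Int.fract (p * b)) - a * Int.fract (p * b) * K) +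
        a * Int.fract (p * b) * (K - L / p) := by
      rw [sum_sub_distrib, sum_const, card_range, nsmul_eq_mul]
      have hb' : b = (D + Int.fract (p * b)) / p := by
        rw [hfl]; field_simp
      have : a * b * L = a * ((D + Int.fract (p * b)) / p) * L := by rw [← hb']
      rw [this]
      field_simp
      ring
    rw [e]
    have hs : |∑ d ∈ range D, (cnt (p * β) (s + d * β) a ((L + p - 1 - d) / p) - a * (L / p))| ≤
        p * (4 + A * Real.log N) := by
      refine (abs_sum_le_sum_abs _ _).trans ?_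
      refine (sum_le_sum hcb).trans ?_
      rw [sum_const, card_range, nsmul_eq_mul]
      have : (D:ℝ) ≤ p := by exact_mod_cast hD.le
      gcongr
    have ht : |a * Int.fract (p * b) * ((K:ℝ) - L / p)| ≤ 1 := by
      rw [abs_mul, abs_of_nonneg (mul_nonneg ha hf0)]
      have h3 : a * Int.fract ((p:ℝ) * b) ≤ 1 := mul_le_one₀ ha1 hf0 hf1.le
      calc a * Int.fract ((p:ℝ) * b) * |(K:ℝ) - L / p| ≤ 1 * 1 := by gcongr
        _ = 1 := by norm_num
    refine (abs_add_le _ _).trans ?_
    refine (add_le_add (abs_add_le _ _) le_rfl).trans ?_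
    have : (((j + 1 : ℕ) : ℝ)) * (p * (4 + A * Real.log N) + 1 : ℝ) =
        (j:ℝ) * (p * (4 + A * Real.log N) + 1) + (p * (4 + A * Real.log N) + 1) := by
      push_cast; ring
    rw [this]
    linarith

/-- `b = 1` reduces to the one-dimensional count -/
lemma Z_b_one (p : ℕ) (hp : 2 ≤ p) (β s a : ℝ) (L : ℕ) (b : ℝ) (hb : 1 ≤ b) :
    Z p β s a L b = cnt β s a L := by
  unfold Z cnt
  refine sum_congr rfl fun m _ => ?_
  have := (vdc_mem p hp m).2
  by_cases h : Int.fract (s + m * β) < a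
  · rw [if_pos ⟨h, by linarith⟩, if_pos h]; simp
  · rw [if_neg (fun h' => h h'.1), if_neg h]; simp

end Pool.Agent.X173.HYB
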