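import Mathlib
import Pool.Agent.H447R2.ML.Law
import Pool.Agent.H447R2.ML.Q3
import Pool.Agent.H447R2.ML.R1

set_option autoImplicit false

/-!
# Perturbed rough parts: windows of every length and integral bounds
-/

namespace Pool.Agent.X173.Fer

open Filter Topology MeasureTheory
open Pool.Agent.H305R2 (roughPart NN ff measurable_ff ff_nonneg ff_le_one integrableOn_ff bounds)
open Pool.Agent.H447R2.ML

/-- the constant sequence `1` -/
def g1 : ℕ → ℝ := fun _ => 1

lemma g1_le (p : ℕ) : |g1 p| ≤ 1 * Real.exp (0 * p) := by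
  unfold g1; simp

/-- windows of length `l ≤ 1` -/
lemma asymp_l {a l : ℝ} (ha : 0 < a) (hl : 0 < l) (hl1 : l ≤ 1) (y : ℕ → ℝ)
    (hy : Tendsto (fun p : ℕ => y p / p) atTop (𝓝 a)) :
    Tendsto (fun p : ℕ => (∫ t in Set.Ioc (y p) (y p + l), fl g1 p t) * (p / Real.log p)) atTop
      (𝓝 (Real.exp Real.eulerMascheroniConstant * l / a)) := by
  set c := a / 2 with hc
  have hκc : 0 < c := by rw [hc]; linarith
  have hca : c < a := by rw [hc]; linarith
  have hδ : 0 < c - 0 := by linarith
  have hcy : ∀ᶠ p : ℕ in atTop, c * p ≤ y p := by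
    filter_upwards [hy.eventually_const_lt hca, eventually_ge_atTop 1] with p hp hp1
    have hp0 : (0 : ℝ) < p := by exact_mod_cast hp1
    rw [lt_div_iff₀ hp0] at hp
    exact hp.le
  set y' : ℕ → ℝ := fun p => Real.log (Real.exp (y p) + g1 p) with hy'd
  have hbasic : ∀ᶠ p : ℕ in atTop, 1 ≤ p ∧ 0 < 1 * Real.exp (-((c - 0) * p)) ∧
      1 * Real.exp (-((c - 0) * p)) ≤ 1 / 4 ∧ |y' p - y p| ≤ 2 * (1 * Real.exp (-((c - 0) * p))) ∧
      |(∫ t in Set.Ioc (y p) (y p + l), fl g1 p t) - ∫ t in Set.Ioc (y' p) (y' p + l), ff p t| ≤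
        6 * (1 * Real.exp (-((c - 0) * p))) := by
    filter_upwards [hcy, hdecay 0 (c - 0) (1 / (4 * 1)) hδ (by positivity),
      eventually_ge_atTop 1] with p hp hd0 hp1
    set ε := 1 * Real.exp (-((c - 0) * p)) with hεd
    have hε0 : 0 < ε := by positivity
    have hε1 : ε ≤ 1 / 4 := by
      rw [pow_zero, one_mul] at hd0
      rw [hεd, one_mul]
      linarith
    have hgy : |g1 p| ≤ ε * Real.exp (y p) := eps_bound one_pos g1_le hp
    have hyy : y p ≤ y p + l := by linarith
    have hcmp := compare hε1 hgy hyy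
    have hs1 := shift hε1 hgy le_rfl
    have hs2 := shift hε1 hgy hyy
    refine ⟨hp1, hε0, hε1, hs1, ?_⟩
    have hA1 : ∫ t in Set.Ioc (y p) (y p + l), fl g1 p t ≤ 1 := by
      calc ∫ t in Set.Ioc (y p) (y p + l), fl g1 p t ≤ ∫ t in Set.Ioc (y p) (y p + l), (1 : ℝ) :=
            setIntegral_mono_on (integrableOn_fl g1 p _ _) (integrableOn_const (by simp))
              measurableSet_Ioc fun t _ => fl_le_one g1 p t
        _ = l := by
            rw [setIntegral_const, smul_eq_mul, mul_one, Real.volume_real_Ioc_of_le hyy]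
            ring
        _ ≤ 1 := hl1
    have hmono : Real.log (Real.exp (y p) + g1 p) ≤ Real.log (Real.exp (y p + l) + g1 p) := by
      have h1 := (abs_le.1 hgy).1
      have h2 := Real.exp_pos (y p)
      have h3 : Real.exp (y p) ≤ Real.exp (y p + l) := Real.exp_le_exp.2 hyy
      exact Real.log_le_log (by nlinarith) (by linarith)
    have hB : (∫ u in Set.Ioc (Real.log (Real.exp (y p) + g1 p)) (Real.log (Real.exp (y p + l) + g1 p)), ff p u) -
        ∫ t in Set.Ioc (y' p) (y' p + l), ff p t =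
        Pool.Agent.H305R2.FF p (Real.log (Real.exp (y p + l) + g1 p)) -
          Pool.Agent.H305R2.FF p (y' p + l) := by
      rw [← Pool.Agent.H305R2.FF_sub p hmono, ← Pool.Agent.H305R2.FF_sub p (show y' p ≤ y' p + l by linarith)]
      ring
    have hB2 := FF_lip p (Real.log (Real.exp (y p + l) + g1 p)) (y' p + l)
    rw [← hB] at hB2
    have hB3 : |Real.log (Real.exp (y p + l) + g1 p) - (y' p + l)| ≤ 4 * ε := by
      have e : Real.log (Real.exp (y p + l) + g1 p) - (y' p + l) =
          (Real.log (Real.exp (y p + l) + g1 p) - (y p + l)) - (y' p - y p) := by ring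
      rw [e]
      refine (abs_sub _ _).trans ?_
      have : |y' p - y p| ≤ 2 * ε := hs1
      linarith
    have h5 := hB2.trans hB3
    have hA0 : 0 ≤ ∫ t in Set.Ioc (y p) (y p + l), fl g1 p t :=
      setIntegral_nonneg measurableSet_Ioc fun t _ => fl_nonneg g1 p t
    have h6 : 2 * ε * ∫ t in Set.Ioc (y p) (y p + l), fl g1 p t ≤ 2 * ε := by nlinarith
    have h7 := abs_le.1 (hcmp.trans h6)
    have h8 := abs_le.1 h5
    rw [abs_le]
    constructor <;> linarith
  have hy' : Tendsto (fun p : ℕ => y' p / p) atTop (𝓝 a) := by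
    have h1 : Tendsto (fun p : ℕ => (y' p - y p) / p) atTop (𝓝 0) := by
      refine squeeze_zero_norm' ?_ (tendsto_one_div_atTop_nhds_zero_nat (𝕜 := ℝ))
      filter_upwards [hbasic] with p hp
      obtain ⟨hp1, -, h2, h3, -⟩ := hp
      have hp0 : (0 : ℝ) < p := by exact_mod_cast hp1
      rw [Real.norm_eq_abs, abs_div, abs_of_pos hp0]
      gcongr
      linarith
    have h2 := h1.add hy
    rw [zero_add] at h2
    refine h2.congr fun p => ?_
    ring
  have hmain := window_asymp_l ha hl hl1 hy'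
  have hdiff : Tendsto (fun p : ℕ => ((∫ t in Set.Ioc (y p) (y p + l), fl g1 p t) -
      ∫ t in Set.Ioc (y' p) (y' p + l), ff p t) * (p / Real.log p)) atTop (𝓝 0) := by
    have h0 : Tendsto (fun p : ℕ => 6 * 1 * ((p : ℝ) ^ 1 * Real.exp (-((c - 0) * p)))) atTop (𝓝 0) := by
      have hcast := tendsto_natCast_atTop_atTop (R := ℝ)
      have h1 := (Real.tendsto_pow_mul_exp_neg_atTop_nhds_zero 1).comp (hcast.const_mul_atTop hδ)
      have h2 := h1.const_mul (6 * 1 * (c - 0)⁻¹)
      rw [mul_zero] at h2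
      refine h2.congr fun p => ?_
      simp only [Function.comp]
      field_simp
    refine squeeze_zero_norm' ?_ h0
    filter_upwards [hbasic, eventually_ge_atTop 3] with p hp hp3
    obtain ⟨-, h1, -, -, h4⟩ := hp
    have hp3' : (3 : ℝ) ≤ p := by exact_mod_cast hp3
    have hp0 : (0 : ℝ) < p := by linarith
    have hlog : 1 ≤ Real.log p := by
      rw [Real.le_log_iff_exp_le hp0]
      have := Real.exp_one_lt_d9
      linarith
    rw [Real.norm_eq_abs, abs_mul, abs_of_nonneg (show (0 : ℝ) ≤ p / Real.log p by positivity)]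
    calc _ ≤ 6 * (1 * Real.exp (-((c - 0) * p))) * (p / 1) := by
          gcongr
      _ = _ := by ring
  have h := hdiff.add hmain
  rw [zero_add] at h
  refine h.congr fun p => ?_
  ring

/-- windows of every length -/
lemma asymp_w {a s t : ℝ} (ha : 0 < a) (hst : s < t) (y : ℕ → ℝ)
    (hy : Tendsto (fun p : ℕ => y p / p) atTop (𝓝 a)) :
    Tendsto (fun p : ℕ => (∫ u in Set.Ioc s t, fl g1 p (y p + u)) * (p / Real.log p)) atTop
      (𝓝 (Real.exp Real.eulerMascheroniConstant * (t - s) / a)) := by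
  obtain ⟨n, hn⟩ := exists_nat_gt (t - s)
  have hn0 : (0 : ℝ) < n := by linarith
  set l := (t - s) / n with hl
  have hl0 : 0 < l := div_pos (by linarith) hn0
  have hl1 : l ≤ 1 := by rw [hl, div_le_one hn0]; exact hn.le
  have key : ∀ c : ℝ, Tendsto (fun p : ℕ => (∫ u in (s + c)..(s + c + l), fl g1 p (y p + u)) *
      (p / Real.log p)) atTop (𝓝 (Real.exp Real.eulerMascheroniConstant * l / a)) := by
    intro c
    have h1 : Tendsto (fun p : ℕ => (y p + (s + c)) / p) atTop (𝓝 a) := by
      have h2 := hy.add ((tendsto_one_div_atTop_nhds_zero_nat (𝕜 := ℝ)).const_mul (s + c))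
      rw [mul_zero, add_zero] at h2
      refine h2.congr fun p => ?_
      ring
    refine (asymp_l ha hl0 hl1 _ h1).congr fun p => ?_
    congr 1
    rw [intervalIntegral.integral_comp_add_left (fun v => fl g1 p v) (y p),
      intervalIntegral.integral_of_le (by linarith)]
    congr 2
    ring_nf
  have hsum : Tendsto (fun p : ℕ => ∑ i ∈ Finset.range n,
      (∫ u in (s + i * l)..(s + i * l + l), fl g1 p (y p + u)) * (p / Real.log p)) atTop
      (𝓝 (∑ i ∈ Finset.range n, Real.exp Real.eulerMascheroniConstant * l / a)) :=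
    tendsto_finsetSum _ fun i _ => key (i * l)
  have e1 : ∑ i ∈ Finset.range n, Real.exp Real.eulerMascheroniConstant * l / a =
      Real.exp Real.eulerMascheroniConstant * (t - s) / a := by
    rw [Finset.sum_const, Finset.card_range, nsmul_eq_mul, hl]
    field_simp
  rw [e1] at hsum
  refine hsum.congr fun p => ?_
  rw [← Finset.sum_mul]
  congr 1
  have hii : ∀ a b : ℝ, IntervalIntegrable (fun u => fl g1 p (y p + u)) volume a b := by
    intro a b
    rw [intervalIntegrable_iff]
    refine Measure.integrableOn_of_bounded (M := 1) (by simp)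
      ((measurable_fl g1 p).comp (measurable_const_add _)).aestronglyMeasurable ?_
    exact Eventually.of_forall fun t => by
      rw [Real.norm_eq_abs, abs_of_nonneg (fl_nonneg g1 p _)]; exact fl_le_one g1 p _
  have h2 := intervalIntegral.sum_integral_adjacent_intervals (f := fun u => fl g1 p (y p + u))
    (μ := volume) (a := fun i : ℕ => s + i * l) (n := n) (fun k _ => hii _ _)
  have e2 : ∀ i : ℕ, s + ((i + 1 : ℕ) : ℝ) * l = s + i * l + l := by
    intro i; push_cast; ring
  simp only [e2] at h2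
  rw [h2]
  have e3 : s + (n : ℝ) * l = t := by rw [hl]; field_simp; ring
  rw [e3]
  simp only [Nat.cast_zero, zero_mul, add_zero]
  rw [intervalIntegral.integral_of_le hst.le]

/-- the integral bound for long windows -/
lemma long_fl {c : ℝ} (hc : 0 < c) : ∃ K : ℝ, 0 < K ∧ ∀ᶠ p : ℕ in atTop, ∀ u v : ℝ,
    c * p + 2 ≤ u → u ≤ v → ∫ t in Set.Ioc u v, fl g1 p t ≤ K * ((v - u) + 1) * (Real.log p / p) := by
  obtain ⟨K, hK, hev⟩ := bounds hc
  refine ⟨4 * K, by positivity, ?_⟩
  filter_upwards [hev, eventually_ge_atTop 3] with p hp hp3 u v hu huv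
  obtain ⟨_, h2, _, _⟩ := hp
  have hp3' : (3 : ℝ) ≤ p := by exact_mod_cast hp3
  have hp0 : (0 : ℝ) < p := by linarith
  have hcp : 0 < c * p := by positivity
  have hlog : 0 ≤ Real.log p / p := div_nonneg (Real.log_nonneg (by linarith)) hp0.le
  have hexp : |g1 p| ≤ 1 / 4 * Real.exp u := by
    have h3 := Real.quadratic_le_exp_of_nonneg (show (0 : ℝ) ≤ 2 by norm_num)
    have h4 : Real.exp 2 ≤ Real.exp u := Real.exp_le_exp.2 (by linarith)
    unfold g1
    rw [abs_one]
    linarith
  have hcmp := compare (le_refl (1 / 4 : ℝ)) hexp huv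
  have hs1 := abs_le.1 (shift (le_refl (1 / 4 : ℝ)) hexp le_rfl)
  have hs2 := abs_le.1 (shift (le_refl (1 / 4 : ℝ)) hexp huv)
  have h0 : 0 ≤ ∫ t in Set.Ioc u v, fl g1 p t :=
    setIntegral_nonneg measurableSet_Ioc fun t _ => fl_nonneg g1 p t
  have h5 := (abs_le.1 hcmp).1
  have hmono : Real.log (Real.exp u + g1 p) ≤ Real.log (Real.exp v + g1 p) := by
    have h3 : Real.exp u ≤ Real.exp v := Real.exp_le_exp.2 huv
    unfold g1
    exact Real.log_le_log (by positivity) (by linarith)
  have h6 := h2 (Real.log (Real.exp u + g1 p)) (Real.log (Real.exp v + g1 p)) (by linarith) hmono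
  have h7 : 1 / (p : ℝ) ≤ 1 := by rw [div_le_one hp0]; linarith
  have h8 : K * ((Real.log (Real.exp v + g1 p) - Real.log (Real.exp u + g1 p)) + 1 / p) *
      (Real.log p / p) ≤ K * (2 * ((v - u) + 1)) * (Real.log p / p) := by
    gcongr
    linarith
  nlinarith

end Pool.Agent.X173.Fer
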