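import Mathlib
import Pool.Agent.X173.FerA

set_option autoImplicit false

/-!
# Almost everywhere only finitely many levels
-/

namespace Pool.Agent.X173.Fer

open Filter Topology MeasureTheory
open scoped ENNReal
open Pool.Agent.H447R2.ML

/-- **Borel-Cantelli for sequences of `0`-`1` valued functions.** -/
lemma bc {μ : Measure ℝ} {f : ℕ → ℝ → ℝ} {b : ℕ → ℝ} (hm : ∀ m, AEMeasurable (f m) μ)
    (hb0 : ∀ m, 0 ≤ b m) (hsum : Summable b) {M : ℕ}
    (hb : ∀ m ≥ M, ∫⁻ x, ENNReal.ofReal (f m x) ∂μ ≤ ENNReal.ofReal (b m)) :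
    ∀ᵐ x ∂μ, {m : ℕ | f m x = 1}.Finite := by
  have h1 : ∫⁻ x, ∑' m : ℕ, ENNReal.ofReal (f (m + M) x) ∂μ < ∞ := by
    rw [lintegral_tsum fun m => (hm (m + M)).ennreal_ofReal]
    refine lt_of_le_of_lt (ENNReal.tsum_le_tsum fun m => hb (m + M) (by omega)) ?_
    have h2 : Summable fun m => b (m + M) := (summable_nat_add_iff M).2 hsum
    rw [← ENNReal.ofReal_tsum_of_nonneg (fun m => hb0 _) h2]
    exact ENNReal.ofReal_lt_top
  have h3 := ae_lt_top' (AEMeasurable.tsum fun m => (hm (m + M)).ennreal_ofReal) h1.ne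
  filter_upwards [h3] with x hx
  have h4 := ENNReal.tendsto_atTop_zero_of_tsum_ne_top hx.ne
  have h5 : ∀ᶠ m : ℕ in atTop, ENNReal.ofReal (f (m + M) x) < 1 :=
    h4.eventually (gt_mem_nhds (by norm_num))
  obtain ⟨N, hN⟩ := eventually_atTop.1 h5
  refine (Set.finite_lt_nat (N + M)).subset fun m hm1 => ?_
  simp only [Set.mem_ofPred_eq] at hm1 ⊢
  by_contra hlt
  have h6 := hN (m - M) (by omega)
  rw [Nat.sub_add_cancel (by omega), hm1, ENNReal.ofReal_one] at h6
  exact lt_irrefl _ h6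

/-- change of variables with a lower bound of the slope -/
lemma cov_le {c d η : ℝ} (hcd : c ≤ d) (hη : 0 < η) {y y' : ℝ → ℝ}
    (hder : ∀ x ∈ Set.Icc c d, HasDerivAt y (y' x) x) (hy' : ∀ x ∈ Set.Icc c d, η ≤ y' x)
    (F : ℝ → ℝ≥0∞) :
    ENNReal.ofReal η * ∫⁻ x in Set.Ioc c d, F (y x) ≤ ∫⁻ u in Set.Ioc (y c) (y d), F u := by
  have hcont : ContinuousOn y (Set.Icc c d) := fun x hx =>
    (hder x hx).continuousAt.continuousWithinAt
  have hmono : StrictMonoOn y (Set.Icc c d) := by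
    refine strictMonoOn_of_deriv_pos (convex_Icc c d) hcont fun x hx => ?_
    have hx' := interior_subset hx
    rw [(hder x hx').deriv]
    exact hη.trans_le (hy' x hx')
  have himg := lintegral_image_eq_lintegral_abs_deriv_mul (s := Set.Ioc c d) measurableSet_Ioc
    (fun x hx => (hder x ⟨hx.1.le, hx.2⟩).hasDerivWithinAt)
    (hmono.injOn.mono Set.Ioc_subset_Icc_self) F
  have hsub : y '' Set.Ioc c d ⊆ Set.Ioc (y c) (y d) := by
    rintro _ ⟨x, hx, rfl⟩
    exact ⟨hmono ⟨le_rfl, hcd⟩ ⟨hx.1.le, hx.2⟩ hx.1,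
      hmono.monotoneOn ⟨hx.1.le, hx.2⟩ ⟨hcd, le_rfl⟩ hx.2⟩
  calc ENNReal.ofReal η * ∫⁻ x in Set.Ioc c d, F (y x)
      = ∫⁻ x in Set.Ioc c d, ENNReal.ofReal η * F (y x) :=
        (lintegral_const_mul' _ _ ENNReal.ofReal_ne_top).symm
    _ ≤ ∫⁻ x in Set.Ioc c d, ENNReal.ofReal |y' x| * F (y x) := by
        refine setLIntegral_mono' measurableSet_Ioc fun x hx => ?_
        gcongr
        exact (hy' x ⟨hx.1.le, hx.2⟩).trans (le_abs_self _)
    _ = ∫⁻ u in y '' Set.Ioc c d, F u := himg.symm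
    _ ≤ _ := lintegral_mono_set hsub

lemma fl01 (p : ℕ) (t : ℝ) : fl g1 p t = 0 ∨ fl g1 p t = 1 := by
  unfold fl
  split_ifs
  · exact Or.inr rfl
  · exact Or.inl rfl

lemma wt_pow (m : ℕ) : Real.log ((2 ^ (m + 1) : ℕ) : ℝ) / ((2 ^ (m + 1) : ℕ) : ℝ) =
    Real.log 2 / 2 * ((m + 1) / 2 ^ m) := by
  push_cast
  rw [Real.log_pow]
  push_cast
  rw [pow_succ]
  field_simp

lemma summable_wt : Summable fun m : ℕ => ((m : ℝ) + 1) / 2 ^ m := by
  have h1 : Summable fun m : ℕ => (m : ℝ) ^ 1 * (1 / 2 : ℝ) ^ m :=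
    summable_pow_mul_geometric_of_norm_lt_one 1 (by norm_num)
  have h2 : Summable fun m : ℕ => (1 / 2 : ℝ) ^ m := summable_geometric_of_lt_one (by norm_num) (by norm_num)
  refine (h1.add h2).congr fun m => ?_
  rw [pow_one, one_div, inv_pow]
  field_simp

/-- **The finiteness theorem for phase functions with large slopes.** -/
lemma fin_phase {c d c0 L : ℝ} (hcd : c ≤ d) (hc0 : 0 < c0) (hL : 0 ≤ L) {y y' : ℕ → ℝ → ℝ}
    {η : ℕ → ℝ} {M : ℕ}
    (hder : ∀ m ≥ M, ∀ x ∈ Set.Icc c d, HasDerivAt (y m) (y' m x) x)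
    (hη : ∀ m ≥ M, 0 < η m) (hslope : ∀ m ≥ M, ∀ x ∈ Set.Icc c d, η m ≤ y' m x)
    (hlow : ∀ m ≥ M, c0 * ((2 ^ (m + 1) : ℕ) : ℝ) + 2 ≤ y m c)
    (hlen : ∀ m ≥ M, y m d - y m c + 1 ≤ L * η m)  :
    ∀ᵐ x : ℝ, x ∈ Set.Ioc c d → {m : ℕ | fl g1 (2 ^ (m + 1)) (y m x) = 1}.Finite := by
  obtain ⟨K, hK, hev⟩ := long_fl hc0
  obtain ⟨P, hP⟩ := eventually_atTop.1 hev
  set μ := (volume : Measure ℝ).restrict (Set.Ioc c d) with hμ
  rw [← ae_restrict_iff' (μ := volume) measurableSet_Ioc]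
  -- replace the functions of small index by zero
  set f : ℕ → ℝ → ℝ := fun m x => if M + P ≤ m then fl g1 (2 ^ (m + 1)) (y m x) else 0 with hf
  have hmain : ∀ᵐ x ∂μ, {m : ℕ | f m x = 1}.Finite := by
    refine bc (b := fun m => K * L * (Real.log 2 / 2 * ((m + 1) / 2 ^ m))) (M := M + P) ?_ ?_ ?_ ?_
    · intro m
      simp only [hf]
      split_ifs with h
      · have h1 : ContinuousOn (y m) (Set.Ioc c d) := fun x hx =>
          (hder m (by omega) x ⟨hx.1.le, hx.2⟩).continuousAt.continuousWithinAt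
        exact (measurable_fl g1 _).comp_aemeasurable (h1.aemeasurable measurableSet_Ioc)
      · exact aemeasurable_const
    · intro m
      positivity
    · exact (summable_wt.mul_left _).mul_left _
    · intro m hm
      have e0 : f m = fun x => fl g1 (2 ^ (m + 1)) (y m x) := by
        funext x
        simp only [hf]
        rw [if_pos (show M + P ≤ m from hm)]
      rw [e0]
      have hmM : M ≤ m := by omega
      have hmP : P ≤ 2 ^ (m + 1) := by
        have : m + 1 < 2 ^ (m + 1) := Nat.lt_two_pow_self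
        omega
      have hc := hη m hmM
      have hmono : y m c ≤ y m d := by
        have h1 : MonotoneOn (y m) (Set.Icc c d) := by
          refine monotoneOn_of_deriv_nonneg (convex_Icc c d)
            (fun x hx => (hder m hmM x hx).continuousAt.continuousWithinAt)
            (fun x hx => (hder m hmM x (interior_subset hx)).differentiableAt.differentiableWithinAt)
            fun x hx => ?_
          rw [(hder m hmM x (interior_subset hx)).deriv]
          exact hc.le.trans (hslope m hmM x (interior_subset hx))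
        exact h1 ⟨le_rfl, hcd⟩ ⟨hcd, le_rfl⟩ hcd
      have h1 := hP (2 ^ (m + 1)) hmP (y m c) (y m d) (hlow m hmM) hmono
      rw [wt_pow] at h1
      have h2 := cov_le hcd hc (hder m hmM) (hslope m hmM)
        (fun u => ENNReal.ofReal (fl g1 (2 ^ (m + 1)) u))
      rw [← ofReal_integral_eq_lintegral_ofReal (integrableOn_fl g1 _ _ _)
        (Eventually.of_forall fun u => fl_nonneg _ _ _)] at h2
      have h3 : ENNReal.ofReal (∫ u in Set.Ioc (y m c) (y m d), fl g1 (2 ^ (m + 1)) u) ≤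
          ENNReal.ofReal (η m) * ENNReal.ofReal (K * L * (Real.log 2 / 2 * ((m + 1) / 2 ^ m))) := by
        rw [← ENNReal.ofReal_mul hc.le]
        refine ENNReal.ofReal_le_ofReal (h1.trans ?_)
        have h4 : K * (y m d - y m c + 1) * (Real.log 2 / 2 * (((m : ℝ) + 1) / 2 ^ m)) ≤
            K * (L * η m) * (Real.log 2 / 2 * (((m : ℝ) + 1) / 2 ^ m)) := by
          gcongr
          exact hlen m hmM
        refine h4.trans (le_of_eq ?_)
        ring
      have h5 := h2.trans h3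
      rwa [ENNReal.mul_le_mul_iff_right (by simpa using hc) ENNReal.ofReal_ne_top] at h5
  filter_upwards [hmain] with x hx
  refine (hx.union (Set.finite_lt_nat (M + P))).subset fun m hm => ?_
  simp only [Set.mem_ofPred_eq] at hm
  by_cases h : M + P ≤ m
  · left
    simp only [hf, Set.mem_ofPred_eq]
    rw [if_pos h]
    exact hm
  · right
    simp only [Set.mem_ofPred_eq]
    omega

end Pool.Agent.X173.Fer
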