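import Mathlib
import Pool.Agent.X173.FerB

set_option autoImplicit false

/-!
# The tail asymptotics: abstract part
-/

namespace Pool.Agent.X173.Fer

open Filter Topology MeasureTheory
open scoped ENNReal

lemma scale_le (M i : ℕ) : ((M + i : ℕ) + 1 : ℝ) / 2 ^ (M + i) * (2 ^ M / (M + 2)) ≤
    ((i : ℝ) + 1) / 2 ^ i := by
  push_cast
  rw [pow_add]
  have h1 : ((M : ℝ) + i + 1) / (2 ^ M * 2 ^ i) * (2 ^ M / (M + 2)) =
      (((M : ℝ) + i + 1) / (M + 2)) / 2 ^ i := by
    field_simp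
  rw [h1]
  gcongr
  rw [div_le_iff₀ (by positivity)]
  have : (0 : ℝ) ≤ M := Nat.cast_nonneg M
  have : (0 : ℝ) ≤ i := Nat.cast_nonneg i
  nlinarith

/-- the scaled weights -/
lemma scale_lim (i : ℕ) : Tendsto (fun M : ℕ => ((M + i : ℕ) + 1 : ℝ) / 2 ^ (M + i) *
    (2 ^ M / (M + 2))) atTop (𝓝 ((1 / 2 : ℝ) ^ i)) := by
  have h1 : Tendsto (fun M : ℕ => ((M : ℝ) + (i + 1)) / (M + 2)) atTop (𝓝 1) := by
    have h2 : Tendsto (fun M : ℕ => 1 + ((i : ℝ) - 1) * (1 / ((M : ℝ) + 2))) atTop (𝓝 (1 + ((i : ℝ) - 1) * 0)) := by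
      refine (Tendsto.const_mul _ ?_).const_add _
      have h3 : Tendsto (fun M : ℕ => (M : ℝ) + 2) atTop atTop :=
        tendsto_atTop_add_const_right _ _ tendsto_natCast_atTop_atTop
      refine h3.inv_tendsto_atTop.congr fun M => ?_
      simp
    rw [mul_zero, add_zero] at h2
    refine h2.congr fun M => ?_
    have : (M : ℝ) + 2 ≠ 0 := by positivity
    field_simp
    ring
  have h4 := h1.mul_const ((1 / 2 : ℝ) ^ i)
  rw [one_mul] at h4
  refine h4.congr fun M => ?_
  push_cast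
  rw [pow_add, one_div, inv_pow]
  field_simp
  ring

lemma bonf {μ : Measure ℝ} [IsFiniteMeasure μ] {S : ℕ → Set ℝ} (hS : ∀ m, MeasurableSet (S m))
    (L : ℕ) : 2 * (∑ i ∈ Finset.range L, μ.real (S i)) -
      ∑ i ∈ Finset.range L, ∑ j ∈ Finset.range L, μ.real (S i ∩ S j) ≤ μ.real (⋃ i, S i) := by
  classical
  have hU : MeasurableSet (⋃ i, S i) := MeasurableSet.iUnion hS
  have hI : ∀ T : Set ℝ, MeasurableSet T → Integrable (T.indicator (fun _ => (1 : ℝ))) μ := fun T hT =>
    (integrable_const 1).indicator hT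
  have hv : ∀ T : Set ℝ, MeasurableSet T → ∫ x, T.indicator (fun _ => (1 : ℝ)) x ∂μ = μ.real T := by
    intro T hT
    rw [integral_indicator_const _ hT]
    simp
  have h1 : ∫ x, (2 * (∑ i ∈ Finset.range L, (S i).indicator (fun _ => (1 : ℝ)) x) -
      ∑ i ∈ Finset.range L, ∑ j ∈ Finset.range L, (S i ∩ S j).indicator (fun _ => (1 : ℝ)) x) ∂μ ≤
      ∫ x, (⋃ i, S i).indicator (fun _ => (1 : ℝ)) x ∂μ := by
    refine integral_mono ?_ (hI _ hU) fun x => ?_
    · refine Integrable.sub ((integrable_finsetSum _ fun i _ => hI _ (hS i)).const_mul 2) ?_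
      exact integrable_finsetSum _ fun i _ => integrable_finsetSum _ fun j _ =>
        hI _ ((hS i).inter (hS j))
    · have e : ∑ i ∈ Finset.range L, ∑ j ∈ Finset.range L, (S i ∩ S j).indicator (fun _ => (1 : ℝ)) x =
          (∑ i ∈ Finset.range L, (S i).indicator (fun _ => (1 : ℝ)) x) ^ 2 := by
        rw [sq, Finset.sum_mul_sum]
        refine Finset.sum_congr rfl fun i _ => Finset.sum_congr rfl fun j _ => ?_
        by_cases h1 : x ∈ S i <;> by_cases h2 : x ∈ S j <;> simp [Set.indicator_apply, h1, h2]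
      simp only
      rw [e]
      set k := ∑ i ∈ Finset.range L, (S i).indicator (fun _ => (1 : ℝ)) x with hk
      by_cases hx : x ∈ ⋃ i, S i
      · rw [Set.indicator_of_mem hx]
        nlinarith [sq_nonneg (k - 1)]
      · have hk0 : k = 0 := by
          rw [hk]
          refine Finset.sum_eq_zero fun i _ => ?_
          rw [Set.indicator_of_notMem]
          exact fun h => hx (Set.mem_iUnion.2 ⟨i, h⟩)
        rw [hk0, Set.indicator_of_notMem hx]
        norm_num
  rw [hv _ hU, integral_sub, integral_const_mul, integral_finsetSum, integral_finsetSum] at h1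
  · have e1 : ∀ i ∈ Finset.range L, ∫ x, (S i).indicator (fun _ => (1 : ℝ)) x ∂μ = μ.real (S i) :=
      fun i _ => hv _ (hS i)
    have e2 : ∀ i ∈ Finset.range L, ∫ x, ∑ j ∈ Finset.range L,
        (S i ∩ S j).indicator (fun _ => (1 : ℝ)) x ∂μ = ∑ j ∈ Finset.range L, μ.real (S i ∩ S j) := by
      intro i _
      rw [integral_finsetSum _ fun j _ => hI _ ((hS i).inter (hS j))]
      exact Finset.sum_congr rfl fun j _ => hv _ ((hS i).inter (hS j))
    rw [Finset.sum_congr rfl e1, Finset.sum_congr rfl e2] at h1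
    exact h1
  · exact fun i _ => integrable_finsetSum _ fun j _ => hI _ ((hS i).inter (hS j))
  · exact fun i _ => hI _ (hS i)
  · exact (integrable_finsetSum _ fun i _ => hI _ (hS i)).const_mul 2
  · exact integrable_finsetSum _ fun i _ => integrable_finsetSum _ fun j _ =>
        hI _ ((hS i).inter (hS j))

/-- **The tail asymptotics.** -/
theorem tail {μ : Measure ℝ} [IsFiniteMeasure μ] {S : ℕ → Set ℝ} (hS : ∀ m, MeasurableSet (S m))
    {c K : ℝ} (hc : Tendsto (fun m : ℕ => μ.real (S m) * (2 ^ m / (m + 1))) atTop (𝓝 c)) {M0 : ℕ}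
    (hpair : ∀ m ≥ M0, ∀ m' > m, μ.real (S m ∩ S m') ≤
      K * ((((m : ℝ) + 1) / 2 ^ m) * (((m' : ℝ) + 1) / 2 ^ m'))) :
    Tendsto (fun M : ℕ => μ.real (⋃ i : ℕ, S (M + i)) * (2 ^ M / (M + 2))) atTop (𝓝 (2 * c)) := by
  -- the scaled masses
  set sc : ℕ → ℝ := fun M => 2 ^ M / (M + 2) with hsc
  have hsc0 : ∀ M, 0 ≤ sc M := fun M => by positivity
  have hpt : ∀ i : ℕ, Tendsto (fun M : ℕ => μ.real (S (M + i)) * sc M) atTop
      (𝓝 (c * (1 / 2 : ℝ) ^ i)) := by
    intro i
    have h1 := (hc.comp (tendsto_add_atTop_nat i)).mul (scale_lim i)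
    refine h1.congr fun M => ?_
    simp only [Function.comp, hsc]
    push_cast
    have h2 : (M : ℝ) + i + 1 ≠ 0 := by positivity
    have h3 : (2 : ℝ) ^ (M + i) ≠ 0 := by positivity
    field_simp
  have hbd : ∃ N : ℕ, ∀ m ≥ N, μ.real (S m) ≤ (c + 1) * (((m : ℝ) + 1) / 2 ^ m) := by
    obtain ⟨N, hN⟩ := eventually_atTop.1 (hc.eventually (gt_mem_nhds (show c < c + 1 by linarith)))
    refine ⟨N, fun m hm => ?_⟩
    have h1 := hN m hm
    have h2 : (0 : ℝ) < 2 ^ m / (m + 1) := by positivity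
    rw [← lt_div_iff₀ h2] at h1
    refine h1.le.trans (le_of_eq ?_)
    field_simp
  obtain ⟨N, hN⟩ := hbd
  have hc1 : 0 ≤ c + 1 := by
    have h1 := (measureReal_nonneg (μ := μ) (s := S N)).trans (hN N le_rfl)
    have h2 : (0 : ℝ) < ((N : ℝ) + 1) / 2 ^ N := by positivity
    by_contra h
    push Not at h
    have := mul_neg_of_neg_of_pos h h2
    linarith
  have hsumb : Summable fun i : ℕ => (c + 1) * (((i : ℝ) + 1) / 2 ^ i) := summable_wt.mul_left _
  have hdom : ∀ᶠ M : ℕ in atTop, ∀ i : ℕ, ‖μ.real (S (M + i)) * sc M‖ ≤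
      (c + 1) * (((i : ℝ) + 1) / 2 ^ i) := by
    filter_upwards [eventually_ge_atTop N] with M hM i
    rw [Real.norm_eq_abs, abs_of_nonneg (mul_nonneg measureReal_nonneg (hsc0 M))]
    have h1 := hN (M + i) (by omega)
    calc μ.real (S (M + i)) * sc M ≤ (c + 1) * ((((M + i : ℕ) : ℝ) + 1) / 2 ^ (M + i)) * sc M :=
          mul_le_mul_of_nonneg_right h1 (hsc0 M)
      _ = (c + 1) * (((M + i : ℕ) + 1 : ℝ) / 2 ^ (M + i) * (2 ^ M / (M + 2))) := by
          simp only [hsc]; ring
      _ ≤ _ := mul_le_mul_of_nonneg_left (scale_le M i) hc1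
  have hser := tendsto_tsum_of_dominated_convergence hsumb hpt hdom
  have hgeo : ∑' i : ℕ, c * (1 / 2 : ℝ) ^ i = 2 * c := by
    rw [tsum_mul_left, tsum_geometric_two]
    ring
  rw [hgeo] at hser
  -- upper bound
  have hup : ∀ᶠ M : ℕ in atTop, μ.real (⋃ i : ℕ, S (M + i)) * sc M ≤
      ∑' i : ℕ, μ.real (S (M + i)) * sc M := by
    filter_upwards [hdom] with M hM
    rw [tsum_mul_right]
    refine mul_le_mul_of_nonneg_right ?_ (hsc0 M)
    have hscp : 0 < sc M := by simp only [hsc]; positivity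
    have hs : Summable fun i : ℕ => μ.real (S (M + i)) := by
      have h1 : Summable fun i : ℕ => μ.real (S (M + i)) * sc M :=
        Summable.of_norm_bounded hsumb hM
      have h2 := h1.mul_right (sc M)⁻¹
      refine h2.congr fun i => ?_
      rw [mul_assoc, mul_inv_cancel₀ hscp.ne', mul_one]
    have h3 := measure_iUnion_le (μ := μ) fun i : ℕ => S (M + i)
    have h4 : ∑' i : ℕ, μ (S (M + i)) = ENNReal.ofReal (∑' i : ℕ, μ.real (S (M + i))) := by
      rw [ENNReal.ofReal_tsum_of_nonneg (fun i => measureReal_nonneg) hs]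
      refine tsum_congr fun i => ?_
      rw [ofReal_measureReal]
    rw [h4] at h3
    exact ENNReal.toReal_le_of_le_ofReal (tsum_nonneg fun i => measureReal_nonneg) h3
  -- pairs
  have hpr : ∀ i j : ℕ, Tendsto (fun M : ℕ => μ.real (S (M + i) ∩ S (M + j)) * sc M) atTop
      (𝓝 (if i = j then c * (1 / 2 : ℝ) ^ i else 0)) := by
    have hlt : ∀ i j : ℕ, i < j → Tendsto (fun M : ℕ => μ.real (S (M + i) ∩ S (M + j)) * sc M) atTop
        (𝓝 0) := by
      intro i j hij
      have h1 : Tendsto (fun M : ℕ => (((M + i : ℕ) : ℝ) + 1) / 2 ^ (M + i) * sc M *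
          (|K| * ((((M + j : ℕ) : ℝ) + 1) / 2 ^ (M + j)))) atTop (𝓝 ((1 / 2 : ℝ) ^ i * (|K| * 0))) := by
        refine (scale_lim i).mul (Tendsto.const_mul _ ?_)
        have h2 := summable_wt.tendsto_atTop_zero.comp (tendsto_add_atTop_nat j)
        exact h2
      rw [mul_zero, mul_zero] at h1
      refine squeeze_zero' (Eventually.of_forall fun M => mul_nonneg measureReal_nonneg (hsc0 M)) ?_ h1
      filter_upwards [eventually_ge_atTop M0] with M hM
      have h3 := hpair (M + i) (by omega) (M + j) (by omega)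
      calc μ.real (S (M + i) ∩ S (M + j)) * sc M ≤
            (K * (((((M + i : ℕ) : ℝ) + 1) / 2 ^ (M + i)) * ((((M + j : ℕ) : ℝ) + 1) / 2 ^ (M + j)))) * sc M :=
            mul_le_mul_of_nonneg_right h3 (hsc0 M)
        _ ≤ (|K| * (((((M + i : ℕ) : ℝ) + 1) / 2 ^ (M + i)) * ((((M + j : ℕ) : ℝ) + 1) / 2 ^ (M + j)))) * sc M := by
            refine mul_le_mul_of_nonneg_right ?_ (hsc0 M)
            exact mul_le_mul_of_nonneg_right (le_abs_self K) (by positivity)
        _ = _ := by ring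
    intro i j
    rcases lt_trichotomy i j with h | h | h
    · rw [if_neg h.ne]
      exact hlt i j h
    · subst h
      rw [if_pos rfl]
      simp only [Set.inter_self]
      exact hpt i
    · rw [if_neg h.ne']
      refine (hlt j i h).congr fun M => ?_
      rw [Set.inter_comm]
  -- lower bound
  have hlowL : ∀ L : ℕ, Tendsto (fun M : ℕ => (2 * (∑ i ∈ Finset.range L, μ.real (S (M + i))) -
      ∑ i ∈ Finset.range L, ∑ j ∈ Finset.range L, μ.real (S (M + i) ∩ S (M + j))) * sc M) atTop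
      (𝓝 (c * ∑ i ∈ Finset.range L, (1 / 2 : ℝ) ^ i)) := by
    intro L
    have h1 : Tendsto (fun M : ℕ => 2 * (∑ i ∈ Finset.range L, μ.real (S (M + i)) * sc M) -
        ∑ i ∈ Finset.range L, ∑ j ∈ Finset.range L, μ.real (S (M + i) ∩ S (M + j)) * sc M) atTop
        (𝓝 (2 * (∑ i ∈ Finset.range L, c * (1 / 2 : ℝ) ^ i) -
          ∑ i ∈ Finset.range L, ∑ j ∈ Finset.range L, if i = j then c * (1 / 2 : ℝ) ^ i else 0)) := by
      refine Tendsto.sub (Tendsto.const_mul _ (tendsto_finsetSum _ fun i _ => hpt i)) ?_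
      exact tendsto_finsetSum _ fun i _ => tendsto_finsetSum _ fun j _ => hpr i j
    have e1 : 2 * (∑ i ∈ Finset.range L, c * (1 / 2 : ℝ) ^ i) -
          ∑ i ∈ Finset.range L, ∑ j ∈ Finset.range L, (if i = j then c * (1 / 2 : ℝ) ^ i else 0) =
        c * ∑ i ∈ Finset.range L, (1 / 2 : ℝ) ^ i := by
      have e2 : ∀ i ∈ Finset.range L, ∑ j ∈ Finset.range L, (if i = j then c * (1 / 2 : ℝ) ^ i else 0) =
          c * (1 / 2 : ℝ) ^ i := by
        intro i hi
        rw [Finset.sum_ite_eq, if_pos hi]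
      rw [Finset.sum_congr rfl e2, ← Finset.mul_sum]
      ring
    rw [e1] at h1
    refine h1.congr fun M => ?_
    rw [sub_mul, mul_assoc, Finset.sum_mul, Finset.sum_mul]
    congr 1
    refine Finset.sum_congr rfl fun i _ => ?_
    rw [Finset.sum_mul]
  have hgeoL : Tendsto (fun L : ℕ => c * ∑ i ∈ Finset.range L, (1 / 2 : ℝ) ^ i) atTop (𝓝 (2 * c)) := by
    have h1 := (hasSum_geometric_two).tendsto_sum_nat.const_mul c
    rw [mul_comm c 2] at h1
    exact h1
  rw [tendsto_order]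
  constructor
  · intro b hb
    obtain ⟨L, hL⟩ := (hgeoL.eventually (lt_mem_nhds hb)).exists
    filter_upwards [(hlowL L).eventually (lt_mem_nhds hL)] with M hM
    refine hM.trans_le (mul_le_mul_of_nonneg_right ?_ (hsc0 M))
    exact bonf (fun i => hS (M + i)) L
  · intro b hb
    filter_upwards [hser.eventually (gt_mem_nhds hb), hup] with M h1 h2
    exact h2.trans_lt h1

end Pool.Agent.X173.Fer
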