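import Mathlib
import Pool.Agent.X173.FerC

set_option autoImplicit false

/-!
# The tail asymptotics: the shift family
-/

namespace Pool.Agent.X173.Fer

open Filter Topology MeasureTheory
open scoped ENNReal
open Pool.Agent.H305R2 (roughPart NN ff measurable_ff ff_nonneg ff_le_one integrableOn_ff bounds)
open Pool.Agent.H447R2.ML

/-- the shift family -/
lemma sh_fam {a : ℝ} (ha : 0 < a) (a0 a1 : ℝ) : ∀ᶠ p : ℕ in atTop, Sh a a0 a1 p
    (fun u => Real.log (Real.exp (a * p + u) + 1))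
    (fun u => Real.exp (a * p + u) / (Real.exp (a * p + u) + 1)) := by
  filter_upwards [hdecay 1 a (Real.exp a0) ha (Real.exp_pos _), eventually_ge_atTop 1] with p hp hp1
  have hp0 : (0 : ℝ) < p := by exact_mod_cast hp1
  have key : ∀ u ∈ Set.Icc a0 a1, Real.exp (-(a * p + u)) ≤ 1 / p := by
    intro u hu
    rw [le_div_iff₀ hp0]
    have h1 : Real.exp (-(a * p + u)) ≤ Real.exp (-(a * p)) * Real.exp (-a0) := by
      rw [← Real.exp_add]
      exact Real.exp_le_exp.2 (by linarith [hu.1])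
    calc Real.exp (-(a * p + u)) * p ≤ (Real.exp (-(a * p)) * Real.exp (-a0)) * p := by gcongr
      _ = ((p : ℝ) ^ 1 * Real.exp (-(a * p))) * Real.exp (-a0) := by ring
      _ ≤ Real.exp a0 * Real.exp (-a0) := by gcongr
      _ = 1 := by rw [← Real.exp_add]; simp
  refine ⟨fun u hu => ?_, fun u hu => ?_, fun u hu => ?_⟩
  · have h1 : Real.log (Real.exp (a * p + u) + 1) - (a * p + u) =
        Real.log (1 + Real.exp (-(a * p + u))) := by
      have h2 : Real.exp (a * p + u) + 1 = Real.exp (a * p + u) * (1 + Real.exp (-(a * p + u))) := by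
        rw [mul_add, ← Real.exp_add]; simp
      rw [h2, Real.log_mul (Real.exp_pos _).ne' (by positivity), Real.log_exp]
      ring
    rw [h1, abs_of_nonneg (Real.log_nonneg (by linarith [Real.exp_pos (-(a * p + u))]))]
    have h3 := Real.log_le_sub_one_of_pos (show 0 < 1 + Real.exp (-(a * p + u)) by positivity)
    linarith [key u hu]
  · have h1 : HasDerivAt (fun u : ℝ => a * p + u) 1 u := (hasDerivAt_id u).const_add _
    have h2 := (h1.exp.add_const (1 : ℝ)).log (by positivity)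
    simpa using h2
  · have h1 : Real.exp (a * p + u) / (Real.exp (a * p + u) + 1) - 1 =
        -(1 / (Real.exp (a * p + u) + 1)) := by
      field_simp
      ring
    rw [h1, abs_neg, abs_of_pos (by positivity)]
    refine le_trans ?_ (key u hu)
    rw [Real.exp_neg, one_div]
    exact inv_anti₀ (Real.exp_pos _) (by linarith)

lemma fl_ff (a : ℝ) (p : ℕ) : ∀ᵐ u : ℝ, fl g1 p (a * p + u) =
    ff p (Real.log (Real.exp (a * p + u) + 1)) := by
  have h1 := (measurePreserving_add_left (volume : Measure ℝ) (a * p)).quasiMeasurePreserving.ae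
    (fl_ae g1 p)
  filter_upwards [h1] with u hu
  exact hu (by unfold g1; positivity)

/-- the set of the shifts for which the rough part at level `m` is prime -/
def SS (a : ℝ) (m : ℕ) : Set ℝ :=
  {u : ℝ | fl g1 (2 ^ (m + 1)) (a * ((2 ^ (m + 1) : ℕ) : ℝ) + u) = 1}

lemma SS_meas (a : ℝ) (m : ℕ) : MeasurableSet (SS a m) :=
  ((measurable_fl g1 (2 ^ (m + 1))).comp (measurable_const_add _)) (measurableSet_singleton 1)

lemma SS_ind (a : ℝ) (m : ℕ) (u : ℝ) : (SS a m).indicator (fun _ => (1 : ℝ)) u =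
    fl g1 (2 ^ (m + 1)) (a * ((2 ^ (m + 1) : ℕ) : ℝ) + u) := by
  rcases fl01 (2 ^ (m + 1)) (a * ((2 ^ (m + 1) : ℕ) : ℝ) + u) with h | h
  · rw [h, Set.indicator_of_notMem]
    intro h1
    have h2 : fl g1 (2 ^ (m + 1)) (a * ((2 ^ (m + 1) : ℕ) : ℝ) + u) = 1 := h1
    rw [h] at h2
    norm_num at h2
  · rw [h, Set.indicator_of_mem (show u ∈ SS a m from h)]

lemma SS_real (a s t : ℝ) (m : ℕ) : ((volume : Measure ℝ).restrict (Set.Ioc s t)).real (SS a m) =
    ∫ u in Set.Ioc s t, fl g1 (2 ^ (m + 1)) (a * ((2 ^ (m + 1) : ℕ) : ℝ) + u) := by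
  have h1 : ∫ u in Set.Ioc s t, (SS a m).indicator (fun _ => (1 : ℝ)) u =
      ((volume : Measure ℝ).restrict (Set.Ioc s t)).real (SS a m) := by
    rw [integral_indicator_const _ (SS_meas a m)]
    simp
  rw [← h1]
  exact integral_congr_ae (Eventually.of_forall fun u => SS_ind a m u)

lemma SS_real2 (a s t : ℝ) (m m' : ℕ) :
    ((volume : Measure ℝ).restrict (Set.Ioc s t)).real (SS a m ∩ SS a m') =
    ∫ u in Set.Ioc s t, ff (2 ^ (m + 1)) (Real.log (Real.exp (a * ((2 ^ (m + 1) : ℕ) : ℝ) + u) + 1)) *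
      ff (2 ^ (m' + 1)) (Real.log (Real.exp (a * ((2 ^ (m' + 1) : ℕ) : ℝ) + u) + 1)) := by
  have h1 : ∫ u in Set.Ioc s t, (SS a m ∩ SS a m').indicator (fun _ => (1 : ℝ)) u =
      ((volume : Measure ℝ).restrict (Set.Ioc s t)).real (SS a m ∩ SS a m') := by
    rw [integral_indicator_const _ ((SS_meas a m).inter (SS_meas a m'))]
    simp
  rw [← h1]
  refine integral_congr_ae (ae_restrict_of_ae ?_)
  filter_upwards [fl_ff a (2 ^ (m + 1)), fl_ff a (2 ^ (m' + 1))] with u h2 h3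
  rw [← h2, ← h3, ← SS_ind, ← SS_ind]
  by_cases h4 : u ∈ SS a m <;> by_cases h5 : u ∈ SS a m' <;> simp [h4, h5]

/-- **The probability at level `m`.** -/
theorem prob_level {a s t : ℝ} (ha : 0 < a) (hst : s < t) :
    Tendsto (fun m : ℕ => ((volume : Measure ℝ).restrict (Set.Ioc s t)).real (SS a m) *
      (2 ^ m / (m + 1))) atTop
      (𝓝 (Real.exp Real.eulerMascheroniConstant * (t - s) / a * (Real.log 2 / 2))) := by
  have h1 := asymp_w ha hst (fun p : ℕ => a * p) (by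
    refine tendsto_const_nhds.congr' ?_
    filter_upwards [eventually_ge_atTop 1] with p hp
    have : (p : ℝ) ≠ 0 := by exact_mod_cast (by omega : p ≠ 0)
    field_simp)
  have h2 : Tendsto (fun m : ℕ => 2 ^ (m + 1)) atTop atTop :=
    (tendsto_pow_atTop_atTop_of_one_lt (r := 2) (by norm_num)).comp (tendsto_add_atTop_nat 1)
  have h3 := (h1.comp h2).mul_const (Real.log 2 / 2)
  refine h3.congr fun m => ?_
  rw [SS_real]
  simp only [Function.comp]
  have h4 := wt_pow m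
  have h5 : ((2 ^ (m + 1) : ℕ) : ℝ) / Real.log ((2 ^ (m + 1) : ℕ) : ℝ) * (Real.log 2 / 2) =
      2 ^ m / (m + 1) := by
    have h6 : ((2 ^ (m + 1) : ℕ) : ℝ) / Real.log ((2 ^ (m + 1) : ℕ) : ℝ) =
        (Real.log ((2 ^ (m + 1) : ℕ) : ℝ) / ((2 ^ (m + 1) : ℕ) : ℝ))⁻¹ := by
      rw [inv_div]
    rw [h6, h4]
    have : Real.log 2 ≠ 0 := (Real.log_pos (by norm_num)).ne'
    field_simp
  rw [mul_assoc, h5]

/-- pairs of levels -/
lemma pairs {a : ℝ} (ha : 0 < a) (s t : ℝ) (hst : s < t) : ∃ K : ℝ, ∃ M0 : ℕ, ∀ m ≥ M0, ∀ m' > m,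
    ((volume : Measure ℝ).restrict (Set.Ioc s t)).real (SS a m ∩ SS a m') ≤
      K * ((((m : ℝ) + 1) / 2 ^ m) * (((m' : ℝ) + 1) / 2 ^ m')) := by
  obtain ⟨K, hK, P, hP⟩ := pair_bound_sh (a := a) (a0 := s - 1) (a1 := t + 1) (b0 := s) (b1 := t) ha
    (by linarith) (by linarith)
  obtain ⟨P1, hP1⟩ := eventually_atTop.1 (sh_fam ha (s - 1) (t + 1))
  have hgap : ∀ᶠ q : ℕ in atTop, 64 / a * (Real.log q * Real.log (Real.log q)) ≤ q / 2 := by
    have h1 : ∀ᶠ x : ℝ in atTop, 64 / a * (Real.log x * Real.log (Real.log x)) ≤ x / 2 := by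
      have h2 : ∀ᶠ x : ℝ in atTop, (Real.log x) ^ 2 ≤ 1 / (2 * (64 / a)) * x := by
        have h3 := (Real.isLittleO_pow_log_id_atTop (n := 2)).bound
          (show (0 : ℝ) < 1 / (2 * (64 / a)) by positivity)
        filter_upwards [h3, eventually_gt_atTop 0] with x hx hx0
        rw [Real.norm_eq_abs, Real.norm_eq_abs, abs_of_nonneg (by positivity)] at hx
        simpa [abs_of_pos hx0] using hx
      filter_upwards [h2, Real.tendsto_log_atTop.eventually_ge_atTop 1, eventually_gt_atTop 0]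
        with x hx hx1 hx0
      have h4 : Real.log (Real.log x) ≤ Real.log x := by
        have := Real.log_le_sub_one_of_pos (show 0 < Real.log x by linarith)
        linarith
      calc 64 / a * (Real.log x * Real.log (Real.log x)) ≤ 64 / a * (Real.log x * Real.log x) := by gcongr
        _ = 64 / a * (Real.log x) ^ 2 := by ring
        _ ≤ 64 / a * (1 / (2 * (64 / a)) * x) := by gcongr
        _ = x / 2 := by field_simp
    exact tendsto_natCast_atTop_atTop.eventually h1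
  obtain ⟨P2, hP2⟩ := eventually_atTop.1 hgap
  refine ⟨K * ((t - s) + 1) * (Real.log 2 / 2) * (2 * (Real.log 2 / 2)), P + P1 + P2,
    fun m hm m' hm' => ?_⟩
  rw [SS_real2]
  have hpow : ∀ k : ℕ, k < 2 ^ (k + 1) := fun k =>
    lt_of_lt_of_le Nat.lt_two_pow_self (Nat.pow_le_pow_right (by norm_num) (by omega))
  have hm1 := hpow m
  have hm2 := hpow m'
  have hpq : 2 * 2 ^ (m + 1) ≤ 2 ^ (m' + 1) := by
    rw [← pow_succ']
    exact Nat.pow_le_pow_right (by norm_num) (by omega)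
  have hp0 : (0 : ℝ) < ((2 ^ (m + 1) : ℕ) : ℝ) := by positivity
  have hp1 : (1 : ℝ) ≤ ((2 ^ (m + 1) : ℕ) : ℝ) := by exact_mod_cast Nat.one_le_two_pow
  have hq0 : (0 : ℝ) < ((2 ^ (m' + 1) : ℕ) : ℝ) := by positivity
  have hpq' : 2 * ((2 ^ (m + 1) : ℕ) : ℝ) ≤ ((2 ^ (m' + 1) : ℕ) : ℝ) := by exact_mod_cast hpq
  have h1 := hP (2 ^ (m + 1)) (2 ^ (m' + 1)) (by omega) (by omega) _ _ _ _
    (hP1 (2 ^ (m + 1)) (by omega)) (hP1 (2 ^ (m' + 1)) (by omega))
    (by
      have := hP2 (2 ^ (m' + 1)) (by omega)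
      linarith) s t le_rfl hst.le le_rfl
  refine h1.trans ?_
  have hlq : 0 ≤ Real.log ((2 ^ (m' + 1) : ℕ) : ℝ) := Real.log_natCast_nonneg _
  have h2 : Real.log ((2 ^ (m' + 1) : ℕ) : ℝ) / (((2 ^ (m' + 1) : ℕ) : ℝ) - ((2 ^ (m + 1) : ℕ) : ℝ)) ≤
      2 * (Real.log ((2 ^ (m' + 1) : ℕ) : ℝ) / ((2 ^ (m' + 1) : ℕ) : ℝ)) := by
    calc _ ≤ Real.log ((2 ^ (m' + 1) : ℕ) : ℝ) / (((2 ^ (m' + 1) : ℕ) : ℝ) / 2) :=
          div_le_div_of_nonneg_left hlq (by positivity) (by linarith)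
      _ = _ := by field_simp
  have h3 : (t - s) + 1 / ((2 ^ (m + 1) : ℕ) : ℝ) ≤ (t - s) + 1 := by
    have : 1 / ((2 ^ (m + 1) : ℕ) : ℝ) ≤ 1 := by rw [div_le_one hp0]; exact hp1
    linarith
  have h4 : 0 ≤ Real.log ((2 ^ (m + 1) : ℕ) : ℝ) / ((2 ^ (m + 1) : ℕ) : ℝ) :=
    div_nonneg (Real.log_natCast_nonneg _) hp0.le
  have h5 : 0 ≤ Real.log ((2 ^ (m' + 1) : ℕ) : ℝ) /
      (((2 ^ (m' + 1) : ℕ) : ℝ) - ((2 ^ (m + 1) : ℕ) : ℝ)) := div_nonneg hlq (by linarith)
  have h6 : 0 ≤ t - s := by linarith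
  calc K * ((t - s) + 1 / ((2 ^ (m + 1) : ℕ) : ℝ)) *
        (Real.log ((2 ^ (m + 1) : ℕ) : ℝ) / ((2 ^ (m + 1) : ℕ) : ℝ)) *
        (Real.log ((2 ^ (m' + 1) : ℕ) : ℝ) / (((2 ^ (m' + 1) : ℕ) : ℝ) - ((2 ^ (m + 1) : ℕ) : ℝ))) ≤
      K * ((t - s) + 1) * (Real.log ((2 ^ (m + 1) : ℕ) : ℝ) / ((2 ^ (m + 1) : ℕ) : ℝ)) *
        (2 * (Real.log ((2 ^ (m' + 1) : ℕ) : ℝ) / ((2 ^ (m' + 1) : ℕ) : ℝ))) := by
        gcongr
    _ = _ := by
        rw [wt_pow, wt_pow]
        ring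

/-- **The probability of a prime at some level `≥ M`.** -/
theorem prob_tail {a s t : ℝ} (ha : 0 < a) (hst : s < t) :
    Tendsto (fun M : ℕ => ((volume : Measure ℝ).restrict (Set.Ioc s t)).real (⋃ i : ℕ, SS a (M + i)) *
      (2 ^ M / (M + 2))) atTop
      (𝓝 (2 * (Real.exp Real.eulerMascheroniConstant * (t - s) / a * (Real.log 2 / 2)))) := by
  obtain ⟨K, M0, h⟩ := pairs ha s t hst
  have hfin : IsFiniteMeasure ((volume : Measure ℝ).restrict (Set.Ioc s t)) := ⟨by simp⟩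
  exact tail (SS_meas a) (prob_level ha hst) h

end Pool.Agent.X173.Fer
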