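import Mathlib
import Pool.Agent.X173.FerD

set_option autoImplicit false

/-!
# Metric theorems for the analogues of the Fermat numbers
-/

namespace Pool.Agent.X173.Fer

open Filter Topology MeasureTheory
open scoped ENNReal
open Pool.Agent.H305R2 (roughPart)
open Pool.Agent.H447R2.ML

/-- The `2 ^ (m + 1)`-rough part of `⌊β x ^ (2 ^ m)⌋ + 1`. -/
noncomputable def W (x β : ℝ) (m : ℕ) : ℕ := roughPart (2 ^ (m + 1)) (⌊β * x ^ 2 ^ m⌋₊ + 1)

lemma W_base {b : ℕ} (hb : Even b) (hb0 : 0 < b) (m : ℕ) : W b 1 m = b ^ 2 ^ m + 1 := by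
  unfold W
  have e : ⌊(1 : ℝ) * (b : ℝ) ^ 2 ^ m⌋₊ = b ^ 2 ^ m := by
    rw [one_mul]
    have : ((b : ℝ) ^ 2 ^ m) = ((b ^ 2 ^ m : ℕ) : ℝ) := by push_cast; rfl
    rw [this, Nat.floor_natCast]
  rw [e]
  refine roughPart_eq_self (by omega) fun q hq hd => ?_
  have hodd : Odd (b ^ 2 ^ m + 1) := (hb.pow_of_ne_zero (pow_pos two_pos m).ne').add_one
  have hq2 : q ≠ 2 := hodd.ne_two_of_dvd_nat hd
  obtain ⟨k, hk⟩ := Nat.pow_pow_add_primeFactors_one_lt hq hq2 hd
  have hk0 : k ≠ 0 := by
    rintro rfl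
    rw [zero_mul, zero_add] at hk
    exact hq.one_lt.ne' hk
  have : 2 ^ (m + 1) ≤ k * 2 ^ (m + 1) := Nat.le_mul_of_pos_left _ (Nat.pos_of_ne_zero hk0)
  omega

/-- the indicator in terms of `fl` -/
lemma W_fl {x β t : ℝ} (m : ℕ) (h : Real.exp t = β * x ^ 2 ^ m) :
    (W x β m).Prime ↔ fl g1 (2 ^ (m + 1)) t = 1 := by
  unfold fl g1 W
  rw [Nat.floor_add_one (Real.exp_pos t).le, h]
  split_ifs with h1
  · exact iff_of_true h1 rfl
  · exact iff_of_false h1 (by norm_num)

lemma exp_arg {x : ℝ} (hx : 0 < x) (u : ℝ) (m : ℕ) :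
    Real.exp (Real.log x / 2 * ((2 ^ (m + 1) : ℕ) : ℝ) + u) = Real.exp u * x ^ 2 ^ m := by
  rw [Real.exp_add, mul_comm]
  congr 1
  have e : Real.log x / 2 * ((2 ^ (m + 1) : ℕ) : ℝ) = ((2 ^ m : ℕ) : ℝ) * Real.log x := by
    push_cast
    rw [pow_succ]
    ring
  rw [e, Real.exp_nat_mul, Real.exp_log hx]

lemma W_SS {x : ℝ} (hx : 0 < x) (u : ℝ) (m : ℕ) :
    (W x (Real.exp u) m).Prime ↔ u ∈ SS (Real.log x / 2) m :=
  W_fl m (exp_arg hx u m)

lemma ae_exp1 {P : ℝ → Prop} (h : ∀ᵐ u : ℝ, P (Real.exp u)) : ∀ᵐ β : ℝ, 0 < β → P β := by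
  rw [ae_iff] at h ⊢
  set B : Set ℝ := {u : ℝ | ¬ P (Real.exp u)} with hB
  have h1 : volume (Real.exp '' B) = 0 :=
    addHaar_image_eq_zero_of_differentiableOn_of_addHaar_eq_zero volume
      Real.differentiable_exp.differentiableOn h
  refine measure_mono_null ?_ h1
  intro z hz
  simp only [Set.mem_ofPred_eq, Classical.not_imp] at hz
  obtain ⟨hz1, hz2⟩ := hz
  refine ⟨Real.log z, ?_, Real.exp_log hz1⟩
  simp only [hB, Set.mem_ofPred_eq]
  rw [Real.exp_log hz1]
  exact hz2

/-- **Every base, almost every amplitude.** -/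
theorem fin_amp {x : ℝ} (hx : 1 < x) : ∀ᵐ β : ℝ, 0 < β → {m : ℕ | (W x β m).Prime}.Finite := by
  have hx0 : 0 < x := by linarith
  have hlog : 0 < Real.log x := Real.log_pos hx
  refine ae_exp1 ?_
  have hwin : ∀ j : ℤ, ∀ᵐ u : ℝ, u ∈ Set.Ioc (j : ℝ) (j + 1) →
      {m : ℕ | (W x (Real.exp u) m).Prime}.Finite := by
    intro j
    have hpow : Tendsto (fun m : ℕ => ((2 ^ (m + 1) : ℕ) : ℝ)) atTop atTop := by
      refine tendsto_natCast_atTop_atTop.comp ?_
      exact (tendsto_pow_atTop_atTop_of_one_lt (r := 2) (by norm_num)).comp (tendsto_add_atTop_nat 1)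
    obtain ⟨M, hM⟩ := eventually_atTop.1
      ((hpow.const_mul_atTop (show 0 < Real.log x / 4 by positivity)).eventually_ge_atTop (2 - j))
    have h1 := fin_phase (c := (j : ℝ)) (d := (j : ℝ) + 1) (c0 := Real.log x / 4) (L := 2)
      (by linarith) (by positivity) (by norm_num)
      (y := fun m u => Real.log x / 2 * ((2 ^ (m + 1) : ℕ) : ℝ) + u) (y' := fun _ _ => 1)
      (η := fun _ => 1) (M := M) (fun m _ u _ => (hasDerivAt_id u).const_add _)
      (fun _ _ => one_pos) (fun _ _ _ _ => le_rfl)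
      (fun m hm => by
        have := hM m hm
        nlinarith)
      (fun m _ => by ring_nf; norm_num)
    filter_upwards [h1] with u hu hj
    refine (hu hj).subset fun m hm => ?_
    exact (W_SS hx0 u m).1 hm
  filter_upwards [ae_all_iff.2 hwin] with u hu
  refine hu (⌈u⌉ - 1) ⟨?_, ?_⟩
  · push_cast
    linarith [Int.ceil_lt_add_one u]
  · push_cast
    linarith [Int.le_ceil u]

/-- **Every positive `C ^ 1` curve of amplitudes, almost every base.** -/
theorem fin_curve {A : ℝ → ℝ} (hA : ContDiffOn ℝ 1 A (Set.Ioi 1)) (hpos : ∀ x : ℝ, 1 < x → 0 < A x) :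
    ∀ᵐ x : ℝ, 1 < x → {m : ℕ | (W x (A x) m).Prime}.Finite := by
  have hder : ∀ x : ℝ, 1 < x → HasDerivAt A (deriv A x) x := fun x hx =>
    ((hA.differentiableOn (by norm_num)).differentiableAt (Ioi_mem_nhds hx)).hasDerivAt
  have hcd : ContinuousOn (deriv A) (Set.Ioi 1) := hA.continuousOn_deriv_of_isOpen isOpen_Ioi le_rfl
  have hwin : ∀ k : ℕ, ∀ᵐ x : ℝ, x ∈ Set.Ioc (1 + 1 / ((k : ℝ) + 1)) ((k : ℝ) + 3) →
      {m : ℕ | (W x (A x) m).Prime}.Finite := by
    intro k
    set c : ℝ := 1 + 1 / ((k : ℝ) + 1) with hc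
    set d : ℝ := (k : ℝ) + 3 with hd
    have hk0 : (0 : ℝ) ≤ k := Nat.cast_nonneg k
    have hc1 : 1 < c := by
      have : 0 < 1 / ((k : ℝ) + 1) := by positivity
      linarith
    have hcd' : c ≤ d := by
      have : 1 / ((k : ℝ) + 1) ≤ 1 := by rw [div_le_one (by linarith)]; linarith
      linarith
    have hd0 : 0 < d := by linarith
    have hlc : 0 < Real.log c := Real.log_pos hc1
    have hsub : Set.Icc c d ⊆ Set.Ioi 1 := fun x hx => hc1.trans_le hx.1
    -- bound of the logarithmic derivative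
    obtain ⟨B, hB⟩ := (isCompact_Icc (a := c) (b := d)).exists_bound_of_continuousOn
      (f := fun x => deriv A x / A x)
      ((hcd.mono hsub).div (fun x hx => (hder x (hsub hx)).continuousAt.continuousWithinAt)
        fun x hx => (hpos x (hsub hx)).ne')
    have hpow : Tendsto (fun m : ℕ => (2 : ℝ) ^ m) atTop atTop :=
      tendsto_pow_atTop_atTop_of_one_lt (by norm_num)
    obtain ⟨M1, hM1⟩ := eventually_atTop.1 (hpow.eventually_ge_atTop (2 * d * B))
    obtain ⟨M2, hM2⟩ := eventually_atTop.1 ((hpow.const_mul_atTop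
      (show 0 < Real.log c / 2 by positivity)).eventually_ge_atTop (2 - Real.log (A c)))
    set B' : ℝ := |Real.log (A d) - Real.log (A c)| with hB'
    have hld : Real.log c ≤ Real.log d := Real.log_le_log (by linarith) hcd'
    have h1 := fin_phase (c := c) (d := d) (c0 := Real.log c / 4)
      (L := 2 * d * ((Real.log d - Real.log c) + B' + 1)) hcd' (by positivity)
      (by
        have : 0 ≤ B' := abs_nonneg _
        have h2 : 0 ≤ Real.log d - Real.log c := by linarith
        positivity)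
      (y := fun m x => 2 ^ m * Real.log x + Real.log (A x))
      (y' := fun m x => 2 ^ m * x⁻¹ + deriv A x / A x)
      (η := fun m => 2 ^ m / (2 * d)) (M := M1 + M2)
      (fun m _ x hx => by
        have hx1 : 1 < x := hsub hx
        exact ((Real.hasDerivAt_log (by linarith)).const_mul _).add
          ((hder x hx1).log (hpos x hx1).ne'))
      (fun m _ => by positivity)
      (fun m hm x hx => by
        have hx1 : 1 < x := hsub hx
        have h2 := hB x hx
        rw [Real.norm_eq_abs] at h2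
        have h3 := (abs_le.1 h2).1
        have h4 : (2 : ℝ) ^ m / d ≤ 2 ^ m * x⁻¹ := by
          rw [div_eq_mul_inv]
          have : d⁻¹ ≤ x⁻¹ := inv_anti₀ (by linarith) hx.2
          gcongr
        have h5 := hM1 m (by omega)
        have h6 : B ≤ 2 ^ m / (2 * d) := by
          rw [le_div_iff₀ (by positivity)]
          linarith
        have h7 : (2 : ℝ) ^ m / d = 2 ^ m / (2 * d) + 2 ^ m / (2 * d) := by
          field_simp
          ring
        linarith)
      (fun m hm => by
        have h2 := hM2 m (by omega)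
        push_cast
        rw [pow_succ]
        linarith)
      (fun m _ => by
        have h2 : (1 : ℝ) ≤ 2 ^ m := one_le_pow₀ (by norm_num)
        have h3 : Real.log (A d) - Real.log (A c) ≤ B' := le_abs_self _
        have h4 : 0 ≤ B' := abs_nonneg _
        have h5 : 2 * d * ((Real.log d - Real.log c) + B' + 1) * (2 ^ m / (2 * d)) =
            2 ^ m * (Real.log d - Real.log c) + 2 ^ m * B' + 2 ^ m := by
          field_simp
        rw [h5]
        nlinarith)
    filter_upwards [h1] with x hx hxI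
    refine (hx hxI).subset fun m hm => ?_
    have hx1 : 1 < x := hsub ⟨hxI.1.le, hxI.2⟩
    refine (W_fl m ?_).1 hm
    rw [Real.exp_add, Real.exp_log (hpos x hx1), mul_comm (A x)]
    congr 1
    have e : (2 : ℝ) ^ m * Real.log x = ((2 ^ m : ℕ) : ℝ) * Real.log x := by push_cast; rfl
    rw [e, Real.exp_nat_mul, Real.exp_log (by linarith)]
  filter_upwards [ae_all_iff.2 hwin] with x hx hx1
  obtain ⟨k1, hk1⟩ := exists_nat_gt (1 / (x - 1))
  obtain ⟨k2, hk2⟩ := exists_nat_gt x
  refine hx (k1 + k2) ⟨?_, ?_⟩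
  · have h2 : 0 < x - 1 := by linarith
    rw [div_lt_iff₀ h2] at hk1
    have h3 : (0 : ℝ) ≤ k2 := Nat.cast_nonneg k2
    have h4 : (0 : ℝ) ≤ k1 := Nat.cast_nonneg k1
    have h5 : 1 / (((k1 + k2 : ℕ) : ℝ) + 1) < x - 1 := by
      rw [div_lt_iff₀ (by positivity)]
      push_cast
      nlinarith
    linarith
  · push_cast
    have h4 : (0 : ℝ) ≤ k1 := Nat.cast_nonneg k1
    linarith

/-- **The probability at level `m`.** -/
theorem level {x s t : ℝ} (hx : 1 < x) (hst : s < t) :
    Tendsto (fun m : ℕ => volume.real {u : ℝ | u ∈ Set.Ioc s t ∧ (W x (Real.exp u) m).Prime} *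
      (2 ^ m / (m + 1))) atTop
      (𝓝 ((t - s) * Real.exp Real.eulerMascheroniConstant * Real.log 2 / Real.log x)) := by
  have hx0 : 0 < x := by linarith
  have hlog : 0 < Real.log x := Real.log_pos hx
  have h := prob_level (a := Real.log x / 2) (by positivity) hst
  have e : Real.exp Real.eulerMascheroniConstant * (t - s) / (Real.log x / 2) * (Real.log 2 / 2) =
      (t - s) * Real.exp Real.eulerMascheroniConstant * Real.log 2 / Real.log x := by
    field_simp
  rw [e] at h
  refine h.congr fun m => ?_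
  congr 1
  rw [measureReal_restrict_apply (SS_meas _ m)]
  congr 1
  ext u
  simp only [Set.mem_inter_iff, Set.mem_ofPred_eq]
  rw [W_SS hx0 u m]
  exact and_comm

/-- **The probability of a prime at some level `≥ M`.** -/
theorem levels {x s t : ℝ} (hx : 1 < x) (hst : s < t) :
    Tendsto (fun M : ℕ => volume.real {u : ℝ | u ∈ Set.Ioc s t ∧ ∃ m ≥ M, (W x (Real.exp u) m).Prime} *
      (2 ^ M / (M + 2))) atTop
      (𝓝 (2 * (t - s) * Real.exp Real.eulerMascheroniConstant * Real.log 2 / Real.log x)) := by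
  have hx0 : 0 < x := by linarith
  have hlog : 0 < Real.log x := Real.log_pos hx
  have h := prob_tail (a := Real.log x / 2) (by positivity) hst
  have e : 2 * (Real.exp Real.eulerMascheroniConstant * (t - s) / (Real.log x / 2) * (Real.log 2 / 2)) =
      2 * (t - s) * Real.exp Real.eulerMascheroniConstant * Real.log 2 / Real.log x := by
    field_simp
  rw [e] at h
  refine h.congr fun M => ?_
  congr 1
  rw [measureReal_restrict_apply (MeasurableSet.iUnion fun i => SS_meas _ _)]
  congr 1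
  ext u
  simp only [Set.mem_inter_iff, Set.mem_iUnion, Set.mem_ofPred_eq]
  constructor
  · rintro ⟨⟨i, hi⟩, hu⟩
    exact ⟨hu, M + i, by omega, (W_SS hx0 u _).2 hi⟩
  · rintro ⟨hu, m, hm, hp⟩
    refine ⟨⟨m - M, ?_⟩, hu⟩
    rw [Nat.add_sub_cancel' hm]
    exact (W_SS hx0 u m).1 hp

/-- **The residual set.** -/
theorem resid {x : ℝ} (hx : 1 < x) :
    ∀ᶠ β : ℝ in residual ℝ, 0 < β → {m : ℕ | (W x β m).Prime}.Infinite := by
  have hx0 : 0 < x := by linarith
  have hlog : 0 < Real.log x := Real.log_pos hx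
  set O : ℕ → Set ℝ := fun M => Set.Iio 0 ∪ interior {β : ℝ | 0 < β ∧ ∃ m ≥ M, (W x β m).Prime} with hO
  have hopen : ∀ M, IsOpen (O M) := fun M => isOpen_Iio.union isOpen_interior
  have hdense : ∀ M, Dense (O M) := by
    intro M
    rw [dense_iff_inter_open]
    intro U hU hne
    obtain ⟨b, hb⟩ := hne
    by_cases hb0 : b < 0
    · exact ⟨b, hb, Or.inl hb0⟩
    push Not at hb0
    obtain ⟨ε, hε, hball⟩ := Metric.isOpen_iff.1 hU b hb
    -- an interval of positive numbers in `U`
    set c := b + ε / 4 with hc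
    set d := b + ε / 2 with hd
    have hc0 : 0 < c := by linarith
    have hcd : c < d := by linarith
    have hd0 : 0 < d := by linarith
    have hlcd : Real.log c < Real.log d := Real.log_lt_log hc0 hcd
    have hlim := level hx hlcd
    have hpos : 0 < (Real.log d - Real.log c) * Real.exp Real.eulerMascheroniConstant *
        Real.log 2 / Real.log x := by
      have : 0 < Real.log 2 := Real.log_pos (by norm_num)
      have : 0 < Real.log d - Real.log c := by linarith
      positivity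
    obtain ⟨m, hm, hmM⟩ := ((hlim.eventually (lt_mem_nhds hpos)).and (eventually_ge_atTop M)).exists
    have hne : {u : ℝ | u ∈ Set.Ioc (Real.log c) (Real.log d) ∧ (W x (Real.exp u) m).Prime}.Nonempty := by
      by_contra h
      rw [Set.not_nonempty_iff_eq_empty] at h
      rw [h] at hm
      simp at hm
    obtain ⟨u, ⟨hu1, hu2⟩, hu3⟩ := hne
    set β0 := Real.exp u with hβ0
    have hβ1 : c < β0 := (Real.log_lt_iff_lt_exp hc0).1 hu1
    have hβ2 : β0 ≤ d := (Real.le_log_iff_exp_le hd0).1 hu2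
    -- to the right of `β0` the integer part is constant
    set T := x ^ 2 ^ m with hT
    have hT0 : 0 < T := by positivity
    set δ := (⌊β0 * T⌋₊ + 1 - β0 * T) / T with hδ
    have hδ0 : 0 < δ := by
      have := Nat.lt_floor_add_one (β0 * T)
      exact div_pos (by linarith) hT0
    have hconst : ∀ β ∈ Set.Ioo β0 (β0 + δ), (W x β m).Prime := by
      intro β hβ
      have h1 : β0 * T ≤ β * T := mul_le_mul_of_nonneg_right hβ.1.le hT0.le
      have h2 : β * T < ⌊β0 * T⌋₊ + 1 := by
        have h3 : (β0 + δ) * T = ⌊β0 * T⌋₊ + 1 := by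
          rw [hδ]; field_simp; ring
        rw [← h3]
        exact mul_lt_mul_of_pos_right hβ.2 hT0
      have h4 : ⌊β * T⌋₊ = ⌊β0 * T⌋₊ := by
        have hnn : 0 ≤ β0 * T := by positivity
        rw [Nat.floor_eq_iff (hnn.trans h1)]
        exact ⟨(Nat.floor_le hnn).trans h1, h2⟩
      unfold W at hu3 ⊢
      rw [h4]
      exact hu3
    set η := min δ (ε / 4) with hη
    have hη0 : 0 < η := lt_min hδ0 (by linarith)
    have hηδ : η ≤ δ := min_le_left _ _
    have hηε : η ≤ ε / 4 := min_le_right _ _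
    refine ⟨β0 + η / 2, hball ?_, Or.inr ?_⟩
    · rw [Metric.mem_ball, Real.dist_eq, abs_lt]
      constructor <;> linarith
    · rw [mem_interior]
      refine ⟨Set.Ioo β0 (β0 + η), fun β hβ => ⟨by linarith [hβ.1], m, hmM, hconst β ⟨hβ.1, by linarith [hβ.2]⟩⟩,
        isOpen_Ioo, by linarith, by linarith⟩
  have hres : (⋂ M, O M) ∈ residual ℝ :=
    countable_iInter_mem.2 fun M => residual_of_dense_open (hopen M) (hdense M)
  filter_upwards [hres] with β hβ hβ0
  rw [Set.mem_iInter] at hβ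
  refine Set.infinite_of_forall_exists_gt fun M => ?_
  rcases hβ (M + 1) with h | h
  · exact absurd h (not_lt.2 hβ0.le)
  · obtain ⟨_, m, hm, hp⟩ := interior_subset h
    exact ⟨m, hp, by omega⟩

end Pool.Agent.X173.Fer
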