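import Mathlib
import Pool.Agent.H491R3.PE.Basic

set_option autoImplicit false

namespace Pool.Agent.X173.NCB

open Real Filter Topology Set
open Pool.Agent.H491R3.PE

/-- bases with a coincidence up to `1 / (N + 1)` beyond `N`, and the numbers below `1` -/
def VV (L : ℝ) (N : ℕ) : Set ℝ :=
  Iio 1 ∪ {a : ℝ | 1 < a ∧ ∃ n : ℕ, N ≤ n ∧ ∃ m : ℕ, |a ^ n - exp L ^ m| < 1 / ((N : ℝ) + 1)}

lemma VV_open (L : ℝ) (N : ℕ) : IsOpen (VV L N) := by
  refine isOpen_Iio.union ?_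
  have e : {a : ℝ | 1 < a ∧ ∃ n : ℕ, N ≤ n ∧ ∃ m : ℕ, |a ^ n - exp L ^ m| < 1 / ((N : ℝ) + 1)} =
      Ioi 1 ∩ ⋃ n : ℕ, ⋃ (_ : N ≤ n), ⋃ m : ℕ,
        {a : ℝ | |a ^ n - exp L ^ m| < 1 / ((N : ℝ) + 1)} := by
    ext a
    simp only [Set.mem_ofPred_eq, Set.mem_inter_iff, Set.mem_Ioi, Set.mem_iUnion, exists_prop]
  rw [e]
  refine isOpen_Ioi.inter (isOpen_iUnion fun n => isOpen_iUnion fun _ => isOpen_iUnion fun m => ?_)
  exact isOpen_lt (by fun_prop) continuous_const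

lemma VV_dense {L : ℝ} (hL : 0 < L) (N : ℕ) : Dense (VV L N) := by
  rw [Metric.dense_iff]
  intro a0 ε hε
  by_cases h1 : a0 < 1
  · exact ⟨a0, Metric.mem_ball_self hε, Or.inl h1⟩
  push Not at h1
  have h2 : log a0 < log (a0 + ε) := log_lt_log (by linarith) (by linarith)
  obtain ⟨r, hr1, hr2⟩ := exists_rat_btwn (div_lt_div_of_pos_right h2 hL)
  rw [div_lt_iff₀ hL] at hr1
  rw [lt_div_iff₀ hL] at hr2
  have hl0 : 0 ≤ log a0 := log_nonneg h1
  have hr0 : 0 < (r : ℝ) * L := by linarith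
  have hrpos : (0 : ℝ) < r := pos_of_mul_pos_left hr0 hL.le
  have hrq : 0 < r := by exact_mod_cast hrpos
  have e1 : a0 < exp (r * L) := by
    calc a0 = exp (log a0) := (exp_log (by linarith)).symm
      _ < _ := exp_lt_exp.2 hr1
  have e2 : exp (r * L) < a0 + ε := by
    calc exp (r * L) < exp (log (a0 + ε)) := exp_lt_exp.2 hr2
      _ = _ := exp_log (by linarith)
  refine ⟨exp (r * L), ?_, Or.inr ⟨by linarith, r.den * (N + 1), ?_, r.num.toNat * (N + 1), ?_⟩⟩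
  · rw [Metric.mem_ball, Real.dist_eq, abs_of_pos (by linarith)]
    linarith
  · have := r.den_pos
    nlinarith
  · have hden : (0 : ℝ) < r.den := by exact_mod_cast r.den_pos
    have hnum : ((r.num.toNat : ℕ) : ℝ) = r.num := by
      have : ((r.num.toNat : ℕ) : ℤ) = r.num := Int.toNat_of_nonneg (Rat.num_nonneg.2 hrq.le)
      exact_mod_cast congrArg (fun z : ℤ => (z : ℝ)) this
    have hrn : (r : ℝ) * r.den = r.num := by exact_mod_cast Rat.mul_den_eq_num r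
    have e3 : exp (r * L) ^ (r.den * (N + 1)) = exp L ^ (r.num.toNat * (N + 1)) := by
      rw [← exp_nat_mul, ← exp_nat_mul]
      congr 1
      push_cast
      rw [hnum, ← hrn]
      ring
    rw [e3, sub_self, abs_zero]
    positivity

theorem generic {b : ℝ} (hb : 1 < b) : ∃ G : Set ℝ, IsGδ G ∧ Ioi 1 ⊆ closure G ∧
    ∀ a ∈ G, 1 < a ∧ Irrational (log a / log b) ∧ ∀ x : ℝ, 0 < x → (NS a b x).Infinite := by
  obtain ⟨L, hLb⟩ : ∃ L, L = log b := ⟨_, rfl⟩
  have hL : 0 < L := by rw [hLb]; exact log_pos hb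
  have hbL : b = exp L := by rw [hLb, exp_log (by linarith)]
  have hd1 : Dense (⋂ N, VV L N) := dense_iInter_of_isOpen (VV_open L) (VV_dense hL)
  have hd2 : Dense (⋂ q : ℚ, ({exp (q * L)}ᶜ : Set ℝ)) :=
    dense_iInter_of_isOpen (fun q => isOpen_compl_singleton) (fun q => dense_compl_singleton _)
  have hg1 : IsGδ (⋂ N, VV L N) := IsGδ.iInter_of_isOpen (VV_open L)
  have hg2 : IsGδ (⋂ q : ℚ, ({exp (q * L)}ᶜ : Set ℝ)) :=
    IsGδ.iInter_of_isOpen (fun q => isOpen_compl_singleton)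
  have hd := hd1.inter_of_Gδ hg1 hg2 hd2
  refine ⟨Ioi 1 ∩ ((⋂ N, VV L N) ∩ ⋂ q : ℚ, ({exp (q * L)}ᶜ : Set ℝ)),
    isOpen_Ioi.isGδ.inter (hg1.inter hg2), hd.open_subset_closure_inter isOpen_Ioi, ?_⟩
  rintro a ⟨ha, h1, h2⟩
  have ha' : 1 < a := ha
  refine ⟨ha, ?_, fun x hx hfin => ?_⟩
  · rintro ⟨q, hq⟩
    have h3 := Set.mem_iInter.1 h2 q
    apply h3
    rw [Set.mem_singleton_iff, hq, ← hLb, div_mul_cancel₀ _ hL.ne', exp_log (by linarith)]
  · obtain ⟨M, hM⟩ := (hfin.image Prod.fst).bddAbove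
    obtain ⟨k, hk⟩ := exists_nat_gt (1 / x)
    have h3 := Set.mem_iInter.1 h1 (max (M + 1) k)
    rcases h3 with h3 | ⟨-, n, hn, m, hm⟩
    · exact absurd h3 (not_lt.2 ha'.le)
    · have h4 : (n, m) ∈ NS a b x := by
        simp only [NS, Set.mem_ofPred_eq]
        rw [hbL]
        refine hm.le.trans ?_
        rw [div_le_iff₀ (by positivity)]
        rw [div_lt_iff₀ hx] at hk
        have h5 : (k : ℝ) ≤ ((max (M + 1) k : ℕ) : ℝ) := by exact_mod_cast le_max_right _ _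
        nlinarith
      have h5 := hM (Set.mem_image_of_mem Prod.fst h4)
      simp only at h5
      have h6 : M + 1 ≤ n := (le_max_left _ _).trans hn
      omega

end Pool.Agent.X173.NCB
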