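import Mathlib

set_option autoImplicit false

namespace Pool.Agent.X173.NCG

open Real Filter Topology Set

/-- the pairs -/
def NS (a b x : ℝ) : Set (ℕ × ℕ) := {p | |a ^ p.1 - b ^ p.2| ≤ x}

/-- the near misses -/
def NM (a b : ℝ) : Set (ℕ × ℕ) := {p | p.1.Coprime p.2 ∧ |a ^ p.1 - b ^ p.2| ^ 2 < a ^ p.1}

/-- the near misses up to `x` -/
def MU (a b x : ℝ) : Set (ℕ × ℕ) := {p | p ∈ NM a b ∧ |a ^ p.1 - b ^ p.2| ≤ x}

/-! ### Counting -/

/-- the natural numbers in `(u, u + L]` -/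
noncomputable def seg (u L : ℝ) : Finset ℕ := (Finset.range (⌊u + L⌋₊ + 1)).filter (fun n => u < n)

lemma mem_seg {u L : ℝ} {n : ℕ} (h1 : u < n) (h2 : (n : ℝ) ≤ u + L) : n ∈ seg u L := by
  rw [seg, Finset.mem_filter, Finset.mem_range]
  exact ⟨Nat.lt_succ_of_le (Nat.le_floor h2), h1⟩

lemma card_seg (u : ℝ) {L : ℝ} (hL : 0 ≤ L) : ((seg u L).card : ℝ) ≤ L + 1 := by
  rcases lt_or_ge (u + L) 0 with h | h
  · have h1 : (seg u L).card ≤ 1 := by
      refine (Finset.card_filter_le _ _).trans ?_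
      rw [Finset.card_range, Nat.floor_of_nonpos h.le]
    have h2 : ((seg u L).card : ℝ) ≤ 1 := by exact_mod_cast h1
    linarith
  rcases lt_or_ge u 0 with h0 | h0
  · have h1 : (seg u L).card ≤ ⌊u + L⌋₊ + 1 := by
      refine (Finset.card_filter_le _ _).trans ?_
      rw [Finset.card_range]
    have h2 : ((seg u L).card : ℝ) ≤ (⌊u + L⌋₊ : ℝ) + 1 := by exact_mod_cast h1
    have h3 := Nat.floor_le h
    linarith
  · have hsub : seg u L ⊆ Finset.Ioc ⌊u⌋₊ ⌊u + L⌋₊ := by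
      intro n hn
      rw [seg, Finset.mem_filter, Finset.mem_range] at hn
      rw [Finset.mem_Ioc]
      exact ⟨(Nat.floor_lt h0).2 hn.2, Nat.lt_succ_iff.1 hn.1⟩
    have h1 := Finset.card_le_card hsub
    rw [Nat.card_Ioc] at h1
    have h2 : ⌊u⌋₊ ≤ ⌊u + L⌋₊ := Nat.floor_le_floor (by linarith)
    have h3 : ((seg u L).card : ℝ) ≤ (⌊u + L⌋₊ : ℝ) - ⌊u⌋₊ := by
      have : ((seg u L).card : ℝ) ≤ ((⌊u + L⌋₊ - ⌊u⌋₊ : ℕ) : ℝ) := by exact_mod_cast h1
      rwa [Nat.cast_sub h2] at this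
    have h4 := Nat.floor_le h
    have h5 := Nat.lt_floor_add_one u
    linarith

/-- gaps -/
lemma gap {a b : ℝ} (_ha : 1 < a) (hb : 1 < b) (hirr : Irrational (log a / log b)) (K : ℕ) :
    ∃ ε : ℝ, 0 < ε ∧ ∀ k : ℕ, 1 ≤ k → k ≤ K → ∀ l : ℤ, 2 * ε ≤ |(k : ℝ) * log a - l * log b| := by
  have hlb : 0 < log b := log_pos hb
  induction K with
  | zero => exact ⟨1, one_pos, fun k h1 h2 => by omega⟩
  | succ K ih =>
    obtain ⟨ε, hε, h⟩ := ih
    set β : ℝ := ((K + 1 : ℕ) : ℝ) * (log a / log b) with hβ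
    have hβi : Irrational β := by
      rw [hβ]
      exact hirr.natCast_mul (by omega)
    have hpos : 0 < |β - round β| := by
      rw [abs_pos, sub_ne_zero]
      exact hβi.ne_int _
    refine ⟨min ε (|β - round β| * log b / 2), lt_min hε (by positivity), fun k h1 h2 l => ?_⟩
    rcases Nat.lt_or_ge K k with h3 | h3
    · have h4 : k = K + 1 := by omega
      subst h4
      have h5 : |β - round β| ≤ |β - l| := round_le β l
      have h6 : ((K + 1 : ℕ) : ℝ) * log a - l * log b = (β - l) * log b := by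
        rw [hβ]; field_simp
      rw [h6, abs_mul, abs_of_pos hlb]
      have h7 : min ε (|β - round β| * log b / 2) ≤ |β - round β| * log b / 2 := min_le_right _ _
      nlinarith
    · have h4 := h k h1 h3 l
      have h5 : min ε (|β - round β| * log b / 2) ≤ ε := min_le_left _ _
      linarith

lemma sep {a b : ℝ} (ha : 1 < a) (hb : 1 < b) (hirr : Irrational (log a / log b)) (K : ℕ) :
    ∃ ε : ℝ, 0 < ε ∧ ∀ p q : ℕ × ℕ, |(p.1 : ℝ) * log a - p.2 * log b| < ε →
      |(q.1 : ℝ) * log a - q.2 * log b| < ε → p ≠ q → p.1 + K < q.1 ∨ q.1 + K < p.1 := by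
  have hlb : 0 < log b := log_pos hb
  obtain ⟨ε, hε, h⟩ := gap ha hb hirr K
  have key : ∀ p q : ℕ × ℕ, |(p.1 : ℝ) * log a - p.2 * log b| < min ε (log b / 2) →
      |(q.1 : ℝ) * log a - q.2 * log b| < min ε (log b / 2) → p ≠ q → p.1 ≤ q.1 →
      p.1 + K < q.1 := by
    intro p q hp hq hpq hle
    by_contra hcon
    have hp1 := abs_lt.1 (hp.trans_le (min_le_left _ _))
    have hq1 := abs_lt.1 (hq.trans_le (min_le_left _ _))
    have hp2 := abs_lt.1 (hp.trans_le (min_le_right _ _))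
    have hq2 := abs_lt.1 (hq.trans_le (min_le_right _ _))
    rcases Nat.eq_or_lt_of_le hle with h1 | h1
    · apply hpq
      have h2 : |((p.2 : ℤ) : ℝ) - ((q.2 : ℤ) : ℝ)| < 1 := by
        have h3 : |(((p.2 : ℤ) : ℝ) - ((q.2 : ℤ) : ℝ)) * log b| < log b := by
          rw [h1] at hp2
          push_cast
          rw [abs_lt]
          constructor
          · nlinarith
          · nlinarith
        rw [abs_mul, abs_of_pos hlb] at h3
        by_contra h4
        push Not at h4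
        nlinarith
      have h3 : |(p.2 : ℤ) - (q.2 : ℤ)| < 1 := by exact_mod_cast h2
      have h4 : p.2 = q.2 := by
        rw [abs_lt] at h3
        omega
      exact Prod.ext h1 h4
    · have h2 := h (q.1 - p.1) (by omega) (by omega) ((q.2 : ℤ) - p.2)
      have h3 : |((q.1 - p.1 : ℕ) : ℝ) * log a - (((q.2 : ℤ) - p.2 : ℤ) : ℝ) * log b| < 2 * ε := by
        rw [Nat.cast_sub hle]
        push_cast
        rw [abs_lt]
        constructor
        · nlinarith
        · nlinarith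
      linarith
  refine ⟨min ε (log b / 2), lt_min hε (by positivity), fun p q hp hq hpq => ?_⟩
  rcases le_total p.1 q.1 with h1 | h1
  · exact Or.inl (key p q hp hq hpq h1)
  · exact Or.inr (key q p hq hp hpq.symm h1)

lemma card_sep {S : Finset (ℕ × ℕ)} {K : ℕ} (hK : 0 < K) (u : ℝ) {L : ℝ} (hL : 0 ≤ L)
    (h1 : ∀ p ∈ S, u < (p.1 : ℝ) ∧ (p.1 : ℝ) ≤ u + L)
    (h2 : ∀ p ∈ S, ∀ q ∈ S, p ≠ q → p.1 + K < q.1 ∨ q.1 + K < p.1) :
    (S.card : ℝ) ≤ L / K + 2 := by
  have hK' : (0 : ℝ) < K := by exact_mod_cast hK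
  have hinj : Set.InjOn (fun p : ℕ × ℕ => p.1 / K) S := by
    intro p hp q hq hpq
    by_contra hne
    simp only at hpq
    have e1 := Nat.div_add_mod p.1 K
    have e2 := Nat.div_add_mod q.1 K
    have e3 := Nat.mod_lt p.1 hK
    have e4 := Nat.mod_lt q.1 hK
    rw [hpq] at e1
    rcases h2 p hp q hq hne with h3 | h3
    · omega
    · omega
  have hmap : ∀ p ∈ S, p.1 / K ∈ seg (u / K - 1) (L / K + 1) := by
    intro p hp
    obtain ⟨g1, g2⟩ := h1 p hp
    have e1 := Nat.div_add_mod p.1 K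
    have e3 := Nat.mod_lt p.1 hK
    have e1' : (K : ℝ) * ((p.1 / K : ℕ) : ℝ) + ((p.1 % K : ℕ) : ℝ) = p.1 := by exact_mod_cast e1
    have e3' : ((p.1 % K : ℕ) : ℝ) < K := by exact_mod_cast e3
    have e4' : (0 : ℝ) ≤ ((p.1 % K : ℕ) : ℝ) := Nat.cast_nonneg _
    apply mem_seg
    · rw [sub_lt_iff_lt_add, div_lt_iff₀ hK']
      nlinarith
    · have : u / K - 1 + (L / K + 1) = (u + L) / K := by field_simp; ring
      rw [this, le_div_iff₀ hK']
      nlinarith
  have h3 := Finset.card_le_card_of_injOn _ hmap hinj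
  have h4 := card_seg (u / K - 1) (L := L / K + 1) (by positivity)
  have h5 : (S.card : ℝ) ≤ ((seg (u / K - 1) (L / K + 1)).card : ℝ) := by exact_mod_cast h3
  linarith

end Pool.Agent.X173.NCG
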