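import Mathlib
import Pool.Agent.X173.NCG

set_option autoImplicit false

namespace Pool.Agent.X173.NCG

open Real Filter Topology Set

lemma log_ratio {u v w : ℝ} (hw : 0 < w) (hu : w ≤ u) (hv : w ≤ v) :
    |log u - log v| ≤ |u - v| / w := by
  have key : ∀ u v : ℝ, w ≤ u → w ≤ v → log u - log v ≤ |u - v| / w := by
    intro u v hu hv
    have hu0 : 0 < u := by linarith
    have hv0 : 0 < v := by linarith
    rw [← Real.log_div hu0.ne' hv0.ne']
    have h1 : log (u / v) ≤ u / v - 1 := Real.log_le_sub_one_of_pos (by positivity)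
    have h2 : u / v - 1 = (u - v) / v := by field_simp
    rw [h2] at h1
    refine h1.trans ?_
    refine (div_le_div_of_nonneg_right (le_abs_self _) hv0.le).trans ?_
    exact div_le_div_of_nonneg_left (abs_nonneg _) hw hv
  rw [abs_le]
  constructor
  · have := key v u hv hu
    rw [abs_sub_comm] at this
    linarith
  · exact key u v hu hv

lemma lin_small {a b w x : ℝ} (_ha : 1 < a) (_hb : 1 < b) (hw : 0 < w) {n m : ℕ} (h1 : w ≤ a ^ n)
    (h2 : w ≤ b ^ m) (h3 : |a ^ n - b ^ m| ≤ x) : |(n : ℝ) * log a - m * log b| ≤ x / w := by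
  have h4 := log_ratio hw h1 h2
  rw [Real.log_pow, Real.log_pow] at h4
  exact h4.trans (div_le_div_of_nonneg_right h3 hw.le)

/-- the values are nonzero -/
lemma ne_pow {a b : ℝ} (ha : 1 < a) (hb : 1 < b) (hirr : Irrational (log a / log b)) {n m : ℕ}
    (hcop : n.Coprime m) : 0 < |a ^ n - b ^ m| := by
  rw [abs_pos, sub_ne_zero]
  intro h
  have hlb : 0 < log b := log_pos hb
  have hla : 0 < log a := log_pos ha
  have h1 : (n : ℝ) * log a = m * log b := by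
    rw [← Real.log_pow, ← Real.log_pow, h]
  rcases Nat.eq_zero_or_pos n with hn | hn
  · subst hn
    have h2 : (m : ℝ) * log b = 0 := by rw [← h1]; simp
    have h3 : (m : ℝ) = 0 := by
      rcases mul_eq_zero.1 h2 with h | h
      · exact h
      · exact absurd h hlb.ne'
    have h4 : m = 0 := by exact_mod_cast h3
    subst h4
    simp at hcop
  · apply hirr
    refine ⟨(m : ℚ) / n, ?_⟩
    have hn' : (n : ℝ) ≠ 0 := by exact_mod_cast hn.ne'
    push_cast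
    rw [div_eq_div_iff hn' hlb.ne']
    linarith

/-- the near coincidences far out are near misses -/
lemma nonprim {a b : ℝ} (ha : 1 < a) (hb : 1 < b) (hirr : Irrational (log a / log b))
    (hfin : (MU a b 1).Finite) :
    ∃ X : ℝ, 1 ≤ X ∧ ∀ x : ℝ, X ≤ x → ∀ p ∈ NS a b x, x ^ 2 < a ^ p.1 → p ∈ MU a b x := by
  obtain ⟨X, hX⟩ := (hfin.image (fun q : ℕ × ℕ => a ^ q.1 / |a ^ q.1 - b ^ q.2|)).bddAbove
  refine ⟨max X 1, le_max_right _ _, fun x hx p hp hp2 => ?_⟩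
  have hx1 : 1 ≤ x := (le_max_right _ _).trans hx
  have hxX : X ≤ x := (le_max_left _ _).trans hx
  have hx0 : 0 < x := by linarith
  have hpx : |a ^ p.1 - b ^ p.2| ≤ x := hp
  refine ⟨?_, hpx⟩
  have hp10 : p.1 ≠ 0 := by
    intro h
    rw [h] at hp2
    nlinarith
  have hsq : |a ^ p.1 - b ^ p.2| ^ 2 < a ^ p.1 := by
    have : |a ^ p.1 - b ^ p.2| ^ 2 ≤ x ^ 2 := pow_le_pow_left₀ (abs_nonneg _) hpx 2
    linarith
  refine ⟨?_, hsq⟩
  by_contra hcop
  set g := Nat.gcd p.1 p.2 with hg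
  have hg0 : 0 < g := Nat.gcd_pos_of_pos_left _ (Nat.pos_of_ne_zero hp10)
  have hg1 : g ≠ 1 := hcop
  have hg2 : 2 ≤ g := by omega
  obtain ⟨n, hn⟩ : g ∣ p.1 := Nat.gcd_dvd_left _ _
  obtain ⟨m, hm⟩ : g ∣ p.2 := Nat.gcd_dvd_right _ _
  have hnm : n.Coprime m := by
    have h1 : Nat.gcd p.1 p.2 = g * Nat.gcd n m := by
      rw [hn, hm, Nat.gcd_mul_left]
    rw [← hg] at h1
    have h2 : g * 1 = g * Nat.gcd n m := by rw [mul_one]; exact h1
    exact (Nat.eq_of_mul_eq_mul_left hg0 h2).symm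
  have hn0 : n ≠ 0 := by
    intro h
    rw [h, mul_zero] at hn
    exact hp10 hn
  have hf := ne_pow ha hb hirr hnm
  -- the factorisation
  have hfac : |a ^ n - b ^ m| * (a ^ n) ^ (g - 1) ≤ x := by
    have h1 := geom_sum₂_mul (a ^ n) (b ^ m) g
    have h2 : (a ^ n) ^ (g - 1) ≤ ∑ i ∈ Finset.range g, (a ^ n) ^ i * (b ^ m) ^ (g - 1 - i) := by
      have h3 := Finset.single_le_sum (s := Finset.range g)
        (f := fun i => (a ^ n) ^ i * (b ^ m) ^ (g - 1 - i)) (fun i _ => by positivity)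
        (Finset.mem_range.2 (show g - 1 < g by omega))
      simpa using h3
    have h4 : a ^ p.1 - b ^ p.2 =
        (∑ i ∈ Finset.range g, (a ^ n) ^ i * (b ^ m) ^ (g - 1 - i)) * (a ^ n - b ^ m) := by
      rw [h1, ← pow_mul, ← pow_mul, hn, hm, mul_comm n g, mul_comm m g]
    rw [h4, abs_mul] at hpx
    have h5 : 0 ≤ ∑ i ∈ Finset.range g, (a ^ n) ^ i * (b ^ m) ^ (g - 1 - i) :=
      Finset.sum_nonneg (fun i _ => by positivity)
    rw [abs_of_nonneg h5] at hpx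
    calc |a ^ n - b ^ m| * (a ^ n) ^ (g - 1)
        ≤ |a ^ n - b ^ m| * ∑ i ∈ Finset.range g, (a ^ n) ^ i * (b ^ m) ^ (g - 1 - i) :=
          mul_le_mul_of_nonneg_left h2 (abs_nonneg _)
      _ = (∑ i ∈ Finset.range g, (a ^ n) ^ i * (b ^ m) ^ (g - 1 - i)) * |a ^ n - b ^ m| :=
          mul_comm _ _
      _ ≤ x := hpx
  have han1 : 1 ≤ a ^ n := one_le_pow₀ ha.le
  have hP : x < (a ^ n) ^ (g - 1) := by
    have h1 : a ^ p.1 ≤ ((a ^ n) ^ (g - 1)) ^ 2 := by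
      rw [← pow_mul, ← pow_mul, hn]
      apply pow_le_pow_right₀ ha.le
      have h2 : g ≤ (g - 1) * 2 := by omega
      calc g * n ≤ (g - 1) * 2 * n := Nat.mul_le_mul_right _ h2
        _ = n * ((g - 1) * 2) := by ring
    have h2 : x ^ 2 < ((a ^ n) ^ (g - 1)) ^ 2 := lt_of_lt_of_le hp2 h1
    exact lt_of_pow_lt_pow_left₀ 2 (by positivity) h2
  have hf1 : |a ^ n - b ^ m| < 1 := by
    by_contra h
    push Not at h
    have : 1 * x < |a ^ n - b ^ m| * (a ^ n) ^ (g - 1) := by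
      calc 1 * x < 1 * (a ^ n) ^ (g - 1) := by rw [one_mul, one_mul]; exact hP
        _ ≤ |a ^ n - b ^ m| * (a ^ n) ^ (g - 1) :=
          mul_le_mul_of_nonneg_right h (by positivity)
    linarith
  have hq : ((n, m) : ℕ × ℕ) ∈ MU a b 1 := by
    refine ⟨⟨hnm, ?_⟩, hf1.le⟩
    have h1 : |a ^ n - b ^ m| ^ 2 < 1 := by
      have := abs_nonneg (a ^ n - b ^ m)
      nlinarith
    exact lt_of_lt_of_le h1 han1
  have h1 : a ^ n / |a ^ n - b ^ m| ≤ X :=
    hX (Set.mem_image_of_mem (fun q : ℕ × ℕ => a ^ q.1 / |a ^ q.1 - b ^ q.2|) hq)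
  have h2 : a ^ n ≤ x * |a ^ n - b ^ m| := by
    rw [div_le_iff₀ hf] at h1
    exact h1.trans (mul_le_mul_of_nonneg_right hxX hf.le)
  have h3 : a ^ p.1 = (a ^ n) ^ (g - 1) * a ^ n := by
    rw [← pow_succ, ← pow_mul, hn]
    congr 1
    have : g - 1 + 1 = g := by omega
    rw [this, mul_comm]
  have h4 : |a ^ n - b ^ m| * a ^ p.1 ≤ x * a ^ n := by
    rw [h3, ← mul_assoc]
    exact mul_le_mul_of_nonneg_right hfac (by positivity)
  have h5 : |a ^ n - b ^ m| * x ^ 2 < |a ^ n - b ^ m| * a ^ p.1 :=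
    mul_lt_mul_of_pos_left hp2 hf
  nlinarith

/-- near misses with large first exponent -/
lemma nm_small {a b : ℝ} (ha : 1 < a) (hb : 1 < b) {ε : ℝ} (hε : 0 < ε) :
    ∃ n1 : ℕ, ∀ p ∈ NM a b, n1 ≤ p.1 → |(p.1 : ℝ) * log a - p.2 * log b| < ε := by
  obtain ⟨n1, hn1⟩ := pow_unbounded_of_one_lt (4 + 16 / ε ^ 2) ha
  refine ⟨n1, fun p hp hpn => ?_⟩
  obtain ⟨-, h1⟩ := hp
  have hP : 4 + 16 / ε ^ 2 < a ^ p.1 := hn1.trans_le (pow_le_pow_right₀ ha.le hpn)
  have hP0 : 0 < a ^ p.1 := by positivity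
  have hε2 : 0 < 16 / ε ^ 2 := by positivity
  set s := √(a ^ p.1) with hs
  have hs2 : s ^ 2 = a ^ p.1 := Real.sq_sqrt hP0.le
  have hs0 : 0 < s := Real.sqrt_pos.2 hP0
  have h2 : |a ^ p.1 - b ^ p.2| < s := by
    rw [← hs2] at h1
    have := lt_of_pow_lt_pow_left₀ 2 hs0.le h1
    rwa [hs2] at this
  have hs4 : 2 < s := by
    by_contra h
    push Not at h
    nlinarith
  have hw : a ^ p.1 / 2 ≤ b ^ p.2 := by
    have h3 := (abs_lt.1 h2).2
    rw [← hs2] at h3 ⊢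
    nlinarith
  have h4 := lin_small ha hb (w := a ^ p.1 / 2) (x := s) (by positivity) (by linarith) hw h2.le
  refine h4.trans_lt ?_
  rw [← hs2, div_lt_iff₀ (by positivity)]
  have h5 : 16 / ε ^ 2 < s ^ 2 := by rw [hs2]; linarith
  rw [div_lt_iff₀ (by positivity)] at h5
  have h6 : 4 ^ 2 < (s * ε) ^ 2 := by nlinarith
  have h7 : 4 < s * ε := lt_of_pow_lt_pow_left₀ 2 (by positivity) h6
  nlinarith

lemma nm_fin {a b : ℝ} (ha : 1 < a) (hb : 1 < b) (n1 : ℕ) :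
    {p | p ∈ NM a b ∧ p.1 < n1}.Finite := by
  obtain ⟨M, hM⟩ := pow_unbounded_of_one_lt (2 * a ^ n1) hb
  refine Set.Finite.subset ((Finset.range n1 ×ˢ Finset.range M : Finset (ℕ × ℕ)).finite_toSet) ?_
  rintro ⟨n, m⟩ ⟨⟨-, h1⟩, h2⟩
  simp only at h1 h2
  simp only [Finset.coe_product, Set.mem_prod, Finset.mem_coe, Finset.mem_range]
  refine ⟨h2, ?_⟩
  have hn1 : 1 ≤ a ^ n := one_le_pow₀ ha.le
  have h3 : |a ^ n - b ^ m| < a ^ n := by
    by_contra h
    push Not at h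
    nlinarith
  have h4 := (abs_lt.1 h3).1
  have h5 : a ^ n ≤ a ^ n1 := pow_le_pow_right₀ ha.le h2.le
  have h6 : b ^ m < b ^ M := by linarith
  exact (pow_lt_pow_iff_right₀ hb).1 h6

end Pool.Agent.X173.NCG
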