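import Mathlib
import Pool.Agent.X173.NCH

set_option autoImplicit false

namespace Pool.Agent.X173.NCG

open Real Filter Topology Set

/-- powers and logarithms -/
lemma pow_le_iff {a x : ℝ} (ha : 1 < a) (hx : 0 < x) (n : ℕ) : a ^ n ≤ x ↔ (n : ℝ) ≤ log x / log a := by
  have hla : 0 < log a := log_pos ha
  rw [le_div_iff₀ hla, ← Real.log_pow]
  exact (Real.log_le_log_iff (by positivity) hx).symm

lemma lt_pow_iff {a x : ℝ} (ha : 1 < a) (hx : 0 < x) (n : ℕ) : x < a ^ n ↔ log x / log a < (n : ℝ) := by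
  rw [← not_le, pow_le_iff ha hx, not_le]

/-- both powers small -/
lemma piece1 {a b z : ℝ} (ha : 1 < a) (hb : 1 < b) (hz : 1 ≤ z) (S : Finset (ℕ × ℕ))
    (h : ∀ p ∈ S, a ^ p.1 ≤ z ∧ b ^ p.2 ≤ z) :
    (S.card : ℝ) ≤ ((⌊log z / log a⌋₊ : ℝ) + 1) * ((⌊log z / log b⌋₊ : ℝ) + 1) := by
  have h1 : S ⊆ Finset.range (⌊log z / log a⌋₊ + 1) ×ˢ Finset.range (⌊log z / log b⌋₊ + 1) := by
    intro p hp
    obtain ⟨g1, g2⟩ := h p hp
    rw [pow_le_iff ha (by linarith)] at g1
    rw [pow_le_iff hb (by linarith)] at g2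
    rw [Finset.mem_product, Finset.mem_range, Finset.mem_range]
    exact ⟨Nat.lt_succ_of_le (Nat.le_floor g1), Nat.lt_succ_of_le (Nat.le_floor g2)⟩
  have h2 := Finset.card_le_card h1
  rw [Finset.card_product, Finset.card_range, Finset.card_range] at h2
  exact_mod_cast h2

/-- one large, one small -/
lemma piece2 {a b κ : ℝ} (ha : 1 < a) (hb : 1 < b) (hκ : 0 < κ) :
    ∃ C : ℝ, 0 ≤ C ∧ ∀ x : ℝ, 1 ≤ x → ∀ S : Finset (ℕ × ℕ),
      (∀ p ∈ S, |a ^ p.1 - b ^ p.2| ≤ x ∧ b ^ p.2 ≤ x ∧ exp κ * x < a ^ p.1) →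
      (S.card : ℝ) ≤ C := by
  have hla : 0 < log a := log_pos ha
  have hlb : 0 < log b := log_pos hb
  have hl2 : 0 < log 2 := log_pos (by norm_num)
  have he : 1 < exp κ := by rw [Real.one_lt_exp_iff]; exact hκ
  set c : ℝ := exp κ - 1 with hc
  have hc0 : 0 < c := by rw [hc]; linarith
  set L : ℝ := |log c| / log b + 1 with hL
  have hL0 : 0 ≤ L := by positivity
  refine ⟨(log 2 / log a + 1) * (L + 1), by positivity, fun x hx S hS => ?_⟩
  have hx0 : 0 < x := by linarith
  have h1 : S ⊆ seg (log x / log a) (log 2 / log a) ×ˢ seg (log x / log b - L) L := by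
    intro p hp
    obtain ⟨g1, g2, g3⟩ := hS p hp
    have g4 := (abs_le.1 g1).2
    rw [Finset.mem_product]
    constructor
    · apply mem_seg
      · rw [← lt_pow_iff ha hx0]
        nlinarith
      · have g5 : a ^ p.1 ≤ 2 * x := by linarith
        rw [pow_le_iff ha (by positivity), Real.log_mul (by norm_num) hx0.ne'] at g5
        rw [← add_div, add_comm]
        exact g5
    · apply mem_seg
      · have g5 : c * x < b ^ p.2 := by rw [hc]; nlinarith
        rw [lt_pow_iff hb (by positivity), Real.log_mul hc0.ne' hx0.ne', add_div] at g5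
        have g6 : -(|log c| / log b) ≤ log c / log b := by
          rw [← neg_div]
          exact div_le_div_of_nonneg_right (neg_abs_le _) hlb.le
        rw [hL]
        linarith
      · rw [sub_add_cancel, ← pow_le_iff hb hx0]
        exact g2
  have h2 := Finset.card_le_card h1
  rw [Finset.card_product] at h2
  have h3 := card_seg (log x / log a) (L := log 2 / log a) (by positivity)
  have h4 := card_seg (log x / log b - L) hL0
  have h5 : (S.card : ℝ) ≤ ((seg (log x / log a) (log 2 / log a)).card : ℝ) *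
      ((seg (log x / log b - L) L).card : ℝ) := by exact_mod_cast h2
  refine h5.trans ?_
  exact mul_le_mul h3 h4 (Nat.cast_nonneg _) (by positivity)

/-- both large, first range -/
lemma piece3 {a b η : ℝ} (ha : 1 < a) (hb : 1 < b) (hη : 0 < η) (x : ℝ) (hx : 1 ≤ x)
    (S : Finset (ℕ × ℕ)) (hS : ∀ p ∈ S, |a ^ p.1 - b ^ p.2| ≤ x ∧ x < a ^ p.1 ∧ x < b ^ p.2 ∧
      (p.1 : ℝ) ≤ (1 + η) * (log x / log a)) :
    (S.card : ℝ) ≤ (η * (log x / log a) + 1) * (2 / log b + 2) := by
  have hla : 0 < log a := log_pos ha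
  have hlb : 0 < log b := log_pos hb
  have hx0 : 0 < x := by linarith
  have hlx : 0 ≤ log x := Real.log_nonneg hx
  have h1 : S ⊆ (seg (log x / log a) (η * (log x / log a))).biUnion (fun n =>
      ({n} : Finset ℕ) ×ˢ seg (((n : ℝ) * log a - 1) / log b - 1) (2 / log b + 1)) := by
    intro p hp
    obtain ⟨g1, g2, g3, g4⟩ := hS p hp
    rw [Finset.mem_biUnion]
    refine ⟨p.1, ?_, ?_⟩
    · apply mem_seg
      · rwa [← lt_pow_iff ha hx0]
      · linarith
    · rw [Finset.mem_product, Finset.mem_singleton]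
      refine ⟨rfl, ?_⟩
      have g5 := lin_small ha hb hx0 g2.le g3.le g1
      rw [div_self hx0.ne'] at g5
      have g6 := abs_le.1 g5
      apply mem_seg
      · have : ((p.1 : ℝ) * log a - 1) / log b ≤ p.2 := by
          rw [div_le_iff₀ hlb]; linarith
        linarith
      · have : (p.2 : ℝ) ≤ ((p.1 : ℝ) * log a + 1) / log b := by
          rw [le_div_iff₀ hlb]; linarith
        have e : ((p.1 : ℝ) * log a - 1) / log b - 1 + (2 / log b + 1) =
            ((p.1 : ℝ) * log a + 1) / log b := by field_simp; ring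
        rw [e]
        exact this
  have h2 := (Finset.card_le_card h1).trans Finset.card_biUnion_le
  have h3 : (S.card : ℝ) ≤ ∑ n ∈ seg (log x / log a) (η * (log x / log a)),
      (2 / log b + 2) := by
    refine le_trans ((Nat.cast_le (α := ℝ)).2 h2) ?_
    push_cast
    refine Finset.sum_le_sum fun n _ => ?_
    rw [Finset.card_product, Finset.card_singleton, one_mul]
    have := card_seg (((n : ℝ) * log a - 1) / log b - 1) (L := 2 / log b + 1) (by positivity)
    linarith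
  rw [Finset.sum_const, nsmul_eq_mul] at h3
  refine h3.trans ?_
  have h4 := card_seg (log x / log a) (L := η * (log x / log a)) (by positivity)
  exact mul_le_mul_of_nonneg_right h4 (by positivity)

/-- both large, second range -/
lemma piece4 {a b η : ℝ} (ha : 1 < a) (hb : 1 < b) (hirr : Irrational (log a / log b))
    (hη : 0 < η) {K : ℕ} (hK : 0 < K) :
    ∃ X : ℝ, 1 ≤ X ∧ ∀ x : ℝ, X ≤ x → ∀ S : Finset (ℕ × ℕ),
      (∀ p ∈ S, |a ^ p.1 - b ^ p.2| ≤ x ∧ x < a ^ p.1 ∧ x < b ^ p.2 ∧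
      (1 + η) * (log x / log a) < (p.1 : ℝ) ∧ (p.1 : ℝ) ≤ 2 * (log x / log a)) →
    (S.card : ℝ) ≤ (2 * (log x / log a)) / K + 3 := by
  have hla : 0 < log a := log_pos ha
  have hlb : 0 < log b := log_pos hb
  obtain ⟨ε, hε, hsep⟩ := sep ha hb hirr K
  -- `exp 1 * x ^ (-η) < ε`
  refine ⟨exp ((|log ε| + 2) / η), ?_, fun x hx S hS => ?_⟩
  · rw [Real.one_le_exp_iff]; positivity
  have hx0 : 0 < x := (exp_pos _).trans_le hx
  have hlx : (|log ε| + 2) / η ≤ log x := by
    rwa [Real.le_log_iff_exp_le hx0]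
  have hlx0 : 0 ≤ log x := le_trans (by positivity) hlx
  have hx1 : 1 ≤ x := (Real.log_nonneg_iff hx0).1 hlx0
  have hsmall : ∀ p ∈ S, |(p.1 : ℝ) * log a - p.2 * log b| < ε := by
    intro p hp
    obtain ⟨g1, g2, g3, g4, g5⟩ := hS p hp
    have g6 := lin_small ha hb hx0 g2.le g3.le g1
    rw [div_self hx0.ne'] at g6
    have g7 := abs_le.1 g6
    have hap : 0 < a ^ p.1 := by positivity
    -- lower bound for both by `a ^ n / e`
    have hw2 : a ^ p.1 / exp 1 ≤ b ^ p.2 := by
      rw [div_le_iff₀ (exp_pos _)]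
      have e1 : a ^ p.1 = exp (p.1 * log a) := by
        rw [← Real.log_pow, Real.exp_log hap]
      have e2 : b ^ p.2 = exp (p.2 * log b) := by
        rw [← Real.log_pow, Real.exp_log (by positivity)]
      rw [e1, e2, ← Real.exp_add, Real.exp_le_exp]
      linarith
    have hw1 : a ^ p.1 / exp 1 ≤ a ^ p.1 := by
      rw [div_le_iff₀ (exp_pos _)]
      have : 1 ≤ exp 1 := by rw [Real.one_le_exp_iff]; norm_num
      nlinarith
    have g8 := lin_small ha hb (w := a ^ p.1 / exp 1) (by positivity) hw1 hw2 g1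
    refine g8.trans_lt ?_
    rw [div_lt_iff₀ (by positivity)]
    have g9 : (1 + η) * log x < p.1 * log a := by
      rw [← mul_div_assoc, div_lt_iff₀ hla] at g4
      exact g4
    have e1 : a ^ p.1 = exp (p.1 * log a) := by
      rw [← Real.log_pow, Real.exp_log hap]
    have e3 : x = exp (log x) := (Real.exp_log hx0).symm
    have e4 : ε = exp (log ε) := (Real.exp_log hε).symm
    rw [e1, ← Real.exp_sub]
    conv_lhs => rw [e3]
    conv_rhs => rw [e4]
    rw [← Real.exp_add, Real.exp_lt_exp]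
    have g10 : |log ε| + 2 ≤ log x * η := by rwa [div_le_iff₀ hη] at hlx
    have g11 := neg_abs_le (log ε)
    nlinarith
  have h := card_sep hK (S := S) (-1) (L := 2 * (log x / log a) + 1) (by positivity) (fun p hp => ?_)
    (fun p hp q hq hpq => hsep p q (hsmall p hp) (hsmall q hq) hpq)
  · have hK' : (1 : ℝ) ≤ K := by exact_mod_cast hK
    have h1 : (1 : ℝ) / K ≤ 1 := by rw [div_le_one (by linarith)]; exact hK'
    rw [add_div] at h
    linarith
  · obtain ⟨g1, g2, g3, g4, g5⟩ := hS p hp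
    constructor
    · linarith [Nat.cast_nonneg (α := ℝ) p.1]
    · linarith

/-- the main counting estimate, from above -/
lemma upper {a b κ ε : ℝ} (ha : 1 < a) (hb : 1 < b) (hirr : Irrational (log a / log b))
    (hfin : (MU a b 1).Finite) (hκ : 0 < κ) (hε : 0 < ε) :
    ∃ X : ℝ, 1 ≤ X ∧ ∀ x : ℝ, X ≤ x → ∀ S : Finset (ℕ × ℕ), (∀ p ∈ S, p ∈ NS a b x ∧ p ∉ MU a b x) →
      (S.card : ℝ) ≤ ((⌊(log x + κ) / log a⌋₊ : ℝ) + 1) * ((⌊(log x + κ) / log b⌋₊ : ℝ) + 1) +
        ε * log x := by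
  classical
  have hla : 0 < log a := log_pos ha
  have hlb : 0 < log b := log_pos hb
  obtain ⟨X0, hX0, h0⟩ := nonprim ha hb hirr hfin
  obtain ⟨C2, hC2, h2⟩ := piece2 (κ := κ) ha hb hκ
  obtain ⟨C3, hC3, h3⟩ := piece2 (κ := κ) hb ha hκ
  -- the parameters
  set D : ℝ := 2 / log b + 2 with hD
  have hD0 : 0 < D := by positivity
  set η : ℝ := ε * log a / (4 * D) with hη
  have hη0 : 0 < η := by positivity
  obtain ⟨K, hK⟩ := exists_nat_gt (8 / (ε * log a))
  have hK0 : 0 < K := by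
    have : (0 : ℝ) < K := lt_trans (by positivity) hK
    exact_mod_cast this
  obtain ⟨X4, hX4, h4⟩ := piece4 ha hb hirr hη0 hK0
  refine ⟨max (max X0 X4) (exp ((C2 + C3 + D + 3) / (ε / 2))),
    hX0.trans ((le_max_left _ _).trans (le_max_left _ _)), fun x hx S hS => ?_⟩
  have hxX0 : X0 ≤ x := ((le_max_left _ _).trans (le_max_left _ _)).trans hx
  have hxX4 : X4 ≤ x := ((le_max_right _ _).trans (le_max_left _ _)).trans hx
  have hx1 : 1 ≤ x := hX0.trans hxX0
  have hx0 : 0 < x := by linarith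
  have hlx : (C2 + C3 + D + 3) / (ε / 2) ≤ log x := by
    rw [Real.le_log_iff_exp_le hx0]
    exact (le_max_right _ _).trans hx
  have hlx' : C2 + C3 + D + 3 ≤ log x * (ε / 2) := by rwa [div_le_iff₀ (by positivity)] at hlx
  have hz : 1 ≤ exp κ * x := by
    have : 1 ≤ exp κ := Real.one_le_exp hκ.le
    nlinarith
  have hlz : log (exp κ * x) = log x + κ := by
    rw [Real.log_mul (exp_pos _).ne' hx0.ne', Real.log_exp, add_comm]
  set S1 := S.filter (fun p => a ^ p.1 ≤ exp κ * x ∧ b ^ p.2 ≤ exp κ * x) with hS1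
  set S2 := S.filter (fun p => b ^ p.2 ≤ x ∧ exp κ * x < a ^ p.1) with hS2
  set S3 := S.filter (fun p => a ^ p.1 ≤ x ∧ exp κ * x < b ^ p.2) with hS3
  set S4 := S.filter (fun p => x < a ^ p.1 ∧ x < b ^ p.2 ∧
    (p.1 : ℝ) ≤ (1 + η) * (log x / log a)) with hS4
  set S5 := S.filter (fun p => x < a ^ p.1 ∧ x < b ^ p.2 ∧
    (1 + η) * (log x / log a) < (p.1 : ℝ)) with hS5
  have hcov : S ⊆ S1 ∪ (S2 ∪ (S3 ∪ (S4 ∪ S5))) := by
    intro p hp
    simp only [hS1, hS2, hS3, hS4, hS5, Finset.mem_union, Finset.mem_filter, hp, true_and]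
    have he : x ≤ exp κ * x := by
      have : 1 ≤ exp κ := Real.one_le_exp hκ.le
      nlinarith
    rcases le_or_gt (a ^ p.1) x with g1 | g1
    · rcases le_or_gt (b ^ p.2) (exp κ * x) with g2 | g2
      · exact Or.inl ⟨g1.trans he, g2⟩
      · exact Or.inr (Or.inr (Or.inl ⟨g1, g2⟩))
    · rcases le_or_gt (b ^ p.2) x with g2 | g2
      · rcases le_or_gt (a ^ p.1) (exp κ * x) with g3 | g3
        · exact Or.inl ⟨g3, g2.trans he⟩
        · exact Or.inr (Or.inl ⟨g2, g3⟩)
      · rcases le_or_gt (p.1 : ℝ) ((1 + η) * (log x / log a)) with g3 | g3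
        · exact Or.inr (Or.inr (Or.inr (Or.inl ⟨g1, g2, g3⟩)))
        · exact Or.inr (Or.inr (Or.inr (Or.inr ⟨g1, g2, g3⟩)))
  have hcard : (S.card : ℝ) ≤ S1.card + (S2.card + (S3.card + (S4.card + S5.card))) := by
    have g1 := Finset.card_le_card hcov
    have g2 := Finset.card_union_le S1 (S2 ∪ (S3 ∪ (S4 ∪ S5)))
    have g3 := Finset.card_union_le S2 (S3 ∪ (S4 ∪ S5))
    have g4 := Finset.card_union_le S3 (S4 ∪ S5)
    have g5 := Finset.card_union_le S4 S5
    have g6 : S.card ≤ S1.card + (S2.card + (S3.card + (S4.card + S5.card))) := by omega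
    exact_mod_cast g6
  have c1 := piece1 ha hb hz S1 (fun p hp => (Finset.mem_filter.1 hp).2)
  rw [hlz] at c1
  have c2 := h2 x hx1 S2 (fun p hp => ⟨(hS p (Finset.mem_filter.1 hp).1).1,
    (Finset.mem_filter.1 hp).2⟩)
  have c3 : (S3.card : ℝ) ≤ C3 := by
    have := h3 x hx1 (S3.image Prod.swap) (fun p hp => by
      obtain ⟨q, hq, rfl⟩ := Finset.mem_image.1 hp
      obtain ⟨g1, g2, g3⟩ := Finset.mem_filter.1 hq
      refine ⟨?_, g2, g3⟩
      have := (hS q g1).1
      simp only [NS, Set.mem_ofPred_eq] at this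
      rw [abs_sub_comm]
      exact this)
    rwa [Finset.card_image_of_injective _ Prod.swap_injective] at this
  have c4 := piece3 ha hb hη0 x hx1 S4 (fun p hp => ⟨(hS p (Finset.mem_filter.1 hp).1).1,
    (Finset.mem_filter.1 hp).2⟩)
  have c5 := h4 x hxX4 S5 (fun p hp => by
    obtain ⟨g1, g2, g3, g4⟩ := Finset.mem_filter.1 hp
    refine ⟨(hS p g1).1, g2, g3, g4, ?_⟩
    by_contra g5
    push Not at g5
    apply (hS p g1).2
    apply h0 x hxX0 p (hS p g1).1
    rw [lt_pow_iff ha (by positivity), Real.log_pow]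
    rw [mul_div_assoc]
    exact_mod_cast g5)
  have e1 : (η * (log x / log a) + 1) * (2 / log b + 2) = ε / 4 * log x + D := by
    rw [← hD, hη]; field_simp
  have hK' : (0 : ℝ) < K := by exact_mod_cast hK0
  have e2 : (2 * (log x / log a)) / K ≤ ε / 4 * log x := by
    have hlx0 : 0 ≤ log x := Real.log_nonneg hx1
    rw [div_lt_iff₀ (by positivity)] at hK
    rw [div_le_iff₀ hK', ← mul_div_assoc, div_le_iff₀ hla]
    nlinarith
  rw [e1] at c4
  linarith

end Pool.Agent.X173.NCG
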