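import Mathlib
import Pool.Agent.X173.NCI

set_option autoImplicit false

namespace Pool.Agent.X173.NCG

open Real Filter Topology Set

/-- pairs with both powers at most `x` -/
lemma both_mem {a b x : ℝ} (ha : 1 < a) (hb : 1 < b) {n m : ℕ} (h1 : a ^ n ≤ x) (h2 : b ^ m ≤ x) :
    (n, m) ∈ NS a b x := by
  have h3 : 1 ≤ a ^ n := one_le_pow₀ ha.le
  have h4 : 1 ≤ b ^ m := one_le_pow₀ hb.le
  simp only [NS, Set.mem_ofPred_eq]
  rw [abs_le]
  constructor <;> linarith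

/-- the rectangle -/
noncomputable def R1 (a b x : ℝ) : Finset (ℕ × ℕ) :=
  Finset.range (⌊log x / log a⌋₊ + 1) ×ˢ Finset.range (⌊log x / log b⌋₊ + 1)

lemma R1_mem {a b x : ℝ} (ha : 1 < a) (hb : 1 < b) (hx : 1 ≤ x) {p : ℕ × ℕ} (hp : p ∈ R1 a b x) :
    a ^ p.1 ≤ x ∧ b ^ p.2 ≤ x := by
  have hla : 0 < log a := log_pos ha
  have hlb : 0 < log b := log_pos hb
  have hlx : 0 ≤ log x := Real.log_nonneg hx
  rw [R1, Finset.mem_product, Finset.mem_range, Finset.mem_range] at hp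
  rw [pow_le_iff ha (by linarith), pow_le_iff hb (by linarith)]
  exact ⟨(Nat.le_floor_iff (by positivity)).1 (Nat.lt_succ_iff.1 hp.1),
    (Nat.le_floor_iff (by positivity)).1 (Nat.lt_succ_iff.1 hp.2)⟩

lemma R1_card (a b x : ℝ) : ((R1 a b x).card : ℝ) =
    ((⌊log x / log a⌋₊ : ℝ) + 1) * ((⌊log x / log b⌋₊ : ℝ) + 1) := by
  rw [R1, Finset.card_product, Finset.card_range, Finset.card_range]
  push_cast
  ring

lemma lower {a b ε : ℝ} (ha : 1 < a) (hb : 1 < b) (hirr : Irrational (log a / log b))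
    (hε : 0 < ε) :
    ∃ X : ℝ, 1 ≤ X ∧ ∀ x : ℝ, X ≤ x → ∃ S : Finset (ℕ × ℕ),
      (∀ p ∈ S, p ∈ NS a b x ∧ p ∉ MU a b x) ∧
      ((⌊log x / log a⌋₊ : ℝ) + 1) * ((⌊log x / log b⌋₊ : ℝ) + 1) - ε * log x ≤ (S.card : ℝ) := by
  classical
  have hla : 0 < log a := log_pos ha
  have hlb : 0 < log b := log_pos hb
  obtain ⟨K, hK⟩ := exists_nat_gt (2 / (ε * log a))
  have hK0 : 0 < K := by
    have : (0 : ℝ) < K := lt_trans (by positivity) hK
    exact_mod_cast this
  have hK' : (1 : ℝ) ≤ K := by exact_mod_cast hK0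
  obtain ⟨ε0, hε0, hsep⟩ := sep ha hb hirr K
  obtain ⟨n1, hn1⟩ := nm_small ha hb hε0
  have hF := nm_fin ha hb n1
  set c0 : ℝ := (hF.toFinset.card : ℝ) with hc0
  refine ⟨exp ((c0 + 3) / (ε / 2)), by rw [Real.one_le_exp_iff]; positivity, fun x hx => ?_⟩
  have hx0 : 0 < x := (exp_pos _).trans_le hx
  have hlx : (c0 + 3) / (ε / 2) ≤ log x := by rwa [Real.le_log_iff_exp_le hx0]
  have hlx0 : 0 ≤ log x := le_trans (by positivity) hlx
  have hx1 : 1 ≤ x := (Real.log_nonneg_iff hx0).1 hlx0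
  have hlx' : c0 + 3 ≤ log x * (ε / 2) := by rwa [div_le_iff₀ (by positivity)] at hlx
  set T := (R1 a b x).filter (fun p => p ∈ NM a b ∧ n1 ≤ p.1) with hT
  refine ⟨(R1 a b x).filter (fun p => p ∉ MU a b x), fun p hp => ?_, ?_⟩
  · obtain ⟨g1, g2⟩ := Finset.mem_filter.1 hp
    have g3 := R1_mem ha hb hx1 g1
    exact ⟨both_mem ha hb g3.1 g3.2, g2⟩
  · have hsplit := Finset.card_filter_add_card_filter_not (s := R1 a b x) (fun p => p ∈ MU a b x)
    have hsub : (R1 a b x).filter (fun p => p ∈ MU a b x) ⊆ hF.toFinset ∪ T := by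
      intro p hp
      obtain ⟨g1, g2⟩ := Finset.mem_filter.1 hp
      rw [Finset.mem_union, Set.Finite.mem_toFinset]
      rcases Nat.lt_or_ge p.1 n1 with g3 | g3
      · exact Or.inl ⟨g2.1, g3⟩
      · exact Or.inr (Finset.mem_filter.2 ⟨g1, g2.1, g3⟩)
    have h1 := (Finset.card_le_card hsub).trans (Finset.card_union_le _ _)
    have h2 : (T.card : ℝ) ≤ (log x / log a + 1) / K + 2 := by
      refine card_sep hK0 (-1) (L := log x / log a + 1) (by positivity) (fun p hp => ?_)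
        (fun p hp q hq hpq => ?_)
      · obtain ⟨g1, g2, g3⟩ := Finset.mem_filter.1 hp
        have g4 := (R1_mem ha hb hx1 g1).1
        rw [pow_le_iff ha hx0] at g4
        constructor
        · linarith [Nat.cast_nonneg (α := ℝ) p.1]
        · linarith
      · obtain ⟨-, g2, g3⟩ := Finset.mem_filter.1 hp
        obtain ⟨-, g5, g6⟩ := Finset.mem_filter.1 hq
        exact hsep p q (hn1 p g2 g3) (hn1 q g5 g6) hpq
    have h3 : (log x / log a) / K ≤ ε / 2 * log x := by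
      rw [div_lt_iff₀ (by positivity)] at hK
      rw [div_le_iff₀ (by linarith), div_le_iff₀ hla]
      nlinarith
    have h4 : (1 : ℝ) / K ≤ 1 := by rw [div_le_one (by linarith)]; exact hK'
    rw [add_div] at h2
    have h5 : (((R1 a b x).filter (fun p => p ∈ MU a b x)).card : ℝ) ≤ c0 + T.card := by
      rw [hc0]; exact_mod_cast h1
    have h6 : (((R1 a b x).filter (fun p => p ∈ MU a b x)).card : ℝ) +
        (((R1 a b x).filter (fun p => p ∉ MU a b x)).card : ℝ) = ((R1 a b x).card : ℝ) := by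
      exact_mod_cast hsplit
    rw [R1_card] at h6
    linarith

/-- the number of pairs that are not near misses -/
noncomputable def W (a b x : ℝ) : ℝ := ((NS a b x).ncard : ℝ) - ((MU a b x).ncard : ℝ)

lemma MU_sub (a b x : ℝ) : MU a b x ⊆ NS a b x := fun _ hp => hp.2

lemma NS_mono {a b x y : ℝ} (h : x ≤ y) : NS a b x ⊆ NS a b y := fun _ hp => le_trans hp h

lemma MU_mono {a b x y : ℝ} (h : x ≤ y) : MU a b x ⊆ MU a b y := fun _ hp => ⟨hp.1, hp.2.trans h⟩

lemma fin_of_card {S : Set (ℕ × ℕ)} {C : ℝ} (h : ∀ T : Finset (ℕ × ℕ), (∀ p ∈ T, p ∈ S) →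
    (T.card : ℝ) ≤ C) : S.Finite ∧ (S.ncard : ℝ) ≤ C := by
  have hfin : S.Finite := by
    by_contra hinf
    obtain ⟨n, hn⟩ := exists_nat_gt C
    obtain ⟨T, hT1, hT2⟩ := Set.Infinite.exists_subset_card_eq hinf n
    have := h T (fun p hp => hT1 hp)
    rw [hT2] at this
    linarith
  refine ⟨hfin, ?_⟩
  have := h hfin.toFinset (fun p hp => hfin.mem_toFinset.1 hp)
  rwa [← Set.ncard_eq_toFinset_card S hfin] at this

lemma all_fin {a b : ℝ} (ha : 1 < a) (hb : 1 < b) (hirr : Irrational (log a / log b))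
    (hM : ∀ x, (MU a b x).Finite) (x : ℝ) : (NS a b x).Finite := by
  obtain ⟨X, hX, h⟩ := upper ha hb hirr (hM 1) one_pos one_pos
  have h1 := (fin_of_card (S := NS a b (max x X) \ MU a b (max x X))
    (h (max x X) (le_max_right _ _))).1
  have h2 := h1.union (hM (max x X))
  refine h2.subset ?_
  rw [Set.sdiff_union_self]
  exact (NS_mono (le_max_left _ _)).trans Set.subset_union_left

theorem est {a b κ ε : ℝ} (ha : 1 < a) (hb : 1 < b) (hirr : Irrational (log a / log b))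
    (hM : ∀ x, (MU a b x).Finite) (hκ : 0 < κ) (hε : 0 < ε) :
    ∃ X : ℝ, 1 ≤ X ∧ ∀ x : ℝ, X ≤ x →
      ((⌊log x / log a⌋₊ : ℝ) + 1) * ((⌊log x / log b⌋₊ : ℝ) + 1) - ε * log x ≤ W a b x ∧
      W a b x ≤ ((⌊(log x + κ) / log a⌋₊ : ℝ) + 1) * ((⌊(log x + κ) / log b⌋₊ : ℝ) + 1) +
        ε * log x := by
  obtain ⟨X1, hX1, h1⟩ := upper ha hb hirr (hM 1) hκ hε
  obtain ⟨X2, hX2, h2⟩ := lower ha hb hirr hε
  refine ⟨max X1 X2, hX1.trans (le_max_left _ _), fun x hx => ?_⟩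
  have hx1 : X1 ≤ x := (le_max_left _ _).trans hx
  have hx2 : X2 ≤ x := (le_max_right _ _).trans hx
  obtain ⟨g1, g2⟩ := fin_of_card (S := NS a b x \ MU a b x) (h1 x hx1)
  have hfin := all_fin ha hb hirr hM x
  have e : W a b x = ((NS a b x \ MU a b x).ncard : ℝ) := by
    have := Set.ncard_sdiff_add_ncard_of_subset (MU_sub a b x) hfin
    rw [W, ← this]
    push_cast
    ring
  refine ⟨?_, by rw [e]; exact g2⟩
  obtain ⟨S, hS, hS2⟩ := h2 x hx2
  rw [e]
  refine hS2.trans ?_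
  rw [← Set.ncard_coe_finset S]
  exact_mod_cast Set.ncard_le_ncard (fun p hp => hS p hp) g1

end Pool.Agent.X173.NCG
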