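import Mathlib
import Pool.Agent.X173.NCJ

set_option autoImplicit false

namespace Pool.Agent.X173.NCG

open Real Filter Topology Set

/-- the normalised error term -/
noncomputable def Dx (a b x : ℝ) : ℝ := (W a b x - log x ^ 2 / (log a * log b)) / log x

lemma bounds {a b ε : ℝ} (ha : 1 < a) (hb : 1 < b) (hirr : Irrational (log a / log b))
    (hM : ∀ x, (MU a b x).Finite) (hε : 0 < ε) :
    ∃ X : ℝ, 1 < X ∧ ∀ x : ℝ, X ≤ x → -ε ≤ Dx a b x ∧ Dx a b x ≤ 1 / log a + 1 / log b + ε := by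
  have hla : 0 < log a := log_pos ha
  have hlb : 0 < log b := log_pos hb
  set κ : ℝ := ε * (log a * log b) / 8 with hκ
  have hκ0 : 0 < κ := by positivity
  obtain ⟨X, hX, h⟩ := est ha hb hirr hM hκ0 (show 0 < ε / 2 by positivity)
  set C : ℝ := (1 + κ / log a) * (1 + κ / log b) with hC
  have hC0 : 0 < C := by positivity
  refine ⟨max X (exp (C / (ε / 4) + 1)), ?_, fun x hx => ?_⟩
  · refine lt_of_lt_of_le ?_ (le_max_right _ _)
    rw [Real.one_lt_exp_iff]
    positivity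
  have hxX : X ≤ x := (le_max_left _ _).trans hx
  have hx0 : 0 < x := by linarith
  have hlx : C / (ε / 4) + 1 ≤ log x := by
    rw [Real.le_log_iff_exp_le hx0]; exact (le_max_right _ _).trans hx
  have hlx0 : 0 < log x := lt_of_lt_of_le (by positivity) hlx
  have hlx' : C ≤ log x * (ε / 4) := by
    have : C / (ε / 4) ≤ log x := by linarith
    rwa [div_le_iff₀ (by positivity)] at this
  obtain ⟨h1, h2⟩ := h x hxX
  set y := log x with hy
  constructor
  · rw [Dx, le_div_iff₀ hlx0]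
    have g1 : y / log a ≤ (⌊y / log a⌋₊ : ℝ) + 1 := (Nat.lt_floor_add_one _).le
    have g2 : y / log b ≤ (⌊y / log b⌋₊ : ℝ) + 1 := (Nat.lt_floor_add_one _).le
    have g3 : y / log a * (y / log b) ≤ ((⌊y / log a⌋₊ : ℝ) + 1) * ((⌊y / log b⌋₊ : ℝ) + 1) :=
      mul_le_mul g1 g2 (by positivity) (by positivity)
    have g4 : y / log a * (y / log b) = y ^ 2 / (log a * log b) := by field_simp
    rw [g4] at g3
    nlinarith
  · rw [Dx, div_le_iff₀ hlx0]
    have g1 : (⌊(y + κ) / log a⌋₊ : ℝ) ≤ (y + κ) / log a := Nat.floor_le (by positivity)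
    have g2 : (⌊(y + κ) / log b⌋₊ : ℝ) ≤ (y + κ) / log b := Nat.floor_le (by positivity)
    have g3 : ((⌊(y + κ) / log a⌋₊ : ℝ) + 1) * ((⌊(y + κ) / log b⌋₊ : ℝ) + 1) ≤
        ((y + κ) / log a + 1) * ((y + κ) / log b + 1) :=
      mul_le_mul (by linarith) (by linarith) (by positivity) (by positivity)
    have g4 : ((y + κ) / log a + 1) * ((y + κ) / log b + 1) =
        y ^ 2 / (log a * log b) + y * (1 / log a + 1 / log b) + y * (ε / 4) + C := by
      rw [hC, hκ]
      field_simp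
      ring
    rw [g4] at g3
    nlinarith

/-- inhomogeneous approximation with bounded gaps -/
lemma kron {α : ℝ} (hα : Irrational α) (θ : ℝ) {ε : ℝ} (hε : 0 < ε) :
    ∃ G : ℕ, ∀ J : ℕ, ∃ j : ℕ, J ≤ j ∧ j ≤ J + G ∧ ∃ m : ℤ, |(j : ℝ) * α - θ - m| < ε := by
  -- a small multiple
  obtain ⟨N, hN⟩ := exists_nat_gt (1 / ε)
  have hN0 : 0 < N := by
    have : (0 : ℝ) < N := lt_trans (by positivity) hN
    exact_mod_cast this
  obtain ⟨l, k, hk0, hkN, hkl⟩ := Real.exists_int_int_abs_mul_sub_le α hN0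
  obtain ⟨n1, rfl⟩ := Int.eq_ofNat_of_zero_le hk0.le
  have hn1 : 0 < n1 := by exact_mod_cast hk0
  set β : ℝ := (n1 : ℝ) * α - l with hβ
  have hβε : |β| < ε := by
    have h1 : |β| ≤ 1 / ((N : ℝ) + 1) := by
      rw [hβ]; exact_mod_cast hkl
    refine h1.trans_lt ?_
    rw [div_lt_iff₀ (by positivity)]
    rw [div_lt_iff₀ hε] at hN
    nlinarith
  have hβ0 : β ≠ 0 := by
    rw [hβ, sub_ne_zero]
    exact (hα.natCast_mul (by omega)).ne_int _
  have key : ∀ (β' θ' : ℝ), 0 < β' → β' < ε → ∀ i0 : ℕ, ∃ i : ℕ, i0 ≤ i ∧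
      (i : ℝ) ≤ i0 + 1 / β' + 1 ∧ ∃ m : ℤ, |(i : ℝ) * β' - θ' - m| < ε := by
    intro β' θ' h1 h2 i0
    set k := ⌈(i0 : ℝ) * β' - θ'⌉ with hk
    have e1 := Int.le_ceil ((i0 : ℝ) * β' - θ')
    have e2 := Int.ceil_lt_add_one ((i0 : ℝ) * β' - θ')
    rw [← hk] at e1 e2
    have e3 : (i0 : ℝ) ≤ (θ' + k) / β' := by rw [le_div_iff₀ h1]; linarith
    have e3' : 0 ≤ (θ' + k) / β' := le_trans (Nat.cast_nonneg _) e3
    have e4 : (θ' + k) / β' < i0 + 1 / β' := by
      rw [div_lt_iff₀ h1, add_mul, div_mul_cancel₀ _ h1.ne']; linarith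
    have e5 := Nat.le_ceil ((θ' + k) / β')
    have e6 := Nat.ceil_lt_add_one e3'
    refine ⟨⌈(θ' + k) / β'⌉₊, by exact_mod_cast e3.trans e5, by linarith, k, ?_⟩
    have e7 : θ' + k ≤ (⌈(θ' + k) / β'⌉₊ : ℝ) * β' := by rwa [div_le_iff₀ h1] at e5
    have e8 : (⌈(θ' + k) / β'⌉₊ : ℝ) * β' < θ' + k + β' := by
      have : (⌈(θ' + k) / β'⌉₊ : ℝ) * β' < ((θ' + k) / β' + 1) * β' :=
        mul_lt_mul_of_pos_right e6 h1
      rwa [add_mul, div_mul_cancel₀ _ h1.ne', one_mul] at this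
    rw [abs_lt]
    constructor <;> linarith
  obtain ⟨g, hg⟩ := exists_nat_gt (1 / |β| + 1)
  refine ⟨n1 + n1 * g, fun J => ?_⟩
  have hi : ∃ i : ℕ, J / n1 + 1 ≤ i ∧ (i : ℝ) ≤ ((J / n1 + 1 : ℕ) : ℝ) + 1 / |β| + 1 ∧
      ∃ m : ℤ, |(i : ℝ) * β - θ - m| < ε := by
    rcases lt_or_gt_of_ne hβ0 with h | h
    · obtain ⟨i, h1, h2, m, h3⟩ := key (-β) (-θ) (by linarith) (by rwa [abs_of_neg h] at hβε)
        (J / n1 + 1)
      refine ⟨i, h1, by rwa [abs_of_neg h], -m, ?_⟩
      rw [← abs_neg]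
      convert h3 using 2
      push_cast
      ring
    · obtain ⟨i, h1, h2, m, h3⟩ := key β θ h (by rwa [abs_of_pos h] at hβε) (J / n1 + 1)
      exact ⟨i, h1, by rwa [abs_of_pos h], m, h3⟩
  obtain ⟨i, h1, h2, m, h3⟩ := hi
  have hig : i ≤ J / n1 + 1 + g := by
    have : (i : ℝ) < ((J / n1 + 1 : ℕ) : ℝ) + g := by linarith
    have h4 : i < J / n1 + 1 + g := by exact_mod_cast this
    omega
  have e1 := Nat.div_add_mod J n1
  have e2 := Nat.mod_lt J hn1
  refine ⟨n1 * i, ?_, ?_, m + i * l, ?_⟩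
  · have : n1 * (J / n1 + 1) ≤ n1 * i := Nat.mul_le_mul_left _ h1
    rw [mul_add, mul_one] at this
    omega
  · have : n1 * i ≤ n1 * (J / n1 + 1 + g) := Nat.mul_le_mul_left _ hig
    rw [mul_add, mul_add, mul_one] at this
    omega
  · convert h3 using 2
    rw [hβ]
    push_cast
    ring

/-- the values of the error term along suitable sequences -/
lemma points {a b σ ε : ℝ} (ha : 1 < a) (hb : 1 < b) (hirr : Irrational (log a / log b))
    (hM : ∀ x, (MU a b x).Finite) (hσ : 0 < σ) (hσ1 : σ < 1) (hε : 0 < ε) :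
    ∃ Y0 G : ℝ, ∀ Y : ℝ, Y0 ≤ Y → ∃ y : ℝ, Y ≤ y ∧ y ≤ Y + G ∧
      |Dx a b (exp y) - (1 - σ) * (1 / log a + 1 / log b)| < ε := by
  have hla : 0 < log a := log_pos ha
  have hlb : 0 < log b := log_pos hb
  set ρ : ℝ := min σ (1 - σ) / 2 with hρ
  have hρ0 : 0 < ρ := by
    rw [hρ]
    have : 0 < min σ (1 - σ) := lt_min hσ (by linarith)
    positivity
  have hρ1 : 2 * ρ ≤ σ := by rw [hρ]; linarith [min_le_left σ (1 - σ)]
  have hρ2 : 2 * ρ ≤ 1 - σ := by rw [hρ]; linarith [min_le_right σ (1 - σ)]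
  set κ : ℝ := ρ / 2 * min (log a) (log b) with hκ
  have hκ0 : 0 < κ := by
    have : 0 < min (log a) (log b) := lt_min hla hlb
    positivity
  have hκa : κ / log a ≤ ρ / 2 := by
    rw [div_le_iff₀ hla, hκ]
    exact mul_le_mul_of_nonneg_left (min_le_left _ _) (by positivity)
  have hκb : κ / log b ≤ ρ / 2 := by
    rw [div_le_iff₀ hlb, hκ]
    exact mul_le_mul_of_nonneg_left (min_le_right _ _) (by positivity)
  set ε1 : ℝ := min ρ (ε * log a / 4) with hε1
  have hε10 : 0 < ε1 := lt_min hρ0 (by positivity)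
  set α : ℝ := log a / log b with hα
  obtain ⟨X, hX, h⟩ := est ha hb hirr hM hκ0 (show 0 < ε / 4 by positivity)
  obtain ⟨G, hG⟩ := kron hirr (σ * (1 - α)) hε10
  refine ⟨max (log X) (max (log b) (4 / ε + 1)), (G + 2) * log a, fun Y hY => ?_⟩
  have hY1 : log X ≤ Y := (le_max_left _ _).trans hY
  have hY2 : log b ≤ Y := ((le_max_left _ _).trans (le_max_right _ _)).trans hY
  have hY3 : 4 / ε + 1 ≤ Y := ((le_max_right _ _).trans (le_max_right _ _)).trans hY
  have hY0 : 0 < Y := lt_of_lt_of_le (by positivity) hY3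
  obtain ⟨j, hj1, hj2, m, hm⟩ := hG ⌈Y / log a⌉₊
  set y : ℝ := (j + σ) * log a with hy
  have e1 := Nat.le_ceil (Y / log a)
  have e2 := Nat.ceil_lt_add_one (show 0 ≤ Y / log a by positivity)
  have hj1' : (⌈Y / log a⌉₊ : ℝ) ≤ j := by exact_mod_cast hj1
  have hj2' : (j : ℝ) ≤ (⌈Y / log a⌉₊ : ℝ) + G := by exact_mod_cast hj2
  have e3 : Y ≤ j * log a := by
    have : Y / log a ≤ j := e1.trans hj1'
    rwa [div_le_iff₀ hla] at this
  have hYy : Y ≤ y := by rw [hy]; nlinarith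
  have hy0 : 0 < y := by linarith
  have hyY : y ≤ Y + (G + 2) * log a := by
    have h1 : (j : ℝ) ≤ Y / log a + 1 + G := by linarith
    have h2 : (j : ℝ) * log a ≤ (Y / log a + 1 + G) * log a :=
      mul_le_mul_of_nonneg_right h1 hla.le
    have h3 : (Y / log a + 1 + G) * log a = Y + (1 + G) * log a := by field_simp; ring
    rw [h3] at h2
    rw [hy]
    nlinarith
  refine ⟨y, hYy, hyY, ?_⟩
  -- the second coordinate
  set e : ℝ := (j : ℝ) * α - σ * (1 - α) - m with he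
  have hyb : y / log b = m + σ + e := by
    rw [he, hy, hα]; field_simp; ring
  have hya : y / log a = j + σ := by rw [hy]; field_simp
  have heρ := abs_lt.1 (hm.trans_le (min_le_left _ _))
  have heε := abs_lt.1 (hm.trans_le (min_le_right _ _))
  have hm0 : 0 ≤ m := by
    by_contra hcon
    push Not at hcon
    have h1 : (m : ℝ) ≤ -1 := by exact_mod_cast (show m ≤ -1 by omega)
    have h2 : 1 ≤ y / log b := by rw [le_div_iff₀ hlb]; linarith
    rw [hyb] at h2
    linarith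
  obtain ⟨m', rfl⟩ := Int.eq_ofNat_of_zero_le hm0
  have hXy : X ≤ exp y := by
    have hX0 : 0 < X := by linarith
    calc X = exp (log X) := (Real.exp_log hX0).symm
      _ ≤ exp y := Real.exp_le_exp.2 (by linarith)
  obtain ⟨h1, h2⟩ := h (exp y) hXy
  rw [Real.log_exp] at h1 h2
  have f1 : ⌊y / log a⌋₊ = j := by
    rw [Nat.floor_eq_iff (by positivity), hya]
    constructor <;> linarith
  have f2 : ⌊y / log b⌋₊ = m' := by
    rw [Nat.floor_eq_iff (by positivity), hyb]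
    push_cast
    constructor <;> linarith
  have f3 : ⌊(y + κ) / log a⌋₊ = j := by
    rw [Nat.floor_eq_iff (by positivity), add_div, hya]
    have : 0 < κ / log a := by positivity
    constructor <;> linarith
  have f4 : ⌊(y + κ) / log b⌋₊ = m' := by
    rw [Nat.floor_eq_iff (by positivity), add_div, hyb]
    have : 0 < κ / log b := by positivity
    push_cast
    constructor <;> linarith
  rw [f1, f2] at h1
  rw [f3, f4] at h2
  have hj' : (j : ℝ) = y / log a - σ := by rw [hya]; ring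
  have hm' : (m' : ℝ) = y / log b - σ - e := by rw [hyb]; push_cast; ring
  have hprod : ((j : ℝ) + 1) * ((m' : ℝ) + 1) = y ^ 2 / (log a * log b) +
      y * ((1 - σ - e) / log a + (1 - σ) / log b) + (1 - σ) * (1 - σ - e) := by
    rw [hj', hm']; field_simp; ring
  rw [hprod] at h1 h2
  have hD : Dx a b (exp y) = (W a b (exp y) - y ^ 2 / (log a * log b)) / y := by
    rw [Dx, Real.log_exp]
  rw [hD]
  set w : ℝ := W a b (exp y) - y ^ 2 / (log a * log b) with hw
  have r1 : 0 ≤ (1 - σ) * (1 - σ - e) := mul_nonneg (by linarith) (by linarith)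
  have r2 : (1 - σ) * (1 - σ - e) ≤ 1 := by
    have : (1 - σ) * (1 - σ - e) ≤ 1 * 1 :=
      mul_le_mul (by linarith) (by linarith) (by linarith) (by norm_num)
    linarith
  have r3 : |e / log a| ≤ ε / 4 := by
    rw [abs_div, abs_of_pos hla, div_le_iff₀ hla]
    have := (hm.trans_le (min_le_right _ _)).le
    linarith
  have r3' := abs_le.1 r3
  have r4 : 1 ≤ y * (ε / 4) := by
    have : 4 / ε ≤ y := by linarith
    rw [div_le_iff₀ hε] at this
    linarith
  have r5 : (1 - σ - e) / log a + (1 - σ) / log b =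
      (1 - σ) * (1 / log a + 1 / log b) - e / log a := by ring
  rw [r5] at h1 h2
  set P : ℝ := (1 - σ) * (1 / log a + 1 / log b) with hP
  have r6 : y * (e / log a) ≤ y * (ε / 4) := mul_le_mul_of_nonneg_left r3'.2 hy0.le
  have r7 : y * (-(ε / 4)) ≤ y * (e / log a) := mul_le_mul_of_nonneg_left r3'.1 hy0.le
  have hlow : (P - 3 * ε / 4) * y ≤ w := by
    have : (P - 3 * ε / 4) * y = y * (P - e / log a) + y * (e / log a) - 3 * (y * (ε / 4)) := by
      ring
    rw [hw, this]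
    linarith
  have hupp : w ≤ (P + 3 * ε / 4) * y := by
    have : (P + 3 * ε / 4) * y = y * (P - e / log a) + y * (e / log a) + 3 * (y * (ε / 4)) := by
      ring
    rw [hw, this]
    linarith
  rw [← le_div_iff₀ hy0] at hlow
  rw [← div_le_iff₀ hy0] at hupp
  rw [abs_lt]
  constructor <;> linarith

end Pool.Agent.X173.NCG
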