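import Mathlib
import Pool.Agent.X173.NCK

set_option autoImplicit false

namespace Pool.Agent.X173.NCG

open Real Filter Topology Set

/-- finiteness gives irrationality -/
lemma irr_of_fin {a b : ℝ} (ha : 1 < a) (hb : 1 < b) (hN : (NS a b 0).Finite) :
    Irrational (log a / log b) := by
  have hla : 0 < log a := log_pos ha
  have hlb : 0 < log b := log_pos hb
  rintro ⟨q, hq⟩
  have hq0 : 0 < q := by
    have : (0 : ℝ) < q := by rw [hq]; positivity
    exact_mod_cast this
  -- `q = n / d`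
  set d := q.den with hd
  obtain ⟨n, hn⟩ := Int.eq_ofNat_of_zero_le (Rat.num_nonneg.2 hq0.le)
  have hd0 : 0 < d := q.den_pos
  have h1 : (d : ℝ) * log a = n * log b := by
    have h2 : (q : ℝ) = n / d := by
      have := Rat.num_div_den q
      rw [hn] at this
      rw [← this]
      push_cast
      rfl
    rw [h2] at hq
    have hd' : (d : ℝ) ≠ 0 := by exact_mod_cast hd0.ne'
    rw [div_eq_div_iff hd' hlb.ne'] at hq
    linarith
  have h2 : a ^ d = b ^ n := by
    have h3 : log (a ^ d) = log (b ^ n) := by rw [Real.log_pow, Real.log_pow, h1]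
    exact Real.log_injOn_pos (by simp only [Set.mem_Ioi]; positivity)
      (by simp only [Set.mem_Ioi]; positivity) h3
  refine Set.infinite_of_injective_forall_mem (f := fun k : ℕ => ((d * k, n * k) : ℕ × ℕ))
    (fun i j hij => ?_) (fun k => ?_) hN
  · simp only [Prod.mk.injEq] at hij
    exact Nat.eq_of_mul_eq_mul_left hd0 hij.1
  · simp only [NS, Set.mem_ofPred_eq, pow_mul, h2, sub_self, abs_zero, le_refl]

/-- the frequently attained values -/
lemma freq {a b : ℝ} (ha : 1 < a) (hb : 1 < b) (hirr : Irrational (log a / log b))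
    (hM : ∀ x, (MU a b x).Finite) {t : ℝ} (ht : t ∈ Icc 0 (1 / log a + 1 / log b)) {ε : ℝ}
    (hε : 0 < ε) :
    ∃ Y0 G : ℝ, ∀ Y : ℝ, Y0 ≤ Y → ∃ y : ℝ, Y ≤ y ∧ y ≤ Y + G ∧ |Dx a b (exp y) - t| < ε := by
  have hla : 0 < log a := log_pos ha
  have hlb : 0 < log b := log_pos hb
  set T : ℝ := 1 / log a + 1 / log b with hT
  have hT0 : 0 < T := by positivity
  obtain ⟨ht0, htT⟩ := ht
  -- the parameter, moved into the open interval
  set τ : ℝ := min (ε / (4 * T)) (1 / 2) with hτ
  have hτ0 : 0 < τ := lt_min (by positivity) (by norm_num)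
  have hτ1 : τ ≤ 1 / 2 := min_le_right _ _
  have hτ2 : τ * T ≤ ε / 4 := by
    have : τ ≤ ε / (4 * T) := min_le_left _ _
    rw [le_div_iff₀ (by positivity)] at this
    linarith
  set σ0 : ℝ := 1 - t / T with hσ0
  have h0 : 0 ≤ t / T := by positivity
  have h1 : t / T ≤ 1 := by rw [div_le_one hT0]; exact htT
  set σ : ℝ := (1 - τ) * σ0 + τ * (1 / 2) with hσ
  have hσp : 0 < σ := by
    have : 0 ≤ (1 - τ) * σ0 := mul_nonneg (by linarith) (by rw [hσ0]; linarith)
    rw [hσ]; linarith
  have hσ1 : σ < 1 := by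
    have : (1 - τ) * σ0 ≤ (1 - τ) * 1 := mul_le_mul_of_nonneg_left (by rw [hσ0]; linarith)
      (by linarith)
    rw [hσ]; linarith
  obtain ⟨Y0, G, h⟩ := points ha hb hirr hM hσp hσ1 (show 0 < ε / 2 by positivity)
  refine ⟨Y0, G, fun Y hY => ?_⟩
  obtain ⟨y, g1, g2, g3⟩ := h Y hY
  refine ⟨y, g1, g2, ?_⟩
  have g4 : (1 - σ) * T - t = τ * T * (σ0 - 1 / 2) := by
    have : t = (1 - σ0) * T := by rw [hσ0]; field_simp; ring
    rw [hσ]
    conv_lhs => rw [this]
    ring
  have g5 : |(1 - σ) * T - t| ≤ ε / 4 := by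
    rw [g4, abs_mul, abs_of_pos (by positivity)]
    have : |σ0 - 1 / 2| ≤ 1 := by
      rw [abs_le]; constructor <;> (rw [hσ0]; linarith)
    calc τ * T * |σ0 - 1 / 2| ≤ τ * T * 1 := mul_le_mul_of_nonneg_left this (by positivity)
      _ ≤ ε / 4 := by linarith
  rw [← hT] at g3
  calc |Dx a b (exp y) - t| = |(Dx a b (exp y) - (1 - σ) * T) + ((1 - σ) * T - t)| := by ring_nf
    _ ≤ |Dx a b (exp y) - (1 - σ) * T| + |(1 - σ) * T - t| := abs_add_le _ _
    _ < ε := by linarith

/-- the set of limit points -/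
theorem cluster {a b : ℝ} (ha : 1 < a) (hb : 1 < b) (hirr : Irrational (log a / log b))
    (hM : ∀ x, (MU a b x).Finite) (t : ℝ) :
    MapClusterPt t atTop (Dx a b) ↔ t ∈ Icc 0 (1 / log a + 1 / log b) := by
  constructor
  · intro h
    have key : ∀ ε : ℝ, 0 < ε → -ε ≤ t ∧ t ≤ 1 / log a + 1 / log b + ε := by
      intro ε hε
      obtain ⟨X, hX, hb2⟩ := bounds ha hb hirr hM hε
      have h1 : ∀ᶠ x in atTop, Dx a b x ∈ Icc (-ε) (1 / log a + 1 / log b + ε) := by
        filter_upwards [eventually_ge_atTop X] with x hx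
        exact hb2 x hx
      exact (isClosed_Icc.mem_of_mapClusterPt h h1)
    constructor
    · refine le_of_forall_pos_le_add fun ε hε => ?_
      linarith [(key ε hε).1]
    · refine le_of_forall_pos_le_add fun ε hε => ?_
      linarith [(key ε hε).2]
  · intro ht
    rw [mapClusterPt_iff_frequently]
    intro s hs
    obtain ⟨ε, hε, hs2⟩ := Metric.mem_nhds_iff.1 hs
    obtain ⟨Y0, G, h⟩ := freq ha hb hirr hM ht hε
    rw [Filter.frequently_atTop]
    intro X
    obtain ⟨y, g1, g2, g3⟩ := h (max Y0 (log (max X 1))) (le_max_left _ _)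
    refine ⟨exp y, ?_, hs2 ?_⟩
    · have h1 : log (max X 1) ≤ y := (le_max_right _ _).trans g1
      have h2 : 0 < max X 1 := lt_max_of_lt_right one_pos
      calc X ≤ max X 1 := le_max_left _ _
        _ = exp (log (max X 1)) := (Real.exp_log h2).symm
        _ ≤ exp y := Real.exp_le_exp.2 h1
    · rw [Metric.mem_ball, Real.dist_eq]
      exact g3

/-- the criterion -/
theorem criterion {a b : ℝ} (ha : 1 < a) (hb : 1 < b) (hirr : Irrational (log a / log b))
    (hM : ∀ x, (MU a b x).Finite) :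
    (∀ ε : ℝ, 0 < ε → ∀ᶠ x : ℝ in atTop, ((NS a b x).ncard : ℝ) ≤
      log x ^ 2 / (log a * log b) + (1 / log a + 1 / log b + ε) * log x) ↔
    (fun x : ℝ => ((MU a b x).ncard : ℝ)) =o[atTop] (fun x : ℝ => log x) := by
  have hla : 0 < log a := log_pos ha
  have hlb : 0 < log b := log_pos hb
  set T : ℝ := 1 / log a + 1 / log b with hT
  have hT0 : 0 < T := by positivity
  have eN : ∀ x : ℝ, 1 < x → ((NS a b x).ncard : ℝ) =
      log x ^ 2 / (log a * log b) + Dx a b x * log x + ((MU a b x).ncard : ℝ) := by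
    intro x hx
    have hlx : 0 < log x := Real.log_pos hx
    rw [Dx, div_mul_cancel₀ _ hlx.ne', W]
    ring
  constructor
  · intro h
    rw [Asymptotics.isLittleO_iff]
    intro c hc
    obtain ⟨X1, hX1⟩ := eventually_atTop.1 (h (c / 4) (by positivity))
    obtain ⟨Y0, G, h2⟩ := freq ha hb hirr hM (t := T) ⟨hT0.le, le_refl _⟩
      (show 0 < c / 4 by positivity)
    filter_upwards [eventually_ge_atTop (max (max X1 2) (exp (max Y0 (|G| + 1))))] with x hx
    have hx2 : X1 ≤ x := ((le_max_left _ _).trans (le_max_left _ _)).trans hx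
    have hx3 : 2 ≤ x := ((le_max_right _ _).trans (le_max_left _ _)).trans hx
    have hx0 : 0 < x := by linarith
    have hlx : max Y0 (|G| + 1) ≤ log x := by
      rw [Real.le_log_iff_exp_le hx0]; exact (le_max_right _ _).trans hx
    have hlx1 : Y0 ≤ log x := (le_max_left _ _).trans hlx
    have hlx2 : |G| + 1 ≤ log x := (le_max_right _ _).trans hlx
    have hlx0 : 0 < log x := lt_of_lt_of_le (by positivity) hlx2
    obtain ⟨y, g1, g2, g3⟩ := h2 (log x) hlx1
    have hxy : x ≤ exp y := by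
      calc x = exp (log x) := (Real.exp_log hx0).symm
        _ ≤ exp y := Real.exp_le_exp.2 g1
    have g4 := hX1 (exp y) (hx2.trans hxy)
    rw [eN (exp y) (by linarith), Real.log_exp] at g4
    have g5 := (abs_lt.1 g3).1
    have hy0 : 0 < y := by linarith
    have hyx : y ≤ 2 * log x := by linarith [le_abs_self G]
    have g6 : ((MU a b (exp y)).ncard : ℝ) ≤ c / 2 * y := by
      have : (T - c / 4) * y ≤ Dx a b (exp y) * y :=
        mul_le_mul_of_nonneg_right (by linarith) hy0.le
      nlinarith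
    have g7 : ((MU a b x).ncard : ℝ) ≤ ((MU a b (exp y)).ncard : ℝ) := by
      exact_mod_cast Set.ncard_le_ncard (MU_mono hxy) (hM _)
    rw [Real.norm_of_nonneg (Nat.cast_nonneg _), Real.norm_of_nonneg hlx0.le]
    calc ((MU a b x).ncard : ℝ) ≤ c / 2 * y := g7.trans g6
      _ ≤ c / 2 * (2 * log x) := mul_le_mul_of_nonneg_left hyx (by positivity)
      _ = c * log x := by ring
  · intro h ε hε
    obtain ⟨X, hX, hb2⟩ := bounds ha hb hirr hM (show 0 < ε / 2 by positivity)
    filter_upwards [eventually_ge_atTop X,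
      (Asymptotics.isLittleO_iff.1 h) (show 0 < ε / 2 by positivity)] with x hx hx2
    have hlx : 0 < log x := Real.log_pos (by linarith)
    rw [Real.norm_of_nonneg (Nat.cast_nonneg _), Real.norm_of_nonneg hlx.le] at hx2
    rw [eN x (by linarith)]
    have h3 := (hb2 x hx).2
    have h4 : Dx a b x * log x ≤ (T + ε / 2) * log x := mul_le_mul_of_nonneg_right h3 hlx.le
    nlinarith

/-- the lower bound -/
theorem lower_all {a b : ℝ} (ha : 1 < a) (hb : 1 < b) {x : ℝ} (hx : 1 ≤ x)
    (hN : (NS a b x).Finite) : log x ^ 2 / (log a * log b) ≤ ((NS a b x).ncard : ℝ) := by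
  have hla : 0 < log a := log_pos ha
  have hlb : 0 < log b := log_pos hb
  have hlx : 0 ≤ log x := Real.log_nonneg hx
  have h1 : ((R1 a b x).card : ℝ) ≤ ((NS a b x).ncard : ℝ) := by
    rw [← Set.ncard_coe_finset]
    refine Nat.cast_le.2 (Set.ncard_le_ncard (fun p hp => ?_) hN)
    have := R1_mem ha hb hx (Finset.mem_coe.1 hp)
    exact both_mem ha hb this.1 this.2
  refine le_trans ?_ h1
  rw [R1_card]
  have g1 : log x / log a ≤ (⌊log x / log a⌋₊ : ℝ) + 1 := (Nat.lt_floor_add_one _).le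
  have g2 : log x / log b ≤ (⌊log x / log b⌋₊ : ℝ) + 1 := (Nat.lt_floor_add_one _).le
  have g4 : log x / log a * (log x / log b) = log x ^ 2 / (log a * log b) := by field_simp
  rw [← g4]
  exact mul_le_mul g1 g2 (by positivity) (by positivity)

end Pool.Agent.X173.NCG
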