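import Mathlib
import Pool.Agent.Helper206.BoxS.IoD

open MeasureTheory Metric Set Filter Topology
open scoped Topology NNReal ENNReal

namespace Pool.Agent.X173.LM

/-- Real `m × n` matrices, identified with Euclidean space of dimension `m n`. -/
abbrev Mat (m n : ℕ) := EuclideanSpace ℝ (Fin m × Fin n)

/-- The vector `A q - p`. -/
def lin {m n : ℕ} (A : Mat m n) (q : Fin n → ℤ) (p : Fin m → ℤ) : Fin m → ℝ :=
  fun i => (∑ j, A (i, j) * (q j : ℝ)) - (p i : ℝ)

/-- Supremum norm of an integer vector. -/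
noncomputable def supNorm {n : ℕ} (q : Fin n → ℤ) : ℝ := ‖(fun j => (q j : ℝ) : Fin n → ℝ)‖

/-- Liouville matrices. -/
def IsLiouville {m n : ℕ} (A : Mat m n) : Prop :=
  (∀ (q : Fin n → ℤ) (p : Fin m → ℤ), ¬ (q = 0 ∧ p = 0) → lin A q p ≠ 0) ∧
  (∀ N : ℝ, 0 < N → ∃ (p : Fin m → ℤ) (q : Fin n → ℤ), 2 ≤ supNorm q ∧
    ‖lin A q p‖ < (supNorm q) ^ (-N))

section top

variable {E : Type*} [NormedAddCommGroup E] [InnerProductSpace ℝ E] [FiniteDimensional ℝ E]

theorem open_image {f : E → E} {U V : Set E} (hc : ContinuousOn f U) (hi : InjOn f U)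
    (hV : IsOpen V) (hVU : V ⊆ U) : IsOpen (f '' V) := by
  rw [isOpen_iff_mem_nhds]
  rintro y ⟨x, hx, rfl⟩
  obtain ⟨r, hr, hrV⟩ := Metric.isOpen_iff.1 hV x hx
  have hsub : closedBall x (r/2) ⊆ V := (closedBall_subset_ball (by linarith)).trans hrV
  have h := Pool.Agent.Helper206.BoxS.IoD.image_mem_nhds f x (r/2) (by linarith)
    (hc.mono (hsub.trans hVU)) (hi.mono (hsub.trans hVU))
  exact mem_of_superset h (image_mono hsub)

/-- Separation: a connected set in `f(B)` meeting both sides meets the image of the slice. -/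
theorem sep {f : E → E} {U : Set E} (hc : ContinuousOn f U) (hi : InjOn f U)
    {B : Set E} (hB : IsOpen B) (hBU : B ⊆ U) {π : E → ℝ} (hπ : Continuous π) (c : ℝ)
    {K : Set E} (hK : IsPreconnected K) (hKB : K ⊆ f '' B)
    (h1 : (K ∩ f '' {x ∈ B | c < π x}).Nonempty) (h2 : (K ∩ f '' {x ∈ B | π x < c}).Nonempty) :
    (K ∩ f '' {x ∈ B | π x = c}).Nonempty := by
  by_contra hne
  rw [Set.not_nonempty_iff_eq_empty] at hne
  have o1 : IsOpen (f '' {x ∈ B | c < π x}) :=
    open_image hc hi (hB.inter (isOpen_lt continuous_const hπ)) (fun x hx => hBU hx.1)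
  have o2 : IsOpen (f '' {x ∈ B | π x < c}) :=
    open_image hc hi (hB.inter (isOpen_lt hπ continuous_const)) (fun x hx => hBU hx.1)
  have hcov : K ⊆ f '' {x ∈ B | c < π x} ∪ f '' {x ∈ B | π x < c} := by
    intro y hy
    obtain ⟨x, hx, rfl⟩ := hKB hy
    rcases lt_trichotomy (π x) c with h | h | h
    · right; exact ⟨x, ⟨hx, h⟩, rfl⟩
    · exfalso
      have : f x ∈ K ∩ f '' {x ∈ B | π x = c} := ⟨hy, x, ⟨hx, h⟩, rfl⟩
      rw [hne] at this; exact this
    · left; exact ⟨x, ⟨hx, h⟩, rfl⟩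
  obtain ⟨y, -, ⟨x, hx, hxy⟩, ⟨x', hx', hxy'⟩⟩ := hK _ _ o1 o2 hcov h1 h2
  have := hi (hBU hx.1) (hBU hx'.1) (hxy.trans hxy'.symm)
  subst this
  exact absurd (hx.2.trans hx'.2) (lt_irrefl _)

end top

variable {m n : ℕ}

theorem lin_continuous (q : Fin n → ℤ) (p : Fin m → ℤ) : Continuous (fun A : Mat m n => lin A q p) := by
  unfold lin
  refine continuous_pi fun i => ?_
  fun_prop

theorem lin_add (A : Mat m n) (t : ℝ) (i : Fin m) (j : Fin n) (q : Fin n → ℤ) (p : Fin m → ℤ) :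
    lin (A + EuclideanSpace.single (i, j) t) q p i = lin A q p i + t * q j := by
  unfold lin
  have : ∀ j', (A + EuclideanSpace.single (i, j) t) (i, j') * (q j' : ℝ)
      = A (i, j') * q j' + (if j' = j then t * (q j' : ℝ) else 0) := by
    intro j'
    simp only [PiLp.add_apply, PiLp.single_apply, Prod.mk.injEq, true_and, add_mul]
    split_ifs <;> simp
  rw [Finset.sum_congr rfl (fun j' _ => this j'), Finset.sum_add_distrib]
  simp
  ring

theorem lin_affine (A B : Mat m n) (s : ℝ) (q : Fin n → ℤ) (p : Fin m → ℤ) :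
    lin (A + s • (B - A)) q p = (1 - s) • lin A q p + s • lin B q p := by
  funext i
  simp only [lin, PiLp.add_apply, PiLp.smul_apply, PiLp.sub_apply, smul_eq_mul, Pi.add_apply,
    Pi.smul_apply]
  have : ∑ j, (A (i, j) + s * (B (i, j) - A (i, j))) * (q j : ℝ)
      = (1 - s) * ∑ j, A (i, j) * (q j : ℝ) + s * ∑ j, B (i, j) * (q j : ℝ) := by
    rw [Finset.mul_sum, Finset.mul_sum, ← Finset.sum_add_distrib]
    refine Finset.sum_congr rfl fun j _ => ?_
    ring
  rw [this]
  ring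

/-- the rational subspaces -/
def W (m n : ℕ) (q : Fin n → ℤ) (p : Fin m → ℤ) : Set (Mat m n) := {A | lin A q p = 0}

/-- the non-Liouville closed sets -/
def F (m n : ℕ) (N : ℕ) : Set (Mat m n) :=
  {A | ∀ (p : Fin m → ℤ) (q : Fin n → ℤ), 2 ≤ supNorm q → (supNorm q) ^ (-(N : ℝ)) ≤ ‖lin A q p‖}

theorem W_closed (q : Fin n → ℤ) (p : Fin m → ℤ) : IsClosed (W m n q p) :=
  isClosed_eq (lin_continuous q p) continuous_const

theorem F_closed (N : ℕ) : IsClosed (F m n N) := by
  have : F m n N = ⋂ (p : Fin m → ℤ), ⋂ (q : Fin n → ℤ), ⋂ (_ : 2 ≤ supNorm q),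
      {A : Mat m n | (supNorm q) ^ (-(N : ℝ)) ≤ ‖lin A q p‖} := by
    ext A; simp [F]
  rw [this]
  refine isClosed_iInter fun p => isClosed_iInter fun q => isClosed_iInter fun _ => ?_
  exact isClosed_le continuous_const (lin_continuous q p).norm

theorem compl_cover {A : Mat m n} (h : ¬ IsLiouville A) :
    (∃ (q : Fin n → ℤ) (p : Fin m → ℤ), ¬ (q = 0 ∧ p = 0) ∧ A ∈ W m n q p) ∨
    ∃ N : ℕ, A ∈ F m n N := by
  unfold IsLiouville at h
  rw [not_and_or] at h
  rcases h with h | h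
  · left
    push Not at h
    obtain ⟨q, p, h1, h2⟩ := h
    exact ⟨q, p, by simpa using h1, h2⟩
  · right
    push Not at h
    obtain ⟨N, hN, h⟩ := h
    refine ⟨⌈N⌉₊, fun p q hq => ?_⟩
    refine le_trans ?_ (h p q hq)
    apply Real.rpow_le_rpow_of_exponent_le (by linarith)
    have := Nat.le_ceil N
    linarith

theorem W_empty_interior {q : Fin n → ℤ} {p : Fin m → ℤ} (hqp : ¬ (q = 0 ∧ p = 0)) (hm : 1 ≤ m)
    {V : Set (Mat m n)} (hV : IsOpen V) (hne : V.Nonempty) : ∃ A ∈ V, A ∉ W m n q p := by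
  by_contra hcon
  push Not at hcon
  obtain ⟨A, hA⟩ := hne
  have hAW := hcon A hA
  have hq : q ≠ 0 := by
    intro hq
    apply hqp
    refine ⟨hq, ?_⟩
    funext i
    have := congrFun hAW i
    simp [lin, hq] at this
    simpa using this
  obtain ⟨j, hj⟩ := Function.ne_iff.1 hq
  let i0 : Fin m := ⟨0, hm⟩
  have hcont : Continuous (fun t : ℝ => A + EuclideanSpace.single (i0, j) t) := by
    have : (fun t : ℝ => A + EuclideanSpace.single (i0, j) t)
        = fun t : ℝ => A + t • (EuclideanSpace.single (i0, j) (1:ℝ) : Mat m n) := by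
      funext t
      congr 1
      ext x
      simp
    rw [this]
    fun_prop
  have h0 : (fun t : ℝ => A + EuclideanSpace.single (i0, j) t) 0 ∈ V := by
    have : (fun t : ℝ => A + EuclideanSpace.single (i0, j) t) 0 = A := by
      ext x; simp
    rw [this]; exact hA
  have hnh := hcont.continuousAt.preimage_mem_nhds (hV.mem_nhds h0)
  obtain ⟨ε, hε, hball⟩ := Metric.mem_nhds_iff.1 hnh
  have hmem : (ε/2) ∈ ball (0:ℝ) ε := by
    simp only [mem_ball, dist_zero_right, Real.norm_eq_abs]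
    rw [abs_of_pos (by positivity)]; linarith
  have h1 := hcon _ (hball hmem)
  have h2 := congrFun h1 i0
  have h3 := lin_add A (ε/2) i0 j q p
  have h4 : lin A q p i0 = 0 := congrFun hAW i0
  simp only [Pi.zero_apply] at h2
  rw [h2, h4] at h3
  have : (q j : ℝ) ≠ 0 := by exact_mod_cast hj
  have h5 : ε / 2 * (q j : ℝ) ≠ 0 := mul_ne_zero (by positivity) this
  apply h5
  linarith

end Pool.Agent.X173.LM
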