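import Mathlib
import Pool.Agent.X173.LMA

open MeasureTheory Metric Set Filter Topology
open scoped Topology NNReal ENNReal

namespace Pool.Agent.X173.LM

variable {m n : ℕ}

/-- rational matrices -/
def IsRat (A : Mat m n) : Prop := ∀ x, ∃ r : ℚ, A x = (r : ℝ)

theorem isRat_dense : Dense {A : Mat m n | IsRat A} := by
  have h1 : Dense (Set.pi univ (fun _ : Fin m × Fin n => Set.range ((↑) : ℚ → ℝ))) :=
    dense_pi univ (fun _ _ => Rat.denseRange_cast)
  have hsurj : Function.Surjective (WithLp.toLp 2 : (Fin m × Fin n → ℝ) → Mat m n) :=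
    fun A => ⟨WithLp.ofLp A, rfl⟩
  have h2 := hsurj.denseRange.dense_image (PiLp.continuous_toLp 2 (fun _ : Fin m × Fin n => ℝ)) h1
  refine h2.mono ?_
  rintro _ ⟨B, hB, rfl⟩
  intro x
  obtain ⟨r, hr⟩ := hB x (mem_univ _)
  exact ⟨r, hr.symm⟩

/-- a rational matrix and a change of one entry: the segment avoids `F N`. -/
theorem seg_avoid (hn : 2 ≤ n) {A : Mat m n} (hA : IsRat A) (i : Fin m) (j : Fin n) (N : ℕ) (t : ℝ) :
    A + EuclideanSpace.single (i, j) t ∉ F m n N := by
  -- choose another column
  obtain ⟨j', hj'⟩ : ∃ j' : Fin n, j' ≠ j := by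
    haveI : Nontrivial (Fin n) := Fin.nontrivial_iff_two_le.2 hn
    exact exists_ne j
  choose r hr using hA
  let D : ℤ := 2 * ∏ i : Fin m, ((r (i, j')).den : ℤ)
  have hDpos : (2:ℤ) ≤ D := by
    have : (0:ℤ) < ∏ i : Fin m, ((r (i, j')).den : ℤ) :=
      Finset.prod_pos fun i _ => by exact_mod_cast (r (i, j')).den_pos
    have h2 : (1:ℤ) ≤ ∏ i : Fin m, ((r (i, j')).den : ℤ) := this
    show (2:ℤ) ≤ 2 * ∏ i : Fin m, ((r (i, j')).den : ℤ)
    linarith
  have hint : ∀ i, ∃ z : ℤ, (r (i, j') : ℝ) * (D : ℝ) = (z : ℝ) := by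
    intro i
    refine ⟨2 * ((r (i, j')).num * ∏ i' ∈ Finset.univ.erase i, ((r (i', j')).den : ℤ)), ?_⟩
    have h1 : (D : ℝ) = 2 * (((r (i, j')).den : ℝ) * ∏ i' ∈ Finset.univ.erase i, ((r (i', j')).den : ℝ)) := by
      rw [Finset.mul_prod_erase Finset.univ (fun i' => ((r (i', j')).den : ℝ)) (Finset.mem_univ i)]
      simp [D]
    have h2 : (r (i, j') : ℝ) * ((r (i, j')).den : ℝ) = ((r (i, j')).num : ℝ) := by
      exact_mod_cast Rat.mul_den_eq_num (r (i, j'))
    rw [h1]
    push_cast
    rw [← h2]
    ring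
  choose z hz using hint
  let q : Fin n → ℤ := Pi.single j' D
  intro hF
  have hq : 2 ≤ supNorm q := by
    have h1 : ‖((q j' : ℤ) : ℝ)‖ ≤ supNorm q := norm_le_pi_norm (fun j => (q j : ℝ)) j'
    have h2 : ((q j' : ℤ) : ℝ) = (D : ℝ) := by simp [q]
    rw [h2, Real.norm_eq_abs] at h1
    have h3 : (2:ℝ) ≤ (D:ℝ) := by exact_mod_cast hDpos
    exact le_trans (h3.trans (le_abs_self _)) h1
  have h1 := hF z q hq
  have h2 : lin (A + EuclideanSpace.single (i, j) t) q z = 0 := by
    funext i'
    simp only [lin, Pi.zero_apply]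
    rw [Finset.sum_eq_single j']
    · have h3 : (A + EuclideanSpace.single (i, j) t) (i', j') = A (i', j') := by
        simp [PiLp.add_apply, PiLp.single_apply, hj']
      rw [h3, hr]
      simp only [q, Pi.single_eq_same]
      rw [hz]; ring
    · intro b _ hb
      simp [q, Pi.single_eq_of_ne hb]
    · intro h; exact absurd (Finset.mem_univ _) h
  rw [h2, norm_zero] at h1
  have h3 : (0:ℝ) < (supNorm q) ^ (-(N : ℝ)) := Real.rpow_pos_of_pos (by linarith) _
  linarith

/-- Rational matrices in a ball can be joined inside a larger ball, avoiding `F N`. -/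
theorem joined_avoid (hn : 2 ≤ n) {A B y : Mat m n} (hA : IsRat A) (hB : IsRat B) (N : ℕ) {ρ : ℝ}
    (hρ : 0 < ρ) (h1 : dist A y < ρ / 2) (h2 : dist B y < ρ / 2) :
    JoinedIn (ball y ρ \ F m n N) A B := by
  classical
  let mix : Finset (Fin m × Fin n) → Mat m n := fun s => WithLp.toLp 2 (fun x => if x ∈ s then B x else A x)
  have mixa : ∀ s x, mix s x = if x ∈ s then B x else A x := fun s x => rfl
  have hmixrat : ∀ s, IsRat (mix s) := by
    intro s x
    rw [mixa]
    split_ifs
    · exact hB x
    · exact hA x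
  have hmixball : ∀ s, mix s ∈ ball y ρ := by
    intro s
    rw [mem_ball, EuclideanSpace.dist_eq]
    rw [EuclideanSpace.dist_eq] at h1 h2
    have e1 : ∑ x, dist (A x) (y x) ^ 2 < (ρ/2)^2 := by
      rwa [Real.sqrt_lt' (by positivity)] at h1
    have e2 : ∑ x, dist (B x) (y x) ^ 2 < (ρ/2)^2 := by
      rwa [Real.sqrt_lt' (by positivity)] at h2
    rw [Real.sqrt_lt' hρ]
    calc ∑ x, dist (mix s x) (y x) ^ 2 ≤ ∑ x, (dist (A x) (y x) ^ 2 + dist (B x) (y x) ^ 2) := by
          refine Finset.sum_le_sum fun x _ => ?_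
          rw [mixa]
          split_ifs
          · have := sq_nonneg (dist (A x) (y x)); linarith
          · have := sq_nonneg (dist (B x) (y x)); linarith
      _ = ∑ x, dist (A x) (y x) ^ 2 + ∑ x, dist (B x) (y x) ^ 2 := Finset.sum_add_distrib
      _ < ρ ^ 2 := by nlinarith
  have key : ∀ s, JoinedIn (ball y ρ \ F m n N) A (mix s) := by
    intro s
    induction s using Finset.induction_on with
    | empty =>
      have h0 : mix ∅ = A := by ext x; simp [mixa]
      rw [h0]
      have hAm : A ∈ ball y ρ \ F m n N := by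
        refine ⟨by rw [mem_ball]; linarith, ?_⟩
        rcases Nat.eq_zero_or_pos m with hm | hm
        · subst hm
          intro hF
          have h3 := hF 0 (fun _ => 2) (by
            have hn0 : 0 < n := by omega
            have := norm_le_pi_norm (fun _ : Fin n => ((2:ℤ) : ℝ)) ⟨0, hn0⟩
            unfold supNorm
            refine le_trans ?_ this
            norm_num)
          have h4 : lin A (fun _ => 2) 0 = 0 := by funext i; exact i.elim0
          rw [h4, norm_zero] at h3
          have h5 : (0:ℝ) < (supNorm (fun _ : Fin n => (2:ℤ))) ^ (-(N : ℝ)) := by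
            apply Real.rpow_pos_of_pos
            have hn0 : 0 < n := by omega
            have := norm_le_pi_norm (fun _ : Fin n => ((2:ℤ) : ℝ)) ⟨0, hn0⟩
            unfold supNorm
            refine lt_of_lt_of_le ?_ this
            norm_num
          linarith
        · have := seg_avoid hn hA ⟨0, hm⟩ ⟨0, by omega⟩ N 0
          have e : A + EuclideanSpace.single ((⟨0, hm⟩ : Fin m), (⟨0, by omega⟩ : Fin n)) (0:ℝ) = A := by
            ext x; simp
          rwa [e] at this
      exact JoinedIn.refl hAm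
    | insert a s ha ih =>
      refine ih.trans ?_
      apply JoinedIn.of_segment_subset
      rintro z hz
      refine ⟨(convex_ball y ρ).segment_subset (hmixball s) (hmixball _) hz, ?_⟩
      rw [segment_eq_image'] at hz
      obtain ⟨θ, -, rfl⟩ := hz
      obtain ⟨i, j⟩ := a
      have e : mix s + θ • (mix (insert (i, j) s) - mix s)
          = mix s + EuclideanSpace.single (i, j) (θ * (B (i, j) - A (i, j))) := by
        ext x
        simp only [PiLp.add_apply, PiLp.smul_apply, PiLp.sub_apply, smul_eq_mul, PiLp.single_apply, mixa,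
          Finset.mem_insert]
        by_cases hx : x = (i, j)
        · subst hx; simp [ha]
        · simp [hx]
      show mix s + θ • (mix (insert (i, j) s) - mix s) ∉ F m n N
      rw [e]
      exact seg_avoid hn (hmixrat s) i j N _
  have h0 : mix Finset.univ = B := by ext x; simp [mixa]
  have := key Finset.univ
  rwa [h0] at this

end Pool.Agent.X173.LM
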