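import Mathlib
import Pool.Agent.X173.LMB

open MeasureTheory Metric Set Filter Topology
open scoped Topology NNReal ENNReal

namespace Pool.Agent.X173.LM

variable {m n : ℕ}

theorem side_pt {f : Mat m n → Mat m n} {U : Set (Mat m n)} (hc : ContinuousOn f U)
    {x0 : Mat m n} {δ : ℝ} (hδ : 0 < δ) (hB : ball x0 δ ⊆ U) (a : Fin m × Fin n) {ρ : ℝ}
    (hρ : 0 < ρ) (σ : ℝ) (hσ : |σ| = 1) :
    ∃ x ∈ ball x0 δ, (∃ t : ℝ, 0 < t ∧ x a = x0 a + σ * t) ∧ f x ∈ ball (f x0) ρ := by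
  have hca : ContinuousAt f x0 :=
    hc.continuousAt (mem_of_superset (ball_mem_nhds x0 hδ) hB)
  obtain ⟨η, hη, hη'⟩ := Metric.mem_nhds_iff.1 (hca.preimage_mem_nhds (ball_mem_nhds (f x0) hρ))
  let t : ℝ := min η δ / 2
  have ht : 0 < t := by
    have : 0 < min η δ := lt_min hη hδ
    positivity
  let x : Mat m n := x0 + EuclideanSpace.single a (σ * t)
  have hd : dist x x0 = t := by
    show dist (x0 + EuclideanSpace.single a (σ * t)) x0 = t
    rw [dist_eq_norm, add_sub_cancel_left]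
    simp [abs_mul, hσ, abs_of_pos ht]
  have hlt : t < min η δ := by
    have : 0 < min η δ := lt_min hη hδ
    show min η δ / 2 < min η δ
    linarith
  refine ⟨x, ?_, ⟨t, ht, ?_⟩, ?_⟩
  · rw [mem_ball, hd]; exact lt_of_lt_of_le hlt (min_le_right _ _)
  · simp [x]
  · apply hη'
    rw [mem_ball, hd]; exact lt_of_lt_of_le hlt (min_le_left _ _)

theorem coord_cont (a : Fin m × Fin n) : Continuous (fun x : Mat m n => x a) := by fun_prop

theorem no_slice_F (hn : 2 ≤ n) {f : Mat m n → Mat m n} {U : Set (Mat m n)}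
    (hc : ContinuousOn f U) (hi : InjOn f U)
    {x0 : Mat m n} {δ : ℝ} (hδ : 0 < δ) (hB : ball x0 δ ⊆ U) (a : Fin m × Fin n) (N : ℕ)
    (hS : ∀ x ∈ ball x0 δ, x a = x0 a → f x ∈ F m n N) : False := by
  have hopen : IsOpen (f '' ball x0 δ) := open_image hc hi isOpen_ball hB
  obtain ⟨ρ, hρ, hρB⟩ := Metric.isOpen_iff.1 hopen (f x0) ⟨x0, mem_ball_self hδ, rfl⟩
  obtain ⟨xp, hxp, ⟨t1, ht1, hxpa⟩, hxpf⟩ := side_pt hc hδ hB a (half_pos hρ) 1 (by simp)
  obtain ⟨xm, hxm, ⟨t2, ht2, hxma⟩, hxmf⟩ := side_pt hc hδ hB a (half_pos hρ) (-1) (by simp)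
  have o1 : IsOpen (f '' {x ∈ ball x0 δ | x0 a < x a}) :=
    open_image hc hi (isOpen_ball.inter (isOpen_lt continuous_const (coord_cont a)))
      (fun x hx => hB hx.1)
  have o2 : IsOpen (f '' {x ∈ ball x0 δ | x a < x0 a}) :=
    open_image hc hi (isOpen_ball.inter (isOpen_lt (coord_cont a) continuous_const))
      (fun x hx => hB hx.1)
  obtain ⟨A, ⟨hA1, hA2⟩, hA3⟩ := isRat_dense.inter_open_nonempty _
    (o1.inter (isOpen_ball (x := f x0) (ε := ρ/2)))
    ⟨f xp, ⟨xp, ⟨hxp, by rw [hxpa]; linarith⟩, rfl⟩, hxpf⟩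
  obtain ⟨C, ⟨hC1, hC2⟩, hC3⟩ := isRat_dense.inter_open_nonempty _
    (o2.inter (isOpen_ball (x := f x0) (ε := ρ/2)))
    ⟨f xm, ⟨xm, ⟨hxm, by rw [hxma]; linarith⟩, rfl⟩, hxmf⟩
  obtain ⟨γ, hγ⟩ := joined_avoid hn hA3 hC3 N hρ hA2 hC2
  have hK : IsPreconnected (range γ) := isPreconnected_range γ.continuous
  obtain ⟨y, hy1, x, ⟨hx1, hx2⟩, hxy⟩ := sep hc hi isOpen_ball hB (coord_cont a) (x0 a) hK
    (by rintro _ ⟨s, rfl⟩; exact hρB (hγ s).1)
    ⟨A, ⟨0, γ.source⟩, hA1⟩ ⟨C, ⟨1, γ.target⟩, hC1⟩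
  obtain ⟨s, rfl⟩ := hy1
  apply (hγ s).2
  rw [← hxy]
  exact hS x hx1 hx2

theorem no_slice_W (hm : 1 ≤ m) {f : Mat m n → Mat m n} {U : Set (Mat m n)}
    (hc : ContinuousOn f U) (hi : InjOn f U)
    {x0 : Mat m n} {δ : ℝ} (hδ : 0 < δ) (hB : ball x0 δ ⊆ U) (a : Fin m × Fin n)
    {q : Fin n → ℤ} {p : Fin m → ℤ} (hqp : ¬ (q = 0 ∧ p = 0))
    (hS : ∀ x ∈ ball x0 δ, x a = x0 a → f x ∈ W m n q p)
    {T : Set (Mat m n)} (hTW : T ⊆ W m n q p) (hT : W m n q p ⊆ closure T)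
    (hTa : ∀ x ∈ U, f x ∈ T → x a ≠ x0 a) : False := by
  have hopen : IsOpen (f '' ball x0 δ) := open_image hc hi isOpen_ball hB
  obtain ⟨ρ, hρ, hρB⟩ := Metric.isOpen_iff.1 hopen (f x0) ⟨x0, mem_ball_self hδ, rfl⟩
  obtain ⟨xp, hxp, ⟨t1, ht1, hxpa⟩, hxpf⟩ := side_pt hc hδ hB a hρ 1 (by simp)
  obtain ⟨xm, hxm, ⟨t2, ht2, hxma⟩, hxmf⟩ := side_pt hc hδ hB a hρ (-1) (by simp)
  have o1 : IsOpen (f '' {x ∈ ball x0 δ | x0 a < x a}) :=
    open_image hc hi (isOpen_ball.inter (isOpen_lt continuous_const (coord_cont a)))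
      (fun x hx => hB hx.1)
  have o2 : IsOpen (f '' {x ∈ ball x0 δ | x a < x0 a}) :=
    open_image hc hi (isOpen_ball.inter (isOpen_lt (coord_cont a) continuous_const))
      (fun x hx => hB hx.1)
  obtain ⟨A, ⟨hA1, hA2⟩, hA3⟩ := W_empty_interior hqp hm
    (o1.inter (isOpen_ball (x := f x0) (ε := ρ)))
    ⟨f xp, ⟨xp, ⟨hxp, by rw [hxpa]; linarith⟩, rfl⟩, hxpf⟩
  obtain ⟨C, ⟨hC1, hC2⟩, hC3⟩ := W_empty_interior hqp hm
    (o2.inter (isOpen_ball (x := f x0) (ε := ρ)))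
    ⟨f xm, ⟨xm, ⟨hxm, by rw [hxma]; linarith⟩, rfl⟩, hxmf⟩
  -- a point of `T` close to `f x0`
  have hW0 : f x0 ∈ closure T := hT (hS x0 (mem_ball_self hδ) rfl)
  obtain ⟨y, hyT, hyd⟩ := Metric.mem_closure_iff.1 hW0 ρ hρ
  have hyb : y ∈ ball (f x0) ρ := by rw [mem_ball, dist_comm]; exact hyd
  have hyS : y ∉ f '' {x ∈ ball x0 δ | x a = x0 a} := by
    rintro ⟨x, ⟨hx1, hx2⟩, hxy⟩
    exact hTa x (hB hx1) (by rw [hxy]; exact hyT) hx2
  have hseg : ∀ D : Mat m n, D ∉ W m n q p → ∀ z ∈ segment ℝ y D, z ∉ f '' {x ∈ ball x0 δ | x a = x0 a} := by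
    intro D hD z hz hzS
    rw [segment_eq_image'] at hz
    obtain ⟨θ, -, rfl⟩ := hz
    have hzW : y + θ • (D - y) ∈ W m n q p := by
      obtain ⟨x, ⟨hx1, hx2⟩, hxy⟩ := hzS
      have := hS x hx1 hx2
      rw [hxy] at this
      exact this
    have h1 : lin (y + θ • (D - y)) q p = 0 := hzW
    rw [lin_affine] at h1
    have h2 : lin y q p = 0 := hTW hyT
    rw [h2, smul_zero, zero_add, smul_eq_zero] at h1
    rcases h1 with h1 | h1
    · simp only [h1, zero_smul, add_zero] at hzS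
      exact hyS hzS
    · exact hD h1
  have hK : IsPreconnected (segment ℝ y A ∪ segment ℝ y C) :=
    IsPreconnected.union y (left_mem_segment ℝ y A) (left_mem_segment ℝ y C)
      (convex_segment y A).isPreconnected (convex_segment y C).isPreconnected
  obtain ⟨z, hz1, hz2⟩ := sep hc hi isOpen_ball hB (coord_cont a) (x0 a) hK
    (by
      rintro z (hz | hz)
      · exact hρB ((convex_ball _ _).segment_subset hyb hA2 hz)
      · exact hρB ((convex_ball _ _).segment_subset hyb hC2 hz))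
    ⟨A, Or.inl (right_mem_segment ℝ y A), hA1⟩ ⟨C, Or.inr (right_mem_segment ℝ y C), hC1⟩
  rcases hz1 with hz1 | hz1
  · exact hseg A hA3 z hz1 hz2
  · exact hseg C hC3 z hz1 hz2

/-- Main lower bound. -/
theorem one_le_dimH (hm : 1 ≤ m) (hn : 2 ≤ n) {U : Set (Mat m n)} (hU : IsOpen U)
    (hne : U.Nonempty) (g : ℕ → Mat m n → Mat m n) (hc : ∀ k, ContinuousOn (g k) U)
    (hi : ∀ k, InjOn (g k) U) : 1 ≤ dimH {x | x ∈ U ∧ ∀ k, IsLiouville (g k x)} := by
  by_contra hlt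
  push Not at hlt
  set E : Set (Mat m n) := {x | x ∈ U ∧ ∀ k, IsLiouville (g k x)} with hE
  let a : Fin m × Fin n := (⟨0, hm⟩, ⟨0, by omega⟩)
  let π : Mat m n → ℝ := fun x => x a
  have hπ : LipschitzWith 1 π := by
    refine LipschitzWith.of_dist_le_mul fun x y => ?_
    rw [NNReal.coe_one, one_mul, Real.dist_eq, dist_eq_norm]
    have := PiLp.norm_apply_le (x - y) a
    simpa [π] using this
  have h1 : dimH (π '' E) < 1 := lt_of_le_of_lt (hπ.dimH_image_le E) hlt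
  have h2 : volume (π '' E) = 0 := by
    have h3 : μH[((1:ℝ≥0):ℝ)] (π '' E) = 0 := hausdorffMeasure_of_dimH_lt (by simpa using h1)
    rw [NNReal.coe_one, hausdorffMeasure_real] at h3
    exact h3
  -- countable dense subsets of the subspaces
  have hT : ∀ (q : Fin n → ℤ) (p : Fin m → ℤ), ∃ T : Set (Mat m n), T ⊆ W m n q p ∧ T.Countable ∧
      W m n q p ⊆ closure T := fun q p =>
    (TopologicalSpace.IsSeparable.of_separableSpace (W m n q p)).exists_countable_dense_subset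
  choose T hT1 hT2 hT3 using hT
  let C : Set ℝ := ⋃ k : ℕ, ⋃ q : Fin n → ℤ, ⋃ p : Fin m → ℤ, π '' {x | x ∈ U ∧ g k x ∈ T q p}
  have hC : C.Countable := by
    refine countable_iUnion fun k => countable_iUnion fun q => countable_iUnion fun p => ?_
    apply Set.Countable.image
    have hmaps : MapsTo (g k) {x | x ∈ U ∧ g k x ∈ T q p} (T q p) := fun x hx => hx.2
    exact hmaps.countable_of_injOn ((hi k).mono fun x hx => hx.1) (hT2 q p)
  have hCE : volume (C ∪ π '' E) = 0 := by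
    rw [measure_union_null_iff]
    exact ⟨hC.measure_zero _, h2⟩
  obtain ⟨u0, hu0⟩ := hne
  obtain ⟨r, hr, hrU⟩ := Metric.isOpen_iff.1 hU u0 hu0
  -- choose the slice
  obtain ⟨c, hc1, hc2⟩ : ∃ c ∈ Ioo (u0 a) (u0 a + r / 2), c ∉ C ∪ π '' E := by
    by_contra hcon
    push Not at hcon
    have h3 : volume (Ioo (u0 a) (u0 a + r / 2)) = 0 := measure_mono_null hcon hCE
    rw [Real.volume_Ioo] at h3
    have : u0 a + r / 2 - u0 a = r / 2 := by ring
    rw [this, ENNReal.ofReal_eq_zero] at h3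
    linarith
  -- the compact slice
  let X : Set (Mat m n) := {x | x ∈ closedBall u0 (3 * r / 4) ∧ x a = c}
  have hXU : X ⊆ U := fun x hx => hrU (closedBall_subset_ball (by linarith) hx.1)
  have hXc : IsCompact X :=
    (isCompact_closedBall u0 (3 * r / 4)).inter_right
      (isClosed_eq (coord_cont a) continuous_const)
  haveI : CompactSpace X := isCompact_iff_compactSpace.1 hXc
  let ι := ℕ × ({x : (Fin n → ℤ) × (Fin m → ℤ) // ¬ (x.1 = 0 ∧ x.2 = 0)} ⊕ ℕ)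
  let Z : ι → Set (Mat m n) := fun i => match i.2 with
    | Sum.inl x => W m n x.1.1 x.1.2
    | Sum.inr N => F m n N
  have hZc : ∀ i, IsClosed (Z i) := by
    rintro ⟨k, x | N⟩
    · exact W_closed _ _
    · exact F_closed _
  let Y : ι → Set X := fun i => {x : X | g i.1 x ∈ Z i}
  have hYc : ∀ i, IsClosed (Y i) := by
    intro i
    have hcont : Continuous (fun x : X => g i.1 x) :=
      (hc i.1).comp_continuous continuous_subtype_val (fun x => hXU x.2)
    exact (hZc i).preimage hcont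
  have hYcov : ⋃ i, Y i = univ := by
    rw [eq_univ_iff_forall]
    intro x
    have hxE : (x : Mat m n) ∉ E := by
      intro hx
      apply hc2
      right
      exact ⟨x, hx, x.2.2⟩
    have hx2 : ∃ k, ¬ IsLiouville (g k x) := by
      by_contra hcon
      push Not at hcon
      exact hxE ⟨hXU x.2, hcon⟩
    obtain ⟨k, hk⟩ := hx2
    rw [mem_iUnion]
    rcases compl_cover hk with ⟨q, p, h3, h4⟩ | ⟨N, h3⟩
    · exact ⟨(k, Sum.inl ⟨(q, p), h3⟩), h4⟩
    · exact ⟨(k, Sum.inr N), h3⟩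
  have hdense := dense_iUnion_interior_of_closed hYc hYcov
  -- the relatively open part
  let O : Set X := {x : X | dist (x : Mat m n) u0 < 3 * r / 4}
  have hO : IsOpen O := isOpen_lt (by fun_prop) continuous_const
  have hOne : O.Nonempty := by
    let x1 : Mat m n := u0 + EuclideanSpace.single a (c - u0 a)
    have hx1a : x1 a = c := by simp [x1]
    have hx1d : dist x1 u0 < 3 * r / 4 := by
      show dist (u0 + EuclideanSpace.single a (c - u0 a)) u0 < 3 * r / 4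
      rw [dist_eq_norm, add_sub_cancel_left]
      have : ‖(EuclideanSpace.single a (c - u0 a) : Mat m n)‖ = |c - u0 a| := by simp
      rw [this, abs_of_pos (by linarith [hc1.1])]
      linarith [hc1.2]
    exact ⟨⟨x1, hx1d.le, hx1a⟩, hx1d⟩
  obtain ⟨x0, hx0O, hx0⟩ := hdense.inter_open_nonempty O hO hOne
  rw [mem_iUnion] at hx0
  obtain ⟨i, hx0i⟩ := hx0
  obtain ⟨δ1, hδ1, hδ1'⟩ := Metric.mem_nhds_iff.1 (mem_interior_iff_mem_nhds.1 hx0i)
  have hx0O' : dist (x0 : Mat m n) u0 < 3 * r / 4 := hx0O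
  let δ : ℝ := min δ1 (3 * r / 4 - dist (x0 : Mat m n) u0)
  have hδ : 0 < δ := lt_min hδ1 (by linarith)
  have hball : ball (x0 : Mat m n) δ ⊆ closedBall u0 (3 * r / 4) := by
    intro x hx
    rw [mem_closedBall]
    have h3 := dist_triangle x (x0 : Mat m n) u0
    have h4 : dist x (x0 : Mat m n) < 3 * r / 4 - dist (x0 : Mat m n) u0 :=
      lt_of_lt_of_le hx (min_le_right _ _)
    linarith
  have hballU : ball (x0 : Mat m n) δ ⊆ U := fun x hx =>
    hrU (closedBall_subset_ball (by linarith) (hball hx))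
  have hx0a : (x0 : Mat m n) a = c := x0.2.2
  have hS : ∀ x ∈ ball (x0 : Mat m n) δ, x a = (x0 : Mat m n) a → g i.1 x ∈ Z i := by
    intro x hx hxa
    have hxX : x ∈ X := ⟨hball hx, by rw [hxa, hx0a]⟩
    have : (⟨x, hxX⟩ : X) ∈ Y i := by
      apply hδ1'
      rw [mem_ball]
      exact lt_of_lt_of_le hx (min_le_left _ _)
    exact this
  obtain ⟨k, ⟨⟨q, p⟩, hqp⟩ | N⟩ := i
  · refine no_slice_W hm (hc k) (hi k) hδ hballU a hqp hS (hT1 q p) (hT3 q p) ?_
    intro x hxU hxT hxa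
    apply hc2
    left
    rw [hx0a] at hxa
    exact mem_iUnion.2 ⟨k, mem_iUnion.2 ⟨q, mem_iUnion.2 ⟨p, x, ⟨hxU, hxT⟩, hxa⟩⟩⟩
  · exact no_slice_F hn (hc k) (hi k) hδ hballU a N hS

end Pool.Agent.X173.LM
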