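import Mathlib
import Pool.Agent.X173.LMC

open MeasureTheory Metric Set Filter Topology
open scoped Topology NNReal ENNReal

namespace Pool.Agent.X173.LM

variable {m : ℕ}

/-- covering sets -/
def tset (m R N : ℕ) (x : ℤ × (Fin m → ℤ)) : Set (Mat m 1) :=
  {A | ‖A‖ ≤ R ∧ 2 ≤ |(x.1 : ℝ)| ∧ ∀ i, |A (i, 0) * (x.1 : ℝ) - (x.2 i : ℝ)| < (|(x.1 : ℝ)| ^ N)⁻¹}

theorem supNorm_one (q : Fin 1 → ℤ) : supNorm q = |((q 0 : ℤ) : ℝ)| := by
  unfold supNorm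
  rw [Pi.norm_def]
  simp

theorem cover (R N : ℕ) (hN : 0 < N) :
    {A : Mat m 1 | IsLiouville A ∧ ‖A‖ ≤ R} ⊆ ⋃ x, tset m R N x := by
  rintro A ⟨⟨-, hA⟩, hR⟩
  obtain ⟨p, q, hq, hpq⟩ := hA N (by exact_mod_cast hN)
  rw [supNorm_one] at hq hpq
  rw [mem_iUnion]
  refine ⟨(q 0, p), hR, hq, fun i => ?_⟩
  have h1 : ‖lin A q p i‖ ≤ ‖lin A q p‖ := norm_le_pi_norm _ i
  have h2 : lin A q p i = A (i, 0) * ((q 0 : ℤ) : ℝ) - (p i : ℝ) := by
    simp [lin]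
  rw [h2, Real.norm_eq_abs] at h1
  have h3 : |((q 0 : ℤ) : ℝ)| ^ (-(N : ℝ)) = (|((q 0 : ℤ) : ℝ)| ^ N)⁻¹ := by
    rw [Real.rpow_neg (abs_nonneg _), Real.rpow_natCast]
  rw [h3] at hpq
  exact lt_of_le_of_lt h1 hpq

theorem dist_le_sum (A B : Mat m 1) : dist A B ≤ ∑ i, |A (i, 0) - B (i, 0)| := by
  rw [EuclideanSpace.dist_eq]
  apply Real.sqrt_le_iff.2
  refine ⟨Finset.sum_nonneg fun i _ => abs_nonneg _, ?_⟩
  rw [Fintype.sum_prod_type]
  simp only [Finset.univ_unique, Fin.default_eq_zero, Fin.isValue, Finset.sum_singleton, Real.dist_eq]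
  exact Finset.sum_sq_le_sq_sum_of_nonneg (fun i _ => abs_nonneg _)

theorem diam_tset (R N : ℕ) (x : ℤ × (Fin m → ℤ)) (hx : 2 ≤ |(x.1 : ℝ)|) :
    ediam (tset m R N x) ≤ ENNReal.ofReal (2 * m * (|(x.1 : ℝ)| ^ (N + 1))⁻¹) := by
  apply ediam_le
  rintro A ⟨-, -, hA⟩ B ⟨-, -, hB⟩
  rw [edist_dist]
  apply ENNReal.ofReal_le_ofReal
  refine (dist_le_sum A B).trans ?_
  have hq : (0:ℝ) < |(x.1 : ℝ)| := by linarith
  have h1 : ∀ i, |A (i, 0) - B (i, 0)| ≤ 2 * (|(x.1 : ℝ)| ^ (N + 1))⁻¹ := by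
    intro i
    have h2 := hA i
    have h3 := hB i
    have h4 : |A (i, 0) - B (i, 0)| * |(x.1 : ℝ)| ≤ 2 * (|(x.1 : ℝ)| ^ N)⁻¹ := by
      rw [← abs_mul]
      have : (A (i, 0) - B (i, 0)) * (x.1 : ℝ) = (A (i, 0) * (x.1 : ℝ) - (x.2 i : ℝ))
          - (B (i, 0) * (x.1 : ℝ) - (x.2 i : ℝ)) := by ring
      rw [this]
      refine (abs_sub _ _).trans ?_
      linarith
    rw [← le_div_iff₀ hq] at h4
    refine h4.trans (le_of_eq ?_)
    rw [pow_succ, mul_inv]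
    ring
  calc ∑ i, |A (i, 0) - B (i, 0)| ≤ ∑ _i : Fin m, 2 * (|(x.1 : ℝ)| ^ (N + 1))⁻¹ :=
        Finset.sum_le_sum fun i _ => h1 i
    _ = 2 * m * (|(x.1 : ℝ)| ^ (N + 1))⁻¹ := by
        rw [Finset.sum_const, Finset.card_univ, Fintype.card_fin, nsmul_eq_mul]; ring

theorem tset_p (R N : ℕ) (x : ℤ × (Fin m → ℤ)) (hne : (tset m R N x).Nonempty) (i : Fin m) :
    |x.2 i| ≤ (R + 1) * |x.1| := by
  obtain ⟨A, hR, hq, hA⟩ := hne
  have h1 := hA i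
  have h2 : |A (i, 0)| ≤ R := (PiLp.norm_apply_le A (i, 0)).trans hR
  have h3 : (|(x.1 : ℝ)| ^ N)⁻¹ ≤ 1 := by
    apply inv_le_one_of_one_le₀
    exact one_le_pow₀ (by linarith)
  have h4 : |(x.2 i : ℝ)| ≤ (R + 1) * |(x.1 : ℝ)| := by
    have h5 : (x.2 i : ℝ) = A (i, 0) * (x.1 : ℝ) - (A (i, 0) * (x.1 : ℝ) - (x.2 i : ℝ)) := by ring
    rw [h5]
    refine (abs_sub _ _).trans ?_
    rw [abs_mul]
    have h6 : |A (i, 0)| * |(x.1 : ℝ)| ≤ R * |(x.1 : ℝ)| :=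
      mul_le_mul_of_nonneg_right h2 (abs_nonneg _)
    nlinarith
  have : ((|x.2 i| : ℤ) : ℝ) ≤ (((R + 1) * |x.1| : ℤ) : ℝ) := by
    push_cast
    exact h4
  exact_mod_cast this

theorem inner_sum (R N : ℕ) (s : ℝ) (hs : 0 < s) (hN : (m + 2 : ℝ) ≤ (N + 1) * s) (q : ℤ) :
    ∑' p : Fin m → ℤ, ediam (tset m R N (q, p)) ^ s
      ≤ ENNReal.ofReal ((3 * (R + 1)) ^ m * (2 * m) ^ s * (1 / (q : ℝ) ^ 2)) := by
  by_cases hq : 2 ≤ |(q : ℝ)|
  swap
  · have : ∀ p : Fin m → ℤ, ediam (tset m R N (q, p)) ^ s = 0 := by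
      intro p
      have : tset m R N (q, p) = ∅ := by
        ext A; simp only [tset, mem_ofPred_eq, mem_empty_iff_false, iff_false]
        rintro ⟨-, h, -⟩; exact hq h
      rw [this, ediam_empty, ENNReal.zero_rpow_of_pos hs]
    simp [this]
  have hq0 : (0:ℝ) < |(q : ℝ)| := by linarith
  let B : ℤ := (R + 1) * |q|
  have hqz : (2:ℤ) ≤ |q| := by exact_mod_cast (by push_cast; exact hq : ((2:ℤ):ℝ) ≤ ((|q| : ℤ) : ℝ))
  have hB1 : (1:ℤ) ≤ B := by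
    show (1:ℤ) ≤ (R + 1) * |q|
    nlinarith [Int.natCast_nonneg R]
  let box : Finset (Fin m → ℤ) := Fintype.piFinset (fun _ => Finset.Icc (-B) B)
  have hbox : box.card = (2 * B + 1).toNat ^ m := by
    simp only [box, Fintype.card_piFinset, Int.card_Icc, Finset.prod_const, Finset.card_univ,
      Fintype.card_fin]
    congr 2
    ring
  have hz : ∀ p ∉ box, ediam (tset m R N (q, p)) ^ s = 0 := by
    intro p hp
    have : tset m R N (q, p) = ∅ := by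
      by_contra hne
      apply hp
      have hne' := Set.nonempty_iff_ne_empty.2 hne
      simp only [box, Fintype.mem_piFinset, Finset.mem_Icc]
      intro i
      exact abs_le.1 (tset_p R N (q, p) hne' i)
    rw [this, ediam_empty, ENNReal.zero_rpow_of_pos hs]
  rw [tsum_eq_sum hz]
  have hterm : ∀ p ∈ box, ediam (tset m R N (q, p)) ^ s
      ≤ ENNReal.ofReal ((2 * m) ^ s * (|(q : ℝ)| ^ (m + 2))⁻¹) := by
    intro p _
    have h1 := ENNReal.rpow_le_rpow (diam_tset R N (q, p) hq) hs.le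
    refine h1.trans ?_
    rw [ENNReal.ofReal_rpow_of_nonneg (by positivity) hs.le]
    apply ENNReal.ofReal_le_ofReal
    rw [Real.mul_rpow (by positivity) (by positivity)]
    apply mul_le_mul_of_nonneg_left _ (by positivity)
    rw [Real.inv_rpow (by positivity)]
    apply inv_anti₀ (by positivity)
    show |(q : ℝ)| ^ (m + 2) ≤ (|(q : ℝ)| ^ (N + 1)) ^ s
    rw [← Real.rpow_natCast, ← Real.rpow_natCast, ← Real.rpow_mul hq0.le]
    apply Real.rpow_le_rpow_of_exponent_le (by linarith)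
    push_cast
    exact hN
  refine (Finset.sum_le_card_nsmul _ _ _ hterm).trans ?_
  rw [nsmul_eq_mul, hbox]
  have h2 : (((2 * B + 1).toNat ^ m : ℕ) : ℝ≥0∞) = ENNReal.ofReal (((2 * B + 1 : ℤ) : ℝ) ^ m) := by
    have h3 : (((2 * B + 1).toNat : ℕ) : ℝ) = ((2 * B + 1 : ℤ) : ℝ) := by
      have : (((2 * B + 1).toNat : ℕ) : ℤ) = 2 * B + 1 := Int.toNat_of_nonneg (by linarith)
      exact_mod_cast congrArg (fun z : ℤ => (z : ℝ)) this
    rw [← h3, ← Nat.cast_pow, ENNReal.ofReal_natCast]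
  rw [h2, ← ENNReal.ofReal_mul (by positivity)]
  apply ENNReal.ofReal_le_ofReal
  have h4 : ((2 * B + 1 : ℤ) : ℝ) ≤ 3 * (R + 1) * |(q : ℝ)| := by
    have h5 : ((B : ℤ) : ℝ) = (R + 1) * |(q : ℝ)| := by
      show (((R + 1) * |q| : ℤ) : ℝ) = _
      push_cast; ring
    have h6 : (1:ℝ) ≤ (B : ℝ) := by exact_mod_cast hB1
    push_cast
    rw [h5] at h6 ⊢
    linarith
  have h7 : (0:ℝ) ≤ ((2 * B + 1 : ℤ) : ℝ) := by
    exact_mod_cast (by linarith : (0:ℤ) ≤ 2 * B + 1)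
  calc ((2 * B + 1 : ℤ) : ℝ) ^ m * ((2 * m) ^ s * (|(q : ℝ)| ^ (m + 2))⁻¹)
      ≤ (3 * (R + 1) * |(q : ℝ)|) ^ m * ((2 * m) ^ s * (|(q : ℝ)| ^ (m + 2))⁻¹) := by
        apply mul_le_mul_of_nonneg_right _ (by positivity)
        exact pow_le_pow_left₀ h7 h4 m
    _ = (3 * (R + 1)) ^ m * (2 * m) ^ s * (1 / (q : ℝ) ^ 2) := by
        rw [mul_pow, pow_add, sq_abs]
        field_simp

theorem dimH_one (m : ℕ) : dimH {A : Mat m 1 | IsLiouville A} = 0 := by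
  have hsplit : {A : Mat m 1 | IsLiouville A} = ⋃ R : ℕ, {A : Mat m 1 | IsLiouville A ∧ ‖A‖ ≤ R} := by
    ext A
    simp only [mem_setOf_eq, mem_iUnion]
    constructor
    · intro h
      obtain ⟨R, hR⟩ := exists_nat_ge ‖A‖
      exact ⟨R, h, hR⟩
    · rintro ⟨R, h, -⟩; exact h
  rw [hsplit, dimH_iUnion]
  rw [← bot_eq_zero, iSup_eq_bot]
  intro R
  rw [bot_eq_zero, ← nonpos_iff_eq_zero]
  apply le_of_forall_gt_imp_ge_of_dense
  intro s0 hs0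
  obtain ⟨s, hs1, hs2⟩ := ENNReal.lt_iff_exists_nnreal_btwn.1 hs0
  refine le_trans ?_ hs2.le
  have hs : (0:ℝ) < (s : ℝ) := by exact_mod_cast hs1
  apply dimH_le_of_hausdorffMeasure_ne_top
  obtain ⟨N0, hN0⟩ := exists_nat_ge ((m + 2 : ℝ) / s)
  have hr : Tendsto (fun N : ℕ => ENNReal.ofReal (2 * m * ((2:ℝ) ^ (N + 1))⁻¹)) atTop (𝓝 0) := by
    have h1 : Tendsto (fun N : ℕ => 2 * m * ((2:ℝ) ^ (N + 1))⁻¹) atTop (𝓝 0) := by
      have h2 : Tendsto (fun N : ℕ => ((2:ℝ)⁻¹) ^ (N + 1)) atTop (𝓝 0) :=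
        (tendsto_pow_atTop_nhds_zero_of_lt_one (by norm_num) (by norm_num)).comp (tendsto_add_atTop_nat 1)
      have h3 := h2.const_mul (2 * (m:ℝ))
      rw [mul_zero] at h3
      refine h3.congr fun N => ?_
      rw [inv_pow]
    have := ENNReal.tendsto_ofReal h1
    rwa [ENNReal.ofReal_zero] at this
  have hle := Measure.hausdorffMeasure_le_liminf_tsum (s : ℝ) {A : Mat m 1 | IsLiouville A ∧ ‖A‖ ≤ R}
    (l := atTop) (fun N : ℕ => ENNReal.ofReal (2 * m * ((2:ℝ) ^ (N + 1))⁻¹)) hr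
    (fun N x => tset m R N x)
    (Eventually.of_forall fun N x => by
      by_cases hx : 2 ≤ |(x.1 : ℝ)|
      · refine (diam_tset R N x hx).trans ?_
        apply ENNReal.ofReal_le_ofReal
        apply mul_le_mul_of_nonneg_left _ (by positivity)
        apply inv_anti₀ (by positivity)
        exact pow_le_pow_left₀ (by norm_num) hx _
      · have : tset m R N x = ∅ := by
          ext A; simp only [tset, mem_ofPred_eq, mem_empty_iff_false, iff_false]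
          rintro ⟨-, h, -⟩; exact hx h
        rw [this, ediam_empty]
        exact bot_le)
    (by filter_upwards [eventually_gt_atTop 0] with N hN; exact cover R N hN)
  have hfin : liminf (fun N : ℕ => ∑' x : ℤ × (Fin m → ℤ), ediam (tset m R N x) ^ (s : ℝ)) atTop
      ≤ ∑' q : ℤ, ENNReal.ofReal ((3 * (R + 1)) ^ m * (2 * m) ^ (s : ℝ) * (1 / (q : ℝ) ^ 2)) := by
    apply liminf_le_of_frequently_le'
    apply Eventually.frequently
    filter_upwards [eventually_ge_atTop N0] with N hN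
    have h1 : ∑' x : ℤ × (Fin m → ℤ), ediam (tset m R N x) ^ (s : ℝ)
        = ∑' q : ℤ, ∑' p : Fin m → ℤ, ediam (tset m R N (q, p)) ^ (s : ℝ) :=
      ENNReal.tsum_prod (f := fun q p => ediam (tset m R N (q, p)) ^ (s : ℝ))
    rw [h1]
    refine ENNReal.tsum_le_tsum fun q => ?_
    apply inner_sum R N s hs
    have h2 : (m + 2 : ℝ) / s ≤ N := hN0.trans (by exact_mod_cast hN)
    rw [div_le_iff₀ hs] at h2
    nlinarith
  have hsum : Summable (fun q : ℤ => (3 * ((R:ℝ) + 1)) ^ m * (2 * m) ^ (s : ℝ) * (1 / (q : ℝ) ^ 2)) :=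
    (Real.summable_one_div_int_pow.2 (by norm_num : 1 < 2)).mul_left _
  exact ne_top_of_le_ne_top hsum.tsum_ofReal_ne_top (hle.trans hfin)

end Pool.Agent.X173.LM
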