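import Mathlib
import Pool.Agent.Results.MP_eb99da_pr.NotAlgRecurrent

/-!
# Algebraic recurrence (helper173): definitions for groups, transfer of the example
-/

set_option autoImplicit false

namespace Pool.Agent.X173.AR

open MeasureTheory Finset
open scoped ENNReal

/-- The position after `n` steps of the walk with increments `ω 0, ω 1, …` (the problem's
`X_n = ζ_1 ζ_2 ⋯ ζ_n` with `ζ_{i+1} = ω i`). -/
def walk {G : Type} [Group G] (ω : ℕ → G) (n : ℕ) : G := ((List.range n).map ω).prod

/-- The subsemigroup generated by `X_n, X_{n+1}, …`. -/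
def semi {G : Type} [Group G] (ω : ℕ → G) (n : ℕ) : Subsemigroup G :=
  Subsemigroup.closure {g | ∃ m, n ≤ m ∧ g = walk ω m}

/-- The law of the sequence of independent increments of law `μ` (canonical model: the infinite
product measure on `ℕ → G`, where `G` carries the discrete sigma-algebra). -/
noncomputable def steps {G : Type} (μ : PMF G) :
    @Measure (ℕ → G) (@MeasurableSpace.pi ℕ (fun _ => G) (fun _ => ⊤)) :=
  letI : MeasurableSpace G := ⊤
  Measure.infinitePi (fun _ : ℕ => μ.toMeasure)

/-- `(G, μ)` is algebraically recurrent: for every `n ≥ 1` the semigroup generated by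
`X_n, X_{n+1}, …` is `G` almost surely. -/
def PairAR (G : Type) [Group G] (μ : PMF G) : Prop :=
  ∀ n : ℕ, 1 ≤ n → ∀ᵐ ω ∂(steps μ), semi ω n = ⊤

/-- `μ` is symmetric and its support generates `G` as a group. -/
def Admissible (G : Type) [Group G] (μ : PMF G) : Prop :=
  (∀ g, μ g = μ g⁻¹) ∧ Subgroup.closure μ.support = ⊤

/-- `G` is algebraically recurrent: `(G, μ)` is so for every symmetric probability `μ` whose
support generates `G` as a group. -/
def GroupAR (G : Type) [Group G] : Prop := ∀ μ : PMF G, Admissible G μ → PairAR G μ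

/-! ### Transfer from the additive example -/

section transfer

open Pool.Agent.Results.MP_eb99da_pr.NotAlgRecurrent (result)

abbrev A := ℤ →₀ ℤ

lemma exists_add : ∃ μ : PMF A, (∀ g, μ g = μ (-g)) ∧ AddSubgroup.closure μ.support = ⊤ ∧
    ¬ Pool.Agent.Results.MP_eb99da_pr.NotAlgRecurrent.PairAR A μ := by
  have h := result
  unfold Pool.Agent.Results.MP_eb99da_pr.NotAlgRecurrent.GroupAR at h
  push Not at h
  exact h

/-- Every group isomorphic to the direct sum of infinitely many copies of `ℤ` has a symmetric
nondegenerate random walk which is not algebraically recurrent. -/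
theorem exists_not_pairAR {H : Type} [Group H] (e : Multiplicative A ≃* H) :
    ∃ μ : PMF H, Admissible H μ ∧ ¬ PairAR H μ := by
  obtain ⟨μ, hs, hg, hn⟩ := exists_add
  let f : A → H := fun a => e (Multiplicative.ofAdd a)
  have hf : Function.Injective f := fun a b h => Multiplicative.ofAdd.injective (e.injective h)
  have hfadd : ∀ a b, f (a + b) = f a * f b := fun a b => by simp [f]
  have hfneg : ∀ a, f (-a) = (f a)⁻¹ := fun a => by simp [f]
  have hfz : f 0 = 1 := by simp [f]
  have hfs : Function.Surjective f := fun y => ⟨Multiplicative.toAdd (e.symm y), by simp [f]⟩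
  refine ⟨μ.map f, ⟨?_, ?_⟩, ?_⟩
  · intro g
    obtain ⟨a, rfl⟩ := hfs g
    rw [← hfneg]
    have key : ∀ a, μ.map f (f a) = μ a := by
      intro a
      rw [PMF.map_apply, tsum_eq_single a]
      · rw [if_pos rfl]
      · intro b hb
        rw [if_neg (fun h => hb (hf h).symm)]
    rw [key, key]
    exact hs a
  · rw [PMF.support_map, eq_top_iff]
    intro y _
    obtain ⟨a, rfl⟩ := hfs y
    have ha : a ∈ AddSubgroup.closure μ.support := by rw [hg]; trivial
    induction ha using AddSubgroup.closure_induction with
    | mem x hx => exact Subgroup.subset_closure ⟨x, hx, rfl⟩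
    | zero => rw [hfz]; exact one_mem _
    | add x y _ _ hx hy => rw [hfadd]; exact mul_mem (hx trivial) (hy trivial)
    | neg x _ hx => rw [hfneg]; exact inv_mem (hx trivial)
  · intro hAR
    apply hn
    intro n hn1
    have h1 := hAR n hn1
    letI : MeasurableSpace A := ⊤
    letI : MeasurableSpace H := ⊤
    have hmap : (Measure.infinitePi (fun _ : ℕ => (μ.map f).toMeasure)) =
        (Measure.infinitePi (fun _ : ℕ => μ.toMeasure)).map (fun ω i => f (ω i)) := by
      rw [Measure.infinitePi_map_pi]
      · congr 1
        funext i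
        exact (PMF.toMeasure_map f μ (measurable_from_top)).symm
      · intro i
        exact measurable_from_top
    have h2 : ∀ᵐ ω ∂(Measure.infinitePi (fun _ : ℕ => (μ.map f).toMeasure)),
        semi ω n = ⊤ := h1
    rw [hmap] at h2
    have hmeas : Measurable (fun (ω : ℕ → A) i => f (ω i)) :=
      measurable_pi_lambda _ (fun i => measurable_from_top.comp (measurable_pi_apply i))
    have h3 := ae_of_ae_map hmeas.aemeasurable h2
    have h4 : ∀ ω : ℕ → A, semi (fun i => f (ω i)) n = ⊤ →
        Pool.Agent.Results.MP_eb99da_pr.NotAlgRecurrent.semi ω n = ⊤ := by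
      intro ω hω
      have hw : ∀ m, walk (fun i => f (ω i)) m =
          f (Pool.Agent.Results.MP_eb99da_pr.NotAlgRecurrent.walk ω m) := by
        intro m
        induction m with
        | zero => simp [walk, Pool.Agent.Results.MP_eb99da_pr.NotAlgRecurrent.walk, hfz]
        | succ m ih =>
          have e1 : walk (fun i => f (ω i)) (m + 1) = walk (fun i => f (ω i)) m * f (ω m) := by
            simp [walk, List.range_succ]
          have e2 : Pool.Agent.Results.MP_eb99da_pr.NotAlgRecurrent.walk ω (m + 1) =
              Pool.Agent.Results.MP_eb99da_pr.NotAlgRecurrent.walk ω m + ω m := by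
            simp [Pool.Agent.Results.MP_eb99da_pr.NotAlgRecurrent.walk, List.range_succ]
          rw [e1, e2, hfadd, ih]
      have key : ∀ y ∈ semi (fun i => f (ω i)) n,
          ∃ a ∈ Pool.Agent.Results.MP_eb99da_pr.NotAlgRecurrent.semi ω n, f a = y := by
        intro y hy
        unfold semi at hy
        induction hy using Subsemigroup.closure_induction with
        | mem x hx =>
          obtain ⟨m, hm, rfl⟩ := hx
          exact ⟨_, AddSubsemigroup.subset_closure ⟨m, hm, rfl⟩, (hw m).symm⟩
        | mul x y _ _ hx hy =>
          obtain ⟨a, ha, rfl⟩ := hx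
          obtain ⟨b, hb, rfl⟩ := hy
          exact ⟨a + b, add_mem ha hb, hfadd a b⟩
      rw [eq_top_iff]
      intro a _
      obtain ⟨b, hb, hba⟩ := key (f a) (by rw [hω]; trivial)
      rwa [hf hba] at hb
    filter_upwards [h3] with ω hω
    exact h4 ω hω

end transfer

end Pool.Agent.X173.AR
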