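import Mathlib

open Finset Filter Topology
open scoped Nat

namespace Pool.Agent.X173.GF

/-- No three-term geometric progression. -/
def GPF (A : Set ℕ) : Prop := ∀ a ∈ A, ∀ b ∈ A, ∀ c ∈ A, a < b → b < c → a * c ≠ b ^ 2

theorem gp_param {x y z : ℕ} (hx : 0 < x) (hxy : x < y) (h : x * z = y ^ 2) :
    ∃ t u v : ℕ, 0 < t ∧ 0 < v ∧ v < u ∧ Nat.Coprime u v ∧ x = t * v ^ 2 ∧ y = t * u * v ∧ z = t * u ^ 2 := by
  obtain ⟨g, v, u, hg, hcop, hxg, hyg⟩ := Nat.exists_coprime' (m := x) (n := y) (Nat.gcd_pos_of_pos_left _ hx)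
  have hv : 0 < v := by
    rcases Nat.eq_zero_or_pos v with h0 | h0
    · subst h0; omega
    · exact h0
  have hu : v < u := by
    subst hxg; subst hyg
    exact Nat.lt_of_mul_lt_mul_right hxy
  have h2 : v * z = g * u ^ 2 := by
    subst hxg; subst hyg
    have : g * (v * z) = g * (g * u ^ 2) := by nlinarith
    exact Nat.eq_of_mul_eq_mul_left hg this
  have h3 : v ∣ g := by
    have h4 : v ∣ g * u ^ 2 := ⟨z, h2.symm⟩
    exact (Nat.Coprime.dvd_of_dvd_mul_right (Nat.Coprime.pow_right 2 hcop) h4)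
  obtain ⟨t, rfl⟩ := h3
  have ht : 0 < t := Nat.pos_of_mul_pos_left hg
  refine ⟨t, u, v, ?_, hv, hu, hcop.symm, ?_, ?_, ?_⟩
  · exact ht
  · rw [hxg]; ring
  · rw [hyg]; ring
  · have : v * z = v * (t * u ^ 2) := by rw [h2]; ring
    exact Nat.eq_of_mul_eq_mul_left hv this

theorem coprime_of_primes {P b u : ℕ} (hb : b.Coprime P !) (hu : ∀ p, p.Prime → p ∣ u → p ≤ P) :
    b.Coprime u := by
  apply Nat.Coprime.symm
  apply Nat.coprime_of_dvd
  intro p hp hpu hpb
  have h1 : p ∣ P ! := (hp.dvd_factorial).2 (hu p hp hpu)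
  have h2 : p ∣ 1 := by
    rw [← hb]; exact Nat.dvd_gcd hpb h1
  exact hp.one_lt.ne' (Nat.dvd_one.1 h2)

open Classical in
theorem modify (P K N : ℕ) (hKP : K ≤ P) (hP : 0 < P) (T0 : Finset ℕ) (hT0 : ∀ t ∈ T0, 1 ≤ t ∧ t ≤ K)
    (hT0f : GPF (T0 : Set ℕ)) (A : Set ℕ) (hA : GPF A) (U : Finset ℕ)
    (hU : ∀ b ∈ U, N < (K + 1) * b ∧ K * b ≤ N ∧ b.Coprime P !)
    (hUc : ∀ b ∈ U, ((Icc 1 K).filter (fun j => b * j ∈ A)).card + 1 ≤ T0.card) :
    ∃ T : Finset ℕ, T ⊆ Icc 1 N ∧ GPF (T : Set ℕ) ∧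
      (((Icc 1 N).filter (· ∈ A)).card : ℝ) + U.card ≤ T.card + (N : ℝ) / P := by
  have hUpos : ∀ b ∈ U, 0 < b := by
    intro b hb
    rcases Nat.eq_zero_or_pos b with h | h
    · have := (hU b hb).1; subst h; simp at this
    · exact h
  set AN := (Icc 1 N).filter (· ∈ A) with hAN
  set V := (Icc 1 N).filter (fun w => ∃ b ∈ U, b ∣ w) with hV
  set R := U.biUnion (fun b => T0.image (fun j => b * j)) with hR
  set A' := (AN \ V) ∪ R with hA'
  set Bad := (Icc 1 N).filter (fun n => ∃ p, p.Prime ∧ P < p ∧ p ^ 2 ∣ n) with hBad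
  -- uniqueness of b
  have huniq : ∀ b ∈ U, ∀ b' ∈ U, ∀ j, 1 ≤ j → j ≤ K → b ∣ b' * j → b ∣ b' := by
    intro b hb b' hb' j hj1 hjK hdvd
    have hcop : b.Coprime j := coprime_of_primes (hU b hb).2.2
      (fun p hp hpj => (Nat.le_of_dvd hj1 hpj).trans (hjK.trans hKP))
    exact hcop.dvd_of_dvd_mul_right hdvd
  have hquot : ∀ b ∈ U, ∀ w, w ∈ Icc 1 N → b ∣ w → ∃ j, 1 ≤ j ∧ j ≤ K ∧ w = b * j := by
    intro b hb w hw hbw
    obtain ⟨j, rfl⟩ := hbw
    rw [mem_Icc] at hw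
    refine ⟨j, ?_, ?_, rfl⟩
    · rcases Nat.eq_zero_or_pos j with h | h
      · subst h; simp at hw
      · exact h
    · have h1 := (hU b hb).1
      have h2 : b * j < (K + 1) * b := lt_of_le_of_lt hw.2 h1
      rw [mul_comm b j] at h2
      have := Nat.lt_of_mul_lt_mul_right h2
      omega
  have heq : ∀ b ∈ U, ∀ b' ∈ U, ∀ j, 1 ≤ j → j ≤ K → ∀ j', 1 ≤ j' → j' ≤ K → b * j = b' * j' → b = b' := by
    intro b hb b' hb' j hj1 hjK j' hj1' hjK' he
    apply Nat.dvd_antisymm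
    · exact huniq b hb b' hb' j' hj1' hjK' ⟨j, he.symm⟩
    · exact huniq b' hb' b hb j hj1 hjK ⟨j', he⟩
  have hRV : R ⊆ V := by
    intro w hw
    rw [hR, mem_biUnion] at hw
    obtain ⟨b, hb, hw⟩ := hw
    rw [mem_image] at hw
    obtain ⟨j, hj, rfl⟩ := hw
    rw [hV, mem_filter, mem_Icc]
    have h1 := hT0 j hj
    have h2 := hU b hb
    have h3 := hUpos b hb
    refine ⟨⟨Nat.mul_pos h3 h1.1, ?_⟩, b, hb, dvd_mul_right _ _⟩
    calc b * j ≤ b * K := Nat.mul_le_mul_left b h1.2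
      _ = K * b := mul_comm _ _
      _ ≤ N := h2.2.1
  have hRcard : R.card = U.card * T0.card := by
    rw [hR, card_biUnion]
    · rw [sum_congr rfl (fun b hb => card_image_of_injective T0
        (fun j j' h => Nat.eq_of_mul_eq_mul_left (hUpos b hb) h))]
      rw [sum_const, smul_eq_mul]
    · intro b hb b' hb' hne
      rw [Function.onFun, disjoint_left]
      intro w hw hw'
      rw [mem_image] at hw hw'
      obtain ⟨j, hj, rfl⟩ := hw
      obtain ⟨j', hj', he⟩ := hw'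
      apply hne
      exact heq b hb b' hb' j (hT0 j hj).1 (hT0 j hj).2 j' (hT0 j' hj').1 (hT0 j' hj').2 he.symm
  have hANV : (AN ∩ V).card + U.card ≤ U.card * T0.card := by
    have h1 : AN ∩ V ⊆ U.biUnion (fun b => ((Icc 1 K).filter (fun j => b * j ∈ A)).image (fun j => b * j)) := by
      intro w hw
      rw [mem_inter, hAN, mem_filter, hV, mem_filter] at hw
      obtain ⟨⟨hw1, hw2⟩, -, b, hb, hbw⟩ := hw
      obtain ⟨j, hj1, hjK, rfl⟩ := hquot b hb w hw1 hbw
      rw [mem_biUnion]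
      exact ⟨b, hb, mem_image.2 ⟨j, by rw [mem_filter, mem_Icc]; exact ⟨⟨hj1, hjK⟩, hw2⟩, rfl⟩⟩
    have h2 := (card_le_card h1).trans card_biUnion_le
    have h3 : ∑ b ∈ U, (((Icc 1 K).filter (fun j => b * j ∈ A)).image (fun j => b * j)).card + U.card
        ≤ ∑ _b ∈ U, T0.card := by
      rw [card_eq_sum_ones, ← sum_add_distrib]
      apply sum_le_sum
      intro b hb
      exact (Nat.add_le_add_right card_image_le 1).trans (hUc b hb)
    rw [sum_const, smul_eq_mul] at h3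
    omega
  have hA'card : AN.card + U.card ≤ A'.card := by
    rw [hA', card_union_of_disjoint (disjoint_left.2 fun w hw hw' => (Finset.mem_sdiff.1 hw).2 (hRV hw')), hRcard]
    have := card_sdiff_add_card_inter AN V
    omega
  have hBadcard : (Bad.card : ℝ) ≤ (N : ℝ) / P := by
    have h1 : Bad ⊆ (Ioc P N).biUnion (fun m => (Ioc 0 N).filter (fun x => m ^ 2 ∣ x)) := by
      intro w hw
      rw [hBad, mem_filter, mem_Icc] at hw
      obtain ⟨⟨hw1, hw2⟩, p, hp, hPp, hdvd⟩ := hw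
      rw [mem_biUnion]
      refine ⟨p, ?_, ?_⟩
      · rw [mem_Ioc]
        refine ⟨hPp, ?_⟩
        have h3 := Nat.le_of_dvd hw1 hdvd
        nlinarith [hp.pos]
      · rw [mem_filter, mem_Ioc]
        exact ⟨⟨hw1, hw2⟩, hdvd⟩
    have h2 : Bad.card ≤ ∑ m ∈ Ioc P N, N / m ^ 2 := by
      refine (card_le_card h1).trans (card_biUnion_le.trans (le_of_eq ?_))
      exact sum_congr rfl fun m _ => Nat.Ioc_filter_dvd_card_eq_div N (m ^ 2)
    have h3 : (Bad.card : ℝ) ≤ ∑ m ∈ Ioc P N, (N : ℝ) * ((m : ℝ) ^ 2)⁻¹ := by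
      calc (Bad.card : ℝ) ≤ ((∑ m ∈ Ioc P N, N / m ^ 2 : ℕ) : ℝ) := by exact_mod_cast h2
        _ = ∑ m ∈ Ioc P N, ((N / m ^ 2 : ℕ) : ℝ) := by push_cast; rfl
        _ ≤ ∑ m ∈ Ioc P N, (N : ℝ) * ((m : ℝ) ^ 2)⁻¹ := by
            apply sum_le_sum
            intro m _
            have := @Nat.cast_div_le ℝ _ _ _ N (m ^ 2)
            push_cast at this
            rw [← div_eq_mul_inv]
            exact this
    rcases le_or_gt P N with hPN | hPN
    · rw [← mul_sum] at h3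
      have h4 := sum_Ioc_inv_sq_le_sub (α := ℝ) hP.ne' hPN
      have h5 : (0:ℝ) ≤ (N : ℝ)⁻¹ := by positivity
      calc (Bad.card : ℝ) ≤ N * ∑ m ∈ Ioc P N, ((m : ℝ) ^ 2)⁻¹ := h3
        _ ≤ N * (P : ℝ)⁻¹ := by
            apply mul_le_mul_of_nonneg_left _ (by positivity)
            linarith
        _ = N / P := by rw [div_eq_mul_inv]
    · rw [Ioc_eq_empty (by omega), sum_empty] at h3
      exact h3.trans (by positivity)
  refine ⟨A' \ Bad, ?_, ?_, ?_⟩
  · intro w hw
    rw [Finset.mem_sdiff, hA', mem_union] at hw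
    rcases hw.1 with h | h
    · exact (mem_filter.1 (Finset.mem_sdiff.1 h).1).1
    · exact (mem_filter.1 (hRV h)).1
  · intro x hx y hy z hz hxy hyz hxz
    rw [mem_coe, Finset.mem_sdiff] at hx hy hz
    have hsub : ∀ w, w ∈ A' → w ∈ Icc 1 N := by
      intro w hw
      rw [hA', mem_union] at hw
      rcases hw with h | h
      · exact (mem_filter.1 (Finset.mem_sdiff.1 h).1).1
      · exact (mem_filter.1 (hRV h)).1
    have hx1 := hsub x hx.1
    have hy1 := hsub y hy.1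
    have hz1 := hsub z hz.1
    have hxpos : 0 < x := (mem_Icc.1 hx1).1
    obtain ⟨t, u, v, ht, hv, huv, hcop, hxe, hye, hze⟩ := gp_param hxpos hxy hxz
    have hup : ∀ p, p.Prime → p ∣ u → p ≤ P := by
      intro p hp hpu
      by_contra hcon
      apply hz.2
      rw [hBad, mem_filter]
      refine ⟨hz1, p, hp, by omega, ?_⟩
      rw [hze]
      exact Dvd.dvd.mul_left (pow_dvd_pow_of_dvd hpu 2) t
    have hvp : ∀ p, p.Prime → p ∣ v → p ≤ P := by
      intro p hp hpv
      by_contra hcon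
      apply hx.2
      rw [hBad, mem_filter]
      refine ⟨hx1, p, hp, by omega, ?_⟩
      rw [hxe]
      exact Dvd.dvd.mul_left (pow_dvd_pow_of_dvd hpv 2) t
    have hbt : ∀ b ∈ U, ∀ w, (w = x ∨ w = y ∨ w = z) → b ∣ w → b ∣ t := by
      intro b hb w hw hbw
      have hbu : b.Coprime u := coprime_of_primes (hU b hb).2.2 hup
      have hbv : b.Coprime v := coprime_of_primes (hU b hb).2.2 hvp
      rcases hw with rfl | rfl | rfl
      · rw [hxe] at hbw
        exact (Nat.Coprime.pow_right 2 hbv).dvd_of_dvd_mul_right hbw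
      · rw [hye] at hbw
        exact hbu.dvd_of_dvd_mul_right (hbv.dvd_of_dvd_mul_right hbw)
      · rw [hze] at hbw
        exact (Nat.Coprime.pow_right 2 hbu).dvd_of_dvd_mul_right hbw
    by_cases hcase : ∃ b ∈ U, b ∣ t
    · obtain ⟨b, hb, hbt'⟩ := hcase
      have hall : ∀ w, w ∈ A' → b ∣ w → ∃ j ∈ T0, w = b * j := by
        intro w hw hbw
        have hwN := hsub w hw
        rw [hA', mem_union] at hw
        rcases hw with h | h
        · exfalso
          exact (Finset.mem_sdiff.1 h).2 (by rw [hV, mem_filter]; exact ⟨hwN, b, hb, hbw⟩)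
        · rw [hR, mem_biUnion] at h
          obtain ⟨b', hb', h⟩ := h
          rw [mem_image] at h
          obtain ⟨j, hj, rfl⟩ := h
          obtain ⟨j', hj1', hjK', he⟩ := hquot b hb (b' * j) hwN hbw
          have := heq b hb b' hb' j' hj1' hjK' j (hT0 j hj).1 (hT0 j hj).2 he.symm
          subst this
          exact ⟨j, hj, rfl⟩
      obtain ⟨jx, hjx, hxj⟩ := hall x hx.1 (by rw [hxe]; exact Dvd.dvd.mul_right hbt' _)
      obtain ⟨jy, hjy, hyj⟩ := hall y hy.1 (by rw [hye, mul_assoc]; exact Dvd.dvd.mul_right hbt' _)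
      obtain ⟨jz, hjz, hzj⟩ := hall z hz.1 (by rw [hze]; exact Dvd.dvd.mul_right hbt' _)
      have hbpos := hUpos b hb
      refine hT0f jx hjx jy hjy jz hjz ?_ ?_ ?_
      · rw [hxj, hyj] at hxy; exact Nat.lt_of_mul_lt_mul_left hxy
      · rw [hyj, hzj] at hyz; exact Nat.lt_of_mul_lt_mul_left hyz
      · rw [hxj, hyj, hzj] at hxz
        have h1 : b ^ 2 * (jx * jz) = b ^ 2 * jy ^ 2 := by
          calc b ^ 2 * (jx * jz) = b * jx * (b * jz) := by ring
            _ = (b * jy) ^ 2 := hxz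
            _ = b ^ 2 * jy ^ 2 := by ring
        exact Nat.eq_of_mul_eq_mul_left (by positivity) h1
    · push Not at hcase
      have hall : ∀ w, w ∈ A' → (w = x ∨ w = y ∨ w = z) → w ∈ A := by
        intro w hw hw3
        rw [hA', mem_union] at hw
        rcases hw with h | h
        · exact (mem_filter.1 (Finset.mem_sdiff.1 h).1).2
        · exfalso
          rw [hR, mem_biUnion] at h
          obtain ⟨b', hb', h⟩ := h
          rw [mem_image] at h
          obtain ⟨j, hj, he⟩ := h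
          exact hcase b' hb' (hbt b' hb' w hw3 ⟨j, he.symm⟩)
      exact hA x (hall x hx.1 (Or.inl rfl)) y (hall y hy.1 (Or.inr (Or.inl rfl))) z
        (hall z hz.1 (Or.inr (Or.inr rfl))) hxy hyz hxz
  · have h1 : A'.card ≤ (A' \ Bad).card + Bad.card := by
      have := card_sdiff_add_card_inter A' Bad
      have h2 : (A' ∩ Bad).card ≤ Bad.card := card_le_card inter_subset_right
      omega
    have h2 : ((AN.card + U.card : ℕ) : ℝ) ≤ (((A' \ Bad).card + Bad.card : ℕ) : ℝ) := by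
      exact_mod_cast hA'card.trans h1
    push_cast at h2
    linarith

end Pool.Agent.X173.GF
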