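import Mathlib
import Pool.Agent.X173.GFA

open Finset Filter Topology
open scoped Nat

namespace Pool.Agent.X173.GF

/-! ### the totient density -/

/-- `∏_{p ≤ n} (1 - 1/p)`. -/
noncomputable def F (n : ℕ) : ℝ := ∏ p ∈ (Icc 1 n).filter Nat.Prime, (1 - (p : ℝ)⁻¹)

theorem F_nonneg (n : ℕ) : 0 ≤ F n := by
  apply prod_nonneg
  intro p hp
  have h1 : (1:ℝ) ≤ p := by
    exact_mod_cast (mem_filter.1 hp).2.one_lt.le
  have := inv_le_one_of_one_le₀ h1
  linarith

theorem F_succ_prime {n : ℕ} (h : (n + 1).Prime) : F (n + 1) = F n * (1 - ((n + 1 : ℕ) : ℝ)⁻¹) := by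
  unfold F
  have : (Icc 1 (n + 1)).filter Nat.Prime = insert (n + 1) ((Icc 1 n).filter Nat.Prime) := by
    ext p
    simp only [mem_filter, mem_Icc, mem_insert]
    constructor
    · rintro ⟨⟨h1, h2⟩, h3⟩
      rcases Nat.lt_or_ge n p with h4 | h4
      · left; omega
      · right; exact ⟨⟨h1, h4⟩, h3⟩
    · rintro (rfl | ⟨⟨h1, h2⟩, h3⟩)
      · exact ⟨⟨by omega, le_refl _⟩, h⟩
      · exact ⟨⟨h1, by omega⟩, h3⟩
  rw [this, prod_insert (by simp), mul_comm]

theorem F_succ_not {n : ℕ} (h : ¬ (n + 1).Prime) : F (n + 1) = F n := by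
  unfold F
  congr 1
  ext p
  simp only [mem_filter, mem_Icc]
  constructor
  · rintro ⟨⟨h1, h2⟩, h3⟩
    refine ⟨⟨h1, ?_⟩, h3⟩
    rcases Nat.lt_or_ge n p with h4 | h4
    · have : p = n + 1 := by omega
      subst this; exact absurd h3 h
    · exact h4
  · rintro ⟨⟨h1, h2⟩, h3⟩
    exact ⟨⟨h1, by omega⟩, h3⟩

theorem F_bound (m : ℕ) (hm : 1 ≤ m) : 1 ≤ 4 * F (2 * m + 1) ^ 2 * (2 * m + 1) := by
  induction m, hm using Nat.le_induction with
  | base =>
    have h3 : F 3 = F 2 * (1 - ((3 : ℕ) : ℝ)⁻¹) := F_succ_prime (n := 2) (by norm_num)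
    have h2 : F 2 = F 1 * (1 - ((2 : ℕ) : ℝ)⁻¹) := F_succ_prime (n := 1) (by norm_num)
    have h1 : F 1 = F 0 := F_succ_not (n := 0) (by norm_num)
    have h0 : F 0 = 1 := by simp [F]
    show 1 ≤ 4 * F 3 ^ 2 * (2 * ((1:ℕ):ℝ) + 1)
    rw [h3, h2, h1, h0]
    norm_num
  | succ m hm ih =>
    have hnp : ¬ (2 * m + 1 + 1).Prime := by
      intro hp
      have h2 : 2 ∣ 2 * m + 1 + 1 := ⟨m + 1, by ring⟩
      have := (Nat.prime_dvd_prime_iff_eq Nat.prime_two hp).1 h2
      omega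
    have e1 : F (2 * m + 2) = F (2 * m + 1) := F_succ_not (n := 2 * m + 1) hnp
    have hge : F (2 * m + 1) * (1 - ((2 * m + 3 : ℕ) : ℝ)⁻¹) ≤ F (2 * m + 3) := by
      by_cases hp : (2 * m + 2 + 1).Prime
      · rw [F_succ_prime hp, e1]
      · rw [F_succ_not hp, e1]
        have h1 : (0:ℝ) ≤ ((2 * m + 3 : ℕ) : ℝ)⁻¹ := by positivity
        have h2 := F_nonneg (2 * m + 1)
        nlinarith
    have hnn : 0 ≤ F (2 * m + 1) * (1 - ((2 * m + 3 : ℕ) : ℝ)⁻¹) := by
      apply mul_nonneg (F_nonneg _)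
      have h1 : (1:ℝ) ≤ ((2 * m + 3 : ℕ) : ℝ) := by
        exact_mod_cast (by omega : 1 ≤ 2 * m + 3)
      have := inv_le_one_of_one_le₀ h1
      linarith
    have hsq := pow_le_pow_left₀ hnn hge 2
    have e2 : 2 * (m + 1) + 1 = 2 * m + 3 := by ring
    rw [e2]
    push_cast at hsq ⊢
    set x : ℝ := F (2 * m + 1) with hx
    set y : ℝ := F (2 * m + 3) with hy
    have hmpos : (1:ℝ) ≤ m := by exact_mod_cast hm
    have key : 1 ≤ 4 * (x * (1 - (2 * (m:ℝ) + 3)⁻¹)) ^ 2 * (2 * m + 3) := by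
      have h3 : (1 - (2 * (m:ℝ) + 3)⁻¹) = (2 * m + 2) / (2 * m + 3) := by
        field_simp; ring
      rw [h3]
      have h4 : 4 * (x * ((2 * (m:ℝ) + 2) / (2 * m + 3))) ^ 2 * (2 * m + 3)
          = 4 * x ^ 2 * (2 * m + 1) * ((2 * m + 2) ^ 2 / ((2 * m + 1) * (2 * m + 3))) := by
        field_simp
      rw [h4]
      have h5 : 1 ≤ (2 * (m:ℝ) + 2) ^ 2 / ((2 * m + 1) * (2 * m + 3)) := by
        rw [one_le_div (by positivity)]
        nlinarith
      calc (1:ℝ) ≤ 4 * x ^ 2 * (2 * m + 1) := ih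
        _ = 4 * x ^ 2 * (2 * m + 1) * 1 := by ring
        _ ≤ _ := mul_le_mul_of_nonneg_left h5 (by positivity)
    calc (1:ℝ) ≤ 4 * (x * (1 - (2 * (m:ℝ) + 3)⁻¹)) ^ 2 * (2 * m + 3) := key
      _ ≤ 4 * y ^ 2 * (2 * (m + 1) + 1) := by
        have : (2 * ((m:ℝ) + 1) + 1) = 2 * m + 3 := by ring
        rw [this]
        apply mul_le_mul_of_nonneg_right _ (by positivity)
        linarith

theorem totient_F (P : ℕ) : (φ (P !) : ℝ) = (P ! : ℝ) * F P := by
  have h := Nat.totient_eq_mul_prod_factors (P !)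
  have h2 : ((φ (P !) : ℚ) : ℝ) = (((P ! : ℕ) : ℚ) : ℝ) * ((∏ p ∈ (P !).primeFactors, (1 - (p : ℚ)⁻¹) : ℚ) : ℝ) := by
    rw [← Rat.cast_mul, ← h]
  have h3 : (P !).primeFactors = (Icc 1 P).filter Nat.Prime := by
    ext p
    rw [Nat.mem_primeFactors, mem_filter, mem_Icc]
    constructor
    · rintro ⟨hp, hd, -⟩
      exact ⟨⟨hp.one_lt.le, (hp.dvd_factorial).1 hd⟩, hp⟩
    · rintro ⟨⟨h1, h2⟩, hp⟩
      exact ⟨hp, (hp.dvd_factorial).2 h2, Nat.factorial_ne_zero P⟩
  rw [h3] at h2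
  unfold F
  push_cast at h2
  exact h2

theorem exists_P : ∃ P : ℕ, 12 ≤ P ∧ 0 < (4 / 5 : ℝ) * (F P / 156) - 1 / P := by
  refine ⟨2 * 500000 + 1, by norm_num, ?_⟩
  have h := F_bound 500000 (by norm_num)
  have h0 := F_nonneg (2 * 500000 + 1)
  set x := F (2 * 500000 + 1) with hx
  push_cast at h ⊢
  have h1 : (1 / 2001 : ℝ) < x := by
    by_contra hcon
    push Not at hcon
    have : x ^ 2 ≤ (1 / 2001) ^ 2 := pow_le_pow_left₀ h0 hcon 2
    norm_num at this h
    linarith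
  norm_num at h1 ⊢
  linarith

/-! ### the set of `b` -/

theorem count_B (Q : ℕ) (hQ : 0 < Q) (k : ℕ) (a : ℕ) :
    ((Ioc a (a + Q * k)).filter (fun b => b.Coprime Q)).card = k * φ Q := by
  have h : ∀ k a, ((Ico a (a + Q * k)).filter (fun b => Q.Coprime b)).card = k * φ Q := by
    intro k
    induction k with
    | zero => intro a; simp
    | succ k ih =>
      intro a
      have e : a + Q * (k + 1) = (a + Q * k) + Q := by ring
      have hsplit : Ico a (a + Q * (k + 1)) = Ico a (a + Q * k) ∪ Ico (a + Q * k) ((a + Q * k) + Q) := by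
        rw [e, Ico_union_Ico_eq_Ico (by omega) (by omega)]
      rw [hsplit, filter_union, card_union_of_disjoint, ih, Nat.filter_coprime_Ico_eq_totient]
      · ring
      · apply disjoint_filter_filter
        exact Ico_disjoint_Ico_consecutive _ _ _
  have e : Ioc a (a + Q * k) = Ico (a + 1) (a + 1 + Q * k) := by
    ext x; simp only [mem_Ioc, mem_Ico]; omega
  rw [e]
  rw [← h k (a + 1)]
  congr 1
  apply filter_congr
  intro x _
  exact Nat.coprime_comm

theorem gpf_T12 : GPF ((({1, 2, 5, 6, 7, 8, 9, 10, 11, 12} : Finset ℕ)) : Set ℕ) := by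
  intro a ha b hb c hc
  rw [mem_coe] at ha hb hc
  revert a b c
  decide

theorem gpf_T3 : GPF ((({1, 2, 3} : Finset ℕ)) : Set ℕ) := by
  intro a ha b hb c hc
  rw [mem_coe] at ha hb hc
  revert a b c
  decide

open Classical in
theorem level (P : ℕ) (hP : 12 ≤ P) (A : Set ℕ) (hA : GPF A) (k : ℕ) (hk : 0 < k) :
    ∃ T1 T2 : Finset ℕ, T1 ⊆ Icc 1 (156 * (P ! * k)) ∧ T2 ⊆ Icc 1 (39 * (P ! * k)) ∧
      GPF (T1 : Set ℕ) ∧ GPF (T2 : Set ℕ) ∧
      (((Icc 1 (156 * (P ! * k))).filter (· ∈ A)).card : ℝ)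
        + (((Icc 1 (39 * (P ! * k))).filter (· ∈ A)).card : ℝ) + (P ! * k : ℕ) * F P
      ≤ T1.card + T2.card + (195 * (P ! * k) : ℕ) / P := by
  have hPf : 0 < P ! := Nat.factorial_pos P
  set M := P ! * k with hM
  have hMpos : 0 < M := Nat.mul_pos hPf hk
  set B := (Ioc (12 * M) (12 * M + P ! * k)).filter (fun b => b.Coprime (P !)) with hB
  have hBcard : B.card = k * φ (P !) := count_B (P !) hPf k (12 * M)
  have hBmem : ∀ b ∈ B, 12 * M < b ∧ b ≤ 13 * M ∧ b.Coprime (P !) := by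
    intro b hb
    rw [hB, mem_filter, mem_Ioc] at hb
    exact ⟨hb.1.1, by omega, hb.2⟩
  set U1 := B.filter (fun b => ((Icc 1 12).filter (fun j => b * j ∈ A)).card ≤ 9) with hU1
  set U2 := B.filter (fun b => ((Icc 1 3).filter (fun j => b * j ∈ A)).card ≤ 2) with hU2
  have hunion : B ⊆ U1 ∪ U2 := by
    intro b hb
    rw [mem_union]
    by_contra hcon
    rw [not_or] at hcon
    obtain ⟨h1, h2⟩ := hcon
    rw [hU1, mem_filter, not_and] at h1
    rw [hU2, mem_filter, not_and] at h2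
    have h1' := h1 hb
    have h2' := h2 hb
    push Not at h1' h2'
    have hbpos : 0 < b := by have := (hBmem b hb).1; omega
    -- b, 2b, 3b in A
    have h3 : (Icc 1 3).filter (fun j => b * j ∈ A) = Icc 1 3 := by
      apply eq_of_subset_of_card_le (filter_subset _ _)
      simp only [Nat.card_Icc]
      omega
    have hin : ∀ j ∈ Icc 1 3, b * j ∈ A := by
      intro j hj
      rw [← h3] at hj
      exact (mem_filter.1 hj).2
    have a1 := hin 1 (by decide)
    have a2 := hin 2 (by decide)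
    have a3 := hin 3 (by decide)
    have n4 : b * 4 ∉ A := fun h => hA _ a1 _ a2 _ h (by omega) (by omega) (by ring)
    have n9 : b * 9 ∉ A := fun h => hA _ a1 _ a3 _ h (by omega) (by omega) (by ring)
    have n612 : ¬ (b * 6 ∈ A ∧ b * 12 ∈ A) := fun h =>
      hA _ a3 _ h.1 _ h.2 (by omega) (by omega) (by ring)
    have hle : ((Icc 1 12).filter (fun j => b * j ∈ A)).card ≤ 9 := by
      by_cases h6 : b * 6 ∈ A
      · have h12 : b * 12 ∉ A := fun h => n612 ⟨h6, h⟩
        have hsub : (Icc 1 12).filter (fun j => b * j ∈ A) ⊆ ({1, 2, 3, 5, 6, 7, 8, 10, 11} : Finset ℕ) := by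
          intro j hj
          rw [mem_filter, mem_Icc] at hj
          obtain ⟨⟨hj1, hj2⟩, hj3⟩ := hj
          have n1 : j ≠ 4 := by rintro rfl; exact n4 hj3
          have n2 : j ≠ 9 := by rintro rfl; exact n9 hj3
          have n3 : j ≠ 12 := by rintro rfl; exact h12 hj3
          simp only [mem_insert, mem_singleton]
          omega
        exact (card_le_card hsub).trans (by decide)
      · have hsub : (Icc 1 12).filter (fun j => b * j ∈ A) ⊆ ({1, 2, 3, 5, 7, 8, 10, 11, 12} : Finset ℕ) := by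
          intro j hj
          rw [mem_filter, mem_Icc] at hj
          obtain ⟨⟨hj1, hj2⟩, hj3⟩ := hj
          have n1 : j ≠ 4 := by rintro rfl; exact n4 hj3
          have n2 : j ≠ 9 := by rintro rfl; exact n9 hj3
          have n3 : j ≠ 6 := by rintro rfl; exact h6 hj3
          simp only [mem_insert, mem_singleton]
          omega
        exact (card_le_card hsub).trans (by decide)
    omega
  have hcardle : B.card ≤ U1.card + U2.card := (card_le_card hunion).trans (card_union_le _ _)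
  obtain ⟨T1, hT1a, hT1b, hT1c⟩ := modify P 12 (156 * M) hP (by omega)
    {1, 2, 5, 6, 7, 8, 9, 10, 11, 12} (by decide) gpf_T12 A hA U1
    (by
      intro b hb
      have h := hBmem b (mem_filter.1 hb).1
      exact ⟨by omega, by omega, h.2.2⟩)
    (by
      intro b hb
      have h := (mem_filter.1 hb).2
      have : ({1, 2, 5, 6, 7, 8, 9, 10, 11, 12} : Finset ℕ).card = 10 := by decide
      rw [this]; omega)
  obtain ⟨T2, hT2a, hT2b, hT2c⟩ := modify P 3 (39 * M) (by omega) (by omega)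
    {1, 2, 3} (by decide) gpf_T3 A hA U2
    (by
      intro b hb
      have h := hBmem b (mem_filter.1 hb).1
      exact ⟨by omega, by omega, h.2.2⟩)
    (by
      intro b hb
      have h := (mem_filter.1 hb).2
      have : ({1, 2, 3} : Finset ℕ).card = 3 := by decide
      rw [this]; omega)
  refine ⟨T1, T2, hT1a, hT2a, hT1b, hT2b, ?_⟩
  have h1 : ((M : ℕ) : ℝ) * F P ≤ U1.card + U2.card := by
    have h2 : ((M : ℕ) : ℝ) * F P = ((B.card : ℕ) : ℝ) := by
      rw [hBcard, hM]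
      push_cast
      rw [totient_F]
      ring
    rw [h2]
    exact_mod_cast hcardle
  push_cast at hT1c hT2c ⊢
  have h5 : (195 * (M : ℝ)) / P = 156 * (M : ℝ) / P + 39 * M / P := by ring
  rw [h5]
  linarith

end Pool.Agent.X173.GF
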