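import Mathlib
import Pool.Agent.X173.GFB

open Finset Filter Topology
open scoped Nat

namespace Pool.Agent.X173.GF

/-- counting function -/
noncomputable def cnt (A : Set ℕ) (N : ℕ) : ℕ := (A ∩ Set.Icc 1 N).ncard

open Classical in
theorem cnt_eq (A : Set ℕ) (N : ℕ) : cnt A N = ((Icc 1 N).filter (· ∈ A)).card := by
  unfold cnt
  rw [← Set.ncard_coe_finset]
  congr 1
  ext x
  simp only [Set.mem_inter_iff, Set.mem_Icc, coe_filter, mem_Icc, Set.mem_ofPred_eq]
  tauto

theorem cnt_le (A : Set ℕ) (N : ℕ) : cnt A N ≤ N := by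
  classical
  rw [cnt_eq]
  refine (card_filter_le _ _).trans ?_
  simp

theorem ratio_le_one (A : Set ℕ) (N : ℕ) : (cnt A N : ℝ) / N ≤ 1 := by
  rcases Nat.eq_zero_or_pos N with h | h
  · subst h; simp
  · rw [div_le_one (by exact_mod_cast h)]
    exact_mod_cast cnt_le A N

theorem block (c : ℝ) (h : ∀ M : ℕ, ∃ N, M ≤ N ∧ ∃ T : Finset ℕ, T ⊆ Icc 1 N ∧ GPF (T : Set ℕ) ∧
    c * N ≤ T.card) (L : ℕ) (hL : 2 ≤ L) :
    ∃ S : Set ℕ, 0 ∉ S ∧ GPF S ∧ ∃ᶠ N in atTop, c - 1 / L ≤ (cnt S N : ℝ) / N := by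
  classical
  choose Nf hNf Tf hTsub hTgpf hTcard using h
  let arg : ℕ → ℕ := fun i => Nat.rec 1 (fun _ a => L ^ 2 * (Nf a + 1) ^ 2) i
  have arg_succ : ∀ i, arg (i + 1) = L ^ 2 * (Nf (arg i) + 1) ^ 2 := fun i => rfl
  let N : ℕ → ℕ := fun i => Nf (arg i)
  let T : ℕ → Finset ℕ := fun i => Tf (arg i)
  have hstep : ∀ i, L ^ 2 * (N i + 1) ^ 2 ≤ N (i + 1) := by
    intro i
    have := hNf (arg (i + 1))
    rw [arg_succ i] at this
    exact this
  have hlt : ∀ i, N i < N (i + 1) := by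
    intro i
    have h1 := hstep i
    have h2 : N i + 1 ≤ L ^ 2 * (N i + 1) ^ 2 := by
      have h3 : 1 ≤ L ^ 2 := Nat.one_le_pow _ _ (by omega)
      have h4 : N i + 1 ≤ (N i + 1) ^ 2 := by nlinarith
      nlinarith
    omega
  have hmono : StrictMono N := strictMono_nat_of_lt_succ hlt
  have hgap : ∀ j i, j < i → L ^ 2 * (N j + 1) ^ 2 ≤ N i := fun j i hji =>
    (hstep j).trans (hmono.monotone hji)
  have hN0 : ∀ i, 0 < N i := by
    intro i
    have h0 : 1 ≤ N 0 := hNf 1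
    exact lt_of_lt_of_le h0 (hmono.monotone (Nat.zero_le i))
  let S : Set ℕ := {n | ∃ i, n ∈ T i ∧ N i < L * n}
  have hTb : ∀ i n, n ∈ T i → 1 ≤ n ∧ n ≤ N i := fun i n hn => mem_Icc.1 (hTsub (arg i) hn)
  refine ⟨S, ?_, ?_, ?_⟩
  · rintro ⟨i, hi, -⟩
    have := (hTb i 0 hi).1
    omega
  · rintro x ⟨i, hxi, hxi'⟩ y ⟨j, hyj, hyj'⟩ z ⟨l, hzl, hzl'⟩ hxy hyz hxz
    have bx := hTb i x hxi
    have bby := hTb j y hyj
    have bz := hTb l z hzl
    have hLpos : 0 < L := by omega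
    have hjl : j = l := by
      rcases lt_trichotomy j l with h1 | h1 | h1
      · exfalso
        have h2 := hgap j l h1
        -- L z > N l ≥ L² (N j + 1)²
        have h3 : L ^ 2 * (N j + 1) ^ 2 < L * z := lt_of_le_of_lt h2 hzl'
        have h4 : L * (N j + 1) ^ 2 < z := by
          have : L * (L * (N j + 1) ^ 2) < L * z := by
            calc L * (L * (N j + 1) ^ 2) = L ^ 2 * (N j + 1) ^ 2 := by ring
              _ < L * z := h3
          exact Nat.lt_of_mul_lt_mul_left this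
        have h5 : z ≤ y ^ 2 := by rw [← hxz]; nlinarith
        have h6 : y ^ 2 < (N j + 1) ^ 2 := Nat.pow_lt_pow_left (by omega) (by norm_num)
        nlinarith
      · exact h1
      · exfalso
        have h2 := hgap l j h1
        have h3 : L ^ 2 * (N l + 1) ^ 2 < L * y := lt_of_le_of_lt h2 hyj'
        have h4 : L * (N l + 1) ^ 2 < y := by
          have : L * (L * (N l + 1) ^ 2) < L * y := by
            calc L * (L * (N l + 1) ^ 2) = L ^ 2 * (N l + 1) ^ 2 := by ring
              _ < L * y := h3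
          exact Nat.lt_of_mul_lt_mul_left this
        nlinarith
    subst hjl
    have hij : i = j := by
      rcases lt_trichotomy i j with h1 | h1 | h1
      · exfalso
        have h2 := hgap i j h1
        -- L² x z = L² y² > N_j² ≥ N_j z
        have h3 : N j * N j < L * y * (L * y) := Nat.mul_lt_mul'' hyj' hyj'
        have h4 : N j * z ≤ N j * N j := Nat.mul_le_mul_left _ bz.2
        have h5 : N j * z < (L ^ 2 * x) * z := by
          calc N j * z ≤ N j * N j := h4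
            _ < L * y * (L * y) := h3
            _ = L ^ 2 * y ^ 2 := by ring
            _ = L ^ 2 * (x * z) := by rw [hxz]
            _ = (L ^ 2 * x) * z := by ring
        have h6 : N j < L ^ 2 * x := Nat.lt_of_mul_lt_mul_right h5
        have h7 : L ^ 2 * (N i + 1) ^ 2 < L ^ 2 * x := lt_of_le_of_lt h2 h6
        have h8 : (N i + 1) ^ 2 < x := Nat.lt_of_mul_lt_mul_left h7
        nlinarith
      · exact h1
      · exfalso
        have h2 := hgap j i h1
        have h3 : L ^ 2 * (N j + 1) ^ 2 < L * x := lt_of_le_of_lt h2 hxi'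
        have h4 : L * (N j + 1) ^ 2 < x := by
          have : L * (L * (N j + 1) ^ 2) < L * x := by
            calc L * (L * (N j + 1) ^ 2) = L ^ 2 * (N j + 1) ^ 2 := by ring
              _ < L * x := h3
          exact Nat.lt_of_mul_lt_mul_left this
        nlinarith
    subst hij
    exact hTgpf (arg i) x hxi y hyj z hzl hxy hyz hxz
  · rw [frequently_atTop]
    intro M
    have hM : M ≤ N M := hmono.id_le M
    refine ⟨N M, hM, ?_⟩
    have hNpos : (0:ℝ) < N M := by exact_mod_cast hN0 M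
    rw [le_div_iff₀ hNpos, cnt_eq]
    have h1 : (T M).filter (fun n => N M < L * n) ⊆ (Icc 1 (N M)).filter (· ∈ S) := by
      intro n hn
      rw [mem_filter] at hn
      rw [mem_filter, mem_Icc]
      exact ⟨hTb M n hn.1, M, hn.1, hn.2⟩
    have h2 : ((T M).filter (fun n => ¬ N M < L * n)).card ≤ N M / L := by
      have h3 : (T M).filter (fun n => ¬ N M < L * n) ⊆ Icc 1 (N M / L) := by
        intro n hn
        rw [mem_filter] at hn
        rw [mem_Icc]
        refine ⟨(hTb M n hn.1).1, ?_⟩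
        rw [Nat.le_div_iff_mul_le (by omega)]
        have := hn.2
        push Not at this
        linarith [mul_comm n L]
      have := card_le_card h3
      rwa [Nat.card_Icc, Nat.add_sub_cancel] at this
    have h3 : (T M).card = ((T M).filter (fun n => N M < L * n)).card
        + ((T M).filter (fun n => ¬ N M < L * n)).card := (card_filter_add_card_filter_not _).symm
    have h4 : c * (N M) ≤ (T M).card := hTcard (arg M)
    have h5 : ((N M / L : ℕ) : ℝ) ≤ (N M : ℝ) / L := Nat.cast_div_le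
    have h6 : ((T M).card : ℝ) = (((T M).filter (fun n => N M < L * n)).card : ℝ)
        + (((T M).filter (fun n => ¬ N M < L * n)).card : ℝ) := by exact_mod_cast h3
    have h7 : (((T M).filter (fun n => ¬ N M < L * n)).card : ℝ) ≤ ((N M / L : ℕ) : ℝ) := by
      exact_mod_cast h2
    have h8 : (((T M).filter (fun n => N M < L * n)).card : ℝ)
        ≤ (((Icc 1 (N M)).filter (· ∈ S)).card : ℝ) := by exact_mod_cast card_le_card h1
    have h9 : (c - 1 / L) * (N M : ℝ) = c * (N M) - (N M : ℝ) / L := by ring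
    rw [h9]
    linarith

/-- For a set with a density `d`, arbitrarily large levels have GP-free sets of density `d + κ`. -/
theorem improve (P : ℕ) (hP : 12 ≤ P) (κ : ℝ) (hκ : κ = ((4 / 5 : ℝ) * (F P / 156) - 1 / P) / 2)
    (hκ0 : 0 < κ) (A : Set ℕ) (hA : GPF A) (d : ℝ)
    (hd : Tendsto (fun N : ℕ => (cnt A N : ℝ) / N) atTop (𝓝 d)) (M : ℕ) :
    ∃ N, M ≤ N ∧ ∃ T : Finset ℕ, T ⊆ Icc 1 N ∧ GPF (T : Set ℕ) ∧ (d + κ) * N ≤ T.card := by
  classical
  have hev : ∀ᶠ N : ℕ in atTop, d - κ < (cnt A N : ℝ) / N :=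
    hd.eventually (lt_mem_nhds (by linarith))
  obtain ⟨K0, hK0⟩ := eventually_atTop.1 hev
  let k := max (max M K0) 1
  have hk1 : 0 < k := lt_of_lt_of_le one_pos (le_max_right _ _)
  have hkM : M ≤ k := (le_max_left _ _).trans (le_max_left _ _)
  have hkK : K0 ≤ k := (le_max_right _ _).trans (le_max_left _ _)
  have hPf : 1 ≤ P ! := Nat.factorial_pos P
  have hQk : k ≤ P ! * k := by nlinarith
  obtain ⟨T1, T2, hT1, hT2, hg1, hg2, hineq⟩ := level P hP A hA k hk1
  set Q := P ! * k with hQ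
  have hQpos : 0 < Q := by omega
  have hQr : (0:ℝ) < (Q:ℝ) := by exact_mod_cast hQpos
  have hPr : (0:ℝ) < (P:ℝ) := by exact_mod_cast (by omega : 0 < P)
  have c1 : (d - κ) * ((156 * Q : ℕ) : ℝ) < (((Icc 1 (156 * Q)).filter (· ∈ A)).card : ℝ) := by
    have h1 := hK0 (156 * Q) (by omega)
    rw [lt_div_iff₀ (by exact_mod_cast (by omega : 0 < 156 * Q)), cnt_eq] at h1
    exact h1
  have c2 : (d - κ) * ((39 * Q : ℕ) : ℝ) < (((Icc 1 (39 * Q)).filter (· ∈ A)).card : ℝ) := by
    have h1 := hK0 (39 * Q) (by omega)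
    rw [lt_div_iff₀ (by exact_mod_cast (by omega : 0 < 39 * Q)), cnt_eq] at h1
    exact h1
  by_cases hc1 : (d + κ) * ((156 * Q : ℕ) : ℝ) ≤ T1.card
  · exact ⟨156 * Q, by omega, T1, hT1, hg1, hc1⟩
  by_cases hc2 : (d + κ) * ((39 * Q : ℕ) : ℝ) ≤ T2.card
  · exact ⟨39 * Q, by omega, T2, hT2, hg2, hc2⟩
  exfalso
  push Not at hc1 hc2
  push_cast at c1 c2 hc1 hc2 hineq
  have e : 390 * κ * (Q:ℝ) = Q * F P - 195 * Q / P := by
    rw [hκ]; field_simp; ring
  nlinarith

theorem main : ∃ κ : ℝ, 0 < κ ∧ ∀ (A : Set ℕ) (d : ℝ), GPF A →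
    Tendsto (fun N : ℕ => (cnt A N : ℝ) / N) atTop (𝓝 d) → ∀ L : ℕ, 2 ≤ L →
    ∃ S : Set ℕ, 0 ∉ S ∧ GPF S ∧ d + κ - 1 / L ≤ limsup (fun N : ℕ => (cnt S N : ℝ) / N) atTop := by
  obtain ⟨P, hP, hpos⟩ := exists_P
  refine ⟨((4 / 5 : ℝ) * (F P / 156) - 1 / P) / 2, by linarith, ?_⟩
  intro A d hA hd L hL
  obtain ⟨S, h1, h2, h3⟩ := block (d + ((4 / 5 : ℝ) * (F P / 156) - 1 / P) / 2)
    (improve P hP _ rfl (by linarith) A hA d hd) L hL
  refine ⟨S, h1, h2, ?_⟩
  have hb : IsBoundedUnder (fun x1 x2 => x1 ≤ x2) atTop (fun i : ℕ => (cnt S i : ℝ) / i) :=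
    ⟨1, by simp only [eventually_map]; exact Eventually.of_forall fun N => ratio_le_one S N⟩
  exact le_limsup_of_frequently_le h3 hb

end Pool.Agent.X173.GF
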