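import Mathlib
set_option autoImplicit false

namespace Pool.Agent.X173.BT

open Set

lemma left_end {O : Set ℝ} (hO : IsOpen O) {z w δ : ℝ} (hδ : 0 < δ) (h1 : Ioo (z-δ) z ⊆ O)
    (hw : w < z) (hwO : w ∉ O) : ∃ a < z, a ∉ O ∧ Ioo a z ⊆ O := by
  have key : ∀ y, y ∉ O → y < z → y ≤ z - δ := by
    intro y hy hyz
    by_contra hcon
    push Not at hcon
    exact hy (h1 ⟨hcon, hyz⟩)
  let S : Set ℝ := Oᶜ ∩ Iic (z - δ/2)
  have hS : IsClosed S := hO.isClosed_compl.inter isClosed_Iic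
  have hwS : w ∈ S := ⟨hwO, by have := key w hwO hw; simp only [mem_Iic]; linarith⟩
  have hbdd : BddAbove S := ⟨z - δ/2, fun y hy => hy.2⟩
  have ha := hS.csSup_mem ⟨w, hwS⟩ hbdd
  refine ⟨sSup S, ?_, ha.1, ?_⟩
  · have := ha.2
    simp only [mem_Iic] at this
    linarith
  · rintro y ⟨hy1, hy2⟩
    by_contra hy
    have h3 := key y hy hy2
    have h4 : y ∈ S := ⟨hy, by simp only [mem_Iic]; linarith⟩
    have h5 := le_csSup hbdd h4
    linarith

lemma right_end {O : Set ℝ} (hO : IsOpen O) {z w δ : ℝ} (hδ : 0 < δ) (h1 : Ioo z (z+δ) ⊆ O)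
    (hw : z < w) (hwO : w ∉ O) : ∃ a, z < a ∧ a ∉ O ∧ Ioo z a ⊆ O := by
  have hO' : IsOpen ((fun y : ℝ => -y) ⁻¹' O) := hO.preimage continuous_neg
  obtain ⟨a, ha1, ha2, ha3⟩ := left_end (z := -z) (w := -w) hO' hδ (by
    rintro y ⟨hy1, hy2⟩
    exact h1 ⟨by linarith, by linarith⟩) (by linarith) (by simpa using hwO)
  refine ⟨-a, by linarith, ha2, ?_⟩
  rintro y ⟨hy1, hy2⟩
  have : -y ∈ (fun y : ℝ => -y) ⁻¹' O := ha3 ⟨by linarith, by linarith⟩
  simpa using this

lemma pow_unbdd {β : ℝ} (h1 : 1 < β) {s : ℝ} (hs : 0 < s) : ∃ j : ℕ, 1 < β^j * s := by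
  obtain ⟨j, hj⟩ := pow_unbounded_of_one_lt (1/s) h1
  refine ⟨j, ?_⟩
  rw [div_lt_iff₀ hs] at hj
  exact hj

/-- left endpoint orbit -/
noncomputable def lo (α β c : ℝ) : ℕ → ℝ
  | 0 => 0
  | (j+1) => if lo α β c j < c then β * lo α β c j + α else β * lo α β c j + α - 1

/-- right endpoint orbit -/
noncomputable def ro (α β c : ℝ) : ℕ → ℝ
  | 0 => 1
  | (j+1) => if ro α β c j ≤ c then β * ro α β c j + α else β * ro α β c j + α - 1

section
variable {α β c : ℝ} {O : Set ℝ}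

lemma J_sub (h1 : 1 < β) (hL : ∀ y ∈ O, y < c → β*y+α ∈ O) (hR : ∀ y ∈ O, c < y → β*y+α-1 ∈ O)
    {s : ℝ} (hs : Ioo 0 s ⊆ O) (j : ℕ)
    (hj : ∀ i < j, ¬ (lo α β c i < c ∧ c < lo α β c i + β^i * s)) :
    Ioo (lo α β c j) (lo α β c j + β^j * s) ⊆ O := by
  have h0 : 0 < β := by linarith
  induction j with
  | zero => simpa [lo] using hs
  | succ j ih =>
    have ih' := ih (fun i hi => hj i (by omega))
    have hj' := hj j (by omega)
    rintro y ⟨hy1, hy2⟩
    rw [pow_succ] at hy2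
    by_cases hc : lo α β c j < c
    · have h3 : lo α β c j + β^j * s ≤ c := by
        by_contra hcon
        push Not at hcon
        exact hj' ⟨hc, hcon⟩
      simp only [lo, if_pos hc] at hy1 hy2
      have h4 : (y - α) / β ∈ Ioo (lo α β c j) (lo α β c j + β^j * s) := by
        constructor
        · rw [lt_div_iff₀ h0]; linarith
        · rw [div_lt_iff₀ h0]; linarith
      have h5 := hL _ (ih' h4) (lt_of_lt_of_le h4.2 h3)
      rw [mul_div_cancel₀ _ h0.ne', sub_add_cancel] at h5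
      exact h5
    · simp only [lo, if_neg hc] at hy1 hy2
      push Not at hc
      have h4 : (y - α + 1) / β ∈ Ioo (lo α β c j) (lo α β c j + β^j * s) := by
        constructor
        · rw [lt_div_iff₀ h0]; linarith
        · rw [div_lt_iff₀ h0]; linarith
      have h5 := hR _ (ih' h4) (lt_of_le_of_lt hc h4.1)
      rw [mul_div_cancel₀ _ h0.ne'] at h5
      convert h5 using 1
      ring

lemma J'_sub (h1 : 1 < β) (hL : ∀ y ∈ O, y < c → β*y+α ∈ O) (hR : ∀ y ∈ O, c < y → β*y+α-1 ∈ O)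
    {t : ℝ} (ht : Ioo t 1 ⊆ O) (j : ℕ)
    (hj : ∀ i < j, ¬ (ro α β c i - β^i * (1-t) < c ∧ c < ro α β c i)) :
    Ioo (ro α β c j - β^j * (1-t)) (ro α β c j) ⊆ O := by
  have h0 : 0 < β := by linarith
  induction j with
  | zero => simpa [ro] using ht
  | succ j ih =>
    have ih' := ih (fun i hi => hj i (by omega))
    have hj' := hj j (by omega)
    rintro y ⟨hy1, hy2⟩
    rw [pow_succ] at hy1
    by_cases hc : ro α β c j ≤ c
    · simp only [ro, if_pos hc] at hy1 hy2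
      have h4 : (y - α) / β ∈ Ioo (ro α β c j - β^j * (1-t)) (ro α β c j) := by
        constructor
        · rw [lt_div_iff₀ h0]; linarith
        · rw [div_lt_iff₀ h0]; linarith
      have h5 := hL _ (ih' h4) (lt_of_lt_of_le h4.2 hc)
      rw [mul_div_cancel₀ _ h0.ne', sub_add_cancel] at h5
      exact h5
    · simp only [ro, if_neg hc] at hy1 hy2
      push Not at hc
      have h3 : c ≤ ro α β c j - β^j * (1-t) := by
        by_contra hcon
        push Not at hcon
        exact hj' ⟨hcon, hc⟩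
      have h4 : (y - α + 1) / β ∈ Ioo (ro α β c j - β^j * (1-t)) (ro α β c j) := by
        constructor
        · rw [lt_div_iff₀ h0]; linarith
        · rw [div_lt_iff₀ h0]; linarith
      have h5 := hR _ (ih' h4) (lt_of_le_of_lt h3 h4.1)
      rw [mul_div_cancel₀ _ h0.ne'] at h5
      convert h5 using 1
      ring

end

lemma c_mem {α β c : ℝ} {O : Set ℝ} (h1 : 1 < β) (hO : IsOpen O) (hne : O.Nonempty)
    (hsub : O ⊆ Ioo 0 1)
    (hL : ∀ y ∈ O, y < c → β*y+α ∈ O) (hR : ∀ y ∈ O, c < y → β*y+α-1 ∈ O) : c ∈ O := by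
  have h0 : 0 < β := by linarith
  by_contra hc
  -- iterate: from an interval of length ℓ get one of length β ℓ
  have hstep : ∀ p q : ℝ, p < q → Ioo p q ⊆ O → ∃ p' q' : ℝ, q' - p' = β * (q - p) ∧ Ioo p' q' ⊆ O := by
    intro p q hpq hpqO
    have hcn : ¬ (p < c ∧ c < q) := fun h => hc (hpqO h)
    by_cases hpc : p < c
    · have hqc : q ≤ c := by
        by_contra hcon
        push Not at hcon
        exact hcn ⟨hpc, hcon⟩
      refine ⟨β*p+α, β*q+α, by ring, ?_⟩
      rintro y ⟨hy1, hy2⟩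
      have h4 : (y - α) / β ∈ Ioo p q := by
        constructor
        · rw [lt_div_iff₀ h0]; linarith
        · rw [div_lt_iff₀ h0]; linarith
      have h5 := hL _ (hpqO h4) (lt_of_lt_of_le h4.2 hqc)
      rw [mul_div_cancel₀ _ h0.ne', sub_add_cancel] at h5
      exact h5
    · push Not at hpc
      refine ⟨β*p+α-1, β*q+α-1, by ring, ?_⟩
      rintro y ⟨hy1, hy2⟩
      have h4 : (y - α + 1) / β ∈ Ioo p q := by
        constructor
        · rw [lt_div_iff₀ h0]; linarith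
        · rw [div_lt_iff₀ h0]; linarith
      have h5 := hR _ (hpqO h4) (lt_of_le_of_lt hpc h4.1)
      rw [mul_div_cancel₀ _ h0.ne'] at h5
      convert h5 using 1
      ring
  obtain ⟨x, hx⟩ := hne
  obtain ⟨ε, hε, hball⟩ := Metric.isOpen_iff.mp hO x hx
  rw [Real.ball_eq_Ioo] at hball
  have hall : ∀ j : ℕ, ∃ p q : ℝ, q - p = β^j * (2*ε) ∧ Ioo p q ⊆ O := by
    intro j
    induction j with
    | zero => exact ⟨x - ε, x + ε, by ring, hball⟩
    | succ j ih =>
      obtain ⟨p, q, hpq, hpqO⟩ := ih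
      have : p < q := by
        have : 0 < β^j * (2*ε) := by positivity
        linarith
      obtain ⟨p', q', h3, h4⟩ := hstep p q this hpqO
      exact ⟨p', q', by rw [h3, hpq]; ring, h4⟩
  obtain ⟨j, hj⟩ := pow_unbdd h1 (by positivity : 0 < 2*ε)
  obtain ⟨p, q, hpq, hpqO⟩ := hall j
  have hlt : p < q := by linarith
  have h3 : Ioo p q ⊆ Ioo 0 1 := hpqO.trans hsub
  rw [Ioo_subset_Ioo_iff hlt] at h3
  linarith [h3.1, h3.2]

end Pool.Agent.X173.BT
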