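import Mathlib
import Pool.Agent.X173.BTA
set_option autoImplicit false

namespace Pool.Agent.X173.BT

open Set

theorem core {α β c : ℝ} {O : Set ℝ} (h1 : 1 < β) (h2 : β^2 ≤ 2) (hα : 0 ≤ α) (hα1 : β*α ≤ β-1)
    (hc : β*c+α = 1)
    (hO : IsOpen O) (hne : O.Nonempty) (hsub : O ⊆ Ioo 0 1)
    (hL : ∀ y ∈ O, y < c → β*y+α ∈ O) (hR : ∀ y ∈ O, c < y → β*y+α-1 ∈ O)
    (hP : c ∈ O → ∃ ε > 0, Ioo 0 ε ⊆ O ∧ Ioo (1-ε) 1 ⊆ O) :
    ∃ F : Set ℝ, F.Finite ∧ Ioo 0 1 ⊆ O ∪ F := by
  have hβ0 : 0 < β := by linarith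
  have hcO : c ∈ O := c_mem h1 hO hne hsub hL hR
  obtain ⟨ε, hε, hε1, hε2⟩ := hP hcO
  have h0O : (0:ℝ) ∉ O := fun h => lt_irrefl _ (hsub h).1
  have h1O : (1:ℝ) ∉ O := fun h => lt_irrefl _ (hsub h).2
  have hc0 : 0 < c := (hsub hcO).1
  have hc1 : c < 1 := (hsub hcO).2
  obtain ⟨δ, hδ, hball⟩ := Metric.isOpen_iff.mp hO c hcO
  rw [Real.ball_eq_Ioo] at hball
  -- s, t, a, b
  obtain ⟨s, hs0, hsO, hsI⟩ := right_end (z := 0) (w := 1) hO hε (by simpa using hε1) one_pos h1O
  obtain ⟨t, ht1, htO, htI⟩ := left_end (z := 1) (w := 0) hO hε hε2 one_pos h0O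
  obtain ⟨a, hac, haO, haI⟩ := left_end (z := c) (w := 0) hO hδ
    (fun y hy => hball ⟨hy.1, by linarith [hy.2]⟩) hc0 h0O
  obtain ⟨b, hcb, hbO, hbI⟩ := right_end (z := c) (w := 1) hO hδ
    (fun y hy => hball ⟨by linarith [hy.1], hy.2⟩) hc1 h1O
  -- F1
  have F1a : ∀ p q : ℝ, Ioo p q ⊆ O → p < c → c < q → a ≤ p := by
    intro p q hpq hp hq
    by_contra hcon
    push Not at hcon
    exact haO (hpq ⟨hcon, by linarith⟩)
  have F1b : ∀ p q : ℝ, Ioo p q ⊆ O → p < c → c < q → q ≤ b := by
    intro p q hpq hp hq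
    by_contra hcon
    push Not at hcon
    exact hbO (hpq ⟨by linarith, hcon⟩)
  -- F2
  have F2 : β*(b-c) ≤ s := by
    by_contra hcon
    push Not at hcon
    apply hsO
    have h4 : (s - α + 1)/β ∈ Ioo c b := by
      constructor
      · rw [lt_div_iff₀ hβ0]; linarith
      · rw [div_lt_iff₀ hβ0]; linarith
    have h5 := hR _ (hbI h4) h4.1
    rw [mul_div_cancel₀ _ hβ0.ne'] at h5
    convert h5 using 1
    ring
  have F3 : β*(c-a) ≤ 1-t := by
    by_contra hcon
    push Not at hcon
    apply htO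
    have h4 : (t - α)/β ∈ Ioo a c := by
      constructor
      · rw [lt_div_iff₀ hβ0]; linarith
      · rw [div_lt_iff₀ hβ0]; linarith
    have h5 := hL _ (haI h4) h4.2
    rw [mul_div_cancel₀ _ hβ0.ne', sub_add_cancel] at h5
    exact h5
  have hs1 : s ≤ 1 := by
    by_contra hcon
    push Not at hcon
    exact h1O (hsI ⟨one_pos, hcon⟩)
  -- the times m, m'
  have hexm : ∃ j, lo α β c j < c ∧ c < lo α β c j + β^j * s := by
    by_contra hcon
    push Not at hcon
    obtain ⟨j, hj⟩ := pow_unbdd h1 hs0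
    have h3 := (J_sub h1 hL hR hsI j (fun i _ h => absurd h.2 (not_lt.mpr (hcon i h.1)))).trans hsub
    have hlt : lo α β c j < lo α β c j + β^j * s := by linarith
    rw [Ioo_subset_Ioo_iff hlt] at h3
    linarith [h3.1, h3.2]
  have hexm' : ∃ j, ro α β c j - β^j*(1-t) < c ∧ c < ro α β c j := by
    by_contra hcon
    push Not at hcon
    obtain ⟨j, hj⟩ := pow_unbdd h1 (by linarith : 0 < 1 - t)
    have h3 := (J'_sub h1 hL hR htI j (fun i _ h => absurd h.2 (not_lt.mpr (hcon i h.1)))).trans hsub
    have hlt : ro α β c j - β^j*(1-t) < ro α β c j := by linarith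
    rw [Ioo_subset_Ioo_iff hlt] at h3
    linarith [h3.1, h3.2]
  classical
  let m := Nat.find hexm
  let m' := Nat.find hexm'
  have hm : lo α β c m < c ∧ c < lo α β c m + β^m * s := Nat.find_spec hexm
  have hm' : ro α β c m' - β^m'*(1-t) < c ∧ c < ro α β c m' := Nat.find_spec hexm'
  have hmmin : ∀ i < m, ¬ (lo α β c i < c ∧ c < lo α β c i + β^i * s) :=
    fun i hi => Nat.find_min hexm hi
  have hm'min : ∀ i < m', ¬ (ro α β c i - β^i*(1-t) < c ∧ c < ro α β c i) :=
    fun i hi => Nat.find_min hexm' hi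
  have hJ : ∀ j ≤ m, Ioo (lo α β c j) (lo α β c j + β^j * s) ⊆ O :=
    fun j hj => J_sub h1 hL hR hsI j (fun i hi => hmmin i (by omega))
  have hJ' : ∀ j ≤ m', Ioo (ro α β c j - β^j*(1-t)) (ro α β c j) ⊆ O :=
    fun j hj => J'_sub h1 hL hR htI j (fun i hi => hm'min i (by omega))
  -- m = 0
  rcases Nat.eq_zero_or_pos m with hm0 | hmpos
  · refine ⟨∅, finite_empty, ?_⟩
    rw [hm0] at hm
    simp only [lo, pow_zero, one_mul, zero_add] at hm
    have ha0 : a ≤ 0 := F1a 0 s hsI hm.1 hm.2
    have htα : t ≤ α := by nlinarith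
    have hαc : α < c := by nlinarith
    intro y hy
    left
    by_cases hys : y < s
    · exact hsI ⟨hy.1, hys⟩
    · push Not at hys
      exact htI ⟨by linarith [hm.2], hy.2⟩
  -- m ≥ 1
  have hsc : s ≤ c := by
    by_contra hcon
    push Not at hcon
    exact hmmin 0 hmpos (by simp only [lo, pow_zero, one_mul, zero_add]; exact ⟨hc0, hcon⟩)
  have hlo1 : lo α β c 1 = α := by
    show (if (0:ℝ) < c then β*0+α else β*0+α-1) = α
    rw [if_pos hc0]; ring
  have hsα : s ≤ α := by
    by_contra hcon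
    push Not at hcon
    have h3 := hJ 1 hmpos
    rw [hlo1, pow_one] at h3
    exact hsO (h3 ⟨hcon, by nlinarith⟩)
  have hro1 : ro α β c 1 = β + α - 1 := by
    show (if (1:ℝ) ≤ c then β*1+α else β*1+α-1) = β+α-1
    rw [if_neg (not_le.mpr hc1)]; ring
  have hm'pos : 0 < m' := by
    rw [Nat.pos_iff_ne_zero]
    intro h0
    rw [h0] at hm'
    simp only [ro, pow_zero, one_mul] at hm'
    have hb1 : 1 ≤ b := F1b t 1 htI (by linarith [hm'.1]) hm'.2
    nlinarith
  have hct : c ≤ t := by
    by_contra hcon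
    push Not at hcon
    exact hm'min 0 hm'pos (by simp only [ro, pow_zero, one_mul]; exact ⟨by linarith, hc1⟩)
  -- inequalities
  have hu : 0 < b - c := by linarith
  have hv : 0 < c - a := by linarith
  have ha1 : a ≤ lo α β c m := F1a _ _ (hJ m le_rfl) hm.1 hm.2
  have hb1 : lo α β c m + β^m * s ≤ b := F1b _ _ (hJ m le_rfl) hm.1 hm.2
  have ha2 : a ≤ ro α β c m' - β^m'*(1-t) := F1a _ _ (hJ' m' le_rfl) hm'.1 hm'.2
  have hb2 : ro α β c m' ≤ b := F1b _ _ (hJ' m' le_rfl) hm'.1 hm'.2
  set Y := β^(m+1) with hY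
  set X := β^(m'+1) with hX
  have hYβ : Y = β^m * β := pow_succ _ _
  have hXβ : X = β^m' * β := pow_succ _ _
  have hβm : 0 < β^m := by positivity
  have hβm' : 0 < β^m' := by positivity
  have I1 : (b-c)*(Y-1) ≤ c - lo α β c m := by
    have h3 : β^m*(β*(b-c)) ≤ β^m * s := mul_le_mul_of_nonneg_left F2 hβm.le
    have h4 : β^m*(β*(b-c)) = (b-c)*Y := by rw [hYβ]; ring
    linarith
  have I2 : (c-a)*(X-1) ≤ ro α β c m' - c := by
    have h3 : β^m'*(β*(c-a)) ≤ β^m' * (1-t) := mul_le_mul_of_nonneg_left F3 hβm'.le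
    have h4 : β^m'*(β*(c-a)) = (c-a)*X := by rw [hXβ]; ring
    linarith
  have hY1 : 1 < Y := one_lt_pow₀ h1 (by omega)
  have hX1 : 1 < X := one_lt_pow₀ h1 (by omega)
  have I3 : (X-1)*(Y-1) ≤ 1 := by
    have h3 : (b-c)*(Y-1) ≤ c-a := by linarith
    have h4 : (c-a)*(X-1) ≤ b-c := by linarith
    have h5 : ((b-c)*(Y-1))*((c-a)*(X-1)) ≤ (c-a)*(b-c) := by
      apply mul_le_mul h3 h4 (by nlinarith) hv.le
    have h6 : ((b-c)*(c-a))*((X-1)*(Y-1)) ≤ ((b-c)*(c-a))*1 := by nlinarith
    exact le_of_mul_le_mul_left h6 (by positivity)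
  -- bounds
  have hβα : 1 ≤ β*(1-α) := by linarith
  rcases Nat.lt_or_ge m' m with hlt | hge
  · -- case m' < m
    exfalso
    have hYX : β*X ≤ Y := by
      rw [hX, hY, ← pow_succ']
      exact pow_le_pow_right₀ h1.le (by omega)
    have hXle : β*X ≤ 1+β := by
      have h3 : (X-1)*(β*X-1) ≤ 1 := by
        have : (X-1)*(β*X-1) ≤ (X-1)*(Y-1) := mul_le_mul_of_nonneg_left (by linarith) (by linarith)
        linarith
      have h4 : X*(β*X) ≤ X*(1+β) := by nlinarith
      exact le_of_mul_le_mul_left h4 (by linarith)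
    have hr : ∀ j, 1 ≤ j → j ≤ m' → β*ro α β c j ≤ β^(j+1) - 1 := by
      intro j hj1 hjm
      induction j, hj1 using Nat.le_induction with
      | base =>
        rw [hro1]
        have e1 : β*(β+α-1) = β*β + β*α - β := by ring
        have e2 : β^(1+1) = β*β := by ring
        rw [e1, e2]; linarith
      | succ j hj1 ih =>
        have ih' := ih (by omega)
        have hpw : β^(j+1) ≤ β^m' := pow_le_pow_right₀ h1.le hjm
        have hle : ro α β c j ≤ c := by
          have h3 : β*(β*ro α β c j) ≤ β*(β*c) := by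
            have h4 : β*(β*ro α β c j) ≤ β*(β^(j+1)-1) := mul_le_mul_of_nonneg_left ih' hβ0.le
            have h5 : β*β^(j+1) ≤ β*β^m' := mul_le_mul_of_nonneg_left hpw hβ0.le
            have h6 : β*β^m' = X := by rw [hXβ]; ring
            have h7 : β*c = 1-α := by linarith
            have h8 : X ≤ 1+β := by nlinarith
            rw [h7]
            nlinarith
          have h4 := le_of_mul_le_mul_left h3 hβ0
          exact le_of_mul_le_mul_left h4 hβ0
        have h3 : ro α β c (j+1) = β*ro α β c j+α := by simp only [ro, if_pos hle]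
        rw [h3]
        have h4 : β*(β*ro α β c j) ≤ β*(β^(j+1)-1) := mul_le_mul_of_nonneg_left ih' hβ0.le
        have h5 : β^(j+1+1) = β*β^(j+1) := by rw [pow_succ']
        rw [h5]
        linarith
    have h3 := hr m' hm'pos le_rfl
    have h4 : β*(β*ro α β c m') ≤ β*(X-1) := mul_le_mul_of_nonneg_left h3 hβ0.le
    have h5 : β*(β*ro α β c m') ≤ β*(β*c) := by
      have h7 : β*c = 1-α := by linarith
      rw [h7]
      linarith
    have h6 := le_of_mul_le_mul_left (le_of_mul_le_mul_left h5 hβ0) hβ0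
    linarith [hm'.2]
  · -- case m ≤ m'
    have hYX : Y ≤ X := by
      rw [hX, hY]
      exact pow_le_pow_right₀ h1.le (by omega)
    have hY2 : Y ≤ 2 := by
      by_contra hcon
      push Not at hcon
      nlinarith
    -- lo j
    have hlj : ∀ j, j ≤ m → β*lo α β c j ≤ β^j - 1 ∧ lo α β c j < c := by
      have haux : ∀ j, j ≤ m → β*lo α β c j ≤ β^j - 1 → lo α β c j < c := by
        intro j hj h3
        have hpw : β^j ≤ β^m := pow_le_pow_right₀ h1.le hj
        have h4 : β*(β*lo α β c j) < β*(β*c) := by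
          have h7 : β*c = 1-α := by linarith
          rw [h7]
          nlinarith
        exact lt_of_mul_lt_mul_left (lt_of_mul_lt_mul_left h4 hβ0.le) hβ0.le
      intro j
      induction j with
      | zero =>
        intro _
        simp only [lo]
        exact ⟨by simp, hc0⟩
      | succ j ih =>
        intro hj
        obtain ⟨ih1, ih2⟩ := ih (by omega)
        have h3 : lo α β c (j+1) = β*lo α β c j+α := by simp only [lo, if_pos ih2]
        have h4 : β*lo α β c (j+1) ≤ β^(j+1) - 1 := by
          rw [h3, pow_succ]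
          nlinarith
        exact ⟨h4, haux _ hj h4⟩
    have hlos : ∀ j, j ≤ m → lo α β c (j+1) = β*lo α β c j+α := by
      intro j hj
      simp only [lo, if_pos (hlj j hj).2]
    -- βt ≤ 1
    have hlm := (hlj m le_rfl)
    have hβt : β*t ≤ 1 := by
      have h3 : t ≤ β*lo α β c m + α := by nlinarith
      have h4 : β*(β*lo α β c m) ≤ β*(β^m-1) := mul_le_mul_of_nonneg_left hlm.1 hβ0.le
      have h5 : β*β^m = Y := by rw [hYβ]; ring
      nlinarith
    have hβs : β*s ≤ β-1 := by nlinarith
    -- ro j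
    have hrj : ∀ j, j + 1 ≤ m → ro α β c (j+1) = lo α β c (j+1) + β^j*(β-1) := by
      intro j
      induction j with
      | zero => intro _; rw [hro1, hlo1]; ring
      | succ j ih =>
        intro hj
        have ih' := ih (by omega)
        have hle : ro α β c (j+1) ≤ c := by
          by_contra hcon
          push Not at hcon
          apply hm'min (j+1) (by omega)
          refine ⟨?_, hcon⟩
          rw [ih']
          have h3 := (hlj (j+1) (by omega)).2
          have h4 : β^j*(β-1) ≤ β^(j+1)*(1-t) := by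
            rw [pow_succ, mul_assoc]
            apply mul_le_mul_of_nonneg_left _ (by positivity)
            linarith
          linarith
        have h3 : ro α β c (j+1+1) = β*ro α β c (j+1)+α := by
          rw [ro, if_pos hle]
        rw [h3, ih', hlos (j+1) (by omega), pow_succ]
        ring
    obtain ⟨k, hk⟩ : ∃ k, m = k+1 := ⟨m-1, by omega⟩
    have hrm : ro α β c m = lo α β c m + β^k*(β-1) := by
      rw [hk]; exact hrj k (by omega)
    have hβmk : β^m = β^k*β := by rw [hk, pow_succ]
    have hmm : m' = m := by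
      apply le_antisymm _ hge
      apply Nat.find_min'
      refine ⟨?_, ?_⟩
      · rw [hrm, hβmk]
        have h4 : β^k*(β-1) ≤ β^k*(β*(1-t)) := by
          apply mul_le_mul_of_nonneg_left _ (by positivity)
          linarith
        linarith [hlm.2]
      · rw [hrm]
        have h4 : β^k*(β*s) ≤ β^k*(β-1) := by
          apply mul_le_mul_of_nonneg_left hβs (by positivity)
        have h5 := hm.2
        rw [hβmk] at h5
        linarith
    have hXY : X = Y := by rw [hX, hY, hmm]
    rw [hmm, hXY] at I2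
    rw [hmm] at hb2
    rw [hrm] at I2 hb2
    -- u = c - lo m
    have hYk : Y = β^k*β*β := by rw [hYβ, hβmk]
    have J1 : (c - lo α β c m)*Y ≤ β^k*(β-1) := by
      have h3 : (c - lo α β c m)*(Y-1) ≤ (c-a)*(Y-1) :=
        mul_le_mul_of_nonneg_right (by linarith) (by linarith)
      linarith
    have J2 : β*β*(c - lo α β c m) ≤ β-1 := by
      have h3 : Y*(β*β*(c - lo α β c m)) ≤ Y*(β-1) := by
        have h4 : β*β*((c - lo α β c m)*Y) ≤ β*β*(β^k*(β-1)) :=
          mul_le_mul_of_nonneg_left J1 (by positivity)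
        have h5 : β*β*(β^k*(β-1)) = Y*(β-1) := by rw [hYk]; ring
        linarith
      exact le_of_mul_le_mul_left h3 (by linarith)
    have h7 : β*c = 1-α := by linarith
    have hββm : β*β^m = Y := by rw [hYβ]; ring
    have J3 : β*β*(c - lo α β c m) = β*(1-α) - β*(β*lo α β c m) := by
      rw [← h7]; ring
    have J4 : β*(β*lo α β c m) ≤ Y - β := by
      have h4 : β*(β*lo α β c m) ≤ β*(β^m-1) := mul_le_mul_of_nonneg_left hlm.1 hβ0.le
      linarith
    have hYeq : Y = 2 := by
      apply le_antisymm hY2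
      linarith
    have hαeq : β*α = β-1 := by linarith
    have hueq : β*β*(c - lo α β c m) = β-1 := by linarith
    have hββ : 0 < β*β := by positivity
    -- a ≥ lo m, b = c+u
    have hkk : β*β*(β^k*(β-1)) = 2*(β-1) := by
      have : β*β*(β^k*(β-1)) = Y*(β-1) := by rw [hYk]; ring
      rw [this, hYeq]
    have hale : lo α β c m ≤ a := by
      rw [hYeq] at I2
      have h3 : β*β*(c-a) ≤ β*β*(c - lo α β c m) := by nlinarith
      have h4 := le_of_mul_le_mul_left h3 hββ
      linarith
    have hbge : 1 ≤ β*b := by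
      have h3 : β*β*(lo α β c m + β^k*(β-1)) ≤ β*β*b := mul_le_mul_of_nonneg_left hb2 hββ.le
      have h4 : β*(β*b) ≥ β*1 := by nlinarith
      exact le_of_mul_le_mul_left h4 hβ0
    have hsge : α ≤ s := by
      have h3 : β*α ≤ β*s := by
        have h4 : β*β*(b-c) ≤ β*s := by nlinarith
        have h5 : β*β*b ≥ β*β*(lo α β c m + β^k*(β-1)) := mul_le_mul_of_nonneg_left hb2 hββ.le
        nlinarith
      exact le_of_mul_le_mul_left h3 hβ0
    -- differences
    have hdiff : ∀ j, j ≤ m → lo α β c (j+1) - lo α β c j = α*β^j := by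
      intro j
      induction j with
      | zero => intro _; rw [hlo1]; simp [lo]
      | succ j ih =>
        intro hj
        have h3 := hlos (j+1) hj
        have h4 := hlos j (by omega)
        have h5 := ih (by omega)
        rw [h3]
        rw [pow_succ]
        nlinarith
    have hbt : t ≤ b := by
      have h3 : β*t ≤ β*b := by linarith
      exact le_of_mul_le_mul_left h3 hβ0
    refine ⟨(fun j => lo α β c j) '' (Set.Iic m) ∪ {b}, ((Set.finite_Iic m).image _).union (finite_singleton b), ?_⟩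
    intro y hy
    by_cases hyO : y ∈ O
    · exact Or.inl hyO
    right
    by_cases hym : lo α β c m ≤ y
    · rcases eq_or_lt_of_le hym with h | h
      · left; exact ⟨m, mem_Iic.mpr le_rfl, h⟩
      · right
        rw [mem_singleton_iff]
        by_contra hyb
        apply hyO
        rcases lt_or_gt_of_ne hyb with h3 | h3
        · rcases lt_trichotomy y c with h4 | h4 | h4
          · exact haI ⟨lt_of_le_of_lt ha1 h, h4⟩
          · rw [h4]; exact hcO
          · exact hbI ⟨h4, h3⟩
        · exact htI ⟨by linarith, hy.2⟩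
    · left
      push Not at hym
      -- find j
      have : ∃ j, y < lo α β c j := ⟨m, hym⟩
      let n := Nat.find this
      have hn : y < lo α β c n := Nat.find_spec this
      have hnm : n ≤ m := Nat.find_min' this hym
      have hn0 : n ≠ 0 := by
        intro h0
        rw [h0] at hn
        simp only [lo] at hn
        linarith [hy.1]
      obtain ⟨i, hi⟩ : ∃ i, n = i+1 := ⟨n-1, by omega⟩
      have hni : ¬ (y < lo α β c i) := Nat.find_min this (by omega)
      push Not at hni
      rcases eq_or_lt_of_le hni with h | h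
      · exact ⟨i, mem_Iic.mpr (by omega), h⟩
      · exfalso
        apply hyO
        apply hJ i (by omega)
        refine ⟨h, ?_⟩
        have h5 := hdiff i (by omega)
        rw [hi] at hn
        have h6 : α*β^i ≤ β^i*s := by
          rw [mul_comm]
          exact mul_le_mul_of_nonneg_left hsge (by positivity)
        linarith

end Pool.Agent.X173.BT
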