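import Mathlib

set_option linter.unusedSectionVars false

namespace Pool.Agent.X173.SGA
open SkewMonoidAlgebra

/-- `R` is the direct sum of the additive subgroups `A g`. -/
def IsGrading {G R : Type*} [Ring R] (A : G → AddSubgroup R) : Prop :=
  ∀ r : R, ∃! f : G →₀ R, (∀ g, f g ∈ A g) ∧ f.sum (fun _ x => x) = r

/-- strong grading: `A g * A h = A (g * h)`. -/
def IsStrong {G R : Type*} [Group G] [Ring R] (A : G → AddSubgroup R) : Prop :=
  ∀ g h : G, AddSubgroup.closure {x : R | ∃ a ∈ A g, ∃ b ∈ A h, a * b = x} = A (g * h)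

/-- graded two-sided ideals: they contain all homogeneous components of their elements. -/
def IsGradedIdeal {G R : Type*} [Ring R] (A : G → AddSubgroup R) (I : TwoSidedIdeal R) : Prop :=
  ∀ f : G →₀ R, (∀ g, f g ∈ A g) → f.sum (fun _ x => x) ∈ I → ∀ g, f g ∈ I

section
variable {L K C : Type*} [Group L] [Group K] [CommRing C] [MulSemiringAction (L × K) C]

/-- the homogeneous component of degree `k`. -/
def piece (L : Type*) {K : Type*} (C : Type*) [Group L] [Group K] [CommRing C]
    [MulSemiringAction (L × K) C] (k : K) :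
    AddSubgroup (SkewMonoidAlgebra C (L × K)) where
  carrier := {r | ∀ g : L × K, g.2 ≠ k → r.coeff g = 0}
  zero_mem' := by intro g _; simp
  add_mem' := by
    intro a b ha hb g hg
    simp [ha g hg, hb g hg]
  neg_mem' := by
    intro a ha g hg
    simp [ha g hg]

theorem mem_piece {k : K} {r : SkewMonoidAlgebra C (L × K)} :
    r ∈ piece L C k ↔ ∀ g : L × K, g.2 ≠ k → r.coeff g = 0 := Iff.rfl

/-- evaluation of a coefficient -/
def ev (g : L × K) : SkewMonoidAlgebra C (L × K) →+ C where
  toFun r := r.coeff g
  map_zero' := by simp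
  map_add' := by intro a b; simp

theorem ev_apply (g : L × K) (r : SkewMonoidAlgebra C (L × K)) : ev g r = r.coeff g := rfl

theorem coeff_fsum (f : K →₀ SkewMonoidAlgebra C (L × K)) (hf : ∀ k, f k ∈ piece L C k)
    (g : L × K) : (f.sum (fun _ x => x)).coeff g = (f g.2).coeff g := by
  classical
  rw [← ev_apply, Finsupp.sum, _root_.map_sum]
  simp only [ev_apply]
  apply Finset.sum_eq_single g.2
  · intro k _ hk
    exact hf k g (Ne.symm hk)
  · intro h
    rw [Finsupp.notMem_support_iff.1 h]; simp

open Classical in
/-- the homogeneous component of an element -/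
noncomputable def comp (k : K) (r : SkewMonoidAlgebra C (L × K)) :
    SkewMonoidAlgebra C (L × K) := ⟨r.coeff.filter (fun g => g.2 = k)⟩

open Classical in
theorem comp_coeff (k : K) (r : SkewMonoidAlgebra C (L × K)) (g : L × K) :
    (comp k r).coeff g = if g.2 = k then r.coeff g else 0 := by
  classical
  unfold comp
  simp [Finsupp.filter_apply]

open Classical in
/-- the decomposition -/
noncomputable def dec (r : SkewMonoidAlgebra C (L × K)) : K →₀ SkewMonoidAlgebra C (L × K) :=
  Finsupp.onFinset (r.support.image Prod.snd) (fun k => comp k r) (by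
    intro k hk
    rw [ne_eq, SkewMonoidAlgebra.ext_iff, not_forall] at hk
    obtain ⟨g, hg⟩ := hk
    rw [comp_coeff] at hg
    by_cases h : g.2 = k
    · rw [if_pos h] at hg
      rw [Finset.mem_image]
      exact ⟨g, by simpa using hg, h⟩
    · rw [if_neg h] at hg
      exact absurd (by simp) hg)

theorem dec_apply (r : SkewMonoidAlgebra C (L × K)) (k : K) : dec r k = comp k r := rfl

theorem comp_mem (k : K) (r : SkewMonoidAlgebra C (L × K)) : comp k r ∈ piece L C k := by
  intro g hg
  rw [comp_coeff, if_neg hg]

theorem isGrading : IsGrading (piece L C : K → _) := by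
  intro r
  refine ⟨dec r, ⟨fun k => comp_mem k r, ?_⟩, ?_⟩
  · ext g
    rw [coeff_fsum _ (fun k => comp_mem k r), dec_apply, comp_coeff, if_pos rfl]
  · rintro f ⟨hf, hs⟩
    ext k g
    rw [dec_apply, comp_coeff]
    split_ifs with h
    · rw [← hs, coeff_fsum f hf, h]
    · exact hf k g h

theorem single_mem (k : K) (l : L) (c : C) : single (l, k) c ∈ piece L C k := by
  classical
  intro g hg
  rw [coeff_single_apply, if_neg]
  rintro rfl
  exact hg rfl

theorem mul_mem_piece {k k' : K} {a b : SkewMonoidAlgebra C (L × K)} (ha : a ∈ piece L C k)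
    (hb : b ∈ piece L C k') : a * b ∈ piece L C (k * k') := by
  intro g hg
  rw [coeff_mul_left, SkewMonoidAlgebra.sum_def, Finsupp.sum]
  apply Finset.sum_eq_zero
  intro g' hg'
  have h1 : g'.2 = k := by
    by_contra h
    rw [Finsupp.mem_support_iff] at hg'
    exact hg' (ha g' h)
  have h2 : b.coeff (g'⁻¹ * g) = 0 := by
    apply hb
    intro h
    apply hg
    rw [Prod.snd_mul, Prod.snd_inv, h1] at h
    rw [← h]; group
  rw [h2]; simp

theorem isStrong : IsStrong (piece L C : K → _) := by
  intro k k'
  apply le_antisymm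
  · rw [AddSubgroup.closure_le]
    rintro x ⟨a, ha, b, hb, rfl⟩
    exact mul_mem_piece ha hb
  · intro x hx
    apply AddSubgroup.subset_closure
    refine ⟨x * single ((1 : L), k'⁻¹) 1, ?_, single ((1 : L), k') 1, single_mem _ _ _, ?_⟩
    · have := mul_mem_piece hx (single_mem k'⁻¹ (1 : L) (1 : C))
      rwa [mul_inv_cancel_right] at this
    · rw [mul_assoc, single_mul_single]
      have : (((1 : L), k'⁻¹) : L × K) * (1, k') = 1 := by
        ext <;> simp
      rw [this]
      simp

/-- the core of the minimal length argument. -/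
theorem key (hB : ∀ l : L, l ≠ 1 → ∀ k : K, ∀ c : C, (∀ x : C, c * ((l, k) • x - x) = 0) → c = 0)
    (I : TwoSidedIdeal (SkewMonoidAlgebra C (L × K))) (n : ℕ) :
    ∀ s : SkewMonoidAlgebra C (L × K), s ∈ I → s ∈ piece L C (1 : K) → s ≠ 0 →
      s.support.card ≤ n → ∃ c : C, c ≠ 0 ∧ single (1 : L × K) c ∈ I := by
  classical
  induction n with
  | zero =>
    intro s _ _ hs hc
    exfalso
    apply hs
    rw [← support_eq_empty]
    exact Finset.card_eq_zero.1 (Nat.le_zero.1 hc)
  | succ n ih =>
    intro s hI hs h0 hc
    obtain ⟨g0, hg0⟩ : ∃ g, s.coeff g ≠ 0 := by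
      by_contra h
      push Not at h
      apply h0
      ext g; simp [h g]
    have hg02 : g0.2 = 1 := by
      by_contra h
      exact hg0 (hs g0 h)
    set s' := s * single g0⁻¹ 1 with hs'
    have hcoef : ∀ y, s'.coeff y = s.coeff (y * g0) := by
      intro y
      rw [hs', coeff_mul_single, inv_inv, smul_one, mul_one]
    have hI' : s' ∈ I := I.mul_mem_right _ _ hI
    have hs1 : s' ∈ piece L C (1 : K) := by
      intro g hg
      rw [hcoef]
      apply hs
      rw [Prod.snd_mul, hg02, mul_one]
      exact hg
    have hc' : s'.support.card ≤ s.support.card := by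
      apply Finset.card_le_card_of_injOn (fun y => y * g0)
      · intro y hy
        have : s'.coeff y ≠ 0 := by simpa using hy
        rw [hcoef] at this
        simpa using this
      · intro a _ b _ h
        exact mul_right_cancel h
    have h1 : s'.coeff 1 ≠ 0 := by rw [hcoef, one_mul]; exact hg0
    by_cases hx : ∃ x : C, s' * single 1 x - single 1 x * s' ≠ 0
    · obtain ⟨x, hx⟩ := hx
      have hco : ∀ g, (s' * single 1 x - single 1 x * s').coeff g =
          s'.coeff g * (g • x - x) := by
        intro g
        rw [coeff_sub, Finsupp.sub_apply, coeff_mul_single_one, coeff_single_one_mul]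
        ring
      apply ih _ (I.sub_mem (I.mul_mem_right _ _ hI') (I.mul_mem_left _ _ hI')) _ hx
      · have hlt : (s' * single 1 x - single 1 x * s').support.card < s'.support.card := by
          apply Finset.card_lt_card
          rw [Finset.ssubset_iff_of_subset]
          · refine ⟨1, by simpa using h1, ?_⟩
            rw [mem_support_iff, hco]
            simp
          · intro g hg
            rw [mem_support_iff, hco] at hg
            rw [mem_support_iff]
            intro h
            apply hg
            rw [h, zero_mul]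
        omega
      · intro g hg
        rw [hco, hs1 g hg, zero_mul]
    · push Not at hx
      refine ⟨s'.coeff 1, h1, ?_⟩
      have : s' = single 1 (s'.coeff 1) := by
        ext g
        rw [coeff_single_apply]
        split_ifs with h
        · rw [h]
        · by_cases hg2 : g.2 = 1
          · have hg1 : g.1 ≠ 1 := by
              intro hg1
              apply h
              ext
              · exact hg1.symm
              · exact hg2.symm
            apply hB g.1 hg1 g.2
            intro x
            have := hx x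
            have h3 : (s' * single 1 x - single 1 x * s').coeff g = 0 := by rw [this]; simp
            rw [coeff_sub, Finsupp.sub_apply, coeff_mul_single_one, coeff_single_one_mul] at h3
            rw [← h3]
            ring
          · exact hs1 g hg2
      rw [← this]
      exact hI'

theorem gradedSimple
    (hA : ∀ I : Ideal C, (∀ g : L × K, ∀ c ∈ I, g • c ∈ I) → I = ⊥ ∨ I = ⊤)
    (hB : ∀ l : L, l ≠ 1 → ∀ k : K, ∀ c : C, (∀ x : C, c * ((l, k) • x - x) = 0) → c = 0)
    (I : TwoSidedIdeal (SkewMonoidAlgebra C (L × K)))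
    (hI : IsGradedIdeal (piece L C : K → _) I) : I = ⊥ ∨ I = ⊤ := by
  classical
  by_cases hbot : ∀ r ∈ I, r = 0
  · left
    rw [eq_bot_iff]
    intro r hr
    rw [hbot r hr]
    exact (⊥ : TwoSidedIdeal _).zero_mem
  right
  push Not at hbot
  obtain ⟨r, hr, hr0⟩ := hbot
  obtain ⟨g0, hg0⟩ : ∃ g, r.coeff g ≠ 0 := by
    by_contra h
    push Not at h
    apply hr0
    ext g; simp [h g]
  have hc : comp g0.2 r ∈ I := by
    have := hI (dec r) (fun k => comp_mem k r) (by
      have : (dec r).sum (fun _ x => x) = r := by
        ext g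
        rw [coeff_fsum _ (fun k => comp_mem k r), dec_apply, comp_coeff, if_pos rfl]
      rw [this]; exact hr) g0.2
    exact this
  have hs : comp g0.2 r * single ((1 : L), g0.2⁻¹) 1 ∈ I := I.mul_mem_right _ _ hc
  have hsp : comp g0.2 r * single ((1 : L), g0.2⁻¹) 1 ∈ piece L C (1 : K) := by
    have := mul_mem_piece (comp_mem g0.2 r) (single_mem g0.2⁻¹ (1 : L) (1 : C))
    rwa [mul_inv_cancel] at this
  have hs0 : comp g0.2 r * single ((1 : L), g0.2⁻¹) 1 ≠ 0 := by
    intro h
    have h2 : (comp g0.2 r * single ((1 : L), g0.2⁻¹) 1).coeff (g0 * ((1 : L), g0.2⁻¹)) = 0 := by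
      rw [h]; simp
    rw [coeff_mul_single, smul_one, mul_one, mul_inv_cancel_right, comp_coeff, if_pos rfl] at h2
    exact hg0 h2
  obtain ⟨c, hc0, hcI⟩ := key hB I _ _ hs hsp hs0 le_rfl
  let J : Ideal C :=
    { carrier := {c | single (1 : L × K) c ∈ I}
      zero_mem' := by
        change single (1 : L × K) (0 : C) ∈ I
        rw [single_zero]; exact I.zero_mem
      add_mem' := by
        intro a b ha hb
        change single (1 : L × K) (a + b) ∈ I
        rw [single_add]; exact I.add_mem ha hb
      smul_mem' := by
        intro a b hb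
        change single (1 : L × K) (a * b) ∈ I
        have : (single (1 : L × K) (a * b) : SkewMonoidAlgebra C (L × K)) =
            single 1 a * single 1 b := by
          rw [single_mul_single, one_smul, mul_one]
        rw [this]
        exact I.mul_mem_left _ _ hb }
  have hJ : J = ⊤ := by
    rcases hA J (by
      intro g c hc
      change single (1 : L × K) (g • c) ∈ I
      have : (single (1 : L × K) (g • c) : SkewMonoidAlgebra C (L × K)) =
          single g 1 * single 1 c * single g⁻¹ 1 := by
        rw [single_mul_single, single_mul_single]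
        simp
      rw [this]
      exact I.mul_mem_right _ _ (I.mul_mem_left _ _ hc)) with h | h
    · exfalso
      apply hc0
      have : c ∈ J := hcI
      rw [h] at this
      exact this
    · exact h
  have h1 : (1 : C) ∈ J := by rw [hJ]; trivial
  have h1' : (1 : SkewMonoidAlgebra C (L × K)) ∈ I := h1
  rw [eq_top_iff]
  intro x _
  have := I.mul_mem_left x 1 h1'
  rwa [mul_one] at this

theorem centralizer_le
    (hB : ∀ l : L, l ≠ 1 → ∀ k : K, ∀ c : C, (∀ x : C, c * ((l, k) • x - x) = 0) → c = 0)
    (hC : ∀ k : K, k ≠ 1 → ∀ c : C, (∀ x : C, c * (((1 : L), k) • x - x) = 0) →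
      (∀ l : L, (l, (1 : K)) • c = c) → c = 0)
    (r : SkewMonoidAlgebra C (L × K))
    (hr : ∀ a ∈ piece L C (1 : K), r * a = a * r) : r ∈ piece L C (1 : K) := by
  have h1 : ∀ g : L × K, ∀ x : C, r.coeff g * (g • x - x) = 0 := by
    intro g x
    have := hr (single 1 x) (single_mem 1 1 x)
    have h2 : (r * single 1 x).coeff g = (single 1 x * r).coeff g := by rw [this]
    rw [coeff_mul_single_one, coeff_single_one_mul] at h2
    rw [mul_sub, h2]; ring
  intro g hg
  by_cases hl : g.1 = 1
  · have hg' : g = ((1 : L), g.2) := by rw [← hl]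
    rw [hg']
    apply hC g.2 hg
    · intro x
      have := h1 g x
      rw [hg'] at this
      exact this
    · intro l
      have := hr (single (l, 1) 1) (single_mem 1 l 1)
      have h2 : (r * single (l, (1 : K)) 1).coeff (l, g.2) =
          (single (l, (1 : K)) 1 * r).coeff (l, g.2) := by rw [this]
      rw [coeff_mul_single, coeff_single_mul, smul_one, mul_one, one_mul] at h2
      have e1 : ((l, g.2) : L × K) * (l, (1 : K))⁻¹ = (1, g.2) := by ext <;> simp
      have e2 : ((l, (1 : K))⁻¹ : L × K) * (l, g.2) = (1, g.2) := by ext <;> simp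
      rw [e1, e2] at h2
      exact h2.symm
  · exact hB g.1 hl g.2 _ (h1 g)

theorem not_simple [Nontrivial C]
    (hD : ∃ k : K, k ≠ 1 ∧ ∃ c : C, c ≠ 0 ∧ ∀ x : C, c * (((1 : L), k) • x - x) = 0) :
    ∃ I : TwoSidedIdeal (SkewMonoidAlgebra C (L × K)), I ≠ ⊥ ∧ I ≠ ⊤ := by
  classical
  obtain ⟨k, hk, c, hc, hx⟩ := hD
  let φ : SkewMonoidAlgebra C (L × K) →+* AddMonoid.End C :=
    liftNCRingHom (Module.toAddMonoidEnd C C) (DistribMulAction.toAddMonoidEnd (L × K) C) (by
      intro x y
      ext z
      change (y • x) * (y • z) = y • (x * z)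
      rw [smul_mul'])
  have hφ : ∀ (g : L × K) (c x : C), φ (single g c) x = c * (g • x) := by
    intro g c x
    have : φ (single g c) = Module.toAddMonoidEnd C C c *
        DistribMulAction.toAddMonoidEnd (L × K) C g := liftNC_single _ _ _ _
    rw [this]
    rfl
  refine ⟨TwoSidedIdeal.ker φ, ?_, ?_⟩
  · intro h
    have h1 : single ((1 : L), k) c - single 1 c ∈ TwoSidedIdeal.ker φ := by
      rw [TwoSidedIdeal.mem_ker, map_sub, sub_eq_zero]
      ext x
      rw [hφ, hφ, one_smul]
      have := hx x
      rw [mul_sub, sub_eq_zero] at this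
      exact this
    rw [h] at h1
    have h2 : single ((1 : L), k) c - single 1 c = 0 := h1
    have h3 : (single ((1 : L), k) c - single (1 : L × K) c).coeff (1 : L × K) = 0 := by
      rw [h2]; simp
    rw [coeff_sub, Finsupp.sub_apply, coeff_single_apply, coeff_single_apply, if_pos rfl,
      if_neg] at h3
    · apply hc
      simpa using h3
    · intro h4
      exact hk (congrArg Prod.snd h4)
  · intro h
    have h1 : (1 : SkewMonoidAlgebra C (L × K)) ∈ TwoSidedIdeal.ker φ := by rw [h]; trivial
    rw [TwoSidedIdeal.mem_ker, map_one] at h1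
    have h2 : (1 : AddMonoid.End C) (1 : C) = (0 : AddMonoid.End C) 1 := by rw [h1]
    exact one_ne_zero h2

end

end Pool.Agent.X173.SGA
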