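import Mathlib
import Pool.Agent.X173.SGA

set_option linter.unusedSectionVars false

namespace Pool.Agent.X173.SGB
open Filter Topology

noncomputable section

abbrev Z := Circle × Circle
abbrev X := Z × Circle
abbrev K := Z ≃ₜ Z
abbrev G := Circle × K

/-- the homeomorphism of `X` given by `(l, k)` -/
def act (g : G) : X ≃ₜ X := g.2.prodCongr (Homeomorph.mulLeft g.1)

theorem act_symm_apply (g : G) (q : X) : (act g).symm q = (g.2.symm q.1, g.1⁻¹ * q.2) := rfl

theorem act_apply (g : G) (q : X) : act g q = (g.2 q.1, g.1 * q.2) := rfl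

/-- translation of functions -/
def tr (g : G) (f : X → ZMod 2) : X → ZMod 2 := fun q => f ((act g).symm q)

/-- points near which `f` is constant -/
def LC (f : X → ZMod 2) : Set X := {p | ∀ᶠ q in 𝓝 p, f q = f p}

theorem isOpen_LC (f : X → ZMod 2) : IsOpen (LC f) := by
  rw [isOpen_iff_mem_nhds]
  intro p hp
  have h1 : ∀ᶠ q in 𝓝 p, ∀ᶠ r in 𝓝 q, f r = f p := eventually_eventually_nhds.2 hp
  filter_upwards [h1, hp] with q h2 h3
  change ∀ᶠ r in 𝓝 q, f r = f q
  rw [h3]
  exact h2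

theorem slice_open (f : X → ZMod 2) (z : Z) : IsOpen {b : Circle | (z, b) ∈ LC f} :=
  (isOpen_LC f).preimage (by fun_prop : Continuous (fun b : Circle => (z, b)))

/-- the ring of functions which are locally constant off a set with nowhere dense slices -/
def Sub : Subring (X → ZMod 2) where
  carrier := {f | ∀ z, Dense {b : Circle | (z, b) ∈ LC f}}
  mul_mem' := by
    intro f g hf hg z
    apply ((hf z).inter_of_isOpen_left (hg z) (slice_open f z)).mono
    rintro b ⟨h1, h2⟩
    have h1' : ∀ᶠ q in 𝓝 (z, b), f q = f (z, b) := h1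
    have h2' : ∀ᶠ q in 𝓝 (z, b), g q = g (z, b) := h2
    change ∀ᶠ q in 𝓝 (z, b), (f * g) q = (f * g) (z, b)
    filter_upwards [h1', h2'] with q h3 h4
    simp [h3, h4]
  one_mem' := by
    intro z
    have : {b : Circle | (z, b) ∈ LC 1} = Set.univ := by
      ext b
      simp only [Set.mem_ofPred_eq, Set.mem_univ, iff_true]
      exact Eventually.of_forall fun _ => rfl
    rw [this]; exact dense_univ
  add_mem' := by
    intro f g hf hg z
    apply ((hf z).inter_of_isOpen_left (hg z) (slice_open f z)).mono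
    rintro b ⟨h1, h2⟩
    have h1' : ∀ᶠ q in 𝓝 (z, b), f q = f (z, b) := h1
    have h2' : ∀ᶠ q in 𝓝 (z, b), g q = g (z, b) := h2
    change ∀ᶠ q in 𝓝 (z, b), (f + g) q = (f + g) (z, b)
    filter_upwards [h1', h2'] with q h3 h4
    simp [h3, h4]
  zero_mem' := by
    intro z
    have : {b : Circle | (z, b) ∈ LC 0} = Set.univ := by
      ext b
      simp only [Set.mem_ofPred_eq, Set.mem_univ, iff_true]
      exact Eventually.of_forall fun _ => rfl
    rw [this]; exact dense_univ
  neg_mem' := by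
    intro f hf z
    apply (hf z).mono
    intro b h1
    have h1' : ∀ᶠ q in 𝓝 (z, b), f q = f (z, b) := h1
    change ∀ᶠ q in 𝓝 (z, b), (-f) q = (-f) (z, b)
    filter_upwards [h1'] with q h3
    simp [h3]

theorem dense_LC (f : Sub) : Dense (LC f.1) := by
  rintro ⟨z, b⟩
  have h := f.2 z b
  exact map_mem_closure (by fun_prop : Continuous (fun b : Circle => (z, b))) h
    (fun c hc => hc)

/-- local zero set -/
def LZ (f : X → ZMod 2) : Set X := {p | ∀ᶠ q in 𝓝 p, f q = 0}

theorem isOpen_LZ (f : X → ZMod 2) : IsOpen (LZ f) := by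
  rw [isOpen_iff_mem_nhds]
  intro p hp
  exact eventually_eventually_nhds.2 hp

/-- the ideal of functions vanishing on a dense open set -/
def N : Ideal Sub where
  carrier := {f | Dense (LZ f.1)}
  add_mem' := by
    intro f g hf hg
    apply (Dense.inter_of_isOpen_left hf hg (isOpen_LZ _)).mono
    rintro p ⟨h1, h2⟩
    have h1' : ∀ᶠ q in 𝓝 p, f.1 q = 0 := h1
    have h2' : ∀ᶠ q in 𝓝 p, g.1 q = 0 := h2
    change ∀ᶠ q in 𝓝 p, f.1 q + g.1 q = 0
    filter_upwards [h1', h2'] with q h3 h4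
    simp [h3, h4]
  zero_mem' := by
    have : LZ (0 : Sub).1 = Set.univ := by
      ext b
      simp only [Set.mem_univ, iff_true]
      exact Eventually.of_forall fun _ => rfl
    change Dense (LZ (0 : Sub).1)
    rw [this]; exact dense_univ
  smul_mem' := by
    intro g f hf
    apply Dense.mono _ hf
    intro p h1
    have h1' : ∀ᶠ q in 𝓝 p, f.1 q = 0 := h1
    change ∀ᶠ q in 𝓝 p, g.1 q * f.1 q = 0
    filter_upwards [h1'] with q h3
    simp [h3]

abbrev C := Sub ⧸ N

def mk : Sub →+* C := Ideal.Quotient.mk N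

theorem mk_eq_zero (f : Sub) : mk f = 0 ↔ Dense (LZ f.1) := Ideal.Quotient.eq_zero_iff_mem

theorem mk_surj (c : C) : ∃ f : Sub, mk f = c := Ideal.Quotient.mk_surjective c

theorem nz (f : Sub) (p : X) (h : ∀ᶠ q in 𝓝 p, f.1 q ≠ 0) : mk f ≠ 0 := by
  intro h0
  rw [mk_eq_zero] at h0
  obtain ⟨q, h1, h2⟩ := (mem_closure_iff_nhds.1 (h0 p)) _ h
  exact h1 (h2.self_of_nhds)

theorem exists_one (f : Sub) (h : mk f ≠ 0) : ∃ p, p ∈ LC f.1 ∧ f.1 p = 1 := by
  by_contra hc
  push Not at hc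
  apply h
  rw [mk_eq_zero]
  apply (dense_LC f).mono
  intro p hp
  have h0 : f.1 p = 0 := by
    have := hc p hp
    generalize f.1 p = a at this
    revert this; revert a; decide
  have hp' : ∀ᶠ q in 𝓝 p, f.1 q = f.1 p := hp
  rw [h0] at hp'
  exact hp'

/-- the action on functions as ring homomorphisms -/
def sg (g : G) : Sub →+* Sub where
  toFun f := ⟨tr g f.1, by
    intro z
    apply Dense.mono _ ((f.2 (g.2.symm z)).preimage (Homeomorph.mulLeft g.1⁻¹).isOpenMap)
    intro b hb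
    have hb' : ∀ᶠ q in 𝓝 ((act g).symm (z, b)), f.1 q = f.1 ((act g).symm (z, b)) := hb
    exact ((act g).symm.continuous.tendsto (z, b)).eventually hb'⟩
  map_one' := rfl
  map_mul' _ _ := rfl
  map_zero' := rfl
  map_add' _ _ := rfl

theorem sg_apply (g : G) (f : Sub) (q : X) : (sg g f).1 q = f.1 (g.2.symm q.1, g.1⁻¹ * q.2) := rfl

theorem sg_N (g : G) : N ≤ N.comap (sg g) := by
  intro f hf
  have hf' : Dense (LZ f.1) := hf
  change Dense (LZ (sg g f).1)
  apply Dense.mono _ (hf'.preimage (act g).symm.isOpenMap)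
  intro p hp
  have hp' : ∀ᶠ q in 𝓝 ((act g).symm p), f.1 q = 0 := hp
  exact ((act g).symm.continuous.tendsto p).eventually hp'

noncomputable instance : MulSemiringAction G C where
  smul g c := Ideal.quotientMap N (sg g) (sg_N g) c
  one_smul c := by
    obtain ⟨f, rfl⟩ := mk_surj c
    change mk (sg 1 f) = mk f
    congr 1
    ext q
    rw [sg_apply]
    simp only [Prod.snd_one, Prod.fst_one, inv_one, one_mul]
    rfl
  mul_smul g h c := by
    obtain ⟨f, rfl⟩ := mk_surj c
    change mk (sg (g * h) f) = mk (sg g (sg h f))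
    congr 1
    ext q
    rw [sg_apply, sg_apply, sg_apply]
    apply congrArg f.1
    ext
    · rfl
    · rfl
    · simp [mul_assoc]
  smul_zero g := map_zero _
  smul_add g _ _ := map_add _ _ _
  smul_one g := map_one _
  smul_mul g _ _ := map_mul _ _ _

theorem smul_mk (g : G) (f : Sub) : g • mk f = mk (sg g f) := rfl

open Classical in
/-- indicator functions in the ring -/
noncomputable def ind (ψ : X → Circle) (hψ : Continuous ψ)
    (hψo : ∀ z, IsOpenMap (fun b : Circle => ψ (z, b))) (A : Set Circle) (hA : IsOpen A) : Sub :=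
  ⟨fun q => if ψ q ∈ A then 1 else 0, by
    intro z
    have hd : Dense (A ∪ (closure A)ᶜ) := by
      rw [dense_iff_closure_eq, closure_union, Set.eq_univ_iff_forall]
      intro x
      by_cases hx : x ∈ closure A
      · exact Or.inl hx
      · exact Or.inr (subset_closure hx)
    apply Dense.mono _ (hd.preimage (hψo z))
    rintro b (hb | hb)
    · have h1 : ∀ᶠ q in 𝓝 (z, b), ψ q ∈ A :=
        (hψ.tendsto (z, b)).eventually (hA.mem_nhds hb)
      change ∀ᶠ q in 𝓝 (z, b), (if ψ q ∈ A then (1 : ZMod 2) else 0) = if ψ (z, b) ∈ A then 1 else 0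
      filter_upwards [h1] with q hq
      rw [if_pos hq, if_pos hb]
    · have h1 : ∀ᶠ q in 𝓝 (z, b), ψ q ∈ (closure A)ᶜ :=
        (hψ.tendsto (z, b)).eventually (isClosed_closure.isOpen_compl.mem_nhds hb)
      change ∀ᶠ q in 𝓝 (z, b), (if ψ q ∈ A then (1 : ZMod 2) else 0) = if ψ (z, b) ∈ A then 1 else 0
      filter_upwards [h1] with q hq
      rw [if_neg (fun h => hq (subset_closure h)), if_neg (fun h => hb (subset_closure h))]⟩

theorem ind_one {ψ : X → Circle} {hψ : Continuous ψ}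
    {hψo : ∀ z, IsOpenMap (fun b : Circle => ψ (z, b))} {A : Set Circle} {hA : IsOpen A} {q : X}
    (h : ψ q ∈ A) : (ind ψ hψ hψo A hA).1 q = 1 := if_pos h

theorem ind_zero {ψ : X → Circle} {hψ : Continuous ψ}
    {hψo : ∀ z, IsOpenMap (fun b : Circle => ψ (z, b))} {A : Set Circle} {hA : IsOpen A} {q : X}
    (h : ψ q ∉ A) : (ind ψ hψ hψo A hA).1 q = 0 := if_neg h

theorem open_inv (x : Circle) : IsOpenMap (fun b : Circle => x * b⁻¹) :=
  ((Homeomorph.inv Circle).trans (Homeomorph.mulLeft x)).isOpenMap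

theorem open_id : IsOpenMap (fun b : Circle => b) := IsOpenMap.id

/-- the three coordinate maps used -/
noncomputable def i0 (A : Set Circle) (hA : IsOpen A) : Sub :=
  ind (fun q => q.2) (by fun_prop) (fun _ => open_id) A hA
noncomputable def i1 (A : Set Circle) (hA : IsOpen A) : Sub :=
  ind (fun q => q.1.1 * q.2⁻¹) (by fun_prop) (fun z => open_inv z.1) A hA
noncomputable def i2 (A : Set Circle) (hA : IsOpen A) : Sub :=
  ind (fun q => q.1.2 * q.2⁻¹) (by fun_prop) (fun z => open_inv z.2) A hA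

theorem nontriv : Nontrivial C := by
  refine ⟨⟨mk 1, 0, ?_⟩⟩
  apply nz 1 ((1, 1), 1)
  exact Eventually.of_forall fun q => one_ne_zero

/-- transitivity -/
theorem exists_act (p x : X) : ∃ g : G, (act g).symm x = p := by
  refine ⟨(x.2 * p.2⁻¹, (Homeomorph.mulLeft (x.1 * p.1⁻¹) : Z ≃ₜ Z)), ?_⟩
  rw [Homeomorph.symm_apply_eq, act_apply]
  ext
  · simp
  · simp
  · simp

theorem hA (I : Ideal C) (hI : ∀ g : G, ∀ c ∈ I, g • c ∈ I) : I = ⊥ ∨ I = ⊤ := by
  classical
  by_cases hb : ∀ c ∈ I, c = 0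
  · left
    rw [eq_bot_iff]
    intro c hc
    rw [hb c hc]; exact Submodule.zero_mem _
  right
  push Not at hb
  obtain ⟨c, hc, hc0⟩ := hb
  obtain ⟨f, rfl⟩ := mk_surj c
  obtain ⟨p, hp, hp1⟩ := exists_one f hc0
  let V : Set X := interior {q | f.1 q = 1}
  have hpV : p ∈ V := by
    rw [mem_interior_iff_mem_nhds]
    have hp' : ∀ᶠ q in 𝓝 p, f.1 q = f.1 p := hp
    rw [hp1] at hp'
    exact hp'
  obtain ⟨t, ht⟩ := isCompact_univ.elim_finite_subcover (fun g : G => (act g).symm ⁻¹' V)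
    (fun g => isOpen_interior.preimage (act g).symm.continuous) (by
      intro x _
      obtain ⟨g, hg⟩ := exists_act p x
      rw [Set.mem_iUnion]
      refine ⟨g, ?_⟩
      rw [Set.mem_preimage, hg]
      exact hpV)
  have h1 : ∏ g ∈ t, (1 - sg g f) = 0 := by
    ext x
    have hx := ht (Set.mem_univ x)
    rw [Set.mem_iUnion₂] at hx
    obtain ⟨g, hgt, hg⟩ := hx
    have h2 : (1 - sg g f).1 x = 0 := by
      have h3' : (act g).symm x ∈ {q : X | f.1 q = 1} := interior_subset hg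
      have h3 : (sg g f).1 x = 1 := h3'
      change 1 - (sg g f).1 x = 0
      rw [h3, sub_self]
    have h4 : (∏ g ∈ t, (1 - sg g f)).1 = ∏ g ∈ t, (1 - sg g f).1 :=
      map_prod Sub.subtype _ _
    rw [h4, Finset.prod_apply]
    exact Finset.prod_eq_zero hgt h2
  have h5 : (Ideal.Quotient.mk I) (mk (∏ g ∈ t, (1 - sg g f))) = 1 := by
    rw [map_prod, map_prod]
    apply Finset.prod_eq_one
    intro g _
    rw [map_sub, map_one, map_sub, map_one, ← smul_mk,
      Ideal.Quotient.eq_zero_iff_mem.2 (hI g _ hc), sub_zero]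
  rw [h1, map_zero, map_zero] at h5
  rw [Ideal.eq_top_iff_one, ← Ideal.Quotient.eq_zero_iff_mem, map_one]
  exact h5.symm

theorem hB (l : Circle) (hl : l ≠ 1) (k : K) (c : C)
    (hc : ∀ x : C, c * (((l, k) : G) • x - x) = 0) : c = 0 := by
  by_contra h0
  obtain ⟨f, rfl⟩ := mk_surj c
  obtain ⟨⟨z, b⟩, hp, hp1⟩ := exists_one f h0
  have hp' : ∀ᶠ q in 𝓝 (z, b), f.1 q = f.1 (z, b) := hp
  rw [hp1] at hp'
  have hne : b ≠ l⁻¹ * b := by
    intro h
    apply hl
    have : l⁻¹ = 1 := by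
      have := h.symm
      rwa [mul_eq_right] at this
    rwa [inv_eq_one] at this
  obtain ⟨O, O', hO, hO', hbO, hbO', hd⟩ := t2_separation hne
  have h1 := hc (mk (i0 O hO))
  rw [smul_mk, ← map_sub, ← map_mul] at h1
  refine nz _ (z, b) ?_ h1
  have e1 : ∀ᶠ q : X in 𝓝 (z, b), q.2 ∈ O :=
    (continuous_snd.tendsto ((z, b) : X)).eventually (hO.mem_nhds hbO)
  have e2 : ∀ᶠ q : X in 𝓝 (z, b), l⁻¹ * q.2 ∈ O' :=
    ((by fun_prop : Continuous (fun q : X => l⁻¹ * q.2)).tendsto ((z, b) : X)).eventually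
      (hO'.mem_nhds hbO')
  filter_upwards [hp', e1, e2] with q h2 h3 h4
  have h5 : (i0 O hO).1 q = 1 := ind_one h3
  have h6 : (sg (l, k) (i0 O hO)).1 q = 0 := by
    rw [sg_apply]
    apply ind_zero
    exact fun h => Set.disjoint_left.1 hd h h4
  change f.1 q * ((sg (l, k) (i0 O hO)).1 q - (i0 O hO).1 q) ≠ 0
  rw [h2, h5, h6]
  decide

theorem inv_const (f : Sub) (hf : ∀ l : Circle, ((l, (1 : K)) : G) • mk f = mk f) :
    mk f = 0 ∨ mk f = 1 := by
  let T : ZMod 2 → Set Z := fun i => {z | ∃ b : Circle, (z, b) ∈ LC f.1 ∧ f.1 (z, b) = i}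
  have hTo : ∀ i, IsOpen (T i) := by
    intro i
    rw [isOpen_iff_mem_nhds]
    rintro z ⟨b, hb, hi⟩
    have hb' : ∀ᶠ q in 𝓝 (z, b), f.1 q = f.1 (z, b) := hb
    have h1 : ∀ᶠ q in 𝓝 (z, b), q ∈ LC f.1 := (isOpen_LC f.1).mem_nhds hb
    have h2 : ∀ᶠ q in 𝓝 (z, b), q ∈ LC f.1 ∧ f.1 q = i := by
      filter_upwards [hb', h1] with q h3 h4
      exact ⟨h4, h3.trans hi⟩
    have h3 := ((by fun_prop : Continuous (fun z' : Z => (z', b))).tendsto z).eventually h2
    filter_upwards [h3] with z' h4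
    exact ⟨b, h4⟩
  have hcov : ∀ z, z ∈ T 0 ∨ z ∈ T 1 := by
    intro z
    obtain ⟨b, hb⟩ := (f.2 z).nonempty
    have : ∀ a : ZMod 2, a = 0 ∨ a = 1 := by decide
    rcases this (f.1 (z, b)) with h | h
    · exact Or.inl ⟨b, hb, h⟩
    · exact Or.inr ⟨b, hb, h⟩
  have hdis : ∀ z, z ∈ T 0 → z ∈ T 1 → False := by
    rintro z ⟨b0, hb0, h0⟩ ⟨b1, hb1, h1⟩
    have h2 := hf (b1 * b0⁻¹)
    rw [smul_mk, ← sub_eq_zero, ← map_sub] at h2
    refine nz _ (z, b1) ?_ h2
    have hb1' : ∀ᶠ q in 𝓝 (z, b1), f.1 q = f.1 (z, b1) := hb1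
    have hb0' : ∀ᶠ q in 𝓝 (z, b0), f.1 q = f.1 (z, b0) := hb0
    have he : (act (b1 * b0⁻¹, (1 : K))).symm (z, b1) = (z, b0) := by
      rw [act_symm_apply]
      ext
      · rfl
      · rfl
      · simp
    have h3 : ∀ᶠ q in 𝓝 (z, b1), f.1 ((act (b1 * b0⁻¹, (1 : K))).symm q) = f.1 (z, b0) := by
      have h4 := (act (b1 * b0⁻¹, (1 : K))).symm.continuous.tendsto (z, b1)
      rw [he] at h4
      exact h4.eventually hb0'
    filter_upwards [hb1', h3] with q h5 h6
    change f.1 ((act (b1 * b0⁻¹, (1 : K))).symm q) - f.1 q ≠ 0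
    rw [h5, h6, h0, h1]
    decide
  have hclopen : IsClopen (T 1) := by
    refine ⟨?_, hTo 1⟩
    rw [← isOpen_compl_iff]
    have : (T 1)ᶜ = T 0 := by
      ext z
      constructor
      · intro h
        exact (hcov z).resolve_right h
      · intro h h'
        exact hdis z h h'
    rw [this]
    exact hTo 0
  rcases isClopen_iff.1 hclopen with h | h
  · left
    by_contra h0
    obtain ⟨p, hp, hp1⟩ := exists_one f h0
    have : p.1 ∈ T 1 := ⟨p.2, hp, hp1⟩
    rw [h] at this
    exact this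
  · right
    by_contra h0
    have h0' : mk (f - 1) ≠ 0 := by
      rw [map_sub, map_one]
      exact fun h => h0 (sub_eq_zero.1 h)
    obtain ⟨p, hp, hp1⟩ := exists_one (f - 1) h0'
    have hp' : ∀ᶠ q in 𝓝 p, f.1 q - 1 = f.1 p - 1 := hp
    have hp2 : p ∈ LC f.1 := by
      change ∀ᶠ q in 𝓝 p, f.1 q = f.1 p
      filter_upwards [hp'] with q hq
      exact sub_left_injective hq
    have hp3 : f.1 p = 0 := by
      have : f.1 p - 1 = 1 := hp1
      generalize f.1 p = a at this
      revert this; revert a; decide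
    have h1 : p.1 ∈ T 0 := ⟨p.2, hp2, hp3⟩
    have h2 : p.1 ∈ T 1 := by rw [h]; trivial
    exact hdis _ h1 h2

theorem sep (k : K) (hk : k ≠ 1) : ∃ x : C, ((1 : Circle), k) • x ≠ x := by
  obtain ⟨z0, hz0⟩ : ∃ z0 : Z, z0 ≠ k.symm z0 := by
    by_contra h
    push Not at h
    apply hk
    ext1 z
    have := h (k z)
    rw [Homeomorph.symm_apply_apply] at this
    exact this
  have hco : z0.1 ≠ (k.symm z0).1 ∨ z0.2 ≠ (k.symm z0).2 := by
    by_contra h
    push Not at h
    exact hz0 (Prod.ext h.1 h.2)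
  rcases hco with hne | hne
  · obtain ⟨A, A', hA, hA', h1, h1', hd⟩ := t2_separation hne
    refine ⟨mk (i1 A hA), ?_⟩
    intro h
    rw [smul_mk, ← sub_eq_zero, ← map_sub] at h
    refine nz _ (z0, 1) ?_ h
    have e1 : ∀ᶠ q : X in 𝓝 (z0, 1), q.1.1 * q.2⁻¹ ∈ A := by
      refine ((by fun_prop : Continuous (fun q : X => q.1.1 * q.2⁻¹)).tendsto
        ((z0, 1) : X)).eventually (hA.mem_nhds ?_)
      simpa using h1
    have e2 : ∀ᶠ q : X in 𝓝 (z0, 1), (k.symm q.1).1 * ((1 : Circle)⁻¹ * q.2)⁻¹ ∈ A' := by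
      refine ((by fun_prop : Continuous (fun q : X =>
        (k.symm q.1).1 * ((1 : Circle)⁻¹ * q.2)⁻¹)).tendsto
        ((z0, 1) : X)).eventually (hA'.mem_nhds ?_)
      simpa using h1'
    filter_upwards [e1, e2] with q h3 h4
    have h5 : (i1 A hA).1 q = 1 := ind_one h3
    have h6 : (sg (1, k) (i1 A hA)).1 q = 0 := by
      rw [sg_apply]
      apply ind_zero
      exact fun h => Set.disjoint_left.1 hd h h4
    change (sg (1, k) (i1 A hA)).1 q - (i1 A hA).1 q ≠ 0
    rw [h5, h6]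
    decide
  · obtain ⟨A, A', hA, hA', h1, h1', hd⟩ := t2_separation hne
    refine ⟨mk (i2 A hA), ?_⟩
    intro h
    rw [smul_mk, ← sub_eq_zero, ← map_sub] at h
    refine nz _ (z0, 1) ?_ h
    have e1 : ∀ᶠ q : X in 𝓝 (z0, 1), q.1.2 * q.2⁻¹ ∈ A := by
      refine ((by fun_prop : Continuous (fun q : X => q.1.2 * q.2⁻¹)).tendsto
        ((z0, 1) : X)).eventually (hA.mem_nhds ?_)
      simpa using h1
    have e2 : ∀ᶠ q : X in 𝓝 (z0, 1), (k.symm q.1).2 * ((1 : Circle)⁻¹ * q.2)⁻¹ ∈ A' := by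
      refine ((by fun_prop : Continuous (fun q : X =>
        (k.symm q.1).2 * ((1 : Circle)⁻¹ * q.2)⁻¹)).tendsto
        ((z0, 1) : X)).eventually (hA'.mem_nhds ?_)
      simpa using h1'
    filter_upwards [e1, e2] with q h3 h4
    have h5 : (i2 A hA).1 q = 1 := ind_one h3
    have h6 : (sg (1, k) (i2 A hA)).1 q = 0 := by
      rw [sg_apply]
      apply ind_zero
      exact fun h => Set.disjoint_left.1 hd h h4
    change (sg (1, k) (i2 A hA)).1 q - (i2 A hA).1 q ≠ 0
    rw [h5, h6]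
    decide

theorem hC (k : K) (hk : k ≠ 1) (c : C) (hc : ∀ x : C, c * ((((1 : Circle), k) : G) • x - x) = 0)
    (hl : ∀ l : Circle, ((l, (1 : K)) : G) • c = c) : c = 0 := by
  obtain ⟨f, rfl⟩ := mk_surj c
  rcases inv_const f hl with h | h
  · exact h
  · exfalso
    obtain ⟨x, hx⟩ := sep k hk
    have := hc x
    rw [h, one_mul, sub_eq_zero] at this
    exact hx this

/-- the bump function -/
noncomputable def u (y : Circle) : Circle := Circle.exp (Real.pi * max 0 (-(y : ℂ).re))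

theorem u_cont : Continuous u := by
  unfold u
  apply Circle.exp.continuous.comp
  have : Continuous (fun y : Circle => (y : ℂ).re) := Complex.continuous_re.comp continuous_subtype_val
  fun_prop

theorem u_one {y : Circle} (h : 0 < (y : ℂ).re) : u y = 1 := by
  unfold u
  rw [max_eq_left (by linarith), mul_zero, Circle.exp_zero]

/-- a homeomorphism of the torus which is the identity on an open set -/
noncomputable def k0 : K where
  toFun z := (z.1 * u z.2, z.2)
  invFun z := (z.1 * (u z.2)⁻¹, z.2)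
  left_inv z := by simp
  right_inv z := by simp
  continuous_toFun := by
    have := u_cont
    fun_prop
  continuous_invFun := by
    have := u_cont
    fun_prop

theorem k0_symm (z : Z) : k0.symm z = (z.1 * (u z.2)⁻¹, z.2) := rfl

theorem k0_ne : k0 ≠ 1 := by
  intro h
  have h1 : k0 ((1, -1) : Z) = (1, -1) := by rw [h]; rfl
  have h2 : (1 : Circle) * u (-1) = 1 := congrArg Prod.fst h1
  rw [one_mul, u] at h2
  have h3 : ((-1 : Circle) : ℂ).re = -1 := by simp
  rw [h3] at h2
  have h4 : Real.pi * max 0 (-(-1 : ℝ)) = Real.pi := by norm_num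
  rw [h4] at h2
  have h5 : ((Circle.exp Real.pi : Circle) : ℂ) = 1 := by rw [h2]; simp
  rw [Circle.coe_exp, Complex.exp_pi_mul_I] at h5
  norm_num at h5

theorem hD : ∃ k : K, k ≠ 1 ∧ ∃ c : C, c ≠ 0 ∧ ∀ x : C,
    c * ((((1 : Circle), k) : G) • x - x) = 0 := by
  have hW : {y : Circle | 0 < (y : ℂ).re} ∈ 𝓝 (1 : Circle) := by
    have hc : Continuous (fun y : Circle => (y : ℂ).re) :=
      Complex.continuous_re.comp continuous_subtype_val
    apply (isOpen_lt continuous_const hc).mem_nhds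
    change (0 : ℝ) < ((1 : Circle) : ℂ).re
    simp
  obtain ⟨V, hV, h1V, hVV⟩ := exists_open_nhds_one_split hW
  refine ⟨k0, k0_ne, mk (i2 V hV * i0 V hV), ?_, ?_⟩
  · apply nz _ ((1, 1), 1)
    have e1 : ∀ᶠ q : X in 𝓝 ((1, 1), 1), q.1.2 * q.2⁻¹ ∈ V := by
      refine ((by fun_prop : Continuous (fun q : X => q.1.2 * q.2⁻¹)).tendsto
        (((1, 1), 1) : X)).eventually (hV.mem_nhds ?_)
      simpa using h1V
    have e2 : ∀ᶠ q : X in 𝓝 ((1, 1), 1), q.2 ∈ V := by
      refine ((by fun_prop : Continuous (fun q : X => q.2)).tendsto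
        (((1, 1), 1) : X)).eventually (hV.mem_nhds ?_)
      simpa using h1V
    filter_upwards [e1, e2] with q h1 h2
    have h3 : (i2 V hV).1 q = 1 := ind_one h1
    have h4 : (i0 V hV).1 q = 1 := ind_one h2
    change (i2 V hV).1 q * (i0 V hV).1 q ≠ 0
    rw [h3, h4]
    decide
  · intro x
    obtain ⟨f, rfl⟩ := mk_surj x
    rw [smul_mk, ← map_sub, ← map_mul]
    have : i2 V hV * i0 V hV * (sg (1, k0) f - f) = 0 := by
      ext q
      change (i2 V hV).1 q * (i0 V hV).1 q * ((sg (1, k0) f).1 q - f.1 q) = 0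
      by_cases h1 : q.1.2 * q.2⁻¹ ∈ V
      · by_cases h2 : q.2 ∈ V
        · have h3 := hVV _ h1 _ h2
          rw [inv_mul_cancel_right] at h3
          have h4 : (sg (1, k0) f).1 q = f.1 q := by
            rw [sg_apply]
            apply congrArg f.1
            ext
            · simp [k0_symm, u_one h3]
            · simp [k0_symm]
            · simp
          rw [h4, sub_self, mul_zero]
        · have : (i0 V hV).1 q = 0 := ind_zero h2
          rw [this, mul_zero, zero_mul]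
      · have : (i2 V hV).1 q = 0 := ind_zero h1
        rw [this, zero_mul, zero_mul]
    rw [this, map_zero]

end

end Pool.Agent.X173.SGB
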