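import Mathlib

/-!
# A rank four form over `ℤ[t, t⁻¹]` which is stably, but not unstably, isometric to a form over `ℤ`

`LM` is the positive definite unimodular form of Hambleton and Teichner. We give an explicit
isometry `LM ⊕ H2 ≅ LM(1) ⊕ H2`, and show that `LM` has no vector of norm one, while `LM(1)` has.
-/

set_option autoImplicit false
set_option linter.all false

namespace Pool.Agent.X173.HT

def LM {R : Type*} [CommRing R] (t u : R) : Matrix (Fin 4) (Fin 4) R :=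
  !![u^2 + u + 3 + t + t^2, u^2 + u + 2 + t + t^2, u + 1 + t, u + t;
    u^2 + u + 2 + t + t^2, u^2 + u + 3 + t + t^2, u + t, u + 1 + t;
    u + 1 + t, u + t, 2, 0;
    u + t, u + 1 + t, 0, 2]

def LI {R : Type*} [CommRing R] (t u : R) : Matrix (Fin 4) (Fin 4) R :=
  !![2, 0, -u - 1 - t, -u - t;
    0, 2, -u - t, -u - 1 - t;
    -u - 1 - t, -u - t, u^2 + u + 3 + t + t^2, u^2 + u + 2 + t + t^2;
    -u - t, -u - 1 - t, u^2 + u + 2 + t + t^2, u^2 + u + 3 + t + t^2]

def MM {R : Type*} [CommRing R] (t u : R) : Matrix (Fin 6) (Fin 6) R :=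
  !![u^2 + u + 3 + t + t^2, u^2 + u + 2 + t + t^2, u + 1 + t, u + t, 0, 0;
    u^2 + u + 2 + t + t^2, u^2 + u + 3 + t + t^2, u + t, u + 1 + t, 0, 0;
    u + 1 + t, u + t, 2, 0, 0, 0;
    u + t, u + 1 + t, 0, 2, 0, 0;
    0, 0, 0, 0, 0, -1 + t;
    0, 0, 0, 0, u - 1, 0]

def TT {R : Type*} [CommRing R] (t u : R) : Matrix (Fin 6) (Fin 6) R :=
  !![7, 6, 3, 2, 0, 0;
    6, 7, 2, 3, 0, 0;
    3, 2, 2, 0, 0, 0;
    2, 3, 0, 2, 0, 0;
    0, 0, 0, 0, 0, -1 + t;
    0, 0, 0, 0, u - 1, 0]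

def PM {R : Type*} [CommRing R] (t u : R) : Matrix (Fin 6) (Fin 6) R :=
  !![1, 0, 0, 0, 2*u - 2, u - t;
    0, 1, 0, 0, 2*u - 2, u - t;
    0, 0, 1, 0, -2*u^2 - u + 3, -u^2 - 2*u + 2 + t;
    0, 0, 0, 1, -2*u^2 - u + 3, -u^2 - 2*u + 2 + t;
    -1, -1, 0, 0, 4, 3 + 2*t;
    u + 3 + t, u + 3 + t, -u + 1, -u + 1, -15*u - 2 - 4*t, -11*u - 9 - 4*t - 2*t^2]

def PS {R : Type*} [CommRing R] (t u : R) : Matrix (Fin 6) (Fin 6) R :=
  !![1, 0, 0, 0, -1, u + 3 + t;
    0, 1, 0, 0, -1, u + 3 + t;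
    0, 0, 1, 0, 0, 1 - t;
    0, 0, 0, 1, 0, 1 - t;
    -2 + 2*t, -2 + 2*t, 3 - t - 2*t^2, 3 - t - 2*t^2, 4, -4*u - 2 - 15*t;
    -u + t, -u + t, u + 2 - 2*t - t^2, u + 2 - 2*t - t^2, 2*u + 3, -2*u^2 - 4*u - 9 - 11*t]

def PI {R : Type*} [CommRing R] (t u : R) : Matrix (Fin 6) (Fin 6) R :=
  !![2*u^2 - 3*u + 3 - 3*t + 2*t^2, 2*u^2 - 3*u + 2 - 3*t + 2*t^2, 2*u - 4 + 2*t, 2*u - 4 + 2*t, 2*u^2 - u + 6 - 7*t, 2 - 2*t;
    2*u^2 - 3*u + 2 - 3*t + 2*t^2, 2*u^2 - 3*u + 3 - 3*t + 2*t^2, 2*u - 4 + 2*t, 2*u - 4 + 2*t, 2*u^2 - u + 6 - 7*t, 2 - 2*t;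
    -5*u^2 + 8*u - 6 + 8*t - 5*t^2, -5*u^2 + 8*u - 6 + 8*t - 5*t^2, -5*u + 11 - 5*t, -5*u + 10 - 5*t, -5*u^2 + 3*u - 16 + 18*t, -5 + 5*t;
    -5*u^2 + 8*u - 6 + 8*t - 5*t^2, -5*u^2 + 8*u - 6 + 8*t - 5*t^2, -5*u + 10 - 5*t, -5*u + 11 - 5*t, -5*u^2 + 3*u - 16 + 18*t, -5 + 5*t;
    -2*u^2 - 2*u + 3*t^2, -2*u^2 - 2*u + 3*t^2, -2*u - 1 + 3*t, -2*u - 1 + 3*t, -2*u^2 - 4*u - 9 - 11*t, -2 - 3*t;
    4*u^2 - 2*u + 3 - 4*t, 4*u^2 - 2*u + 3 - 4*t, 4*u - 4, 4*u - 4, 4*u^2 + 2*u + 15, 4]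

def XX {R : Type*} [CommRing R] (t u : R) : Matrix (Fin 6) (Fin 6) R :=
  !![u^2 + u + 3 + t + t^2, u^2 + u + 2 + t + t^2, u + 1 + t, u + t, -4*u^2 + 7*u - 5 + 6*t - 4*t^2, -3*u^2 + 3*u + 2*t - 2*t^3;
    u^2 + u + 2 + t + t^2, u^2 + u + 3 + t + t^2, u + t, u + 1 + t, -4*u^2 + 7*u - 5 + 6*t - 4*t^2, -3*u^2 + 3*u + 2*t - 2*t^3;
    u + 1 + t, u + t, 2, 0, -4*u + 8 - 4*t, -3*u + 4 + t - 2*t^2;
    u + t, u + 1 + t, 0, 2, -4*u + 8 - 4*t, -3*u + 4 + t - 2*t^2;
    -u - 2 + 2*t + t^2, -u - 2 + 2*t + t^2, u - 2 + t, u - 2 + t, 15*u - 13 + 2*t - 4*t^2, 11*u - 2 - 5*t - 2*t^2 - 2*t^3;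
    -u + 1, -u + 1, 0, 0, 4*u - 4, 3*u - 1 - 2*t]


open scoped Matrix

section generic
variable {R : Type*} [CommRing R] (t u : R)

theorem step1 (h : t * u = 1) : MM t u * PM t u = XX t u := by
  ext i j
  fin_cases i <;> fin_cases j <;>
    simp [MM, PM, XX, Matrix.mul_apply, Fin.sum_univ_succ] <;> grind

theorem step2 (h : t * u = 1) : PS t u * XX t u = TT t u := by
  ext i j
  fin_cases i <;> fin_cases j <;>
    simp [PS, TT, XX, Matrix.mul_apply, Fin.sum_univ_succ] <;> grind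

theorem inv1 (h : t * u = 1) : PM t u * PI t u = 1 := by
  ext i j
  fin_cases i <;> fin_cases j <;>
    simp [PM, PI, Matrix.mul_apply, Fin.sum_univ_succ, Matrix.one_apply] <;> grind

theorem inv2 (h : t * u = 1) : PI t u * PM t u = 1 := mul_eq_one_comm.mp (inv1 t u h)

theorem linv (h : t * u = 1) : LM t u * LI t u = 1 := by
  ext i j
  fin_cases i <;> fin_cases j <;>
    simp [LM, LI, Matrix.mul_apply, Fin.sum_univ_succ, Matrix.one_apply] <;> grind

theorem PM_T : (PM u t)ᵀ = PS t u := by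
  ext i j
  fin_cases i <;> fin_cases j <;> simp [PM, PS] <;> ring

theorem LM_T : (LM u t)ᵀ = LM t u := by
  ext i j
  fin_cases i <;> fin_cases j <;> simp [LM] <;> ring

theorem PM_map {S : Type*} [CommRing S] (f : R →+* S) : (PM t u).map f = PM (f t) (f u) := by
  have h2 : f 2 = 2 := map_ofNat f 2
  have h3 : f 3 = 3 := map_ofNat f 3
  have h4 : f 4 = 4 := map_ofNat f 4
  have h9 : f 9 = 9 := map_ofNat f 9
  have h11 : f 11 = 11 := map_ofNat f 11
  have h15 : f 15 = 15 := map_ofNat f 15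
  ext i j
  fin_cases i <;> fin_cases j <;> simp [PM, h2, h3, h4, h9, h11, h15]

theorem LM_map {S : Type*} [CommRing S] (f : R →+* S) : (LM t u).map f = LM (f t) (f u) := by
  have h2 : f 2 = 2 := map_ofNat f 2
  have h3 : f 3 = 3 := map_ofNat f 3
  ext i j
  fin_cases i <;> fin_cases j <;> simp [LM, h2, h3]

end generic

open LaurentPolynomial

/-- the involution `t ↦ t⁻¹` -/
noncomputable def sg : LaurentPolynomial ℤ →+* LaurentPolynomial ℤ :=
  (LaurentPolynomial.invert (R := ℤ)).toRingEquiv.toRingHom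

/-- the augmentation `t ↦ 1` -/
noncomputable def ep : LaurentPolynomial ℤ →+* ℤ :=
  LaurentPolynomial.eval₂ (RingHom.id ℤ) (1 : ℤˣ)

theorem sg_T (n : ℤ) : sg (T n) = T (-n) := by
  simp [sg]

theorem ep_T1 : ep (T 1) = 1 := by
  have := LaurentPolynomial.eval₂_T_n (RingHom.id ℤ) (1 : ℤˣ) 1
  simpa [ep] using this

theorem ep_Tm1 : ep (T (-1)) = 1 := by
  have h : ep (T 1 * T (-1)) = 1 := by
    rw [← T_add]; simp
  rw [map_mul, ep_T1, one_mul] at h
  exact h

theorem tu : (T 1 : LaurentPolynomial ℤ) * T (-1) = 1 := by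
  rw [← T_add]; simp

/-- the sum of the squares of the coefficients is the constant coefficient of `p̄ p` -/
theorem ct_mul (p : LaurentPolynomial ℤ) :
    (sg p * p).coeff 0 = ∑ k ∈ p.coeff.support, p.coeff k ^ 2 := by
  rw [AddMonoidAlgebra.coeff_mul_apply_right]
  rw [Finsupp.sum]
  refine Finset.sum_congr rfl fun k _ => ?_
  have : (sg p).coeff (0 - k) = p.coeff k := by
    show (LaurentPolynomial.invert p).coeff (0 - k) = _
    rw [invert_apply]; simp
  first
  | (rw [this]; ring)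
  | (rw [sub_eq_add_neg] at this; rw [this]; ring)

/-- reduction mod 2 -/
noncomputable def rd : LaurentPolynomial ℤ →+* LaurentPolynomial (ZMod 2) :=
  AddMonoidAlgebra.mapRingHom ℤ (Int.castRingHom (ZMod 2))

theorem rd_coeff (p : LaurentPolynomial ℤ) (k : ℤ) :
    (rd p).coeff k = ((p.coeff k : ℤ) : ZMod 2) := by
  simp [rd]

theorem rd_T (n : ℤ) : rd (T n) = T n := by
  ext k
  rw [rd_coeff]
  simp only [T_apply]
  split_ifs <;> simp

/-- the sum of the squares of the coefficients -/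
noncomputable def N (p : LaurentPolynomial ℤ) : ℤ := ∑ k ∈ p.coeff.support, p.coeff k ^ 2

theorem N_nonneg (p : LaurentPolynomial ℤ) : 0 ≤ N p := Finset.sum_nonneg fun _ _ => sq_nonneg _

theorem N_pos {p : LaurentPolynomial ℤ} (h : rd p ≠ 0) : 1 ≤ N p := by
  by_contra hN
  have h0 : N p = 0 := by have := N_nonneg p; omega
  apply h
  have h1 := (Finset.sum_eq_zero_iff_of_nonneg (fun _ _ => sq_nonneg _)).mp h0
  ext k
  rw [rd_coeff]
  by_cases hk : k ∈ p.coeff.support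
  · have := h1 k hk
    rw [pow_eq_zero_iff (by norm_num)] at this
    rw [this]; simp
  · rw [Finsupp.notMem_support_iff.mp hk]; simp

theorem N_dvd {p : LaurentPolynomial ℤ} (h : rd p = 0) : 4 ∣ N p := by
  refine Finset.dvd_sum fun k _ => ?_
  have h1 : ((p.coeff k : ℤ) : ZMod 2) = 0 := by rw [← rd_coeff, h]; simp
  rw [ZMod.intCast_zmod_eq_zero_iff_dvd] at h1
  have : ((2 : ℤ) ^ 2) ∣ p.coeff k ^ 2 := pow_dvd_pow_of_dvd (by exact_mod_cast h1) 2
  simpa using this

theorem char2 (a : LaurentPolynomial (ZMod 2)) : a + a = 0 := by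
  ext k
  simp [CharTwo.add_self_eq_zero]

theorem x_ne : (T 1 + T (-1) : LaurentPolynomial (ZMod 2)) ≠ 0 := by
  intro h
  have := congrArg (fun f => f.coeff 1) h
  simp at this

theorem x1_ne : (1 + (T 1 + T (-1)) : LaurentPolynomial (ZMod 2)) ≠ 0 := by
  intro h
  have := congrArg (fun f => f.coeff 1) h
  rw [← T_zero] at this
  simp [-T_zero] at this

/-- `LM` has no vector of norm one -/
theorem no_norm_one (v : Fin 4 → LaurentPolynomial ℤ) :
    ∑ i, ∑ j, sg (v i) * LM (T 1) (T (-1)) i j * v j ≠ 1 := by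
  intro H
  set t : LaurentPolynomial ℤ := T 1 with ht
  set u : LaurentPolynomial ℤ := T (-1) with hu
  have htu : t * u = 1 := tu
  have st : sg t = u := by rw [ht, sg_T]
  have su : sg u = t := by rw [hu, sg_T]; simp [ht]
  set p := (1 + (t + u)) * (v 0 + v 1) + (v 2 + v 3) with hp
  set q := (t + u) * (v 0 + v 1) + (v 2 + v 3) with hq
  set r := v 0 - v 1 + (v 2 - v 3) with hr
  set s := v 2 - v 3 with hs
  have key : sg p * p + sg q * q + sg r * r + sg s * s = 2 := by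
    have e : sg p * p + sg q * q + sg r * r + sg s * s =
        2 * ∑ i, ∑ j, sg (v i) * LM t u i j * v j := by
      simp only [hp, hq, hr, hs, map_add, map_sub, map_mul, map_one, st, su]
      simp [Fin.sum_univ_succ, LM]
      generalize sg (v 0) = a0
      generalize sg (v 1) = a1
      generalize sg (v 2) = a2
      generalize sg (v 3) = a3
      grind
    rw [e, H]; ring
  have c0 := congrArg (fun f => f.coeff 0) key
  have two : (2 : LaurentPolynomial ℤ).coeff 0 = 2 := by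
    have : (2 : LaurentPolynomial ℤ) = C 2 := by simp
    rw [this]; simp
  simp only [AddMonoidAlgebra.coeff_add, Finsupp.add_apply, ct_mul, two] at c0
  change N p + N q + N r + N s = 2 at c0
  have np := N_nonneg p
  have nq := N_nonneg q
  have nr := N_nonneg r
  have ns := N_nonneg s
  -- relations mod 2
  set X : LaurentPolynomial (ZMod 2) := T 1 + T (-1) with hX
  have h2 : (2 : LaurentPolynomial (ZMod 2)) = 0 := by
    have := char2 1
    rwa [one_add_one_eq_two] at this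
  have rt : rd t = T 1 := rd_T 1
  have ru : rd u = T (-1) := rd_T (-1)
  have fp : rd p = (1 + X) * (rd (v 0) + rd (v 1)) + (rd (v 2) + rd (v 3)) := by
    simp only [hp, map_add, map_mul, map_one, rt, ru, hX]
  have fq : rd q = X * (rd (v 0) + rd (v 1)) + (rd (v 2) + rd (v 3)) := by
    simp only [hq, map_add, map_mul, rt, ru, hX]
  have fr : rd r = rd (v 0) - rd (v 1) + (rd (v 2) - rd (v 3)) := by
    simp only [hr, hs, map_add, map_sub]
  have fs : rd s = rd (v 2) - rd (v 3) := by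
    simp only [hs, map_sub]
  have hXne : X ≠ 0 := x_ne
  have hX1 : 1 + X ≠ 0 := x1_ne
  generalize rd (v 0) = w0 at fp fq fr fs
  generalize rd (v 1) = w1 at fp fq fr fs
  generalize rd (v 2) = w2 at fp fq fr fs
  generalize rd (v 3) = w3 at fp fq fr fs
  have e1 : rd r = (1 + X) * rd p + X * rd q := by
    rw [fp, fq, fr]
    linear_combination (-(w1 + w3 + (X + X ^ 2) * (w0 + w1) + X * (w2 + w3))) * h2
  have e2 : rd s = X * rd p + (1 + X) * rd q := by
    rw [fp, fq, fs]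
    linear_combination (-(w3 + X * (1 + X) * (w0 + w1) + X * (w2 + w3))) * h2
  clear fp fq fr fs
  -- all four vanish mod 2
  have allz : rd p = 0 ∧ rd q = 0 := by
    by_cases zp : rd p = 0
    · refine ⟨zp, ?_⟩
      by_contra zq
      have zr : rd r ≠ 0 := by rw [e1, zp]; simp [hXne, zq]
      have zs : rd s ≠ 0 := by rw [e2, zp]; simp [hX1, zq]
      have := N_pos zq; have := N_pos zr; have := N_pos zs
      omega
    · exfalso
      have Np := N_pos zp
      by_cases zq : rd q = 0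
      · have zr : rd r ≠ 0 := by rw [e1, zq]; simp [hX1, zp]
        have zs : rd s ≠ 0 := by rw [e2, zq]; simp [hXne, zp]
        have := N_pos zr; have := N_pos zs
        omega
      · have Nq := N_pos zq
        have zr : rd r = 0 := by
          by_contra zr
          have := N_pos zr; omega
        have zs : rd s = 0 := by
          by_contra zs
          have := N_pos zs; omega
        apply zp
        have a1 : rd p = (1 + 2 * X + 2 * X ^ 2) * rd p + (2 * X + 2 * X ^ 2) * rd q := by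
          linear_combination (-(X + X ^ 2) * (rd p + rd q)) * h2
        have a2 : rd p = (1 + X) * rd r + X * rd s := by
          rw [e1, e2]
          linear_combination (-(X + X ^ 2) * (rd p + rd q)) * h2
        rw [a2, zr, zs]; ring
  obtain ⟨zp, zq⟩ := allz
  have zr : rd r = 0 := by rw [e1, zp, zq]; ring
  have zs : rd s = 0 := by rw [e2, zp, zq]; ring
  have := N_dvd zp; have := N_dvd zq; have := N_dvd zr; have := N_dvd zs
  omega

end Pool.Agent.X173.HT
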