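import Mathlib
set_option autoImplicit false

namespace Pool.Agent.X173.CP

open Set Filter Topology

/-- uniform separation -/
lemma unif_sep {K : Set ℝ} (hK : IsCompact K) (hp : Preperfect K) (ε : ℝ) (hε : 0 < ε) :
    ∃ δ > 0, ∀ x ∈ K, ∃ b ∈ K, |b - x| ≤ ε ∧ δ ≤ |b - x| := by
  refine hK.induction_on (p := fun s => ∃ δ > 0, ∀ x ∈ s, ∃ b ∈ K, |b - x| ≤ ε ∧ δ ≤ |b - x|)
    ?_ ?_ ?_ ?_
  · exact ⟨1, one_pos, by simp⟩
  · rintro s t hst ⟨δ, h0, h⟩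
    exact ⟨δ, h0, fun x hx => h x (hst hx)⟩
  · rintro s t ⟨δ, h0, h⟩ ⟨δ', h0', h'⟩
    refine ⟨min δ δ', lt_min h0 h0', ?_⟩
    rintro x (hx | hx)
    · obtain ⟨b, hb, h1, h2⟩ := h x hx
      exact ⟨b, hb, h1, (min_le_left _ _).trans h2⟩
    · obtain ⟨b, hb, h1, h2⟩ := h' x hx
      exact ⟨b, hb, h1, (min_le_right _ _).trans h2⟩
  · intro x hx
    have h1 := (preperfect_iff_nhds.mp hp) x hx (Metric.ball x (ε / 2))
      (Metric.ball_mem_nhds _ (by positivity))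
    obtain ⟨b, ⟨hbb, hb⟩, hbx⟩ := h1
    rw [Metric.mem_ball, Real.dist_eq] at hbb
    have h0 : 0 < |b - x| := abs_pos.mpr (sub_ne_zero.mpr hbx)
    refine ⟨K ∩ Metric.ball x (|b - x| / 2), ?_, |b - x| / 2, by positivity, ?_⟩
    · exact inter_mem_nhdsWithin _ (Metric.ball_mem_nhds _ (by positivity))
    rintro z ⟨hz, hz'⟩
    rw [Metric.mem_ball, Real.dist_eq] at hz'
    have h2 : |b - x| ≤ |b - z| + |z - x| := abs_sub_le _ _ _
    have h3 : |b - z| ≤ |b - x| + |x - z| := abs_sub_le _ _ _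
    rw [abs_sub_comm x z] at h3
    exact ⟨b, hb, by linarith, by linarith⟩

lemma seqs {K : Set ℝ} (hK : IsCompact K) (hp : Preperfect K) :
    ∃ e h : ℕ → ℝ, (∀ m, 0 < e m) ∧ (∀ m, 0 < h m) ∧
      (∀ m : ℕ, ∀ x ∈ K, ∃ b ∈ K, |b - x| ≤ e m / 2 ∧ 4 * ((m : ℝ) + 1) * h m ≤ |b - x|) ∧
      (∀ m, e (m+1) ≤ e m / 2) ∧
      (∀ m : ℕ, 4 * ((m : ℝ) + 2) * e (m+1) ≤ h m) ∧
      (∀ m, h (m+1) ≤ h m) ∧ (∀ m, h m ≤ (1/4 : ℝ)^(m+3)) := by
  have h0 : ∀ ε : ℝ, ∃ δ : ℝ, 0 < ε → (0 < δ ∧ ∀ x ∈ K, ∃ b ∈ K, |b - x| ≤ ε ∧ δ ≤ |b - x|) := by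
    intro ε
    by_cases hε : 0 < ε
    · obtain ⟨δ, h1, h2⟩ := unif_sep hK hp ε hε
      exact ⟨δ, fun _ => ⟨h1, h2⟩⟩
    · exact ⟨0, fun h => absurd h hε⟩
  choose D hD using h0
  let f : ℕ → ℝ × ℝ := fun m => Nat.rec (1, min (D (1/2) / 4) ((1/4 : ℝ)^3))
    (fun m s => (min (s.1 / 2) (s.2 / (4 * ((m : ℝ) + 2))),
      min (D (min (s.1 / 2) (s.2 / (4 * ((m : ℝ) + 2))) / 2) / (4 * ((m : ℝ) + 2)))
        (min s.2 ((1/4 : ℝ)^(m+4))))) m
  have f0 : f 0 = (1, min (D (1/2) / 4) ((1/4 : ℝ)^3)) := rfl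
  have fs : ∀ m, f (m+1) = (min ((f m).1 / 2) ((f m).2 / (4 * ((m : ℝ) + 2))),
      min (D (min ((f m).1 / 2) ((f m).2 / (4 * ((m : ℝ) + 2))) / 2) / (4 * ((m : ℝ) + 2)))
        (min (f m).2 ((1/4 : ℝ)^(m+4)))) := fun m => rfl
  have hpos : ∀ m, 0 < (f m).1 ∧ 0 < (f m).2 := by
    intro m
    induction m with
    | zero =>
      rw [f0]
      refine ⟨one_pos, lt_min ?_ (by positivity)⟩
      have := (hD (1/2) (by norm_num)).1
      positivity
    | succ m ih =>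
      rw [fs]
      have h1 : 0 < min ((f m).1 / 2) ((f m).2 / (4 * ((m : ℝ) + 2))) := by
        apply lt_min
        · exact half_pos ih.1
        · exact div_pos ih.2 (by positivity)
      refine ⟨h1, ?_⟩
      simp only
      have h2 := (hD _ (half_pos h1)).1
      apply lt_min
      · positivity
      · exact lt_min ih.2 (by positivity)
  refine ⟨fun m => (f m).1, fun m => (f m).2, fun m => (hpos m).1, fun m => (hpos m).2, ?_, ?_, ?_, ?_, ?_⟩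
  · intro m x hx
    cases m with
    | zero =>
      obtain ⟨b, hb, h1, h2⟩ := (hD (1/2) (by norm_num)).2 x hx
      refine ⟨b, hb, ?_, ?_⟩
      · change |b - x| ≤ (f 0).1 / 2
        rw [f0]; exact h1
      · change 4 * (((0:ℕ):ℝ) + 1) * (f 0).2 ≤ |b - x|
        rw [f0]
        have : min (D (1/2) / 4) ((1/4 : ℝ)^3) ≤ D (1/2) / 4 := min_le_left _ _
        push_cast
        linarith
    | succ m =>
      have h1 : 0 < (f (m+1)).1 := (hpos (m+1)).1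
      obtain ⟨b, hb, h2, h3⟩ := (hD ((f (m+1)).1 / 2) (half_pos h1)).2 x hx
      refine ⟨b, hb, h2, le_trans ?_ h3⟩
      have h4 : (f (m+1)).2 ≤ D ((f (m+1)).1 / 2) / (4 * ((m : ℝ) + 2)) := by
        rw [fs]
        exact min_le_left _ _
      rw [le_div_iff₀ (by positivity)] at h4
      push_cast
      nlinarith
  · intro m
    simp only
    rw [fs]
    exact min_le_left _ _
  · intro m
    simp only
    rw [fs]
    have h1 : min ((f m).1 / 2) ((f m).2 / (4 * ((m : ℝ) + 2))) ≤ (f m).2 / (4 * ((m : ℝ) + 2)) :=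
      min_le_right _ _
    rw [le_div_iff₀ (by positivity)] at h1
    simp only
    linarith
  · intro m
    simp only
    rw [fs]
    exact (min_le_right _ _).trans (min_le_left _ _)
  · intro m
    simp only
    cases m with
    | zero => rw [f0]; exact min_le_right _ _
    | succ m => rw [fs]; exact (min_le_right _ _).trans (min_le_right _ _)

/-- the avoidance game -/
lemma game {K : Set ℝ} (hK : IsCompact K) {e h : ℕ → ℝ} (he0 : ∀ m, 0 < e m)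
    (hsep : ∀ m : ℕ, ∀ x ∈ K, ∃ b ∈ K, |b - x| ≤ e m / 2 ∧ 4 * ((m : ℝ) + 1) * h m ≤ |b - x|)
    (hh0 : ∀ m, 0 < h m)
    (hee : ∀ m, e (m+1) ≤ e m / 2) (heh : ∀ m : ℕ, 4 * ((m : ℝ) + 2) * e (m+1) ≤ h m)
    (c : ℕ → ℝ) (φ : ℝ → ℝ) (m0 : ℕ) (L : ℝ) (hL : L ≤ m0 + 1) (x0 : ℝ)
    (hx0 : x0 ∈ K)
    (hφ : ∀ a b, |a - x0| ≤ e m0 → |b - x0| ≤ e m0 →
      |a - b| ≤ L * |φ a - φ b| ∧ |φ a - φ b| ≤ L * |a - b|) :
    ∃ x ∈ K, |x - x0| ≤ e m0 ∧ ∀ m, m0 ≤ m → h m ≤ |φ x - c m| := by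
  have step : ∀ (k : ℕ) (x : ℝ), (x ∈ K ∧ |x - x0| ≤ e m0 - e (m0+k)) →
      ∃ x', (x' ∈ K ∧ |x' - x0| ≤ e m0 - e (m0+(k+1))) ∧ (|x' - x| ≤ e (m0+k)/2 ∧
        ∀ z, |z - x'| ≤ e (m0+(k+1)) → h (m0+k) ≤ |φ z - c (m0+k)|) := by
    rintro k x ⟨hx, hxx⟩
    obtain ⟨b, hb, hb1, hb2⟩ := hsep (m0+k) x hx
    have hek := he0 (m0+k)
    have hek1 := he0 (m0+(k+1))
    have hee1 : e (m0+(k+1)) ≤ e (m0+k) / 2 := hee (m0+k)
    have heh1 : 4 * (((m0+k : ℕ) : ℝ) + 2) * e (m0+(k+1)) ≤ h (m0+k) := heh (m0+k)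
    have hhk := hh0 (m0+k)
    have hbx : |b - x0| ≤ |b - x| + |x - x0| := abs_sub_le _ _ _
    have h1 : |b - x| ≤ L * |φ b - φ x| :=
      (hφ b x (by linarith) (by linarith)).1
    -- one of x, b has image far from c
    have h2 : ∃ x', (x' = x ∨ x' = b) ∧ 2 * h (m0+k) ≤ |φ x' - c (m0+k)| := by
      by_contra hcon
      push Not at hcon
      have h3 := hcon x (Or.inl rfl)
      have h4 := hcon b (Or.inr rfl)
      have h5 : |φ b - φ x| ≤ |φ b - c (m0+k)| + |c (m0+k) - φ x| := abs_sub_le _ _ _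
      rw [abs_sub_comm (c (m0+k)) (φ x)] at h5
      have h6 : |φ b - φ x| < 4 * h (m0+k) := by linarith
      have h7 : L * |φ b - φ x| ≤ (((m0+k : ℕ) : ℝ) + 1) * |φ b - φ x| := by
        apply mul_le_mul_of_nonneg_right _ (abs_nonneg _)
        push_cast
        have : (0:ℝ) ≤ (k:ℝ) := Nat.cast_nonneg _
        linarith
      have h8 : (((m0+k : ℕ) : ℝ) + 1) * |φ b - φ x| < (((m0+k : ℕ) : ℝ) + 1) * (4 * h (m0+k)) :=
        mul_lt_mul_of_pos_left h6 (by positivity)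
      have h9 : (((m0+k : ℕ) : ℝ) + 1) * (4 * h (m0+k)) ≤ |b - x| := by
        linarith
      linarith
    obtain ⟨x', hx', hx'2⟩ := h2
    have h3 : x' ∈ K ∧ |x' - x| ≤ e (m0+k) / 2 := by
      rcases hx' with rfl | rfl
      · refine ⟨hx, ?_⟩
        rw [sub_self, abs_zero]; linarith
      · exact ⟨hb, hb1⟩
    have h4 : |x' - x0| ≤ |x' - x| + |x - x0| := abs_sub_le _ _ _
    refine ⟨x', ⟨h3.1, by linarith [h3.2]⟩, h3.2, ?_⟩
    intro z hz
    have h5 : |z - x0| ≤ |z - x'| + |x' - x0| := abs_sub_le _ _ _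
    have h6 := (hφ z x' (by linarith [h3.2]) (by linarith [h3.2])).2
    have h7 : |φ x' - c (m0+k)| ≤ |φ x' - φ z| + |φ z - c (m0+k)| := abs_sub_le _ _ _
    rw [abs_sub_comm (φ x') (φ z)] at h7
    have h8 : L * |z - x'| ≤ (((m0+k : ℕ) : ℝ) + 2) * e (m0+(k+1)) := by
      have : L ≤ (((m0+k : ℕ) : ℝ) + 2) := by
        push_cast
        have : (0:ℝ) ≤ (k:ℝ) := Nat.cast_nonneg _
        linarith
      apply mul_le_mul this hz (abs_nonneg _) (by positivity)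
    have h9 : (((m0+k : ℕ) : ℝ) + 2) * e (m0+(k+1)) ≤ h (m0+k) := by
      have h10 : 0 ≤ (((m0+k : ℕ) : ℝ) + 2) * e (m0+(k+1)) := by positivity
      linarith
    linarith
  choose! g hg1 hg2 using step
  let X : ℕ → ℝ := fun k => Nat.rec x0 (fun k x => g k x) k
  have hX0 : X 0 = x0 := rfl
  have hXs : ∀ k, X (k+1) = g k (X k) := fun k => rfl
  have hX : ∀ k, X k ∈ K ∧ |X k - x0| ≤ e m0 - e (m0+k) := by
    intro k
    induction k with
    | zero => exact ⟨hx0, by simp [hX0]⟩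
    | succ k ih => rw [hXs]; exact hg1 k (X k) ih
  have hX2 : ∀ k, |X (k+1) - X k| ≤ e (m0+k)/2 ∧
      ∀ z, |z - X (k+1)| ≤ e (m0+(k+1)) → h (m0+k) ≤ |φ z - c (m0+k)| := by
    intro k
    rw [hXs]; exact hg2 k (X k) (hX k)
  let S : ℕ → Set ℝ := fun k => K ∩ Metric.closedBall (X k) (e (m0+k))
  have hne : (⋂ k, S k).Nonempty := by
    apply IsCompact.nonempty_iInter_of_sequence_nonempty_isCompact_isClosed
    · intro k x hx
      obtain ⟨hxK, hxb⟩ := hx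
      refine ⟨hxK, ?_⟩
      rw [Metric.mem_closedBall, Real.dist_eq] at hxb ⊢
      have h1 : |x - X k| ≤ |x - X (k+1)| + |X (k+1) - X k| := abs_sub_le _ _ _
      have h2 := (hX2 k).1
      have h3 : e (m0+(k+1)) ≤ e (m0+k) / 2 := hee (m0+k)
      linarith
    · intro k
      exact ⟨X k, (hX k).1, Metric.mem_closedBall_self (he0 _).le⟩
    · exact hK.inter_right Metric.isClosed_closedBall
    · intro k
      exact hK.isClosed.inter Metric.isClosed_closedBall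
  obtain ⟨x, hx⟩ := hne
  rw [mem_iInter] at hx
  refine ⟨x, (hx 0).1, ?_, ?_⟩
  · have := (hx 0).2
    rw [Metric.mem_closedBall, Real.dist_eq] at this
    exact this
  · intro m hm
    obtain ⟨k, rfl⟩ := Nat.exists_eq_add_of_le hm
    apply (hX2 k).2
    have := (hx (k+1)).2
    rw [Metric.mem_closedBall, Real.dist_eq] at this
    exact this

end Pool.Agent.X173.CP
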