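import Mathlib
import Pool.Agent.X173.CPA
set_option autoImplicit false

namespace Pool.Agent.X173.CP

open Set Filter Topology

/-- the graph function of the circle of radius `d` around `(y1,y2)` -/
noncomputable def ph (s y1 y2 d x : ℝ) : ℝ := y2 + s * Real.sqrt (d^2 - (x - y1)^2)

lemma phi_lemma {p q p' q' : ℝ} (hp : p ≠ p') (hq : q ≠ q') :
    ∃ s L ρ : ℝ, 0 < L ∧ 0 < ρ ∧ ρ < Real.sqrt ((p'-p)^2 + (q'-q)^2) ∧
      (∀ y1 y2 d a b : ℝ, |y1 - p| ≤ ρ → |d - Real.sqrt ((p'-p)^2 + (q'-q)^2)| ≤ ρ →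
        |a - p'| ≤ ρ → |b - p'| ≤ ρ →
        |a - b| ≤ L * |ph s y1 y2 d a - ph s y1 y2 d b| ∧
        |ph s y1 y2 d a - ph s y1 y2 d b| ≤ L * |a - b| ∧
        (a - y1)^2 + (ph s y1 y2 d a - y2)^2 = d^2) ∧
      (∀ η > 0, ∃ ρ' > 0, ∀ y1 y2 d : ℝ, |y1 - p| ≤ ρ' → |y2 - q| ≤ ρ' →
        |d - Real.sqrt ((p'-p)^2 + (q'-q)^2)| ≤ ρ' → |ph s y1 y2 d p' - q'| ≤ η) := by
  have hu : 0 < |p' - p| := abs_pos.mpr (sub_ne_zero.mpr hp.symm)
  have hv : 0 < |q' - q| := abs_pos.mpr (sub_ne_zero.mpr hq.symm)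
  have hu' : p' - p ≠ 0 := sub_ne_zero.mpr hp.symm
  have hv' : q' - q ≠ 0 := sub_ne_zero.mpr hq.symm
  have hpos : 0 < (p'-p)^2 + (q'-q)^2 := by positivity
  have hd0 : 0 < Real.sqrt ((p'-p)^2 + (q'-q)^2) := Real.sqrt_pos.mpr hpos
  have hd2 : Real.sqrt ((p'-p)^2 + (q'-q)^2) ^ 2 = (p'-p)^2 + (q'-q)^2 := Real.sq_sqrt hpos.le
  obtain ⟨s, hs, hsq⟩ : ∃ s : ℝ, |s| = 1 ∧ s * |q' - q| = q' - q := by
    rcases lt_or_gt_of_ne hv' with h | h
    · exact ⟨-1, by simp, by rw [abs_of_neg h]; ring⟩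
    · exact ⟨1, by simp, by rw [abs_of_pos h]; ring⟩
  -- continuity of the radicand root
  have hc : Continuous (fun w : ℝ × ℝ × ℝ => Real.sqrt (w.2.1^2 - (w.2.2 - w.1)^2)) := by fun_prop
  have hr : Continuous (fun w : ℝ × ℝ × ℝ => (w.2.2 - w.1) / (p' - p)) := by fun_prop
  have hval : Real.sqrt (Real.sqrt ((p'-p)^2 + (q'-q)^2) ^ 2 - (p' - p)^2) = |q' - q| := by
    rw [hd2, add_sub_cancel_left, Real.sqrt_sq_eq_abs]
  have hev1 : ∀ᶠ w : ℝ × ℝ × ℝ in 𝓝 (p, Real.sqrt ((p'-p)^2 + (q'-q)^2), p'),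
      Real.sqrt (w.2.1^2 - (w.2.2 - w.1)^2) ∈ Ioo (|q'-q|/2) (2 * |q'-q|) := by
    apply hc.continuousAt.eventually_mem
    apply Ioo_mem_nhds
    · simp only; rw [hval]; linarith
    · simp only; rw [hval]; linarith
  have hev2 : ∀ᶠ w : ℝ × ℝ × ℝ in 𝓝 (p, Real.sqrt ((p'-p)^2 + (q'-q)^2), p'),
      (w.2.2 - w.1) / (p' - p) ∈ Ioo (1/2 : ℝ) 2 := by
    apply hr.continuousAt.eventually_mem
    apply Ioo_mem_nhds
    · simp only; rw [div_self hu']; norm_num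
    · simp only; rw [div_self hu']; norm_num
  obtain ⟨ρ0, hρ0, hρ⟩ := Metric.eventually_nhds_iff.mp (hev1.and hev2)
  let ρ := min (ρ0 / 2) (Real.sqrt ((p'-p)^2 + (q'-q)^2) / 2)
  have hρpos : 0 < ρ := by
    apply lt_min <;> positivity
  have hρ1 : ρ ≤ ρ0 / 2 := min_le_left _ _
  have hρ2 : ρ ≤ Real.sqrt ((p'-p)^2 + (q'-q)^2) / 2 := min_le_right _ _
  let L := max (4 * |p'-p| / |q'-q|) (4 * |q'-q| / |p'-p|)
  have hL1 : 4 * |p'-p| / |q'-q| ≤ L := le_max_left _ _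
  have hL2 : 4 * |q'-q| / |p'-p| ≤ L := le_max_right _ _
  have hLpos : 0 < L := lt_of_lt_of_le (by positivity) hL1
  rw [div_le_iff₀ hv] at hL1
  rw [div_le_iff₀ hu] at hL2
  have hgood : ∀ y1 d a : ℝ, |y1 - p| ≤ ρ → |d - Real.sqrt ((p'-p)^2 + (q'-q)^2)| ≤ ρ →
        |a - p'| ≤ ρ → Real.sqrt (d^2 - (a - y1)^2) ∈ Ioo (|q'-q|/2) (2 * |q'-q|) ∧
          (a - y1) / (p' - p) ∈ Ioo (1/2 : ℝ) 2 := by
    intro y1 d a h1 h2 h3
    apply hρ (y := (y1, d, a))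
    rw [Prod.dist_eq, Prod.dist_eq]
    simp only [Real.dist_eq]
    apply max_lt (by linarith)
    apply max_lt (by linarith) (by linarith)
  refine ⟨s, L, ρ, hLpos, hρpos, by linarith, ?_, ?_⟩
  · intro y1 y2 d a b h1 h2 h3 h4
    obtain ⟨⟨hSa1, hSa2⟩, ⟨hra1, hra2⟩⟩ := hgood y1 d a h1 h2 h3
    obtain ⟨⟨hSb1, hSb2⟩, ⟨hrb1, hrb2⟩⟩ := hgood y1 d b h1 h2 h4
    set Sa := Real.sqrt (d^2 - (a - y1)^2) with hSa
    set Sb := Real.sqrt (d^2 - (b - y1)^2) with hSb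
    have hSa0 : 0 < Sa := by linarith
    have hSb0 : 0 < Sb := by linarith
    have hSasq : Sa^2 = d^2 - (a - y1)^2 := Real.sq_sqrt (Real.sqrt_pos.mp hSa0).le
    have hSbsq : Sb^2 = d^2 - (b - y1)^2 := Real.sq_sqrt (Real.sqrt_pos.mp hSb0).le
    have hdiff : |ph s y1 y2 d a - ph s y1 y2 d b| = |Sa - Sb| := by
      unfold ph
      rw [← hSa, ← hSb]
      have : y2 + s * Sa - (y2 + s * Sb) = s * (Sa - Sb) := by ring
      rw [this, abs_mul, hs, one_mul]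
    rw [hdiff]
    have hkey : |Sa - Sb| * (Sa + Sb) = |a - b| * |(a - y1) + (b - y1)| := by
      have h5 : (Sa - Sb) * (Sa + Sb) = -((a - b) * ((a - y1) + (b - y1))) := by
        have : (Sa - Sb) * (Sa + Sb) = Sa^2 - Sb^2 := by ring
        rw [this, hSasq, hSbsq]; ring
      have h6 := congrArg abs h5
      rw [abs_mul, abs_neg, abs_mul, abs_of_pos (by linarith : 0 < Sa + Sb)] at h6
      exact h6
    have hsum : |(a - y1) + (b - y1)| = |p' - p| * ((a - y1) / (p' - p) + (b - y1) / (p' - p)) := by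
      have h5 : (a - y1) + (b - y1) = (p' - p) * ((a - y1) / (p' - p) + (b - y1) / (p' - p)) := by
        field_simp
      have h6 := congrArg abs h5
      rw [abs_mul, abs_of_pos (by linarith : 0 < (a - y1) / (p' - p) + (b - y1) / (p' - p))] at h6
      exact h6
    have hs1 : |p' - p| ≤ |(a - y1) + (b - y1)| := by
      rw [hsum]; nlinarith
    have hs2 : |(a - y1) + (b - y1)| ≤ 4 * |p' - p| := by
      rw [hsum]; nlinarith
    have hab := abs_nonneg (a - b)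
    have hSS := abs_nonneg (Sa - Sb)
    refine ⟨?_, ?_, ?_⟩
    · -- |a-b| u ≤ |Sa-Sb| (Sa+Sb) ≤ 4v |Sa - Sb| ≤ L u |Sa-Sb|
      have h5 : |a - b| * |p' - p| ≤ (L * |Sa - Sb|) * |p' - p| := by
        calc |a - b| * |p' - p| ≤ |a - b| * |(a - y1) + (b - y1)| :=
              mul_le_mul_of_nonneg_left hs1 hab
          _ = |Sa - Sb| * (Sa + Sb) := hkey.symm
          _ ≤ |Sa - Sb| * (4 * |q' - q|) := mul_le_mul_of_nonneg_left (by linarith) hSS
          _ ≤ |Sa - Sb| * (L * |p' - p|) := mul_le_mul_of_nonneg_left hL2 hSS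
          _ = _ := by ring
      exact le_of_mul_le_mul_right h5 hu
    · have h5 : |Sa - Sb| * |q' - q| ≤ (L * |a - b|) * |q' - q| := by
        calc |Sa - Sb| * |q' - q| ≤ |Sa - Sb| * (Sa + Sb) :=
              mul_le_mul_of_nonneg_left (by linarith) hSS
          _ = |a - b| * |(a - y1) + (b - y1)| := hkey
          _ ≤ |a - b| * (4 * |p' - p|) := mul_le_mul_of_nonneg_left hs2 hab
          _ ≤ |a - b| * (L * |q' - q|) := mul_le_mul_of_nonneg_left hL1 hab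
          _ = _ := by ring
      exact le_of_mul_le_mul_right h5 hv
    · have h5 : ph s y1 y2 d a - y2 = s * Sa := by unfold ph; ring
      rw [h5, mul_pow, hSasq]
      have : s^2 = 1 := by rw [← sq_abs, hs]; norm_num
      rw [this]; ring
  · intro η hη
    have hcc : Continuous (fun w : ℝ × ℝ × ℝ => ph s w.1 w.2.1 w.2.2 p') := by
      unfold ph; fun_prop
    have h1 := Metric.continuousAt_iff.mp (hcc.continuousAt (x := (p, q, Real.sqrt ((p'-p)^2 + (q'-q)^2)))) η hη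
    obtain ⟨δ, hδ, h2⟩ := h1
    refine ⟨δ/2, half_pos hδ, ?_⟩
    intro y1 y2 d h3 h4 h5
    have h6 : dist (y1, y2, d) (p, q, Real.sqrt ((p'-p)^2 + (q'-q)^2)) < δ := by
      rw [Prod.dist_eq, Prod.dist_eq]
      simp only [Real.dist_eq]
      apply max_lt (by linarith)
      apply max_lt (by linarith) (by linarith)
    have h7 := h2 h6
    rw [Real.dist_eq] at h7
    have h8 : ph s p q (Real.sqrt ((p'-p)^2 + (q'-q)^2)) p' = q' := by
      unfold ph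
      rw [hval, hsq]; ring
    simp only at h7
    rw [h8] at h7
    exact h7.le

end Pool.Agent.X173.CP
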