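import Mathlib
import Pool.Agent.X173.CPB
set_option autoImplicit false

namespace Pool.Agent.X173.CP

open Set Filter Topology MeasureTheory

/-- the rational centres -/
noncomputable def cen (n : ℕ) : ℝ := ((Denumerable.ofNat ℚ n : ℚ) : ℝ)

/-- the closed set avoiding small balls around all rationals -/
def K0 (h : ℕ → ℝ) : Set ℝ := Icc 0 1 \ ⋃ j, Metric.ball (cen j) (h (2*j))

/-- the good base points -/
def G (h : ℕ → ℝ) : Set ℝ := Ioo 0 1 \ ⋃ j, Metric.closedBall (cen j) (2 * h (2*j))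

lemma K0_closed (h : ℕ → ℝ) : IsClosed (K0 h) :=
  isClosed_Icc.sdiff (isOpen_iUnion fun _ => Metric.isOpen_ball)

lemma K0_td (h : ℕ → ℝ) (hh : ∀ m, 0 < h m) : IsTotallyDisconnected (K0 h) := by
  intro t ht htc x hx y hy
  by_contra hne
  wlog hxy : x < y generalizing x y
  · exact this hy hx (Ne.symm hne) (lt_of_le_of_ne (not_lt.mp hxy) (Ne.symm hne))
  obtain ⟨r, hr1, hr2⟩ := exists_rat_btwn hxy
  have h1 : (r : ℝ) ∈ t := htc.Icc_subset hx hy ⟨hr1.le, hr2.le⟩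
  have h2 := (ht h1).2
  apply h2
  rw [mem_iUnion]
  obtain ⟨n, hn⟩ : ∃ n, Denumerable.ofNat ℚ n = r :=
    ⟨@Encodable.encode ℚ (Denumerable.toEncodable) r, Denumerable.ofNat_encode r⟩
  refine ⟨n, ?_⟩
  have h3 : cen n = (r : ℝ) := by
    unfold cen
    rw [hn]
  rw [h3]
  exact Metric.mem_ball_self (hh _)

lemma G_sub_K0 (h : ℕ → ℝ) (hh : ∀ m, 0 < h m) : G h ⊆ K0 h := by
  rintro x ⟨hx1, hx2⟩
  refine ⟨Ioo_subset_Icc_self hx1, ?_⟩
  intro hx3
  apply hx2
  rw [mem_iUnion] at hx3 ⊢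
  obtain ⟨j, hj⟩ := hx3
  refine ⟨j, ?_⟩
  rw [Metric.mem_ball] at hj
  rw [Metric.mem_closedBall]
  have := hh (2*j)
  linarith

lemma G_not_countable (h : ℕ → ℝ) (hh : ∀ m, h m ≤ (1/4 : ℝ)^(m+3)) :
    ¬ (G h).Countable := by
  intro hc
  have h1 : volume (G h) = 0 := hc.measure_zero _
  have h2 : Ioo (0:ℝ) 1 ⊆ G h ∪ ⋃ j, Metric.closedBall (cen j) (2 * h (2*j)) := by
    intro x hx
    by_cases hx2 : x ∈ ⋃ j, Metric.closedBall (cen j) (2 * h (2*j))
    · exact Or.inr hx2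
    · exact Or.inl ⟨hx, hx2⟩
  have h3 : volume (Ioo (0:ℝ) 1) ≤ volume (G h) + volume (⋃ j, Metric.closedBall (cen j) (2 * h (2*j))) :=
    (measure_mono h2).trans (measure_union_le _ _)
  have h4 : volume (⋃ j, Metric.closedBall (cen j) (2 * h (2*j))) ≤ ENNReal.ofReal (1/15) := by
    refine (measure_iUnion_le _).trans ?_
    have h5 : ∀ j : ℕ, volume (Metric.closedBall (cen j) (2 * h (2*j))) ≤
        ENNReal.ofReal ((1/16) * (1/16)^j) := by
      intro j
      rw [Real.volume_closedBall]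
      apply ENNReal.ofReal_le_ofReal
      have := hh (2*j)
      have h6 : (1/4 : ℝ)^(2*j+3) = (1/64) * (1/16)^j := by
        rw [pow_add, pow_mul]; norm_num; ring
      rw [h6] at this
      linarith
    refine (ENNReal.tsum_le_tsum h5).trans ?_
    have hsum : HasSum (fun j : ℕ => (1/16 : ℝ) * (1/16)^j) (1/15) := by
      have := (hasSum_geometric_of_lt_one (r := (1/16 : ℝ)) (by norm_num) (by norm_num)).mul_left (1/16)
      have h6 : (1/15 : ℝ) = (1/16) * (1 - 1/16)⁻¹ := by norm_num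
      rw [h6]
      exact this
    rw [← ENNReal.ofReal_tsum_of_nonneg (fun j => by positivity) hsum.summable, hsum.tsum_eq]
  rw [Real.volume_Ioo, h1, zero_add] at h3
  have h5 := h3.trans h4
  rw [ENNReal.ofReal_le_ofReal_iff (by norm_num)] at h5
  norm_num at h5

theorem edge {K : Set ℝ} (hK : IsCompact K) {e h : ℕ → ℝ} (he0 : ∀ m, 0 < e m)
    (hh0 : ∀ m, 0 < h m)
    (hsep : ∀ m : ℕ, ∀ x ∈ K, ∃ b ∈ K, |b - x| ≤ e m / 2 ∧ 4 * ((m : ℝ) + 1) * h m ≤ |b - x|)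
    (hee : ∀ m, e (m+1) ≤ e m / 2) (heh : ∀ m : ℕ, 4 * ((m : ℝ) + 2) * e (m+1) ≤ h m)
    (hhh : ∀ m, h (m+1) ≤ h m) (hh4 : ∀ m, h m ≤ (1/4 : ℝ)^(m+3))
    {V D : Set ℝ} (hV : V.Countable) (hVD : K0 h = V ∪ D)
    {p q p' q' : ℝ} (hp : p ≠ p') (hq : q ≠ q') (hp' : p' ∈ K) (hq' : q' ∈ G h) :
    ∀ η > 0, ∃ ρ > 0, ∀ y1 y2 d : ℝ, |y1 - p| ≤ ρ → |y2 - q| ≤ ρ →
      |d - Real.sqrt ((p'-p)^2 + (q'-q)^2)| ≤ ρ →
      ∃ x' ∈ K, ∃ t' ∈ D, |x' - p'| ≤ η ∧ |t' - q'| ≤ η ∧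
        Real.sqrt ((x' - y1)^2 + (t' - y2)^2) = d := by
  intro η hη
  obtain ⟨s, L, ρ0, hL0, hρ0, hρd, hph, hph2⟩ := phi_lemma hp hq
  have hanti : Antitone h := antitone_nat_of_succ_le hhh
  -- q' in (0,1)
  obtain ⟨⟨hq1, hq2⟩, hq3⟩ := hq'
  -- choose m1
  have hlim : Tendsto (fun m : ℕ => (1/4 : ℝ)^(m+3)) atTop (𝓝 0) :=
    (tendsto_pow_atTop_nhds_zero_of_lt_one (by norm_num) (by norm_num)).comp (tendsto_add_atTop_nat 3)
  have hev : ∀ᶠ m : ℕ in atTop, (1/4 : ℝ)^(m+3) < min (min η ρ0) (min q' (1 - q')) := by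
    apply hlim.eventually_lt_const
    apply lt_min (lt_min hη hρ0) (lt_min hq1 (by linarith))
  obtain ⟨m1, hm1, hm2⟩ := (hev.and (eventually_ge_atTop (Nat.ceil L))).exists
  have hm3 : h m1 < min (min η ρ0) (min q' (1 - q')) := lt_of_le_of_lt (hh4 m1) hm1
  have hmη : h m1 < η := lt_of_lt_of_le hm3 ((min_le_left _ _).trans (min_le_left _ _))
  have hmρ : h m1 < ρ0 := lt_of_lt_of_le hm3 ((min_le_left _ _).trans (min_le_right _ _))
  have hmq : h m1 < q' := lt_of_lt_of_le hm3 ((min_le_right _ _).trans (min_le_left _ _))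
  have hmq' : h m1 < 1 - q' := lt_of_lt_of_le hm3 ((min_le_right _ _).trans (min_le_right _ _))
  have hLm : L ≤ (m1 : ℝ) := (Nat.le_ceil L).trans (by exact_mod_cast hm2)
  have hhm := hh0 m1
  have hem := he0 (m1+1)
  have heh1 := heh m1
  have heh2 : ((m1 : ℝ) + 2) * e (m1+1) ≤ h m1 / 4 := by linarith
  have heh3 : e (m1+1) ≤ h m1 / 4 := by
    have hm0 : (0:ℝ) ≤ (m1:ℝ) := Nat.cast_nonneg _
    nlinarith
  obtain ⟨ρ', hρ', hph3⟩ := hph2 (h m1 / 4) (by positivity)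
  refine ⟨min ρ' ρ0, lt_min hρ' hρ0, ?_⟩
  intro y1 y2 d h1 h2 h3
  have h1a := h1.trans (min_le_left _ _)
  have h1b := h1.trans (min_le_right _ _)
  have h2a := h2.trans (min_le_left _ _)
  have h3a := h3.trans (min_le_left _ _)
  have h3b := h3.trans (min_le_right _ _)
  have hd0 : 0 ≤ d := by
    have := (abs_le.mp h3b).1
    linarith
  have hphi0 := hph3 y1 y2 d h1a h2a h3a
  obtain ⟨v, hv⟩ := Set.countable_iff_exists_subset_range.mp hV
  let c : ℕ → ℝ := fun m => if m % 2 = 0 then cen (m / 2) else v (Nat.unpair (m / 2)).1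
  have hφ : ∀ a b, |a - p'| ≤ e (m1+1) → |b - p'| ≤ e (m1+1) →
      |a - b| ≤ L * |ph s y1 y2 d a - ph s y1 y2 d b| ∧
        |ph s y1 y2 d a - ph s y1 y2 d b| ≤ L * |a - b| := by
    intro a b ha hb
    have := hph y1 y2 d a b h1b h3b (by linarith) (by linarith)
    exact ⟨this.1, this.2.1⟩
  obtain ⟨x', hx', hxp, hav⟩ := game hK he0 hsep hh0 hee heh c (ph s y1 y2 d) (m1+1) L
    (by push_cast; linarith) p' hp' hφ
  set t' := ph s y1 y2 d x' with ht'
  have hcl : |t' - q'| ≤ h m1 / 2 := by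
    have h4 : |t' - q'| ≤ |t' - ph s y1 y2 d p'| + |ph s y1 y2 d p' - q'| := abs_sub_le _ _ _
    have h5 := (hφ x' p' hxp (by rw [sub_self, abs_zero]; exact hem.le)).2
    rw [← ht'] at h5
    have h6 : L * |x' - p'| ≤ ((m1 : ℝ) + 2) * e (m1+1) := by
      apply mul_le_mul (by linarith) hxp (abs_nonneg _) (by positivity)
    linarith
  have hcl' := abs_le.mp hcl
  have hK0 : t' ∈ K0 h := by
    refine ⟨⟨by linarith, by linarith⟩, ?_⟩
    intro hb
    rw [mem_iUnion] at hb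
    obtain ⟨j, hj⟩ := hb
    rw [Metric.mem_ball, Real.dist_eq] at hj
    rcases Nat.lt_or_ge m1 (2*j) with hlt | hge
    · have h7 := hav (2*j) hlt
      have h8 : c (2*j) = cen j := by
        simp only [c]
        rw [if_pos (by omega)]
        congr 1
        omega
      rw [h8] at h7
      linarith
    · have h7 : h m1 ≤ h (2*j) := hanti hge
      have h8 : ¬ (|q' - cen j| ≤ 2 * h (2*j)) := by
        intro h9
        apply hq3
        rw [mem_iUnion]
        refine ⟨j, ?_⟩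
        rw [Metric.mem_closedBall, Real.dist_eq]
        exact h9
      push Not at h8
      have h9 : |q' - cen j| ≤ |q' - t'| + |t' - cen j| := abs_sub_le _ _ _
      rw [abs_sub_comm q' t'] at h9
      have := hh0 (2*j)
      linarith
  have hnV : t' ∉ V := by
    intro hmem
    obtain ⟨i, hi⟩ := hv hmem
    have h7 := hav (2 * Nat.pair i (m1+1) + 1) (by
      have := Nat.right_le_pair i (m1+1)
      omega)
    have h8 : c (2 * Nat.pair i (m1+1) + 1) = v i := by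
      simp only [c]
      rw [if_neg (by omega)]
      have : (2 * Nat.pair i (m1+1) + 1) / 2 = Nat.pair i (m1+1) := by omega
      rw [this, Nat.unpair_pair]
    rw [h8, hi, sub_self, abs_zero] at h7
    have := hh0 (2 * Nat.pair i (m1+1) + 1)
    linarith
  have hD : t' ∈ D := by
    rw [hVD] at hK0
    rcases hK0 with h7 | h7
    · exact absurd h7 hnV
    · exact h7
  refine ⟨x', hx', t', hD, by linarith, by linarith, ?_⟩
  have h7 := (hph y1 y2 d x' x' h1b h3b (by linarith) (by linarith)).2.2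
  rw [← ht'] at h7
  rw [h7, Real.sqrt_sq hd0]

end Pool.Agent.X173.CP
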