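import Mathlib
import Pool.Agent.X173.CPC
set_option autoImplicit false

namespace Pool.Agent.X173.CPSinglePartner

open Set Filter Topology
open Pool.Agent.X173.CP

/-- A Cantor set in `ℝ`: nonempty, compact, totally disconnected, without isolated points. -/
def IsCantorSet (K : Set ℝ) : Prop :=
  K.Nonempty ∧ IsCompact K ∧ IsTotallyDisconnected K ∧ ∀ x ∈ K, AccPt x (𝓟 K)

/-- The product `K × K'` as a subset of the Euclidean plane. -/
def planeProd (K K' : Set ℝ) : Set (EuclideanSpace ℝ (Fin 2)) := {y | y 0 ∈ K ∧ y 1 ∈ K'}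

/-- The tree distance set `Δ^T(X)`. -/
def treeDist {V : Type} (T : SimpleGraph V) (X : Set (EuclideanSpace ℝ (Fin 2))) :
    Set (T.edgeSet → ℝ) :=
  {d | ∃ y : V → EuclideanSpace ℝ (Fin 2), Function.Injective y ∧ (∀ v, y v ∈ X) ∧
    ∀ (a b : V) (hab : T.Adj a b), d ⟨s(a, b), T.mem_edgeSet.mpr hab⟩ = dist (y a) (y b)}

/-- The pinned tree distance set `Δ^T_x(X)` with root vertex `r`. -/
def treeDistPinned {V : Type} (T : SimpleGraph V) (r : V) (x : EuclideanSpace ℝ (Fin 2))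
    (X : Set (EuclideanSpace ℝ (Fin 2))) : Set (T.edgeSet → ℝ) :=
  {d | ∃ y : V → EuclideanSpace ℝ (Fin 2), y r = x ∧ Function.Injective y ∧ (∀ v, y v ∈ X) ∧
    ∀ (a b : V) (hab : T.Adj a b), d ⟨s(a, b), T.mem_edgeSet.mpr hab⟩ = dist (y a) (y b)}

/-- distance of pairs -/
noncomputable def dd (u w : ℝ × ℝ) : ℝ := Real.sqrt ((w.1 - u.1)^2 + (w.2 - u.2)^2)

lemma dd_comm (u w : ℝ × ℝ) : dd u w = dd w u := by
  unfold dd
  congr 1
  ring

theorem tree_step {K : Set ℝ} (hK : IsCompact K) {e h : ℕ → ℝ} (he0 : ∀ m, 0 < e m)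
    (hh0 : ∀ m, 0 < h m)
    (hsep : ∀ m : ℕ, ∀ x ∈ K, ∃ b ∈ K, |b - x| ≤ e m / 2 ∧ 4 * ((m : ℝ) + 1) * h m ≤ |b - x|)
    (hee : ∀ m, e (m+1) ≤ e m / 2) (heh : ∀ m : ℕ, 4 * ((m : ℝ) + 2) * e (m+1) ≤ h m)
    (hhh : ∀ m, h (m+1) ≤ h m) (hh4 : ∀ m, h m ≤ (1/4 : ℝ)^(m+3))
    {V D : Set ℝ} (hV : V.Countable) (hVD : K0 h = V ∪ D) :
    ∀ n : ℕ, ∀ (W : Type) [Fintype W] (T : SimpleGraph W), Fintype.card W = n → T.IsTree →
    ∀ r : W, ∀ z : W → ℝ × ℝ, (∀ a b, a ≠ b → (z a).1 ≠ (z b).1 ∧ (z a).2 ≠ (z b).2) →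
    (∀ a, (z a).1 ∈ K ∧ (z a).2 ∈ G h ∧ (z a).2 ∈ D) → ∀ η > 0, ∃ ρ > 0, ∀ d : Sym2 W → ℝ,
      (∀ a b, T.Adj a b → |d s(a,b) - dd (z a) (z b)| ≤ ρ) →
      ∃ y : W → ℝ × ℝ, y r = z r ∧ (∀ v, (y v).1 ∈ K ∧ (y v).2 ∈ D ∧ |(y v).1 - (z v).1| ≤ η ∧
        |(y v).2 - (z v).2| ≤ η) ∧ ∀ a b, T.Adj a b → dd (y a) (y b) = d s(a,b) := by
  intro n
  induction n with
  | zero =>
    intro W _ T hc hT r
    exact ((Fintype.card_eq_zero_iff.mp hc).false r).elim
  | succ n ih =>
    intro W _ T hc hT r z hz hzm η hη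
    classical
    by_cases hnt : Nontrivial W
    · obtain ⟨u, v, huv, hu, hv⟩ := hT.exists_ne_and_degree_eq_one
      -- a leaf different from the root
      obtain ⟨l, hlr, hl⟩ : ∃ l, l ≠ r ∧ T.degree l = 1 := by
        by_cases h1 : u = r
        · exact ⟨v, fun h2 => huv (h1.trans h2.symm), hv⟩
        · exact ⟨u, h1, hu⟩
      obtain ⟨σ, hσ, hσu⟩ := SimpleGraph.degree_eq_one_iff_existsUnique_adj.mp hl
      have hσl : σ ≠ l := hσ.ne'
      have hT' : (T.induce {l}ᶜ).IsTree :=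
        ⟨hT.connected.induce_compl_singleton_of_degree_eq_one hl, hT.isAcyclic.induce _⟩
      have hcard : Fintype.card ↑({l}ᶜ : Set W) = n := by
        rw [Fintype.card_compl_set, hc]
        simp
      obtain ⟨ρ1, hρ1, hedge⟩ := edge hK he0 hh0 hsep hee heh hhh hh4 hV hVD
        (hz σ l hσl).1 (hz σ l hσl).2 (hzm l).1 (hzm l).2.1 η hη
      obtain ⟨ρ2, hρ2, hrest⟩ := ih ↑({l}ᶜ : Set W) (T.induce {l}ᶜ) hcard hT'
        ⟨r, by simpa using hlr.symm⟩ (fun a => z a.1)
        (fun a b hab => hz a.1 b.1 (fun h => hab (Subtype.ext h))) (fun a => hzm a.1)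
        (min η ρ1) (lt_min hη hρ1)
      refine ⟨min ρ1 ρ2, lt_min hρ1 hρ2, ?_⟩
      intro d hd
      obtain ⟨y, hyr, hy1, hy2⟩ := hrest (fun s => d (s.map Subtype.val)) (by
        intro a b hab
        have h1 : T.Adj a.1 b.1 := hab
        have h2 := hd a.1 b.1 h1
        exact h2.trans (min_le_right _ _))
      have hσm : σ ∈ ({l}ᶜ : Set W) := by simpa using hσl
      obtain ⟨hyσ1, hyσ2, hyσ3, hyσ4⟩ := hy1 ⟨σ, hσm⟩
      have hdσ := (hd σ l hσ.symm).trans (min_le_left _ _)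
      obtain ⟨x', hx', t', ht', hxp, htq, hdist⟩ := hedge (y ⟨σ, hσm⟩).1 (y ⟨σ, hσm⟩).2 (d s(σ, l))
        (hyσ3.trans (min_le_right _ _)) (hyσ4.trans (min_le_right _ _)) hdσ
      let y' : W → ℝ × ℝ := fun v => if hv : v = l then (x', t') else y ⟨v, by simpa using hv⟩
      have hy'l : y' l = (x', t') := by simp [y']
      have hy'n : ∀ v (hv : v ≠ l), y' v = y ⟨v, by simpa using hv⟩ := by
        intro v hv
        simp only [y']
        rw [dif_neg hv]
      refine ⟨y', ?_, ?_, ?_⟩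
      · rw [hy'n r hlr.symm]
        exact hyr
      · intro v
        by_cases hv : v = l
        · subst hv
          rw [hy'l]
          exact ⟨hx', ht', hxp, htq⟩
        · rw [hy'n v hv]
          obtain ⟨h1, h2, h3, h4⟩ := hy1 ⟨v, by simpa using hv⟩
          exact ⟨h1, h2, h3.trans (min_le_left _ _), h4.trans (min_le_left _ _)⟩
      · have hkey : dd (y' σ) (y' l) = d s(σ, l) := by
          rw [hy'l, hy'n σ hσl]
          exact hdist
        intro a b hab
        by_cases ha : a = l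
        · subst ha
          have hb : b = σ := hσu b hab
          subst hb
          rw [dd_comm, hkey, Sym2.eq_swap]
        · by_cases hb : b = l
          · subst hb
            have ha' : a = σ := hσu a hab.symm
            subst ha'
            exact hkey
          · rw [hy'n a ha, hy'n b hb]
            exact hy2 ⟨a, by simpa using ha⟩ ⟨b, by simpa using hb⟩ hab
    · rw [not_nontrivial_iff_subsingleton] at hnt
      refine ⟨1, one_pos, fun d _ => ⟨z, rfl, ?_, ?_⟩⟩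
      · intro v
        refine ⟨(hzm v).1, (hzm v).2.2, ?_, ?_⟩ <;> simp [hη.le]
      · intro a b hab
        exact absurd (Subsingleton.elim a b) hab.ne

/-- **Q1 (affirmative answer).** For every Cantor set `K ⊆ ℝ` there is one Cantor set `K' ⊆ ℝ` such
that `Δ^T(K × K')` has nonempty interior for every finite tree `T`; moreover for every finite tree
and every root vertex there is a point `x ∈ K × K'` such that the pinned tree distance set at `x`
has nonempty interior. -/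
theorem result (K : Set ℝ) (hK : IsCantorSet K) :
    ∃ K' : Set ℝ, IsCantorSet K' ∧
      ∀ (V : Type) [Fintype V] (T : SimpleGraph V), T.IsTree →
        (interior (treeDist T (planeProd K K'))).Nonempty ∧
        ∀ r : V, ∃ x ∈ planeProd K K', (interior (treeDistPinned T r x (planeProd K K'))).Nonempty := by
  obtain ⟨hKne, hKc, -, hKp⟩ := hK
  have hKp' : Preperfect K := hKp
  obtain ⟨e, h, he0, hh0, hsep, hee, heh, hhh, hh4⟩ := seqs hKc hKp'
  obtain ⟨Vc, D, hVc, hDp, hVD⟩ := exists_countable_union_perfect_of_isClosed (K0_closed h)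
  have hDsub : D ⊆ K0 h := by rw [hVD]; exact subset_union_right
  have hGinf : (G h ∩ D).Infinite := by
    intro hfin
    apply G_not_countable h hh4
    apply (hVc.union hfin.countable).mono
    intro x hx
    have hx2 := G_sub_K0 h hh0 hx
    rw [hVD] at hx2
    rcases hx2 with h1 | h1
    · exact Or.inl h1
    · exact Or.inr ⟨hx, h1⟩
  have hKinf : K.Infinite := by
    obtain ⟨x, hx⟩ := hKne
    intro hfin
    have h1 : AccPt x (𝓟 K) := hKp x hx
    have h2 : (K \ {x}).Finite := hfin.subset sdiff_subset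
    have h3 : IsClosed (K \ {x}) := h2.isClosed
    have h4 := (preperfect_iff_nhds.mp hKp') x hx (K \ {x})ᶜ
      (h3.isOpen_compl.mem_nhds (by simp))
    obtain ⟨y, ⟨hy1, hy2⟩, hy3⟩ := h4
    exact hy1 ⟨hy2, hy3⟩
  have hpin : ∀ (V : Type) [Fintype V] (T : SimpleGraph V), T.IsTree →
        ∀ r : V, ∃ x ∈ planeProd K D, (interior (treeDistPinned T r x (planeProd K D))).Nonempty := by
    intro V _ T hT r
    classical
    -- base points
    obtain ⟨f1, hf1⟩ := hKinf.exists_subset_card_eq (Fintype.card V)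
    obtain ⟨f2, hf2⟩ := hGinf.exists_subset_card_eq (Fintype.card V)
    have e1 : Nonempty (V ≃ f1) := Fintype.card_eq.mp (by rw [Fintype.card_coe, hf1.2])
    have e2 : Nonempty (V ≃ f2) := Fintype.card_eq.mp (by rw [Fintype.card_coe, hf2.2])
    obtain ⟨e1⟩ := e1
    obtain ⟨e2⟩ := e2
    let z : V → ℝ × ℝ := fun v => ((e1 v : ℝ), (e2 v : ℝ))
    have hz : ∀ a b, a ≠ b → (z a).1 ≠ (z b).1 ∧ (z a).2 ≠ (z b).2 := by
      intro a b hab
      refine ⟨fun h1 => hab (e1.injective (Subtype.ext h1)),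
        fun h1 => hab (e2.injective (Subtype.ext h1))⟩
    have hzm : ∀ a, (z a).1 ∈ K ∧ (z a).2 ∈ G h ∧ (z a).2 ∈ D := by
      intro a
      refine ⟨hf1.1 (e1 a).2, (hf2.1 (e2 a).2).1, (hf2.1 (e2 a).2).2⟩
    -- choose η
    have hη : ∃ η > 0, ∀ a b : V, a ≠ b → 2 * η < |(z a).1 - (z b).1| := by
      have h1 : ∀ᶠ η : ℝ in 𝓝[>] 0, ∀ p : V × V, p.1 ≠ p.2 → 2 * η < |(z p.1).1 - (z p.2).1| := by
        rw [Filter.eventually_all]
        intro p
        by_cases hp : p.1 = p.2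
        · exact Filter.Eventually.of_forall fun _ h => absurd hp h
        · have h2 : 0 < |(z p.1).1 - (z p.2).1| := abs_pos.mpr (sub_ne_zero.mpr (hz _ _ hp).1)
          have h3 : ∀ᶠ η : ℝ in 𝓝[>] 0, η < |(z p.1).1 - (z p.2).1| / 2 :=
            nhdsWithin_le_nhds (Iio_mem_nhds (by positivity))
          filter_upwards [h3] with η hη _
          linarith
      obtain ⟨η, h2, h3⟩ := (h1.and self_mem_nhdsWithin).exists
      exact ⟨η, h3, fun a b hab => h2 (a, b) hab⟩
    obtain ⟨η, hη0, hη⟩ := hη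
    obtain ⟨ρ, hρ, hmain⟩ := tree_step hKc he0 hh0 hsep hee heh hhh hh4 hVc hVD (Fintype.card V) V T
      rfl hT r z hz hzm η hη0
    refine ⟨!₂[(z r).1, (z r).2], ⟨by simpa using (hzm r).1, by simpa using (hzm r).2.2⟩, ?_⟩
    -- the open box
    let d0 : T.edgeSet → ℝ := fun s => Sym2.lift ⟨fun a b => dd (z a) (z b), fun a b => dd_comm _ _⟩ s.1
    have hopen : IsOpen (Set.pi univ (fun s : T.edgeSet => Metric.ball (d0 s) ρ)) :=
      isOpen_set_pi Set.finite_univ (fun _ _ => Metric.isOpen_ball)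
    refine ⟨d0, mem_interior.mpr ⟨_, ?_, hopen, fun s _ => Metric.mem_ball_self hρ⟩⟩
    intro d hd
    obtain ⟨y, hyr, hy1, hy2⟩ := hmain (fun s => if hs : s ∈ T.edgeSet then d ⟨s, hs⟩ else 0) (by
      intro a b hab
      have hs : s(a, b) ∈ T.edgeSet := T.mem_edgeSet.mpr hab
      rw [dif_pos hs]
      have h1 := hd ⟨s(a, b), hs⟩ (mem_univ _)
      rw [Metric.mem_ball, Real.dist_eq] at h1
      exact h1.le)
    refine ⟨fun v => !₂[(y v).1, (y v).2], ?_, ?_, ?_, ?_⟩
    · change !₂[(y r).1, (y r).2] = !₂[(z r).1, (z r).2]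
      rw [hyr]
    · intro a b hab
      by_contra hne
      have h1 : (y a).1 = (y b).1 := by
        have := congrArg (fun w : EuclideanSpace ℝ (Fin 2) => w 0) hab
        simpa using this
      have h2 := (hy1 a).2.2.1
      have h3 := (hy1 b).2.2.1
      have h4 := hη a b hne
      have h5 : |(z a).1 - (z b).1| ≤ |(z a).1 - (y a).1| + |(y a).1 - (z b).1| := abs_sub_le _ _ _
      rw [abs_sub_comm (z a).1 (y a).1, h1] at h5
      rw [h1] at h2
      linarith
    · intro v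
      exact ⟨by simpa using (hy1 v).1, by simpa using (hy1 v).2.1⟩
    · intro a b hab
      have h1 := hy2 a b hab
      have hs : s(a, b) ∈ T.edgeSet := T.mem_edgeSet.mpr hab
      rw [dif_pos hs] at h1
      rw [← h1, EuclideanSpace.dist_eq, Fin.sum_univ_two]
      unfold dd
      simp only [Real.dist_eq, sq_abs]
      congr 1
      simp
      ring
  refine ⟨D, ⟨?_, ?_, ?_, hDp.acc⟩, ?_⟩
  · obtain ⟨x, hx⟩ := hGinf.nonempty
    exact ⟨x, hx.2⟩
  · exact isCompact_Icc.of_isClosed_subset hDp.closed (fun x hx => (hDsub hx).1)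
  · exact fun t ht => K0_td h hh0 t (ht.trans hDsub)
  · intro V _ T hT
    refine ⟨?_, hpin V T hT⟩
    obtain ⟨r⟩ := hT.connected.nonempty
    obtain ⟨x, hx, hne⟩ := hpin V T hT r
    refine hne.mono (interior_mono ?_)
    rintro d ⟨y, -, hy⟩
    exact ⟨y, hy⟩

end Pool.Agent.X173.CPSinglePartner
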