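import Mathlib

/-!
# A Heisenberg group with finite double centralizers that is not σ-discrete in its
semi-Zariski topology

`Heis` is the group `W × W* × F₂` with `W = F₂^(ℕ)`, `W* = F₂^ℕ` and multiplication
`(a, φ, z)(b, ψ, w) = (a + b, φ + ψ, z + w + ψ(a))`.
-/

set_option autoImplicit false

namespace Pool.Agent.X173.Heis

open Set TopologicalSpace

/-- The semi-Zariski topology of a semigroup `S`: it is generated by the sets
`{x | a x b ≠ c}` and `{x | a x b ≠ c x d}` with `a, b, c, d` in `S¹ = WithOne S`, the semigroup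
with an external identity adjoined. -/
def semiZariski (S : Type*) [Semigroup S] : TopologicalSpace S :=
  generateFrom
    ({U | ∃ a b c : WithOne S, U = {x : S | a * (x : WithOne S) * b ≠ c}} ∪
     {U | ∃ a b c d : WithOne S, U = {x : S | a * (x : WithOne S) * b ≠ c * (x : WithOne S) * d}})

/-- `S` has finite double centralizers. -/
def FiniteDoubleCentralizers (S : Type*) [Semigroup S] : Prop :=
  ∀ F : Set S, F.Finite → (Set.centralizer (Set.centralizer F)).Finite

/-- The topology `t` on `S` is σ-discrete on the set `A`: `A` is the union of countably many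
subsets each of which is discrete in the topology induced by `t`. -/
def SigmaDiscreteOn {S : Type*} (t : TopologicalSpace S) (A : Set S) : Prop :=
  ∃ D : ℕ → Set S, (⋃ n, D n) = A ∧ ∀ n, @DiscreteTopology (D n) (t.induced Subtype.val)

/-- the duality pairing -/
noncomputable def pr : (ℕ → ZMod 2) ≃ₗ[ZMod 2] ((ℕ →₀ ZMod 2) →ₗ[ZMod 2] ZMod 2) :=
  Finsupp.llift (ZMod 2) (ZMod 2) (ZMod 2) ℕ

theorem pr_single (φ : ℕ → ZMod 2) (i : ℕ) : pr φ (Finsupp.single i 1) = φ i := by
  simp [pr]

theorem pr_apply (φ : ℕ → ZMod 2) (a : ℕ →₀ ZMod 2) : pr φ a = ∑ i ∈ a.support, a i * φ i := by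
  simp [pr, Finsupp.sum]

theorem pr_pi_single (a : ℕ →₀ ZMod 2) (i : ℕ) : pr (Pi.single i 1) a = a i := by
  rw [pr_apply]
  by_cases h : i ∈ a.support
  · rw [Finset.sum_eq_single i]
    · simp
    · intro j _ hj
      simp [Pi.single_eq_of_ne hj]
    · intro h'
      exact absurd h h'
  · rw [Finset.sum_eq_zero]
    · simpa using (Finsupp.notMem_support_iff.1 h).symm
    · intro j hj
      have : j ≠ i := fun h' => h (h' ▸ hj)
      simp [Pi.single_eq_of_ne this]

/-- the Heisenberg group -/
@[ext] structure Heis where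
  a : ℕ →₀ ZMod 2
  b : ℕ → ZMod 2
  c : ZMod 2

noncomputable instance : Mul Heis := ⟨fun x y => ⟨x.a + y.a, x.b + y.b, x.c + y.c + pr y.b x.a⟩⟩
noncomputable instance : One Heis := ⟨⟨0, 0, 0⟩⟩
noncomputable instance : Inv Heis := ⟨fun x => ⟨-x.a, -x.b, -x.c + pr x.b x.a⟩⟩

theorem mul_a (x y : Heis) : (x * y).a = x.a + y.a := rfl
theorem mul_b (x y : Heis) : (x * y).b = x.b + y.b := rfl
theorem mul_c (x y : Heis) : (x * y).c = x.c + y.c + pr y.b x.a := rfl
theorem one_a : (1 : Heis).a = 0 := rfl
theorem one_b : (1 : Heis).b = 0 := rfl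
theorem one_c : (1 : Heis).c = 0 := rfl
theorem inv_a (x : Heis) : (x⁻¹).a = -x.a := rfl
theorem inv_b (x : Heis) : (x⁻¹).b = -x.b := rfl
theorem inv_c (x : Heis) : (x⁻¹).c = -x.c + pr x.b x.a := rfl

noncomputable instance : Group Heis :=
  Group.ofLeftAxioms
    (by
      intro x y z
      ext
      · simp [mul_a, add_assoc]
      · simp [mul_b, add_assoc]
      · simp only [mul_a, mul_b, mul_c, map_add, LinearMap.add_apply]
        ring)
    (by
      intro x
      ext
      · simp [mul_a, one_a]
      · simp [mul_b, one_b]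
      · simp [mul_c, one_a, one_c])
    (by
      intro x
      refine Heis.ext (neg_add_cancel _) (neg_add_cancel _) ?_
      simp only [mul_c, inv_a, inv_c, one_c, map_neg]
      ring)

/-- the symplectic space -/
abbrev V := (ℕ →₀ ZMod 2) × (ℕ → ZMod 2)

/-- the symplectic form, as a functional -/
noncomputable def B (v : V) : V →ₗ[ZMod 2] ZMod 2 where
  toFun w := pr w.2 v.1 - pr v.2 w.1
  map_add' w w' := by
    simp only [Prod.fst_add, Prod.snd_add, map_add, LinearMap.add_apply]
    ring
  map_smul' c w := by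
    simp only [Prod.smul_fst, Prod.smul_snd, map_smul, LinearMap.smul_apply, smul_eq_mul,
      RingHom.id_apply]
    ring

/-- the symplectic form -/
noncomputable def Bl : V →ₗ[ZMod 2] (V →ₗ[ZMod 2] ZMod 2) where
  toFun := B
  map_add' v v' := by
    ext w <;> simp [B] <;> ring
  map_smul' c v := by
    ext w <;> simp [B]

theorem Bl_apply (v w : V) : Bl v w = pr w.2 v.1 - pr v.2 w.1 := rfl

theorem Bl_injective : Function.Injective Bl := by
  rw [injective_iff_map_eq_zero]
  intro v hv
  ext i
  · have := LinearMap.congr_fun hv ((0 : ℕ →₀ ZMod 2), Pi.single i (1 : ZMod 2))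
    rw [Bl_apply] at this
    simpa [pr_pi_single] using this
  · have := LinearMap.congr_fun hv (Finsupp.single i (1 : ZMod 2), (0 : ℕ → ZMod 2))
    rw [Bl_apply] at this
    simpa [pr_single] using this

/-- the projection to the symplectic space -/
def vec (x : Heis) : V := (x.a, x.b)

theorem comm_iff (x y : Heis) : x * y = y * x ↔ Bl (vec x) (vec y) = 0 := by
  rw [Bl_apply, sub_eq_zero]
  constructor
  · intro h
    have := congrArg Heis.c h
    simp only [mul_c] at this
    have h2 : x.c + y.c + pr y.b x.a - (x.c + y.c) = y.c + x.c + pr x.b y.a - (x.c + y.c) := by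
      rw [this]
    simpa [vec, add_comm y.c x.c] using h2
  · intro h
    ext
    · simp [mul_a, add_comm]
    · simp [mul_b, add_comm]
    · simp only [mul_c]
      have h' : pr y.b x.a = pr x.b y.a := h
      rw [h']
      ring

theorem mem_span_of_mem_cc {F : Set Heis} (hF : F.Finite) {x : Heis}
    (hx : x ∈ Set.centralizer (Set.centralizer F)) :
    vec x ∈ Submodule.span (ZMod 2) (vec '' F) := by
  have : Finite F := hF
  have h1 : ⨅ f : F, LinearMap.ker (Bl (vec f.1)) ≤ LinearMap.ker (Bl (vec x)) := by
    intro w hw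
    rw [Submodule.mem_iInf] at hw
    have h2 : (⟨w.1, w.2, 0⟩ : Heis) ∈ Set.centralizer F := by
      rw [Set.mem_centralizer_iff]
      intro m hm
      rw [comm_iff]
      exact hw ⟨m, hm⟩
    rw [Set.mem_centralizer_iff] at hx
    have h3 := hx _ h2
    have h4 := (comm_iff x _).1 h3.symm
    exact h4
  have h2 := mem_span_of_iInf_ker_le_ker (L := fun f : F => Bl (vec f.1)) h1
  have h3 : Bl (vec x) ∈ Submodule.map Bl (Submodule.span (ZMod 2) (vec '' F)) := by
    rw [Submodule.map_span]
    convert h2 using 2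
    ext g
    constructor
    · rintro ⟨_, ⟨f, hf, rfl⟩, rfl⟩
      exact ⟨⟨f, hf⟩, rfl⟩
    · rintro ⟨f, rfl⟩
      exact ⟨_, ⟨f.1, f.2, rfl⟩, rfl⟩
  obtain ⟨v, hv, hvx⟩ := h3
  rwa [← Bl_injective hvx]

theorem vec_c_injective : Function.Injective (fun x : Heis => (vec x, x.c)) := by
  intro x y h
  simp only [vec, Prod.mk.injEq] at h
  ext1
  · exact h.1.1
  · exact h.1.2
  · exact h.2

theorem fdc : FiniteDoubleCentralizers Heis := by
  intro F hF
  have h1 : Set.centralizer (Set.centralizer F) ⊆ (fun x : Heis => (vec x, x.c)) ⁻¹'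
      ((Submodule.span (ZMod 2) (vec '' F) : Set V) ×ˢ (univ : Set (ZMod 2))) := by
    intro x hx
    exact ⟨mem_span_of_mem_cc hF hx, mem_univ _⟩
  refine Set.Finite.subset (Set.Finite.preimage vec_c_injective.injOn (Set.Finite.prod ?_ ?_)) h1
  · have : Module.Finite (ZMod 2) (Submodule.span (ZMod 2) (vec '' F)) :=
      Module.Finite.span_of_finite _ (hF.image _)
    have : Finite (Submodule.span (ZMod 2) (vec '' F)) := Module.finite_of_finite (ZMod 2)
    exact Set.toFinite _
  · exact Set.toFinite _

theorem cc_single (x : Heis) : (Set.centralizer (Set.centralizer {x})).ncard ≤ 4 := by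
  classical
  have h1 : Set.centralizer (Set.centralizer {x}) ⊆ (fun y : Heis => (vec y, y.c)) ⁻¹'
      (({0, vec x} : Set V) ×ˢ (univ : Set (ZMod 2))) := by
    intro y hy
    refine ⟨?_, mem_univ _⟩
    have := mem_span_of_mem_cc (Set.finite_singleton x) hy
    rw [Set.image_singleton, Submodule.mem_span_singleton] at this
    obtain ⟨c, hc⟩ := this
    have h2 : ∀ c : ZMod 2, c = 0 ∨ c = 1 := by decide
    rcases h2 c with rfl | rfl
    · rw [zero_smul] at hc
      left
      exact hc.symm
    · rw [one_smul] at hc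
      right
      exact hc.symm
  have h0 : (({0, vec x} : Set V) ×ˢ (univ : Set (ZMod 2))).Finite :=
    ((Set.finite_singleton _).insert _).prod (Set.toFinite _)
  calc _ ≤ ((fun y : Heis => (vec y, y.c)) ⁻¹'
      (({0, vec x} : Set V) ×ˢ (univ : Set (ZMod 2)))).ncard :=
        Set.ncard_le_ncard h1 (h0.preimage vec_c_injective.injOn)
    _ = ((fun y : Heis => (vec y, y.c)) '' ((fun y : Heis => (vec y, y.c)) ⁻¹'
      (({0, vec x} : Set V) ×ˢ (univ : Set (ZMod 2))))).ncard :=
        (Set.ncard_image_of_injective _ vec_c_injective).symm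
    _ ≤ (({0, vec x} : Set V) ×ˢ (univ : Set (ZMod 2))).ncard :=
        Set.ncard_le_ncard (Set.image_preimage_subset _ _) h0
    _ ≤ 2 * 2 := by
        rw [Set.ncard_prod]
        refine Nat.mul_le_mul ?_ ?_
        · exact (Set.ncard_insert_le _ _).trans (by rw [Set.ncard_singleton])
        · rw [Set.ncard_univ, Nat.card_zmod]

/-! ### The topology -/

/-- the embedding of the Cantor space -/
def emb (φ : ℕ → ZMod 2) : Heis := ⟨0, φ, 0⟩

theorem emb_injective : Function.Injective emb := fun _ _ h => congrArg Heis.b h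

theorem lift_eq (a b : WithOne Heis) (x : Heis) :
    a * (x : WithOne Heis) * b =
      ((WithOne.lift (MulHom.id Heis) a * x * WithOne.lift (MulHom.id Heis) b : Heis) :
        WithOne Heis) := by
  induction a using WithOne.recOneCoe with
  | one =>
    induction b using WithOne.recOneCoe with
    | one => simp
    | coe b => simp
  | coe a =>
    induction b using WithOne.recOneCoe with
    | one => simp
    | coe b => simp

theorem continuous_pr (a : ℕ →₀ ZMod 2) : Continuous fun φ : ℕ → ZMod 2 => pr φ a := by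
  simp only [pr_apply]
  fun_prop

theorem isClosed_aux (A B C D : Heis) :
    IsClosed {φ : ℕ → ZMod 2 | A * emb φ * B = C * emb φ * D} := by
  have h : {φ : ℕ → ZMod 2 | A * emb φ * B = C * emb φ * D} =
      {φ | A.a + 0 + B.a = C.a + 0 + D.a} ∩ {φ | A.b + φ + B.b = C.b + φ + D.b} ∩
      {φ | A.c + 0 + pr φ A.a + B.c + pr B.b (A.a + 0) =
        C.c + 0 + pr φ C.a + D.c + pr D.b (C.a + 0)} := by
    ext φ
    simp only [mem_inter_iff, mem_ofPred_eq, Heis.ext_iff]
    exact and_assoc.symm
  rw [h]
  refine IsClosed.inter (IsClosed.inter ?_ ?_) ?_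
  · exact isClosed_const
  · exact isClosed_eq (by fun_prop) (by fun_prop)
  · have := continuous_pr A.a
    have := continuous_pr C.a
    exact isClosed_eq (by fun_prop) (by fun_prop)

theorem isClosed_aux' (A B C : Heis) : IsClosed {φ : ℕ → ZMod 2 | A * emb φ * B = C} := by
  apply Set.Subsingleton.isClosed
  intro φ hφ ψ hψ
  apply emb_injective
  have : A * emb φ * B = A * emb ψ * B := Eq.trans hφ (Eq.symm hψ)
  exact mul_left_cancel (mul_right_cancel this)

theorem continuous_emb : @Continuous _ _ _ (semiZariski Heis) emb := by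
  rw [semiZariski, continuous_generateFrom_iff]
  rintro U (⟨a, b, c, rfl⟩ | ⟨a, b, c, d, rfl⟩)
  · rw [← isClosed_compl_iff]
    induction c using WithOne.recOneCoe with
    | one =>
      convert isClosed_empty
      ext φ
      simp only [mem_compl_iff, mem_preimage, mem_ofPred_eq, not_not, mem_empty_iff_false, iff_false]
      rw [lift_eq]
      exact WithOne.coe_ne_one
    | coe c =>
      convert isClosed_aux' (WithOne.lift (MulHom.id Heis) a) (WithOne.lift (MulHom.id Heis) b) c
        using 1
      ext φ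
      simp only [mem_compl_iff, mem_preimage, mem_ofPred_eq, not_not]
      rw [lift_eq, WithOne.coe_inj]
  · rw [← isClosed_compl_iff]
    convert isClosed_aux (WithOne.lift (MulHom.id Heis) a) (WithOne.lift (MulHom.id Heis) b)
      (WithOne.lift (MulHom.id Heis) c) (WithOne.lift (MulHom.id Heis) d) using 1
    ext φ
    simp only [mem_compl_iff, mem_preimage, mem_ofPred_eq, not_not]
    rw [lift_eq, lift_eq, WithOne.coe_inj]

theorem mk_cantor : Cardinal.mk (ℕ → ZMod 2) = Cardinal.continuum := by
  rw [← Cardinal.power_def, Cardinal.mk_nat]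
  have : Cardinal.mk (ZMod 2) = 2 := by
    rw [Cardinal.mk_fintype, ZMod.card]
    rfl
  rw [this]
  exact Cardinal.two_power_aleph0

theorem not_sigmaDiscrete : ¬ SigmaDiscreteOn (semiZariski Heis) univ := by
  rintro ⟨D, hD, hd⟩
  have h1 : ∀ n, (emb ⁻¹' (D n)).Countable := by
    intro n
    have hdn : DiscreteTopology (emb ⁻¹' (D n)) := by
      rw [discreteTopology_subtype_iff'] 
      intro φ hφ
      have h2 := hd n
      let _ := semiZariski Heis
      rw [discreteTopology_subtype_iff'] at h2
      obtain ⟨U, hU, hUD⟩ := h2 (emb φ) hφ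
      refine ⟨emb ⁻¹' U, hU.preimage continuous_emb, ?_⟩
      ext ψ
      constructor
      · rintro ⟨h3, h4⟩
        have : emb ψ ∈ U ∩ D n := ⟨h3, h4⟩
        rw [hUD] at this
        exact emb_injective this
      · rintro rfl
        have : emb ψ ∈ U ∩ D n := by rw [hUD]; rfl
        exact this
    have : Countable (emb ⁻¹' (D n)) := by
      exact TopologicalSpace.separableSpace_iff_countable.1 inferInstance
    exact Set.countable_coe_iff.1 this
  have h2 : (univ : Set (ℕ → ZMod 2)).Countable := by
    have : (univ : Set (ℕ → ZMod 2)) = ⋃ n, emb ⁻¹' (D n) := by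
      rw [← Set.preimage_iUnion, hD, Set.preimage_univ]
    rw [this]
    exact Set.countable_iUnion h1
  rw [Set.countable_univ_iff] at h2
  have h3 : Cardinal.mk (ℕ → ZMod 2) ≤ Cardinal.aleph0 := Cardinal.mk_le_aleph0_iff.2 h2
  rw [mk_cantor] at h3
  exact absurd h3 (not_le.2 Cardinal.aleph0_lt_continuum)

end Pool.Agent.X173.Heis
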