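import Mathlib

/-!
# A Liouville criterion for actions with locally finite transitivity

If `G` is a countable group acting on a countable set `Y` such that every finite subset of `Y` can
be equalized by averaging over a finite subset of `G` (on each orbit), then there is a measure
`μ` on `G`, positive on each element of `G`, such that every bounded `μ`-harmonic function on `Y` is
constant on orbits.
-/

set_option autoImplicit false

namespace Pool.Agent.X173.Liou

open Finset Filter Topology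
open scoped Pointwise BigOperators

/-- the transition probability `p_μ(y, z) = ∑_{g, g y = z} μ(g)` -/
noncomputable def kernel {G Y : Type*} [Group G] [MulAction G Y] (μ : G → ℝ) (y z : Y) : ℝ :=
  ∑' g : {g : G // g • y = z}, μ g

/-- `f` is `μ`-harmonic -/
def Harmonic {G Y : Type*} [Group G] [MulAction G Y] (μ : G → ℝ) (f : Y → ℝ) : Prop :=
  ∀ y : Y, f y = ∑' z : Y, f z * kernel μ y z

theorem harmonic_eq {G Y : Type*} [Group G] [MulAction G Y] {μ : G → ℝ} (h0 : ∀ g, 0 ≤ μ g)
    (hμ : Summable μ) {f : Y → ℝ} {M : ℝ} (hM : ∀ y, |f y| ≤ M) (hf : Harmonic μ f) (y : Y) :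
    f y = ∑' g : G, μ g * f (g • y) := by
  have hs : Summable fun g : G => μ g * f (g • y) := by
    refine Summable.of_norm_bounded (g := fun g => μ g * M) (hμ.mul_right M) fun g => ?_
    rw [Real.norm_eq_abs, abs_mul, abs_of_nonneg (h0 g)]
    exact mul_le_mul_of_nonneg_left (hM _) (h0 g)
  rw [hf y]
  let e := Equiv.sigmaFiberEquiv (fun g : G => g • y)
  have h1 : ∑' g : G, μ g * f (g • y) =
      ∑' p : (Σ z : Y, {g : G // g • y = z}), μ p.2 * f (p.2.1 • y) := by
    rw [← e.tsum_eq]
    rfl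
  have hs' : Summable fun p : (Σ z : Y, {g : G // g • y = z}) => μ p.2 * f (p.2.1 • y) :=
    (e.summable_iff (f := fun g : G => μ g * f (g • y))).2 hs
  rw [h1, hs'.tsum_sigma]
  refine tsum_congr fun z => ?_
  rw [kernel, ← tsum_mul_left]
  refine tsum_congr fun g => ?_
  rw [g.2, mul_comm]

variable {G Y : Type*} [Group G] [MulAction G Y]

section construction

variable [DecidableEq G] [DecidableEq Y] (gen : ℕ → G) (pt : ℕ → Y)
  (K : Finset Y → Finset G)

/-- number of steps -/
def steps (k : ℕ) : ℕ := k * 2 ^ k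

theorem steps_mono : Monotone steps := by
  intro a b h
  exact Nat.mul_le_mul h (Nat.pow_le_pow_right (by norm_num) h)

/-- the finite set to be equalized -/
def FF (S : Finset G) (j : ℕ) : Finset Y :=
  ((S ^ steps j) ×ˢ (range (j + 1))).image fun p => p.1 • pt p.2

/-- the finite sets of group elements -/
def SS : ℕ → Finset G
  | 0 => {1}
  | (j + 1) => SS j ∪ {gen j} ∪ K (FF pt (SS j) j)

/-- the equalizing sets -/
def KK (j : ℕ) : Finset G := K (FF pt (SS gen pt K j) j)

theorem SS_succ (j : ℕ) : SS gen pt K (j + 1) = SS gen pt K j ∪ {gen j} ∪ KK gen pt K j := rfl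

theorem SS_mono : Monotone (SS gen pt K) := by
  refine monotone_nat_of_le_succ fun j => ?_
  rw [SS_succ, Finset.union_assoc]
  exact Finset.subset_union_left

theorem one_mem_SS (j : ℕ) : 1 ∈ SS gen pt K j :=
  SS_mono gen pt K (Nat.zero_le j) (by simp [SS])

theorem gen_mem {j k : ℕ} (h : j < k) : gen j ∈ SS gen pt K k := by
  apply SS_mono gen pt K (Nat.succ_le_of_lt h)
  rw [SS_succ]
  simp

theorem KK_subset {j k : ℕ} (h : j < k) : KK gen pt K j ⊆ SS gen pt K k := by
  intro x hx
  apply SS_mono gen pt K (Nat.succ_le_of_lt h)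
  rw [SS_succ]
  exact Finset.mem_union_right _ hx

/-- the points that get equalized at stage `j` -/
theorem mem_FF {j k m i : ℕ} (hk : k ≤ j) (hm : m ≤ steps k) (hi : i ≤ k) {w : G}
    (hw : w ∈ SS gen pt K k ^ m) : w • pt i ∈ FF pt (SS gen pt K j) j := by
  rw [FF, Finset.mem_image]
  refine ⟨(w, i), ?_, rfl⟩
  rw [Finset.mem_product]
  refine ⟨?_, Finset.mem_range.2 (by omega)⟩
  exact Finset.pow_subset_pow (SS_mono gen pt K hk) (one_mem_SS gen pt K j)
    (hm.trans (steps_mono hk)) hw

/-- the weight of the deterministic jump -/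
noncomputable def eps (j : ℕ) : ℝ := 1 / ((j : ℝ) + 2)

theorem eps_pos (j : ℕ) : 0 < eps j := by
  unfold eps; positivity

theorem eps_lt_one (j : ℕ) : eps j < 1 := by
  unfold eps
  rw [div_lt_one (by positivity)]
  have : (0 : ℝ) ≤ j := Nat.cast_nonneg j
  linarith

theorem eps_anti {j k : ℕ} (h : k ≤ j) : eps j ≤ eps k := by
  unfold eps
  have : (k : ℝ) ≤ j := by exact_mod_cast h
  apply one_div_le_one_div_of_le (by positivity)
  linarith

/-- the `j`-th measure -/
noncomputable def muj (j : ℕ) (g : G) : ℝ :=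
  (1 - eps j) * (if g ∈ KK gen pt K j then ((KK gen pt K j).card : ℝ)⁻¹ else 0) +
    eps j * (if g = gen j then 1 else 0)

/-- the expectation for the `j`-th measure -/
noncomputable def Ej (j : ℕ) (h : G → ℝ) : ℝ :=
  (1 - eps j) * (((KK gen pt K j).card : ℝ)⁻¹ * ∑ g ∈ KK gen pt K j, h g) + eps j * h (gen j)

theorem hasSum_muj (j : ℕ) (h : G → ℝ) :
    HasSum (fun g => muj gen pt K j g * h g) (Ej gen pt K j h) := by
  have h1 : HasSum (fun g => (if g ∈ KK gen pt K j then ((KK gen pt K j).card : ℝ)⁻¹ else 0) * h g)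
      (((KK gen pt K j).card : ℝ)⁻¹ * ∑ g ∈ KK gen pt K j, h g) := by
    rw [Finset.mul_sum]
    have h0 : ∑ g ∈ KK gen pt K j, ((KK gen pt K j).card : ℝ)⁻¹ * h g = ∑ g ∈ KK gen pt K j,
        (if g ∈ KK gen pt K j then ((KK gen pt K j).card : ℝ)⁻¹ else 0) * h g := by
      refine Finset.sum_congr rfl fun g hg => ?_
      rw [if_pos hg]
    rw [h0]
    apply hasSum_sum_of_ne_finset_zero
    intro g hg
    simp [hg]
  have h2 : HasSum (fun g => (if g = gen j then (1 : ℝ) else 0) * h g) (h (gen j)) := by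
    have := hasSum_ite_eq (gen j) (h (gen j))
    convert this using 1
    ext g
    by_cases hg : g = gen j
    · simp [hg]
    · simp [hg]
  have h3 := (h1.mul_left (1 - eps j)).add (h2.mul_left (eps j))
  refine h3.congr_fun ?_ |> fun h => h
  intro g
  rw [muj]
  ring

theorem muj_nonneg (j : ℕ) (g : G) : 0 ≤ muj gen pt K j g := by
  have h1 := eps_pos j
  have h2 := eps_lt_one j
  have h3 : 0 ≤ 1 - eps j := by linarith
  unfold muj
  split_ifs <;> positivity

theorem Ej_one (hK : ∀ F, (K F).Nonempty) (j : ℕ) : Ej gen pt K j (fun _ => 1) = 1 := by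
  unfold Ej
  rw [Finset.sum_const, nsmul_eq_mul, mul_one, mul_one]
  have : ((KK gen pt K j).card : ℝ) ≠ 0 := by
    have := (hK (FF pt (SS gen pt K j) j)).card_pos
    exact_mod_cast this.ne'
  rw [inv_mul_cancel₀ this]
  ring

/-- the coefficients -/
noncomputable def cc (j : ℕ) : ℝ := (1 / 2) ^ (j + 1)

theorem cc_pos (j : ℕ) : 0 < cc j := by unfold cc; positivity

theorem hasSum_cc : HasSum cc 1 := by
  have h := (hasSum_geometric_two).mul_left (1 / 2 : ℝ)
  have h1 : (1 / 2 : ℝ) * 2 = 1 := by norm_num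
  rw [h1] at h
  have h2 : cc = fun i => (1 / 2 : ℝ) * (1 / 2) ^ i := by
    funext j
    unfold cc
    rw [pow_succ]
    ring
  rwa [h2]

theorem sum_cc (k : ℕ) : ∑ j ∈ range k, cc j = 1 - (1 / 2) ^ k := by
  induction k with
  | zero => simp
  | succ k ih =>
    rw [Finset.sum_range_succ, ih, cc, pow_succ]
    ring

/-- the measure -/
noncomputable def mu (g : G) : ℝ := ∑' j, cc j * muj gen pt K j g

variable (hK : ∀ F, (K F).Nonempty)

include hK in
theorem muj_le_one (j : ℕ) (g : G) : muj gen pt K j g ≤ 1 := by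
  have h1 := hasSum_muj gen pt K j (fun _ => 1)
  rw [Ej_one gen pt K hK] at h1
  have h2 := le_hasSum h1 g (fun g' _ => by
    rw [mul_one]
    exact muj_nonneg gen pt K j g')
  simpa using h2

include hK in
theorem summable_prod {h : G → ℝ} {M : ℝ} (hM : ∀ g, |h g| ≤ M) :
    Summable fun p : ℕ × G => cc p.1 * (muj gen pt K p.1 p.2 * h p.2) := by
  have h1 : Summable fun p : ℕ × G => cc p.1 * (muj gen pt K p.1 p.2 * 1) := by
    rw [summable_prod_of_nonneg]
    · refine ⟨fun j => ((hasSum_muj gen pt K j (fun _ => 1)).mul_left (cc j)).summable, ?_⟩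
      refine hasSum_cc.summable.congr fun j => ?_
      simp only
      rw [((hasSum_muj gen pt K j (fun _ => 1)).mul_left (cc j)).tsum_eq,
        Ej_one gen pt K hK, mul_one]
    · intro p
      have := muj_nonneg gen pt K p.1 p.2
      have := cc_pos p.1
      simp only [Pi.zero_apply]
      positivity
  refine Summable.of_norm_bounded (h1.mul_right M) fun p => ?_
  rw [Real.norm_eq_abs, abs_mul, abs_mul, abs_of_pos (cc_pos _),
    abs_of_nonneg (muj_nonneg gen pt K _ _), mul_one, mul_assoc]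
  exact mul_le_mul_of_nonneg_left
    (mul_le_mul_of_nonneg_left (hM _) (muj_nonneg gen pt K _ _)) (cc_pos _).le

include hK in
theorem hasSum_mu {h : G → ℝ} {M : ℝ} (hM : ∀ g, |h g| ≤ M) :
    HasSum (fun g => mu gen pt K g * h g) (∑' j, cc j * Ej gen pt K j h) := by
  have h1 := summable_prod gen pt K hK hM
  have h2 := (Equiv.prodComm G ℕ).summable_iff.2 h1
  have h3 : ∑' p : G × ℕ, cc p.2 * (muj gen pt K p.2 p.1 * h p.1) =
      ∑' j, cc j * Ej gen pt K j h := by
    have e1 : ∑' p : G × ℕ, cc p.2 * (muj gen pt K p.2 p.1 * h p.1) =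
      ∑' p : ℕ × G, cc p.1 * (muj gen pt K p.1 p.2 * h p.2) :=
      (Equiv.prodComm G ℕ).tsum_eq (fun p : ℕ × G => cc p.1 * (muj gen pt K p.1 p.2 * h p.2))
    rw [e1, h1.tsum_prod]
    refine tsum_congr fun j => ?_
    rw [← ((hasSum_muj gen pt K j h).mul_left (cc j)).tsum_eq]
  have h4 : HasSum (fun p : G × ℕ => cc p.2 * (muj gen pt K p.2 p.1 * h p.1))
      (∑' j, cc j * Ej gen pt K j h) := by
    rw [← h3]
    exact h2.hasSum
  refine (h4.prod_fiberwise (f := fun p : G × ℕ => cc p.2 * (muj gen pt K p.2 p.1 * h p.1))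
    (g := fun g => mu gen pt K g * h g) ?_)
  intro g
  have h5 : Summable fun j => cc j * muj gen pt K j g := by
    refine Summable.of_norm_bounded hasSum_cc.summable fun j => ?_
    rw [Real.norm_eq_abs, abs_mul, abs_of_pos (cc_pos _),
      abs_of_nonneg (muj_nonneg gen pt K _ _)]
    exact mul_le_of_le_one_right (cc_pos _).le (muj_le_one gen pt K hK j g)
  have h6 := h5.hasSum.mul_right (h g)
  simp only [mul_assoc] at h6
  exact h6

include hK in
theorem mu_hasSum_one : HasSum (mu gen pt K) 1 := by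
  have h1 := hasSum_mu gen pt K hK (h := fun _ => 1) (M := 1) (by simp)
  simp only [mul_one] at h1
  have h2 : ∑' j, cc j * Ej gen pt K j (fun _ => 1) = 1 := by
    refine (tsum_congr fun j => ?_).trans hasSum_cc.tsum_eq
    rw [Ej_one gen pt K hK, mul_one]
  rwa [h2] at h1

include hK in
theorem mu_pos (hgen : Function.Surjective gen) (g : G) : 0 < mu gen pt K g := by
  obtain ⟨j, rfl⟩ := hgen g
  have h5 : Summable fun i => cc i * muj gen pt K i (gen j) := by
    refine Summable.of_norm_bounded hasSum_cc.summable fun i => ?_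
    rw [Real.norm_eq_abs, abs_mul, abs_of_pos (cc_pos _),
      abs_of_nonneg (muj_nonneg gen pt K _ _)]
    exact mul_le_of_le_one_right (cc_pos _).le (muj_le_one gen pt K hK i _)
  refine h5.tsum_pos (fun i => mul_nonneg (cc_pos _).le (muj_nonneg gen pt K _ _)) j ?_
  refine mul_pos (cc_pos _) ?_
  have h1 := eps_pos j
  have h2 := eps_lt_one j
  have h3 : 0 < 1 - eps j := by linarith
  unfold muj
  rw [if_pos rfl]
  split_ifs
  · positivity
  · simpa using h1

/-- the equalization hypothesis on `K` -/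
def Equalizes (K : Finset Y → Finset G) : Prop :=
  ∀ F : Finset Y, ∀ u ∈ F, ∀ v ∈ F, (∃ g : G, g • u = v) → ∀ h : Y → ℝ,
    ∑ σ ∈ K F, h (σ • u) = ∑ σ ∈ K F, h (σ • v)

include hK in
theorem abs_Ej_sub_le (j : ℕ) (f : Y → ℝ) (u v : Y) (b : ℝ) 
    (h1 : ∀ g ∈ KK gen pt K j, |f (g • u) - f (g • v)| ≤ b)
    (h2 : |f (gen j • u) - f (gen j • v)| ≤ b) :
    |Ej gen pt K j (fun g => f (g • u)) - Ej gen pt K j (fun g => f (g • v))| ≤ b := by
  have hc : (0 : ℝ) < (KK gen pt K j).card := by
    exact_mod_cast (hK (FF pt (SS gen pt K j) j)).card_pos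
  have he1 := eps_pos j
  have he2 := eps_lt_one j
  have e : Ej gen pt K j (fun g => f (g • u)) - Ej gen pt K j (fun g => f (g • v)) =
      (1 - eps j) * (((KK gen pt K j).card : ℝ)⁻¹ *
        ∑ g ∈ KK gen pt K j, (f (g • u) - f (g • v))) +
      eps j * (f (gen j • u) - f (gen j • v)) := by
    unfold Ej
    rw [Finset.sum_sub_distrib]
    ring
  rw [e]
  have h3 : |((KK gen pt K j).card : ℝ)⁻¹ * ∑ g ∈ KK gen pt K j, (f (g • u) - f (g • v))| ≤ b := by
    rw [abs_mul, abs_of_pos (inv_pos.2 hc)]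
    have h4 : |∑ g ∈ KK gen pt K j, (f (g • u) - f (g • v))| ≤ (KK gen pt K j).card * b := by
      refine (Finset.abs_sum_le_sum_abs _ _).trans ?_
      refine (Finset.sum_le_sum h1).trans ?_
      rw [Finset.sum_const, nsmul_eq_mul]
    rw [inv_mul_le_iff₀ hc]
    exact h4
  calc _ ≤ |(1 - eps j) * (((KK gen pt K j).card : ℝ)⁻¹ *
        ∑ g ∈ KK gen pt K j, (f (g • u) - f (g • v)))| +
        |eps j * (f (gen j • u) - f (gen j • v))| := abs_add_le _ _
    _ ≤ (1 - eps j) * b + eps j * b := by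
      rw [abs_mul (1 - eps j), abs_mul (eps j), abs_of_pos he1, abs_of_nonneg (by linarith)]
      gcongr
    _ = b := by ring

theorem abs_Ej_sub_le' (hE : Equalizes K) (j : ℕ) (f : Y → ℝ) {M : ℝ} (hM : ∀ y, |f y| ≤ M)
    (u v : Y) (hu : u ∈ FF pt (SS gen pt K j) j) (hv : v ∈ FF pt (SS gen pt K j) j)
    (huv : ∃ g : G, g • u = v) :
    |Ej gen pt K j (fun g => f (g • u)) - Ej gen pt K j (fun g => f (g • v))| ≤
      eps j * (2 * M) := by
  have he1 := eps_pos j
  have h0 : ∑ g ∈ KK gen pt K j, f (g • u) = ∑ g ∈ KK gen pt K j, f (g • v) :=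
    hE _ u hu v hv huv f
  have e : Ej gen pt K j (fun g => f (g • u)) - Ej gen pt K j (fun g => f (g • v)) =
      eps j * (f (gen j • u) - f (gen j • v)) := by
    unfold Ej
    rw [h0]
    ring
  rw [e, abs_mul, abs_of_pos he1]
  gcongr
  calc _ ≤ |f (gen j • u)| + |f (gen j • v)| := abs_sub _ _
    _ ≤ 2 * M := by linarith [hM (gen j • u), hM (gen j • v)]

/-- the bound after `n` steps -/
noncomputable def bnd (k n : ℕ) (M : ℝ) : ℝ := (1 - (1 / 2) ^ k) ^ n * (2 * M) + 2 * M * eps k

include hK in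
theorem main_estimate (hE : Equalizes K) (f : Y → ℝ) {M : ℝ} (hM0 : 0 ≤ M)
    (hM : ∀ y, |f y| ≤ M)
    (hf : ∀ y, f y = ∑' j, cc j * Ej gen pt K j (fun g => f (g • y)))
    {k i i' : ℕ} (hi : i ≤ k) (hi' : i' ≤ k) (hii : ∃ g : G, g • pt i = pt i') (n : ℕ) :
    ∀ m, m + n ≤ steps k → ∀ w ∈ SS gen pt K k ^ m,
      |f (w • pt i) - f (w • pt i')| ≤ bnd k n M := by
  induction n with
  | zero =>
    intro m _ w _
    unfold bnd
    have h1 := eps_pos k
    have h2 : |f (w • pt i) - f (w • pt i')| ≤ 2 * M := by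
      calc _ ≤ |f (w • pt i)| + |f (w • pt i')| := abs_sub _ _
        _ ≤ 2 * M := by linarith [hM (w • pt i), hM (w • pt i')]
    have h3 : 0 ≤ 2 * M * eps k := by positivity
    linarith
  | succ n ih =>
    intro m hm w hw
    set u := w • pt i with hu
    set v := w • pt i' with hv
    have huv : ∃ g : G, g • u = v := by
      obtain ⟨g, hg⟩ := hii
      refine ⟨w * g * w⁻¹, ?_⟩
      rw [hu, hv, ← hg, ← mul_smul, ← mul_smul]
      congr 1
      group
    have hsum : ∀ y : Y, Summable fun j => cc j * Ej gen pt K j (fun g => f (g • y)) := by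
      intro y
      refine Summable.of_norm_bounded (hasSum_cc.summable.mul_right M) fun j => ?_
      rw [Real.norm_eq_abs, abs_mul, abs_of_pos (cc_pos _)]
      refine mul_le_mul_of_nonneg_left ?_ (cc_pos _).le
      have he1 := eps_pos j
      have he2 := eps_lt_one j
      have hc : (0 : ℝ) < (KK gen pt K j).card := by
        exact_mod_cast (hK (FF pt (SS gen pt K j) j)).card_pos
      unfold Ej
      have h3 : |((KK gen pt K j).card : ℝ)⁻¹ * ∑ g ∈ KK gen pt K j, f (g • y)| ≤ M := by
        rw [abs_mul, abs_of_pos (inv_pos.2 hc), inv_mul_le_iff₀ hc]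
        refine (Finset.abs_sum_le_sum_abs _ _).trans ?_
        refine (Finset.sum_le_sum fun g _ => hM (g • y)).trans ?_
        rw [Finset.sum_const, nsmul_eq_mul]
      refine (abs_add_le _ _).trans ?_
      rw [abs_mul (1 - eps j), abs_mul (eps j), abs_of_pos he1, abs_of_nonneg (by linarith)]
      have h4 := mul_le_mul_of_nonneg_left h3 (show (0 : ℝ) ≤ 1 - eps j by linarith)
      have h5 := mul_le_mul_of_nonneg_left (hM (gen j • y)) he1.le
      linarith
    set D : ℕ → ℝ := fun j => cc j *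
      (Ej gen pt K j (fun g => f (g • u)) - Ej gen pt K j (fun g => f (g • v))) with hD
    have hDs : Summable D := by
      have := (hsum u).sub (hsum v)
      refine this.congr fun j => ?_
      rw [hD]
      ring
    have e1 : f u - f v = ∑' j, D j := by
      rw [hf u, hf v, ← (hsum u).tsum_sub (hsum v)]
      refine tsum_congr fun j => ?_
      rw [hD]
      ring
    have e2 : ∑' j, D j = ∑ j ∈ range k, D j + ∑' j, D (j + k) := (hDs.sum_add_tsum_nat_add k).symm
    have h1 : |∑ j ∈ range k, D j| ≤ (1 - (1 / 2) ^ k) * bnd k n M := by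
      refine (Finset.abs_sum_le_sum_abs _ _).trans ?_
      rw [← sum_cc, Finset.sum_mul]
      refine Finset.sum_le_sum fun j hj => ?_
      rw [hD, abs_mul, abs_of_pos (cc_pos _)]
      refine mul_le_mul_of_nonneg_left ?_ (cc_pos _).le
      have hjk : j < k := Finset.mem_range.1 hj
      have hstep : ∀ g ∈ SS gen pt K k, |f (g • u) - f (g • v)| ≤ bnd k n M := by
        intro g hg
        rw [hu, hv, ← mul_smul, ← mul_smul]
        refine ih (m + 1) (by omega) (g * w) ?_
        rw [pow_succ']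
        exact Finset.mul_mem_mul hg hw
      exact abs_Ej_sub_le gen pt K hK j f u v _
        (fun g hg => hstep g (KK_subset gen pt K hjk hg)) (hstep _ (gen_mem gen pt K hjk))
    have h2 : |∑' j, D (j + k)| ≤ (1 / 2) ^ k * (eps k * (2 * M)) := by
      have hs2 : HasSum (fun j => cc (j + k)) ((1 / 2) ^ k) := by
        have h6 := hasSum_cc.summable.sum_add_tsum_nat_add k
        rw [hasSum_cc.tsum_eq, sum_cc] at h6
        have h7 : ∑' j, cc (j + k) = (1 / 2) ^ k := by linarith
        rw [← h7]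
        exact ((summable_nat_add_iff k).2 hasSum_cc.summable).hasSum
      have hs3 := hs2.mul_right (eps k * (2 * M))
      rw [← Real.norm_eq_abs]
      refine tsum_of_norm_bounded hs3 fun j => ?_
      rw [Real.norm_eq_abs, hD, abs_mul, abs_of_pos (cc_pos _)]
      refine mul_le_mul_of_nonneg_left ?_ (cc_pos _).le
      refine (abs_Ej_sub_le' gen pt K hE (j + k) f hM u v
        (mem_FF gen pt K (by omega) (by omega) hi hw)
        (mem_FF gen pt K (by omega) (by omega) hi' hw) huv).trans ?_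
      exact mul_le_mul_of_nonneg_right (eps_anti (by omega)) (by linarith)
    calc |f u - f v| = |∑ j ∈ range k, D j + ∑' j, D (j + k)| := by rw [e1, e2]
      _ ≤ |∑ j ∈ range k, D j| + |∑' j, D (j + k)| := abs_add_le _ _
      _ ≤ (1 - (1 / 2) ^ k) * bnd k n M + (1 / 2) ^ k * (eps k * (2 * M)) := add_le_add h1 h2
      _ = bnd k (n + 1) M := by
        unfold bnd
        rw [pow_succ]
        ring

theorem bnd_tendsto (M : ℝ) : Tendsto (fun k => bnd k (steps k) M) atTop (𝓝 0) := by
  have h1 : Tendsto (fun k : ℕ => (1 - (1 / 2 : ℝ) ^ k) ^ (steps k)) atTop (𝓝 0) := by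
    have h2 : Tendsto (fun k : ℕ => Real.exp (-(k : ℝ))) atTop (𝓝 0) :=
      Real.tendsto_exp_neg_atTop_nhds_zero.comp tendsto_natCast_atTop_atTop
    refine squeeze_zero (fun k => ?_) (fun k => ?_) h2
    · apply pow_nonneg
      have : (1 / 2 : ℝ) ^ k ≤ 1 := pow_le_one₀ (by norm_num) (by norm_num)
      linarith
    · have h3 : (1 - (1 / 2 : ℝ) ^ k) ≤ Real.exp (-(1 / 2 : ℝ) ^ k) := Real.one_sub_le_exp_neg _
      have h4 : 0 ≤ (1 - (1 / 2 : ℝ) ^ k) := by
        have : (1 / 2 : ℝ) ^ k ≤ 1 := pow_le_one₀ (by norm_num) (by norm_num)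
        linarith
      calc _ ≤ Real.exp (-(1 / 2 : ℝ) ^ k) ^ (steps k) := pow_le_pow_left₀ h4 h3 _
        _ = Real.exp (-(k : ℝ)) := by
          rw [← Real.exp_nat_mul]
          congr 1
          unfold steps
          push_cast
          rw [one_div, inv_pow]
          have : (2 : ℝ) ^ k ≠ 0 := by positivity
          field_simp
  have h5 : Tendsto (fun k : ℕ => eps k) atTop (𝓝 0) := by
    unfold eps
    exact tendsto_const_nhds.div_atTop (tendsto_natCast_atTop_atTop.atTop_add tendsto_const_nhds)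
  have h6 := (h1.mul_const (2 * M)).add (h5.const_mul (2 * M))
  simpa [bnd] using h6

include hK in
theorem constant (hE : Equalizes K) (hpt : Function.Surjective pt) (f : Y → ℝ) {M : ℝ}
    (hM : ∀ y, |f y| ≤ M)
    (hf : ∀ y, f y = ∑' j, cc j * Ej gen pt K j (fun g => f (g • y)))
    (g : G) (y : Y) : f (g • y) = f y := by
  obtain ⟨i, rfl⟩ := hpt y
  obtain ⟨i', hi'⟩ := hpt (g • pt i)
  have hM0 : 0 ≤ M := (abs_nonneg _).trans (hM (pt i))
  have h1 : ∀ k, max i i' ≤ k → |f (pt i) - f (pt i')| ≤ bnd k (steps k) M := by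
    intro k hk
    have := main_estimate gen pt K hK hE f hM0 hM hf (k := k) (i := i) (i' := i')
      ((le_max_left _ _).trans hk) ((le_max_right _ _).trans hk) ⟨g, hi'.symm⟩ (steps k) 0
      (by omega) 1 (by simp)
    simpa using this
  have h2 : |f (pt i) - f (pt i')| ≤ 0 := by
    refine ge_of_tendsto (bnd_tendsto M) ?_
    filter_upwards [eventually_ge_atTop (max i i')] with k hk using h1 k hk
  have h3 : f (pt i) - f (pt i') = 0 := abs_nonpos_iff.1 h2
  rw [← hi']
  linarith

end construction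

/-- **The criterion.** -/
theorem exists_measure [Countable G] [Countable Y] [Nonempty Y]
    (hH : ∀ F : Finset Y, ∃ K : Finset G, K.Nonempty ∧ ∀ u ∈ F, ∀ v ∈ F, (∃ g : G, g • u = v) →
      ∀ h : Y → ℝ, ∑ σ ∈ K, h (σ • u) = ∑ σ ∈ K, h (σ • v)) :
    ∃ μ : G → ℝ, (∀ g, 0 < μ g) ∧ HasSum μ 1 ∧
      ∀ f : Y → ℝ, (∃ M, ∀ y, |f y| ≤ M) → (∀ y, f y = ∑' g : G, μ g * f (g • y)) →
        ∀ (g : G) (y : Y), f (g • y) = f y := by
  classical
  obtain ⟨gen, hgen⟩ := exists_surjective_nat G
  obtain ⟨pt, hpt⟩ := exists_surjective_nat Y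
  choose K hK hE using hH
  refine ⟨mu gen pt K, mu_pos gen pt K hK hgen, mu_hasSum_one gen pt K hK, ?_⟩
  rintro f ⟨M, hM⟩ hf g y
  refine constant gen pt K hK hE hpt f hM (fun y => ?_) g y
  rw [hf y]
  exact (hasSum_mu gen pt K hK (fun g => hM (g • y))).tsum_eq

end Pool.Agent.X173.Liou
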