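import Pool.Agent.X173.Liou

/-!
# A countable non-amenable group of permutations containing all finitary permutations
-/

set_option autoImplicit false

namespace Pool.Agent.X173.Liou

open Finset Equiv
open scoped Pointwise

/-- A discrete group `G` is amenable: there is a finitely additive left-invariant probability
measure defined on all subsets of `G`. -/
def Amenable (G : Type) [Group G] : Prop :=
  ∃ m : Set G → ℝ, (∀ A, 0 ≤ m A) ∧ m Set.univ = 1 ∧
    (∀ A B, Disjoint A B → m (A ∪ B) = m A + m B) ∧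
    ∀ (g : G) (A : Set G), m ((fun x => g * x) '' A) = m A

theorem infinite_mod (p : ℕ → Prop) (i : ℕ) (h : ∀ n, p (4 * n + i)) : Infinite {x // p x} :=
  Infinite.of_injective (fun n : ℕ => (⟨4 * n + i, h n⟩ : {x // p x})) (by
    intro a b hab
    have := congrArg Subtype.val hab
    simp only at this
    omega)

/-- a permutation that maps the complement of a residue class into another residue class -/
theorem exists_perm (i j : ℕ) (hi : i < 4) (hj : j < 4) :
    ∃ a : Perm ℕ, ∀ x, x % 4 ≠ j → a x % 4 = i := by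
  classical
  have h1 : Infinite {x : ℕ // x % 4 ≠ j} := infinite_mod _ ((j + 1) % 4) (by intro n; omega)
  have h2 : Infinite {x : ℕ // x % 4 = i} := infinite_mod _ i (by intro n; omega)
  have h3 : Infinite {x : ℕ // ¬ x % 4 ≠ j} := infinite_mod _ j (by intro n; omega)
  have h4 : Infinite {x : ℕ // ¬ x % 4 = i} := infinite_mod _ ((i + 1) % 4) (by intro n; omega)
  obtain ⟨e⟩ : Nonempty ({x : ℕ // x % 4 ≠ j} ≃ {x : ℕ // x % 4 = i}) :=
    nonempty_equiv_of_countable
  obtain ⟨f⟩ : Nonempty ({x : ℕ // ¬ x % 4 ≠ j} ≃ {x : ℕ // ¬ x % 4 = i}) :=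
    nonempty_equiv_of_countable
  refine ⟨Equiv.subtypeCongr (p := fun x : ℕ => x % 4 ≠ j) (q := fun x : ℕ => x % 4 = i) e f, ?_⟩
  intro x hx
  have : Equiv.subtypeCongr (p := fun x : ℕ => x % 4 ≠ j) (q := fun x : ℕ => x % 4 = i) e f x
      = (e ⟨x, hx⟩ : ℕ) := by
    simp [Equiv.subtypeCongr, hx]
  rw [this]
  exact (e ⟨x, hx⟩).2

/-- the first permutation -/
noncomputable def pa : Perm ℕ := (exists_perm 0 1 (by norm_num) (by norm_num)).choose
theorem pa_spec : ∀ x, x % 4 ≠ 1 → pa x % 4 = 0 :=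
  (exists_perm 0 1 (by norm_num) (by norm_num)).choose_spec
/-- the second permutation -/
noncomputable def pb : Perm ℕ := (exists_perm 2 3 (by norm_num) (by norm_num)).choose
theorem pb_spec : ∀ x, x % 4 ≠ 3 → pb x % 4 = 2 :=
  (exists_perm 2 3 (by norm_num) (by norm_num)).choose_spec

/-- generators -/
def gens : Set (Perm ℕ) := {σ : Perm ℕ | σ.IsSwap} ∪ {pa, pb}

/-- the group generated by all transpositions and `pa`, `pb` -/
def GG : Subgroup (Perm ℕ) := Subgroup.closure gens

theorem gens_countable : gens.Countable := by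
  refine Set.Countable.union ?_ (Set.toFinite _).countable
  have : {σ : Perm ℕ | σ.IsSwap} ⊆ Set.range fun p : ℕ × ℕ => swap p.1 p.2 := by
    rintro σ ⟨x, y, -, rfl⟩
    exact ⟨(x, y), rfl⟩
  exact (Set.countable_range _).mono this

instance : Countable GG := by
  have : Countable gens := gens_countable
  have h1 : Set.Countable (((FreeGroup.lift (Subtype.val : gens → Perm ℕ)).range : Set (Perm ℕ))) := by
    rw [MonoidHom.coe_range]
    exact Set.countable_range _
  have h2 : ((FreeGroup.lift (Subtype.val : gens → Perm ℕ)).range) = GG := by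
    rw [FreeGroup.range_lift_eq_closure, Subtype.range_coe]
    rfl
  rw [h2] at h1
  exact h1

theorem not_amenable : ¬ Amenable GG := by
  rintro ⟨m, h0, h1, hadd, hinv⟩
  let ν : Set ℕ → ℝ := fun S => m {g : GG | g.1 0 ∈ S}
  have hmono : ∀ A B : Set GG, A ⊆ B → m A ≤ m B := by
    intro A B h
    have := hadd A (B \ A) Set.disjoint_sdiff_right
    rw [Set.union_sdiff_cancel h] at this
    linarith [h0 (B \ A)]
  have hνadd : ∀ S T : Set ℕ, Disjoint S T → ν (S ∪ T) = ν S + ν T := by
    intro S T h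
    refine hadd {g : GG | g.1 0 ∈ S} {g : GG | g.1 0 ∈ T} ?_
    rw [Set.disjoint_left]
    intro g hg hg'
    exact Set.disjoint_left.1 h hg hg'
  have key : ∀ (a : Perm ℕ), a ∈ GG → ∀ P Q : Set ℕ, (∀ x, x ∉ Q → a x ∈ P) → 1 ≤ ν P + ν Q := by
    intro a ha P Q h
    have e1 : ν Q + ν Qᶜ = 1 := by
      rw [← hνadd _ _ disjoint_compl_right, Set.union_compl_self]
      simp only [ν, Set.mem_univ, Set.ofPred_true]
      exact h1
    have e2 : ν Qᶜ ≤ ν P := by
      have e3 : m ((fun x => (⟨a, ha⟩ : GG) * x) '' {g : GG | g.1 0 ∈ Qᶜ}) = ν Qᶜ := hinv _ _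
      rw [← e3]
      apply hmono
      rintro _ ⟨g, hg, rfl⟩
      exact h _ hg
    linarith
  have hS : ∀ i : ℕ, True := fun _ => trivial
  have k1 := key pa (Subgroup.subset_closure (Or.inr (Or.inl rfl))) {x | x % 4 = 0} {x | x % 4 = 1}
    (fun x hx => pa_spec x hx)
  have k2 := key pb (Subgroup.subset_closure (Or.inr (Or.inr rfl))) {x | x % 4 = 2} {x | x % 4 = 3}
    (fun x hx => pb_spec x hx)
  have d1 : Disjoint {x : ℕ | x % 4 = 0} {x | x % 4 = 1} := by
    rw [Set.disjoint_left]
    intro x (hx : x % 4 = 0) (hx' : x % 4 = 1)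
    omega
  have d2 : Disjoint {x : ℕ | x % 4 = 2} {x | x % 4 = 3} := by
    rw [Set.disjoint_left]
    intro x (hx : x % 4 = 2) (hx' : x % 4 = 3)
    omega
  have d3 : Disjoint ({x : ℕ | x % 4 = 0} ∪ {x | x % 4 = 1})
      ({x : ℕ | x % 4 = 2} ∪ {x | x % 4 = 3}) := by
    rw [Set.disjoint_left]
    rintro x (hx | hx) (hx' | hx')
    all_goals
      simp only [Set.mem_ofPred_eq] at hx hx'
      omega
  have e4 := hνadd _ _ d3
  rw [hνadd _ _ d1, hνadd _ _ d2] at e4
  have e5 : ν (({x : ℕ | x % 4 = 0} ∪ {x | x % 4 = 1}) ∪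
      ({x : ℕ | x % 4 = 2} ∪ {x | x % 4 = 3})) ≤ 1 := by
    rw [← h1]
    exact hmono _ _ (Set.subset_univ _)
  linarith

/-- the permutations of a finite set as elements of the group -/
noncomputable def emb (X : Finset ℕ) (σ : Perm X) : GG :=
  ⟨Equiv.Perm.ofSubtype σ, by
    refine Subgroup.closure_mono Set.subset_union_left ?_
    rw [mem_closure_isSwap']
    refine X.finite_toSet.subset ?_
    intro x hx
    by_contra h
    apply hx
    rw [MulAction.mem_fixedBy, Perm.smul_def]
    exact Equiv.Perm.ofSubtype_apply_of_not_mem σ h⟩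

theorem emb_mul (X : Finset ℕ) (σ τ : Perm X) : emb X (σ * τ) = emb X σ * emb X τ :=
  Subtype.ext (map_mul _ _ _)

theorem emb_injective (X : Finset ℕ) : Function.Injective (emb X) := by
  intro σ τ h
  exact Equiv.Perm.ofSubtype_injective (congrArg Subtype.val h)

theorem exists_perm_finset (X u v : Finset ℕ) (hu : u ⊆ X) (hv : v ⊆ X) (h : u.card = v.card) :
    ∃ τ : Perm X, emb X τ • u = v := by
  classical
  have hc : Fintype.card {x : X // x.1 ∈ u} = Fintype.card {x : X // x.1 ∈ v} := by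
    have : ∀ w : Finset ℕ, w ⊆ X → Fintype.card {x : X // x.1 ∈ w} = w.card := by
      intro w hw
      rw [← Fintype.card_coe]
      refine Fintype.card_congr ⟨fun x => ⟨x.1.1, x.2⟩, fun x => ⟨⟨x.1, hw x.2⟩, x.2⟩, ?_, ?_⟩
      · intro x; rfl
      · intro x; rfl
    rw [this u hu, this v hv, h]
  let e := Fintype.equivOfCardEq hc
  refine ⟨e.extendSubtype, ?_⟩
  apply Finset.eq_of_subset_of_card_le
  · intro y hy
    obtain ⟨x, hx, rfl⟩ := Finset.mem_smul_finset.1 hy
    have h1 : (emb X e.extendSubtype • x : ℕ) = (e.extendSubtype ⟨x, hu hx⟩ : ℕ) :=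
      Equiv.Perm.ofSubtype_apply_of_mem _ (hu hx)
    rw [h1]
    exact e.extendSubtype_mem ⟨x, hu hx⟩ hx
  · rw [Finset.card_smul_finset, h]

theorem equalize (F : Finset (Finset ℕ)) : ∃ K : Finset GG, K.Nonempty ∧
    ∀ u ∈ F, ∀ v ∈ F, (∃ g : GG, g • u = v) →
      ∀ h : Finset ℕ → ℝ, ∑ σ ∈ K, h (σ • u) = ∑ σ ∈ K, h (σ • v) := by
  classical
  set X := F.sup id with hX
  refine ⟨Finset.univ.image (emb X), ?_, ?_⟩
  · exact Finset.univ_nonempty.image _
  · intro u hu v hv ⟨g, hg⟩ h
    have hc : u.card = v.card := by rw [← hg, Finset.card_smul_finset]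
    have hu' : u ⊆ X := Finset.le_sup (f := id) hu
    have hv' : v ⊆ X := Finset.le_sup (f := id) hv
    obtain ⟨τ, hτ⟩ := exists_perm_finset X u v hu' hv' hc
    rw [Finset.sum_image (fun _ _ _ _ h => emb_injective X h),
      Finset.sum_image (fun _ _ _ _ h => emb_injective X h), ← hτ]
    rw [← Equiv.sum_comp (Equiv.mulRight τ)]
    refine Finset.sum_congr rfl fun σ _ => ?_
    rw [Equiv.coe_mulRight, emb_mul, mul_smul]

end Pool.Agent.X173.Liou
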