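import Mathlib
import Pool.Agent.H491R3.PE.Near
import Pool.Agent.Y314.FD.DimUp

set_option autoImplicit false

namespace Pool.Agent.X173.NCA

open Real Filter Topology Set
open scoped ENNReal
open Pool.Agent.H491R3.PE

/-- the asymptotic formula with error term `O(log x)` -/
def As (a b : ℝ) : Prop :=
  ∃ C : ℝ, ∀ x : ℝ, 2 ≤ x → (NS a b x).Finite ∧
    |((NS a b x).ncard : ℝ) - log x ^ 2 / (log a * log b)| ≤ C * log x

lemma as_of_fin {a b : ℝ} (ha : 1 < a) (hb : 1 < b) (hirr : Irrational (log a / log b))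
    (hS : (SS a b).Finite) : As a b := by
  have hsub : ∀ x, SX a b x ⊆ SS a b := fun x p hp => hp.1
  obtain ⟨C, hC⟩ := countS ha hb hirr (fun x => hS.subset (hsub x))
  refine ⟨C + (SS a b).ncard / log 2, fun x hx => ⟨(hC x hx).1, ?_⟩⟩
  have h1 := (hC x hx).2
  have h2 : ((SX a b x).ncard : ℝ) ≤ (SS a b).ncard := by
    exact_mod_cast Set.ncard_le_ncard (hsub x) hS
  have h3 : (0 : ℝ) ≤ ((SX a b x).ncard : ℝ) := Nat.cast_nonneg _
  have hl2 : 0 < log 2 := log_pos (by norm_num)
  have h4 : log 2 ≤ log x := log_le_log (by norm_num) hx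
  have h5 : ((SS a b).ncard : ℝ) ≤ (SS a b).ncard / log 2 * log x := by
    rw [div_mul_eq_mul_div, le_div_iff₀ hl2]
    exact mul_le_mul_of_nonneg_left h4 (Nat.cast_nonneg _)
  rw [abs_le] at h1 ⊢
  constructor <;> nlinarith [h1.1, h1.2]

lemma swap_As {a b : ℝ} (h : As a b) : As b a := by
  obtain ⟨C, hC⟩ := h
  have key : ∀ x, NS b a x = Prod.swap ⁻¹' (NS a b x) := by
    intro x
    ext p
    simp only [NS, Set.mem_preimage, Prod.fst_swap, Prod.snd_swap, Set.mem_ofPred_eq]
    rw [abs_sub_comm]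
  refine ⟨C, fun x hx => ?_⟩
  obtain ⟨h1, h2⟩ := hC x hx
  have e : NS b a x = Prod.swap '' (NS a b x) := by
    rw [key, Set.image_swap_eq_preimage_swap]
  rw [e]
  refine ⟨h1.image _, ?_⟩
  rw [Set.ncard_image_of_injective _ Prod.swap_injective, mul_comm (log b) (log a)]
  exact h2

/-- for a given bound of the first exponent there are finitely many near misses -/
lemma fin_first {a b : ℝ} (ha : 1 < a) (hb : 1 < b) (N : ℕ) :
    {p | p ∈ SS a b ∧ p.1 < N}.Finite := by
  obtain ⟨M, hM⟩ := pow_unbounded_of_one_lt (2 * a ^ N) hb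
  refine Set.Finite.subset ((Finset.range N ×ˢ Finset.range M : Finset (ℕ × ℕ)).finite_toSet) ?_
  rintro ⟨n, m⟩ ⟨⟨-, h1⟩, h2⟩
  simp only at h1 h2
  simp only [Finset.coe_product, Set.mem_prod, Finset.mem_coe, Finset.mem_range]
  refine ⟨h2, ?_⟩
  by_contra h3
  push Not at h3
  have h4 : b ^ M ≤ b ^ m := pow_le_pow_right₀ hb.le h3
  have h5 : a ^ n ≤ a ^ N := pow_le_pow_right₀ ha.le h2.le
  have h6 : 1 ≤ a ^ n := one_le_pow₀ ha.le
  have h7 : a ^ n < b ^ m - a ^ n := by linarith
  have h8 : |a ^ n - b ^ m| = b ^ m - a ^ n := by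
    rw [abs_sub_comm, abs_of_pos (by linarith)]
  rw [h8] at h1
  nlinarith

/-- the points around which the near misses live -/
noncomputable def pts (b C : ℝ) (n : ℕ) : Finset ℝ :=
  (Finset.range (⌊C * n⌋₊ + 1)).image (fun m : ℕ => exp (m * log b / n))

lemma card_pts (b C : ℝ) (hC : 0 ≤ C) (n : ℕ) : ((pts b C n).card : ℝ) ≤ C * n + 1 := by
  have h1 : (pts b C n).card ≤ ⌊C * n⌋₊ + 1 := by
    refine Finset.card_image_le.trans ?_
    rw [Finset.card_range]
  have h2 : ((pts b C n).card : ℝ) ≤ ((⌊C * n⌋₊ + 1 : ℕ) : ℝ) := by exact_mod_cast h1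
  refine h2.trans ?_
  push_cast
  have := Nat.floor_le (a := C * n) (by positivity)
  linarith

lemma exp_diff {x y M : ℝ} (hx : x ≤ M) (hy : y ≤ M) : |exp x - exp y| ≤ exp M * |x - y| := by
  rcases le_total x y with h | h
  · rw [abs_sub_comm, abs_of_nonneg (by have := exp_le_exp.2 h; linarith), abs_sub_comm x y,
      abs_of_nonneg (by linarith)]
    have h1 : x - y + 1 ≤ exp (x - y) := add_one_le_exp _
    have h2 : exp x = exp y * exp (x - y) := by rw [← exp_add]; congr 1; ring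
    have h3 : exp y ≤ exp M := exp_le_exp.2 hy
    have h4 : exp y - exp x ≤ exp y * (y - x) := by
      rw [h2]
      nlinarith [exp_pos y]
    refine h4.trans (mul_le_mul_of_nonneg_right h3 (by linarith))
  · rw [abs_of_nonneg (by have := exp_le_exp.2 h; linarith), abs_of_nonneg (by linarith)]
    have h1 : y - x + 1 ≤ exp (y - x) := add_one_le_exp _
    have h2 : exp y = exp x * exp (y - x) := by rw [← exp_add]; congr 1; ring
    have h3 : exp x ≤ exp M := exp_le_exp.2 hx
    have h4 : exp x - exp y ≤ exp x * (x - y) := by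
      rw [h2]
      nlinarith [exp_pos x]
    refine h4.trans (mul_le_mul_of_nonneg_right h3 (by linarith))

/-- the bases in a compact interval with infinitely many near misses -/
def Ek (b A B : ℝ) : Set ℝ := {a | A ≤ a ∧ a ≤ B ∧ (SS a b).Infinite}

lemma dim_Ek {b A B : ℝ} (hb : 1 < b) (hA : 1 < A) (hAB : A ≤ B) : dimH (Ek b A B) = 0 := by
  have hlb : 0 < log b := log_pos hb
  have hsA := sqrt_gt hA
  have hsA0 : 0 < √A := by linarith
  have hB : 1 < B := by linarith
  have hlB : 0 < log B := log_pos hB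
  -- the ratio
  set r : ℝ := 1 / √(√A) with hr
  have hssA : 1 < √(√A) := by
    rw [Real.lt_sqrt (by norm_num)]; linarith
  have hr0 : 0 < r := by positivity
  have hr1 : r < 1 := by
    rw [hr, div_lt_one (by positivity)]; exact hssA
  have hrr : r * r = 1 / √A := by
    rw [hr, div_mul_div_comm, one_mul, Real.mul_self_sqrt (by positivity)]
  set C : ℝ := (log B + 2) / log b with hCdef
  have hC : 0 ≤ C := by positivity
  set M : ℝ := log B + 2 with hM
  -- the bound for every s > 0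
  have main : ∀ s : ℝ, 0 < s → dimH (Ek b A B) ≤ ENNReal.ofReal s := by
    intro s hs
    have hrs : 1 < r ^ (-s) := Real.one_lt_rpow_of_pos_of_lt_one_of_neg hr0 hr1 (by linarith)
    have ev : ∀ᶠ v : ℕ in atTop, C * v + 1 ≤ r ^ (-(s * v)) := by
      have h1 : Tendsto (fun v : ℕ => (v : ℝ) ^ 1 / (r ^ (-s)) ^ v) atTop (𝓝 0) :=
        tendsto_pow_const_div_const_pow_of_one_lt 1 hrs
      have h2 := h1.eventually (gt_mem_nhds (show (0 : ℝ) < 1 / (C + 1) by positivity))
      filter_upwards [h2, eventually_ge_atTop 1] with v hv hv1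
      have hp : 0 < (r ^ (-s)) ^ v := by positivity
      rw [pow_one, div_lt_div_iff₀ hp (by positivity), one_mul] at hv
      have hv2 : (1 : ℝ) ≤ v := by exact_mod_cast hv1
      have e : r ^ (-(s * v)) = (r ^ (-s)) ^ v := by
        rw [← Real.rpow_natCast, ← Real.rpow_mul hr0.le]
        congr 1; ring
      rw [e]
      nlinarith
    obtain ⟨v0, hv0⟩ := eventually_atTop.1 ev
    refine Pool.Agent.Y314.FD.dimH_le_of_balls (Ek b A B) (pts b C) hr0 hr1 hs.le (v0 := v0)
      (fun v hv => (card_pts b C hC v).trans (hv0 v hv)) ?_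
    rintro a ⟨haA, haB, hinf⟩
    have ha : 1 < a := by linarith
    -- thresholds
    obtain ⟨n1, hn1⟩ := pow_unbounded_of_one_lt 2 hsA
    obtain ⟨n2, hn2⟩ := pow_unbounded_of_one_lt (2 * exp M) hssA
    rw [Filter.frequently_atTop]
    intro N
    obtain ⟨p, hp, hpN⟩ : ∃ p ∈ SS a b, max (max N n1) (max n2 1) ≤ p.1 := by
      by_contra hcon
      push Not at hcon
      exact hinf ((fin_first ha hb (max (max N n1) (max n2 1))).subset
        (fun p hp => ⟨hp, hcon p hp⟩))
    have hpN1 : N ≤ p.1 := ((le_max_left _ _).trans (le_max_left _ _)).trans hpN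
    have hpn1 : n1 ≤ p.1 := ((le_max_right _ _).trans (le_max_left _ _)).trans hpN
    have hpn2 : n2 ≤ p.1 := ((le_max_left _ _).trans (le_max_right _ _)).trans hpN
    have hp1 : 1 ≤ p.1 := ((le_max_right _ _).trans (le_max_right _ _)).trans hpN
    have hp1' : (1 : ℝ) ≤ p.1 := by exact_mod_cast hp1
    have hsa : √A ≤ √a := Real.sqrt_le_sqrt haA
    have hpow : √A ^ p.1 ≤ √a ^ p.1 := pow_le_pow_left₀ hsA0.le hsa _
    have h2 : 2 < √A ^ p.1 := lt_of_lt_of_le hn1 (pow_le_pow_right₀ hsA.le hpn1)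
    have h3 := approxS ha hb hp (lt_of_lt_of_le h2 hpow)
    have h4 : |(p.1 : ℝ) * log a - p.2 * log b| ≤ 2 / √A ^ p.1 :=
      h3.trans (div_le_div_of_nonneg_left (by norm_num) (by positivity) hpow)
    have h5 : |(p.1 : ℝ) * log a - p.2 * log b| ≤ 1 := by
      refine h4.trans ?_
      rw [div_le_one (by positivity)]
      exact h2.le
    have hlaB : log a ≤ log B := log_le_log (by linarith) haB
    have hmb : (p.2 : ℝ) * log b ≤ p.1 * M := by
      have := (abs_le.1 h5).1
      have h6 : (p.1 : ℝ) * log a ≤ p.1 * log B := mul_le_mul_of_nonneg_left hlaB (by positivity)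
      rw [hM]
      nlinarith
    have hmC : (p.2 : ℝ) ≤ C * p.1 := by
      rw [hCdef, div_mul_eq_mul_div, le_div_iff₀ hlb]
      linarith
    have hdiv : (p.2 : ℝ) * log b / p.1 ≤ M := by
      rw [div_le_iff₀ (by linarith)]
      linarith
    refine ⟨p.1, hpN1, exp (p.2 * log b / p.1), ?_, ?_⟩
    · rw [pts, Finset.mem_image]
      exact ⟨p.2, Finset.mem_range.2 (Nat.lt_succ_of_le (Nat.le_floor hmC)), rfl⟩
    · rw [Real.dist_eq]
      have e1 : a = exp (log a) := (exp_log (by linarith)).symm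
      have h7 : |a - exp (p.2 * log b / p.1)| ≤ exp M * |log a - p.2 * log b / p.1| := by
        conv_lhs => rw [e1]
        exact exp_diff (by rw [hM]; linarith) hdiv
      have h8 : |log a - p.2 * log b / p.1| ≤ |(p.1 : ℝ) * log a - p.2 * log b| := by
        have e2 : log a - p.2 * log b / p.1 = ((p.1 : ℝ) * log a - p.2 * log b) / p.1 := by
          field_simp
        rw [e2, abs_div, abs_of_pos (by linarith : (0 : ℝ) < p.1)]
        exact div_le_self (abs_nonneg _) hp1'
      have h9 : exp M * (2 / √A ^ p.1) ≤ r ^ p.1 := by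
        have h10 : 2 * exp M < √(√A) ^ p.1 := lt_of_lt_of_le hn2 (pow_le_pow_right₀ hssA.le hpn2)
        have e3 : √A ^ p.1 = √(√A) ^ p.1 * √(√A) ^ p.1 := by
          rw [← mul_pow, Real.mul_self_sqrt (by positivity)]
        have e4 : r ^ p.1 = 1 / √(√A) ^ p.1 := by
          rw [hr, div_pow, one_pow]
        rw [e3, e4, mul_div_assoc', div_le_div_iff₀ (by positivity) (by positivity)]
        nlinarith [pow_pos (show (0 : ℝ) < √(√A) by positivity) p.1]
      calc |a - exp (p.2 * log b / p.1)| ≤ exp M * |log a - p.2 * log b / p.1| := h7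
        _ ≤ exp M * (2 / √A ^ p.1) :=
          mul_le_mul_of_nonneg_left (h8.trans h4) (exp_pos _).le
        _ ≤ r ^ p.1 := h9
  refine le_antisymm ?_ bot_le
  refine ENNReal.le_of_forall_pos_le_add ?_
  intro ε hε _
  have := main ε (by exact_mod_cast hε)
  rw [ENNReal.ofReal_coe_nnreal] at this
  simpa using this

lemma dim_rat (b : ℝ) (hb : 1 < b) : dimH {a : ℝ | 1 < a ∧ ¬ Irrational (log a / log b)} = 0 := by
  have hlb : 0 < log b := log_pos hb
  have h : {a : ℝ | 1 < a ∧ ¬ Irrational (log a / log b)} ⊆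
      Set.range (fun q : ℚ => exp (q * log b)) := by
    rintro a ⟨ha, h1⟩
    rw [Irrational, not_not] at h1
    obtain ⟨q, hq⟩ := h1
    refine ⟨q, ?_⟩
    simp only
    rw [hq, div_mul_cancel₀ _ hlb.ne', exp_log (by linarith)]
  exact ((Set.countable_range _).mono h).dimH_zero

theorem dim_exc {b : ℝ} (hb : 1 < b) : dimH {a : ℝ | 1 < a ∧ ¬ As a b} = 0 := by
  have h : {a : ℝ | 1 < a ∧ ¬ As a b} ⊆ {a : ℝ | 1 < a ∧ ¬ Irrational (log a / log b)} ∪
      ⋃ k : ℕ, Ek b (1 + 1 / ((k : ℝ) + 1)) (k + 3) := by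
    rintro a ⟨ha, h1⟩
    by_cases h2 : Irrational (log a / log b)
    · right
      have h3 : (SS a b).Infinite := fun hf => h1 (as_of_fin ha hb h2 hf)
      obtain ⟨k1, hk1⟩ := exists_nat_gt (1 / (a - 1))
      obtain ⟨k2, hk2⟩ := exists_nat_gt a
      rw [Set.mem_iUnion]
      refine ⟨max k1 k2, ?_, ?_, h3⟩
      · have h4 : (k1 : ℝ) ≤ ((max k1 k2 : ℕ) : ℝ) := by exact_mod_cast le_max_left _ _
        have h5 : 1 / (a - 1) < ((max k1 k2 : ℕ) : ℝ) + 1 := by linarith
        have h6 : 0 < a - 1 := by linarith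
        have h7 : 0 < ((max k1 k2 : ℕ) : ℝ) + 1 := by positivity
        have h8 : 1 / (((max k1 k2 : ℕ) : ℝ) + 1) < a - 1 := by
          rw [div_lt_iff₀ h7]
          rw [div_lt_iff₀ h6] at h5
          linarith
        linarith
      · have h4 : (k2 : ℝ) ≤ ((max k1 k2 : ℕ) : ℝ) := by exact_mod_cast le_max_right _ _
        linarith
    · left
      exact ⟨ha, h2⟩
  refine le_antisymm ((dimH_mono h).trans ?_) bot_le
  rw [dimH_union, dimH_iUnion, dim_rat b hb]
  refine sup_le le_rfl (iSup_le fun k => ?_)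
  rw [dim_Ek hb]
  · have : (0 : ℝ) < 1 / ((k : ℝ) + 1) := by positivity
    linarith
  · have h1 : 1 / ((k : ℝ) + 1) ≤ 1 := by
      rw [div_le_one (by positivity)]
      linarith [Nat.cast_nonneg (α := ℝ) k]
    linarith [Nat.cast_nonneg (α := ℝ) k]

end Pool.Agent.X173.NCA
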