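import Mathlib
import Pool.Agent.H491R3.PE.Near

set_option autoImplicit false

namespace Pool.Agent.X173.NCB

open Real Filter Topology Set
open Pool.Agent.H491R3.PE

/-- the window of the `t = log a` for which `a ^ n - b ^ m` lies in `[K - 1/2, K]` -/
def W (L : ℝ) (n m K : ℕ) : Set ℝ :=
  {t : ℝ | (K : ℝ) - 1 / 2 ≤ exp (n * t) - exp (m * L) ∧ exp (n * t) - exp (m * L) ≤ K}

lemma cop_of {n m q p : ℕ} (h : p * n = q * m + 1) : Nat.Coprime q p := by
  rw [← Nat.isCoprime_iff_coprime]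
  refine ⟨-(m : ℤ), n, ?_⟩
  have : (p : ℤ) * n = q * m + 1 := by exact_mod_cast h
  linarith

lemma eq_of_prop {n m ν μ : ℕ} (h1 : Nat.Coprime n m) (h2 : Nat.Coprime ν μ)
    (h : ν * m = μ * n) : ν = n := by
  apply Nat.dvd_antisymm
  · exact h2.dvd_of_dvd_mul_left (by rw [← h]; exact Dvd.intro _ rfl)
  · exact h1.dvd_of_dvd_mul_right (by rw [h]; exact Dvd.intro_left _ rfl)

lemma choose_q {X : ℝ} {n m K : ℕ} (hn : 1 ≤ n) (hcop : Nat.Coprime n m) (hK : 1 ≤ K)
    (hKn : K ≤ n) (hX : 16 * (n : ℝ) ^ 3 ≤ X) :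
    ∃ q p : ℕ, p * n = q * m + 1 ∧ (K : ℝ) - 1 / 2 ≤ X / q ∧ X / q ≤ K - 3 / 8 ∧ 4 * n ≤ q := by
  have hn' : (1 : ℝ) ≤ n := by exact_mod_cast hn
  have hK' : (1 : ℝ) ≤ K := by exact_mod_cast hK
  have hKn' : (K : ℝ) ≤ n := by exact_mod_cast hKn
  have hX0 : 0 < X := lt_of_lt_of_le (by positivity) hX
  have hk1 : (0 : ℝ) < K - 3 / 8 := by linarith
  have hk2 : (0 : ℝ) < K - 1 / 2 := by linarith
  have hbez : (m : ℤ) * Nat.gcdA m n + n * Nat.gcdB m n = 1 := by
    have := Nat.gcd_eq_gcd_ab m n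
    rw [Nat.Coprime.gcd_eq_one hcop.symm] at this
    exact_mod_cast this.symm
  set g := Nat.gcdA m n with hg
  set h := Nat.gcdB m n with hh
  set lo : ℝ := X / (K - 3 / 8) with hlo
  set k : ℤ := ⌈(lo + g) / n⌉ with hk
  have hk3 : lo + g ≤ n * k := by
    have := Int.le_ceil ((lo + g) / n)
    rw [div_le_iff₀ (by linarith)] at this
    linarith
  have hk4 : (n : ℝ) * k < lo + g + n := by
    have := Int.ceil_lt_add_one ((lo + g) / (n : ℝ))
    rw [← hk] at this
    have h2 : (k : ℝ) * n < ((lo + g) / n + 1) * n := mul_lt_mul_of_pos_right this (by linarith)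
    have h3 : ((lo + g) / (n : ℝ) + 1) * n = lo + g + n := by field_simp
    linarith
  have hlon : 16 * (n : ℝ) ^ 2 ≤ lo := by
    rw [hlo, le_div_iff₀ hk1]
    have h1 : (n : ℝ) ^ 3 = n ^ 2 * n := by ring
    have h2 : (K : ℝ) - 3 / 8 ≤ n := by linarith
    nlinarith [sq_nonneg (n : ℝ)]
  have hlo0 : 0 < lo := lt_of_lt_of_le (by positivity) hlon
  have hq0 : (0 : ℝ) < ((n * k - g : ℤ) : ℝ) := by push_cast; linarith
  have hq0' : 0 < (n : ℤ) * k - g := by exact_mod_cast hq0
  obtain ⟨q, hq⟩ := Int.eq_ofNat_of_zero_le hq0'.le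
  have hqr : (q : ℝ) = n * k - g := by
    have : ((q : ℤ) : ℝ) = ((n * k - g : ℤ) : ℝ) := by rw [hq]
    push_cast at this
    exact this
  have hpn : (h + k * m) * (n : ℤ) = q * m + 1 := by
    have : (q : ℤ) = n * k - g := by rw [hq]
    rw [this]
    linear_combination hbez
  have hp0 : 0 < h + k * m := by
    have h1 : (0 : ℤ) < (h + k * m) * (n : ℤ) := by rw [hpn]; positivity
    exact pos_of_mul_pos_left h1 (by positivity)
  obtain ⟨p, hp⟩ := Int.eq_ofNat_of_zero_le hp0.le
  have hp' : h + k * m = (p : ℤ) := by rw [hp]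
  have hql : lo ≤ q := by rw [hqr]; linarith
  have hqu : (q : ℝ) ≤ lo + n := by rw [hqr]; linarith
  have hqpos : (0 : ℝ) < q := lt_of_lt_of_le hlo0 hql
  refine ⟨q, p, ?_, ?_, ?_, ?_⟩
  · rw [hp'] at hpn
    exact_mod_cast hpn
  · rw [le_div_iff₀ hqpos]
    -- (K - 1/2) * q ≤ X
    have h1 : (K - 1 / 2 : ℝ) * q ≤ (K - 1 / 2) * (lo + n) := mul_le_mul_of_nonneg_left hqu hk2.le
    have h2 : lo * (K - 3 / 8) = X := by rw [hlo]; exact div_mul_cancel₀ _ hk1.ne'
    have h3 : (K - 1 / 2 : ℝ) * lo = X - lo / 8 := by rw [← h2]; ring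
    have h4 : (K - 1 / 2 : ℝ) * n ≤ n * n := by nlinarith
    nlinarith
  · rw [div_le_iff₀ hqpos]
    have h2 : lo * (K - 3 / 8) = X := by rw [hlo]; exact div_mul_cancel₀ _ hk1.ne'
    rw [← h2, mul_comm]
    exact mul_le_mul_of_nonneg_left hql hk1.le
  · have h1 : (4 * n : ℝ) ≤ q := by nlinarith
    exact_mod_cast h1

theorem step {L α A : ℝ} (hL : 0 < L) (hα : 0 < α) (hA1 : 16 ≤ A) (hA2 : 16 ≤ A * L)
    {n m K K' : ℕ} (hn : 1 ≤ n) (hbig : ∀ ν : ℕ, n ≤ ν → A * (ν : ℝ) ^ 3 ≤ exp (α * ν / 8))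
    (hcop : Nat.Coprime n m) (hαn : α * n ≤ m * L) (hK : 1 ≤ K) (hKn : K ≤ n) (hK1 : 1 ≤ K')
    (hK' : K' ≤ n) :
    ∃ q p : ℕ, Nat.Coprime q p ∧ 4 * n ≤ q ∧ α * q ≤ p * L ∧ W L q p K' ⊆ W L n m K ∧
      ∀ t ∈ W L q p K', ∀ ν μ : ℕ, Nat.Coprime ν μ → n < ν → ν ≤ q → (ν, μ) ≠ (q, p) →
        2 / exp (ν * t / 2) < |ν * t - μ * L| := by
  have hn' : (1 : ℝ) ≤ n := by exact_mod_cast hn
  have hn3 : (1 : ℝ) ≤ (n : ℝ) ^ 3 := one_le_pow₀ hn'
  have hKr : (1 : ℝ) ≤ K := by exact_mod_cast hK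
  have hKn' : (K : ℝ) ≤ n := by exact_mod_cast hKn
  have hK1' : (1 : ℝ) ≤ K' := by exact_mod_cast hK1
  have hK'n : (K' : ℝ) ≤ n := by exact_mod_cast hK'
  obtain ⟨B, hB⟩ : ∃ B, B = exp (m * L) := ⟨_, rfl⟩
  have hBA : A * (n : ℝ) ^ 3 ≤ B := by
    refine (hbig n le_rfl).trans ?_
    rw [hB]
    exact exp_le_exp.2 (by nlinarith [mul_pos hα (by linarith : (0 : ℝ) < n)])
  have hA0 : 0 < A := by linarith
  have hB0 : 0 < B := by rw [hB]; exact exp_pos _
  obtain ⟨q, p, hpq, hq1, hq2, hq3⟩ := choose_q (X := L * B) hn hcop hK hKn (by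
    have : A * L * (n : ℝ) ^ 3 ≤ L * B := by nlinarith
    nlinarith)
  have hq3' : (4 : ℝ) * n ≤ q := by exact_mod_cast hq3
  have hqpos : (0 : ℝ) < q := by linarith
  have hq1' : (1 : ℝ) ≤ q := by linarith
  have hpqr : (p : ℝ) * n = q * m + 1 := by exact_mod_cast hpq
  have hcop' := cop_of hpq
  have hαq : α * q ≤ p * L := by
    have h1 : (p : ℝ) * n * L = q * (m * L) + L := by rw [hpqr]; ring
    have h2 : (q : ℝ) * (α * n) ≤ q * (m * L) := mul_le_mul_of_nonneg_left hαn hqpos.le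
    have h3 : (α * q) * n ≤ (p * L) * n := by nlinarith
    exact le_of_mul_le_mul_right h3 (by linarith)
  obtain ⟨P, hP⟩ : ∃ P, P = exp (p * L) := ⟨_, rfl⟩
  have hP0 : 0 < P := by rw [hP]; exact exp_pos _
  have hqn : n ≤ q := by
    have : (n : ℝ) ≤ q := by linarith
    exact_mod_cast this
  have hPA : A * (q : ℝ) ^ 3 ≤ P := by
    refine (hbig q hqn).trans ?_
    rw [hP]
    exact exp_le_exp.2 (by nlinarith [mul_pos hα hqpos])
  have hq30 : (0 : ℝ) < (q : ℝ) ^ 3 := by positivity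
  -- consequences of membership
  have mem : ∀ t ∈ W L q p K', 0 < q * t - p * L ∧ q * t - p * L ≤ n / (A * (q : ℝ) ^ 3) := by
    rintro t ⟨h1, h2⟩
    have e1 : exp (q * t) = P * exp (q * t - p * L) := by
      rw [hP, ← exp_add]; congr 1; ring
    rw [← hP] at h1 h2
    rw [e1] at h1 h2
    have h3 : 0 < P * (exp (q * t - p * L) - 1) := by nlinarith
    have h4 : 0 < exp (q * t - p * L) - 1 := pos_of_mul_pos_right h3 hP0.le
    constructor
    · have h5 : exp 0 < exp (q * t - p * L) := by rw [exp_zero]; linarith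
      exact exp_lt_exp.1 h5
    · have h6 : q * t - p * L ≤ exp (q * t - p * L) - 1 := by
        have := add_one_le_exp (q * t - p * L); linarith
      rw [le_div_iff₀ (by positivity)]
      have h7 : (q * t - p * L) * P ≤ n := by
        have : (q * t - p * L) * P ≤ (exp (q * t - p * L) - 1) * P :=
          mul_le_mul_of_nonneg_right h6 hP0.le
        nlinarith
      by_cases h8 : 0 ≤ q * t - p * L
      · exact (mul_le_mul_of_nonneg_left hPA h8).trans h7
      · push Not at h8
        have : (q * t - p * L) * (A * (q : ℝ) ^ 3) ≤ 0 :=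
          mul_nonpos_of_nonpos_of_nonneg h8.le (by positivity)
        linarith
  -- numerical consequences
  have hηb : ∀ η : ℝ, 0 < η → η ≤ n / (A * (q : ℝ) ^ 3) →
      η ≤ L / (2 * q) ∧ n * η ≤ L ∧ B * (n * η) / q ≤ 1 / 8 := by
    intro η h0 h1
    have hq2' : (16 : ℝ) * n ^ 2 ≤ q ^ 2 := by nlinarith
    have e1 : η ≤ L / (2 * q) := by
      refine h1.trans ?_
      rw [div_le_div_iff₀ (by positivity) (by positivity)]
      -- n * (2 q) ≤ L * (A q^3)
      have h2 : (16 : ℝ) * q ^ 3 ≤ L * (A * q ^ 3) := by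
        have := mul_le_mul_of_nonneg_right hA2 hq30.le
        linarith
      have h3 : (n : ℝ) * (2 * q) ≤ 16 * q ^ 3 := by
        have e1 : (q : ℝ) ^ 3 = q * q * q := by ring
        have e2 : (1 : ℝ) * q ≤ q * q := mul_le_mul_of_nonneg_right hq1' hqpos.le
        have e3 : (q : ℝ) * q ≤ q * q * q := by
          have := mul_le_mul_of_nonneg_right e2 hqpos.le
          linarith
        have e4 : (n : ℝ) * q ≤ q * q := mul_le_mul_of_nonneg_right (by linarith) hqpos.le
        linarith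
      linarith
    have e2 : n * η ≤ L := by
      have h2 : n * η ≤ n * (L / (2 * q)) := mul_le_mul_of_nonneg_left e1 (by linarith)
      have h3 : n * (L / (2 * q)) ≤ L := by
        rw [mul_div_assoc', div_le_iff₀ (by positivity)]
        nlinarith
      linarith
    refine ⟨e1, e2, ?_⟩
    have h3 : L * B / q ≤ n := by linarith
    have h4 : B / q ≤ n / L := by
      rw [le_div_iff₀ hL]
      have : B / q * L = L * B / q := by ring
      linarith
    have h5 : n * η ≤ n * (n / (A * (q : ℝ) ^ 3)) := mul_le_mul_of_nonneg_left h1 (by linarith)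
    have h6 : B * (n * η) / q = (B / q) * (n * η) := by ring
    have h7 : (B / q) * (n * η) ≤ (n / L) * (n * (n / (A * (q : ℝ) ^ 3))) :=
      mul_le_mul h4 h5 (by positivity) (by positivity)
    have h8 : ((n : ℝ) / L) * (n * (n / (A * (q : ℝ) ^ 3))) = n ^ 3 / (A * L * q ^ 3) := by
      field_simp
    rw [h6]
    refine h7.trans ?_
    rw [h8, div_le_div_iff₀ (by positivity) (by norm_num)]
    have h9 : (n : ℝ) ^ 3 ≤ q ^ 3 := pow_le_pow_left₀ (by linarith) (by linarith) 3
    nlinarith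
  -- the formula for n t
  have hnt : ∀ t : ℝ, n * t = m * L + (L + n * (q * t - p * L)) / q := by
    intro t
    field_simp
    linear_combination L * hpqr
  refine ⟨q, p, hcop', hq3, hαq, ?_, ?_⟩
  · intro t ht
    obtain ⟨m1, m2⟩ := mem t ht
    obtain ⟨η, hη⟩ : ∃ η, η = q * t - p * L := ⟨_, rfl⟩
    rw [← hη] at m1 m2
    obtain ⟨e1, e2, e3⟩ := hηb η m1 m2
    obtain ⟨z, hz⟩ : ∃ z, z = (L + n * η) / q := ⟨_, rfl⟩
    have hz0 : 0 < z := by rw [hz]; positivity
    have hent : exp (n * t) = B * exp z := by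
      rw [hnt t, ← hη, ← hz, hB, ← exp_add]
    have hBz : B * z = L * B / q + B * (n * η) / q := by rw [hz]; ring
    have hLq : L / q ≤ 1 / (A * n ^ 2) := by
      rw [div_le_div_iff₀ hqpos (by positivity)]
      have h3 : L * B ≤ n * q := by
        have : L * B / q ≤ n := by linarith
        rwa [div_le_iff₀ hqpos] at this
      have h4 : L * (A * n ^ 3) ≤ n * q := (mul_le_mul_of_nonneg_left hBA hL.le).trans h3
      have h5 : n * (L * (A * (n : ℝ) ^ 2)) ≤ n * q := by
        have : n * (L * (A * (n : ℝ) ^ 2)) = L * (A * n ^ 3) := by ring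
        linarith
      have := le_of_mul_le_mul_left h5 (by linarith : (0 : ℝ) < n)
      linarith
    have hz2 : z ≤ 2 * (L / q) := by
      rw [hz, mul_div_assoc']
      apply div_le_div_of_nonneg_right _ hqpos.le
      linarith
    have hnz : n * z ≤ 1 / 8 := by
      have h1 : n * z ≤ n * (2 * (1 / (A * n ^ 2))) :=
        mul_le_mul_of_nonneg_left (hz2.trans (by linarith)) (by linarith)
      have h2 : (n : ℝ) * (2 * (1 / (A * n ^ 2))) = 2 / (A * n) := by field_simp
      have h3 : 2 / (A * (n : ℝ)) ≤ 1 / 8 := by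
        rw [div_le_div_iff₀ (by positivity) (by norm_num)]
        nlinarith
      linarith
    have hz1 : z ≤ 1 / 8 := by nlinarith
    have hexp : |exp z - 1 - z| ≤ z ^ 2 := Real.abs_exp_sub_one_sub_id_le (by rw [abs_of_pos hz0]; linarith)
    have hexp1 : z ≤ exp z - 1 := by have := add_one_le_exp z; linarith
    have hexp2 : exp z - 1 ≤ z + z ^ 2 := by have := (abs_le.1 hexp).2; linarith
    constructor
    · rw [hent, ← hB]
      have h1 : B * z ≤ B * (exp z - 1) := mul_le_mul_of_nonneg_left hexp1 hB0.le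
      have h2 : 0 ≤ B * (n * η) / q := by positivity
      nlinarith
    · rw [hent, ← hB]
      have h1 : B * (exp z - 1) ≤ B * (z + z ^ 2) := mul_le_mul_of_nonneg_left hexp2 hB0.le
      have h2 : B * z ≤ K - 1 / 4 := by rw [hBz]; linarith
      have h3 : B * z ^ 2 ≤ 1 / 8 := by
        have h4 : B * z ^ 2 = (B * z) * z := by ring
        rw [h4]
        have h5 : (B * z) * z ≤ n * z := mul_le_mul_of_nonneg_right (by linarith) hz0.le
        linarith
      nlinarith
  · intro t ht ν μ hνμ hν1 hν2 hne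
    obtain ⟨m1, m2⟩ := mem t ht
    obtain ⟨η, hη⟩ : ∃ η, η = q * t - p * L := ⟨_, rfl⟩
    rw [← hη] at m1 m2
    obtain ⟨e1, e2, e3⟩ := hηb η m1 m2
    have hν1' : (n : ℝ) ≤ ν := by exact_mod_cast hν1.le
    have hν2' : (ν : ℝ) ≤ q := by exact_mod_cast hν2
    have hνpos : (0 : ℝ) < ν := by linarith
    have hqt : p * L ≤ q * t := by linarith
    have ht0 : 0 < t := by
      have h1 : 0 < α * q := by positivity
      have h2 : 0 < q * t := by linarith
      exact pos_of_mul_pos_right h2 hqpos.le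
    have habs1 : ∀ i : ℤ, i ≠ 0 → (1 : ℝ) ≤ |(i : ℝ)| := by
      intro i hi
      have : (1 : ℤ) ≤ |i| := Int.one_le_abs hi
      exact_mod_cast this
    by_cases hcase : 4 * ν ≤ q
    · -- close to m / n
      have hcase' : 4 * (ν : ℝ) ≤ q := by exact_mod_cast hcase
      have hne2 : ((ν : ℤ) * m - μ * n) ≠ 0 := by
        intro h
        have h2 : ν * m = μ * n := by
          have : (ν : ℤ) * m = μ * n := by linarith
          exact_mod_cast this
        have := eq_of_prop hcop hνμ h2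
        omega
      have h1 := habs1 _ hne2
      push_cast at h1
      obtain ⟨z, hz⟩ : ∃ z, z = (L + n * η) / q := ⟨_, rfl⟩
      have hz0 : 0 < z := by rw [hz]; positivity
      have hnt' : n * t = m * L + z := by rw [hz, hη]; exact hnt t
      have hνz : ν * z ≤ L / 2 := by
        rw [hz, mul_div_assoc', div_le_iff₀ hqpos]
        nlinarith
      have hform : (ν : ℝ) * t - μ * L = ((ν * m - μ * n) * L + ν * z) / n := by
        rw [eq_div_iff (by linarith)]
        linear_combination (ν : ℝ) * hnt'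
      have hlow : L / (2 * n) ≤ |(ν : ℝ) * t - μ * L| := by
        rw [hform, abs_div, abs_of_pos (by linarith : (0 : ℝ) < n)]
        have h2 : L / 2 ≤ |((ν : ℝ) * m - μ * n) * L + ν * z| := by
          have h3 := abs_sub_abs_le_abs_sub (((ν : ℝ) * m - μ * n) * L) (-(ν * z))
          rw [sub_neg_eq_add, abs_neg, abs_of_nonneg (by positivity : (0 : ℝ) ≤ ν * z), abs_mul,
            abs_of_pos hL] at h3
          nlinarith
        calc L / (2 * n) = L / 2 / n := by field_simp
          _ ≤ _ := div_le_div_of_nonneg_right h2 (by linarith)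
      refine lt_of_lt_of_le ?_ hlow
      have hexp : A * (n : ℝ) ^ 3 ≤ exp (ν * t / 2) := by
        refine (hbig n le_rfl).trans (exp_le_exp.2 ?_)
        have h3 : α * n ≤ n * t := by rw [hnt']; linarith
        have h4 : n * t ≤ ν * t := mul_le_mul_of_nonneg_right hν1' ht0.le
        have h5 : 0 < α * n := by positivity
        linarith
      rw [div_lt_div_iff₀ (exp_pos _) (by positivity)]
      have h6 : L * (A * (n : ℝ) ^ 3) ≤ L * exp (ν * t / 2) := mul_le_mul_of_nonneg_left hexp hL.le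
      have h7 : (16 : ℝ) * n ^ 3 ≤ L * (A * (n : ℝ) ^ 3) := by nlinarith
      have h8 : (n : ℝ) ≤ n ^ 3 := by
        calc (n : ℝ) = n ^ 1 := (pow_one _).symm
          _ ≤ n ^ 3 := pow_le_pow_right₀ hn' (by norm_num)
      linarith
    · -- close to p / q
      push Not at hcase
      have hcase' : (q : ℝ) ≤ 4 * ν := by exact_mod_cast hcase.le
      have hne2 : ((ν : ℤ) * p - μ * q) ≠ 0 := by
        intro h
        have h2 : ν * p = μ * q := by
          have : (ν : ℤ) * p = μ * q := by linarith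
          exact_mod_cast this
        have h3 := eq_of_prop hcop' hνμ h2
        apply hne
        rw [h3] at h2 ⊢
        have hq0 : 0 < q := by omega
        have : p = μ := Nat.eq_of_mul_eq_mul_left hq0 (by rw [h2, mul_comm])
        rw [this]
      have h1 := habs1 _ hne2
      push_cast at h1
      have hform : (ν : ℝ) * t - μ * L = ((ν * p - μ * q) * L + ν * η) / q := by
        rw [eq_div_iff hqpos.ne', hη]
        ring
      have hνη : ν * η ≤ L / 2 := by
        have h2 : ν * η ≤ q * (L / (2 * q)) := mul_le_mul hν2' e1 m1.le hqpos.le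
        have h3 : (q : ℝ) * (L / (2 * q)) = L / 2 := by field_simp
        linarith
      have hlow : L / (2 * q) ≤ |(ν : ℝ) * t - μ * L| := by
        rw [hform, abs_div, abs_of_pos hqpos]
        have h2 : L / 2 ≤ |((ν : ℝ) * p - μ * q) * L + ν * η| := by
          have h3 := abs_sub_abs_le_abs_sub (((ν : ℝ) * p - μ * q) * L) (-(ν * η))
          rw [sub_neg_eq_add, abs_neg, abs_of_nonneg (by positivity : (0 : ℝ) ≤ ν * η), abs_mul,
            abs_of_pos hL] at h3
          nlinarith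
        calc L / (2 * q) = L / 2 / q := by field_simp
          _ ≤ _ := div_le_div_of_nonneg_right h2 hqpos.le
      refine lt_of_lt_of_le ?_ hlow
      have hexp : A * (q : ℝ) ^ 3 ≤ exp (ν * t / 2) := by
        refine (hbig q hqn).trans (exp_le_exp.2 ?_)
        have h4 : q * t ≤ 4 * ν * t := mul_le_mul_of_nonneg_right hcase' ht0.le
        have h5 : α * q ≤ q * t := by linarith
        linarith
      rw [div_lt_div_iff₀ (exp_pos _) (by positivity)]
      have h6 : L * (A * (q : ℝ) ^ 3) ≤ L * exp (ν * t / 2) := mul_le_mul_of_nonneg_left hexp hL.le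
      have h7 : (16 : ℝ) * q ^ 3 ≤ L * (A * (q : ℝ) ^ 3) := by nlinarith
      have h8 : (q : ℝ) ≤ q ^ 3 := by
        calc (q : ℝ) = q ^ 1 := (pow_one _).symm
          _ ≤ q ^ 3 := pow_le_pow_right₀ hq1' (by norm_num)
      linarith

end Pool.Agent.X173.NCB
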