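import Mathlib
import Pool.Agent.X173.NCB

set_option autoImplicit false

namespace Pool.Agent.X173.NCB

open Real Filter Topology Set
open Pool.Agent.H491R3.PE

lemma W_closed (L : ℝ) (n m K : ℕ) : IsClosed (W L n m K) := by
  have hc : Continuous (fun t : ℝ => exp (n * t) - exp (m * L)) := by fun_prop
  exact (isClosed_le continuous_const hc).inter (isClosed_le hc continuous_const)

lemma W_nonempty (L : ℝ) {n : ℕ} (hn : 1 ≤ n) (m K : ℕ) : (W L n m K).Nonempty := by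
  have hn' : (0 : ℝ) < n := by exact_mod_cast hn
  have hB : 0 < exp (m * L) + K := by
    have := exp_pos ((m : ℝ) * L)
    have h2 : (0 : ℝ) ≤ K := Nat.cast_nonneg _
    linarith
  refine ⟨log (exp (m * L) + K) / n, ?_, ?_⟩
  · rw [mul_div_cancel₀ _ hn'.ne', exp_log hB]; linarith
  · rw [mul_div_cancel₀ _ hn'.ne', exp_log hB]; linarith

lemma W_sub_Icc (L : ℝ) {n m K : ℕ} (hn : 1 ≤ n) (hK : 1 ≤ K) :
    W L n m K ⊆ Icc (m * L / n) ((m * L + K / exp (m * L)) / n) := by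
  have hn' : (0 : ℝ) < n := by exact_mod_cast hn
  have hK' : (1 : ℝ) ≤ K := by exact_mod_cast hK
  rintro t ⟨h1, h2⟩
  have hB := exp_pos ((m : ℝ) * L)
  constructor
  · rw [div_le_iff₀ hn', mul_comm t]
    have : exp (m * L) < exp (n * t) := by linarith
    exact (exp_lt_exp.1 this).le
  · rw [le_div_iff₀ hn', mul_comm t]
    have e1 : exp (n * t) = exp (m * L) * exp (n * t - m * L) := by
      rw [← exp_add]; congr 1; ring
    have h3 : n * t - m * L ≤ exp (n * t - m * L) - 1 := by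
      have := add_one_le_exp (n * t - m * L); linarith
    have h4 : exp (n * t - m * L) - 1 ≤ K / exp (m * L) := by
      rw [le_div_iff₀ hB]
      rw [e1] at h2
      linarith
    linarith

lemma W_compact (L : ℝ) {n m K : ℕ} (hn : 1 ≤ n) (hK : 1 ≤ K) : IsCompact (W L n m K) :=
  isCompact_Icc.of_isClosed_subset (W_closed L n m K) (W_sub_Icc L hn hK)

/-- the invariant of stage `j` -/
def Inv (L α : ℝ) (N0 : ℕ) (j : ℕ) (s : ℕ × ℕ) : Prop :=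
  Nat.Coprime s.1 s.2 ∧ α * s.1 ≤ s.2 * L ∧ N0 ≤ s.1 ∧ 4 ^ (j + 1) ≤ s.1

/-- the relation between consecutive stages -/
def Rel (L : ℝ) (K : ℕ → ℕ) (j : ℕ) (s s' : ℕ × ℕ) : Prop :=
  4 * s.1 ≤ s'.1 ∧ W L s'.1 s'.2 (K (j + 1)) ⊆ W L s.1 s.2 (K j) ∧
    ∀ t ∈ W L s'.1 s'.2 (K (j + 1)), ∀ ν μ : ℕ, Nat.Coprime ν μ → s.1 < ν → ν ≤ s'.1 →
      (ν, μ) ≠ s' → 2 / exp (ν * t / 2) < |ν * t - μ * L|

theorem chain {L α A : ℝ} (hL : 0 < L) (hα : 0 < α) (hA1 : 16 ≤ A) (hA2 : 16 ≤ A * L)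
    {N0 : ℕ} (hbig : ∀ ν : ℕ, N0 ≤ ν → A * (ν : ℝ) ^ 3 ≤ exp (α * ν / 8)) (K : ℕ → ℕ)
    (hK1 : ∀ j, 1 ≤ K j) (hK2 : ∀ j, K j ≤ 2 ^ (j + 1)) {s0 : ℕ × ℕ} (hs0 : Inv L α N0 0 s0) :
    ∃ f : ℕ → ℕ × ℕ, f 0 = s0 ∧ (∀ j, Inv L α N0 j (f j)) ∧ ∀ j, Rel L K j (f j) (f (j + 1)) := by
  have hstep : ∀ (j : ℕ) (s : {s : ℕ × ℕ // Inv L α N0 j s}),
      ∃ s' : {s : ℕ × ℕ // Inv L α N0 (j + 1) s}, Rel L K j s.1 s'.1 := by
    rintro j ⟨⟨n, m⟩, h1, h2, h3, h4⟩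
    simp only at h1 h2 h3 h4
    have h5 : 2 ^ (j + 2) ≤ 4 ^ (j + 1) := by
      rw [show (4 : ℕ) = 2 ^ 2 by norm_num, ← pow_mul]
      exact Nat.pow_le_pow_right (by norm_num) (by omega)
    have h6 : 2 ^ (j + 1) ≤ 2 ^ (j + 2) := Nat.pow_le_pow_right (by norm_num) (by omega)
    have h7 : 1 ≤ n := le_trans Nat.one_le_two_pow (h5.trans h4)
    obtain ⟨q, p, g1, g2, g3, g4, g5⟩ := step hL hα hA1 hA2 h7
      (fun ν hν => hbig ν (h3.trans hν)) h1 h2 (hK1 j) (((hK2 j).trans h6).trans (h5.trans h4))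
      (hK1 (j + 1)) (((hK2 (j + 1)).trans le_rfl).trans (h5.trans h4))
    refine ⟨⟨(q, p), g1, g3, h3.trans (by omega), ?_⟩, g2, g4, g5⟩
    calc 4 ^ (j + 1 + 1) = 4 * 4 ^ (j + 1) := by ring
      _ ≤ 4 * n := by omega
      _ ≤ q := g2
  choose nxt hnxt using hstep
  let f : (j : ℕ) → {s : ℕ × ℕ // Inv L α N0 j s} :=
    fun j => Nat.rec (motive := fun j => {s : ℕ × ℕ // Inv L α N0 j s}) ⟨s0, hs0⟩
      (fun j s => nxt j s) j
  refine ⟨fun j => (f j).1, rfl, fun j => (f j).2, fun j => ?_⟩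
  exact hnxt j (f j)

/-- the values of `t` obtained from a chain -/
theorem exists_t {L α : ℝ} {N0 : ℕ} {K : ℕ → ℕ} (hK1 : ∀ j, 1 ≤ K j) {f : ℕ → ℕ × ℕ}
    (hI : ∀ j, Inv L α N0 j (f j)) (hR : ∀ j, Rel L K j (f j) (f (j + 1))) :
    ∃ t : ℝ, ∀ j, t ∈ W L (f j).1 (f j).2 (K j) := by
  have hn : ∀ j, 1 ≤ (f j).1 := fun j => le_trans (Nat.one_le_pow _ _ (by norm_num)) (hI j).2.2.2
  have := IsCompact.nonempty_iInter_of_sequence_nonempty_isCompact_isClosed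
    (fun j => W L (f j).1 (f j).2 (K j)) (fun j => (hR j).2.1)
    (fun j => W_nonempty L (hn j) _ _) (W_compact L (hn 0) (hK1 0)) (fun j => W_closed L _ _ _)
  obtain ⟨t, ht⟩ := this
  exact ⟨t, fun j => Set.mem_iInter.1 ht j⟩

lemma exists_big (α A : ℝ) (hα : 0 < α) : ∃ N0 : ℕ, ∀ ν : ℕ, N0 ≤ ν →
    A * (ν : ℝ) ^ 3 ≤ exp (α * ν / 8) := by
  have h1 : Tendsto (fun x : ℝ => x ^ 3 / exp ((α / 8) * x)) atTop (𝓝 0) := by
    have := (tendsto_pow_mul_exp_neg_atTop_nhds_zero 3).comp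
      (tendsto_id.const_mul_atTop (by positivity : 0 < α / 8))
    have h2 := this.const_mul ((8 / α) ^ 3)
    rw [mul_zero] at h2
    refine h2.congr fun x => ?_
    simp only [Function.comp, id]
    rw [mul_pow, exp_neg]
    field_simp
  have h2 := (h1.comp tendsto_natCast_atTop_atTop).eventually
    (gt_mem_nhds (show (0 : ℝ) < 1 / (|A| + 1) by positivity))
  obtain ⟨N0, hN0⟩ := eventually_atTop.1 h2
  refine ⟨N0, fun ν hν => ?_⟩
  have h3 := hN0 ν hν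
  simp only [Function.comp] at h3
  rw [div_lt_div_iff₀ (exp_pos _) (by positivity), one_mul] at h3
  have e : α / 8 * (ν : ℝ) = α * ν / 8 := by ring
  rw [e] at h3
  have h4 : 0 ≤ (ν : ℝ) ^ 3 := by positivity
  have h5 : A * (ν : ℝ) ^ 3 ≤ |A| * (ν : ℝ) ^ 3 := mul_le_mul_of_nonneg_right (le_abs_self A) h4
  nlinarith

end Pool.Agent.X173.NCB
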