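import Mathlib
import Pool.Agent.X173.NCC
import Pool.Agent.X173.NCA

set_option autoImplicit false

namespace Pool.Agent.X173.NCB

open Real Filter Topology Set
open Pool.Agent.H491R3.PE Pool.Agent.X173.NCA

lemma sqrt_exp_pow (t : ℝ) (ν : ℕ) : √(exp t) ^ ν = exp (ν * t / 2) := by
  rw [← Real.exp_half, ← exp_nat_mul]
  congr 1; ring

section

variable {L α A : ℝ} {N0 : ℕ} {K : ℕ → ℕ} {f : ℕ → ℕ × ℕ} {t : ℝ}

lemma t_ge (hI : ∀ j, Inv L α N0 j (f j)) (hK1 : ∀ j, 1 ≤ K j)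
    (ht : ∀ j, t ∈ W L (f j).1 (f j).2 (K j)) : α ≤ t := by
  have hn : 1 ≤ (f 0).1 := le_trans (Nat.one_le_pow _ _ (by norm_num)) (hI 0).2.2.2
  have hn' : (0 : ℝ) < (f 0).1 := by exact_mod_cast hn
  have h1 := (W_sub_Icc L hn (hK1 0) (ht 0)).1
  have h2 := (hI 0).2.1
  rw [div_le_iff₀ hn'] at h1
  exact le_of_mul_le_mul_right (h2.trans h1) hn'

lemma near_chain (hL : 0 < L) (hα : 0 < α) (hA1 : 16 ≤ A)
    (hbig : ∀ ν : ℕ, N0 ≤ ν → A * (ν : ℝ) ^ 3 ≤ exp (α * ν / 8)) (hK1 : ∀ j, 1 ≤ K j)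
    (hI : ∀ j, Inv L α N0 j (f j)) (hR : ∀ j, Rel L K j (f j) (f (j + 1)))
    (ht : ∀ j, t ∈ W L (f j).1 (f j).2 (K j)) (p : ℕ × ℕ) (hp : p ∈ SS (exp t) (exp L))
    (hp0 : (f 0).1 < p.1) : ∃ j, p = f (j + 1) := by
  classical
  have htα := t_ge hI hK1 ht
  have ht0 : 0 < t := lt_of_lt_of_le hα htα
  have hex : ∃ j, p.1 ≤ (f j).1 := by
    refine ⟨p.1, ?_⟩
    have h1 := (hI p.1).2.2.2
    have h2 : p.1 + 1 < 4 ^ (p.1 + 1) := Nat.lt_pow_self (by norm_num)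
    omega
  obtain ⟨J, hJ⟩ : ∃ J, J = Nat.find hex := ⟨_, rfl⟩
  have hJ1 : p.1 ≤ (f J).1 := by rw [hJ]; exact Nat.find_spec hex
  have hJ0 : J ≠ 0 := by
    intro h
    rw [h] at hJ1
    omega
  obtain ⟨j, rfl⟩ := Nat.exists_eq_succ_of_ne_zero hJ0
  have hj : (f j).1 < p.1 := by
    by_contra hcon
    push Not at hcon
    have := Nat.find_min' hex hcon
    omega
  refine ⟨j, ?_⟩
  by_contra hne
  have h1 := (hR j).2.2 t (ht (j + 1)) p.1 p.2 hp.1 hj hJ1 hne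
  have h2 : 2 < √(exp t) ^ p.1 := by
    rw [sqrt_exp_pow]
    have hN : N0 ≤ p.1 := (hI j).2.2.1.trans hj.le
    have h3 := hbig p.1 hN
    have h4 : (1 : ℝ) ≤ (p.1 : ℝ) ^ 3 := by
      apply one_le_pow₀
      have : 1 ≤ p.1 := by omega
      exact_mod_cast this
    have h5 : α * p.1 / 8 ≤ p.1 * t / 2 := by
      have : α * p.1 ≤ p.1 * t := by
        rw [mul_comm]; exact mul_le_mul_of_nonneg_left htα (Nat.cast_nonneg _)
      have h6 : 0 ≤ α * p.1 := by positivity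
      linarith
    have h6 := exp_le_exp.2 h5
    nlinarith
  have h3 := approxS (Real.one_lt_exp_iff.2 ht0) (Real.one_lt_exp_iff.2 hL) hp h2
  rw [log_exp, log_exp, sqrt_exp_pow] at h3
  exact absurd h3 (not_le.2 h1)

lemma mem_SS (hL : 0 < L) (hα : 0 < α) (hA1 : 16 ≤ A)
    (hbig : ∀ ν : ℕ, N0 ≤ ν → A * (ν : ℝ) ^ 3 ≤ exp (α * ν / 8)) (hK1 : ∀ j, 1 ≤ K j)
    (hK2 : ∀ j, K j ≤ 2 ^ (j + 1))
    (hI : ∀ j, Inv L α N0 j (f j))
    (ht : ∀ j, t ∈ W L (f j).1 (f j).2 (K j)) (j : ℕ) :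
    f j ∈ SS (exp t) (exp L) ∧ (K j : ℝ) - 1 / 2 ≤ |exp t ^ (f j).1 - exp L ^ (f j).2| ∧
      |exp t ^ (f j).1 - exp L ^ (f j).2| ≤ K j := by
  have htα := t_ge hI hK1 ht
  have ht0 : 0 < t := lt_of_lt_of_le hα htα
  obtain ⟨h1, h2⟩ := ht j
  have hK : (1 : ℝ) ≤ K j := by exact_mod_cast hK1 j
  rw [← exp_nat_mul, ← exp_nat_mul, abs_of_pos (by linarith)]
  refine ⟨⟨(hI j).1, ?_⟩, h1, h2⟩
  rw [← exp_nat_mul, ← exp_nat_mul, abs_of_pos (by linarith)]
  have hKn : K j ≤ (f j).1 := by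
    have h5 : 2 ^ (j + 1) ≤ 4 ^ (j + 1) := Nat.pow_le_pow_left (by norm_num) _
    exact (hK2 j).trans (h5.trans (hI j).2.2.2)
  have hKn' : (K j : ℝ) ≤ (f j).1 := by exact_mod_cast hKn
  have hn1 : (1 : ℝ) ≤ (f j).1 := hK.trans hKn'
  have h3 := hbig _ (hI j).2.2.1
  have h4 : exp (α * (f j).1 / 8) ≤ exp ((f j).1 * t) := by
    apply exp_le_exp.2
    have : α * (f j).1 ≤ (f j).1 * t := by
      rw [mul_comm]; exact mul_le_mul_of_nonneg_left htα (by linarith)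
    have h6 : 0 ≤ α * (f j).1 := by positivity
    linarith
  have h5 : (exp ((f j).1 * t) - exp ((f j).2 * L)) ^ 2 ≤ ((f j).1 : ℝ) ^ 2 :=
    pow_le_pow_left₀ (by linarith) (by linarith) 2
  have h6 : ((f j).1 : ℝ) ^ 2 < A * ((f j).1 : ℝ) ^ 3 := by
    have : ((f j).1 : ℝ) ^ 2 ≤ ((f j).1 : ℝ) ^ 3 := pow_le_pow_right₀ hn1 (by norm_num)
    have h7 : (0 : ℝ) < ((f j).1 : ℝ) ^ 3 := by positivity
    nlinarith
  linarith

lemma f_strict (hI : ∀ j, Inv L α N0 j (f j)) (hR : ∀ j, Rel L K j (f j) (f (j + 1))) :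
    StrictMono (fun j => (f j).1) := by
  apply strictMono_nat_of_lt_succ
  intro j
  have h1 := (hR j).1
  have h2 : 1 ≤ (f j).1 := le_trans (Nat.one_le_pow _ _ (by norm_num)) (hI j).2.2.2
  omega

lemma irr (hL : 0 < L) (hα : 0 < α) (hA1 : 16 ≤ A)
    (hbig : ∀ ν : ℕ, N0 ≤ ν → A * (ν : ℝ) ^ 3 ≤ exp (α * ν / 8)) (hK1 : ∀ j, 1 ≤ K j)
    (hK2 : ∀ j, K j ≤ 2 ^ (j + 1))
    (hI : ∀ j, Inv L α N0 j (f j))
    (ht : ∀ j, t ∈ W L (f j).1 (f j).2 (K j)) : Irrational (t / L) := by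
  rintro ⟨r, hr⟩
  have hr' : t = r * L := by rw [hr]; field_simp
  have hden : (0 : ℝ) < r.den := by exact_mod_cast r.den_pos
  have hrn : (r : ℝ) * r.den = r.num := by exact_mod_cast Rat.mul_den_eq_num r
  obtain ⟨j, hj⟩ := exists_nat_gt ((r.den : ℝ) / L)
  have hn4 := (hI j).2.2.2
  have hjn : j < (f j).1 := by
    have h2 : j + 1 < 4 ^ (j + 1) := Nat.lt_pow_self (by norm_num)
    omega
  have hn1 : 1 ≤ (f j).1 := by omega
  have hn1' : (1 : ℝ) ≤ (f j).1 := by exact_mod_cast hn1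
  obtain ⟨h1, h2⟩ := ht j
  have hK : (1 : ℝ) ≤ K j := by exact_mod_cast hK1 j
  have h0 : 0 < (f j).1 * t - (f j).2 * L := by
    have : exp ((f j).2 * L) < exp ((f j).1 * t) := by linarith
    have := exp_lt_exp.1 this
    linarith
  have hKn : K j ≤ (f j).1 := by
    have h5 : 2 ^ (j + 1) ≤ 4 ^ (j + 1) := Nat.pow_le_pow_left (by norm_num) _
    exact (hK2 j).trans (h5.trans hn4)
  have hKn' : (K j : ℝ) ≤ (f j).1 := by exact_mod_cast hKn
  have hB : A * ((f j).1 : ℝ) ^ 3 ≤ exp ((f j).2 * L) := by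
    refine (hbig _ (hI j).2.2.1).trans (exp_le_exp.2 ?_)
    have h3 := (hI j).2.1
    have h4 : 0 < α * (f j).1 := by positivity
    linarith
  have h3 : ((f j).1 * t - (f j).2 * L) * (f j).1 < 1 := by
    have e1 : exp ((f j).1 * t) = exp ((f j).2 * L) * exp ((f j).1 * t - (f j).2 * L) := by
      rw [← exp_add]; congr 1; ring
    have h4 : (f j).1 * t - (f j).2 * L ≤ exp ((f j).1 * t - (f j).2 * L) - 1 := by
      have := add_one_le_exp ((f j).1 * t - (f j).2 * L); linarith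
    have h5 : exp ((f j).2 * L) * ((f j).1 * t - (f j).2 * L) ≤ K j := by
      have := mul_le_mul_of_nonneg_left h4 (exp_pos ((f j).2 * L)).le
      rw [e1] at h2
      linarith
    have h6 : A * ((f j).1 : ℝ) ^ 3 * ((f j).1 * t - (f j).2 * L) ≤ (f j).1 :=
      (mul_le_mul_of_nonneg_right hB h0.le).trans (h5.trans hKn')
    have h7 : (16 : ℝ) * ((f j).1 : ℝ) ^ 3 * ((f j).1 * t - (f j).2 * L) ≤ (f j).1 := by
      refine le_trans ?_ h6
      apply mul_le_mul_of_nonneg_right _ h0.le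
      exact mul_le_mul_of_nonneg_right hA1 (by positivity)
    have h8 : (16 : ℝ) * ((f j).1 : ℝ) ^ 2 * ((f j).1 * t - (f j).2 * L) ≤ 1 := by
      have e : (16 : ℝ) * ((f j).1 : ℝ) ^ 3 * ((f j).1 * t - (f j).2 * L) =
          ((f j).1 : ℝ) * (16 * ((f j).1 : ℝ) ^ 2 * ((f j).1 * t - (f j).2 * L)) := by ring
      rw [e] at h7
      have h9 : ((f j).1 : ℝ) * (16 * ((f j).1 : ℝ) ^ 2 * ((f j).1 * t - (f j).2 * L)) ≤
          (f j).1 * 1 := by linarith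
      exact le_of_mul_le_mul_left h9 (by linarith)
    have h10 : ((f j).1 * t - (f j).2 * L) * (f j).1 ≤
        ((f j).1 : ℝ) ^ 2 * ((f j).1 * t - (f j).2 * L) := by
      have : ((f j).1 : ℝ) * 1 ≤ (f j).1 * (f j).1 := mul_le_mul_of_nonneg_left hn1' (by linarith)
      have := mul_le_mul_of_nonneg_right this h0.le
      nlinarith
    linarith [mul_pos (show (0 : ℝ) < ((f j).1 : ℝ) ^ 2 by positivity) h0]
  -- the integer
  have e2 : (f j).1 * t - (f j).2 * L = (((f j).1 * r.num - (f j).2 * r.den : ℤ) : ℝ) * L / r.den := by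
    rw [hr', eq_div_iff hden.ne']
    push_cast
    linear_combination ((f j).1 : ℝ) * L * hrn
  have h4 : (0 : ℝ) < (((f j).1 * r.num - (f j).2 * r.den : ℤ) : ℝ) := by
    rw [e2] at h0
    have h5 := (div_pos_iff_of_pos_right hden).1 h0
    exact pos_of_mul_pos_left h5 hL.le
  have h5 : (1 : ℝ) ≤ (((f j).1 * r.num - (f j).2 * r.den : ℤ) : ℝ) := by
    have : (0 : ℤ) < ((f j).1 * r.num - (f j).2 * r.den : ℤ) := by exact_mod_cast h4
    exact_mod_cast this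
  have h6 : L / r.den ≤ (f j).1 * t - (f j).2 * L := by
    rw [e2]
    apply div_le_div_of_nonneg_right _ hden.le
    nlinarith
  have h7 : L / r.den * (f j).1 < 1 := lt_of_le_of_lt
    (mul_le_mul_of_nonneg_right h6 (by linarith)) h3
  have h8 : (r.den : ℝ) / L < (f j).1 := lt_trans hj (by exact_mod_cast hjn)
  rw [div_lt_iff₀ hL] at h8
  rw [div_mul_eq_mul_div, div_lt_one hden] at h7
  linarith

end

/-- **Prescribed excess.** -/
theorem realize {b c d : ℝ} (hb : 1 < b) (hc : 1 ≤ c) (hcd : c < d) (G : ℕ → ℕ) (hG : Monotone G)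
    (hG0 : G 0 = 0) (hGl : ∀ k, Nat.log 2 (k + 1) ≤ G k) :
    ∃ a : ℝ, c < a ∧ a < d ∧ Irrational (log a / log b) ∧ ∃ C : ℝ, ∀ x : ℝ, 2 ≤ x →
      (NS a b x).Finite ∧
      (G ⌊x⌋₊ : ℝ) - C * log x ≤ ((NS a b x).ncard : ℝ) - log x ^ 2 / (log a * log b) ∧
      ((NS a b x).ncard : ℝ) - log x ^ 2 / (log a * log b) ≤ (G ⌈x⌉₊ : ℝ) + C * log x := by
  classical
  obtain ⟨L, hLb⟩ : ∃ L, L = log b := ⟨_, rfl⟩
  have hL : 0 < L := by rw [hLb]; exact log_pos hb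
  have hbL : b = exp L := by rw [hLb, exp_log (by linarith)]
  have hlc : 0 ≤ log c := log_nonneg hc
  have hlcd : log c < log d := log_lt_log (by linarith) hcd
  obtain ⟨α, hαd⟩ : ∃ α, α = (log c + log d) / 2 := ⟨_, rfl⟩
  have hα : 0 < α := by linarith
  have hαc : log c < α := by linarith
  have hαd' : α < log d := by linarith
  obtain ⟨A, hAd⟩ : ∃ A, A = max 16 (16 / L) := ⟨_, rfl⟩
  have hA1 : 16 ≤ A := by rw [hAd]; exact le_max_left _ _
  have hA2 : 16 ≤ A * L := by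
    have : 16 / L ≤ A := by rw [hAd]; exact le_max_right _ _
    rwa [div_le_iff₀ hL] at this
  obtain ⟨N0, hN0⟩ := exists_big α A hα
  -- thresholds
  have hex : ∀ j : ℕ, ∃ k, j < G k := fun j => by
    refine ⟨2 ^ (j + 1) - 1, lt_of_lt_of_le ?_ (hGl _)⟩
    rw [Nat.sub_add_cancel Nat.one_le_two_pow, Nat.log_pow (by norm_num)]
    omega
  obtain ⟨K, hKdef⟩ : ∃ K : ℕ → ℕ, K = fun j => Nat.find (hex j) := ⟨_, rfl⟩
  have hKle : ∀ j k, K j ≤ k ↔ j < G k := by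
    intro j k
    rw [hKdef]
    simp only
    rw [Nat.find_le_iff]
    constructor
    · rintro ⟨m, hm, h⟩
      exact lt_of_lt_of_le h (hG hm)
    · intro h
      exact ⟨k, le_rfl, h⟩
  have hK1 : ∀ j, 1 ≤ K j := by
    intro j
    by_contra hcon
    push Not at hcon
    have : K j ≤ 0 := by omega
    rw [hKle, hG0] at this
    omega
  have hK2 : ∀ j, K j ≤ 2 ^ (j + 1) := by
    intro j
    rw [hKle]
    refine lt_of_lt_of_le ?_ (hGl _)
    have : Nat.log 2 (2 ^ (j + 1)) ≤ Nat.log 2 (2 ^ (j + 1) + 1) := Nat.log_mono_right (by omega)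
    rw [Nat.log_pow (by norm_num)] at this
    omega
  -- the starting rational
  obtain ⟨r, hr1, hr2⟩ := exists_rat_btwn (div_lt_div_of_pos_right hαd' hL)
  rw [div_lt_iff₀ hL] at hr1
  rw [lt_div_iff₀ hL] at hr2
  have hr0 : (0 : ℝ) < r := by
    have : 0 < (r : ℝ) * L := lt_trans hα hr1
    exact pos_of_mul_pos_left this hL.le
  have hrq : 0 < r := by exact_mod_cast hr0
  obtain ⟨u, hu⟩ : ∃ u : ℕ, u = r.num.toNat := ⟨_, rfl⟩
  obtain ⟨v, hv⟩ : ∃ v : ℕ, v = r.den := ⟨_, rfl⟩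
  have hunum : (u : ℤ) = r.num := by rw [hu]; exact Int.toNat_of_nonneg (Rat.num_nonneg.2 hrq.le)
  have hv1 : 1 ≤ v := by rw [hv]; exact r.den_pos
  have hv1' : (1 : ℝ) ≤ v := by exact_mod_cast hv1
  have hru : (r : ℝ) * v = u := by
    have h1 : (r : ℝ) * r.den = r.num := by exact_mod_cast Rat.mul_den_eq_num r
    have h2 : ((u : ℤ) : ℝ) = (r.num : ℝ) := by rw [hunum]
    rw [hv, h1, ← h2]
    norm_cast
  obtain ⟨k1, hk1⟩ := exists_nat_gt ((L + K 0) / (log d - r * L))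
  obtain ⟨k, hk⟩ : ∃ k, k = max (max N0 4) (max k1 1) := ⟨_, rfl⟩
  have hkN : N0 ≤ k := by rw [hk]; exact (le_max_left _ _).trans (le_max_left _ _)
  have hk4 : 4 ≤ k := by rw [hk]; exact (le_max_right _ _).trans (le_max_left _ _)
  have hkk1 : k1 ≤ k := by rw [hk]; exact (le_max_left _ _).trans (le_max_right _ _)
  have hk4' : (4 : ℝ) ≤ k := by exact_mod_cast hk4
  have hkn : k ≤ k * v ^ 2 := Nat.le_mul_of_pos_right _ (by positivity)
  have hn0pos : (0 : ℝ) < ((k * v ^ 2 : ℕ) : ℝ) := by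
    have : 0 < k * v ^ 2 := by omega
    exact_mod_cast this
  have hcop0 : Nat.Coprime (k * v ^ 2) (u * k * v + 1) := by
    rw [← Nat.isCoprime_iff_coprime]
    refine ⟨(u : ℤ) ^ 2 * k, 1 - u * k * v, ?_⟩
    push_cast
    ring
  have hI0 : Inv L α N0 0 (k * v ^ 2, u * k * v + 1) := by
    refine ⟨hcop0, ?_, hkN.trans hkn, ?_⟩
    · push_cast
      have h1 : α * v ≤ u * L := by rw [← hru]; nlinarith
      have h2 : (α * v) * (k * v) ≤ (u * L) * (k * v) :=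
        mul_le_mul_of_nonneg_right h1 (by positivity)
      nlinarith
    · simpa using hk4.trans hkn
  obtain ⟨f, hf0, hI, hR⟩ := chain hL hα hA1 hA2 hN0 K hK1 hK2 hI0
  obtain ⟨t, ht⟩ := exists_t hK1 hI hR
  have htα := t_ge hI hK1 ht
  have ht0 : 0 < t := lt_of_lt_of_le hα htα
  have hirr := irr hL hα hA1 hN0 hK1 hK2 hI ht
  have htd : t < log d := by
    have h1 := (W_sub_Icc L (by rw [hf0]; simp only; omega) (hK1 0) (ht 0)).2
    rw [hf0] at h1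
    simp only at h1
    rw [le_div_iff₀ hn0pos] at h1
    have h2 : (K 0 : ℝ) / exp (((u * k * v + 1 : ℕ) : ℝ) * L) ≤ K 0 := by
      apply div_le_self (Nat.cast_nonneg _)
      exact Real.one_le_exp (by positivity)
    have h3 : t * ((k * v ^ 2 : ℕ) : ℝ) ≤ r * L * (k * v ^ 2 : ℕ) + (L + K 0) := by
      push_cast at h1 h2 ⊢
      have e : (u : ℝ) * k * v * L = r * L * (k * v ^ 2) := by rw [← hru]; ring
      nlinarith
    have h4 : L + K 0 < (log d - r * L) * (k * v ^ 2 : ℕ) := by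
      have hpos : 0 < log d - r * L := by linarith
      rw [div_lt_iff₀ hpos] at hk1
      have h5 : (k1 : ℝ) ≤ (k * v ^ 2 : ℕ) := by exact_mod_cast hkk1.trans hkn
      nlinarith
    have h5 : t * ((k * v ^ 2 : ℕ) : ℝ) < log d * (k * v ^ 2 : ℕ) := by nlinarith
    exact lt_of_mul_lt_mul_right h5 hn0pos.le
  have ha1 : 1 < exp t := Real.one_lt_exp_iff.2 ht0
  have hb1 : 1 < exp L := Real.one_lt_exp_iff.2 hL
  have hstr := f_strict hI hR
  have hinj : Function.Injective f := fun i j h => hstr.injective (congrArg Prod.fst h)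
  have hmem := mem_SS hL hα hA1 hN0 hK1 hK2 hI ht
  have hfin0 := fin_first ha1 hb1 ((f 0).1 + 1)
  -- the near misses up to x
  have hSXsub : ∀ x : ℝ, SX (exp t) (exp L) x ⊆ {p | p ∈ SS (exp t) (exp L) ∧ p.1 < (f 0).1 + 1} ∪
      f '' (Finset.range (G ⌈x⌉₊) : Set ℕ) := by
    intro x p hp
    by_cases h1 : p.1 < (f 0).1 + 1
    · left; exact ⟨hp.1, h1⟩
    · right
      obtain ⟨j, hj⟩ := near_chain hL hα hA1 hN0 hK1 hI hR ht p hp.1 (by omega)
      refine ⟨j + 1, ?_, hj.symm⟩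
      have h2 := (hmem (j + 1)).2.1
      rw [← hj] at h2
      have h3 : (K (j + 1) : ℝ) - 1 / 2 ≤ x := h2.trans hp.2
      rw [Finset.mem_coe, Finset.mem_range, ← hKle]
      by_contra hcon
      push Not at hcon
      have h4 : ((⌈x⌉₊ : ℝ)) + 1 ≤ K (j + 1) := by exact_mod_cast hcon
      have h5 := Nat.le_ceil x
      linarith
  have hSXfin : ∀ x : ℝ, (SX (exp t) (exp L) x).Finite := fun x =>
    (hfin0.union ((Finset.finite_toSet _).image f)).subset (hSXsub x)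
  have hSXup : ∀ x : ℝ, ((SX (exp t) (exp L) x).ncard : ℝ) ≤
      ({p | p ∈ SS (exp t) (exp L) ∧ p.1 < (f 0).1 + 1}.ncard : ℝ) + G ⌈x⌉₊ := by
    intro x
    have h1 := Set.ncard_le_ncard (hSXsub x) (hfin0.union ((Finset.finite_toSet _).image f))
    have h2 := Set.ncard_union_le {p | p ∈ SS (exp t) (exp L) ∧ p.1 < (f 0).1 + 1}
      (f '' (Finset.range (G ⌈x⌉₊) : Set ℕ))
    rw [Set.ncard_image_of_injective _ hinj, Set.ncard_coe_finset, Finset.card_range] at h2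
    exact_mod_cast h1.trans h2
  have hSXlow : ∀ x : ℝ, 0 ≤ x → (G ⌊x⌋₊ : ℝ) ≤ ((SX (exp t) (exp L) x).ncard : ℝ) := by
    intro x hx
    have h1 : f '' (Finset.range (G ⌊x⌋₊) : Set ℕ) ⊆ SX (exp t) (exp L) x := by
      rintro p ⟨j, hj, rfl⟩
      rw [Finset.mem_coe, Finset.mem_range, ← hKle] at hj
      refine ⟨(hmem j).1, (hmem j).2.2.trans ?_⟩
      have h2 : (K j : ℝ) ≤ ⌊x⌋₊ := by exact_mod_cast hj
      exact h2.trans (Nat.floor_le hx)
    have h2 := Set.ncard_le_ncard h1 (hSXfin x)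
    rw [Set.ncard_image_of_injective _ hinj, Set.ncard_coe_finset, Finset.card_range] at h2
    exact_mod_cast h2
  obtain ⟨C, hC⟩ := countS ha1 hb1 (by rw [log_exp, log_exp]; exact hirr) hSXfin
  refine ⟨exp t, ?_, ?_, ?_, C + ({p | p ∈ SS (exp t) (exp L) ∧ p.1 < (f 0).1 + 1}.ncard : ℝ) / log 2,
    fun x hx => ?_⟩
  · rw [← exp_log (show (0 : ℝ) < c by linarith)]
    exact exp_lt_exp.2 (by linarith)
  · rw [← exp_log (show (0 : ℝ) < d by linarith)]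
    exact exp_lt_exp.2 htd
  · rw [log_exp, ← hLb]; exact hirr
  · rw [hbL]
    obtain ⟨h1, h2⟩ := hC x hx
    have h3 := hSXup x
    have h4 := hSXlow x (by linarith)
    have hl2 : 0 < log 2 := log_pos (by norm_num)
    have hlx : log 2 ≤ log x := log_le_log (by norm_num) hx
    have h5 : ({p | p ∈ SS (exp t) (exp L) ∧ p.1 < (f 0).1 + 1}.ncard : ℝ) ≤
        ({p | p ∈ SS (exp t) (exp L) ∧ p.1 < (f 0).1 + 1}.ncard : ℝ) / log 2 * log x := by
      rw [div_mul_eq_mul_div, le_div_iff₀ hl2]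
      exact mul_le_mul_of_nonneg_left hlx (Nat.cast_nonneg _)
    have h6 : (0 : ℝ) ≤ ({p | p ∈ SS (exp t) (exp L) ∧ p.1 < (f 0).1 + 1}.ncard : ℝ) / log 2 * log x := by
      linarith [Nat.cast_nonneg (α := ℝ) ({p | p ∈ SS (exp t) (exp L) ∧ p.1 < (f 0).1 + 1}.ncard)]
    rw [abs_le] at h2
    rw [add_mul]
    exact ⟨h1, by linarith [h2.1], by linarith [h2.2]⟩

end Pool.Agent.X173.NCB
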