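import Mathlib
set_option autoImplicit false

/-!
Unit-regularity of rings `S₀ + (finite rank operators)`.
-/

namespace Pool.Agent.X173.UR

universe u v

section fd
variable {F : Type u} [Field F] {V : Type v} [AddCommGroup V] [Module F V]

/-- endomorphisms of a finite-dimensional space are unit-regular -/
theorem fd_unitreg [FiniteDimensional F V] (f : Module.End F V) :
    ∃ u u' : Module.End F V, u * u' = 1 ∧ u' * u = 1 ∧ f * u * f = f := by
  obtain ⟨W, hW⟩ := Submodule.exists_isCompl (LinearMap.ker f)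
  obtain ⟨C, hC⟩ := Submodule.exists_isCompl (LinearMap.range f)
  -- the isomorphism W ≃ range f
  let fW : W →ₗ[F] LinearMap.range f := f.rangeRestrict.comp W.subtype
  have hinj : Function.Injective fW := by
    rw [← LinearMap.ker_eq_bot, eq_bot_iff]
    intro w hw
    have h1 : f w = 0 := congrArg Subtype.val (LinearMap.mem_ker.mp hw)
    have h2 : (w : V) ∈ LinearMap.ker f ⊓ W := ⟨LinearMap.mem_ker.mpr h1, w.2⟩
    rw [hW.inf_eq_bot] at h2
    rw [Submodule.mem_bot]
    exact Subtype.ext (by simpa using h2)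
  have hsurj : Function.Surjective fW := by
    rintro ⟨y, x, rfl⟩
    have hx : x ∈ LinearMap.ker f ⊔ W := by rw [hW.sup_eq_top]; trivial
    obtain ⟨k, hk, w, hw, rfl⟩ := Submodule.mem_sup.mp hx
    refine ⟨⟨w, hw⟩, Subtype.ext ?_⟩
    show f w = f (k + w)
    rw [map_add, LinearMap.mem_ker.mp hk, zero_add]
  let eW : W ≃ₗ[F] LinearMap.range f := LinearEquiv.ofBijective fW ⟨hinj, hsurj⟩
  have heW : ∀ w : W, ((eW w : LinearMap.range f) : V) = f w := fun w => rfl
  -- ker f ≃ C
  have hdim : Module.finrank F (LinearMap.ker f) = Module.finrank F C := by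
    have h1 := LinearMap.finrank_range_add_finrank_ker f
    have h2 := Submodule.finrank_add_eq_of_isCompl hC
    omega
  let eK : LinearMap.ker f ≃ₗ[F] C := LinearEquiv.ofFinrankEq _ _ hdim
  let g : V ≃ₗ[F] V := (Submodule.prodEquivOfIsCompl _ _ hW).symm ≪≫ₗ
    (eK.prodCongr eW) ≪≫ₗ (Submodule.prodEquivOfIsCompl _ _ hC.symm)
  have hg : ∀ w : W, g w = f w := by
    intro w
    simp only [g, LinearEquiv.trans_apply]
    have h1 : (Submodule.prodEquivOfIsCompl _ _ hW).symm (w : V) = (0, w) :=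
      Submodule.prodEquivOfIsCompl_symm_apply_right _ _ hW w
    rw [h1]
    simp [heW]
  refine ⟨g.symm.toLinearMap, g.toLinearMap, ?_, ?_, ?_⟩
  · ext x; simp
  · ext x; simp
  · ext x
    show f (g.symm (f x)) = f x
    have hx : x ∈ LinearMap.ker f ⊔ W := by rw [hW.sup_eq_top]; trivial
    obtain ⟨k, hk, w, hw, rfl⟩ := Submodule.mem_sup.mp hx
    have h1 : f (k + w) = f w := by rw [map_add, LinearMap.mem_ker.mp hk, zero_add]
    have h2 : f w = g w := (hg ⟨w, hw⟩).symm
    rw [h1]
    conv_lhs => rw [h2]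
    rw [LinearEquiv.symm_apply_apply]

/-- relative complements -/
theorem rel_compl (H K : Submodule F V) : ∃ Z ≤ K, Disjoint Z H ∧ K ≤ Z ⊔ H := by
  obtain ⟨C, hC⟩ := Submodule.exists_isCompl (H ⊓ K)
  refine ⟨C ⊓ K, inf_le_right, ?_, ?_⟩
  · rw [disjoint_iff, eq_bot_iff]
    intro x hx
    have : x ∈ (H ⊓ K) ⊓ C := ⟨⟨hx.2, hx.1.2⟩, hx.1.1⟩
    rw [hC.inf_eq_bot] at this
    exact this
  · intro x hx
    have hx' : x ∈ (H ⊓ K) ⊔ C := by rw [hC.sup_eq_top]; trivial
    obtain ⟨a, ha, c, hc, rfl⟩ := Submodule.mem_sup.mp hx'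
    have hcK : c ∈ K := by
      have := K.sub_mem hx ha.2
      simpa using this
    rw [add_comm]
    exact Submodule.add_mem_sup ⟨hc, hcK⟩ ha.1

/-- Almost idempotent operators have unit inner inverses which are finite rank perturbations
of the identity. -/
theorem almost_idem (y : Module.End F V) (hy : (LinearMap.range (y * y - y)).FG) :
    ∃ v v' : Module.End F V, v * v' = 1 ∧ v' * v = 1 ∧ y * v * y = y ∧
      (LinearMap.range (v - 1)).FG ∧ (LinearMap.range (v' - 1)).FG := by
  set φ := y * y - y with hφ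
  have hcomm : ∀ x, y (φ x) = φ (y x) := by
    intro x; simp [hφ]
  have hφx : ∀ x, φ x = y (y x) - y x := fun x => by simp [hφ]
  obtain ⟨M, hM⟩ := Submodule.exists_isCompl (LinearMap.ker φ)
  have hMfg : M.FG := by
    have e1 : (V ⧸ LinearMap.ker φ) ≃ₗ[F] M := Submodule.quotientEquivOfIsCompl _ _ hM
    have e2 : (V ⧸ LinearMap.ker φ) ≃ₗ[F] LinearMap.range φ := φ.quotKerEquivRange
    have : Module.Finite F (LinearMap.range φ) := Module.Finite.iff_fg.mpr hy
    have : Module.Finite F M := Module.Finite.equiv (e2.symm ≪≫ₗ e1)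
    exact Module.Finite.iff_fg.mp this
  let H : Submodule F V := M ⊔ M.map y ⊔ LinearMap.range φ
  have hHfg : H.FG := (hMfg.sup (hMfg.map y)).sup hy
  have hH1 : M ≤ H := le_sup_left.trans le_sup_left
  have hH2 : M.map y ≤ H := le_sup_right.trans le_sup_left
  have hH3 : LinearMap.range φ ≤ H := le_sup_right
  have hyH : ∀ x ∈ H, y x ∈ H := by
    intro x hx
    obtain ⟨a, ha, b, ⟨b', rfl⟩, rfl⟩ := Submodule.mem_sup.mp hx
    obtain ⟨m, hm, c, ⟨m', hm', rfl⟩, rfl⟩ := Submodule.mem_sup.mp ha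
    rw [map_add, map_add]
    refine H.add_mem (H.add_mem (hH2 ⟨m, hm, rfl⟩) ?_) ?_
    · have : y (y m') = y m' + φ m' := by rw [hφx]; abel
      rw [this]
      exact H.add_mem (hH2 ⟨m', hm', rfl⟩) (hH3 ⟨m', rfl⟩)
    · rw [hcomm]
      exact hH3 ⟨_, rfl⟩
  obtain ⟨Z0, hZ0, hd0, hc0⟩ := rel_compl H (LinearMap.ker y)
  obtain ⟨Z1, hZ1, hd1, hc1⟩ := rel_compl H (LinearMap.ker (y - 1))
  let Z : Submodule F V := Z0 ⊔ Z1
  have hy0 : ∀ z ∈ Z0, y z = 0 := fun z hz => LinearMap.mem_ker.mp (hZ0 hz)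
  have hy1 : ∀ z ∈ Z1, y z = z := by
    intro z hz
    have := LinearMap.mem_ker.mp (hZ1 hz)
    rw [LinearMap.sub_apply, Module.End.one_apply, sub_eq_zero] at this
    exact this
  have hyZ : ∀ z ∈ Z, y z ∈ Z ∧ φ z = 0 := by
    intro z hz
    obtain ⟨a, ha, b, hb, rfl⟩ := Submodule.mem_sup.mp hz
    have h1 : y (a + b) = b := by rw [map_add, hy0 a ha, hy1 b hb, zero_add]
    refine ⟨?_, ?_⟩
    · rw [h1]
      exact Submodule.mem_sup_right hb
    · rw [hφx, h1, hy1 b hb, sub_self]
  have hHZ : IsCompl H Z := by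
    constructor
    · rw [Submodule.disjoint_def]
      intro x hxH hxZ
      obtain ⟨a, ha, b, hb, rfl⟩ := Submodule.mem_sup.mp hxZ
      have h1 : y (a + b) = b := by rw [map_add, hy0 a ha, hy1 b hb, zero_add]
      have h2 : b ∈ H := by rw [← h1]; exact hyH _ hxH
      have h3 : b = 0 := Submodule.disjoint_def.mp hd1 b hb h2
      subst h3
      rw [add_zero] at hxH ⊢
      exact Submodule.disjoint_def.mp hd0 a ha hxH
    · rw [codisjoint_iff, eq_top_iff]
      intro x _
      have hx : x ∈ LinearMap.ker φ ⊔ M := by rw [hM.sup_eq_top]; trivial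
      obtain ⟨k, hk, m, hm, rfl⟩ := Submodule.mem_sup.mp hx
      apply Submodule.add_mem _ _ (Submodule.mem_sup_left (hH1 hm))
      have h1 : y (y k) = y k := by
        have := LinearMap.mem_ker.mp hk
        rw [hφx, sub_eq_zero] at this
        exact this
      have h2 : k = (k - y k) + y k := by abel
      rw [h2]
      apply Submodule.add_mem
      · have h3 : k - y k ∈ LinearMap.ker y := by
          rw [LinearMap.mem_ker, map_sub, h1, sub_self]
        obtain ⟨a, ha, b, hb, hab⟩ := Submodule.mem_sup.mp (hc0 h3)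
        rw [← hab]
        exact Submodule.add_mem _ (Submodule.mem_sup_right (Submodule.mem_sup_left ha))
          (Submodule.mem_sup_left hb)
      · have h3 : y k ∈ LinearMap.ker (y - 1) := by
          rw [LinearMap.mem_ker, LinearMap.sub_apply, h1, Module.End.one_apply, sub_self]
        obtain ⟨a, ha, b, hb, hab⟩ := Submodule.mem_sup.mp (hc1 h3)
        rw [← hab]
        exact Submodule.add_mem _ (Submodule.mem_sup_right (Submodule.mem_sup_right ha))
          (Submodule.mem_sup_left hb)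
  have hfin : FiniteDimensional F H := Module.Finite.iff_fg.mpr hHfg
  let yH : Module.End F H := y.restrict hyH
  have hyHx : ∀ h : H, (yH h : V) = y h := fun h => rfl
  obtain ⟨u, u', huu', hu'u, hyuy⟩ := fd_unitreg yH
  let P : V →ₗ[F] H := H.projectionOnto Z hHZ
  have hPH : ∀ h : H, P h = h := fun h => Submodule.projectionOnto_apply_left hHZ h
  have hPZ : ∀ z ∈ Z, P z = 0 := fun z hz =>
    (Submodule.projectionOnto_apply_eq_zero_iff hHZ).mpr hz
  let mk : Module.End F H → Module.End F V := fun w => 1 + H.subtype ∘ₗ (w - 1) ∘ₗ P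
  have hmk : ∀ w x, mk w x = x + ((w (P x) : H) : V) - (P x : V) := by
    intro w x
    simp [mk]
    abel
  have hPmk : ∀ w x, P (mk w x) = w (P x) := by
    intro w x
    rw [hmk, map_sub, map_add, hPH, hPH]; abel
  have hmul : ∀ w w', w * w' = 1 → mk w * mk w' = 1 := by
    intro w w' h
    ext x
    have h1 : w (w' (P x)) = P x := by
      have := LinearMap.congr_fun h (P x)
      exact this
    show mk w (mk w' x) = x
    rw [hmk w, hPmk, h1, hmk w']
    abel
  have hrange : ∀ w, (LinearMap.range (mk w - 1)).FG := by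
    intro w
    have h1 : LinearMap.range (mk w - 1) ≤ H := by
      rintro _ ⟨x, rfl⟩
      rw [LinearMap.sub_apply, hmk, Module.End.one_apply]
      have : x + ((w (P x) : H) : V) - (P x : V) - x = ((w (P x) - P x : H) : V) := by
        push_cast; abel
      rw [this]
      exact (w (P x) - P x).2
    have : Module.Finite F (LinearMap.range (mk w - 1)) :=
      Submodule.finiteDimensional_of_le h1
    exact Module.Finite.iff_fg.mp this
  refine ⟨mk u, mk u', hmul _ _ huu', hmul _ _ hu'u, ?_, hrange _, hrange _⟩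
  ext x
  show y (mk u (y x)) = y x
  -- P (y x) = yH (P x)
  obtain ⟨h, z, rfl, _⟩ := Submodule.existsUnique_add_of_isCompl hHZ x
  have hPx : P ((h : V) + z) = h := by rw [map_add, hPH, hPZ _ z.2, add_zero]
  have hPyx : P (y ((h : V) + z)) = yH h := by
    rw [map_add, map_add, hPZ _ (hyZ _ z.2).1, add_zero, ← hyHx, hPH]
  have h1 : yH (u (yH h)) = yH h := LinearMap.congr_fun hyuy h
  have h2 : y ((u (yH h) : H) : V) = y h := by
    rw [← hyHx, h1]
    exact hyHx h
  rw [hmk, hPyx, map_sub, map_add, h2, hyHx]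
  have h3 : φ (z : V) = 0 := (hyZ _ z.2).2
  rw [hφx, sub_eq_zero] at h3
  rw [map_add y (h : V), map_add y (y h), h3]
  abel

end fd

end Pool.Agent.X173.UR

namespace Pool.Agent.X173.UR

universe u v

section ring
variable {F : Type u} [Field F] {V : Type v} [AddCommGroup V] [Module F V]

/-- finite rank -/
def FR (x : Module.End F V) : Prop := (LinearMap.range x).FG

theorem FR_of_le {x : Module.End F V} {W : Submodule F V} (hW : W.FG)
    (h : LinearMap.range x ≤ W) : FR x := by
  have : Module.Finite F W := Module.Finite.iff_fg.mpr hW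
  have : Module.Finite F (LinearMap.range x) := Submodule.finiteDimensional_of_le h
  exact Module.Finite.iff_fg.mp this

theorem FR_zero : FR (0 : Module.End F V) := by
  unfold FR
  rw [LinearMap.range_zero]
  exact Submodule.fg_bot

theorem FR_add {x y : Module.End F V} (hx : FR x) (hy : FR y) : FR (x + y) := by
  apply FR_of_le (hx.sup hy)
  rintro _ ⟨v, rfl⟩
  exact Submodule.add_mem_sup ⟨v, rfl⟩ ⟨v, rfl⟩

theorem FR_neg {x : Module.End F V} (hx : FR x) : FR (-x) := by
  apply FR_of_le hx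
  rintro _ ⟨v, rfl⟩
  exact ⟨-v, by simp⟩

theorem FR_sub {x y : Module.End F V} (hx : FR x) (hy : FR y) : FR (x - y) := by
  rw [sub_eq_add_neg]; exact FR_add hx (FR_neg hy)

theorem FR_mul_left {x g : Module.End F V} (hg : FR g) : FR (x * g) := by
  apply FR_of_le (Submodule.FG.map x hg)
  rintro _ ⟨v, rfl⟩
  exact ⟨g v, ⟨v, rfl⟩, rfl⟩

theorem FR_mul_right {x g : Module.End F V} (hg : FR g) : FR (g * x) := by
  apply FR_of_le hg
  rintro _ ⟨v, rfl⟩
  exact ⟨x v, rfl⟩

/-- The ring: finite rank perturbations of the elements of a subring. -/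
def RR (S : Subring (Module.End F V)) : Subring (Module.End F V) where
  carrier := {x | ∃ s ∈ S, FR (x - s)}
  mul_mem' := by
    rintro x y ⟨s, hsS, hs⟩ ⟨t, htS, ht⟩
    refine ⟨s * t, S.mul_mem hsS htS, ?_⟩
    have : x * y - s * t = (x - s) * y + s * (y - t) := by noncomm_ring
    rw [this]
    exact FR_add (FR_mul_right hs) (FR_mul_left ht)
  one_mem' := ⟨1, S.one_mem, by rw [sub_self]; exact FR_zero⟩
  add_mem' := by
    rintro x y ⟨s, hsS, hs⟩ ⟨t, htS, ht⟩
    refine ⟨s + t, S.add_mem hsS htS, ?_⟩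
    have : x + y - (s + t) = (x - s) + (y - t) := by abel
    rw [this]
    exact FR_add hs ht
  zero_mem' := ⟨0, S.zero_mem, by rw [sub_self]; exact FR_zero⟩
  neg_mem' := by
    rintro x ⟨s, hsS, hs⟩
    refine ⟨-s, S.neg_mem hsS, ?_⟩
    have : -x - (-s) = -(x - s) := by abel
    rw [this]
    exact FR_neg hs

theorem RR_unitreg (S : Subring (Module.End F V))
    (hS : ∀ s ∈ S, ∃ t ∈ S, ∃ t' ∈ S, t * t' = 1 ∧ t' * t = 1 ∧ s * t * s = s)
    (x : Module.End F V) (hx : x ∈ RR S) : ∃ u ∈ RR S, ∃ u' ∈ RR S,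
    u * u' = 1 ∧ u' * u = 1 ∧ x * u * x = x := by
  obtain ⟨s, hsS, hs⟩ := hx
  obtain ⟨t, htS, t', ht'S, e1, e2, e3⟩ := hS s hsS
  obtain ⟨g, hg⟩ : ∃ g, g = x - s := ⟨_, rfl⟩
  rw [← hg] at hs
  have hx : x = s + g := by rw [hg]; abel
  have hfr : FR (x * t * x - x) := by
    have : x * t * x - x = g * (t * s) + (s * t) * g + g * (t * g) - g := by
      have h1 : x * t * x - x = s * t * s - s + g * (t * s) +
          (s * t) * g + g * (t * g) - g := by
        rw [hx]; noncomm_ring
      rw [h1, e3]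
      abel
    rw [this]
    exact FR_sub (FR_add (FR_add (FR_mul_right hs) (FR_mul_left hs)) (FR_mul_right hs)) hs
  obtain ⟨y, hy⟩ : ∃ y, y = t * x := ⟨_, rfl⟩
  have hyy : y * y - y = t * (x * t * x - x) := by rw [hy]; noncomm_ring
  have hyfr : FR (y * y - y) := by rw [hyy]; exact FR_mul_left hfr
  obtain ⟨v, v', hvv', hv'v, hyvy, hv, hv'⟩ := almost_idem y hyfr
  refine ⟨v * t, ⟨t, htS, ?_⟩, t' * v', ⟨t', ht'S, ?_⟩, ?_, ?_, ?_⟩
  · have : v * t - t = (v - 1) * t := by rw [sub_mul, one_mul]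
    rw [this]
    exact FR_mul_right hv
  · have : t' * v' - t' = t' * (v' - 1) := by rw [mul_sub, mul_one]
    rw [this]
    exact FR_mul_left hv'
  · rw [mul_assoc, ← mul_assoc t, e1, one_mul, hvv']
  · rw [mul_assoc, ← mul_assoc v', hv'v, one_mul, e2]
  · have h1 : t * (x * (v * t) * x) = t * x := by
      have h2 : t * (x * (v * t) * x) = y * v * y := by rw [hy]; noncomm_ring
      rw [h2, hyvy, hy]
    have h3 : t' * (t * (x * (v * t) * x)) = t' * (t * x) := by rw [h1]
    rw [← mul_assoc t' t, e2, one_mul, ← mul_assoc t' t, e2, one_mul] at h3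
    exact h3

end ring

end Pool.Agent.X173.UR
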