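import Mathlib
import Pool.Agent.X173.URA
set_option autoImplicit false

/-!
The ring of finite rank perturbations of block diagonal operators.
-/

namespace Pool.Agent.X173.UR

/-- the blocks -/
abbrev B (n : ℕ) : Type := Fin (n + 1) → ℚ

/-- the space -/
abbrev V : Type := Π₀ n, B n

/-- block diagonal operators -/
noncomputable def Psi (s : ∀ n, Module.End ℚ (B n)) : Module.End ℚ V :=
  DFinsupp.mapRange.linearMap s

theorem Psi_apply (s : ∀ n, Module.End ℚ (B n)) (v : V) (n : ℕ) : (Psi s v) n = s n (v n) := by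
  simp [Psi]

theorem Psi_mul (s t : ∀ n, Module.End ℚ (B n)) : Psi (s * t) = Psi s * Psi t := by
  apply LinearMap.ext; intro v; apply DFinsupp.ext; intro n
  rw [Module.End.mul_apply, Psi_apply, Psi_apply, Psi_apply]; rfl

theorem Psi_one : Psi 1 = 1 := by
  apply LinearMap.ext; intro v; apply DFinsupp.ext; intro n
  rw [Psi_apply]; rfl

theorem Psi_add (s t : ∀ n, Module.End ℚ (B n)) : Psi (s + t) = Psi s + Psi t := by
  apply LinearMap.ext; intro v; apply DFinsupp.ext; intro n
  rw [LinearMap.add_apply, DFinsupp.add_apply, Psi_apply, Psi_apply, Psi_apply]; rfl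

theorem Psi_neg (s : ∀ n, Module.End ℚ (B n)) : Psi (-s) = - Psi s := by
  apply LinearMap.ext; intro v; apply DFinsupp.ext; intro n
  rw [LinearMap.neg_apply, DFinsupp.neg_apply, Psi_apply, Psi_apply]; rfl

theorem Psi_zero : Psi 0 = 0 := by
  apply LinearMap.ext; intro v; apply DFinsupp.ext; intro n
  rw [Psi_apply]; rfl

/-- the block diagonal operators -/
noncomputable def SS : Subring (Module.End ℚ V) where
  carrier := {x | ∃ s, x = Psi s}
  mul_mem' := by
    rintro x y ⟨s, rfl⟩ ⟨t, rfl⟩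
    exact ⟨s * t, (Psi_mul s t).symm⟩
  one_mem' := ⟨1, Psi_one.symm⟩
  add_mem' := by
    rintro x y ⟨s, rfl⟩ ⟨t, rfl⟩
    exact ⟨s + t, (Psi_add s t).symm⟩
  zero_mem' := ⟨0, Psi_zero.symm⟩
  neg_mem' := by
    rintro x ⟨s, rfl⟩
    exact ⟨-s, (Psi_neg s).symm⟩

theorem SS_unitreg : ∀ s ∈ SS, ∃ t ∈ SS, ∃ t' ∈ SS, t * t' = 1 ∧ t' * t = 1 ∧ s * t * s = s := by
  rintro _ ⟨s, rfl⟩
  have hch : ∀ n, ∃ u u' : Module.End ℚ (B n), u * u' = 1 ∧ u' * u = 1 ∧ s n * u * s n = s n :=
    fun n => fd_unitreg (s n)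
  choose t t' htt' ht't hsts using hch
  refine ⟨Psi t, ⟨t, rfl⟩, Psi t', ⟨t', rfl⟩, ?_, ?_, ?_⟩
  · rw [← Psi_mul, ← Psi_one]; congr 1; funext n; exact htt' n
  · rw [← Psi_mul, ← Psi_one]; congr 1; funext n; exact ht't n
  · rw [← Psi_mul, ← Psi_mul]; congr 1; funext n; exact hsts n

/-- The ring. -/
noncomputable def RV : Subring (Module.End ℚ V) := RR SS

/-- the shift on a block -/
def J (n : ℕ) : Module.End ℚ (B n) where
  toFun b j := if h : j.1 + 1 < n + 1 then b ⟨j.1 + 1, h⟩ else 0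
  map_add' b c := by
    funext j
    by_cases h : j.1 + 1 < n + 1
    · simp only [Pi.add_apply, dif_pos h]
    · simp only [Pi.add_apply, dif_neg h, add_zero]
  map_smul' q b := by
    funext j
    by_cases h : j.1 + 1 < n + 1
    · simp only [Pi.smul_apply, dif_pos h, RingHom.id_apply]
    · simp only [Pi.smul_apply, dif_neg h, smul_zero]

theorem J_apply (n : ℕ) (b : B n) (j : Fin (n + 1)) :
    J n b j = if h : j.1 + 1 < n + 1 then b ⟨j.1 + 1, h⟩ else 0 := rfl

/-- the functional reading the bottom coordinates of the blocks `n ≥ 1` -/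
noncomputable def lam : V →ₗ[ℚ] ℚ :=
  DFinsupp.lsum ℕ (fun n => if n = 0 then 0 else (LinearMap.proj 0 : B n →ₗ[ℚ] ℚ))

theorem lam_single (n : ℕ) (b : B n) : lam (DFinsupp.single n b) = if n = 0 then 0 else b 0 := by
  unfold lam
  rw [DFinsupp.lsum_single]
  split_ifs <;> simp

/-- the common end of all chains -/
def e0 : V := DFinsupp.single 0 (fun _ => 1)

/-- the element -/
noncomputable def aa : Module.End ℚ V := Psi J + lam.smulRight e0

theorem aa_apply (v : V) : aa v = Psi J v + lam v • e0 := rfl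

theorem aa_mem : aa ∈ RV := by
  refine ⟨Psi J, ⟨J, rfl⟩, ?_⟩
  have h1 : aa - Psi J = lam.smulRight e0 := by
    apply LinearMap.ext
    intro v
    show aa v - Psi J v = lam v • e0
    rw [aa_apply]
    exact add_sub_cancel_left _ _
  rw [h1]
  apply FR_of_le (Submodule.fg_span_singleton e0)
  rintro _ ⟨v, rfl⟩
  exact Submodule.mem_span_singleton.mpr ⟨lam v, rfl⟩

theorem aa_single (n : ℕ) (b : B n) :
    aa (DFinsupp.single n b) = DFinsupp.single n (J n b) + (if n = 0 then 0 else b 0) • e0 := by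
  rw [aa_apply, lam_single]
  congr 1
  simp [Psi]

/-- basis vectors -/
def E (n i : ℕ) : V := DFinsupp.single n (fun j => if j.1 = i then 1 else 0)

theorem aa_E_succ {n i : ℕ} (hi : i + 1 ≤ n) : aa (E n (i + 1)) = E n i := by
  unfold E
  rw [aa_single]
  have h1 : J n (fun j => if j.1 = i + 1 then 1 else 0) = fun j => if j.1 = i then 1 else 0 := by
    funext j
    rw [J_apply]
    by_cases h : j.1 + 1 < n + 1
    · simp [h]
    · rw [dif_neg h, if_neg (by omega)]
  rw [h1]
  simp

theorem aa_E_zero {n : ℕ} (hn : 1 ≤ n) : aa (E n 0) = e0 := by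
  unfold E
  rw [aa_single]
  have h1 : J n (fun j => if j.1 = 0 then 1 else 0) = 0 := by
    funext j
    rw [J_apply]
    split_ifs <;> simp_all
  rw [h1, if_neg (by omega)]
  simp

theorem aa_pow_E {n : ℕ} (hn : 1 ≤ n) (i : ℕ) (hi : i ≤ n) : (aa ^ (i + 1)) (E n i) = e0 := by
  induction i with
  | zero => simpa using aa_E_zero hn
  | succ i ih =>
    rw [pow_succ, Module.End.mul_apply, aa_E_succ hi, ih (by omega)]

/-- filtration -/
def T (k : ℕ) (v : V) : Prop := ∀ n, 1 ≤ n → ∀ j : Fin (n + 1), k ≤ j.1 → v n j = 0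

theorem e0_apply {n : ℕ} (hn : 1 ≤ n) : e0 n = 0 := by
  unfold e0
  rw [DFinsupp.single_eq_of_ne (by omega)]

theorem aa_coord (v : V) {n : ℕ} (hn : 1 ≤ n) : (aa v) n = J n (v n) := by
  rw [aa_apply, DFinsupp.add_apply, DFinsupp.smul_apply, e0_apply hn, smul_zero, add_zero,
    Psi_apply]

theorem T_step {k : ℕ} {v : V} (h : T (k + 1) v) : T k (aa v) := by
  intro n hn j hj
  rw [aa_coord v hn, J_apply]
  split_ifs with h1
  · exact h n hn _ (by simpa using hj)
  · rfl

theorem T_zero {v : V} (h : T 0 v) : aa v = 0 := by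
  have h1 : v = DFinsupp.single 0 (v 0) := by
    apply DFinsupp.ext
    intro n
    rcases Nat.eq_zero_or_pos n with rfl | hn
    · rw [DFinsupp.single_eq_same]
    · rw [DFinsupp.single_eq_of_ne (by omega)]
      funext j
      exact h n hn j (Nat.zero_le _)
  have h2 : J 0 (v 0) = 0 := by
    funext j
    rw [J_apply, dif_neg (by omega)]
    rfl
  rw [h1, aa_single, if_pos rfl, h2, DFinsupp.single_zero]
  simp

theorem T_pow (k : ℕ) : ∀ v, T k v → (aa ^ (k + 1)) v = 0 := by
  induction k with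
  | zero => intro v hv; simpa using T_zero hv
  | succ k ih =>
    intro v hv
    rw [pow_succ, Module.End.mul_apply]
    exact ih _ (T_step hv)

/-- vectors supported in the first blocks -/
def VN (N : ℕ) : Submodule ℚ V where
  carrier := {v | ∀ m, N < m → v m = 0}
  zero_mem' := fun m _ => rfl
  add_mem' := by
    intro a b ha hb m hm
    rw [DFinsupp.add_apply, ha m hm, hb m hm, add_zero]
  smul_mem' := by
    intro q a ha m hm
    rw [DFinsupp.smul_apply, ha m hm, smul_zero]

theorem T_of_VN {N : ℕ} {v : V} (hv : v ∈ VN N) : T (N + 1) v := by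
  intro n _ j hj
  have : N < n := by
    have := j.2
    omega
  rw [hv n this]
  rfl

theorem bounded {W : Submodule ℚ V} (hW : W.FG) : ∃ N, W ≤ VN N := by
  classical
  obtain ⟨S, rfl⟩ := hW
  refine ⟨S.sup (fun v => v.support.sup id), ?_⟩
  rw [Submodule.span_le]
  intro v hv m hm
  by_contra hne
  have h1 : m ∈ v.support := DFinsupp.mem_support_iff.mpr hne
  have h2 : m ≤ v.support.sup id := Finset.le_sup (f := id) h1
  have h3 : v.support.sup id ≤ S.sup (fun v => v.support.sup id) :=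
    Finset.le_sup (f := fun v : V => v.support.sup id) hv
  exact absurd hm (not_lt.mpr (h2.trans h3))

theorem no_w (w : Module.End ℚ V) (hw : w ∈ RV) :
    ∃ k : ℕ, 1 ≤ k ∧ aa ^ k * w ^ k * aa ^ k ≠ aa ^ k := by
  obtain ⟨_, ⟨s, rfl⟩, hs⟩ := hw
  obtain ⟨N, hN⟩ := bounded hs
  have hinv : ∀ v ∈ VN N, w v ∈ VN N := by
    intro v hv
    have h1 : w v = Psi s v + (w - Psi s) v := (add_sub_cancel (Psi s v) (w v)).symm
    rw [h1]
    apply Submodule.add_mem
    · intro m hm
      rw [Psi_apply, hv m hm, map_zero]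
    · exact hN ⟨v, rfl⟩
  have he0 : e0 ∈ VN N := fun m hm => e0_apply (by omega)
  have hpow : ∀ k : ℕ, (w ^ k) e0 ∈ VN N := by
    intro k
    induction k with
    | zero => simpa using he0
    | succ k ih =>
      rw [pow_succ', Module.End.mul_apply]
      exact hinv _ ih
  refine ⟨N + 2, by omega, ?_⟩
  intro h
  have h1 := LinearMap.congr_fun h (E (N + 1) (N + 1))
  rw [Module.End.mul_apply, Module.End.mul_apply,
    aa_pow_E (n := N + 1) (by omega) (N + 1) le_rfl] at h1
  have h2 : (aa ^ (N + 2)) ((w ^ (N + 2)) e0) = 0 := T_pow (N + 1) _ (T_of_VN (hpow _))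
  rw [h2] at h1
  have h3 : e0 0 0 = 0 := by rw [← h1]; rfl
  simp [e0] at h3

end Pool.Agent.X173.UR
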