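import Mathlib

set_option autoImplicit false

namespace Pool.Agent.X173.Wil

open Finset

/-- the signed factorial product of order `n` -/
def A (p n : ℕ) : ℤ := (-1) ^ n * (((n - 1).factorial * (p - n).factorial : ℕ) : ℤ)

/-- the elementary symmetric function of degree `d - 1` of `m, m + 1, ..., m + d - 1` -/
def E (m d : ℕ) : ℕ := ∑ j ∈ range d, ∏ i ∈ (range d).erase j, (m + i)

lemma prod_sub (s : Finset ℕ) (f : ℕ → ℤ) (q : ℤ) :
    q ^ 2 ∣ (∏ i ∈ s, (f i - q)) - ∏ i ∈ s, f i + q * ∑ j ∈ s, ∏ i ∈ s.erase j, f i := by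
  classical
  induction s using Finset.induction_on with
  | empty => simp
  | insert a s ha ih =>
    rw [prod_insert ha, prod_insert ha, sum_insert ha, erase_insert ha]
    have h1 : ∑ j ∈ s, ∏ i ∈ (insert a s).erase j, f i = f a * ∑ j ∈ s, ∏ i ∈ s.erase j, f i := by
      rw [mul_sum]
      refine sum_congr rfl fun j hj => ?_
      have hne : a ≠ j := fun h => ha (h ▸ hj)
      rw [erase_insert_of_ne hne, prod_insert]
      intro h
      exact ha (mem_of_mem_erase h)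
    rw [h1]
    obtain ⟨c, hc⟩ := ih
    have e : (f a - q) * ∏ i ∈ s, (f i - q) - f a * ∏ i ∈ s, f i +
        q * (∏ i ∈ s, f i + f a * ∑ j ∈ s, ∏ i ∈ s.erase j, f i) =
        q ^ 2 * ((f a - q) * c + ∑ j ∈ s, ∏ i ∈ s.erase j, f i) := by
      linear_combination (f a - q) * hc
    rw [e]
    exact Dvd.intro _ rfl

lemma fact_split (m d : ℕ) : (m + d).factorial = m.factorial * ∏ i ∈ range d, (m + 1 + i) := by
  induction d with
  | zero => simp
  | succ d ih =>
    rw [prod_range_succ, ← mul_assoc, ← ih, ← add_assoc, Nat.factorial_succ]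
    ring

lemma fact_split' {q d : ℕ} (h : d ≤ q) :
    (q.factorial : ℤ) = (∏ i ∈ range d, ((q : ℤ) - i)) * (q - d).factorial := by
  induction d with
  | zero => simp
  | succ d ih =>
    rw [prod_range_succ, ih (by omega)]
    have h1 : q - d = (q - (d + 1)) + 1 := by omega
    rw [h1, Nat.factorial_succ]
    push_cast
    have h2 : ((q - (d + 1) : ℕ) : ℤ) = q - (d + 1) := by
      rw [Nat.cast_sub h]; push_cast; ring
    rw [h2]
    ring

/-- **Key divisibility.** -/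
lemma key {p m d : ℕ} (hp : p.Prime) (hm : 1 ≤ m) (hmd : m + d ≤ p)
    (h : (p : ℤ) ^ 2 ∣ A p m - A p (m + d)) : p ∣ E m d := by
  have e1 : ((m + d - 1).factorial : ℤ) = (m - 1).factorial * ∏ i ∈ range d, ((m : ℤ) + i) := by
    have h1 : m + d - 1 = (m - 1) + d := by omega
    rw [h1, fact_split]
    push_cast
    congr 1
    refine prod_congr rfl fun i _ => ?_
    have : ((m - 1 : ℕ) : ℤ) = m - 1 := by rw [Nat.cast_sub hm]; simp
    rw [this]; ring
  have e2 : ((p - m).factorial : ℤ) = (-1) ^ d * (∏ i ∈ range d, (((m : ℤ) + i) - p)) *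
      (p - (m + d)).factorial := by
    rw [fact_split' (q := p - m) (d := d) (by omega), show p - m - d = p - (m + d) by omega]
    congr 1
    rw [show ((-1 : ℤ)) ^ d = ∏ i ∈ range d, (-1 : ℤ) by simp, ← prod_mul_distrib]
    refine prod_congr rfl fun i _ => ?_
    have : ((p - m : ℕ) : ℤ) = p - m := by rw [Nat.cast_sub (by omega)]
    rw [this]; ring
  obtain ⟨c, hc⟩ : ∃ c : ℤ, c = (m - 1).factorial * (p - (m + d)).factorial := ⟨_, rfl⟩
  have hA : A p m - A p (m + d) = (-1) ^ (m + d) * c *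
      ((∏ i ∈ range d, (((m : ℤ) + i) - p)) - ∏ i ∈ range d, ((m : ℤ) + i)) := by
    unfold A
    push_cast
    rw [e1, e2, hc, pow_add]
    have h2 : ((-1 : ℤ) ^ d) * (-1) ^ d = 1 := by rw [← mul_pow]; simp
    ring
  obtain ⟨k, hk⟩ := prod_sub (range d) (fun i => (m : ℤ) + i) p
  have hE : ((E m d : ℕ) : ℤ) = ∑ j ∈ range d, ∏ i ∈ (range d).erase j, ((m : ℤ) + i) := by
    unfold E; push_cast; rfl
  rw [← hE] at hk
  have h3 : (∏ i ∈ range d, (((m : ℤ) + i) - p)) - ∏ i ∈ range d, ((m : ℤ) + i) =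
      (p : ℤ) ^ 2 * k - p * E m d := by linarith
  rw [hA, h3] at h
  have h4 : (p : ℤ) * p ∣ p * (c * E m d) := by
    have h5 : (p : ℤ) ^ 2 ∣ (-1) ^ (m + d) * ((-1) ^ (m + d) * c * ((p : ℤ) ^ 2 * k - p * E m d)) :=
      Dvd.dvd.mul_left h _
    have h6 : ((-1 : ℤ)) ^ (m + d) * (-1) ^ (m + d) = 1 := by rw [← mul_pow]; simp
    have h7 : (-1) ^ (m + d) * ((-1) ^ (m + d) * c * ((p : ℤ) ^ 2 * k - p * E m d)) =
        (p : ℤ) ^ 2 * (c * k) - p * (c * E m d) := by
      linear_combination (c * ((p : ℤ) ^ 2 * k - p * E m d)) * h6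
    rw [h7] at h5
    have h8 : (p : ℤ) ^ 2 ∣ p * (c * E m d) := by
      have := dvd_sub (Dvd.intro (c * k) rfl : (p : ℤ) ^ 2 ∣ (p : ℤ) ^ 2 * (c * k)) h5
      simpa using this
    rwa [← sq]
  have hp0 : (p : ℤ) ≠ 0 := by exact_mod_cast hp.ne_zero
  have h5 : (p : ℤ) ∣ c * E m d := (mul_dvd_mul_iff_left hp0).1 h4
  have hpi : Prime (p : ℤ) := Nat.prime_iff_prime_int.1 hp
  rcases hpi.dvd_or_dvd h5 with h6 | h6
  · exfalso
    rw [hc] at h6
    rcases hpi.dvd_or_dvd h6 with h7 | h7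
    · have h8 : p ∣ (m - 1).factorial := by exact_mod_cast h7
      have := (Nat.Prime.dvd_factorial hp).1 h8
      omega
    · have h8 : p ∣ (p - (m + d)).factorial := by exact_mod_cast h7
      have := (Nat.Prime.dvd_factorial hp).1 h8
      have := hp.pos
      omega
  · exact_mod_cast h6

lemma E_pos {m d : ℕ} (hm : 1 ≤ m) (hd : 1 ≤ d) : 0 < E m d := by
  unfold E
  refine sum_pos (fun j _ => prod_pos fun i _ => by omega) ⟨0, mem_range.2 hd⟩

lemma E_le {m d : ℕ} (hd : 1 ≤ d) : E m d ≤ d * (m + d - 1) ^ (d - 1) := by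
  unfold E
  refine (sum_le_card_nsmul (range d) _ ((m + d - 1) ^ (d - 1)) fun j hj => ?_).trans
    (by rw [card_range, smul_eq_mul])
  have h1 : ((range d).erase j).card = d - 1 := by rw [card_erase_of_mem hj, card_range]
  rw [← h1]
  refine prod_le_pow_card _ _ _ fun i hi => ?_
  have := mem_range.1 (mem_of_mem_erase hi)
  omega

/-- at most `d - 1` primes `≥ m + d` divide `E m d` -/
lemma few_primes {m d : ℕ} (hm : 1 ≤ m) (hd : 1 ≤ d) (S : Finset ℕ)
    (hS : ∀ p ∈ S, p.Prime ∧ m + d ≤ p ∧ p ∣ E m d) : S.card ≤ d - 1 := by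
  have h1 : ∏ p ∈ S, p ∣ E m d := by
    refine Finset.prod_primes_dvd _ (fun p hp => (hS p hp).1.prime) fun p hp => (hS p hp).2.2
  have h2 : ∏ p ∈ S, p ≤ E m d := Nat.le_of_dvd (E_pos hm hd) h1
  have h3 : (m + d) ^ S.card ≤ ∏ p ∈ S, p := by
    refine Finset.pow_card_le_prod S _ _ fun p hp => (hS p hp).2.1
  have h4 := E_le (m := m) hd
  have h5 : d * (m + d - 1) ^ (d - 1) < (m + d) ^ d := by
    obtain ⟨e, rfl⟩ := Nat.exists_eq_succ_of_ne_zero (by omega : d ≠ 0)
    simp only [Nat.succ_eq_add_one, Nat.add_sub_cancel]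
    rw [pow_succ, mul_comm]
    have h6 : (m + (e + 1) - 1) ^ e ≤ (m + (e + 1)) ^ e := Nat.pow_le_pow_left (by omega) _
    have h7 : 0 < (m + (e + 1)) ^ e := by positivity
    calc (m + (e + 1) - 1) ^ e * (e + 1) ≤ (m + (e + 1)) ^ e * (e + 1) :=
          Nat.mul_le_mul_right _ h6
      _ < (m + (e + 1)) ^ e * (m + (e + 1)) := Nat.mul_lt_mul_of_pos_left (by omega) h7
  have h6 : (m + d) ^ S.card < (m + d) ^ d := by omega
  have h7 := (Nat.pow_lt_pow_iff_right (by omega : 1 < m + d)).1 h6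
  omega

end Pool.Agent.X173.Wil
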