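import Mathlib
import Pool.Agent.X173.WilA

set_option autoImplicit false

namespace Pool.Agent.X173.Wil

open Finset

lemma sum_gap (L : ℕ) : ∑ j ∈ range L, ∑ i ∈ range j, (j - i - 1) = L.choose 3 := by
  have h1 : ∀ j : ℕ, ∑ i ∈ range j, (j - i - 1) = j.choose 2 := by
    intro j
    have h2 : ∑ i ∈ range j, (j - i - 1) = ∑ i ∈ range j, i := by
      rw [← sum_range_reflect (fun i => i) j]
      refine sum_congr rfl fun i hi => ?_
      omega
    rw [h2, Finset.sum_range_id, Nat.choose_two_right]
  simp_rw [h1]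
  induction L with
  | zero => simp
  | succ L ih =>
    rw [sum_range_succ, ih, Nat.choose_succ_succ' L 2, add_comm]

/-- few primes with a collision in a window -/
lemma few_collisions (M L : ℕ) (S : Finset ℕ)
    (hS : ∀ p ∈ S, p.Prime ∧ M + L ≤ p ∧ ∃ m n, M < m ∧ m < n ∧ n ≤ M + L ∧
      (p : ℤ) ^ 2 ∣ A p m - A p n) : S.card ≤ L.choose 3 := by
  classical
  have h1 : S ⊆ (range L).biUnion fun j => (range j).biUnion fun i =>
      S.filter fun p => p ∣ E (M + 1 + i) (j - i) := by
    intro p hp
    obtain ⟨hpp, hpL, m, n, h1, h2, h3, h4⟩ := hS p hp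
    rw [mem_biUnion]
    refine ⟨n - (M + 1), mem_range.2 (by omega), ?_⟩
    rw [mem_biUnion]
    refine ⟨m - (M + 1), mem_range.2 (by omega), mem_filter.2 ⟨hp, ?_⟩⟩
    have e1 : M + 1 + (m - (M + 1)) = m := by omega
    have e2 : n - (M + 1) - (m - (M + 1)) = n - m := by omega
    rw [e1, e2]
    refine key hpp (by omega) (by omega) ?_
    rw [show m + (n - m) = n by omega]
    exact h4
  refine (card_le_card h1).trans ((card_biUnion_le).trans ?_)
  rw [← sum_gap L]
  refine sum_le_sum fun j hj => (card_biUnion_le).trans (sum_le_sum fun i hi => ?_)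
  have hj' := mem_range.1 hj
  have hi' := mem_range.1 hi
  refine few_primes (m := M + 1 + i) (d := j - i) (by omega) (by omega) _ fun p hp => ?_
  have h2 := mem_filter.1 hp
  have h3 := hS p h2.1
  exact ⟨h3.1, by omega, h2.2⟩

/-- hits of the order `n` -/
def Hit (B : ℕ → ℤ) (n p : ℕ) : Prop := n ≤ p ∧ (p : ℤ) ^ 2 ∣ A p n - (1 + p * B p)

lemma window_sum (B : ℕ → ℤ) (M L : ℕ) (P : Finset ℕ) (hP : ∀ p ∈ P, p.Prime) :
    ∑ j ∈ range L, Set.ncard {p | p ∈ P ∧ Hit B (M + 1 + j) p} ≤ P.card + L.choose 3 := by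
  classical
  have e0 : ∀ j, Set.ncard {p | p ∈ P ∧ Hit B (M + 1 + j) p} =
      ∑ p ∈ P, if Hit B (M + 1 + j) p then 1 else 0 := by
    intro j
    rw [← card_filter, ← Set.ncard_coe_finset]
    congr 1
    ext p
    simp
  simp_rw [e0]
  rw [sum_comm]
  -- each prime
  have h1 : ∀ p ∈ P, ∑ j ∈ range L, (if Hit B (M + 1 + j) p then 1 else 0) ≤
      1 + ∑ j ∈ range L, ∑ i ∈ range j,
        (if Hit B (M + 1 + i) p ∧ Hit B (M + 1 + j) p then 1 else 0) := by
    intro p _
    by_cases hne : ∃ i, i < L ∧ Hit B (M + 1 + i) p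
    · obtain ⟨i0, hi0⟩ : ∃ i0, i0 = Nat.find hne := ⟨_, rfl⟩
      have hspec := Nat.find_spec hne
      rw [← hi0] at hspec
      have hmin : ∀ i, i < i0 → ¬ Hit B (M + 1 + i) p := by
        intro i hi h
        have := Nat.find_min hne (m := i) (by rw [← hi0]; exact hi)
        exact this ⟨by omega, h⟩
      have h2 : ∀ j ∈ range L, (if Hit B (M + 1 + j) p then 1 else 0) ≤
          (if j = i0 then 1 else 0) + ∑ i ∈ range j,
            (if Hit B (M + 1 + i) p ∧ Hit B (M + 1 + j) p then 1 else 0) := by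
        intro j _
        by_cases hj : Hit B (M + 1 + j) p
        · rw [if_pos hj]
          rcases lt_trichotomy j i0 with h | h | h
          · exact absurd hj (hmin j h)
          · rw [if_pos h]; omega
          · have h3 : (1 : ℕ) ≤ ∑ i ∈ range j,
                (if Hit B (M + 1 + i) p ∧ Hit B (M + 1 + j) p then 1 else 0) := by
              calc (1 : ℕ) = if Hit B (M + 1 + i0) p ∧ Hit B (M + 1 + j) p then 1 else 0 := by
                    rw [if_pos ⟨hspec.2, hj⟩]
                _ ≤ _ := single_le_sum (f := fun i =>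
                    if Hit B (M + 1 + i) p ∧ Hit B (M + 1 + j) p then 1 else 0)
                    (fun _ _ => Nat.zero_le _) (mem_range.2 h)
            omega
        · rw [if_neg hj]; exact Nat.zero_le _
      refine (sum_le_sum h2).trans ?_
      rw [sum_add_distrib]
      refine add_le_add ?_ le_rfl
      rw [sum_ite_eq' (range L) i0 (fun _ => 1)]
      split_ifs <;> omega
    · push Not at hne
      have : ∑ j ∈ range L, (if Hit B (M + 1 + j) p then 1 else 0) = 0 := by
        refine sum_eq_zero fun j hj => ?_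
        rw [if_neg (hne j (mem_range.1 hj))]
      rw [this]
      exact Nat.zero_le _
  refine (sum_le_sum h1).trans ?_
  rw [sum_add_distrib, sum_const, smul_eq_mul, mul_one]
  refine add_le_add le_rfl ?_
  rw [sum_comm, ← sum_gap L]
  refine sum_le_sum fun j hj => ?_
  rw [sum_comm]
  refine sum_le_sum fun i hi => ?_
  have hj' := mem_range.1 hj
  have hi' := mem_range.1 hi
  rw [← card_filter]
  refine few_primes (m := M + 1 + i) (d := j - i) (by omega) (by omega) _ fun p hp => ?_
  obtain ⟨hp1, hp2, hp3⟩ := mem_filter.1 hp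
  have hpp := hP p hp1
  have e : M + 1 + i + (j - i) = M + 1 + j := by omega
  refine ⟨hpp, by rw [e]; exact hp3.1, ?_⟩
  refine key hpp (by omega) (by rw [e]; exact hp3.1) ?_
  rw [e]
  have h4 := dvd_sub hp2.2 hp3.2
  have h5 : A p (M + 1 + i) - (1 + p * B p) - (A p (M + 1 + j) - (1 + p * B p)) =
      A p (M + 1 + i) - A p (M + 1 + j) := by ring
  rwa [h5] at h4

/-- number of solutions for a given difference of orders -/
lemma few_orders {p d : ℕ} (hp : p.Prime) (hd : 1 ≤ d) (hdp : d < p) (R : Finset ℕ)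
    (hR : ∀ n ∈ R, n < p ∧ p ∣ E n d) : R.card ≤ d - 1 := by
  classical
  have : Fact p.Prime := ⟨hp⟩
  let F : Polynomial (ZMod p) := Polynomial.derivative
    (∏ i ∈ range d, (Polynomial.X + Polynomial.C ((i : ℕ) : ZMod p)))
  have hmon : (∏ i ∈ range d, (Polynomial.X + Polynomial.C ((i : ℕ) : ZMod p))).Monic :=
    Polynomial.monic_prod_of_monic _ _ fun i _ => Polynomial.monic_X_add_C _
  have hdeg : (∏ i ∈ range d, (Polynomial.X + Polynomial.C ((i : ℕ) : ZMod p))).natDegree = d := by
    rw [Polynomial.natDegree_prod_of_monic _ _ fun i _ => Polynomial.monic_X_add_C _]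
    simp only [Polynomial.natDegree_X_add_C, sum_const, card_range, smul_eq_mul, mul_one]
  have hcoef : F.coeff (d - 1) = (d : ZMod p) := by
    rw [Polynomial.coeff_derivative, show d - 1 + 1 = d by omega]
    have h1 := hmon.coeff_natDegree
    rw [hdeg] at h1
    rw [h1, one_mul]
    have : ((d - 1 : ℕ) : ZMod p) + 1 = ((d - 1 + 1 : ℕ) : ZMod p) := by push_cast; ring
    rw [this, show d - 1 + 1 = d by omega]
  have hd0 : (d : ZMod p) ≠ 0 := by
    intro h
    rw [ZMod.natCast_eq_zero_iff] at h
    have := Nat.le_of_dvd (by omega) h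
    omega
  have hF0 : F ≠ 0 := by
    intro h
    rw [h, Polynomial.coeff_zero] at hcoef
    exact hd0 hcoef.symm
  have hFdeg : F.natDegree ≤ d - 1 := by
    refine (Polynomial.natDegree_derivative_le _).trans ?_
    rw [hdeg]
  have heval : ∀ n : ℕ, F.eval (n : ZMod p) = ((E n d : ℕ) : ZMod p) := by
    intro n
    change (Polynomial.derivative _).eval _ = _
    rw [Polynomial.derivative_prod_finset, Polynomial.eval_finsetSum]
    unfold E
    push_cast
    refine sum_congr rfl fun j _ => ?_
    simp [Polynomial.eval_prod]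
  have hinj : Set.InjOn (fun n : ℕ => (n : ZMod p)) R := by
    intro a ha b hb hab
    have h1 := (hR a ha).1
    have h2 := (hR b hb).1
    have h3 := (ZMod.natCast_eq_natCast_iff a b p).1 hab
    unfold Nat.ModEq at h3
    rwa [Nat.mod_eq_of_lt h1, Nat.mod_eq_of_lt h2] at h3
  rw [← card_image_of_injOn hinj]
  refine le_trans (card_le_card (t := F.roots.toFinset) ?_)
    ((Multiset.toFinset_card_le _).trans ((Polynomial.card_roots' F).trans hFdeg))
  intro y hy
  obtain ⟨n, hn, rfl⟩ := mem_image.1 hy
  rw [Multiset.mem_toFinset, Polynomial.mem_roots hF0, Polynomial.IsRoot.def, heval]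
  exact (ZMod.natCast_eq_zero_iff _ _).2 (hR n hn).2

/-- **The number of orders in a window, for one prime.** -/
lemma orders_bound {p : ℕ} (hp : p.Prime) (b : ℤ) (M L D : ℕ) (hL : M + L ≤ p) (T : Finset ℕ)
    (hT : ∀ n ∈ T, M < n ∧ n ≤ M + L ∧ (p : ℤ) ^ 2 ∣ A p n - b) :
    T.card ≤ D.choose 2 + (L + D) / (D + 1) := by
  classical
  let T1 := T.filter fun n => ∃ d, 1 ≤ d ∧ d ≤ D ∧ n + d ∈ T
  let T2 := T.filter fun n => ¬ ∃ d, 1 ≤ d ∧ d ≤ D ∧ n + d ∈ T
  have hcard : T.card = T1.card + T2.card := (card_filter_add_card_filter_not _).symm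
  have h1 : T1.card ≤ D.choose 2 := by
    have hsub : T1 ⊆ (range D).biUnion fun e => T.filter fun n => n + (e + 1) ∈ T := by
      intro n hn
      obtain ⟨hn1, d, hd1, hd2, hd3⟩ := mem_filter.1 hn
      rw [mem_biUnion]
      refine ⟨d - 1, mem_range.2 (by omega), mem_filter.2 ⟨hn1, ?_⟩⟩
      rwa [show d - 1 + 1 = d by omega]
    refine (card_le_card hsub).trans (card_biUnion_le.trans ?_)
    have h2 : D.choose 2 = ∑ e ∈ range D, e := by
      rw [Finset.sum_range_id, Nat.choose_two_right]
    rw [h2]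
    refine sum_le_sum fun e he => ?_
    by_cases hemp : (T.filter fun n => n + (e + 1) ∈ T) = ∅
    · rw [hemp]; simp
    · obtain ⟨n0, hn0⟩ := Finset.nonempty_iff_ne_empty.2 hemp
      have h3 := mem_filter.1 hn0
      have h4 := hT _ h3.2
      have h5 := hT _ h3.1
      refine few_orders hp (d := e + 1) (by omega) (by omega) _ fun n hn => ?_
      have h6 := mem_filter.1 hn
      have h7 := hT _ h6.2
      have h8 := hT _ h6.1
      refine ⟨by omega, key hp (by omega) (by omega) ?_⟩
      have h9 := dvd_sub h8.2.2 h7.2.2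
      have h10 : A p n - b - (A p (n + (e + 1)) - b) = A p n - A p (n + (e + 1)) := by ring
      rwa [h10] at h9
  have h2 : T2.card ≤ (L + D) / (D + 1) := by
    rw [Nat.le_div_iff_mul_le (by omega)]
    have h3 : T2.card * (D + 1) = (T2 ×ˢ range (D + 1)).card := by
      rw [card_product, card_range]
    rw [h3]
    have h4 : (T2 ×ˢ range (D + 1)).card ≤ (Ioc M (M + L + D)).card := by
      refine card_le_card_of_injOn (fun q => q.1 + q.2) ?_ ?_
      · rintro ⟨n, i⟩ hq
        simp only [coe_product, Set.mem_prod, mem_coe, mem_range] at hq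
        have h5 := hT n (mem_filter.1 hq.1).1
        simp only [coe_Ioc, Set.mem_Ioc]
        omega
      · rintro ⟨n, i⟩ hq ⟨n', i'⟩ hq' heq
        simp only [coe_product, Set.mem_prod, mem_coe, mem_range] at hq hq'
        simp only at heq
        have h5 := mem_filter.1 hq.1
        have h6 := mem_filter.1 hq'.1
        rcases lt_trichotomy n n' with h | h | h
        · exfalso
          exact h5.2 ⟨n' - n, by omega, by omega, by rw [show n + (n' - n) = n' by omega]; exact h6.1⟩
        · subst h
          have : i = i' := by omega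
          rw [this]
        · exfalso
          exact h6.2 ⟨n - n', by omega, by omega, by rw [show n' + (n - n') = n by omega]; exact h5.1⟩
    rw [Nat.card_Ioc] at h4
    omega
  omega

end Pool.Agent.X173.Wil
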